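import Pool.Agent.MP_94fa45_ag.C73.Stmt

/-! The functor of sections with support is right adjoint to the direct image. -/

open CategoryTheory Limits TopologicalSpace Opposite

noncomputable section
namespace C73

variable {X : TopCat.{0}} (Z : Closeds X)

/-- the inclusion of a closed subset -/
def inc : TopCat.of Z ⟶ X := TopCat.ofHom ⟨Subtype.val, continuous_subtype_val⟩

theorem pre_hat (W : Opens (TopCat.of Z)) : (Opens.map (inc Z)).obj (hat Z W) ≤ W :=
  fun x hx => by_contra fun h => hx ⟨x, h, rfl⟩

theorem le_hat (U : Opens X) : U ≤ hat Z ((Opens.map (inc Z)).obj U) := by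
  rintro _ hx ⟨y, hy, rfl⟩
  exact hy hx

theorem sec_bot {Y : TopCat.{0}} (G : Sh Y) {W : Opens Y} (h : W ≤ ⊥) (s : G.obj.obj (op W)) :
    s = 0 := by
  have := (G.isTerminalOfEqEmpty (le_bot_iff.1 h)).isZero
  exact (ModuleCat.subsingleton_of_isZero this).elim _ _

theorem res_self {Y : TopCat.{0}} (G : Sh Y) {W : Opens Y} (h : W ≤ W) (s : G.obj.obj (op W)) :
    G.obj.map (homOfLE h).op s = s :=
  congrArg (fun g => (ModuleCat.Hom.hom g) s) (G.obj.map_id (op W))

theorem sh_ext {Y : TopCat.{0}} {F G : Sh Y} {f g : F ⟶ G}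
    (h : ∀ U s, (f.hom.app (op U)).hom s = (g.hom.app (op U)).hom s) : f = g :=
  ObjectProperty.hom_ext _ (NatTrans.ext (funext fun U => ModuleCat.hom_ext (LinearMap.ext (h U.unop))))

/-- the adjunction `i_* ⊣ i^!` -/
def shAdj : TopCat.Sheaf.pushforward (ModuleCat.{0} ℚ) (inc Z) ⊣ shriek0 Z where
  unit :=
    { app G := ⟨{
        app W := ModuleCat.ofHom ((G.obj.map (homOfLE (pre_hat Z W.unop)).op).hom.codRestrict
          (secOn Z ((TopCat.Sheaf.pushforward (ModuleCat.{0} ℚ) (inc Z)).obj G) W.unop)
          fun _ => sec_bot G (pre_hat Z ⊥) _)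
        naturality W W' h := by
          ext s
          exact Subtype.ext ((res_res G _ h.unop.le s).trans (res_res G
            ((Opens.map (inc Z)).monotone (hat_mono Z h.unop.le)) _ s).symm) }⟩
      naturality G G' f := sh_ext fun W s =>
        Subtype.ext (congrArg (fun g => (ModuleCat.Hom.hom g) s)
          (f.hom.naturality (homOfLE (pre_hat Z W)).op)).symm }
  counit :=
    { app F := ⟨{
        app U := ModuleCat.ofHom ((F.obj.map (homOfLE (le_hat Z U.unop)).op).hom ∘ₗ
          (secOn Z F ((Opens.map (inc Z)).obj U.unop)).subtype)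
        naturality U U' h := by
          ext s
          exact (res_res F _ (hat_mono Z ((Opens.map (inc Z)).monotone h.unop.le)) s.1).trans
            (res_res F h.unop.le _ s.1).symm }⟩
      naturality F F' f := sh_ext fun U s =>
        (congrArg (fun g => (ModuleCat.Hom.hom g) s.1)
          (f.hom.naturality (homOfLE (le_hat Z U)).op)).symm }
  left_triangle_components G := sh_ext fun U s =>
    (res_res G ((Opens.map (inc Z)).monotone (le_hat Z U)) _ s).trans (res_self G _ s)
  right_triangle_components F := sh_ext fun W s =>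
    Subtype.ext ((res_res F _ (hat_mono Z (pre_hat Z W)) s.1).trans (res_self F _ s.1))

theorem inc_left : (TopCat.Sheaf.pushforward (ModuleCat.{0} ℚ) (inc Z)).IsLeftAdjoint :=
  (shAdj Z).isLeftAdjoint

theorem right_add {C D : Type*} [Category C] [Category D] [Preadditive C] [Preadditive D]
    (F : C ⥤ D) [F.Additive] [F.IsLeftAdjoint] : F.rightAdjoint.Additive :=
  (Adjunction.ofIsLeftAdjoint F).right_adjoint_additive

/-- isomorphic functors have isomorphic derived functors -/
def rdIso {Y : TopCat.{0}} {F G : Sh X ⥤ Sh Y} [F.Additive] [G.Additive] (e : F ≅ G) :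
    F.rightDerivedFunctorPlus ≅ G.rightDerivedFunctorPlus :=
  Functor.rightDerivedNatIso _ _ F.rightDerivedFunctorPlusUnit G.rightDerivedFunctorPlusUnit
    (HomotopyCategory.Plus.quasiIso _) (Functor.isoWhiskerRight
      ((Functor.mapHomotopyCategoryPlusCompIso F.rightUnitor).symm ≪≫
        Functor.mapHomotopyCategoryPlusCompIso (F.rightUnitor ≪≫ e)) _)

end C73
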