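import Mathlib

attribute [-instance] NonUnitalNonAssocSemiring.toAddCommMonoid Semiring.toAddCommMonoid
  AddGroupWithOne.toAddGroup AddMonoidWithOne.toAddMonoid
  NonUnitalAlgSemiHomClass.toDistribMulActionSemiHomClass Distrib.toAdd
  NonUnitalNonAssocSemiring.toMulZeroClass MonoidWithZeroHomClass.toZeroHomClass
  MulSemiringAction.toDistribMulAction AddCommMonoidWithOne.toAddCommMonoid Algebra.toSMul
  Rat.instDistribSMul instSMulZeroClass MulZeroOneClass.toMulZeroClass DivisionSemiring.toSemiring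
  LinearOrderedAddCommMonoidWithTop.toAddCommMonoid Nat.instAtLeastTwoHAddOfNat
  MulSemiringActionSemiHomClass.toDistribMulActionSemiHomClass FunLike.toDecidableEq
  Group.IsPerfect.subsingleton_of_isMulCommutative LinearOrderedAddCommGroupWithTop.toAddCommMonoid
  Action.FintypeCat.instMulActionObjFiniteOf NormedRing.toRing

/-! The support model of bounded-below complexes of flasque sheaves of `ℚ`-vector spaces:
one vector space `A` of global sections (degree `k` part `gr k`), a differential `d`, and a closed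
support `supp s`.  Sections over `U` (germs along any subset `C`) are `A / N U` (`A / N C`). -/

open Set Filter Topology

noncomputable section
namespace C73

structure PC (X : Type) [TopologicalSpace X] where
  A : Type
  [acg : AddCommGroup A]
  [mod : Module ℚ A]
  gr : ℤ → Submodule ℚ A
  d : A →ₗ[ℚ] A
  supp : A → Set X
  d_gr : ∀ {k s}, s ∈ gr k → d s ∈ gr (k + 1)
  closed : ∀ s, IsClosed (supp s)
  supp_zero : supp 0 = ∅
  supp_add : ∀ s t, supp (s + t) ⊆ supp s ∪ supp t
  supp_smul : ∀ (c : ℚ) s, supp (c • s) ⊆ supp s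
  supp_d : ∀ {k s}, s ∈ gr k → supp (d s) ⊆ supp s
  supp_dd : ∀ {k s}, s ∈ gr k → supp (d (d s)) = ∅
  bdd : ∃ k0 : ℤ, ∀ k < k0, ∀ s ∈ gr k, supp s = ∅

attribute [instance] PC.acg PC.mod

variable {X Y : Type} [TopologicalSpace X] [TopologicalSpace Y]

namespace PC

/-- elements vanishing near `C` -/
def N (I : PC X) (C : Set X) : Submodule ℚ I.A where
  carrier := {s | Disjoint (I.supp s) C}
  zero_mem' := by simp [I.supp_zero]
  add_mem' := fun {s t} hs ht =>
    Disjoint.mono_left (I.supp_add s t) (disjoint_union_left.2 ⟨hs, ht⟩)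
  smul_mem' := fun c s hs => Disjoint.mono_left (I.supp_smul c s) hs

theorem mem_N (I : PC X) {C : Set X} {s : I.A} : s ∈ I.N C ↔ Disjoint (I.supp s) C := Iff.rfl

theorem supp_neg (I : PC X) (s : I.A) : I.supp (-s) ⊆ I.supp s := by
  simpa using I.supp_smul (-1) s

theorem supp_sub (I : PC X) (s t : I.A) : I.supp (s - t) ⊆ I.supp s ∪ I.supp t := by
  rw [sub_eq_add_neg]
  exact (I.supp_add _ _).trans (union_subset_union_right _ (I.supp_neg t))

/-- the sheaf (gluing) property; together with the shape of the model it means flasque sheaves -/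
def Fl (I : PC X) : Prop :=
  ∀ (k : ℤ) (κ : Type) (U : κ → Set X) (s : κ → I.A), (∀ i, IsOpen (U i)) → (∀ i, s i ∈ I.gr k) →
    (∀ i j, s i - s j ∈ I.N (U i ∩ U j)) → ∃ t ∈ I.gr k, ∀ i, t - s i ∈ I.N (U i)

/-- degree `k` cocycles of the pair `C' ⊆ C` (complex `N C' / N C`) -/
def Zc (I : PC X) (k : ℤ) (C C' : Set X) (s : I.A) : Prop :=
  s ∈ I.gr k ∧ s ∈ I.N C' ∧ I.d s ∈ I.N C

/-- degree `k` coboundaries of the pair -/
def Bd (I : PC X) (k : ℤ) (C C' : Set X) (s : I.A) : Prop :=
  ∃ t ∈ I.gr (k - 1), t ∈ I.N C' ∧ s - I.d t ∈ I.N C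

/-- `H^k(C, C') = 0` -/
def Van (I : PC X) (k : ℤ) (C C' : Set X) : Prop := ∀ s, I.Zc k C C' s → I.Bd k C C' s

/-- `H^k(C, C')` is finite dimensional -/
def FinD (I : PC X) (k : ℤ) (C C' : Set X) : Prop :=
  ∃ (n : ℕ) (z : Fin n → I.A), (∀ j, I.Zc k C C' (z j)) ∧
    ∀ s, I.Zc k C C' s → ∃ c : Fin n → ℚ, I.Bd k C C' (s - ∑ j, c j • z j)

/-- at `x` the complex is `ℚ[n]`, generated by `s0` -/
def ResAt (I : PC X) (n : ℤ) (s0 : I.A) (x : X) : Prop :=
  I.Zc (-n) {x} ∅ s0 ∧ ¬ I.Bd (-n) {x} ∅ s0 ∧
    (∀ s, I.Zc (-n) {x} ∅ s → ∃ c : ℚ, I.Bd (-n) {x} ∅ (s - c • s0)) ∧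
    ∀ k, k ≠ -n → I.Van k {x} ∅

/-- restriction along a continuous map (flasque for open embeddings, and for embeddings into
metrizable spaces) -/
def comap (I : PC X) (e : Y → X) (he : Continuous e) : PC Y :=
  { I with
    supp := fun s => e ⁻¹' I.supp s
    closed := fun s => (I.closed s).preimage he
    supp_zero := by simp [I.supp_zero]
    supp_add := fun s t => (preimage_mono (I.supp_add s t)).trans preimage_union.subset
    supp_smul := fun c s => preimage_mono (I.supp_smul c s)
    supp_d := fun h => preimage_mono (I.supp_d h)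
    supp_dd := fun h => by simp [I.supp_dd h]
    bdd := let ⟨k0, h⟩ := I.bdd; ⟨k0, fun k hk s hs => by simp [h k hk s hs]⟩ }

/-- direct image -/
def push (I : PC X) (p : X → Y) : PC Y :=
  { I with
    supp := fun s => closure (p '' I.supp s)
    closed := fun _ => isClosed_closure
    supp_zero := by simp only [I.supp_zero, image_empty, isClosed_empty, IsClosed.closure_eq]
    supp_add := fun s t => by
      rw [← closure_union, ← image_union]; exact closure_mono (image_mono (I.supp_add s t))
    supp_smul := fun c s => closure_mono (image_mono (I.supp_smul c s))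
    supp_d := fun h => closure_mono (image_mono (I.supp_d h))
    supp_dd := fun h => by simp only [I.supp_dd h, image_empty, isClosed_empty, IsClosed.closure_eq]
    bdd := let ⟨k0, h⟩ := I.bdd; ⟨k0, fun k hk s hs => by simp only [h k hk s hs, image_empty, isClosed_empty, IsClosed.closure_eq]⟩ }

/-- sections supported on `Z` (`Γ_Z`) -/
def on (I : PC X) (Z : Set X) : PC X :=
  { I with
    gr := fun k => I.gr k ⊓ I.N Zᶜ
    d_gr := fun h => ⟨I.d_gr h.1, Disjoint.mono_left (I.supp_d h.1) h.2⟩
    supp_d := fun h => I.supp_d h.1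
    supp_dd := fun h => I.supp_dd h.1
    bdd := let ⟨k0, h⟩ := I.bdd; ⟨k0, fun k hk s hs => h k hk s hs.1⟩ }

/-- `j_* j^*` for `j : U → X` -/
def loc (I : PC X) (U : Set X) : PC X :=
  (I.comap (Subtype.val : U → X) continuous_subtype_val).push Subtype.val

end PC

open Classical in
/-- the constant presheaf `E[n]` (not flasque) -/
def cstPC (X : Type) [TopologicalSpace X] (E : Type) [AddCommGroup E] [Module ℚ E] (n : ℤ) :
    PC X where
  A := E
  gr k := if k = -n then ⊤ else ⊥
  d := 0
  supp e := if e = 0 then ∅ else univ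
  d_gr _ := by simp only [LinearMap.zero_apply, zero_mem]
  closed e := by split_ifs <;> simp only [isClosed_empty, isClosed_univ]
  supp_zero := by simp
  supp_add s t := by
    by_cases hs : s = 0 <;> by_cases ht : t = 0 <;> simp only [hs, ht, add_zero, ↓ reduceIte, union_self, Std.le_refl, zero_add, union_univ, union_empty, subset_univ]
  supp_smul c s := by
    by_cases hs : s = 0 <;> simp [hs]
  supp_d _ := by simp
  supp_dd _ := by simp
  bdd := ⟨-n, fun k hk s hs => by
    rw [if_neg hk.ne, Submodule.mem_bot] at hs; simp [hs]⟩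

/-- finite direct sums -/
def piPC {κ : Type} [Finite κ] (I : κ → PC X) : PC X where
  A := ∀ a, (I a).A
  gr k := Submodule.pi univ fun a => (I a).gr k
  d := LinearMap.pi fun a => (I a).d ∘ₗ LinearMap.proj a
  supp s := ⋃ a, (I a).supp (s a)
  d_gr h a ha := (I a).d_gr (h a ha)
  closed s := isClosed_iUnion_of_finite fun a => (I a).closed _
  supp_zero := by simp only [Pi.zero_apply, PC.supp_zero, iUnion_empty]
  supp_add s t := by
    rw [← iUnion_union_distrib]; exact iUnion_mono fun a => (I a).supp_add _ _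
  supp_smul c s := iUnion_mono fun a => (I a).supp_smul _ _
  supp_d h := iUnion_mono fun a => (I a).supp_d (h a trivial)
  supp_dd h := iUnion_eq_empty.2 fun a => (I a).supp_dd (h a trivial)
  bdd := by
    choose k0 h using fun a => (I a).bdd
    obtain ⟨b, hb⟩ := (finite_range k0).bddBelow
    exact ⟨b, fun k hk s hs => iUnion_eq_empty.2 fun a =>
      h a k (hk.trans_le (hb ⟨a, rfl⟩)) _ (hs a trivial)⟩

/-- a morphism `I → p_* J` for `p : Y → X` -/
structure Hom (p : Y → X) (I : PC X) (J : PC Y) where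
  f : I.A →ₗ[ℚ] J.A
  gr : ∀ {k s}, s ∈ I.gr k → f s ∈ J.gr k
  supp : ∀ {k s}, s ∈ I.gr k → J.supp (f s) ⊆ p ⁻¹' I.supp s
  comm : ∀ {k s}, s ∈ I.gr k → J.supp (f (I.d s) - J.d (f s)) = ∅

/-- `f` induces a surjection `H^k(I; C, C') → H^k(J; D, D')` -/
def Sur (I : PC X) (J : PC Y) (f : I.A →ₗ[ℚ] J.A) (k : ℤ) (C C' : Set X) (D D' : Set Y) : Prop :=
  ∀ s', J.Zc k D D' s' → ∃ s, I.Zc k C C' s ∧ J.Bd k D D' (s' - f s)

/-- `f` induces an injection `H^k(I; C, C') → H^k(J; D, D')` -/
def Inj (I : PC X) (J : PC Y) (f : I.A →ₗ[ℚ] J.A) (k : ℤ) (C C' : Set X) (D D' : Set Y) : Prop :=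
  ∀ s, I.Zc k C C' s → J.Bd k D D' (f s) → I.Bd k C C' s

/-- bijective in all degrees -/
def Bij (I : PC X) (J : PC Y) (f : I.A →ₗ[ℚ] J.A) (C C' : Set X) (D D' : Set Y) : Prop :=
  ∀ k, Sur I J f k C C' D D' ∧ Inj I J f k C C' D D'

/-- stalkwise quasi-isomorphism at `y` -/
def Hom.CartAt {p : Y → X} {I : PC X} {J : PC Y} (φ : Hom p I J) (y : Y) : Prop :=
  Bij I J φ.f {p y} ∅ {y} ∅

/-- stalkwise quasi-isomorphism -/
def Hom.Cart {p : Y → X} {I : PC X} {J : PC Y} (φ : Hom p I J) : Prop := ∀ y, φ.CartAt y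

/-- connected by a zigzag of stalkwise quasi-isomorphisms of flasque complexes -/
def Eqv : PC X → PC X → Prop :=
  Relation.EqvGen fun I J => I.Fl ∧ J.Fl ∧ ∃ φ : Hom id I J, φ.Cart

/-- mapping cone -/
def Hom.cone {I J : PC X} (φ : Hom id I J) : PC X where
  A := I.A × J.A
  gr k := (I.gr (k + 1)).prod (J.gr k)
  d := LinearMap.prod (-(I.d ∘ₗ LinearMap.fst ℚ I.A J.A))
    (φ.f ∘ₗ LinearMap.fst ℚ I.A J.A + J.d ∘ₗ LinearMap.snd ℚ I.A J.A)
  supp s := I.supp s.1 ∪ J.supp s.2
  d_gr h := ⟨neg_mem (I.d_gr h.1), add_mem (φ.gr h.1) (J.d_gr h.2)⟩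
  closed s := (I.closed _).union (J.closed _)
  supp_zero := by simp [PC.supp_zero]
  supp_add s t := by
    rw [union_union_union_comm]; exact union_subset_union (I.supp_add _ _) (J.supp_add _ _)
  supp_smul c s := union_subset_union (I.supp_smul _ _) (J.supp_smul _ _)
  supp_d {k s} h := union_subset (((I.supp_neg _).trans (I.supp_d h.1)).trans subset_union_left)
    ((J.supp_add _ _).trans (union_subset_union (φ.supp h.1) (J.supp_d h.2)))
  supp_dd {k s} h := by
    have h1 : I.supp (- I.d (- I.d s.1)) = ∅ := by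
      rw [map_neg, neg_neg]; exact I.supp_dd h.1
    have h2 : J.supp (φ.f (- I.d s.1) + J.d (φ.f s.1 + J.d s.2)) = ∅ := by
      have : φ.f (- I.d s.1) + J.d (φ.f s.1 + J.d s.2) =
          -(φ.f (I.d s.1) - J.d (φ.f s.1)) + J.d (J.d s.2) := by
        rw [map_neg, map_add]; abel
      rw [this]
      refine subset_eq_empty ((J.supp_add _ _).trans
        (union_subset_union (J.supp_neg _) subset_rfl)) ?_
      rw [φ.comm h.1, J.supp_dd h.2, union_empty]
    exact union_empty_iff.2 ⟨h1, h2⟩
  bdd := by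
    obtain ⟨a, ha⟩ := I.bdd
    obtain ⟨b, hb⟩ := J.bdd
    exact ⟨min (a - 1) b, fun k hk s hs => union_empty_iff.2
      ⟨ha (k + 1) (by omega) _ hs.1, hb k (by omega) _ hs.2⟩⟩

/-! ### Godement's simplicial resolution on lists of points (with pull-back and truncation) -/

section God
variable {M : Type} [AddCommGroup M] [Module ℚ M]

/-- simplicial coboundary of a function on lists -/
def dl : (List Y → M) → List Y → M
  | _, [] => 0
  | s, x :: l => s l - dl (fun l' => s (x :: l')) l

omit [TopologicalSpace Y] [Module ℚ M] in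
theorem dl_add (s t : List Y → M) : dl (s + t) = dl s + dl t := by
  funext l
  induction l generalizing s t with
  | nil => simp [dl]
  | cons x l ih =>
    have := ih (fun l' => s (x :: l')) (fun l' => t (x :: l'))
    simp only [dl, Pi.add_apply] at this ⊢
    rw [show (fun l' => s (x :: l') + t (x :: l')) =
      (fun l' => s (x :: l')) + fun l' => t (x :: l') from rfl, this]
    abel

omit [TopologicalSpace Y] in
theorem dl_map {M' : Type} [AddCommGroup M'] [Module ℚ M'] (g : M →ₗ[ℚ] M') (s : List Y → M)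
    (l : List Y) : dl (fun l => g (s l)) l = g (dl s l) := by
  induction l generalizing s with
  | nil => simp [dl]
  | cons x l ih => simp only [dl, map_sub]; rw [ih fun l' => s (x :: l')]

omit [TopologicalSpace Y] in
theorem dl_smul (c : ℚ) (s : List Y → M) : dl (c • s) = c • dl s :=
  funext fun l => dl_map (c • LinearMap.id) s l

omit [TopologicalSpace Y] in
theorem dl_sub (s t : List Y → M) : dl (s - t) = dl s - dl t := by
  rw [sub_eq_add_neg, dl_add, ← neg_one_smul ℚ t, dl_smul, neg_one_smul, sub_eq_add_neg]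

omit [TopologicalSpace Y] in
theorem dl_dl (s : List Y → M) : dl (dl s) = 0 := by
  funext l
  induction l generalizing s with
  | nil => rfl
  | cons x l ih =>
    have h : (fun l' => dl s (x :: l')) = s - dl fun l' => s (x :: l') := rfl
    show dl s l - dl (fun l' => dl s (x :: l')) l = 0
    rw [h, dl_sub, Pi.sub_apply, ih]
    simp

/-- `dl` as a linear map -/
def dlL : (List Y → M) →ₗ[ℚ] (List Y → M) := ⟨⟨dl, dl_add⟩, dl_smul⟩

/-- `(-1)^{|l|+1} d` -/
def sgnD (d : M →ₗ[ℚ] M) : (List Y → M) →ₗ[ℚ] (List Y → M) :=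
  LinearMap.pi fun l => ((-1 : ℚ) ^ (l.length + 1) • d) ∘ₗ LinearMap.proj l

/-- total differential -/
def gD (d : M →ₗ[ℚ] M) : (List Y → M) →ₗ[ℚ] (List Y → M) := dlL + sgnD d

omit [TopologicalSpace Y] in
theorem gD_apply (d : M →ₗ[ℚ] M) (s : List Y → M) : gD d s = dl s + sgnD d s := rfl

omit [TopologicalSpace Y] in
theorem sgnD_apply (d : M →ₗ[ℚ] M) (s : List Y → M) (l : List Y) :
    sgnD d s l = (-1 : ℚ) ^ (l.length + 1) • d (s l) := rfl

omit [TopologicalSpace Y] in
theorem sgnD_cons (d : M →ₗ[ℚ] M) (s : List Y → M) (x : Y) :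
    (fun l => sgnD d s (x :: l)) = -sgnD d fun l => s (x :: l) := by
  funext l; simp only [sgnD_apply, List.length_cons, pow_succ, mul_neg, mul_one, neg_neg, Pi.neg_apply, neg_smul]

omit [TopologicalSpace Y] in
theorem dl_sgnD (d : M →ₗ[ℚ] M) (s : List Y → M) : dl (sgnD d s) = -sgnD d (dl s) := by
  funext l
  induction l generalizing s with
  | nil => simp [dl, sgnD_apply]
  | cons x l ih =>
    show sgnD d s l - dl (fun l' => sgnD d s (x :: l')) l = _
    rw [sgnD_cons, ← neg_one_smul ℚ (sgnD d _), dl_smul, Pi.smul_apply, ih]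
    simp only [sgnD_apply, pow_succ, mul_neg, mul_one, neg_smul, Pi.neg_apply, neg_neg, one_smul, sub_neg_eq_add, List.length_cons, dl, map_sub, smul_sub, neg_sub]; abel

omit [TopologicalSpace Y] in
theorem dl_mem (G : ℕ → Submodule ℚ M) (s : List Y → M) (l : List Y) (n : ℕ)
    (h : ∀ l', s l' ∈ G (n + l'.length + 1)) : dl s l ∈ G (n + l.length) := by
  induction l generalizing s n with
  | nil => exact zero_mem _
  | cons x l ih =>
    refine sub_mem (h l) ?_
    have := ih (fun l' => s (x :: l')) (n + 1) fun l' => by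
      have := h (x :: l'); rwa [List.length_cons, show n + (l'.length + 1) + 1 =
        n + 1 + l'.length + 1 by ring] at this
    rwa [List.length_cons, show n + (l.length + 1) = n + 1 + l.length by ring]

end God

/-- the value of `s` on lists `z₁ … z_n` with `z₁` near `z`, `z₂` near `z₁`, … vanishes at the image
of the last point -/
def Nul (p : Y → X) (I : PC X) : ℕ → Y → (List Y → I.A) → Prop
  | 0, z, s => p z ∉ I.supp (s [])
  | n + 1, z, s => ∀ᶠ z' in 𝓝 z, Nul p I n z' fun l => s (z' :: l)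

section
variable {p : Y → X} {I : PC X}

theorem Nul.of_supp {X' : Type} [TopologicalSpace X'] {p' : Y → X'} {J : PC X'} {n : ℕ} {z : Y}
    {s t : List Y → I.A} {u : List Y → J.A} (hs : Nul p I n z s) (ht : Nul p I n z t)
    (h : ∀ l y, p' y ∈ J.supp (u l) → p y ∈ I.supp (s l) ∪ I.supp (t l)) : Nul p' J n z u := by
  induction n generalizing z s t u with
  | zero => exact fun hu => (h _ _ hu).elim hs ht
  | succ n ih => exact (hs.and ht).mono fun z' h' => ih h'.1 h'.2 fun l => h _

theorem Nul.mono {n : ℕ} {z : Y} {s u : List Y → I.A} (hs : Nul p I n z s)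
    (h : ∀ l, I.supp (u l) ⊆ I.supp (s l)) : Nul p I n z u :=
  hs.of_supp hs fun l _ hy => Or.inl (h l hy)

theorem Nul.add {n : ℕ} {z : Y} {s t : List Y → I.A} (hs : Nul p I n z s) (ht : Nul p I n z t) :
    Nul p I n z (s + t) := hs.of_supp ht fun _ _ hy => I.supp_add _ _ hy

theorem Nul.sub {n : ℕ} {z : Y} {s t : List Y → I.A} (hs : Nul p I n z s) (ht : Nul p I n z t) :
    Nul p I n z (s - t) := hs.of_supp ht fun _ _ hy => I.supp_sub _ _ hy

theorem Nul.of_empty {n : ℕ} {z : Y} {s : List Y → I.A}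
    (h : ∀ l, l.length = n → I.supp (s l) = ∅) : Nul p I n z s := by
  induction n generalizing z s with
  | zero => simp [Nul, h [] rfl]
  | succ n ih => exact Eventually.of_forall fun z' => ih fun l hl => h _ (by simp [hl])

theorem Nul.eventually (hp : Continuous p) {n : ℕ} {z : Y} {s : List Y → I.A}
    (h : Nul p I n z s) : ∀ᶠ z' in 𝓝 z, Nul p I n z' s := by
  cases n with
  | zero => exact ((I.closed _).preimage hp).isOpen_compl.mem_nhds h
  | succ n => exact eventually_eventually_nhds.2 h

theorem Nul.dl (hp : Continuous p) {n : ℕ} {z : Y} {s : List Y → I.A}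
    (h : ∀ m, m + 1 = n → Nul p I m z s) : Nul p I n z (dl s) := by
  induction n generalizing z s with
  | zero => simp [Nul, C73.dl, I.supp_zero]
  | succ n ih =>
    have h1 := (h n rfl).eventually hp
    cases n with
    | zero => exact h1.mono fun z' h' => Nul.sub h' (ih fun m hm => by omega)
    | succ n =>
      exact (h1.and (h _ rfl)).mono fun z' h' => Nul.sub h'.1 (ih fun m hm => by
        obtain rfl : m = n := by omega
        exact h'.2)

omit [TopologicalSpace Y] in
theorem supp_sgnD {k : ℤ} {s : List Y → I.A} {l : List Y} (h : s l ∈ I.gr k) :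
    I.supp (sgnD I.d s l) ⊆ I.supp (s l) := (I.supp_smul _ _).trans (I.supp_d h)

end

omit [TopologicalSpace Y] in
theorem god_cons {M : Type} [AddCommGroup M] [Module ℚ M] (d : M →ₗ[ℚ] M) (s : List Y → M)
    (z : Y) : (fun l => gD d s (z :: l)) =
      s - dl (fun l => s (z :: l)) - sgnD d fun l => s (z :: l) := by
  rw [sub_eq_add_neg _ (sgnD d _), ← sgnD_cons]; rfl

omit [TopologicalSpace Y] in
theorem god_dd {M : Type} [AddCommGroup M] [Module ℚ M] (d : M →ₗ[ℚ] M) (s : List Y → M) :
    gD d (gD d s) =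
      fun l => d (d (s l)) := by
  show dl (dl s + sgnD d s) + sgnD d (dl s + sgnD d s) = _
  rw [dl_add, dl_dl, dl_sgnD, map_add]
  funext l
  simp only [zero_add, Pi.add_apply, Pi.neg_apply, sgnD_apply, map_smul, smul_smul, ← mul_pow, mul_neg, mul_one, neg_neg, one_pow, one_smul, neg_add_cancel_left]

/-- Godement resolution of `p^* I` -/
def god (p : Y → X) (hp : Continuous p) (I : PC X) : PC Y where
  A := List Y → I.A
  gr k := Submodule.pi univ fun l => if l = [] then ⊥ else I.gr (k + 1 - l.length)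
  d := gD I.d
  supp s := {x | ¬ ∀ᶠ z in 𝓝 x, ∀ n, Nul p I n z fun l => s (z :: l)}
  d_gr {k s} h l _ := by
    have h0 : s [] = 0 := by simpa using h [] trivial
    have h1 : ∀ l', s l' ∈ I.gr (k + 1 - l'.length) := fun l' => by
      by_cases hl : l' = []
      · rw [hl, h0]; exact zero_mem _
      · simpa [hl] using h l' trivial
    show _ ∈ (if l = [] then ⊥ else I.gr (k + 1 + 1 - l.length))
    split_ifs with hl
    · subst hl; simp [gD_apply, dl, sgnD_apply, h0]
    · show dl s l + (-1 : ℚ) ^ (l.length + 1) • I.d (s l) ∈ _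
      refine add_mem ?_ (Submodule.smul_mem _ _ ?_)
      · have := dl_mem (fun n => I.gr (k + 1 + 1 - n)) s l 0 fun l' => by
          convert h1 l' using 2; push_cast; ring
        rw [zero_add] at this
        exact this
      · convert I.d_gr (h1 l) using 2; ring
  closed s := isOpen_compl_iff.1 (by simpa only [not_eventually, not_forall, compl_ofPred, not_frequently, not_exists, not_not] using isOpen_setOfPred_eventually_nhds)
  supp_zero := eq_empty_of_forall_notMem fun x hx => hx
    (Eventually.of_forall fun z n => Nul.of_empty fun _ _ => I.supp_zero)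
  supp_add s t x hx := by
    by_contra h
    simp only [mem_union, mem_ofPred_eq, not_or, not_not] at h
    exact hx ((h.1.and h.2).mono fun z hz n => (hz.1 n).add (hz.2 n))
  supp_smul c s x hx h := hx (h.mono fun z hz n => (hz n).mono fun l => I.supp_smul _ _)
  supp_d {k s} h x hx hs := hx (by
    filter_upwards [hs, eventually_eventually_nhds.2 hs] with z h1 h2 n
    rw [god_cons]
    refine Nul.sub (Nul.sub ?_ (Nul.dl hp fun m _ => h1 m)) ((h1 n).mono fun l =>
      supp_sgnD (k := k + 1 - (z :: l).length) (by simpa only [List.length_cons, Nat.cast_add, Nat.cast_one, add_sub_add_right_eq_sub, reduceCtorEq, ↓ reduceIte, SetLike.mem_coe] using h (z :: l) trivial))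
    cases n with
    | zero => simp [Nul, show s [] = 0 by simpa using h [] trivial, I.supp_zero]
    | succ n => exact h2.mono fun z' h' => h' n)
  supp_dd {k s} h := eq_empty_of_forall_notMem fun x hx => hx
    (Eventually.of_forall fun z n => Nul.of_empty fun l _ => by
      rw [god_dd]
      exact I.supp_dd (k := k + 1 - (z :: l).length) (by simpa using h (z :: l) trivial))
  bdd := let ⟨k0, hk⟩ := I.bdd
    ⟨k0, fun k hk' s h => eq_empty_of_forall_notMem fun x hx => hx
      (Eventually.of_forall fun z n => Nul.of_empty fun l _ =>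
        hk (k + 1 - (z :: l).length) (by simp; omega) _ (by simpa using h (z :: l) trivial))⟩

/-- the truncation condition -/
def truncGr (I : PC X) (c k : ℤ) : Submodule ℚ (List X → I.A) where
  carrier := {s | (∀ n : ℕ, c < k - n → ∀ z, Nul id I n z fun l => s (z :: l)) ∧
    ∀ n : ℕ, c = k - n → ∀ z, Nul id I n z fun l => I.d (s (z :: l))}
  zero_mem' := ⟨fun _ _ _ => Nul.of_empty fun _ _ => I.supp_zero,
    fun _ _ _ => Nul.of_empty fun _ _ => by simp only [Pi.zero_apply, map_zero, I.supp_zero]⟩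
  add_mem' hs ht := ⟨fun n h z => (hs.1 n h z).add (ht.1 n h z), fun n h z =>
    ((hs.2 n h z).add (ht.2 n h z)).mono fun l => by simp⟩
  smul_mem' c s hs := ⟨fun n h z => (hs.1 n h z).mono fun l => I.supp_smul _ _, fun n h z =>
    (hs.2 n h z).mono fun l => by simpa using I.supp_smul _ _⟩

/-- flasque model of `τ_{≤ c} I` -/
def trunc (c : ℤ) (I : PC X) : PC X :=
  { god id continuous_id I with
    gr := fun k => (god id continuous_id I).gr k ⊓ truncGr I c k
    d_gr := fun {k s} h => ⟨(god id continuous_id I).d_gr h.1, by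
      have h0 : s [] = 0 := by simpa using h.1 [] trivial
      have h1 : ∀ z l, s (z :: l) ∈ I.gr (k + 1 - (z :: l).length) := fun z l => by
        simpa using h.1 (z :: l) trivial
      refine ⟨fun n hn z => ?_, fun n hn z => ?_⟩
      · show Nul id I n z fun l => gD I.d s (z :: l)
        rw [god_cons]
        refine Nul.sub (Nul.sub ?_ (Nul.dl continuous_id fun m hm => h.2.1 m (by omega) z)) ?_
        · cases n with
          | zero => simp [Nul, h0, I.supp_zero]
          | succ n => exact Eventually.of_forall fun z' => h.2.1 n (by omega) z'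
        · rcases (show c < k - n ∨ c = k - n by omega) with h' | h'
          · exact (h.2.1 n h' z).mono fun l => supp_sgnD (h1 z l)
          · exact (h.2.2 n h' z).mono fun l => I.supp_smul _ _
      · have e : (fun l => I.d (gD I.d s (z :: l))) =
            (fun l => I.d (s l)) - dl (fun l => I.d (s (z :: l))) -
              fun l => (-1 : ℚ) ^ (l.length + 1) • I.d (I.d (s (z :: l))) := by
          funext l
          rw [congrFun (god_cons I.d s z) l]
          simp only [Pi.sub_apply, sgnD_apply, map_sub, map_smul, dl_map]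
        show Nul id I n z fun l => I.d (gD I.d s (z :: l))
        rw [e]
        refine Nul.sub (Nul.sub ?_ (Nul.dl continuous_id fun m hm => h.2.2 m (by omega) z)) ?_
        · cases n with
          | zero => simp [Nul, h0, I.supp_zero]
          | succ n => exact Eventually.of_forall fun z' => h.2.2 n (by omega) z'
        · exact Nul.of_empty fun l _ =>
            subset_eq_empty (I.supp_smul _ _) (I.supp_dd (h1 z l))⟩
    supp_d := fun h => (god id continuous_id I).supp_d h.1
    supp_dd := fun h => (god id continuous_id I).supp_dd h.1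
    bdd := let ⟨k0, h⟩ := (god id continuous_id I).bdd; ⟨k0, fun k hk s hs => h k hk s hs.1⟩ }

/-- flasque resolution of the constant sheaf `E[n]` -/
def resC (X : Type) [TopologicalSpace X] (E : Type) [AddCommGroup E] [Module ℚ E] (n : ℤ) :
    PC X := god id continuous_id (cstPC X E n)

/-- model of Deligne's recursion -/
def mdel (dm : X → ℕ) (n : ℕ) : ℕ → PC X
  | 0 => resC X ℚ n
  | t + 1 => trunc ((t : ℤ) - n) ((mdel dm n t).loc (interior {x | n ≤ dm x + t}))

/-- model of `IC` -/
def mIC (dm : X → ℕ) : PC X := mdel dm (sSup (range dm)) (sSup (range dm))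

/-- `dm` is lower semicontinuous and bounded by `n` -/
def Lsc (dm : X → ℕ) (n : ℕ) : Prop := (∀ d, IsOpen {x | d ≤ dm x}) ∧ ∀ x, dm x ≤ n

/-- conditions of Deligne -/
structure Ax (I : PC X) (dm : X → ℕ) (n : ℕ) : Prop where
  fl : I.Fl
  top : ∃ s0, ∀ x, dm x = n → I.ResAt n s0 x
  sup : ∀ x, dm x < n → ∀ k, -(dm x : ℤ) ≤ k → I.Van k {x} ∅
  cos : ∀ d < n, ∀ V, IsOpen V → (∀ x ∈ V, d ≤ dm x) → ∀ k ≤ -(d : ℤ),
    I.Van k V {x ∈ V | d < dm x}

/-- `p` is locally a projection `U × ℝ^m → U` -/
def LocProj (p : Y → X) : Prop :=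
  Continuous p ∧ ∀ y, ∃ (m : ℕ) (U : Set X) (e : U × (Fin m → ℝ) → Y), IsOpen U ∧
    IsOpenEmbedding e ∧ y ∈ range e ∧ ∀ u t, p (e (u, t)) = u

/-- `S` admits a continuous finite-to-one map to `ℝ^m` with `m ≤ n` -/
def FTO (S : Set X) (n : ℤ) : Prop :=
  S = ∅ ∨ ∃ m : ℕ, (m : ℤ) ≤ n ∧ ∃ π : X → Fin m → ℝ, ContinuousOn π S ∧
    ∀ y, (S ∩ π ⁻¹' {y}).Finite

/-- second countable, locally compact, Hausdorff (hence metrizable) -/
class Nice (X : Type) [TopologicalSpace X] : Prop extends
  T2Space X, LocallyCompactSpace X, SecondCountableTopology X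

/-! ### explicit morphisms -/

/-- the identity morphism -/
def Hom.refl (I : PC X) : Hom id I I :=
  ⟨LinearMap.id, fun h => h, fun _ => subset_rfl, fun _ => by simp [I.supp_zero]⟩

theorem Hom.supp_empty {p : Y → X} {I : PC X} {J : PC Y} (φ : Hom p I J) {k : ℤ} {s : I.A}
    (hs : s ∈ I.gr k) (h : I.supp s = ∅) : J.supp (φ.f s) = ∅ :=
  subset_eq_empty (φ.supp hs) (by simp [h])

/-- composition -/
def Hom.comp {W : Type} [TopologicalSpace W] {p : Y → X} {q : W → Y} {I : PC X} {J : PC Y}
    {K : PC W} (ψ : Hom q J K) (φ : Hom p I J) : Hom (p ∘ q) I K where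
  f := ψ.f ∘ₗ φ.f
  gr h := ψ.gr (φ.gr h)
  supp h := (ψ.supp (φ.gr h)).trans (preimage_mono (φ.supp h))
  comm {k s} h := by
    have e : (ψ.f ∘ₗ φ.f) (I.d s) - K.d ((ψ.f ∘ₗ φ.f) s) =
        ψ.f (φ.f (I.d s) - J.d (φ.f s)) + (ψ.f (J.d (φ.f s)) - K.d (ψ.f (φ.f s))) := by simp
    rw [e]
    refine subset_eq_empty (K.supp_add _ _) ?_
    rw [ψ.supp_empty (sub_mem (φ.gr (I.d_gr h)) (J.d_gr (φ.gr h))) (φ.comm h),
      ψ.comm (φ.gr h), union_empty]

section
variable {M M' : Type} [AddCommGroup M] [Module ℚ M] [AddCommGroup M'] [Module ℚ M']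

/-- `a ↦ (l ↦ a if |l| = 1, else 0)` -/
def uL (Y : Type) : M →ₗ[ℚ] (List Y → M) :=
  LinearMap.pi fun l => if l.length = 1 then LinearMap.id else 0

omit [TopologicalSpace Y] in
theorem uL_apply (a : M) (l : List Y) : uL Y a l = if l.length = 1 then a else 0 := by
  by_cases h : l.length = 1 <;> simp [uL, h]

omit [TopologicalSpace Y] in
theorem dl_zero : dl (0 : List Y → M) = 0 := (dlL (Y := Y) (M := M)).map_zero

omit [TopologicalSpace Y] in
open Classical in
theorem uL_eq (a : M) : uL Y a = dl fun l => if l = [] then a else 0 := by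
  funext l
  rcases l with _ | ⟨x, l⟩
  · simp [dl, uL_apply]
  · have : dl (fun _ : List Y => (0 : M)) l = 0 := congrFun dl_zero l
    by_cases hl : l = [] <;> simp [dl, hl, this, uL_apply]

omit [TopologicalSpace Y] in
theorem gD_uL (d : M →ₗ[ℚ] M) (a : M) : gD d (uL Y a) = uL Y (d a) := by
  rw [gD_apply, uL_eq, dl_dl, ← uL_eq, zero_add]
  funext l
  by_cases h : l.length = 1 <;> simp only [sgnD_apply, h, Nat.reduceAdd, even_two, Even.neg_pow, one_pow, uL_apply, ↓ reduceIte, one_smul, map_zero, smul_zero]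

/-- `s ↦ f ∘ s ∘ map p` -/
def mapL (p : Y → X) (f : M →ₗ[ℚ] M') : (List X → M) →ₗ[ℚ] (List Y → M') :=
  LinearMap.pi fun l => f ∘ₗ LinearMap.proj (l.map p)

omit [TopologicalSpace X] [TopologicalSpace Y] in
theorem mapL_apply (p : Y → X) (f : M →ₗ[ℚ] M') (s : List X → M) (l : List Y) :
    mapL p f s l = f (s (l.map p)) := rfl

omit [TopologicalSpace X] [TopologicalSpace Y] in
theorem dl_mapL (p : Y → X) (f : M →ₗ[ℚ] M') (s : List X → M) :
    dl (mapL p f s) = mapL p f (dl s) := by
  funext l
  induction l generalizing s with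
  | nil => simp only [dl, mapL_apply, List.map_nil, map_zero]
  | cons x l ih =>
    show f (s (l.map p)) - dl (mapL p f fun l' => s (p x :: l')) l = _
    rw [ih]; simp only [mapL_apply, List.map_cons, dl, map_sub]
end

theorem Nul.map {p : Y → X} (hp : Continuous p) {I : PC X} {J : PC Y} {n : ℕ} {z : Y}
    {s : List X → I.A} {u : List Y → J.A} (hs : Nul id I n (p z) s)
    (h : ∀ l, J.supp (u l) ⊆ p ⁻¹' I.supp (s (l.map p))) : Nul id J n z u := by
  induction n generalizing z s u with
  | zero => exact fun hu => hs (h _ hu)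
  | succ n ih => exact (hp.continuousAt.eventually hs).mono fun z' h' => ih h' fun l => h _

theorem god_gr {p : Y → X} {hp : Continuous p} {I : PC X} {k : ℤ} {s : List Y → I.A} :
    s ∈ (god p hp I).gr k ↔ s [] = 0 ∧ ∀ z l, s (z :: l) ∈ I.gr (k - l.length) := by
  refine ⟨fun h => ⟨by simpa using h [] trivial, fun z l => ?_⟩, fun h l _ => ?_⟩
  · have : s (z :: l) ∈ (if z :: l = [] then ⊥ else I.gr (k + 1 - (z :: l).length)) :=
      h (z :: l) trivial
    rw [if_neg (by simp)] at this
    convert this using 2; simp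
  · rcases l with _ | ⟨z, l⟩
    · simpa using h.1
    · show _ ∈ (if z :: l = [] then ⊥ else I.gr (k + 1 - (z :: l).length))
      rw [if_neg (by simp)]
      convert h.2 z l using 2; simp

theorem god_supp {p : Y → X} {hp : Continuous p} {I : PC X} {s : List Y → I.A} {x : Y} :
    x ∉ (god p hp I).supp s ↔ ∀ᶠ z in 𝓝 x, ∀ n, Nul p I n z fun l => s (z :: l) := not_not

theorem god_d {p : Y → X} {hp : Continuous p} {I : PC X} (s : List Y → I.A) :
    (god p hp I).d s = gD I.d s := rfl

/-- the unit `I → p_* god p I` -/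
def godU (p : Y → X) (hp : Continuous p) (I : PC X) : Hom p I (god p hp I) where
  f := uL Y
  gr {k s} h := god_gr.2 ⟨by show uL Y s [] = 0; simp [uL_apply], fun z l => by
    show uL Y s (z :: l) ∈ _
    by_cases hl : l = [] <;> simp [uL_apply, hl, h]⟩
  supp {k s} h x hx := by
    by_contra hs
    refine hx ?_
    filter_upwards [((I.closed s).preimage hp).isOpen_compl.mem_nhds hs] with z hz n
    cases n with
    | zero => exact hz
    | succ n =>
      refine Nul.of_empty fun l hl => ?_
      show I.supp (uL Y s (z :: l)) = ∅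
      simp [uL_apply, hl, I.supp_zero]
  comm {k s} h := by
    show (god p hp I).supp (uL Y (I.d s) - gD I.d (uL Y s)) = ∅
    rw [gD_uL, sub_self]; exact (god p hp I).supp_zero

/-- functoriality of the Godement resolution -/
def godMap {p : Y → X} (hp : Continuous p) {I : PC X} {J : PC Y} (φ : Hom p I J) :
    Hom p (god id continuous_id I) (god id continuous_id J) where
  f := mapL p φ.f
  gr {k s} h := god_gr.2 ⟨by show φ.f (s []) = 0; rw [(god_gr.1 h).1, map_zero], fun z l => by
    have := φ.gr ((god_gr.1 h).2 (p z) (l.map p))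
    rwa [List.length_map] at this⟩
  supp {k s} h x hx := by
    by_contra hs
    have h1 : p x ∉ (god id continuous_id I).supp s := hs
    exact hx ((hp.continuousAt.eventually (god_supp.1 h1)).mono fun z hz n =>
      (hz n).map hp fun l => φ.supp ((god_gr.1 h).2 (p z) (l.map p)))
  comm {k s} h := eq_empty_of_forall_notMem fun x => god_supp.2
    (Eventually.of_forall fun z n => Nul.of_empty fun l _ => by
      have e : ∀ s : List X → I.A, (mapL p φ.f (gD I.d s) - gD J.d (mapL p φ.f s)) (z :: l) =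
          (-1 : ℚ) ^ ((z :: l).length + 1) • (φ.f (I.d (s (p z :: l.map p))) -
            J.d (φ.f (s (p z :: l.map p)))) := fun s => by
        simp only [gD_apply, map_add, dl_mapL, Pi.sub_apply, Pi.add_apply, mapL_apply, List.map_cons, sgnD_apply, List.length_cons, List.length_map, map_smul, add_sub_add_left_eq_sub, smul_sub]
      exact subset_eq_empty ((congrArg J.supp (e s)).subset.trans (J.supp_smul _ _))
        (φ.comm ((god_gr.1 h).2 (p z) (l.map p))))

/-- `τ_{≤ c} I → I` -/
def truncι (c : ℤ) (I : PC X) : Hom id (trunc c I) (god id continuous_id I) :=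
  ⟨LinearMap.id, fun h => h.1, fun _ => subset_rfl,
    fun _ => (Hom.refl (god id continuous_id I)).comm (by assumption : _ ∧ _).1⟩

/-- functoriality of the truncation -/
def truncMap {p : Y → X} (hp : Continuous p) (c : ℤ) {I : PC X} {J : PC Y} (φ : Hom p I J) :
    Hom p (trunc c I) (trunc c J) where
  f := mapL p φ.f
  gr {k s} h := ⟨(godMap hp φ).gr h.1, fun n hn z => (h.2.1 n hn (p z)).map hp fun l =>
      φ.supp ((god_gr.1 h.1).2 (p z) (l.map p)), fun n hn z =>
    (h.2.2 n hn (p z)).map hp fun l => by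
      have h1 := (god_gr.1 h.1).2 (p z) (l.map p)
      have e : ∀ a, J.d (φ.f a) = φ.f (I.d a) - (φ.f (I.d a) - J.d (φ.f a)) := fun a => by simp
      exact (congrArg J.supp (e (s (p z :: l.map p)))).subset.trans ((J.supp_sub _ _).trans
        (by rw [φ.comm h1, union_empty]; exact φ.supp (I.d_gr h1)))⟩
  supp h := (godMap hp φ).supp h.1
  comm h := (godMap hp φ).comm h.1

/-- the pull-back map on resolutions of a constant sheaf -/
def cstHom (p : Y → X) (E : Type) [AddCommGroup E] [Module ℚ E] (n : ℤ) :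
    Hom p (cstPC X E n) (cstPC Y E n) :=
  ⟨LinearMap.id, fun h => h, fun {k s} _ => by
    classical
    show (if (show E from s) = 0 then ∅ else univ : Set Y) ⊆
      p ⁻¹' (if (show E from s) = 0 then ∅ else univ)
    split_ifs <;> simp, fun _ => if_pos (sub_self _)⟩

/-- `resC X → p_* resC Y` -/
def resMap {p : Y → X} (hp : Continuous p) (E : Type) [AddCommGroup E] [Module ℚ E] (n : ℤ) :
    Hom p (resC X E n) (resC Y E n) := godMap hp (cstHom p E n)

/-! ### compact supports, flows, hyperbolic data -/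

namespace PC
/-- cocycles with compact support in `V` -/
def Zcc (I : PC X) (k : ℤ) (V : Set X) (s : I.A) : Prop :=
  s ∈ I.gr k ∧ IsCompact (I.supp s) ∧ I.supp s ⊆ V ∧ I.supp (I.d s) = ∅

/-- coboundaries with compact support in `V` -/
def Bdc (I : PC X) (k : ℤ) (V : Set X) (s : I.A) : Prop :=
  ∃ t ∈ I.gr (k - 1), IsCompact (I.supp t) ∧ I.supp t ⊆ V ∧ I.supp (s - I.d t) = ∅

/-- `H_c^k(X)` is finite dimensional -/
def FinC (I : PC X) (k : ℤ) : Prop :=
  ∃ (n : ℕ) (z : Fin n → I.A), (∀ j, I.Zcc k univ (z j)) ∧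
    ∀ s, I.Zcc k univ s → ∃ c : Fin n → ℚ, I.Bdc k univ (s - ∑ j, c j • z j)

/-- cohomologically constant along the orbits of the flow through points of `W` -/
def LCf (I : PC X) (ρ : Flow ℝ X) (W : Set X) : Prop :=
  ∀ x ∈ W, ∀ a b t : ℝ, t ∈ Icc a b → ∀ k, I.Van k ((fun s => ρ s x) '' Icc a b) {ρ t x}

/-- a space `E` of cocycles on `V` that maps isomorphically to `H^k` of the stalk at each point of
`S` -/
def CstOn (I : PC X) (k : ℤ) (V S : Set X) : Prop :=
  ∃ (E : Type) (_ : AddCommGroup E) (_ : Module ℚ E) (σ : E →ₗ[ℚ] I.A),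
    (∀ e, I.Zc k V ∅ (σ e)) ∧ ∀ x ∈ S, (∀ e, I.Bd k {x} ∅ (σ e) → e = 0) ∧
      ∀ s, I.Zc k {x} ∅ s → ∃ e, I.Bd k {x} ∅ (s - σ e)
end PC

/-- `W` is closed in a space with finitely many components that is locally homeomorphic to `ℝ^m` -/
def Cov (W : Set X) (m : ℕ) : Prop :=
  ∃ (W' : Type) (_ : TopologicalSpace W') (_ : Nice W') (ι : W → W') (π : W' → Fin m → ℝ),
    IsClosedEmbedding ι ∧ IsLocalHomeomorph π ∧ Finite (ConnectedComponents W')

/-- local product structure along the stratum of `x`, which is a manifold of dimension `2 dm x` -/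
def Chart (dm : X → ℕ) (x : X) : Prop :=
  ∃ (N : Type) (_ : TopologicalSpace N) (_ : Nice N) (n0 : N) (e : N × (Fin (2 * dm x) → ℝ) → X),
    IsOpenEmbedding e ∧ e (n0, 0) = x ∧ (∀ ν t, dm (e (ν, t)) = dm (e (ν, 0))) ∧
      ∀ ν, dm (e (ν, 0)) ≤ dm x → ν = n0

/-- a hyperbolic flow: `rp`, `rm` are the expanding / contracting sizes, `v` the invariant part -/
structure Hyp (X V : Type) [TopologicalSpace X] [TopologicalSpace V] where
  ρ : Flow ℝ X
  rp : X → ℝ
  rm : X → ℝ
  v : X → V
  rp_cont : Continuous rp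
  rm_cont : Continuous rm
  v_cont : Continuous v
  rp_nonneg : ∀ x, 0 ≤ rp x
  rm_nonneg : ∀ x, 0 ≤ rm x
  rp_ρ : ∀ t x, rp (ρ t x) = Real.exp t * rp x
  rm_ρ : ∀ t x, rm (ρ t x) = Real.exp (-t) * rm x
  v_ρ : ∀ t x, v (ρ t x) = v x
  proper : ∀ (a : ℝ) (K : Set V), IsCompact K → IsCompact {x | rp x ≤ a ∧ rm x ≤ a ∧ v x ∈ K}
  inj : ∀ x y, rp x = 0 → rm x = 0 → rp y = 0 → rm y = 0 → v x = v y → x = y

/-- link condition for the closed strata `{st ≤ st z}` (one degree better than the conditions of Deligne) -/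
def Link (st : X → ℕ) : Prop :=
  ∀ (z : X) (d : ℕ), d < st z → ∀ V : Set {y | st y ≤ st z}, IsOpen V → (∀ y ∈ V, d ≤ st y) →
    ∀ k ≤ -(d : ℤ) + 1, (resC {y | st y ≤ st z} ℚ (st z)).Van k V {y ∈ V | d < st y}

end C73
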