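import Pool.Agent.MP_94fa45_ag.C73.Stmt
import Pool.Agent.MP_94fa45_ag.C73.Mod

attribute [-instance]
  CategoryTheory.preservesColimitOfShape_of_createsColimitsOfShape_and_hasColimitsOfShape
  NonUnitalNonAssocRing.toNonUnitalNonAssocSemiring
  CategoryTheory.Limits.PreservesFiniteColimits.preservesFiniteColimits MulZeroClass.toZero
  Semiring.toAddCommMonoid CategoryTheory.Functor.instPreservesColimitsOfShapeOfIsLeftAdjoint
  NonUnitalAlgSemiHomClass.toDistribMulActionSemiHomClass MonoidWithZeroHomClass.toZeroHomClass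
  CategoryTheory.Limits.comp_preservesFiniteColimits CategoryTheory.instIsThin
  AddGroupWithOne.toAddGroup NonUnitalNonAssocSemiring.toAddCommMonoid
  NonUnitalNormedRing.toNormedAddCommGroup CategoryTheory.ObjectProperty.instIsIsoHomFullSubcategory
  Distrib.toAdd CoheytingAlgebra.toOrderTop NormedDivisionRing.toDivisionRing instCoeTCOfCoe
  AddCommMonoidWithOne.toAddCommMonoid CategoryTheory.Functor.IsHomological.toPreservesZeroMorphisms
  Module.free_of_finite_type_torsion_free'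
  MulSemiringActionSemiHomClass.toDistribMulActionSemiHomClass CategoryTheory.Groupoid.toCategory
  CategoryTheory.StrictBicategory.category LinearOrderedAddCommMonoidWithTop.toAddCommMonoid
  Submodule.seminormedAddCommGroup BooleanRing.toRing CategoryTheory.Functor.map_epi
  AddCommMonoidWithOne.toAddMonoidWithOne CategoryTheory.Functor.map_mono
  TestFunctionClass.toDFunLike ContDiffMapSupportedInClass.toDFunLike
  CentroidHomClass.toAddMonoidHomClass NormedAddCommGroup.toSeminormedAddCommGroup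
  LinearOrderedAddCommGroupWithTop.toOrderTop IsometryClass.instCoeOutIsometryEquiv
  HomeomorphClass.instCoeOutHomeomorph LinearOrderedAddCommGroupWithTop.toAddCommMonoid
  CategoryTheory.Functor.IsTriangulated.instPreservesZeroMorphisms EquivLike.toFunLike
  LinearOrderedAddCommMonoidWithTop.toOrderTop
  ContinuousAddMonoidHom.instCoeOutOfAddMonoidHomClassOfContinuousMapClass
  NonUnitalSeminormedRing.toSeminormedAddCommGroup instCoeTOfCoeDep Field.toDivisionRing
  MulSemiringAction.toDistribMulAction Rat.instDistribSMul CategoryTheory.instIsSplitEpiMap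
  NonUnitalSubringClass.toNegMemClass CategoryTheory.NonPreadditiveAbelian.toHasZeroMorphisms
  CategoryTheory.Functor.map_effectiveEpi Group.IsPerfect.subsingleton_of_isMulCommutative instCoeHTC
  AddCommGroupWithOne.toAddGroupWithOne instCoeHTCT Nat.instAtLeastTwoHAddOfNat
  LinearOrderedAddCommGroupWithTop.toSubNegMonoid NormedRing.toRing Algebra.toSMul
  CategoryTheory.instIsSplitMonoMap

/-! Bridge between the support model and the derived category. -/

section
/-! Bridge, part 1: complexes of flasque sheaves presented by a support model. -/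

open CategoryTheory Limits TopologicalSpace Opposite Set

noncomputable section
namespace C73.Br

variable {X : TopCat.{0}}

abbrev Cx (X : TopCat.{0}) := CochainComplex (Sh X) ℤ

/-- sections -/
abbrev Sec (F : Sh X) (U : Opens X) : Type := F.obj.obj (op U)

/-- restriction of sections -/
abbrev rs (F : Sh X) {U V : Opens X} (h : V ≤ U) : Sec F U →ₗ[ℚ] Sec F V :=
  (F.obj.map (homOfLE h).op).hom

/-- a morphism of sheaves on sections -/
abbrev ap {F G : Sh X} (f : F ⟶ G) (U : Opens X) : Sec F U →ₗ[ℚ] Sec G U :=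
  (f.hom.app (op U)).hom

theorem rs_rs (F : Sh X) {U V W : Opens X} (h : U ≤ V) (h' : V ≤ W) (s : Sec F W) :
    rs F h (rs F h' s) = rs F (h.trans h') s := res_res F h h' s

theorem rs_self (F : Sh X) {U : Opens X} (s : Sec F U) : rs F (le_refl U) s = s :=
  congrArg (fun g => (ModuleCat.Hom.hom g) s) (F.obj.map_id (op U))

theorem ap_rs {F G : Sh X} (f : F ⟶ G) {U V : Opens X} (h : V ≤ U) (s : Sec F U) :
    ap f V (rs F h s) = rs G h (ap f U s) :=
  congrArg (fun g => (ModuleCat.Hom.hom g) s) (f.hom.naturality (homOfLE h).op)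

theorem ap_comp {F G H : Sh X} (f : F ⟶ G) (g : G ⟶ H) (U : Opens X) (s : Sec F U) :
    ap (f ≫ g) U s = ap g U (ap f U s) := rfl

theorem ap_id (F : Sh X) (U : Opens X) (s : Sec F U) : ap (𝟙 F) U s = s := rfl

theorem ap_zero (F G : Sh X) (U : Opens X) (s : Sec F U) : ap (0 : F ⟶ G) U s = 0 := rfl

theorem ap_ext {F G : Sh X} {f g : F ⟶ G} (h : ∀ U s, ap f U s = ap g U s) : f = g := by
  refine CategoryTheory.Sheaf.hom_ext ?_
  ext U s
  exact h U.unop s

/-- a morphism of sheaves from maps on sections -/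
def mkHom {F G : Sh X} (φ : ∀ U, Sec F U →ₗ[ℚ] Sec G U)
    (h : ∀ U V (h : V ≤ U) s, φ V (rs F h s) = rs G h (φ U s)) : F ⟶ G :=
  ⟨{ app := fun U => ModuleCat.ofHom (φ U.unop)
     naturality := fun U V i => by
      ext s
      exact h U.unop V.unop i.unop.le s }⟩

theorem ap_mkHom {F G : Sh X} (φ : ∀ U, Sec F U →ₗ[ℚ] Sec G U) (h) (U : Opens X) :
    ap (mkHom φ h : F ⟶ G) U = φ U := rfl

theorem sec_zero_of_loc (F : Sh X) {U : Opens X} (s : Sec F U)
    (h : ∀ x ∈ U, ∃ (V : Opens X) (hV : V ≤ U), x ∈ V ∧ rs F hV s = 0) : s = 0 := by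
  choose V hV hx h0 using h
  refine F.eq_of_locally_eq' (fun x : U => V x.1 x.2) U (fun x => homOfLE (hV x.1 x.2))
    (fun x hxU => Opens.mem_iSup.2 ⟨⟨x, hxU⟩, hx x hxU⟩) s 0 fun x => ?_
  rw [map_zero]
  exact h0 x.1 x.2

theorem sec_glue (F : Sh X) {κ : Type} (U : κ → Opens X) (s : ∀ i, Sec F (U i))
    (h : ∀ i j, rs F (inf_le_left : U i ⊓ U j ≤ U i) (s i) = rs F inf_le_right (s j)) :
    ∃ t : Sec F (iSup U), ∀ i, rs F (le_iSup U i) t = s i := by
  obtain ⟨t, ht, -⟩ := F.existsUnique_gluing U s h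
  exact ⟨t, ht⟩

/-- `K` is the complex of flasque sheaves presented by `I` -/
structure Rep (K : Cx X) (I : PC X) where
  ρ : ∀ k U, I.A →ₗ[ℚ] Sec (K.X k) U
  res : ∀ k U V (h : V ≤ U) a, rs (K.X k) h (ρ k U a) = ρ k V a
  sur : ∀ k U s, ∃ a ∈ I.gr k, ρ k U a = s
  ker : ∀ k U a, a ∈ I.gr k → (ρ k U a = 0 ↔ a ∈ I.N U)
  dd : ∀ i j, i + 1 = j → ∀ U a, a ∈ I.gr i → ap (K.d i j) U (ρ i U a) = ρ j U (I.d a)

theorem Rep.eq_iff {K : Cx X} {I : PC X} (R : Rep K I) {k U a b} (ha : a ∈ I.gr k)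
    (hb : b ∈ I.gr k) : R.ρ k U a = R.ρ k U b ↔ a - b ∈ I.N U := by
  rw [← R.ker k U _ (sub_mem ha hb), map_sub, sub_eq_zero]

theorem Rep.fl {K : Cx X} {I : PC X} (R : Rep K I) : I.Fl := by
  intro k κ U s hU hs hc
  let V : κ → Opens X := fun i => ⟨U i, hU i⟩
  obtain ⟨t, ht⟩ := sec_glue (K.X k) V (fun i => R.ρ k (V i) (s i)) fun i j => by
    rw [R.res, R.res]
    exact (R.eq_iff (hs i) (hs j)).2 (hc i j)
  obtain ⟨a, ha, rfl⟩ := R.sur k _ t
  refine ⟨a, ha, fun i => (R.eq_iff (U := V i) ha (hs i)).1 ?_⟩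
  rw [← ht i, R.res]

theorem Rep.bdd {K : Cx X} {I : PC X} (R : Rep K I) : CochainComplex.plus _ K := by
  obtain ⟨k0, h⟩ := I.bdd
  refine ⟨k0, (CochainComplex.isStrictlyGE_iff K k0).2 fun i hi => ?_⟩
  rw [IsZero.iff_id_eq_zero]
  refine ap_ext fun U s => ?_
  obtain ⟨a, ha, rfl⟩ := R.sur i U s
  rw [ap_id, ap_zero, R.ker i U a ha, PC.mem_N, h i hi a ha]
  exact empty_disjoint _

/-- flasque complexes -/
def Flq (K : Cx X) : Prop := ∀ k U, Function.Surjective (rs (K.X k) (le_top : U ≤ ⊤))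

theorem Rep.flq {K : Cx X} {I : PC X} (R : Rep K I) : Flq K := fun k U s => by
  obtain ⟨a, -, rfl⟩ := R.sur k U s
  exact ⟨R.ρ k ⊤ a, R.res _ _ _ _ _⟩

/-- `f` is the morphism of complexes induced by `φ` -/
def Compat {K K' : Cx X} {I I' : PC X} (f : K ⟶ K') (R : Rep K I) (R' : Rep K' I')
    (φ : I.A →ₗ[ℚ] I'.A) : Prop :=
  ∀ k U a, a ∈ I.gr k → ap (f.f k) U (R.ρ k U a) = R'.ρ k U (φ a)

theorem _root_.C73.Hom.bmem_N {I I' : PC X} (φ : Hom id I I') {k a} (ha : a ∈ I.gr k) {C : Set X}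
    (h : a ∈ I.N C) : φ.f a ∈ I'.N C := Disjoint.mono_left (φ.supp ha) h

theorem Rep.lift {K K' : Cx X} {I I' : PC X} (R : Rep K I) (R' : Rep K' I') (φ : Hom id I I') :
    ∃ f : K ⟶ K', Compat f R R' φ.f := by
  have h1 : ∀ k U, ∃ g : Sec (K.X k) U →ₗ[ℚ] Sec (K'.X k) U,
      ∀ a ∈ I.gr k, g (R.ρ k U a) = R'.ρ k U (φ.f a) := fun k U => by
    obtain ⟨σ, hσ⟩ := LinearMap.exists_rightInverse_of_surjective
      (R.ρ k U ∘ₗ (I.gr k).subtype) (LinearMap.range_eq_top.2 fun s => by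
        obtain ⟨a, ha, rfl⟩ := R.sur k U s
        exact ⟨⟨a, ha⟩, rfl⟩)
    refine ⟨R'.ρ k U ∘ₗ φ.f ∘ₗ (I.gr k).subtype ∘ₗ σ, fun a ha => ?_⟩
    have h2 : R.ρ k U (σ (R.ρ k U a)) = R.ρ k U a := LinearMap.congr_fun hσ _
    have h3 := (σ (R.ρ k U a)).2
    refine (R'.eq_iff (φ.gr h3) (φ.gr ha)).2 ?_
    rw [← map_sub]
    exact φ.bmem_N (sub_mem h3 ha) ((R.eq_iff h3 ha).1 h2)
  choose g hg using h1
  refine ⟨⟨fun k => mkHom (g k) fun U V h s => ?_, fun i j hij => ap_ext fun U s => ?_⟩,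
    fun k U a ha => hg k U a ha⟩
  · obtain ⟨a, ha, rfl⟩ := R.sur k U s
    rw [R.res, hg k V a ha, hg k U a ha, R'.res]
  · obtain ⟨a, ha, rfl⟩ := R.sur i U s
    obtain rfl : i + 1 = j := hij
    rw [ap_comp, ap_comp, ap_mkHom, ap_mkHom, hg i U a ha, R.dd i _ rfl U a ha,
      hg _ U _ (I.d_gr ha), R'.dd i _ rfl U _ (φ.gr ha)]
    refine ((R'.eq_iff (φ.gr (I.d_gr ha)) (I'.d_gr (φ.gr ha))).2 ?_).symm
    rw [PC.mem_N, φ.comm ha]
    exact empty_disjoint _

/-- a projection onto a subspace -/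
def prj {A : Type} [AddCommGroup A] [Module ℚ A] (S : Submodule ℚ A) : A →ₗ[ℚ] S :=
  (S.subtype.exists_leftInverse_of_injective S.ker_subtype).choose

theorem prj_mem {A : Type} [AddCommGroup A] [Module ℚ A] (S : Submodule ℚ A) {a : A}
    (ha : a ∈ S) : prj S a = ⟨a, ha⟩ :=
  LinearMap.congr_fun (S.subtype.exists_leftInverse_of_injective S.ker_subtype).choose_spec
    ⟨a, ha⟩

theorem _root_.C73.PC.bN_anti {Y : Type} [TopologicalSpace Y] (I : PC Y) {C D : Set Y} (h : C ⊆ D) :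
    I.N D ≤ I.N C := fun _ hs => Disjoint.mono_right h hs

/-- the presheaf of degree `k` sections -/
def toPre (I : PC X) (k : ℤ) : TopCat.Presheaf (ModuleCat.{0} ℚ) X where
  obj U := ModuleCat.of ℚ (I.gr k ⧸ (I.N U.unop).comap (I.gr k).subtype)
  map {U V} h := ModuleCat.ofHom (Submodule.mapQ _ _ LinearMap.id
    fun _ hs => I.bN_anti h.unop.le hs)
  map_id U := by ext s; rfl
  map_comp h h' := by ext s; rfl

theorem toPre_isSheaf {I : PC X} (hI : I.Fl) (k : ℤ) : (toPre I k).IsSheaf := by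
  rw [TopCat.Presheaf.isSheaf_iff_isSheafUniqueGluing]
  intro κ U sf hc
  choose s hs using fun i => Submodule.Quotient.mk_surjective _ (sf i)
  obtain ⟨t, ht, h⟩ := hI k κ (fun i => U i) (fun i => (s i).1) (fun i => (U i).2)
    (fun i => (s i).2) fun i j => by
      have := hc i j
      rw [← hs i, ← hs j] at this
      exact (Submodule.Quotient.eq ((I.N (U i ⊓ U j : Opens X)).comap (I.gr k).subtype)).1 this
  refine ⟨Submodule.Quotient.mk ⟨t, ht⟩, fun i => ?_, fun t' ht' => ?_⟩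
  · rw [← hs i]
    exact (Submodule.Quotient.eq _).2 (h i)
  · obtain ⟨a, rfl⟩ := Submodule.Quotient.mk_surjective _ t'
    refine (Submodule.Quotient.eq _).2 ?_
    show Disjoint (I.supp (a.1 - t)) ((iSup U : Opens X) : Set X)
    rw [Opens.coe_iSup, disjoint_iUnion_right]
    intro i
    have h1 := ht' i
    rw [← hs i] at h1
    have h2 : a.1 - (s i).1 ∈ I.N (U i) :=
      (Submodule.Quotient.eq ((I.N (U i)).comap (I.gr k).subtype)).1 h1
    have := sub_mem h2 (h i)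
    rwa [sub_sub_sub_cancel_right] at this

theorem _root_.C73.PC.bd_mem_N {Y : Type} [TopologicalSpace Y] (I : PC Y) {k a} (ha : a ∈ I.gr k) {C : Set Y}
    (h : a ∈ I.N C) : I.d a ∈ I.N C := Disjoint.mono_left (I.supp_d ha) h

theorem _root_.C73.PC.bdd_mem_N {Y : Type} [TopologicalSpace Y] (I : PC Y) {k a} (ha : a ∈ I.gr k)
    (C : Set Y) : I.d (I.d a) ∈ I.N C := by
  rw [PC.mem_N, I.supp_dd ha]; exact empty_disjoint _

/-- the sheaf of degree `k` sections -/
def toSh {I : PC X} (hI : I.Fl) (k : ℤ) : Sh X := ⟨toPre I k, toPre_isSheaf hI k⟩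

/-- the differential -/
def toD {I : PC X} (hI : I.Fl) (k : ℤ) : toSh hI k ⟶ toSh hI (k + 1) :=
  mkHom (fun U => Submodule.mapQ _ _ (I.d.restrict fun _ h => I.d_gr h)
    fun a ha => I.bd_mem_N a.2 ha) fun U V h s => by
      obtain ⟨a, rfl⟩ := Submodule.Quotient.mk_surjective _ s
      rfl

/-- the complex of sheaves of a flasque model -/
def toCx {I : PC X} (hI : I.Fl) : Cx X :=
  CochainComplex.of (toSh hI) (toD hI)
    fun k => ap_ext fun U s => by
      obtain ⟨a, rfl⟩ := Submodule.Quotient.mk_surjective _ s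
      exact (Submodule.Quotient.mk_eq_zero _).2 (I.bdd_mem_N a.2 _)

/-- its presentation -/
def toRep {I : PC X} (hI : I.Fl) : Rep (toCx hI) I where
  ρ k U := Submodule.mkQ _ ∘ₗ prj (I.gr k)
  res k U V h a := rfl
  sur k U s := by
    obtain ⟨a, rfl⟩ := Submodule.Quotient.mk_surjective _ s
    exact ⟨a.1, a.2, congrArg Submodule.Quotient.mk (prj_mem _ a.2)⟩
  ker k U a ha := by
    show Submodule.Quotient.mk (prj (I.gr k) a) = 0 ↔ _
    rw [prj_mem _ ha]
    exact Submodule.Quotient.mk_eq_zero _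
  dd i j hij U a ha := by
    subst hij
    have : (toCx hI).d i (i + 1) = toD hI i := CochainComplex.of_d (toSh hI) (toD hI) i
    rw [this]
    show ap (toD hI i) U (Submodule.Quotient.mk (prj (I.gr i) a)) =
      Submodule.Quotient.mk (prj (I.gr (i + 1)) (I.d a))
    rw [prj_mem _ ha, prj_mem _ (I.d_gr ha)]
    rfl

/-- support of a family of global sections -/
def fsupp (K : Cx X) (a : ∀ k, Sec (K.X k) ⊤) : Set X :=
  {x | ¬ ∃ U : Opens X, x ∈ U ∧ ∀ k, rs (K.X k) (le_top : U ≤ ⊤) (a k) = 0}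

theorem fsupp_sub {K K' : Cx X} {a b : ∀ k, Sec (K.X k) ⊤} {c : ∀ k, Sec (K'.X k) ⊤}
    (h : ∀ U : Opens X, (∀ k, rs (K.X k) (le_top : U ≤ ⊤) (a k) = 0) →
      (∀ k, rs (K.X k) (le_top : U ≤ ⊤) (b k) = 0) → ∀ k, rs (K'.X k) (le_top : U ≤ ⊤) (c k) = 0) :
    fsupp K' c ⊆ fsupp K a ∪ fsupp K b := by
  intro x hx
  by_contra hn
  simp only [fsupp, mem_union, mem_ofPred_eq, not_or, not_not] at hn
  obtain ⟨⟨U, hU, h1⟩, V, hV, h2⟩ := hn
  refine hx ⟨U ⊓ V, ⟨hU, hV⟩, h _ (fun k => ?_) fun k => ?_⟩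
  · rw [← rs_rs _ inf_le_left le_top, h1, map_zero]
  · rw [← rs_rs _ inf_le_right le_top, h2, map_zero]

theorem fsupp_zero (K : Cx X) : fsupp K 0 = ∅ :=
  eq_empty_of_forall_notMem fun _ hx => hx ⟨⊤, trivial, fun _ => map_zero _⟩

/-- the model of a bounded below complex -/
def frC (K : Cx X) (hK : CochainComplex.plus _ K) : PC X where
  A := ∀ k, Sec (K.X k) ⊤
  gr k :=
    { carrier := {a | ∀ j, j ≠ k → a j = 0}
      zero_mem' := fun _ _ => rfl
      add_mem' := fun {a b} ha hb j hj => by rw [Pi.add_apply, ha j hj, hb j hj, add_zero]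
      smul_mem' := fun c a ha j hj => by rw [Pi.smul_apply, ha j hj, smul_zero] }
  d := LinearMap.pi fun j => ap (K.d (j - 1) j) ⊤ ∘ₗ LinearMap.proj (j - 1)
  supp := fsupp K
  d_gr {k s} h j hj := by
    show ap (K.d (j - 1) j) ⊤ (s (j - 1)) = 0
    rw [h (j - 1) (by omega), map_zero]
  closed s := by
    rw [← isOpen_compl_iff, isOpen_iff_forall_mem_open]
    intro x hx
    obtain ⟨U, hU, h⟩ := not_not.1 hx
    exact ⟨U, fun y hy => not_not.2 ⟨U, hy, h⟩, U.2, hU⟩
  supp_zero := fsupp_zero K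
  supp_add s t := fsupp_sub fun U h1 h2 k => by rw [Pi.add_apply, map_add, h1, h2, add_zero]
  supp_smul c s := (fsupp_sub fun U h1 _ k => by
    rw [Pi.smul_apply, map_smul, h1, smul_zero]).trans (union_self _).subset
  supp_d {k s} _ := (fsupp_sub fun U h1 _ j => by
    show rs _ _ (ap (K.d (j - 1) j) ⊤ (s (j - 1))) = 0
    rw [← ap_rs, h1, map_zero]).trans (union_self _).subset
  supp_dd {k s} _ := by
    rw [← fsupp_zero K]
    congr 1
    funext j
    show ap (K.d (j - 1) j) ⊤ (ap (K.d (j - 1 - 1) (j - 1)) ⊤ (s (j - 1 - 1))) = 0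
    rw [← ap_comp, K.d_comp_d, ap_zero]
  bdd := by
    obtain ⟨n, hn⟩ := hK
    refine ⟨n, fun k hk s hs => ?_⟩
    rw [← fsupp_zero K]
    congr 1
    funext j
    by_cases hj : j = k
    · subst hj
      have := (K.isZero_of_isStrictlyGE n j hk).eq_of_src (𝟙 _) 0
      exact (ap_id _ _ (s j)).symm.trans (by rw [this]; rfl)
    · exact hs j hj

/-- the presentation of a flasque complex by its global sections -/
def frRep (K : Cx X) (hK : CochainComplex.plus _ K) (hf : Flq K) : Rep K (frC K hK) where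
  ρ k U := rs (K.X k) le_top ∘ₗ LinearMap.proj k
  res k U V h a := rs_rs _ _ _ _
  sur k U s := by
    obtain ⟨t, rfl⟩ := hf k U s
    exact ⟨Pi.single k t, fun j hj => Pi.single_eq_of_ne hj _,
      congrArg (rs (K.X k) le_top) (Pi.single_eq_same _ _)⟩
  ker k U a ha := by
    show rs (K.X k) le_top (a k) = 0 ↔ Disjoint (fsupp K a) U
    rw [disjoint_right]
    refine ⟨fun h x hx => not_not.2 ⟨U, hx, fun j => ?_⟩, fun h => sec_zero_of_loc _ _ fun x hx => ?_⟩
    · by_cases hj : j = k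
      · rw [hj]; exact h
      · rw [ha j hj, map_zero]
    · obtain ⟨V, hV, h1⟩ := not_not.1 (h hx)
      refine ⟨V ⊓ U, inf_le_right, ⟨hV, hx⟩, ?_⟩
      rw [rs_rs, ← rs_rs _ inf_le_left le_top, h1, map_zero]
  dd i j hij U a ha := by
    obtain rfl : i = j - 1 := by omega
    exact ap_rs _ _ _

/-- the morphism of models given by a morphism of complexes -/
def frHom {K K' : Cx X} (hK : CochainComplex.plus _ K) (hK' : CochainComplex.plus _ K')
    (f : K ⟶ K') : Hom id (frC K hK) (frC K' hK') where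
  f := LinearMap.pi fun j => ap (f.f j) ⊤ ∘ₗ LinearMap.proj j
  gr {k s} h j hj := by
    show ap (f.f j) ⊤ (s j) = 0
    rw [h j hj, map_zero]
  supp {k s} _ := (fsupp_sub (a := s) (b := s) fun U h1 _ j => by
    show rs _ _ (ap (f.f j) ⊤ (s j)) = 0
    rw [← ap_rs, h1, map_zero]).trans (union_self _).subset
  comm {k s} _ := by
    rw [← fsupp_zero K']
    refine congrArg (fsupp K') (funext fun j => sub_eq_zero.2 ?_)
    show ap (f.f j) ⊤ (ap (K.d (j - 1) j) ⊤ (s (j - 1))) =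
      ap (K'.d (j - 1) j) ⊤ (ap (f.f (j - 1)) ⊤ (s (j - 1)))
    rw [← ap_comp, ← ap_comp, f.comm]

theorem frCompat {K K' : Cx X} (hK hK') (hf : Flq K) (hf' : Flq K') (f : K ⟶ K') :
    Compat f (frRep K hK hf) (frRep K' hK' hf') (frHom hK hK' f).f :=
  fun _ _ _ _ => ap_rs _ _ _

end C73.Br
end
end

section
/-! Bridge, part 2: quasi-isomorphisms of complexes of sheaves are detected on stalks. -/

open CategoryTheory Limits TopologicalSpace Opposite Set

noncomputable section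
namespace C73.Br

variable {X : TopCat.{0}}

theorem mod_qis {S T : ShortComplex (ModuleCat.{0} ℚ)} (φ : S ⟶ T) :
    ShortComplex.QuasiIso φ ↔
      (∀ y, T.g.hom y = 0 → ∃ x, S.g.hom x = 0 ∧ ∃ z, T.f.hom z = y - φ.τ₂.hom x) ∧
      ∀ x, S.g.hom x = 0 → (∃ z, T.f.hom z = φ.τ₂.hom x) → ∃ w, S.f.hom w = x := by
  have γ : ShortComplex.LeftHomologyMapData φ S.moduleCatLeftHomologyData
    T.moduleCatLeftHomologyData := default
  have hK : ∀ x : LinearMap.ker S.g.hom, (γ.φK.hom x : LinearMap.ker T.g.hom).1 = φ.τ₂.hom x.1 :=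
    fun x => LinearMap.congr_fun (congrArg ModuleCat.Hom.hom γ.commi) x
  have hH : ∀ x : LinearMap.ker S.g.hom, γ.φH.hom (Submodule.Quotient.mk x) =
      Submodule.Quotient.mk (γ.φK.hom x) :=
    fun x => LinearMap.congr_fun (congrArg ModuleCat.Hom.hom γ.commπ) x
  rw [γ.quasiIso_iff, ConcreteCategory.isIso_iff_bijective]
  constructor
  · rintro ⟨hi, hs⟩
    refine ⟨fun y hy => ?_, fun x hx ⟨z, hz⟩ => ?_⟩
    · obtain ⟨q, hq⟩ := hs (Submodule.Quotient.mk ⟨y, hy⟩)
      obtain ⟨x, rfl⟩ := Submodule.Quotient.mk_surjective _ q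
      obtain ⟨z, hz⟩ := (Submodule.Quotient.eq _).1 (hq.symm.trans (hH x))
      exact ⟨x.1, x.2, z, (congrArg Subtype.val hz).trans (congrArg (y - ·) (hK x))⟩
    · have h0 : γ.φH.hom (Submodule.Quotient.mk ⟨x, hx⟩) = γ.φH.hom 0 := by
        rw [hH, map_zero]
        exact (Submodule.Quotient.mk_eq_zero _).2 ⟨z, Subtype.ext (hz.trans (hK ⟨x, hx⟩).symm)⟩
      obtain ⟨w, hw⟩ := (Submodule.Quotient.mk_eq_zero _).1 (hi h0)
      exact ⟨w, congrArg Subtype.val hw⟩
  · rintro ⟨hs, hi⟩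
    refine ⟨(injective_iff_map_eq_zero γ.φH.hom).2 fun q hq => ?_, fun q => ?_⟩
    · obtain ⟨x, rfl⟩ := Submodule.Quotient.mk_surjective _ q
      obtain ⟨z, hz⟩ := (Submodule.Quotient.mk_eq_zero _).1 ((hH x).symm.trans hq)
      obtain ⟨w, hw⟩ := hi x.1 x.2 ⟨z, (congrArg Subtype.val hz).trans (hK x)⟩
      exact (Submodule.Quotient.mk_eq_zero _).2 ⟨w, Subtype.ext hw⟩
    · obtain ⟨y, rfl⟩ := Submodule.Quotient.mk_surjective _ q
      obtain ⟨x, hx, z, hz⟩ := hs y.1 y.2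
      refine ⟨Submodule.Quotient.mk ⟨x, hx⟩, (hH ⟨x, hx⟩).trans ?_⟩
      refine ((Submodule.Quotient.eq (LinearMap.range T.moduleCatToCycles)).2
        ⟨z, Subtype.ext (hz.trans ?_)⟩).symm
      exact congrArg (y.1 - ·) (hK ⟨x, hx⟩).symm

/-- the stalk functor -/
abbrev St (x : X) : Sh X ⥤ ModuleCat.{0} ℚ :=
  TopCat.Sheaf.forget (ModuleCat.{0} ℚ) X ⋙ TopCat.Presheaf.stalkFunctor (ModuleCat.{0} ℚ) x

theorem sh_qis {S T : ShortComplex (Sh X)} (φ : S ⟶ T) :
    ShortComplex.QuasiIso φ ↔ ∀ x, ShortComplex.QuasiIso ((St x).mapShortComplex.map φ) := by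
  rw [ShortComplex.quasiIso_iff, TopCat.Presheaf.isIso_iff_stalkFunctor_map_iso]
  refine forall_congr' fun x => ?_
  rw [ShortComplex.quasiIso_iff]
  have h := ShortComplex.mapHomologyIso_hom_naturality φ (St x)
  constructor
  · intro h1
    have h2 : IsIso ((St x).map (ShortComplex.homologyMap φ)) := h1
    have h3 : IsIso (@ShortComplex.homologyMap _ _ _ (S.map (St x)) (T.map (St x))
        ((St x).mapShortComplex.map φ) _ _ ≫ (T.mapHomologyIso (St x)).hom) := by
      rw [h]; infer_instance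
    exact @IsIso.of_isIso_comp_right _ _ _ _ _ _ (T.mapHomologyIso (St x)).hom _ h3
  · intro h1
    have h2 : IsIso (@ShortComplex.homologyMap _ _ _ (S.map (St x)) (T.map (St x))
        ((St x).mapShortComplex.map φ) _ _) := h1
    have h3 : IsIso ((S.mapHomologyIso (St x)).hom ≫ (St x).map (ShortComplex.homologyMap φ)) := by
      rw [← h]; infer_instance
    exact IsIso.of_isIso_comp_left (S.mapHomologyIso (St x)).hom
      ((St x).map (ShortComplex.homologyMap φ))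

/-- presentation of the stalks at `x` -/
structure SRep (K : Cx X) (I : PC X) (x : X) where
  γ : ∀ k, I.A →ₗ[ℚ] (St x).obj (K.X k)
  sur : ∀ k s, ∃ a ∈ I.gr k, γ k a = s
  ker : ∀ k a, a ∈ I.gr k → (γ k a = 0 ↔ a ∈ I.N {x})
  dd : ∀ i j, i + 1 = j → ∀ a, a ∈ I.gr i → ((St x).map (K.d i j)).hom (γ i a) = γ j (I.d a)

/-- germ of a section -/
def gm (F : Sh X) (U : Opens X) (x : X) (hx : x ∈ U) : Sec F U →ₗ[ℚ] (St x).obj F :=
  (TopCat.Presheaf.germ F.obj U x hx).hom

theorem gm_rs (F : Sh X) {U V : Opens X} (h : V ≤ U) {x : X} (hx : x ∈ V) (s : Sec F U) :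
    gm F V x hx (rs F h s) = gm F U x (h hx) s :=
  TopCat.Presheaf.germ_res_apply F.obj (homOfLE h) x hx s

theorem gm_ap {F G : Sh X} (f : F ⟶ G) {U : Opens X} {x : X} (hx : x ∈ U) (s : Sec F U) :
    ((St x).map f).hom (gm F U x hx s) = gm G U x hx (ap f U s) :=
  TopCat.Presheaf.stalkFunctor_map_germ_apply U x hx f.hom s

theorem gm_sur (F : Sh X) (x : X) (t : (St x).obj F) : ∃ U hx s, gm F U x hx s = t :=
  TopCat.Presheaf.exists_germ_eq F.obj t

theorem gm_zero (F : Sh X) {U : Opens X} {x : X} {hx : x ∈ U} {s : Sec F U}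
    (h : gm F U x hx s = 0) : ∃ (V : Opens X) (hV : V ≤ U), x ∈ V ∧ rs F hV s = 0 := by
  obtain ⟨W, hW, i, i', e⟩ := TopCat.Presheaf.germ_eq F.obj x hx hx s 0
    (h.trans (map_zero (gm F U x hx)).symm)
  exact ⟨W, i.le, hW, e.trans (map_zero (rs F i'.le))⟩

/-- stalks of a presented complex -/
def Rep.st {K : Cx X} {I : PC X} (R : Rep K I) (x : X) : SRep K I x where
  γ k := gm _ ⊤ x trivial ∘ₗ R.ρ k ⊤
  sur k t := by
    obtain ⟨U, hx, s, rfl⟩ := gm_sur _ x t
    obtain ⟨a, ha, rfl⟩ := R.sur k U s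
    exact ⟨a, ha, by rw [← R.res k ⊤ U le_top, gm_rs]; rfl⟩
  ker k a ha := by
    rw [PC.mem_N, disjoint_singleton_right]
    refine ⟨fun h => ?_, fun h => ?_⟩
    · obtain ⟨V, hV, hx, h0⟩ := gm_zero _ h
      rw [R.res, R.ker k V a ha] at h0
      exact disjoint_right.1 h0 hx
    · let V : Opens X := ⟨(I.supp a)ᶜ, (I.closed a).isOpen_compl⟩
      have h0 : R.ρ k V a = 0 := (R.ker k V a ha).2 disjoint_compl_right
      show gm _ ⊤ x trivial (R.ρ k ⊤ a) = 0
      rw [← gm_rs _ (le_top : V ≤ ⊤) h, R.res, h0, map_zero]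
  dd i j hij a ha := by
    show ((St x).map (K.d i j)).hom (gm _ ⊤ x trivial (R.ρ i ⊤ a)) = gm _ ⊤ x trivial _
    rw [gm_ap, R.dd i j hij ⊤ a ha]

theorem _root_.C73.PC.bmem_N_empty {Y : Type} [TopologicalSpace Y] (I : PC Y) (s : I.A) : s ∈ I.N ∅ :=
  disjoint_empty _

theorem qisAt_iff {K K' : Cx X} {I I' : PC X} (f : K ⟶ K') (S : ∀ x, SRep K I x)
    (S' : ∀ x, SRep K' I' x) (φ : I.A →ₗ[ℚ] I'.A) (hφ : ∀ {k a}, a ∈ I.gr k → φ a ∈ I'.gr k)
    (hc : ∀ x k a, a ∈ I.gr k → ((St x).map (f.f k)).hom ((S x).γ k a) = (S' x).γ k (φ a))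
    (k : ℤ) : QuasiIsoAt f k ↔
      ∀ x, Sur I I' φ k {x} ∅ {x} ∅ ∧ Inj I I' φ k {x} ∅ {x} ∅ := by
  rw [quasiIsoAt_iff' f (k - 1) k (k + 1) (by simp) (by simp), sh_qis]
  refine forall_congr' fun x => ?_
  rw [mod_qis]
  show (∀ y, ((St x).map (K'.d k (k + 1))).hom y = 0 → ∃ u, ((St x).map (K.d k (k + 1))).hom u = 0 ∧
      ∃ z, ((St x).map (K'.d (k - 1) k)).hom z = y - ((St x).map (f.f k)).hom u) ∧
    (∀ u, ((St x).map (K.d k (k + 1))).hom u = 0 →
      (∃ z, ((St x).map (K'.d (k - 1) k)).hom z = ((St x).map (f.f k)).hom u) →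
      ∃ w, ((St x).map (K.d (k - 1) k)).hom w = u) ↔ _
  have hZ : ∀ {K : Cx X} {I : PC X} (S : SRep K I x) a, a ∈ I.gr k →
      (((St x).map (K.d k (k + 1))).hom (S.γ k a) = 0 ↔ I.Zc k {x} ∅ a) := fun S a ha => by
    rw [S.dd k _ rfl a ha, S.ker _ _ (PC.d_gr _ ha)]
    exact ⟨fun h => ⟨ha, PC.bmem_N_empty _ _, h⟩, fun h => h.2.2⟩
  have hB : ∀ {K : Cx X} {I : PC X} (S : SRep K I x) a, a ∈ I.gr k →
      ((∃ z, ((St x).map (K.d (k - 1) k)).hom z = S.γ k a) ↔ I.Bd k {x} ∅ a) := fun {K I} S a ha => by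
    have e : ∀ t ∈ I.gr (k - 1), ((St x).map (K.d (k - 1) k)).hom (S.γ _ t) = S.γ k a ↔
        a - I.d t ∈ I.N {x} := fun t ht => by
      have h1 : I.d t ∈ I.gr k := by simpa using I.d_gr ht
      rw [S.dd (k - 1) k (by ring) t ht, ← S.ker k _ (sub_mem ha h1), map_sub, sub_eq_zero, eq_comm]
    refine ⟨fun ⟨z, hz⟩ => ?_, fun ⟨t, ht, _, h⟩ => ⟨_, (e t ht).2 h⟩⟩
    obtain ⟨t, ht, rfl⟩ := S.sur _ z
    exact ⟨t, ht, PC.bmem_N_empty _ _, (e t ht).1 hz⟩
  refine and_congr ⟨fun h s' hs' => ?_, fun h y hy => ?_⟩ ⟨fun h s hs hb => ?_, fun h u hu hz => ?_⟩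
  · obtain ⟨u, hu, hz⟩ := h _ ((hZ (S' x) s' hs'.1).2 hs')
    obtain ⟨s, hs, rfl⟩ := (S x).sur _ u
    rw [hc x k s hs, ← map_sub] at hz
    exact ⟨s, (hZ (S x) s hs).1 hu, (hB (S' x) _ (sub_mem hs'.1 (hφ hs))).1 hz⟩
  · obtain ⟨s', hs', rfl⟩ := (S' x).sur _ y
    obtain ⟨s, hs, hb⟩ := h s' ((hZ (S' x) s' hs').1 hy)
    refine ⟨_, (hZ (S x) s hs.1).2 hs, ?_⟩
    rw [hc x k s hs.1, ← map_sub]
    exact (hB (S' x) _ (sub_mem hs' (hφ hs.1))).2 hb
  · refine (hB (S x) s hs.1).1 (h _ ((hZ (S x) s hs.1).2 hs) ?_)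
    rw [hc x k s hs.1]
    exact (hB (S' x) _ (hφ hs.1)).2 hb
  · obtain ⟨s, hs, rfl⟩ := (S x).sur _ u
    rw [hc x k s hs] at hz
    exact (hB (S x) s hs).2 (h s ((hZ (S x) s hs).1 hu) ((hB (S' x) _ (hφ hs)).1 hz))

theorem Compat.qisAt_iff {K K' : Cx X} {I I' : PC X} {f : K ⟶ K'} {R : Rep K I} {R' : Rep K' I'}
    {φ : Hom id I I'} (h : Compat f R R' φ.f) (k : ℤ) : QuasiIsoAt f k ↔
      ∀ x, Sur I I' φ.f k {x} ∅ {x} ∅ ∧ Inj I I' φ.f k {x} ∅ {x} ∅ :=
  Br.qisAt_iff f R.st R'.st φ.f φ.gr (fun x k a ha => by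
    show ((St x).map (f.f k)).hom (gm _ ⊤ x trivial (R.ρ k ⊤ a)) = gm _ ⊤ x trivial _
    rw [gm_ap, h k ⊤ a ha]) k

theorem Compat.qis_iff {K K' : Cx X} {I I' : PC X} {f : K ⟶ K'} {R : Rep K I} {R' : Rep K' I'}
    {φ : Hom id I I'} (h : Compat f R R' φ.f) : QuasiIso f ↔ φ.Cart := by
  rw [quasiIso_iff]
  exact ⟨fun H x k => (h.qisAt_iff k).1 (H k) x, fun H k => (h.qisAt_iff k).2 fun x => H x k⟩

theorem Rep.exactAt {K : Cx X} {I : PC X} (R : Rep K I) {k : ℤ} (h : ∀ x, I.Van k {x} ∅) :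
    K.ExactAt k := by
  rw [K.exactAt_iff' (k - 1) k (k + 1) (by simp) (by simp),
    TopCat.Sheaf.exact_iff_stalkFunctor_map_exact]
  intro x
  rw [ShortComplex.moduleCat_exact_iff]
  intro u hu
  obtain ⟨s, hs, rfl⟩ := (R.st x).sur k u
  have h1 : ((St x).map (K.d k (k + 1))).hom ((R.st x).γ k s) = 0 := hu
  rw [(R.st x).dd k _ rfl s hs, (R.st x).ker _ _ (I.d_gr hs)] at h1
  obtain ⟨t, ht, -, h2⟩ := h x s ⟨hs, I.bmem_N_empty _, h1⟩
  have h3 : I.d t ∈ I.gr k := by simpa using I.d_gr ht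
  refine ⟨(R.st x).γ _ t, ?_⟩
  show ((St x).map (K.d (k - 1) k)).hom _ = _
  rw [(R.st x).dd (k - 1) k (by ring) t ht, eq_comm, ← sub_eq_zero, ← map_sub,
    (R.st x).ker k _ (sub_mem hs h3)]
  exact h2

end C73.Br
end
end

section
/-! Bridge, tools: acyclicity, cones, quasi-isomorphisms on open pairs, Godement resolution. -/

open Set Filter Topology

noncomputable section
namespace C73.Br

variable {X Y : Type} [TopologicalSpace X] [TopologicalSpace Y]

theorem of_empty (I : PC X) {s : I.A} (h : I.supp s = ∅) (C : Set X) : s ∈ I.N C := by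
  rw [PC.mem_N, h]; exact empty_disjoint _

theorem acy {I : PC X} (hI : I.Fl) (h : ∀ x k, I.Van k {x} ∅) (k : ℤ) :
    ∀ U, IsOpen U → I.Van k U ∅ := by
  obtain ⟨k0, hk0⟩ := I.bdd
  have base : ∀ k < k0, ∀ U, IsOpen U → I.Van k U ∅ := fun k hk U _ s hs =>
    ⟨0, zero_mem _, zero_mem _, by rw [map_zero, sub_zero]; exact of_empty I (hk0 k hk s hs.1) _⟩
  by_cases hk : k < k0
  · exact base k hk
  have hk' : k0 - 1 ≤ k := by omega
  induction k, hk' using Int.leInduction with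
  | base => exact base _ (by omega)
  | succ k hk1 ih =>
    clear hk
    have ih : ∀ U, IsOpen U → I.Van k U ∅ := by
      by_cases hk : k < k0
      exacts [base k hk, ih hk]
    intro U hU s hs
    let P := {p : Set X × I.A // IsOpen p.1 ∧ p.1 ⊆ U ∧ p.2 ∈ I.gr k ∧ s - I.d p.2 ∈ I.N p.1}
    have hglue : ∀ (κ : Type) (p : κ → P),
        (∀ i j, (p i).1.2 - (p j).1.2 ∈ I.N ((p i).1.1 ∩ (p j).1.1)) →
        ∃ q : P, ∀ i, (p i).1.1 ⊆ q.1.1 ∧ q.1.2 - (p i).1.2 ∈ I.N (p i).1.1 := fun κ p hp => by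
      obtain ⟨t, ht, h1⟩ := hI k κ (fun i => (p i).1.1) (fun i => (p i).1.2) (fun i => (p i).2.1)
        (fun i => (p i).2.2.2.1) hp
      refine ⟨⟨(⋃ i, (p i).1.1, t), isOpen_iUnion fun i => (p i).2.1,
        iUnion_subset fun i => (p i).2.2.1, ht, disjoint_iUnion_right.2 fun i => ?_⟩,
        fun i => ⟨subset_iUnion (fun i => (p i).1.1) i, h1 i⟩⟩
      have := sub_mem (p i).2.2.2.2 (I.bd_mem_N (sub_mem ht (p i).2.2.2.1) (h1 i))
      rwa [map_sub, sub_sub_sub_cancel_right] at this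
    obtain ⟨m, hm⟩ := exists_maximal_of_chains_bounded
      (r := fun p q : P => p.1.1 ⊆ q.1.1 ∧ q.1.2 - p.1.2 ∈ I.N p.1.1) (fun c hc => by
        obtain ⟨q, hq⟩ := hglue c Subtype.val fun i j => by
          rcases eq_or_ne i j with rfl | hij
          · rw [sub_self]; exact zero_mem _
          · rcases hc i.2 j.2 (fun e => hij (Subtype.ext e)) with h1 | h1
            · rw [← neg_sub]; exact neg_mem (I.bN_anti inter_subset_left h1.2)
            · exact I.bN_anti inter_subset_right h1.2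
        exact ⟨q, fun a ha => hq ⟨a, ha⟩⟩)
      (fun {a b c} h1 h2 => ⟨h1.1.trans h2.1, by
        have := add_mem (I.bN_anti h1.1 h2.2) h1.2
        rwa [sub_add_sub_cancel] at this⟩)
    refine ⟨m.1.2, by simpa using m.2.2.2.1, disjoint_empty _, I.bN_anti (fun x hx => ?_) m.2.2.2.2⟩
    obtain ⟨t, ht, -, h1⟩ := h x (k + 1) s ⟨hs.1, hs.2.1, I.bN_anti (singleton_subset_iff.2 hx) hs.2.2⟩
    rw [add_sub_cancel_right] at ht
    let W := (I.supp (s - I.d t))ᶜ ∩ U
    have hW : IsOpen W := (I.closed _).isOpen_compl.inter hU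
    have hWt : s - I.d t ∈ I.N W := disjoint_compl_right.mono_right inter_subset_left
    obtain ⟨r, hr, -, h2⟩ := ih (m.1.1 ∩ W) (m.2.1.inter hW) (m.1.2 - t)
      ⟨sub_mem m.2.2.2.1 ht, disjoint_empty _, by
        have := sub_mem (I.bN_anti inter_subset_right hWt) (I.bN_anti inter_subset_left m.2.2.2.2)
        rwa [sub_sub_sub_cancel_left, ← map_sub] at this⟩
    have hdr : I.d r ∈ I.gr k := by simpa using I.d_gr hr
    let w : P := ⟨(W, t + I.d r), hW, inter_subset_right, add_mem ht hdr, by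
      have := sub_mem hWt (I.bdd_mem_N hr W)
      rwa [sub_sub, ← map_add] at this⟩
    have h3 : m.1.2 - w.1.2 ∈ I.N (m.1.1 ∩ W) := by rwa [sub_sub] at h2
    obtain ⟨q, hq⟩ := hglue Bool (fun b => bif b then m else w) (by
      rintro (_ | _) (_ | _)
      · exact (sub_self w.1.2).symm ▸ zero_mem _
      · show w.1.2 - m.1.2 ∈ I.N (W ∩ m.1.1)
        rw [← neg_sub, inter_comm]; exact neg_mem h3
      · exact h3
      · exact (sub_self m.1.2).symm ▸ zero_mem _)
    exact (hm q (hq true)).1 ((hq false).1 ⟨disjoint_singleton_right.1 h1, hx⟩)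

theorem van_pair {I : PC X} {k : ℤ} {U U' : Set X} (hU : U' ⊆ U) (h : I.Van k U ∅)
    (h' : I.Van (k - 1) U' ∅) : I.Van k U U' := by
  intro s hs
  obtain ⟨t, ht, -, h1⟩ := h s ⟨hs.1, disjoint_empty _, hs.2.2⟩
  obtain ⟨r, hr, -, h2⟩ := h' t ⟨ht, disjoint_empty _, by
    have := sub_mem hs.2.1 (I.bN_anti hU h1)
    rwa [sub_sub_cancel] at this⟩
  refine ⟨t - I.d r, sub_mem ht (by simpa using I.d_gr hr), h2, ?_⟩
  have := add_mem h1 (I.bdd_mem_N hr U)
  rwa [sub_add, ← map_sub] at this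

section
variable {I J : PC X} (φ : Hom id I J)

theorem cone_N {s : I.A × J.A} {C : Set X} : s ∈ φ.cone.N C ↔ s.1 ∈ I.N C ∧ s.2 ∈ J.N C :=
  disjoint_union_left

theorem hom_N {k a} (ha : a ∈ I.gr k) {C : Set X} (h : a ∈ I.N C) : φ.f a ∈ J.N C :=
  Disjoint.mono_left (φ.supp ha) h

theorem cone_fl (hI : I.Fl) (hJ : J.Fl) : φ.cone.Fl := by
  intro k κ U s hU hs hc
  obtain ⟨a, ha, h1⟩ := hI (k + 1) κ U (fun i => (s i).1) hU (fun i => (hs i).1)
    fun i j => ((cone_N φ).1 (hc i j)).1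
  obtain ⟨b, hb, h2⟩ := hJ k κ U (fun i => (s i).2) hU (fun i => (hs i).2)
    fun i j => ((cone_N φ).1 (hc i j)).2
  exact ⟨(a, b), ⟨ha, hb⟩, fun i => (cone_N φ).2 ⟨h1 i, h2 i⟩⟩

theorem cone_van {k : ℤ} {C C' : Set X} (hS : Sur I J φ.f k C C' C C')
    (hI : Inj I J φ.f (k + 1) C C' C C') : φ.cone.Van k C C' := by
  rintro ⟨a, b⟩ ⟨⟨ha, hb⟩, h1, h2⟩
  obtain ⟨h1, h1'⟩ := (cone_N φ).1 h1
  obtain ⟨h2, h2'⟩ := (cone_N φ).1 h2
  replace h2 : -I.d a ∈ I.N C := h2
  replace h2' : φ.f a + J.d b ∈ J.N C := h2'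
  replace ha : a ∈ I.gr (k + 1) := ha
  replace hb : b ∈ J.gr k := hb
  obtain ⟨a', ha', h3, h4⟩ := hI a ⟨ha, h1, by simpa using h2⟩
    ⟨-b, by simpa using hb, neg_mem h1', by simpa only [map_neg, sub_neg_eq_add] using h2'⟩
  rw [add_sub_cancel_right] at ha'
  obtain ⟨s, hs, t, ht, h5, h6⟩ := hS (b + φ.f a') ⟨add_mem hb (φ.gr ha'),
    add_mem h1' (hom_N φ ha' h3), by
      have := sub_mem (sub_mem h2' (hom_N φ (sub_mem ha (I.d_gr ha')) h4))
        (of_empty J (φ.comm ha') C)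
      convert this using 1
      simp only [map_add, map_sub]; abel⟩
  refine ⟨(s - a', t), ⟨by simpa using sub_mem hs.1 ha', ht⟩,
    (cone_N φ).2 ⟨sub_mem hs.2.1 h3, h5⟩, (cone_N φ).2 ⟨?_, ?_⟩⟩
  · show a - -I.d (s - a') ∈ I.N C
    convert add_mem h4 hs.2.2 using 1
    simp only [map_sub]; abel
  · show b - (φ.f (s - a') + J.d t) ∈ J.N C
    convert h6 using 1
    simp only [map_sub]; abel

theorem sur_of_cone {k : ℤ} {C C' : Set X} (h : φ.cone.Van k C C') : Sur I J φ.f k C C' C C' := by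
  intro b hb
  obtain ⟨⟨a, t⟩, ⟨ha, ht⟩, h1, h2⟩ := h (0, b) ⟨⟨zero_mem _, hb.1⟩,
    (cone_N φ).2 ⟨zero_mem _, hb.2.1⟩, (cone_N φ).2 ⟨by
      show -I.d 0 ∈ _
      rw [map_zero, neg_zero]; exact zero_mem _, by
      show φ.f 0 + J.d b ∈ _
      rw [map_zero, zero_add]; exact hb.2.2⟩⟩
  obtain ⟨h1, h1'⟩ := (cone_N φ).1 h1
  obtain ⟨h2, h2'⟩ := (cone_N φ).1 h2
  replace h2 : 0 - -I.d a ∈ I.N C := h2
  replace h2' : b - (φ.f a + J.d t) ∈ J.N C := h2'
  exact ⟨a, ⟨by simpa using ha, h1, by simpa using h2⟩, t, ht, h1', by rwa [sub_sub]⟩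

theorem inj_of_cone {k : ℤ} {C C' : Set X} (h : φ.cone.Van (k - 1) C C') :
    Inj I J φ.f k C C' C C' := by
  rintro s hs ⟨t, ht, h0, h0'⟩
  obtain ⟨⟨a, t'⟩, ⟨ha, -⟩, h1, h2⟩ := h (s, -t) ⟨⟨by simpa using hs.1, neg_mem ht⟩,
    (cone_N φ).2 ⟨hs.2.1, neg_mem h0⟩, (cone_N φ).2 ⟨neg_mem hs.2.2, by
      show φ.f s + J.d (-t) ∈ _
      rwa [map_neg, ← sub_eq_add_neg]⟩⟩
  have h3 : s - -I.d a ∈ I.N C := ((cone_N φ).1 h2).1
  exact ⟨-a, neg_mem (by simpa using ha), neg_mem ((cone_N φ).1 h1).1, by rwa [map_neg]⟩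

theorem qis_open (hI : I.Fl) (hJ : J.Fl) (h : φ.Cart) {U U' : Set X} (hU : IsOpen U)
    (hU' : IsOpen U') (hs : U' ⊆ U) : Bij I J φ.f U U' U U' := by
  have h1 := acy (cone_fl φ hI hJ) fun x k => cone_van φ (h x k).1 (h x (k + 1)).2
  have h2 : ∀ k, φ.cone.Van k U U' := fun k => van_pair hs (h1 k U hU) (h1 _ U' hU')
  exact fun k => ⟨sur_of_cone φ (h2 k), inj_of_cone φ (h2 _)⟩
end

/-! ### Godement resolution and truncation -/

section
variable {I : PC X}

/-- the Godement resolution -/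
abbrev G (I : PC X) : PC X := god id continuous_id I

theorem god_glue {κ : Type} {U : κ → Set X} {s : κ → List X → I.A} (hU : ∀ i, IsOpen (U i))
    (hc : ∀ i j, s i - s j ∈ (G I).N (U i ∩ U j)) :
    ∃ t : List X → I.A, t [] = 0 ∧ (∀ z, (∃ i, ∀ l, t (z :: l) = s i (z :: l)) ∨
      ∀ l, t (z :: l) = 0) ∧ ∀ i, t - s i ∈ (G I).N (U i) := by
  classical
  refine ⟨fun l => match l with
    | [] => 0
    | z :: l => if h : ∃ i, z ∈ U i then s h.choose (z :: l) else 0, rfl, fun z => ?_,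
    fun i => disjoint_right.2 fun x hx => god_supp.2 ?_⟩
  · by_cases h : ∃ i, z ∈ U i
    · exact Or.inl ⟨h.choose, fun l => dif_pos h⟩
    · exact Or.inr fun l => dif_neg h
  · filter_upwards [(hU i).mem_nhds hx] with z hz n
    have h : ∃ i, z ∈ U i := ⟨i, hz⟩
    have h1 := (god_supp.1 (disjoint_right.1 (hc h.choose i) ⟨h.choose_spec, hz⟩)).self_of_nhds n
    refine h1.mono fun l => (congrArg I.supp ?_).subset
    exact congrArg (· - s i (z :: l)) (dif_pos h)

theorem god_fl (I : PC X) : (G I).Fl := by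
  intro k κ U s hU hs hc
  obtain ⟨t, h0, h1, h2⟩ := god_glue hU hc
  refine ⟨t, god_gr.2 ⟨h0, fun z l => ?_⟩, h2⟩
  rcases h1 z with ⟨i, h⟩ | h
  · rw [h]; exact (god_gr.1 (hs i)).2 z l
  · rw [h]; exact zero_mem _

theorem trunc_fl (c : ℤ) (I : PC X) : (trunc c I).Fl := by
  intro k κ U s hU hs hc
  obtain ⟨t, h0, h1, h2⟩ := god_glue hU hc
  refine ⟨t, ⟨god_gr.2 ⟨h0, fun z l => ?_⟩, fun n hn z => ?_, fun n hn z => ?_⟩, h2⟩
  all_goals rcases h1 z with ⟨i, h⟩ | h
  · rw [h]; exact (god_gr.1 (hs i).1).2 z l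
  · rw [h]; exact zero_mem _
  · exact ((hs i).2.1 n hn z).mono fun l => by rw [h]
  · exact Nul.of_empty fun l _ => by rw [h, I.supp_zero]
  · exact ((hs i).2.2 n hn z).mono fun l => by rw [h]
  · exact Nul.of_empty fun l _ => by rw [h, map_zero, I.supp_zero]

theorem ev_all {P : ℕ → X → Prop} {x : X} (N : ℕ) (h : ∀ n, ∀ᶠ z in 𝓝 x, P n z)
    (h' : ∀ n, N ≤ n → ∀ z, P n z) : ∀ᶠ z in 𝓝 x, ∀ n, P n z := by
  filter_upwards [(eventually_all_finite (finite_lt_nat N)).2 fun n _ => h n] with z hz n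
  rcases lt_or_ge n N with hn | hn
  exacts [hz n hn, h' n hn z]

open Classical in
/-- the contraction at `x` -/
def ctr (x : X) (s : List X → I.A) : List X → I.A := fun l => if l = [] then 0 else s (x :: l)

theorem ctr_gr (x : X) {k : ℤ} {s : List X → I.A} (hs : s ∈ (G I).gr k) :
    ctr x s ∈ (G I).gr (k - 1) :=
  god_gr.2 ⟨if_pos rfl, fun z l => by
    have := (god_gr.1 hs).2 x (z :: l)
    rw [ctr, if_neg (by simp)]
    convert this using 2
    simp; ring⟩

theorem gD_one {k : ℤ} {s : List X → I.A} (hs : s ∈ (G I).gr k) (x : X) :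
    gD I.d s [x] = I.d (s [x]) := by
  simp only [gD_apply, Pi.add_apply, dl, (god_gr.1 hs).1, sub_self, sgnD_apply, List.length_cons, List.length_nil, zero_add, Nat.reduceAdd, even_two, Even.neg_pow, one_pow, one_smul]

theorem one_gr {k : ℤ} {s : List X → I.A} (hs : s ∈ (G I).gr k) (x : X) : s [x] ∈ I.gr k := by
  simpa using (god_gr.1 hs).2 x []

theorem one_N {s : List X → I.A} {x : X} (h : s ∈ (G I).N {x}) : s [x] ∈ I.N {x} :=
  disjoint_singleton_right.2 ((god_supp.1 (disjoint_singleton_right.1 h)).self_of_nhds 0)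

theorem decomp {k : ℤ} {s : List X → I.A} {x : X} (hs : (G I).Zc k {x} ∅ s) :
    I.Zc k {x} ∅ (s [x]) ∧ s - uL X (s [x]) - gD I.d (ctr x s) ∈ (G I).N {x} := by
  classical
  refine ⟨⟨one_gr hs.1 x, disjoint_empty _, by rw [← gD_one hs.1]; exact one_N hs.2.2⟩, ?_⟩
  have e : ∀ z l, (s - uL X (s [x]) - gD I.d (ctr x s)) (z :: l) = gD I.d s (x :: z :: l) := by
    intro z l
    have e1 : (fun l => s (x :: l)) = ctr x s + fun l => if l = [] then s [x] else 0 := by
      funext l; by_cases hl : l = [] <;> simp [ctr, hl]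
    rw [congrFun (god_cons I.d s x) (z :: l), e1, dl_add, ← uL_eq, map_add, gD_apply]
    simp only [Pi.sub_apply, Pi.add_apply, sgnD_apply, List.length_cons, reduceCtorEq, ↓ reduceIte, map_zero, smul_zero, add_zero]; abel
  obtain ⟨k0, hk0⟩ := I.bdd
  have h1 := (god_supp.1 (disjoint_singleton_right.1 hs.2.2)).self_of_nhds
  refine disjoint_singleton_right.2 (god_supp.2 (ev_all (k - k0 + 1).toNat (fun n => ?_)
    fun n hn z => Nul.of_empty fun l hl => ?_))
  · exact Eventually.mono (h1 (n + 1)) fun z hz => Nul.mono hz fun l => by rw [e]; rfl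
  · rw [e]
    exact hk0 _ (by simp; omega) _ ((god_gr.1 ((G I).d_gr hs.1)).2 x (z :: l))

theorem godU_cart (I : PC X) : (godU id continuous_id I).Cart := fun x k =>
  ⟨fun s hs => ⟨s [x], (decomp hs).1, ctr x s, ctr_gr x hs.1, disjoint_empty _, (decomp hs).2⟩,
    fun a _ ⟨t, ht, _, h⟩ => ⟨t [x], one_gr ht x, disjoint_empty _, by
      have := one_N h
      rw [← gD_one ht]
      exact this⟩⟩

open Classical in
/-- cut-off -/
def cut (V : Set X) (s : List X → I.A) : List X → I.A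
  | [] => 0
  | z :: l => if z ∈ V then s (z :: l) else 0

theorem cut_gr (V : Set X) {k : ℤ} {s : List X → I.A} (hs : s ∈ (G I).gr k) :
    cut V s ∈ (G I).gr k :=
  god_gr.2 ⟨rfl, fun z l => by
    rw [cut]
    split_ifs
    exacts [(god_gr.1 hs).2 z l, zero_mem _]⟩

theorem cut_N {V : Set X} {x : X} (hV : V ∈ 𝓝 x) (s : List X → I.A) :
    s - cut V s ∈ (G I).N {x} :=
  disjoint_singleton_right.2 (god_supp.2 (Eventually.mono hV fun z hz n =>
    Nul.of_empty fun l _ => by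
      rw [Pi.sub_apply, cut, if_pos (show z ∈ V from hz), sub_self, I.supp_zero]))

theorem cut_trunc {V : Set X} {c k : ℤ} {s : List X → I.A} (hs : s ∈ (G I).gr k)
    (h1 : ∀ z ∈ V, ∀ n : ℕ, c < k - n → Nul id I n z fun l => s (z :: l))
    (h2 : ∀ z ∈ V, ∀ n : ℕ, c = k - n → Nul id I n z fun l => I.d (s (z :: l))) :
    cut V s ∈ (trunc c I).gr k := by
  refine ⟨cut_gr V hs, fun n hn z => ?_, fun n hn z => ?_⟩ <;> by_cases hz : z ∈ V
  · exact (h1 z hz n hn).mono fun l => by rw [cut, if_pos hz]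
  · exact Nul.of_empty fun l _ => by rw [cut, if_neg hz, I.supp_zero]
  · exact (h2 z hz n hn).mono fun l => by rw [cut, if_pos hz]
  · exact Nul.of_empty fun l _ => by rw [cut, if_neg hz, map_zero, I.supp_zero]

theorem trunc_sur {c k : ℤ} (hk : k ≤ c) (x : X) :
    Sur (trunc c I) (G I) (truncι c I).f k {x} ∅ {x} ∅ := by
  intro s hs
  obtain ⟨ha, h⟩ := decomp hs
  have hV : (I.supp (I.d (s [x])))ᶜ ∈ 𝓝 x :=
    (I.closed _).isOpen_compl.mem_nhds (disjoint_singleton_right.1 ha.2.2)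
  have hu : uL X (s [x]) ∈ (G I).gr k := (godU id continuous_id I).gr ha.1
  have h1 := cut_N hV (uL X (s [x]))
  refine ⟨cut (I.supp (I.d (s [x])))ᶜ (uL X (s [x])), ⟨cut_trunc hu (fun z _ n hn => by omega) fun z hz n hn => ?_,
    disjoint_empty _, ?_⟩, ctr x s, ctr_gr x hs.1, disjoint_empty _, ?_⟩
  · obtain rfl : n = 0 := by omega
    exact hz
  · have h2 := (G I).bd_mem_N (sub_mem hu (cut_gr _ hu)) h1
    have h3 : (G I).d (uL X (s [x])) ∈ (G I).N {x} := by
      rw [god_d, gD_uL]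
      exact hom_N (godU id continuous_id I) (I.d_gr ha.1) ha.2.2
    have := sub_mem h3 h2
    rwa [map_sub, sub_sub_cancel] at this
  · have e : ∀ a b c d : (G I).A, a - b - d + (b - c) = a - c - d := fun _ _ _ _ => by abel
    exact (congrArg (· ∈ (G I).N {x}) (e s _ _ _)).mp (add_mem h h1)

theorem trunc_inj {c k : ℤ} (hk : k ≤ c) (x : X) :
    Inj (trunc c I) (G I) (truncι c I).f k {x} ∅ {x} ∅ := fun _ _ ⟨t, ht, h1, h2⟩ =>
  ⟨t, ⟨ht, fun n hn => by omega, fun n hn => by omega⟩, h1, h2⟩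

theorem trunc_van {c k : ℤ} (hk : c < k) (x : X) : (trunc c I).Van k {x} ∅ := by
  intro s hs
  obtain ⟨ha, h⟩ := decomp (I := I) ⟨hs.1.1, hs.2⟩
  have h0 : uL X (s [x]) ∈ (G I).N {x} := hom_N (godU id continuous_id I) ha.1
    (disjoint_singleton_right.2 (hs.1.2.1 0 (by omega) x))
  have e : ∀ z l, ctr x s (z :: l) = s (x :: z :: l) := fun z l => if_neg (by simp)
  have h1 : ∀ᶠ z in 𝓝 x, ∀ n : ℕ, (c < k - 1 - n → Nul id I n z fun l => ctr x s (z :: l)) ∧
      (c = k - 1 - n → Nul id I n z fun l => I.d (ctr x s (z :: l))) := by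
    refine ev_all (k - c).toNat (fun n => Eventually.and ?_ ?_) fun n hn z =>
      ⟨fun h => by omega, fun h => by omega⟩
    · by_cases hn : c < k - 1 - n
      · exact Eventually.mono (hs.1.2.1 (n + 1) (by push_cast; omega) x) fun z hz _ =>
          Nul.mono hz fun l => by rw [e]
      · exact Eventually.of_forall fun z h => absurd h hn
    · by_cases hn : c = k - 1 - n
      · exact Eventually.mono (hs.1.2.2 (n + 1) (by push_cast; omega) x) fun z hz _ =>
          Nul.mono hz fun l => by rw [e]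
      · exact Eventually.of_forall fun z h => absurd h hn
  have h2 := ctr_gr x hs.1.1
  obtain ⟨V, hV, h1⟩ := h1.exists_mem
  refine ⟨cut V (ctr x s), cut_trunc h2 (fun z hz n => (h1 z hz n).1)
    (fun z hz n => (h1 z hz n).2), disjoint_empty _, ?_⟩
  have h3 := (G I).bd_mem_N (sub_mem h2 (cut_gr V h2)) (cut_N hV (ctr x s))
  have e' : ∀ a b c d : (G I).A, a - b - c + b + (c - d) = a - d := fun _ _ _ _ => by abel
  have := add_mem (add_mem h h0) h3
  rw [map_sub] at this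
  exact e' s _ _ _ ▸ this
end

end C73.Br
end
end

section
/-! Bridge, part 3: derived functors are computed by flasque complexes. -/

open CategoryTheory Limits TopologicalSpace Opposite Set

noncomputable section
namespace C73.Br

variable {X Y : TopCat.{0}}

/-- the sheaf of discontinuous sections -/
def disc (F : Sh X) : Sh X :=
  ⟨{ obj := fun U => ModuleCat.of ℚ (∀ x : U.unop, (St x.1).obj F)
     map := fun {U V} h => ModuleCat.ofHom
       (LinearMap.pi fun x : V.unop => LinearMap.proj (R := ℚ)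
         (φ := fun x : U.unop => (St x.1).obj F) ⟨x.1, h.unop.le x.2⟩)
     map_id := fun _ => rfl
     map_comp := fun _ _ => rfl }, by
    show TopCat.Presheaf.IsSheaf _
    rw [TopCat.Presheaf.isSheaf_iff_isSheafUniqueGluing]
    intro κ U sf hc
    choose j hj using fun x : (iSup U : Opens X) => Opens.mem_iSup.1 x.2
    refine ⟨fun x => sf (j x) ⟨x.1, hj x⟩, fun i => funext fun x => ?_, fun t ht => funext fun x => ?_⟩
    · exact congrFun (hc _ i) ⟨x.1, hj ⟨x.1, le_iSup U i x.2⟩, x.2⟩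
    · exact congrFun (ht (j x)) ⟨x.1, hj x⟩⟩

theorem flq_of_injective (F : Sh X) [Injective F] (U : Opens X) :
    Function.Surjective (rs F (le_top : U ≤ ⊤)) := by
  classical
  let m : F ⟶ disc F := mkHom (fun U => LinearMap.pi fun x : U => gm F U x.1 x.2)
    fun U V h s => funext fun x => gm_rs F h x.2 s
  have : Mono m := ⟨fun g h e => ap_ext fun U s =>
    TopCat.Presheaf.section_ext F U _ _ fun x hx =>
      congrFun (congrArg (fun φ => ap φ U s) e) ⟨x, hx⟩⟩
  intro s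
  let g : Sec (disc F) ⊤ := fun x => if h : x.1 ∈ U then gm F U x.1 h s else 0
  refine ⟨ap (Injective.factorThru (𝟙 F) m) ⊤ g, ?_⟩
  have : rs (disc F) (le_top : U ≤ ⊤) g = ap m U s := funext fun x => dif_pos x.2
  rw [← ap_rs, this, ← ap_comp, Injective.comp_factorThru, ap_id]

/-- the localisation functor -/
abbrev QQ (X : TopCat.{0}) : Cx X ⥤ DerivedCategory (Sh X) := DerivedCategory.Q

/-- `A` is the object of the derived category presented by `I` -/
def Models (A : DP X) (I : PC X) : Prop :=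
  ∃ K : Cx X, Nonempty (Rep K I) ∧ Nonempty (A.obj ≅ (QQ X).obj K)

theorem Models.fl {A : DP X} {I : PC X} (h : Models A I) : I.Fl := h.choose_spec.1.some.fl

theorem Models.of_iso {A B : DP X} {I : PC X} (h : Models A I) (e : B ≅ A) : Models B I :=
  let ⟨K, R, ⟨e'⟩⟩ := h
  ⟨K, R, ⟨DerivedCategory.Plus.ι.mapIso e ≪≫ e'⟩⟩

theorem Rep.iso {K K' : Cx X} {I I' : PC X} (R : Rep K I) (R' : Rep K' I') (φ : Hom id I I')
    (h : φ.Cart) : Nonempty ((QQ X).obj K ≅ (QQ X).obj K') := by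
  obtain ⟨f, hf⟩ := R.lift R' φ
  have := hf.qis_iff.2 h
  exact ⟨asIso ((QQ X).map f)⟩

theorem refl_cart {Z : Type} [TopologicalSpace Z] (I : PC Z) : (Hom.refl I).Cart := fun _ _ =>
  ⟨fun s hs => ⟨s, hs, 0, zero_mem _, zero_mem _, by
      show s - s - I.d 0 ∈ _
      rw [map_zero, sub_self, sub_zero]; exact zero_mem _⟩, fun _ _ h => h⟩

theorem Models.eqv {I I' : PC X} (e : Eqv I I') (A : DP X) : Models A I ↔ Models A I' := by
  induction e with
  | rel I J h =>
    obtain ⟨hI, hJ, φ, hφ⟩ := h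
    refine ⟨fun ⟨K, ⟨R⟩, ⟨e⟩⟩ => ⟨_, ⟨toRep hJ⟩, ⟨e ≪≫ (R.iso (toRep hJ) φ hφ).some⟩⟩,
      fun ⟨K, ⟨R⟩, ⟨e⟩⟩ => ⟨_, ⟨toRep hI⟩, ⟨e ≪≫ ((toRep hI).iso R φ hφ).some.symm⟩⟩⟩
  | refl => rfl
  | symm _ _ _ ih => exact ih.symm
  | trans _ _ _ _ _ ih ih' => exact ih.trans ih'

theorem Models.iso {A B : DP X} {I I' : PC X} (h : Models A I) (h' : Models B I') (e : Eqv I I') :
    Nonempty (A ≅ B) := by
  obtain ⟨K, ⟨R⟩, ⟨e1⟩⟩ := (Models.eqv e A).1 h
  obtain ⟨K', ⟨R'⟩, ⟨e2⟩⟩ := h'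
  exact ⟨DerivedCategory.Plus.ι.preimageIso
    (e1 ≪≫ (R.iso R' _ (refl_cart I')).some ≪≫ e2.symm)⟩

/-- a functor on sheaves together with its effect on models -/
structure FMod (F : Sh X ⥤ Sh Y) [F.Additive] (T : PC X → PC Y) where
  rep : ∀ {K I}, Rep K I → Rep ((F.mapHomologicalComplex _).obj K) (T I)
  hom : ∀ {I J}, Hom id I J → Hom id (T I) (T J)
  compat : ∀ {K L I J} {f : K ⟶ L} {R : Rep K I} {R' : Rep L J} {φ : Hom id I J},
    Compat f R R' φ.f → Compat ((F.mapHomologicalComplex _).map f) (rep R) (rep R') (hom φ).f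
  cart : ∀ {I J} {φ : Hom id I J}, I.Fl → J.Fl → φ.Cart → (hom φ).Cart

theorem FMod.models {F : Sh X ⥤ Sh Y} [F.Additive] {T : PC X → PC Y} (M : FMod F T) {A : DP X}
    {I : PC X} (h : Models A I) : Models (F.rightDerivedFunctorPlus.obj A) (T I) := by
  obtain ⟨K, ⟨R⟩, ⟨e⟩⟩ := h
  refine ⟨_, ⟨M.rep R⟩, ?_⟩
  obtain ⟨n, hn⟩ := R.bdd
  obtain ⟨L, -, i, hi⟩ := CochainComplex.Plus.exists_quasiIso_injective ⟨K, R.bdd⟩ n
  let J := (InjectiveObject.ι (Sh X)).mapCochainComplexPlus.obj L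
  have hi' : QuasiIso i.hom := hi
  have hJ : Flq J.obj := fun k U => by
    have : Injective (J.obj.X k) := (L.obj.X k).property
    exact flq_of_injective _ U
  have hc := frCompat R.bdd J.property R.flq hJ i.hom
  have h1 : QuasiIso ((F.mapHomologicalComplex _).map i.hom) := (M.compat hc).qis_iff.2
    (M.cart (frRep _ _ R.flq).fl (frRep _ _ hJ).fl (hc.qis_iff.1 hi'))
  let e1 : A ≅ DerivedCategory.Plus.Qh.obj ((HomotopyCategory.Plus.quotient _).obj J) :=
    DerivedCategory.Plus.ι.preimageIso (e ≪≫ asIso ((QQ X).map i.hom) ≪≫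
      ((DerivedCategory.quotientCompQhIso (Sh X)).app J.obj).symm)
  have h2 : IsIso (F.rightDerivedFunctorPlusUnit.app ((HomotopyCategory.Plus.quotient _).obj J)) :=
    inferInstance
  exact ⟨DerivedCategory.Plus.ι.mapIso (F.rightDerivedFunctorPlus.mapIso e1 ≪≫
      (asIso (F.rightDerivedFunctorPlusUnit.app ((HomotopyCategory.Plus.quotient _).obj J))).symm) ≪≫
    (DerivedCategory.quotientCompQhIso (Sh Y)).app ((F.mapHomologicalComplex _).obj J.obj) ≪≫
    (asIso ((QQ Y).map ((F.mapHomologicalComplex _).map i.hom))).symm⟩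

theorem push_N {Z W : Type} [TopologicalSpace Z] [TopologicalSpace W] (I : PC Z) (p : Z → W)
    {U : Set W} (hU : IsOpen U) {a : I.A} : a ∈ (I.push p).N U ↔ a ∈ I.N (p ⁻¹' U) :=
  ⟨fun h => disjoint_image_left.1 (h.mono_left subset_closure),
    fun h => (disjoint_image_left.2 h).closure_left hU⟩

theorem N_pt {Z : Type} [TopologicalSpace Z] (I : PC Z) {x : Z} {a b : I.A} (ha : a ∈ I.N {x})
    (hb : b ∈ I.N {x}) : ∃ U, IsOpen U ∧ x ∈ U ∧ a ∈ I.N U ∧ b ∈ I.N U ∧
      ∀ C, a ∈ I.N C → b ∈ I.N C → C ⊆ U :=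
  ⟨(I.supp a)ᶜ ∩ (I.supp b)ᶜ, (I.closed a).isOpen_compl.inter (I.closed b).isOpen_compl,
    ⟨disjoint_singleton_right.1 ha, disjoint_singleton_right.1 hb⟩,
    disjoint_compl_right.mono_right inter_subset_left,
    disjoint_compl_right.mono_right inter_subset_right,
    fun _ h h' => subset_inter h.subset_compl_left h'.subset_compl_left⟩

/-- direct image -/
def pushMod (p : X ⟶ Y) :
    FMod (TopCat.Sheaf.pushforward (ModuleCat.{0} ℚ) p) fun I => I.push p where
  rep R := ⟨fun k U => R.ρ k ((Opens.map p).obj U), fun k U V h a => R.res _ _ _ _ a,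
    fun k U s => R.sur k _ s, fun k U a ha => (R.ker k _ a ha).trans (push_N _ p U.2).symm,
    fun i j h U a ha => R.dd i j h _ a ha⟩
  hom φ := ⟨φ.f, φ.gr, fun h => closure_mono (image_mono (φ.supp h)), fun h =>
    (congrArg (fun S => closure (p '' S)) (φ.comm h)).trans (by simp only [image_empty, isClosed_empty, IsClosed.closure_eq])⟩
  compat h k U a ha := h k _ a ha
  cart {I J φ} hI hJ h y k := by
    have H := fun U (hU : IsOpen U) => Br.qis_open φ hI hJ h (hU.preimage p.hom.continuous)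
      isOpen_empty (empty_subset _) k
    have e : ∀ (I : PC X) {U : Set Y} (hU : IsOpen U) (hy : y ∈ U) {a : I.A},
        a ∈ I.N (p ⁻¹' U) → a ∈ (I.push p).N {y} := fun I U hU hy a h =>
      (I.push p).bN_anti (singleton_subset_iff.2 hy) ((push_N I p hU).2 h)
    constructor
    · intro s' hs'
      obtain ⟨U, hU, hy, h1, -⟩ := N_pt _ hs'.2.2 hs'.2.2
      obtain ⟨s, hs, t, ht, -, h2⟩ := (H U hU).1 s' ⟨hs'.1, disjoint_empty _, (push_N J p hU).1 h1⟩
      exact ⟨s, ⟨hs.1, disjoint_empty _, e I hU hy hs.2.2⟩, t, ht, disjoint_empty _, e J hU hy h2⟩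
    · rintro s hs ⟨t, ht, -, h1⟩
      obtain ⟨U, hU, hy, h2, -⟩ := N_pt _ hs.2.2 hs.2.2
      obtain ⟨V, hV, hy', h3, -⟩ := N_pt _ h1 h1
      obtain ⟨t', ht', -, h4⟩ := (H _ (hU.inter hV)).2 s ⟨hs.1, disjoint_empty _,
        I.bN_anti (preimage_mono inter_subset_left) ((push_N I p hU).1 h2)⟩ ⟨t, ht, disjoint_empty _,
        J.bN_anti (preimage_mono inter_subset_right) ((push_N J p hV).1 h3)⟩
      exact ⟨t', ht', disjoint_empty _, e I (hU.inter hV) ⟨hy, hy'⟩ h4⟩

theorem comap_N {Z W : Type} [TopologicalSpace Z] [TopologicalSpace W] (I : PC Z) {e : W → Z}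
    (he : Continuous e) {C : Set W} {a : I.A} : a ∈ (I.comap e he).N C ↔ a ∈ I.N (e '' C) :=
  disjoint_image_right.symm

theorem comap_pt {Z W : Type} [TopologicalSpace Z] [TopologicalSpace W] (I : PC Z) {e : W → Z}
    (he : Continuous e) {w : W} {a : I.A} : a ∈ (I.comap e he).N {w} ↔ a ∈ I.N {e w} := by
  rw [comap_N, image_singleton]

/-- restriction to an open subset -/
def resMod (U : Opens X) : FMod (U.isOpenEmbedding.sheafPullback (ModuleCat.{0} ℚ))
    fun I => I.comap (Subtype.val : U → X) continuous_subtype_val where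
  rep R := ⟨fun k W => R.ρ k (U.isOpenEmbedding.functor.obj W),
    fun k W V h a => R.res k (U.isOpenEmbedding.functor.obj W) (U.isOpenEmbedding.functor.obj V)
      (U.isOpenEmbedding.functor.map (homOfLE h)).le a,
    fun k U s => R.sur k _ s, fun k U a ha => (R.ker k _ a ha).trans (comap_N _ _).symm,
    fun i j h U a ha => R.dd i j h _ a ha⟩
  hom φ := ⟨φ.f, φ.gr, fun h => preimage_mono (φ.supp h), fun h =>
    (congrArg (fun S => Subtype.val ⁻¹' S) (φ.comm h)).trans preimage_empty⟩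
  compat h k U a ha := h k _ a ha
  cart {I J φ} _ _ h y k := by
    constructor
    · intro s' hs'
      obtain ⟨s, hs, t, ht, -, h2⟩ := (h y.1 k).1 s' ⟨hs'.1, disjoint_empty _,
        (comap_pt J continuous_subtype_val).1 hs'.2.2⟩
      exact ⟨s, ⟨hs.1, disjoint_empty _, (comap_pt I continuous_subtype_val).2 hs.2.2⟩, t, ht,
        disjoint_empty _, (comap_pt J continuous_subtype_val).2 h2⟩
    · rintro s hs ⟨t, ht, -, h1⟩
      obtain ⟨t', ht', -, h4⟩ := (h y.1 k).2 s ⟨hs.1, disjoint_empty _,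
        (comap_pt I continuous_subtype_val).1 hs.2.2⟩
        ⟨t, ht, disjoint_empty _, (comap_pt J continuous_subtype_val).1 h1⟩
      exact ⟨t', ht', disjoint_empty _, (comap_pt I continuous_subtype_val).2 h4⟩

theorem hat_bot (Z : Closeds X) : ((hat Z ⊥ : Opens X) : Set X) = (Z : Set X)ᶜ := by
  ext x
  exact not_congr ⟨fun ⟨y, _, e⟩ => e ▸ y.2, fun h => ⟨⟨x, h⟩, not_false, rfl⟩⟩

theorem hat_N (Z : Closeds X) (W : Opens (TopCat.of Z)) {I : PC X} {a : I.A}
    (ha : a ∈ I.N (Z : Set X)ᶜ) : a ∈ I.N (hat Z W) ↔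
      a ∈ ((I.on Z).comap (Subtype.val : Z → X) continuous_subtype_val).N W := by
  refine ⟨fun h => disjoint_left.2 fun y hy hW => disjoint_left.1 h hy ?_,
    fun h => disjoint_left.2 fun x hx hW => ?_⟩
  · rintro ⟨y', h', e⟩
    exact h' (Subtype.ext e ▸ hW)
  · have hZ : x ∈ Z := not_not.1 (disjoint_left.1 ha hx)
    exact hW ⟨⟨x, hZ⟩, disjoint_left.1 h hx, rfl⟩

/-- presentation of the sections with support -/
def shRho (Z : Closeds X) {K : Cx X} {I : PC X} (R : Rep K I) (k : ℤ) (W : Opens (TopCat.of Z)) :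
    I.A →ₗ[ℚ] secOn Z (K.X k) W :=
  ((R.ρ k (hat Z W) ∘ₗ ((I.on Z).gr k).subtype).codRestrict _ fun a => by
    show rs _ _ (R.ρ k (hat Z W) a.1) = 0
    rw [R.res, R.ker k _ _ a.2.1, hat_bot]
    exact a.2.2) ∘ₗ prj ((I.on Z).gr k)

theorem shRho_val (Z : Closeds X) {K : Cx X} {I : PC X} (R : Rep K I) {k : ℤ} (W) {a : I.A}
    (ha : a ∈ (I.on Z).gr k) : (shRho Z R k W a).1 = R.ρ k (hat Z W) a := by
  exact congrArg (fun b : (I.on Z).gr k => R.ρ k (hat Z W) b.1) (prj_mem ((I.on Z).gr k) ha)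

/-- sections with support in a closed subset -/
def shMod (Z : Closeds X) : FMod (shriek0 Z)
    fun I => (I.on Z).comap (Subtype.val : Z → X) continuous_subtype_val where
  rep {K I} R := ⟨fun k W => shRho (I := I) Z R k W, fun k U V h a => Subtype.ext (R.res _ _ _ (hat_mono Z h) _),
    fun k U s => by
      obtain ⟨a, ha, e⟩ := R.sur k _ s.1
      have h0 : rs _ _ s.1 = 0 := s.2
      replace h0 : a ∈ I.N (Z : Set X)ᶜ := hat_bot Z ▸ (R.ker k (hat Z ⊥) a ha).1
        ((R.res k _ _ (hat_mono Z bot_le) a).symm.trans ((congrArg _ e).trans h0))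
      exact ⟨a, ⟨ha, h0⟩, Subtype.ext ((shRho_val Z R U ⟨ha, h0⟩).trans e)⟩,
    fun k U a ha => (Subtype.ext_iff.trans (Eq.congr (shRho_val Z R U ha) rfl)).trans
      ((R.ker k _ a ha.1).trans (hat_N Z U ha.2)),
    fun i j h U a ha => Subtype.ext (by
      subst h
      exact (congrArg (ap (K.d i (i + 1)) (hat Z U)) (shRho_val Z R U ha)).trans
        ((R.dd i _ rfl _ a ha.1).trans (shRho_val Z R U ((I.on Z).d_gr ha)).symm))⟩
  hom φ := ⟨φ.f, fun h => ⟨φ.gr h.1, φ.bmem_N h.1 h.2⟩, fun h => preimage_mono (φ.supp h.1),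
    fun h => (congrArg (fun S => Subtype.val ⁻¹' S) (φ.comm h.1)).trans preimage_empty⟩
  compat {K L I J f R R' φ} h k U a ha := Subtype.ext
    ((congrArg (ap (f.f k) (hat Z U)) (shRho_val Z R U ha)).trans ((h k _ a ha.1).trans
      (shRho_val Z R' U ⟨φ.gr ha.1, φ.bmem_N ha.1 ha.2⟩).symm))
  cart {I J φ} hI hJ h y k := by
    have H := fun U (hU : IsOpen U) (hZ : (Z : Set X)ᶜ ⊆ U) =>
      Br.qis_open φ hI hJ h hU Z.isClosed.isOpen_compl hZ k
    constructor
    · intro s' hs'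
      have h0 : J.d s' ∈ J.N {y.1} := (comap_pt (J.on Z) continuous_subtype_val).1 hs'.2.2
      have h0' := J.bd_mem_N hs'.1.1 hs'.1.2
      obtain ⟨U, hU, hy, h1, -, hZ⟩ := N_pt _ h0 h0
      obtain ⟨s, hs, t, ht, h2, h3⟩ := (H U hU (hZ _ h0' h0')).1 s' ⟨hs'.1.1, hs'.1.2, h1⟩
      exact ⟨s, ⟨⟨hs.1, hs.2.1⟩, disjoint_empty _, (comap_pt (I.on Z) continuous_subtype_val).2
          (I.bN_anti (singleton_subset_iff.2 hy) hs.2.2)⟩, t, ⟨ht, h2⟩, disjoint_empty _,
        (comap_pt (J.on Z) continuous_subtype_val).2 (J.bN_anti (singleton_subset_iff.2 hy) h3)⟩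
    · rintro s hs ⟨t, ht, -, h1⟩
      have h0 : I.d s ∈ I.N {y.1} := (comap_pt (I.on Z) continuous_subtype_val).1 hs.2.2
      have h0' := I.bd_mem_N hs.1.1 hs.1.2
      replace h1 : φ.f s - J.d t ∈ J.N {y.1} := (comap_pt (J.on Z) continuous_subtype_val).1 h1
      have h1' := sub_mem (φ.bmem_N hs.1.1 hs.1.2) (J.bd_mem_N ht.1 ht.2)
      obtain ⟨U, hU, hy, h2, -, hZ⟩ := N_pt _ h0 h0
      obtain ⟨V, hV, hy', h3, -, hZ'⟩ := N_pt _ h1 h1
      obtain ⟨t', ht', h4, h5⟩ := (H _ (hU.inter hV) (subset_inter (hZ _ h0' h0') (hZ' _ h1' h1'))).2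
        s ⟨hs.1.1, hs.1.2, I.bN_anti inter_subset_left h2⟩
        ⟨t, ht.1, ht.2, J.bN_anti inter_subset_right h3⟩
      exact ⟨t', ⟨ht', h4⟩, disjoint_empty _, (comap_pt (I.on Z) continuous_subtype_val).2
        (I.bN_anti (singleton_subset_iff.2 (mem_inter hy hy')) h5)⟩

theorem Models.push {A : DP X} {I : PC X} (h : Models A I) (p : X ⟶ Y) :
    Models ((Rpush p).obj A) (I.push p) := (pushMod p).models h

theorem Models.res {A : DP X} {I : PC X} (h : Models A I) (U : Opens X) :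
    Models ((Rres U).obj A) (I.comap (Subtype.val : U → X) continuous_subtype_val) :=
  (resMod U).models h

theorem Models.shriek {A : DP X} {I : PC X} (h : Models A I) (Z : Closeds X) :
    Models ((Rshriek Z).obj A) ((I.on Z).comap (Subtype.val : Z → X) continuous_subtype_val) :=
  (shMod Z).models h

end C73.Br
end
end

section
/-! Bridge, part 4: truncation, constant sheaf, direct sums, Deligne's recursion. -/

open CategoryTheory Limits TopologicalSpace Opposite Set Pretriangulated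

noncomputable section
namespace C73.Br

variable {X Y : TopCat.{0}}

/-- the object of `D⁺` given by a presented complex -/
def Rep.obj {K : Cx X} {I : PC X} (R : Rep K I) : DP X :=
  ⟨(QQ X).obj K, let ⟨n, _⟩ := R.bdd; ⟨n, inferInstance⟩⟩

theorem Rep.models {K : Cx X} {I : PC X} (R : Rep K I) : Models R.obj I :=
  ⟨K, ⟨R⟩, ⟨Iso.refl _⟩⟩

theorem trunc_iso {A B : DP X} (g : B ⟶ A) (c : ℤ) [B.IsLE c]
    (h : ∀ k ≤ c, IsIso ((DerivedCategory.homologyFunctor (Sh X) k).map g.hom)) :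
    Nonempty ((DerivedCategory.Plus.TStructure.t.truncLE c).obj A ≅ B) := by
  obtain ⟨Z, a, b, hT⟩ := distinguished_cocone_triangle g
  have hT' := DerivedCategory.Plus.ι.map_distinguished _ hT
  have hZ : Z.IsGE (c + 1) := by
    rw [← DerivedCategory.Plus.isGE_ι_obj_iff, DerivedCategory.isGE_iff]
    intro i hi
    have h1 := (DerivedCategory.HomologySequence.epi_homologyMap_mor₁_iff _ hT' i).1
      (by have := h i (by omega); exact inferInstanceAs (Epi
        ((DerivedCategory.homologyFunctor (Sh X) i).map g.hom)))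
    have h2 := (DerivedCategory.HomologySequence.mono_homologyMap_mor₁_iff _ hT' i (i + 1) rfl).1
      (by
        by_cases hc : i + 1 ≤ c
        · have := h _ hc
          exact inferInstanceAs (Mono ((DerivedCategory.homologyFunctor (Sh X) (i + 1)).map g.hom))
        · exact (DerivedCategory.Plus.isZero_homology_of_isLE B c (i + 1) (by omega)).mono _)
    exact (DerivedCategory.HomologySequence.exact₃ _ hT' i (i + 1) rfl).isZero_X₂ h1 h2
  have := DerivedCategory.Plus.TStructure.t.isIso₁_truncLE_map_of_isGE _ hT c _ rfl hZ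
  have h3 : IsIso ((DerivedCategory.Plus.TStructure.t.truncLE c).map g) := this
  exact ⟨(asIso ((DerivedCategory.Plus.TStructure.t.truncLE c).map g)).symm ≪≫
    asIso ((DerivedCategory.Plus.TStructure.t.truncLEι c).app B)⟩

theorem Models.trunc {A : DP X} {I : PC X} (h : Models A I) (c : ℤ) :
    Models ((DerivedCategory.Plus.TStructure.t.truncLE c).obj A) (trunc c I) := by
  obtain ⟨K, ⟨R⟩, ⟨e⟩⟩ := (Models.eqv (Relation.EqvGen.rel _ _
    ⟨h.fl, Br.god_fl I, _, Br.godU_cart I⟩) A).1 h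
  let R' := toRep (Br.trunc_fl c I)
  obtain ⟨f, hf⟩ := R'.lift R (truncι c I)
  have : R'.obj.IsLE c := by
    rw [← DerivedCategory.Plus.isLE_ι_obj_iff]
    exact (DerivedCategory.isLE_Q_obj_iff _ c).2 ((CochainComplex.isLE_iff _ c).2
      fun i hi => R'.exactAt (Br.trunc_van hi))
  let g : R'.obj ⟶ A := ObjectProperty.homMk ((QQ X).map f ≫ e.inv)
  refine R'.models.of_iso (trunc_iso g c fun k hk => ?_).some
  have h1 := (hf.qisAt_iff k).2 fun x => ⟨Br.trunc_sur hk x, Br.trunc_inj hk x⟩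
  rw [quasiIsoAt_iff_isIso_homologyMap] at h1
  have h2 : IsIso ((DerivedCategory.homologyFunctor (Sh X) k).map ((QQ X).map f)) :=
    (NatIso.isIso_map_iff (DerivedCategory.homologyFunctorFactors (Sh X) k) f).2 h1
  show IsIso ((DerivedCategory.homologyFunctor (Sh X) k).map ((QQ X).map f ≫ e.inv))
  rw [Functor.map_comp]
  infer_instance

/-- the constant presheaf -/
abbrev cP (X : TopCat.{0}) : TopCat.Presheaf (ModuleCat.{0} ℚ) X :=
  (Functor.const (Opens X)ᵒᵖ).obj (ModuleCat.of ℚ ℚ)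

/-- the constant sheaf -/
abbrev cS (X : TopCat.{0}) : Sh X :=
  (constantSheaf (Opens.grothendieckTopology X) (ModuleCat.{0} ℚ)).obj (ModuleCat.of ℚ ℚ)

/-- constant sections -/
def cσ (U : Opens X) : ℚ →ₗ[ℚ] Sec (cS X) U :=
  ((toSheafify (Opens.grothendieckTopology X) (cP X)).app (op U)).hom

theorem cσ_bij (x : X) : Function.Bijective (gm (cS X) ⊤ x trivial ∘ₗ cσ ⊤) := by
  have h0 := TopCat.Presheaf.stalkFunctor_map_unit_toSheafify_isIso x _ (cP X)
  have h1 := ConcreteCategory.bijective_of_isIso ((TopCat.Presheaf.stalkFunctor _ x).map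
    (toSheafify (Opens.grothendieckTopology X) (cP X)))
  have h2 : Function.Bijective (TopCat.Presheaf.germ (cP X) ⊤ x trivial) := by
    refine ⟨fun a b h => ?_, fun t => ?_⟩
    · obtain ⟨W, _, i, j, e⟩ := TopCat.Presheaf.germ_eq (cP X) (U := ⊤) (V := ⊤) x trivial trivial a b h
      exact e
    · obtain ⟨U, hx, s, rfl⟩ := TopCat.Presheaf.exists_germ_eq (cP X) t
      exact ⟨s, (TopCat.Presheaf.germ_res_apply (cP X) (homOfLE le_top) x hx s).symm⟩
  exact (congrArg Function.Bijective (funext fun a => TopCat.Presheaf.stalkFunctor_map_germ_apply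
    ⊤ x trivial (toSheafify (Opens.grothendieckTopology X) (cP X)) a)).mp (h1.comp h2)

theorem cst_N {n : ℤ} {x : X} {a : (cstPC X ℚ n).A} : a ∈ (cstPC X ℚ n).N {x} ↔ a = 0 := by
  refine ⟨fun h => by_contra fun h0 => ?_, fun h => h ▸ zero_mem _⟩
  have e : (cstPC X ℚ n).supp a = univ := if_neg h0
  exact disjoint_singleton_right.1 h (e ▸ mem_univ x)

theorem cst_gr {n k : ℤ} {a : (cstPC X ℚ n).A} (h : a ∈ (cstPC X ℚ n).gr k) (hk : k ≠ -n) :
    a = 0 := by
  have e : (cstPC X ℚ n).gr k = ⊥ := if_neg hk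
  rwa [e] at h

theorem cst_gr' {n : ℤ} (a : (cstPC X ℚ n).A) : a ∈ (cstPC X ℚ n).gr (-n) := by
  have e : (cstPC X ℚ n).gr (-n) = ⊤ := if_pos rfl
  rw [e]; trivial

/-- stalks of the constant complex -/
def cstS (n : ℤ) (x : X) :
    SRep ((HomologicalComplex.single _ (ComplexShape.up ℤ) (-n)).obj (cS X)) (cstPC X ℚ n) x where
  γ k := if h : k = -n then ((St x).map (HomologicalComplex.singleObjXIsoOfEq _ _ _ k h).inv).hom ∘ₗ
    gm (cS X) ⊤ x trivial ∘ₗ cσ ⊤ else 0
  sur k s := by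
    by_cases h : k = -n
    · subst h
      obtain ⟨a, ha⟩ := ((ConcreteCategory.bijective_of_isIso ((St x).map
        (HomologicalComplex.singleObjXIsoOfEq _ _ (cS X) (-n) rfl).inv)).comp (cσ_bij x)).2 s
      exact ⟨a, cst_gr' a, by rw [dif_pos rfl]; exact ha⟩
    · have := ModuleCat.isZero_iff_subsingleton.1
        ((St x).map_isZero (HomologicalComplex.isZero_single_obj_X (ComplexShape.up ℤ) _ (cS X) k h))
      exact ⟨0, zero_mem _, Subsingleton.elim _ _⟩
  ker k a ha := by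
    refine Iff.trans ?_ cst_N.symm
    by_cases h : k = -n
    · subst h
      rw [dif_pos rfl]
      exact map_eq_zero_iff _ ((ConcreteCategory.bijective_of_isIso ((St x).map
        (HomologicalComplex.singleObjXIsoOfEq _ _ (cS X) (-n) rfl).inv)).comp (cσ_bij x)).1
    · rw [dif_neg h]
      exact ⟨fun _ => cst_gr ha h, fun _ => rfl⟩
  dd i j _ a _ := by
    rw [HomologicalComplex.single_obj_d, Functor.map_zero]
    exact (map_zero _).symm

theorem models_cst (X : TopCat.{0}) (n : ℕ) : Models (cst X n) (resC X ℚ n) := by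
  let R := toRep (Br.god_fl (cstPC X ℚ n))
  let u := godU id continuous_id (cstPC X ℚ n)
  let η : cP X ⟶ ((toCx (Br.god_fl (cstPC X ℚ n))).X (-n)).obj :=
    { app := fun U => ModuleCat.ofHom (R.ρ (-n) U.unop ∘ₗ u.f)
      naturality := fun U V i => by
        ext
        exact (R.res _ _ _ i.unop.le _).symm }
  let φ : cS X ⟶ (toCx (Br.god_fl (cstPC X ℚ n))).X (-n) :=
    ⟨sheafifyLift _ η ((toCx (Br.god_fl (cstPC X ℚ n))).X (-n)).property⟩
  have hφ : ∀ U a, ap φ U (cσ U a) = R.ρ (-n) U (u.f a) := fun U a =>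
    LinearMap.congr_fun (congrArg ModuleCat.Hom.hom (NatTrans.congr_app
      (toSheafify_sheafifyLift _ η ((toCx (Br.god_fl (cstPC X ℚ n))).X (-n)).property) (op U))) a
  let f := HomologicalComplex.mkHomFromSingle (c := ComplexShape.up ℤ) φ fun k hk => by
    refine CategoryTheory.Sheaf.hom_ext (sheafify_hom_ext _ _ _
      ((toCx (Br.god_fl (cstPC X ℚ n))).X k).property ?_)
    ext U
    show ap (HomologicalComplex.d _ (-(n : ℤ)) k) U.unop (ap φ U.unop (cσ U.unop 1)) = 0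
    rw [hφ, R.dd _ k hk _ _ (u.gr (cst_gr' (1 : ℚ)))]
    have : (Br.G (cstPC X ℚ n)).d (u.f (1 : ℚ)) = 0 := (gD_uL _ _).trans (map_zero _)
    exact (congrArg _ this).trans (map_zero _)
  have : QuasiIso f := ⟨fun k => (qisAt_iff f (cstS n) R.st u.f u.gr (fun x k a ha => by
    by_cases h : k = -n
    · subst h
      show ((St x).map (f.f (-n))).hom ((cstS n x).γ (-n) a) = gm _ ⊤ x trivial (R.ρ (-n) ⊤ (u.f a))
      rw [← hφ, ← gm_ap]
      have e : (cstS (n : ℤ) x).γ (-n) a = ((St x).map (HomologicalComplex.singleObjXSelf _ _ _).inv).hom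
        (gm (cS X) ⊤ x trivial (cσ ⊤ a)) := LinearMap.congr_fun (dif_pos rfl) a
      rw [e, ← ModuleCat.comp_apply, ← Functor.map_comp, HomologicalComplex.mkHomFromSingle_f,
        Iso.inv_hom_id_assoc]
    · rw [cst_gr ha h, map_zero, map_zero, map_zero, map_zero]) k).2 fun x => Br.godU_cart _ x k⟩
  exact ⟨_, ⟨R⟩, ⟨(DerivedCategory.singleFunctorIsoCompQ (Sh X) (-n)).app _ ≪≫
    @asIso _ _ _ _ ((QQ X).map f) ((DerivedCategory.isIso_Q_map_iff_quasiIso _ f).2 this)⟩⟩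

theorem models_del (dm : X → ℕ) (n t : ℕ) : Models (del dm n t) (mdel dm n t) := by
  induction t with
  | zero => exact models_cst X n
  | succ t ih => exact ((ih.res (opn dm n t)).push (opn dm n t).inclusion').trunc _

theorem models_IC (X : TopCat.{0}) (dm : X → ℕ) : Models (IC X dm) (mIC dm) := models_del dm _ _

section
variable {Z κ : Type} [TopologicalSpace Z] [Finite κ] (I : κ → PC Z)

theorem pi_N {s : ∀ a, (I a).A} {C : Set Z} : s ∈ (piPC I).N C ↔ ∀ a, s a ∈ (I a).N C :=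
  disjoint_iUnion_left

theorem pi_fl (h : ∀ a, (I a).Fl) : (piPC I).Fl := by
  intro k ι U s hU hs hc
  choose t ht h1 using fun a => h a k ι U (fun i => s i a) hU (fun i => hs i a trivial)
    fun i j => (pi_N I).1 (hc i j) a
  exact ⟨t, fun a _ => ht a, fun i => (pi_N I).2 fun a => h1 a i⟩

/-- projection from a direct sum -/
def piPr (a : κ) : Hom id (piPC I) (I a) :=
  ⟨LinearMap.proj a, fun h => h a trivial, fun {_ s} _ => subset_iUnion (fun a => (I a).supp (s a)) a,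
    fun _ => (congrArg (I a).supp (sub_self _)).trans (I a).supp_zero⟩

/-- inclusion into a direct sum -/
def piIn [DecidableEq κ] (a : κ) : Hom id (I a) (piPC I) where
  f := LinearMap.single ℚ (fun a => (I a).A) a
  gr {k s} h b _ := by
    show Pi.single (M := fun a => (I a).A) a s b ∈ (I b).gr k
    by_cases e : b = a
    · subst e; rwa [Pi.single_eq_same]
    · rw [Pi.single_eq_of_ne e]; exact zero_mem _
  supp {k s} _ := iUnion_subset fun b => by
    show (I b).supp (Pi.single (M := fun a => (I a).A) a s b) ⊆ _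
    by_cases e : b = a
    · subst e; rw [Pi.single_eq_same]; rfl
    · rw [Pi.single_eq_of_ne e, (I b).supp_zero]; exact empty_subset _
  comm {k s} _ := iUnion_eq_empty.2 fun b => by
    show (I b).supp (Pi.single (M := fun a => (I a).A) a ((I a).d s) b -
      (I b).d (Pi.single (M := fun a => (I a).A) a s b)) = ∅
    by_cases e : b = a
    · subst e; rw [Pi.single_eq_same, Pi.single_eq_same, sub_self, (I b).supp_zero]
    · rw [Pi.single_eq_of_ne e, Pi.single_eq_of_ne e, map_zero, sub_self, (I b).supp_zero]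
end

theorem Rep.ext {K L : Cx X} {I : PC X} (R : Rep K I) {f g : K ⟶ L}
    (h : ∀ k U a, a ∈ I.gr k → ap (f.f k) U (R.ρ k U a) = ap (g.f k) U (R.ρ k U a)) : f = g :=
  HomologicalComplex.hom_ext _ _ fun k => ap_ext fun U s => by
    obtain ⟨a, ha, rfl⟩ := R.sur k U s
    exact h k U a ha

theorem Models.pi {κ : Type} [Fintype κ] {A : κ → DP X} {I : κ → PC X}
    (h : ∀ j, Models (A j) (I j)) : Models (⨁ A) (piPC I) := by
  classical
  choose K R e using h
  replace R := fun j => (R j).some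
  replace e := fun j => (e j).some
  let R' := toRep (pi_fl I fun j => (R j).fl)
  choose p hp using fun j => R'.lift (R j) (piPr I j)
  choose q hq using fun j => (R j).lift R' (piIn I j)
  have h1 : ∀ j, q j ≫ p j = 𝟙 _ := fun j => (R j).ext fun k U a ha => by
    show ap ((p j).f k) U (ap ((q j).f k) U _) = (R j).ρ k U a
    rw [hq j k U a ha, hp j k U _ ((piIn I j).gr ha)]
    exact congrArg _ (Pi.single_eq_same (M := fun a => (I a).A) j a)
  have h2 : ∀ j j', j ≠ j' → q j ≫ p j' = 0 := fun j j' hj => (R j).ext fun k U a ha => by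
    show ap ((p j').f k) U (ap ((q j).f k) U _) = 0
    rw [hq j k U a ha, hp j' k U _ ((piIn I j).gr ha)]
    exact (congrArg _ (Pi.single_eq_of_ne (M := fun a => (I a).A) hj.symm a)).trans (map_zero _)
  have h3 : ∑ j, p j ≫ q j = 𝟙 _ := R'.ext fun k U a ha => by
    let ev : (toCx (pi_fl I fun j => (R j).fl) ⟶ toCx (pi_fl I fun j => (R j).fl)) →+ _ :=
      { toFun := fun f => ap (f.f k) U (R'.ρ k U a), map_zero' := rfl, map_add' := fun _ _ => rfl }
    refine (map_sum ev _ _).trans ?_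
    have : ∀ j, ev (p j ≫ q j) = R'.ρ k U (Pi.single j (a j)) := fun j => by
      show ap ((q j).f k) U (ap ((p j).f k) U _) = _
      rw [hp j k U a ha, hq j k U _ ((piPr I j).gr ha)]
      rfl
    rw [Finset.sum_congr rfl fun j _ => this j, ← map_sum]
    exact congrArg _ (Finset.univ_sum_single a)
  let b : Bicone A :=
    { pt := R'.obj
      π := fun j => ObjectProperty.homMk ((QQ X).map (p j) ≫ (e j).inv)
      ι := fun j => ObjectProperty.homMk ((e j).hom ≫ (QQ X).map (q j))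
      ι_π := fun j j' => by
        ext
        show ((e j).hom ≫ (QQ X).map (q j)) ≫ (QQ X).map (p j') ≫ (e j').inv = _
        rw [Category.assoc, ← Functor.map_comp_assoc]
        split_ifs with hj
        · subst hj
          rw [h1, CategoryTheory.Functor.map_id, Category.id_comp, Iso.hom_inv_id]
          rfl
        · rw [h2 j j' hj, Functor.map_zero, zero_comp, comp_zero]
          rfl }
  refine R'.models.of_iso (biproduct.uniqueUpToIso A (b := b) (isBilimitOfTotal b ?_)).symm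
  refine DerivedCategory.Plus.ι.map_injective ?_
  rw [Functor.map_sum, CategoryTheory.Functor.map_id]
  refine Eq.trans (Finset.sum_congr rfl fun j _ => ?_)
    (((QQ X).map_sum (fun j => p j ≫ q j) _).symm.trans (by rw [h3, CategoryTheory.Functor.map_id]; rfl))
  show ((QQ X).map (p j) ≫ (e j).inv) ≫ (e j).hom ≫ (QQ X).map (q j) = _
  rw [Category.assoc, Iso.inv_hom_id_assoc, Functor.map_comp]

theorem bridge0 {X F : TopCat.{0}} (dm : X → ℕ) (Z : Closeds X) (p : TopCat.of Z ⟶ F) {κ : Type}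
    [Fintype κ] (T : κ → TopCat.{0}) (st : ∀ j, T j → ℕ) (i : ∀ j, T j ⟶ F)
    (h : Eqv ((((mIC dm).on Z).comap (Subtype.val : Z → X) continuous_subtype_val).push p)
      (piPC fun j => (mIC (st j)).push (i j))) :
    Nonempty ((Rpush p).obj ((Rshriek Z).obj (IC X dm)) ≅
      ⨁ fun j => (Rpush (i j)).obj (IC (T j) (st j))) :=
  (((models_IC X dm).shriek Z).push p).iso
    (Models.pi fun j => (models_IC (T j) (st j)).push (i j)) h

end C73.Br
end
end

section
/-! Block B (bridge). -/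

open Set Filter Topology TopologicalSpace

noncomputable section
namespace C73

open CategoryTheory Limits in
theorem bridge {X F : TopCat.{0}} (dm : X → ℕ) (Z : Closeds X) (p : TopCat.of Z ⟶ F) {n : ℕ}
    (T : Fin n → TopCat.{0}) (i : ∀ j, T j ⟶ F) (dT : ∀ j, T j → ℕ)
    (h : Eqv ((((mIC dm).on (Z : Set X)).comap (Subtype.val : Z → X) continuous_subtype_val).push
        (fun z => p z)) (piPC fun j => (mIC (dT j)).push (fun y => i j y))) :
    Nonempty ((Rpush p).obj ((Rshriek Z).obj (IC X dm)) ≅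
      ⨁ fun j => (Rpush (i j)).obj (IC (T j) (dT j))) := Br.bridge0 dm Z p T dT i h

end C73
end
end
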