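import Pool.Agent.MP_94fa45_ag.C73.Mod

attribute [-instance] AddGroupWithOne.toAddGroup NonUnitalNonAssocSemiring.toAddCommMonoid
  NonUnitalAlgSemiHomClass.toDistribMulActionSemiHomClass TotallySeparatedSpace.t2Space Distrib.toAdd
  NonUnitalNonAssocSemiring.toMulZeroClass MonoidWithZeroHomClass.toZeroHomClass littleWedderburn
  CommRing.toCommSemiring NormedRing.toRing Action.FintypeCat.instMulActionObjFiniteOf
  Function.locallyCompactSpace RKHS.instFunLike MulZeroOneClass.toMulZeroClass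
  AddCommMonoidWithOne.toAddCommMonoid AddCommMonoidWithOne.toAddMonoidWithOne
  MulSemiringActionSemiHomClass.toDistribMulActionSemiHomClass Valued.toUniformSpace
  IdemSemiring.toSemiring SeminormedRing.toRing Algebra.toSMul
  Group.IsPerfect.subsingleton_of_isMulCommutative NormedField.toField
  NonUnitalSubringClass.toNegMemClass Rat.instDistribSMul
  LinearOrderedAddCommMonoidWithTop.toAddCommMonoid instSMulZeroClass
  CentroidHomClass.toAddMonoidHomClass IdemSemiring.toSemilatticeSup Finite.instDiscreteTopology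
  MulSemiringAction.toDistribMulAction BooleanRing.toRing
  LinearOrderedAddCommGroupWithTop.toAddCommMonoid Pi.discreteTopology
  CStarAlgebra.instOrderClosedTopology AddCommGroupWithOne.toAddGroupWithOne
  LinearOrderedAddCommGroupWithTop.toSubNegMonoid EMetricSpace.toPseudoEMetricSpace
  IdemCommSemiring.toCommSemiring NonUnitalNonAssocRing.toAddCommGroup
  SemigroupWithZero.toMulZeroClass NormedCommRing.toCommRing
  LinearOrderedCommMonoidWithZero.toIsBotZeroClass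
  ContinuousMonoidHom.instCoeOutOfMonoidHomClassOfContinuousMapClass instCoeTOfCoeDep
  Semifield.toCommSemiring NumberField.to_charZero Topology.IsScott.instClosedIicTopologyOfUnivSet
  SeminormedCommRing.toCommRing instCoeTCOfCoe EuclideanDomain.toCommRing

/-! Support model: basic tools, slicing, duality on Euclidean space. -/

section
/-! E01: pairs, cocycles, triples (pure linear algebra). -/

open Set Filter Topology TopologicalSpace

noncomputable section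
namespace C73

variable {X Y : Type} [TopologicalSpace X] [TopologicalSpace Y]

namespace PC
variable (I : PC X) {C C' C'' D D' : Set X} {k : ℤ} {s t : I.A}
theorem N_anti (h : C' ⊆ C) : I.N C ≤ I.N C' := fun _ hs => Disjoint.mono_right h hs
theorem N_empty (s : I.A) : s ∈ I.N ∅ := disjoint_empty _
theorem N_of_empty (h : I.supp s = ∅) (C : Set X) : s ∈ I.N C := by simp [mem_N, h]
theorem N_univ : s ∈ I.N univ ↔ I.supp s = ∅ := disjoint_univ
theorem N_union : s ∈ I.N (C ∪ C') ↔ s ∈ I.N C ∧ s ∈ I.N C' := disjoint_union_right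
theorem N_iff_forall : s ∈ I.N C ↔ ∀ x ∈ C, s ∈ I.N {x} := 
  ⟨fun h _ hx => Disjoint.mono_right (singleton_subset_iff.2 hx) h,
    fun h => disjoint_right.2 fun x hx => disjoint_singleton_right.1 (h x hx)⟩
theorem N_singleton {x : X} : s ∈ I.N {x} ↔ x ∉ I.supp s := disjoint_singleton_right
/-- take the complement of the support -/
theorem N_nhds (h : s ∈ I.N C) : ∃ U, IsOpen U ∧ C ⊆ U ∧ s ∈ I.N U := 
  ⟨(I.supp s)ᶜ, (I.closed s).isOpen_compl, Disjoint.subset_compl_left h, disjoint_compl_right⟩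
theorem d_N (hs : s ∈ I.gr k) (h : s ∈ I.N C) : I.d s ∈ I.N C := Disjoint.mono_left (I.supp_d hs) h
theorem dd_N (hs : s ∈ I.gr k) (C : Set X) : I.d (I.d s) ∈ I.N C := I.N_of_empty (I.supp_dd hs) C
variable {I}
theorem Zc.add (hs : I.Zc k C C' s) (ht : I.Zc k C C' t) : I.Zc k C C' (s + t) := 
  ⟨add_mem hs.1 ht.1, add_mem hs.2.1 ht.2.1, by simpa using add_mem hs.2.2 ht.2.2⟩
theorem Zc.sub (hs : I.Zc k C C' s) (ht : I.Zc k C C' t) : I.Zc k C C' (s - t) := 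
  ⟨sub_mem hs.1 ht.1, sub_mem hs.2.1 ht.2.1, by simpa using sub_mem hs.2.2 ht.2.2⟩
theorem Zc.smul (c : ℚ) (hs : I.Zc k C C' s) : I.Zc k C C' (c • s) := 
  ⟨Submodule.smul_mem _ c hs.1, Submodule.smul_mem _ c hs.2.1, by
    simpa only [map_smul] using Submodule.smul_mem _ c hs.2.2⟩
theorem Zc.zero : I.Zc k C C' 0 := ⟨zero_mem _, zero_mem _, by simp⟩
theorem Zc.sum {κ : Type} (S : Finset κ) {z : κ → I.A} (h : ∀ a ∈ S, I.Zc k C C' (z a)) :
    I.Zc k C C' (∑ a ∈ S, z a) := 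
  Finset.sum_induction z (I.Zc k C C') (fun _ _ => Zc.add) Zc.zero h
theorem Zc.mono (hs : I.Zc k C C' s) (h : D ⊆ C) (h' : D' ⊆ C') : I.Zc k D D' s := 
  ⟨hs.1, I.N_anti h' hs.2.1, I.N_anti h hs.2.2⟩
theorem Zc.d (ht : t ∈ I.gr (k - 1)) (h : t ∈ I.N C') : I.Zc k C C' (I.d t) := 
  ⟨by simpa using I.d_gr ht, I.d_N ht h, I.dd_N ht _⟩
theorem Bd.add (hs : I.Bd k C C' s) (ht : I.Bd k C C' t) : I.Bd k C C' (s + t) := by
  obtain ⟨a, a1, a2, a3⟩ := hs
  obtain ⟨b, b1, b2, b3⟩ := ht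
  exact ⟨a + b, add_mem a1 b1, add_mem a2 b2, by
    rw [map_add, ← sub_add_sub_comm]; exact add_mem a3 b3⟩
theorem Bd.sub (hs : I.Bd k C C' s) (ht : I.Bd k C C' t) : I.Bd k C C' (s - t) := by
  obtain ⟨a, a1, a2, a3⟩ := hs
  obtain ⟨b, b1, b2, b3⟩ := ht
  exact ⟨a - b, sub_mem a1 b1, sub_mem a2 b2, by
    rw [map_sub, sub_sub_sub_comm]; exact sub_mem a3 b3⟩
theorem Bd.neg (hs : I.Bd k C C' s) : I.Bd k C C' (-s) := by
  obtain ⟨a, a1, a2, a3⟩ := hs
  exact ⟨-a, neg_mem a1, neg_mem a2, by rw [map_neg, ← neg_sub']; exact neg_mem a3⟩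
theorem Bd.smul (c : ℚ) (hs : I.Bd k C C' s) : I.Bd k C C' (c • s) := by
  obtain ⟨a, a1, a2, a3⟩ := hs
  exact ⟨c • a, Submodule.smul_mem _ c a1, Submodule.smul_mem _ c a2, by
    rw [map_smul, ← smul_sub]; exact Submodule.smul_mem _ c a3⟩
theorem Bd.sum {κ : Type} (S : Finset κ) {z : κ → I.A} (h : ∀ a ∈ S, I.Bd k C C' (z a)) :
    I.Bd k C C' (∑ a ∈ S, z a) := 
  Finset.sum_induction z (I.Bd k C C') (fun _ _ => Bd.add) ⟨0, zero_mem _, zero_mem _, by simp⟩ h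
theorem Bd.of_N (h : s ∈ I.N C) : I.Bd k C C' s := ⟨0, zero_mem _, zero_mem _, by simpa using h⟩
theorem Bd.d (ht : t ∈ I.gr (k - 1)) (h : t ∈ I.N C') : I.Bd k C C' (I.d t) := ⟨t, ht, h, by simp⟩
theorem Bd.mono (hs : I.Bd k C C' s) (h : D ⊆ C) (h' : D' ⊆ C') : I.Bd k D D' s := 
  let ⟨t, a, b, c⟩ := hs; ⟨t, a, I.N_anti h' b, I.N_anti h c⟩
/-- a cocycle at `C` is a cocycle on a neighbourhood -/
theorem Zc.nhds (hs : I.Zc k C ∅ s) : ∃ U, IsOpen U ∧ C ⊆ U ∧ I.Zc k U ∅ s := 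
  let ⟨U, a, b, c⟩ := I.N_nhds hs.2.2; ⟨U, a, b, hs.1, hs.2.1, c⟩
theorem Bd.nhds (hs : I.Bd k C ∅ s) : ∃ U, IsOpen U ∧ C ⊆ U ∧ I.Bd k U ∅ s := 
  let ⟨t, t1, t2, t3⟩ := hs; let ⟨U, a, b, c⟩ := I.N_nhds t3; ⟨U, a, b, t, t1, t2, c⟩
theorem van_self (I : PC X) (h : C ⊆ C') : I.Van k C C' := fun _ hs => Bd.of_N (I.N_anti h hs.2.1)
theorem van_bdd (I : PC X) : ∃ k0 : ℤ, ∀ k < k0, ∀ C C', I.Van k C C' := 
  let ⟨k0, h⟩ := I.bdd; ⟨k0, fun k hk _ _ s hs => Bd.of_N (I.N_of_empty (h k hk s hs.1) _)⟩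
theorem tri1 (h1 : C'' ⊆ C') (h2 : C' ⊆ C) : I.Van k C C' → I.Van k C' C'' → I.Van k C C'' := 
  fun a b s hs => by
  obtain ⟨t, t1, t2, t3⟩ := b s (hs.mono h2 subset_rfl)
  have := a (s - I.d t) ⟨(hs.sub (Zc.d t1 t2)).1, t3, (hs.sub (Zc.d t1 t2)).2.2⟩
  simpa using (this.mono subset_rfl h1).add (Bd.d t1 t2)
theorem tri2 (h1 : C'' ⊆ C') (h2 : C' ⊆ C) :
    I.Van k C C'' → I.Van (k - 1) C' C'' → I.Van k C C' := fun b a s hs => by
  obtain ⟨t, t1, t2, t3⟩ := b s (hs.mono subset_rfl h1)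
  obtain ⟨u, u1, u2, u3⟩ := a t ⟨t1, t2, by simpa using sub_mem hs.2.1 (I.N_anti h2 t3)⟩
  refine ⟨t - I.d u, sub_mem t1 (by simpa using I.d_gr u1), u3, ?_⟩
  rw [map_sub, ← sub_add]; exact add_mem t3 (I.dd_N u1 _)
theorem tri3 (h1 : C'' ⊆ C') (h2 : C' ⊆ C) :
    I.Van k C C'' → I.Van (k + 1) C C' → I.Van k C' C'' := fun a b s hs => by
  obtain ⟨t, t1, t2, t3⟩ := b (I.d s) ⟨I.d_gr hs.1, hs.2.2, I.dd_N hs.1 _⟩
  rw [add_sub_cancel_right] at t1
  have := a (s - t) ⟨sub_mem hs.1 t1, sub_mem hs.2.1 (I.N_anti h1 t2), by simpa using t3⟩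
  simpa using (this.mono h2 subset_rfl).add (Bd.of_N t2)
theorem Van.finD (h : I.Van k C C') : I.FinD k C C' := ⟨0, Fin.elim0, fun j => j.elim0, fun s hs =>
  ⟨Fin.elim0, by simpa using h s hs⟩⟩
theorem zc_on_iff {Z : Set X} {s : I.A} :
    (I.on Z).Zc k C C' s ↔ I.Zc k (C ∪ Zᶜ) (C' ∪ Zᶜ) s := 
  ⟨fun h => ⟨h.1.1, I.N_union.2 ⟨h.2.1, h.1.2⟩, I.N_union.2 ⟨h.2.2, I.d_N h.1.1 h.1.2⟩⟩,
    fun h => ⟨⟨h.1, (I.N_union.1 h.2.1).2⟩, (I.N_union.1 h.2.1).1, (I.N_union.1 h.2.2).1⟩⟩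
theorem bd_on_iff {Z : Set X} {s : I.A} (hs : s ∈ I.N Zᶜ) :
    (I.on Z).Bd k C C' s ↔ I.Bd k (C ∪ Zᶜ) (C' ∪ Zᶜ) s := 
  ⟨fun ⟨t, t1, t2, t3⟩ => ⟨t, t1.1, I.N_union.2 ⟨t2, t1.2⟩,
      I.N_union.2 ⟨t3, sub_mem hs (I.d_N t1.1 t1.2)⟩⟩,
    fun ⟨t, t1, t2, t3⟩ => ⟨t, ⟨t1, (I.N_union.1 t2).2⟩, (I.N_union.1 t2).1, (I.N_union.1 t3).1⟩⟩
theorem van_on_iff {Z : Set X} : (I.on Z).Van k C C' ↔ I.Van k (C ∪ Zᶜ) (C' ∪ Zᶜ) := 
  ⟨fun h s hs => (bd_on_iff (I.N_union.1 hs.2.1).2).1 (h s (zc_on_iff.2 hs)),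
    fun h s hs => (bd_on_iff hs.1.2).2 (h s (zc_on_iff.1 hs))⟩
theorem N_comap {e : Y → X} {he : Continuous e} {B : Set Y} {s : I.A} :
    s ∈ (I.comap e he).N B ↔ s ∈ I.N (e '' B) := 
  ⟨fun h => disjoint_right.2 (forall_mem_image.2 fun _ hy => disjoint_right.1 h hy),
    fun h => disjoint_right.2 fun y hy => disjoint_right.1 h ⟨y, hy, rfl⟩⟩
theorem zc_comap_iff {e : Y → X} {he : Continuous e} {B B' : Set Y} {s : I.A} :
    (I.comap e he).Zc k B B' s ↔ I.Zc k (e '' B) (e '' B') s := 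
  and_congr Iff.rfl (and_congr N_comap N_comap)
theorem bd_comap_iff {e : Y → X} {he : Continuous e} {B B' : Set Y} {s : I.A} :
    (I.comap e he).Bd k B B' s ↔ I.Bd k (e '' B) (e '' B') s := 
  exists_congr fun _ => and_congr Iff.rfl (and_congr N_comap N_comap)
theorem van_comap_iff {e : Y → X} {he : Continuous e} {B B' : Set Y} :
    (I.comap e he).Van k B B' ↔ I.Van k (e '' B) (e '' B') := 
  forall_congr' fun _ => imp_congr zc_comap_iff bd_comap_iff
theorem N_push_open {p : X → Y} {U : Set Y} (hU : IsOpen U) {s : I.A} :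
    s ∈ (I.push p).N U ↔ s ∈ I.N (p ⁻¹' U) := by
  show Disjoint (closure (p '' I.supp s)) U ↔ Disjoint (I.supp s) _
  refine ⟨fun h => disjoint_left.2 fun x a b => disjoint_left.1 h (subset_closure ⟨x, a, rfl⟩) b,
    fun h => Disjoint.closure_left (disjoint_left.2 ?_) hU⟩
  rintro _ ⟨x, a, rfl⟩ b
  exact disjoint_left.1 h a b
theorem N_push_closed {p : X → Y} (hp : IsClosedMap p) {B : Set Y} {s : I.A} :
    s ∈ (I.push p).N B ↔ s ∈ I.N (p ⁻¹' B) := by
  show Disjoint (closure (p '' I.supp s)) B ↔ Disjoint (I.supp s) _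
  rw [(hp _ (I.closed s)).closure_eq]
  exact ⟨fun h => disjoint_left.2 fun x a b => disjoint_left.1 h ⟨x, a, rfl⟩ b,
    fun h => disjoint_left.2 (forall_mem_image.2 fun _ a => disjoint_left.1 h a)⟩
theorem van_push_open {p : X → Y} {U U' : Set Y} (hU : IsOpen U) (hU' : IsOpen U') :
    (I.push p).Van k U U' ↔ I.Van k (p ⁻¹' U) (p ⁻¹' U') := 
  forall_congr' fun _ => imp_congr
    (and_congr Iff.rfl (and_congr (N_push_open hU') (N_push_open hU)))
    (exists_congr fun _ => and_congr Iff.rfl (and_congr (N_push_open hU') (N_push_open hU)))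
theorem van_push_closed {p : X → Y} (hp : IsClosedMap p) {B B' : Set Y} :
    (I.push p).Van k B B' ↔ I.Van k (p ⁻¹' B) (p ⁻¹' B') := 
  forall_congr' fun _ => imp_congr
    (and_congr Iff.rfl (and_congr (N_push_closed hp) (N_push_closed hp)))
    (exists_congr fun _ => and_congr Iff.rfl (and_congr (N_push_closed hp) (N_push_closed hp)))
theorem supp_loc {U : Set X} (s : I.A) : (I.loc U).supp s = closure (I.supp s ∩ U) := by
  show closure (Subtype.val '' (Subtype.val ⁻¹' I.supp s)) = _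
  rw [Subtype.image_preimage_coe, inter_comm]
theorem N_loc_open {U V : Set X} (hV : IsOpen V) {s : I.A} :
    s ∈ (I.loc U).N V ↔ s ∈ I.N (V ∩ U) := by
  rw [inter_comm, ← Subtype.image_preimage_coe]
  exact (N_push_open (I := I.comap (Subtype.val : U → X) continuous_subtype_val) hV).trans N_comap
end PC

end C73
end
end

section
/-! Basic tools of the support model: gluing, triples, excision, ACY, QIS. -/

open Set Filter Topology TopologicalSpace

noncomputable section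
namespace C73
variable {X Y : Type} [TopologicalSpace X] [TopologicalSpace Y]

namespace PC
variable {I : PC X} {k : ℤ} {C C' C'' D D' U V : Set X} {s t : I.A}

theorem mem_N' : s ∈ I.N C ↔ ∀ x ∈ C, x ∉ I.supp s :=
  ⟨fun h _ hx hs => disjoint_left.1 h hs hx, fun h => disjoint_left.2 fun x hs hx => h x hx hs⟩

theorem mem_N_pt {x : X} : s ∈ I.N {x} ↔ x ∉ I.supp s := by simp [mem_N']

theorem N_anti_8 (h : C' ⊆ C) (hs : s ∈ I.N C) : s ∈ I.N C' := Disjoint.mono_right h hs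

theorem N_empty_8 (s : I.A) : s ∈ I.N ∅ := disjoint_empty _

theorem N_of_empty_8 (h : I.supp s = ∅) : s ∈ I.N C := by simp [mem_N, h]

theorem N_union_8 : s ∈ I.N (C ∪ C') ↔ s ∈ I.N C ∧ s ∈ I.N C' := disjoint_union_right

theorem N_iUnion {κ : Sort*} {C : κ → Set X} : s ∈ I.N (⋃ i, C i) ↔ ∀ i, s ∈ I.N (C i) :=
  disjoint_iUnion_right

theorem N_compl_supp (s : I.A) : s ∈ I.N (I.supp s)ᶜ := disjoint_compl_right

theorem N_d (hs : s ∈ I.gr k) (h : s ∈ I.N C) : I.d s ∈ I.N C :=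
  Disjoint.mono_left (I.supp_d hs) h

theorem N_dd (hs : s ∈ I.gr k) : I.d (I.d s) ∈ I.N C := N_of_empty_8 (I.supp_dd hs)

theorem d_gr' (hs : s ∈ I.gr (k - 1)) : I.d s ∈ I.gr k := by simpa using I.d_gr hs

theorem N_symm (h : s - t ∈ I.N C) : t - s ∈ I.N C := by simpa using neg_mem h

theorem N_trans {u : I.A} (h : s - t ∈ I.N C) (h' : t - u ∈ I.N C) : s - u ∈ I.N C := by
  simpa using add_mem h h'

theorem N_of_sub (h : s - t ∈ I.N C) (h' : t ∈ I.N C) : s ∈ I.N C := by simpa using add_mem h h'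

theorem N_dsub (hs : s ∈ I.gr k) (ht : t ∈ I.gr k) (h : s - t ∈ I.N C) :
    I.d s - I.d t ∈ I.N C := by simpa using N_d (sub_mem hs ht) h

/-! ### cocycles and coboundaries -/

theorem Zc.neg (h : I.Zc k C C' s) : I.Zc k C C' (-s) := by simpa using h.smul (-1)

theorem Bd.zero : I.Bd k C C' 0 := Bd.of_N (zero_mem _)

theorem Bd.of_sub (h : I.Bd k C C' (s - t)) (h' : I.Bd k C C' t) : I.Bd k C C' s := by
  simpa using h.add h'

theorem Bd.congr (h : I.Bd k C C' t) (h' : s - t ∈ I.N C) : I.Bd k C C' s :=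
  (Bd.of_N h').of_sub h

theorem van_self_8 : I.Van k C C := fun _ h => Bd.of_N h.2.1

theorem van_low (I : PC X) : ∃ k0 : ℤ, ∀ k < k0, ∀ C C', I.Van k C C' :=
  let ⟨k0, h⟩ := I.bdd; ⟨k0, fun k hk _ _ s hs => Bd.of_N (N_of_empty_8 (h k hk s hs.1))⟩

/-! ### triples -/

theorem tri1_8 (h2 : C'' ⊆ C') (a : I.Van k C C') (b : I.Van k C' C'') (h1 : C' ⊆ C) :
    I.Van k C C'' := fun s hs => by
  obtain ⟨t, t1, t2, t3⟩ := b s (hs.mono h1 subset_rfl)
  have := a (s - I.d t) ⟨sub_mem hs.1 (d_gr' t1), t3, (hs.sub (Zc.d t1 t2)).2.2⟩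
  exact (this.mono subset_rfl h2).of_sub (Bd.d t1 t2)

theorem tri2_8 (h2 : C'' ⊆ C') (a : I.Van (k - 1) C' C'') (b : I.Van k C C'') (h1 : C' ⊆ C) :
    I.Van k C C' := fun s hs => by
  obtain ⟨t, t1, t2, t3⟩ := b s (hs.mono subset_rfl h2)
  obtain ⟨u, u1, u2, u3⟩ := a t ⟨t1, t2, by simpa using sub_mem hs.2.1 (N_anti_8 h1 t3)⟩
  refine ⟨t - I.d u, sub_mem t1 (d_gr' u1), u3, ?_⟩
  rw [map_sub, ← sub_add]; exact add_mem t3 (N_dd u1)

theorem tri3_8 (h1 : C' ⊆ C) (a : I.Van k C C'') (b : I.Van (k + 1) C C') (h2 : C'' ⊆ C') :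
    I.Van k C' C'' := fun s hs => by
  obtain ⟨t, t1, t2, t3⟩ := b (I.d s) ⟨I.d_gr hs.1, hs.2.2, N_dd hs.1⟩
  rw [add_sub_cancel_right] at t1
  have := a (s - t) ⟨sub_mem hs.1 t1, sub_mem hs.2.1 (N_anti_8 h2 t2), by simpa using t3⟩
  exact (this.mono h1 subset_rfl).of_sub (Bd.of_N t2)

/-! ### gluing -/

theorem Fl.glue2 (hI : I.Fl) (hU : IsOpen U) (hV : IsOpen V) (hs : s ∈ I.gr k) (ht : t ∈ I.gr k)
    (h : s - t ∈ I.N (U ∩ V)) : ∃ r ∈ I.gr k, r - s ∈ I.N U ∧ r - t ∈ I.N V := by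
  obtain ⟨r, r1, r2⟩ := hI k Bool (fun b => bif b then U else V) (fun b => bif b then s else t)
    (by rintro (_ | _) <;> simpa only [cond_false, cond_true]) (by rintro (_ | _) <;> simpa)
    (by rintro (_ | _) (_ | _) <;> simp [h, N_symm (inter_comm U V ▸ h)])
  exact ⟨r, r1, r2 true, r2 false⟩

/-- two-set gluing property -/
def Gl (I : PC X) (C C' : Set X) : Prop :=
  ∀ k s t, s ∈ I.gr k → t ∈ I.gr k → s - t ∈ I.N (C ∩ C') →
    ∃ r ∈ I.gr k, r - s ∈ I.N C ∧ r - t ∈ I.N C'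

theorem Gl.symm (h : I.Gl C C') : I.Gl C' C := fun k s t hs ht h' =>
  let ⟨r, a, b, c⟩ := h k t s ht hs (inter_comm C' C ▸ N_symm h'); ⟨r, a, c, b⟩

theorem Fl.gl_open (hI : I.Fl) (hU : IsOpen U) (hV : IsOpen V) : I.Gl U V :=
  fun _ _ _ => hI.glue2 hU hV

theorem Fl.gl_sep (hI : I.Fl) (hsep : SeparatedNhds (C \ C') (C' \ C)) : I.Gl C C' := by
  intro k s t hs ht h
  obtain ⟨O, O', o1, o2, o3, o4, o5⟩ := hsep
  have hc := (I.closed (s - t)).isOpen_compl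
  obtain ⟨r, r1, r2, r3⟩ := hI.glue2 (o1.union hc) (o2.union hc) hs ht (mem_N'.2 fun x hx hx' =>
    disjoint_left.1 o5 (hx.1.resolve_right fun h => h hx') (hx.2.resolve_right fun h => h hx'))
  refine ⟨r, r1, N_anti_8 (fun x hx => ?_) r2, N_anti_8 (fun x hx => ?_) r3⟩
  · exact (em (x ∈ C')).elim (fun h' => Or.inr (mem_N'.1 h x ⟨hx, h'⟩)) fun h' => Or.inl (o3 ⟨hx, h'⟩)
  · exact (em (x ∈ C)).elim (fun h' => Or.inr (mem_N'.1 h x ⟨h', hx⟩)) fun h' => Or.inl (o4 ⟨hx, h'⟩)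

/-- gluing over sets that are relatively closed (or relatively open) in their union -/
theorem Fl.gl_rel [CompletelyNormalSpace X] (hI : I.Fl) (h : Disjoint (closure (C \ C')) (C' \ C))
    (h' : Disjoint (C \ C') (closure (C' \ C))) : I.Gl C C' :=
  hI.gl_sep (separatedNhds_iff_disjoint.2 (completely_normal h h'))

theorem Fl.gl_closed [CompletelyNormalSpace X] (hI : I.Fl) (h : IsClosed C) (h' : IsClosed C') :
    I.Gl C C' :=
  hI.gl_rel (disjoint_left.2 fun _ a b => b.2 (closure_minimal sdiff_subset h a))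
    (disjoint_left.2 fun _ a b => a.2 (closure_minimal sdiff_subset h' b))

/-- an element vanishing near `C ∩ C'` agrees near `C` with an element vanishing near `C'` -/
theorem Gl.cut (h : I.Gl C C') (hs : s ∈ I.gr k) (h' : s ∈ I.N (C ∩ C')) :
    ∃ r ∈ I.gr k, r - s ∈ I.N C ∧ r ∈ I.N C' := by
  simpa only [sub_zero] using h k s 0 hs (zero_mem _) (by simpa using h')

theorem Gl.bd (h : I.Gl C C') (hs' : s ∈ I.N C') (hb : I.Bd k C (C ∩ C') s) :
    I.Bd k (C ∪ C') C' s := by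
  obtain ⟨t, t1, t2, t3⟩ := hb
  obtain ⟨r, r1, r2, r3⟩ := h.cut t1 t2
  exact ⟨r, r1, r3, N_union_8.2 ⟨N_trans t3 (N_dsub t1 r1 (N_symm r2)), sub_mem hs' (N_d r1 r3)⟩⟩

theorem Gl.zc (h : I.Gl C C') (hs : I.Zc k C (C ∩ C') s) :
    ∃ r, I.Zc k (C ∪ C') C' r ∧ r - s ∈ I.N C := by
  obtain ⟨r, r1, r2, r3⟩ := h.cut hs.1 hs.2.1
  exact ⟨r, ⟨r1, r3, N_union_8.2 ⟨N_of_sub (N_dsub r1 hs.1 r2) hs.2.2, N_d r1 r3⟩⟩, r2⟩

/-- excision -/
theorem Gl.exc (h : I.Gl C C') : I.Van k (C ∪ C') C' ↔ I.Van k C (C ∩ C') := by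
  refine ⟨fun a s hs => ?_, fun a s hs =>
    h.bd hs.2.1 (a s (hs.mono subset_union_left inter_subset_right))⟩
  obtain ⟨r, r1, r2⟩ := h.zc hs
  exact ((a r r1).mono subset_union_left inter_subset_right).congr (N_symm r2)

theorem Gl.exc_bij (h : I.Gl C C') : Bij I I LinearMap.id (C ∪ C') C' C (C ∩ C') := fun _ =>
  ⟨fun _ hs => let ⟨r, r1, r2⟩ := h.zc hs; ⟨r, r1, Bd.of_N (N_symm r2)⟩,
    fun _ hs hb => h.bd hs.2.1 hb⟩

/-- sections along an arbitrary subset of a metrizable space extend -/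
theorem Fl.glue_pts [PseudoMetrizableSpace X] (hI : I.Fl) (σ : C → I.A) (hσ : ∀ x, σ x ∈ I.gr k)
    (O : C → Set X) (hO : ∀ x, IsOpen (O x)) (hx : ∀ x, x.1 ∈ O x)
    (h : ∀ x y : C, y.1 ∈ O x → y.1 ∉ I.supp (σ x - σ y)) :
    ∃ t ∈ I.gr k, ∀ x : C, x.1 ∉ I.supp (t - σ x) := by
  set W := ⋃ x, O x
  have hW : IsOpen W := isOpen_iUnion hO
  let _ : PseudoMetricSpace W := pseudoMetrizableSpacePseudoMetric W
  obtain ⟨v, v1, v2, v3, v4⟩ := precise_refinement (fun x => (Subtype.val ⁻¹' O x : Set W))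
    (fun x => (hO x).preimage continuous_subtype_val)
    (eq_univ_of_forall fun w => by simpa only [W, iUnion_coe_set, mem_iUnion, mem_preimage] using w.2)
  obtain ⟨F, F1, F2, F3⟩ := exists_iUnion_eq_closed_subset v1 (fun w => v3.point_finite w) v2
  have F4 : LocallyFinite F := v3.subset F3
  have cov : ∀ w, ∃ i, w ∈ F i := fun w => mem_iUnion.1 (F1 ▸ mem_univ w)
  have mem : ∀ x : C, x.1 ∈ W := fun x => mem_iUnion.2 ⟨x, hx x⟩
  choose ix hix using cov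
  have key : ∀ x : C, ∃ G : Set X, IsOpen G ∧ x.1 ∈ G ∧ G ⊆ W ∧ ∀ w : W, w.1 ∈ G → ∀ i, w ∈ F i →
      w.1 ∉ I.supp (σ (ix ⟨x, mem x⟩) - σ i) := fun x => by
    have e : ∀ᶠ w : W in 𝓝 ⟨x, mem x⟩, ∀ i, w ∈ F i → w.1 ∉ I.supp (σ (ix ⟨x, mem x⟩) - σ i) := by
      obtain ⟨T, T1, T2⟩ := F4 ⟨x, mem x⟩
      have : ∀ᶠ w : W in 𝓝 ⟨x, mem x⟩, ∀ i ∈ {i | (F i ∩ T).Nonempty}, w ∈ F i →
          w.1 ∉ I.supp (σ (ix ⟨x, mem x⟩) - σ i) := (eventually_all_finite T2).2 fun i _ => by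
        by_cases hi : (⟨x, mem x⟩ : W) ∈ F i
        · have : x.1 ∉ I.supp (σ (ix ⟨x, mem x⟩) - σ i) := mem_N_pt.1 (N_trans
            (mem_N_pt.2 (h _ x (v4 _ (F3 _ (hix _))))) (N_symm (mem_N_pt.2 (h _ x (v4 _ (F3 _ hi))))))
          filter_upwards [((I.closed _).preimage continuous_subtype_val).isOpen_compl.mem_nhds
            (x := (⟨x, mem x⟩ : W)) this] with w hw _ using hw
        · filter_upwards [(F2 i).isOpen_compl.mem_nhds hi] with w hw h' using (hw h').elim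
      filter_upwards [this, T1] with w a b i hi using a i ⟨w, hi, b⟩ hi
    obtain ⟨G, G1, G2, G3⟩ := eventually_nhds_iff.1 e
    refine ⟨Subtype.val '' G, hW.isOpenMap_subtype_val _ G2, ⟨_, G3, rfl⟩,
      by rintro _ ⟨w, -, rfl⟩; exact w.2, fun w hw => G1 w ?_⟩
    exact (Subtype.val_injective.mem_set_image).1 hw
  choose G G1 G2 G3 G4 using key
  obtain ⟨t, t1, t2⟩ := hI k C G (fun x => σ (ix ⟨x, mem x⟩)) G1 (fun x => hσ _) fun x y =>
    mem_N'.2 fun z hz => mem_N_pt.1 (N_trans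
      (mem_N_pt.2 (G4 x ⟨z, G3 x hz.1⟩ hz.1 _ (hix _)))
      (N_symm (mem_N_pt.2 (G4 y ⟨z, G3 x hz.1⟩ hz.2 _ (hix _)))))
  exact ⟨t, t1, fun x => mem_N_pt.1 (N_trans (mem_N_pt.2 (mem_N'.1 (t2 x) _ (G2 x)))
    (mem_N_pt.2 (h _ x (v4 _ (F3 _ (hix _))))))⟩

/-! ### stability of `Fl` -/

theorem push_N {p : X → Y} {U : Set Y} (hU : IsOpen U) :
    s ∈ (I.push p).N U ↔ s ∈ I.N (p ⁻¹' U) := by
  show Disjoint (closure (p '' I.supp s)) U ↔ Disjoint (I.supp s) _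
  refine ⟨fun h => disjoint_left.2 fun x a b => disjoint_left.1 h (subset_closure ⟨x, a, rfl⟩) b,
    fun h => Disjoint.closure_left (disjoint_left.2 ?_) hU⟩
  rintro _ ⟨x, a, rfl⟩ b
  exact disjoint_left.1 h a b

theorem comap_N {e : Y → X} {he : Continuous e} {C : Set Y} :
    s ∈ (I.comap e he).N C ↔ s ∈ I.N (e '' C) :=
  ⟨fun h => mem_N'.2 (forall_mem_image.2 ((mem_N' (I := I.comap e he)).1 h)),
    fun h => (mem_N' (I := I.comap e he)).2 fun y hy => mem_N'.1 h _ ⟨y, hy, rfl⟩⟩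

theorem Fl.push (hI : I.Fl) {p : X → Y} (hp : Continuous p) : (I.push p).Fl :=
  fun k κ U s hU hs h => by
    obtain ⟨t, t1, t2⟩ := hI k κ (fun i => p ⁻¹' U i) s (fun i => (hU i).preimage hp) hs
      fun i j => (push_N ((hU i).inter (hU j))).1 (h i j)
    exact ⟨t, t1, fun i => (push_N (hU i)).2 (t2 i)⟩

theorem Fl.on (hI : I.Fl) {Z : Set X} (hZ : IsClosed Z) : (I.on Z).Fl := fun k κ U s hU hs h => by
  obtain ⟨t, t1, t2⟩ := hI k (Option κ) (fun o => o.elim Zᶜ U) (fun o => o.elim 0 s)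
    (by rintro (_ | i); exacts [hZ.isOpen_compl, hU i])
    (by rintro (_ | i); exacts [zero_mem _, (hs i).1])
    (by
      rintro (_ | i) (_ | j)
      · simp
      · exact N_anti_8 inter_subset_left (sub_mem (zero_mem _) (hs j).2)
      · exact N_anti_8 inter_subset_right (sub_mem (hs i).2 (zero_mem _))
      · exact h i j)
  exact ⟨t, ⟨t1, by simpa using t2 none⟩, fun i => t2 (some i)⟩

theorem Fl.comap_open (hI : I.Fl) {e : Y → X} (he : IsOpenEmbedding e) :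
    (I.comap e he.continuous).Fl := fun k κ U s hU hs h => by
  obtain ⟨t, t1, t2⟩ := hI k κ (fun i => e '' U i) s (fun i => he.isOpenMap _ (hU i)) hs
    fun i j => by rw [← image_inter he.injective]; exact comap_N.1 (h i j)
  exact ⟨t, t1, fun i => comap_N.2 (t2 i)⟩

theorem Fl.comap [PseudoMetrizableSpace X] (hI : I.Fl) {e : Y → X} (he : IsEmbedding e) :
    (I.comap e he.continuous).Fl := fun k κ U s hU hs h => by
  choose O O1 O2 using fun i => he.isInducing.isOpen_iff.1 (hU i)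
  have : ∀ x : (e '' ⋃ i, U i), ∃ i, ∃ y ∈ U i, e y = x := by
    rintro ⟨_, y, hy, rfl⟩
    obtain ⟨i, hi⟩ := mem_iUnion.1 hy
    exact ⟨i, y, hi, rfl⟩
  choose ix y hy hy' using this
  have m : ∀ x i, x.1 ∈ O i → y x ∈ U i := fun x i hx => by
    rw [← O2, mem_preimage, hy']; exact hx
  obtain ⟨t, t1, t2⟩ := hI.glue_pts (fun x => s (ix x)) (fun x => hs _) (fun x => O (ix x))
    (fun x => O1 _) (fun x => by have := hy x; rwa [← O2, mem_preimage, hy'] at this)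
    fun x z hz => by
      have := mem_N'.1 (h (ix x) (ix z)) (y z) ⟨m z _ hz, hy z⟩
      rw [← hy']; exact this
  refine ⟨t, t1, fun i => mem_N'.2 fun z hz => ?_⟩
  let x : (e '' ⋃ i, U i) := ⟨e z, z, mem_iUnion.2 ⟨i, hz⟩, rfl⟩
  have e1 : y x = z := he.injective (hy' x)
  exact (mem_N_pt (I := I)).1 (N_trans (mem_N_pt.2 (t2 x))
    (mem_N_pt.2 (mem_N'.1 (h (ix x) i) z ⟨e1 ▸ hy x, hz⟩)))

theorem Fl.loc (hI : I.Fl) (hU : IsOpen U) : (I.loc U).Fl :=
  (hI.comap_open hU.isOpenEmbedding_subtypeVal).push continuous_subtype_val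

theorem loc_N (hV : IsOpen V) : s ∈ (I.loc U).N V ↔ s ∈ I.N (U ∩ V) := by
  have := push_N (I := I.comap (Subtype.val : U → X) continuous_subtype_val) (s := s)
    (p := Subtype.val) hV
  rw [← Subtype.image_preimage_coe]
  exact this.trans comap_N

end PC

theorem pi_N {κ : Type} [Finite κ] {I : κ → PC X} {C : Set X} {s : (piPC I).A} :
    s ∈ (piPC I).N C ↔ ∀ a, s a ∈ (I a).N C := disjoint_iUnion_left

theorem fl_pi_8 {κ : Type} [Finite κ] {I : κ → PC X} (h : ∀ a, (I a).Fl) : (piPC I).Fl :=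
  fun k ι U s hU hs h' => by
    choose t t1 t2 using fun a => h a k ι U (fun i => s i a) hU (fun i => hs i a trivial)
      fun i j => pi_N.1 (h' i j) a
    exact ⟨t, fun a _ => t1 a, fun i => pi_N.2 fun a => t2 a i⟩

theorem cone_N {I J : PC X} {φ : Hom id I J} {C : Set X} {s : φ.cone.A} :
    s ∈ φ.cone.N C ↔ s.1 ∈ I.N C ∧ s.2 ∈ J.N C := disjoint_union_left

theorem fl_cone_8 {I J : PC X} (φ : Hom id I J) (hI : I.Fl) (hJ : J.Fl) : φ.cone.Fl :=
  fun k ι U s hU hs h => by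
    obtain ⟨a, a1, a2⟩ := hI (k + 1) ι U (fun i => (s i).1) hU (fun i => (hs i).1)
      fun i j => (cone_N.1 (h i j)).1
    obtain ⟨b, b1, b2⟩ := hJ k ι U (fun i => (s i).2) hU (fun i => (hs i).2)
      fun i j => (cone_N.1 (h i j)).2
    exact ⟨(a, b), ⟨a1, b1⟩, fun i => cone_N.2 ⟨a2 i, b2 i⟩⟩


/-! ### Godement resolution and truncation -/

theorem god_N {p : Y → X} {hp : Continuous p} {I : PC X} {s : List Y → I.A} {U : Set Y}
    (hU : IsOpen U) : s ∈ (god p hp I).N U ↔ ∀ z ∈ U, ∀ n, Nul p I n z fun l => s (z :: l) :=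
  PC.mem_N'.trans ⟨fun h z hz => (god_supp.1 (h z hz)).self_of_nhds,
    fun h _ hz => god_supp.2 (mem_of_superset (hU.mem_nhds hz) h)⟩

open Classical in
/-- cut-off of a function on lists according to the first entry -/
def pick {M κ : Type} [Zero M] (U : κ → Set Y) (s : κ → List Y → M) : List Y → M
  | [] => 0
  | z :: l => if h : ∃ i, z ∈ U i then s h.choose (z :: l) else 0

omit [TopologicalSpace Y] in
theorem pick_cons {M κ : Type} [Zero M] (U : κ → Set Y) (s : κ → List Y → M) (z : Y) :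
    (∃ i, z ∈ U i ∧ ∀ l, pick U s (z :: l) = s i (z :: l)) ∨
      ((∀ i, z ∉ U i) ∧ ∀ l, pick U s (z :: l) = 0) := by
  by_cases h : ∃ i, z ∈ U i
  · exact Or.inl ⟨_, h.choose_spec, fun l => dif_pos h⟩
  · exact Or.inr ⟨not_exists.1 h, fun l => dif_neg h⟩

theorem pick_gr {p : Y → X} {hp : Continuous p} {I : PC X} {κ : Type} (U : κ → Set Y)
    {s : κ → List Y → I.A} {k : ℤ} (hs : ∀ i, s i ∈ (god p hp I).gr k) :
    pick U s ∈ (god p hp I).gr k := god_gr.2 ⟨rfl, fun z l => by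
  rcases pick_cons U s z with ⟨i, -, h⟩ | ⟨-, h⟩ <;> rw [h]
  exacts [(god_gr.1 (hs i)).2 z l, zero_mem _]⟩

theorem pick_N {p : Y → X} {hp : Continuous p} {I : PC X} {κ : Type} {U : κ → Set Y}
    {s : κ → List Y → I.A} (hU : ∀ i, IsOpen (U i))
    (h : ∀ i j, s i - s j ∈ (god p hp I).N (U i ∩ U j)) (i : κ) :
    pick U s - s i ∈ (god p hp I).N (U i) := (god_N (hU i)).2 fun z hz n => by
  rcases pick_cons U s z with ⟨j, hj, e⟩ | ⟨e, -⟩
  · exact ((god_N ((hU j).inter (hU i))).1 (h j i) z ⟨hj, hz⟩ n).mono fun l => by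
      rw [Pi.sub_apply, e]; rfl
  · exact (e i hz).elim

theorem pick_tr {I : PC X} {κ : Type} (U : κ → Set X) {s : κ → List X → I.A} {c k : ℤ}
    (hs : ∀ i, ∀ z ∈ U i, ∀ n : ℕ, (c < k - n → Nul id I n z fun l => s i (z :: l)) ∧
      (c = k - n → Nul id I n z fun l => I.d (s i (z :: l)))) : pick U s ∈ truncGr I c k := by
  refine ⟨fun n hn z => ?_, fun n hn z => ?_⟩ <;>
    rcases pick_cons U s z with ⟨i, hi, h⟩ | ⟨-, h⟩ <;> simp only [h]
  exacts [(hs i z hi n).1 hn, Nul.of_empty fun _ _ => I.supp_zero, (hs i z hi n).2 hn,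
    Nul.of_empty fun _ _ => by simp [I.supp_zero]]

theorem fl_god_8 (p : Y → X) (hp : Continuous p) (I : PC X) : (god p hp I).Fl :=
  fun _ _ U s hU hs h => ⟨pick U s, pick_gr U hs, pick_N hU h⟩

theorem fl_trunc_8 (c : ℤ) (I : PC X) : (trunc c I).Fl := fun _ _ U s hU hs h =>
  ⟨pick U s, ⟨pick_gr U fun i => (hs i).1,
    pick_tr U fun i z _ n => ⟨fun hn => (hs i).2.1 n hn z, fun hn => (hs i).2.2 n hn z⟩⟩,
    pick_N (hp := continuous_id) hU h⟩

theorem fl_resC_8 (E : Type) [AddCommGroup E] [Module ℚ E] (n : ℤ) : (resC X E n).Fl :=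
  fl_god_8 _ _ _

theorem fl_mdel_8 (dm : X → ℕ) (n : ℕ) : ∀ t, (mdel dm n t).Fl
  | 0 => fl_resC_8 _ _
  | _ + 1 => fl_trunc_8 _ _

end C73
end
end

section
/-! ACY, cones, QIS, stalks of the Godement resolution and of the truncation. -/

open Set Filter Topology TopologicalSpace

noncomputable section
namespace C73
variable {X Y : Type} [TopologicalSpace X] [TopologicalSpace Y]

namespace PC
variable {I : PC X} {k : ℤ} {C C' U V : Set X} {s t : I.A}

/-- one step of ACY: locally trivial classes are trivial when `H^{k-1}` vanishes on smaller opens -/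
theorem Fl.bd_of_loc (hI : I.Fl) (hU : IsOpen U) (hk : ∀ V ⊆ U, IsOpen V → I.Van (k - 1) V ∅)
    (hs : ∀ x ∈ U, I.Bd k {x} ∅ s) : I.Bd k U ∅ s := by
  let P := {q : Set X × I.A // IsOpen q.1 ∧ q.1 ⊆ U ∧ q.2 ∈ I.gr (k - 1) ∧ s - I.d q.2 ∈ I.N q.1}
  let r : P → P → Prop := fun a b => a.1.1 ⊆ b.1.1 ∧ b.1.2 - a.1.2 ∈ I.N a.1.1
  obtain ⟨m, hm⟩ := exists_maximal_of_chains_bounded (r := r) (fun c hc => by
      obtain ⟨t, t1, t2⟩ := hI (k - 1) c (fun a => a.1.1.1) (fun a => a.1.1.2) (fun a => a.1.2.1)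
        (fun a => a.1.2.2.2.1) fun a b => by
          rcases eq_or_ne a b with rfl | hab
          · simp
          · rcases hc a.2 b.2 (fun h => hab (Subtype.ext h)) with h | h
            exacts [N_anti_8 inter_subset_left (N_symm h.2), N_anti_8 inter_subset_right h.2]
      exact ⟨⟨(⋃ a : c, a.1.1.1, t), isOpen_iUnion fun a => a.1.2.1,
        iUnion_subset fun a => a.1.2.2.1, t1, N_iUnion.2 fun a =>
          N_trans a.1.2.2.2.2 (N_dsub a.1.2.2.2.1 t1 (N_symm (t2 a)))⟩,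
        fun a ha => ⟨subset_iUnion (fun a : c => a.1.1.1) ⟨a, ha⟩, t2 ⟨a, ha⟩⟩⟩)
    fun {a b c} h h' => ⟨h.1.trans h'.1, N_trans (N_anti_8 h.1 h'.2) h.2⟩
  obtain ⟨⟨V, t⟩, v1, v2, v3, v4⟩ := m
  refine ⟨t, v3, N_empty_8 _, N_anti_8 (fun x hx => ?_) v4⟩
  obtain ⟨u, u1, -, u2⟩ := hs x hx
  have o : IsOpen (U ∩ (I.supp (s - I.d u))ᶜ) := hU.inter (I.closed _).isOpen_compl
  have u3 : s - I.d u ∈ I.N (U ∩ (I.supp (s - I.d u))ᶜ) := N_anti_8 inter_subset_right (N_compl_supp _)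
  obtain ⟨w, w1, -, w2⟩ := hk _ (inter_subset_left.trans v2) (v1.inter o) (t - u)
    ⟨sub_mem v3 u1, N_empty_8 _, by
      rw [map_sub]; exact N_trans (N_symm (N_anti_8 inter_subset_left v4)) (N_anti_8 inter_subset_right u3)⟩
  have g : u + I.d w ∈ I.gr (k - 1) := add_mem u1 (d_gr' w1)
  obtain ⟨q, q1, q2, q3⟩ := hI.glue2 v1 o v3 g (by rwa [← sub_sub])
  have := hm ⟨(V ∪ (U ∩ (I.supp (s - I.d u))ᶜ), q), v1.union o, union_subset v2 inter_subset_left,
    q1, N_union_8.2 ⟨N_trans v4 (N_dsub v3 q1 (N_symm q2)), N_trans (N_trans u3 (by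
      simpa using neg_mem (N_dd w1))) (N_dsub g q1 (N_symm q3))⟩⟩ ⟨subset_union_left, q2⟩
  exact this.1 (Or.inr ⟨hx, mem_N_pt.1 u2⟩)

/-- ACY: stalkwise acyclic in degrees `≤ k` implies acyclic in degrees `≤ k` -/
theorem Fl.acy (hI : I.Fl) (hU : IsOpen U) (h : ∀ x ∈ U, ∀ j ≤ k, I.Van j {x} ∅) :
    I.Van k U ∅ := by
  obtain ⟨k0, h0⟩ := I.van_low
  have : ∀ n : ℕ, k0 - 1 + n ≤ k → ∀ V ⊆ U, IsOpen V → I.Van (k0 - 1 + n) V ∅ := fun n => by
    induction n with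
    | zero => exact fun _ V _ _ => h0 _ (by simp) _ _
    | succ n ih =>
      intro hn V hV hV' s hs
      refine hI.bd_of_loc hV' (fun W hW hW' => ?_) fun x hx =>
        h x (hV hx) _ hn s (hs.mono (singleton_subset_iff.2 hx) subset_rfl)
      rw [show k0 - 1 + ((n + 1 : ℕ) : ℤ) - 1 = k0 - 1 + n by push_cast; ring]
      exact ih (by push_cast at hn; omega) W (hW.trans hV) hW'
  rcases lt_or_ge k k0 with hk | hk
  · exact h0 k hk _ _
  · obtain ⟨n, rfl⟩ : ∃ n : ℕ, k = k0 - 1 + n := ⟨(k - (k0 - 1)).toNat, by omega⟩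
    exact this n le_rfl U subset_rfl hU

theorem comap_zc {e : Y → X} {he : Continuous e} {D D' : Set Y} :
    (I.comap e he).Zc k D D' s ↔ I.Zc k (e '' D) (e '' D') s :=
  and_congr Iff.rfl (and_congr comap_N comap_N)

theorem comap_bd {e : Y → X} {he : Continuous e} {D D' : Set Y} :
    (I.comap e he).Bd k D D' s ↔ I.Bd k (e '' D) (e '' D') s :=
  exists_congr fun _ => and_congr Iff.rfl (and_congr comap_N comap_N)

theorem comap_van {e : Y → X} {he : Continuous e} {D D' : Set Y} :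
    (I.comap e he).Van k D D' ↔ I.Van k (e '' D) (e '' D') :=
  forall_congr' fun _ => imp_congr comap_zc comap_bd

theorem push_zc {p : X → Y} {D D' : Set Y} (h : IsOpen D) (h' : IsOpen D') :
    (I.push p).Zc k D D' s ↔ I.Zc k (p ⁻¹' D) (p ⁻¹' D') s :=
  and_congr Iff.rfl (and_congr (push_N h') (push_N h))

theorem push_bd {p : X → Y} {D D' : Set Y} (h : IsOpen D) (h' : IsOpen D') :
    (I.push p).Bd k D D' s ↔ I.Bd k (p ⁻¹' D) (p ⁻¹' D') s :=
  exists_congr fun _ => and_congr Iff.rfl (and_congr (push_N h') (push_N h))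

theorem push_van {p : X → Y} {D D' : Set Y} (h : IsOpen D) (h' : IsOpen D') :
    (I.push p).Van k D D' ↔ I.Van k (p ⁻¹' D) (p ⁻¹' D') :=
  forall_congr' fun _ => imp_congr (push_zc h h') (push_bd h h')

/-- ACY along an arbitrary subset of a metrizable space -/
theorem Fl.acy' [PseudoMetrizableSpace X] (hI : I.Fl) (h : ∀ x ∈ C, ∀ j ≤ k, I.Van j {x} ∅) :
    I.Van k C ∅ := by
  have := (hI.comap (IsEmbedding.subtypeVal (p := (· ∈ C)))).acy (k := k) isOpen_univ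
    fun x _ j hj => comap_van.2 (by simpa using h x x.2 j hj)
  simpa using comap_van.1 this

/-- cohomology of an open pair as cohomology with supports -/
theorem Fl.on_van (hI : I.Fl) {Z : Set X} (hZ : IsClosed Z) (hU : IsOpen U) :
    (I.on Z).Van k U ∅ ↔ I.Van k U (U \ Z) := by
  have g : I.Gl U Zᶜ := hI.gl_open hU hZ.isOpen_compl
  refine ⟨fun a s hs => ?_, fun a s hs => ?_⟩
  · obtain ⟨r, r1, r2⟩ := g.zc hs
    obtain ⟨t, t1, -, t3⟩ := a r ⟨⟨r1.1, r1.2.1⟩, N_empty_8 _, N_anti_8 subset_union_left r1.2.2⟩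
    exact Bd.congr ⟨t, t1.1, N_anti_8 inter_subset_right t1.2, t3⟩ (N_symm r2)
  · obtain ⟨t, t1, t2, t3⟩ := g.bd hs.1.2 (a s ⟨hs.1.1, N_anti_8 inter_subset_right hs.1.2, hs.2.2⟩)
    exact ⟨t, ⟨t1, t2⟩, N_empty_8 _, N_anti_8 subset_union_left t3⟩

end PC
open PC

/-! ### morphisms -/

namespace Hom
variable {p : Y → X} {I : PC X} {J : PC Y} (φ : Hom p I J) {k : ℤ} {C C' : Set X} {D D' : Set Y}
  {s : I.A}

theorem map_N_8 (hs : s ∈ I.gr k) (h : s ∈ I.N C) (hD : MapsTo p D C) : φ.f s ∈ J.N D :=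
  mem_N'.2 fun _ hy h' => mem_N'.1 h _ (hD hy) (φ.supp hs h')

theorem comm_N (hs : s ∈ I.gr k) : φ.f (I.d s) - J.d (φ.f s) ∈ J.N D := N_of_empty_8 (φ.comm hs)

theorem map_zc_8 (h : I.Zc k C C' s) (hD : MapsTo p D C) (hD' : MapsTo p D' C') :
    J.Zc k D D' (φ.f s) :=
  ⟨φ.gr h.1, φ.map_N_8 h.1 h.2.1 hD', N_of_sub (N_symm (φ.comm_N h.1))
    (φ.map_N_8 (I.d_gr h.1) h.2.2 hD)⟩

theorem map_bd_8 (hs : s ∈ I.gr k) (h : I.Bd k C C' s) (hD : MapsTo p D C) (hD' : MapsTo p D' C') :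
    J.Bd k D D' (φ.f s) := by
  obtain ⟨t, t1, t2, t3⟩ := h
  exact ⟨φ.f t, φ.gr t1, φ.map_N_8 t1 t2 hD', N_trans
    (by simpa using φ.map_N_8 (sub_mem hs (d_gr' t1)) t3 hD) (φ.comm_N t1)⟩
end Hom

section Cone
variable {I J : PC X} (φ : Hom id I J) {k : ℤ} {C C' : Set X}

theorem cone_sur (h : φ.cone.Van k C C') : Sur I J φ.f k C C' C C' := fun b hb => by
  obtain ⟨⟨a, b'⟩, ⟨t1, t1'⟩, t2, t3⟩ := h (0, b) ⟨⟨zero_mem _, hb.1⟩,
    cone_N.2 ⟨zero_mem _, hb.2.1⟩, cone_N.2 ⟨by show -I.d 0 ∈ _; simp, by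
      show φ.f 0 + J.d b ∈ _; simpa using hb.2.2⟩⟩
  have e1 : 0 - -I.d a ∈ I.N C := (cone_N.1 t3).1
  have e2 : b - (φ.f a + J.d b') ∈ J.N C := (cone_N.1 t3).2
  exact ⟨a, ⟨by simpa using t1, (cone_N.1 t2).1, by simpa using e1⟩,
    b', t1', (cone_N.1 t2).2, by rwa [sub_sub]⟩

theorem cone_inj (h : φ.cone.Van (k - 1) C C') : Inj I J φ.f k C C' C C' := fun a ha hb => by
  obtain ⟨b, b1, b2, b3⟩ := hb
  obtain ⟨⟨a', b'⟩, ⟨t1, -⟩, t2, t3⟩ := h (a, -b) ⟨⟨by simpa using ha.1, neg_mem b1⟩,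
    cone_N.2 ⟨ha.2.1, neg_mem b2⟩, cone_N.2 ⟨neg_mem ha.2.2, by
      show φ.f a + J.d (-b) ∈ _; rwa [map_neg, ← sub_eq_add_neg]⟩⟩
  have e1 : a - -I.d a' ∈ I.N C := (cone_N.1 t3).1
  exact ⟨-a', neg_mem (by simpa using t1), neg_mem (cone_N.1 t2).1, by rwa [map_neg]⟩

theorem cone_van (hs : Sur I J φ.f k C C' C C') (hi : Inj I J φ.f (k + 1) C C' C C') :
    φ.cone.Van k C C' := by
  rintro ⟨a, b⟩ ⟨⟨h1, h1'⟩, h2, h3⟩
  have e1 : -I.d a ∈ I.N C := (cone_N.1 h3).1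
  have e2 : φ.f a + J.d b ∈ J.N C := (cone_N.1 h3).2
  obtain ⟨a', a1, a2, a3⟩ := hi a ⟨h1, (cone_N.1 h2).1, by simpa using e1⟩
    ⟨-b, by simpa using h1', neg_mem (cone_N.1 h2).2, by simpa only [map_neg, sub_neg_eq_add] using e2⟩
  have a1' : a' ∈ I.gr k := by simpa using a1
  have e3 : φ.f a - φ.f (I.d a') ∈ J.N C := by
    simpa only [map_sub] using φ.map_N_8 (sub_mem h1 (I.d_gr a1')) a3 (mapsTo_id _)
  obtain ⟨c, c1, b', b1, b2, b3⟩ := hs (b + φ.f a') ⟨add_mem h1' (φ.gr a1'),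
    add_mem (cone_N.1 h2).2 (φ.map_N_8 a1' a2 (mapsTo_id _)), by
      have := sub_mem e2 (N_trans e3 (φ.comm_N a1'))
      rw [map_add]; convert this using 1; abel⟩
  refine ⟨(c - a', b'), ⟨by simpa using sub_mem c1.1 a1', b1⟩,
    cone_N.2 ⟨sub_mem c1.2.1 a2, b2⟩, cone_N.2 ⟨?_, ?_⟩⟩
  · show a - -I.d (c - a') ∈ _
    convert add_mem a3 c1.2.2 using 1; rw [map_sub]; abel
  · show b - (φ.f (c - a') + J.d b') ∈ _
    convert b3 using 1; rw [map_sub]; abel

/-- QIS in a range of degrees, on a pair of sets with an ACY property -/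
theorem qis_of {P : Set X → Prop} (hC : C' ⊆ C) (h1 : P C) (h2 : P C')
    (acy : ∀ D k, P D → (∀ x ∈ D, ∀ j ≤ k, φ.cone.Van j {x} ∅) → φ.cone.Van k D ∅)
    (h : ∀ x ∈ C, ∀ j ≤ k, Sur I J φ.f j {x} ∅ {x} ∅ ∧ Inj I J φ.f (j + 1) {x} ∅ {x} ∅) :
    Sur I J φ.f k C C' C C' ∧ Inj I J φ.f (k + 1) C C' C C' := by
  have : φ.cone.Van k C C' := tri2_8 (empty_subset _)
    (acy _ _ h2 fun x hx j hj => cone_van φ (h x (hC hx) j (by omega)).1 (h x (hC hx) j (by omega)).2)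
    (acy _ _ h1 fun x hx j hj => cone_van φ (h x hx j hj).1 (h x hx j hj).2) hC
  exact ⟨cone_sur φ this, cone_inj φ (by simpa using this)⟩

theorem qis_le (hI : I.Fl) (hJ : J.Fl) (hC : C' ⊆ C) (h1 : IsOpen C) (h2 : IsOpen C')
    (h : ∀ x ∈ C, ∀ j ≤ k, Sur I J φ.f j {x} ∅ {x} ∅ ∧ Inj I J φ.f (j + 1) {x} ∅ {x} ∅) :
    Sur I J φ.f k C C' C C' ∧ Inj I J φ.f (k + 1) C C' C C' :=
  qis_of φ hC h1 h2 (fun _ _ hD => (fl_cone_8 φ hI hJ).acy hD) h

theorem qis_le' [PseudoMetrizableSpace X] (hI : I.Fl) (hJ : J.Fl) (hC : C' ⊆ C)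
    (h : ∀ x ∈ C, ∀ j ≤ k, Sur I J φ.f j {x} ∅ {x} ∅ ∧ Inj I J φ.f (j + 1) {x} ∅ {x} ∅) :
    Sur I J φ.f k C C' C C' ∧ Inj I J φ.f (k + 1) C C' C C' :=
  qis_of φ (P := fun _ => True) hC trivial trivial (fun _ _ _ => (fl_cone_8 φ hI hJ).acy') h

/-- QIS for open pairs -/
theorem qis (hI : I.Fl) (hJ : J.Fl) (hC : C' ⊆ C) (h1 : IsOpen C) (h2 : IsOpen C')
    (h : ∀ x ∈ C, φ.CartAt x) : Bij I J φ.f C C' C C' := fun k =>
  ⟨(qis_le φ hI hJ hC h1 h2 fun x hx j _ => ⟨(h x hx j).1, (h x hx _).2⟩).1, by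
    simpa using (qis_le (k := k - 1) φ hI hJ hC h1 h2 fun x hx j _ => ⟨(h x hx j).1, (h x hx _).2⟩).2⟩

/-- QIS for arbitrary pairs in a metrizable space -/
theorem qis' [PseudoMetrizableSpace X] (hI : I.Fl) (hJ : J.Fl) (hC : C' ⊆ C)
    (h : ∀ x ∈ C, φ.CartAt x) : Bij I J φ.f C C' C C' := fun k =>
  ⟨(qis_le' φ hI hJ hC fun x hx j _ => ⟨(h x hx j).1, (h x hx _).2⟩).1, by
    simpa using (qis_le' (k := k - 1) φ hI hJ hC fun x hx j _ => ⟨(h x hx j).1, (h x hx _).2⟩).2⟩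
end Cone

end C73
end
end

section
/-! Stalks of the Godement resolution and of the truncation; VB, SLICE, DIM. -/

open Set Filter Topology TopologicalSpace

noncomputable section
namespace C73
variable {X Y : Type} [TopologicalSpace X] [TopologicalSpace Y]
open PC

open Classical in
/-- the contraction at `y` -/
def hy {M : Type} [Zero M] (y : Y) (s : List Y → M) : List Y → M :=
  fun l => if l = [] then 0 else s (y :: l)

section
variable {p : Y → X} {hp : Continuous p} {I : PC X} {k : ℤ} {s : List Y → I.A} {y : Y}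

theorem hy_gr (hs : s ∈ (god p hp I).gr k) : hy y s ∈ (god p hp I).gr (k - 1) :=
  god_gr.2 ⟨if_pos rfl, fun z l => by
    have := (god_gr.1 hs).2 y (z :: l)
    rw [hy, if_neg (by simp)]; convert this using 2; simp; ring⟩

omit [TopologicalSpace Y] in
theorem hy_eq (z : Y) (l : List Y) :
    (s - uL Y (s [y]) - gD I.d (hy y s)) (z :: l) = gD I.d s (y :: z :: l) := by
  classical
  have e : hy y s = (fun l => s (y :: l)) - fun l => if l = [] then s [y] else 0 := by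
    funext l; by_cases h : l = [] <;> simp [hy, h]
  rw [congrFun (god_cons I.d s y) (z :: l), e, map_sub, gD_apply, gD_apply, ← uL_eq]
  simp only [Pi.sub_apply, Pi.add_apply, sgnD_apply, List.length_cons, reduceCtorEq, ↓ reduceIte, map_zero, smul_zero, add_zero, sub_sub_sub_cancel_right]; abel

theorem gD_one (hs : s ∈ (god p hp I).gr k) : gD I.d s [y] = I.d (s [y]) := by
  simp only [gD_apply, Pi.add_apply, dl, (god_gr.1 hs).1, sub_self, sgnD_apply, List.length_cons, List.length_nil, zero_add, Nat.reduceAdd, even_two, Even.neg_pow, one_pow, one_smul]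

theorem nul_all (hs : s ∈ (god p hp I).gr k) (h : ∀ n, Nul p I (n + 1) y fun l => s (y :: l)) :
    ∀ᶠ z in 𝓝 y, ∀ n, Nul p I n z fun l => s (y :: z :: l) := by
  obtain ⟨k0, h0⟩ := I.bdd
  filter_upwards [(eventually_all_finite (finite_lt_nat (k - k0 + 1).toNat)).2 fun n _ => h n]
    with z hz n
  by_cases hn : n < (k - k0 + 1).toNat
  · exact hz n hn
  · exact Nul.of_empty fun l hl => h0 _ (by simp [hl]; omega) _ ((god_gr.1 hs).2 y (z :: l))

/-- a cocycle of the Godement resolution near `y` is cohomologous to its value at `[y]` -/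
theorem god_contr (hs : s ∈ (god p hp I).gr k) (h : gD I.d s ∈ (god p hp I).N {y}) :
    p y ∉ I.supp (I.d (s [y])) ∧ s - uL Y (s [y]) - gD I.d (hy y s) ∈ (god p hp I).N {y} := by
  have h1 := (god_supp.1 (mem_N_pt.1 h)).self_of_nhds
  refine ⟨by have := h1 0; rwa [Nul, gD_one hs] at this, mem_N_pt.2 (god_supp.2 ?_)⟩
  simp only [hy_eq]
  exact nul_all ((god p hp I).d_gr hs) fun n => h1 (n + 1)

theorem god_val (ht : s ∈ (god p hp I).N {y}) : s [y] ∈ I.N {p y} :=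
  mem_N_pt.2 ((god_supp.1 (mem_N_pt.1 ht)).self_of_nhds 0)

theorem godU_cart_8 (p : Y → X) (hp : Continuous p) (I : PC X) : (godU p hp I).Cart := fun y k => by
  refine ⟨fun s hs => ?_, fun a ha ⟨t, t1, _, t2⟩ => ?_⟩
  · have := god_contr hs.1 hs.2.2
    exact ⟨s [y], ⟨by simpa using (god_gr.1 hs.1).2 y [], N_empty_8 _, mem_N_pt.2 this.1⟩,
      hy y s, hy_gr hs.1, N_empty_8 _, this.2⟩
  · refine ⟨t [y], by simpa using (god_gr.1 t1).2 y [], N_empty_8 _, ?_⟩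
    have := god_val t2
    rwa [show (godU p hp I).f a - (god p hp I).d t = uL Y a - gD I.d t from rfl, Pi.sub_apply,
      gD_one t1] at this
end

section
variable {I : PC X} {c k : ℤ} {x : X}

/-- cut-off to an open neighbourhood -/
theorem cut_tr {s : List X → I.A} (hs : s ∈ (god id continuous_id I).gr k)
    (h : ∀ᶠ z in 𝓝 x, ∀ n : ℕ, (c < k - n → Nul id I n z fun l => s (z :: l)) ∧
      (c = k - n → Nul id I n z fun l => I.d (s (z :: l)))) :
    ∃ t : List X → I.A, t ∈ (trunc c I).gr k ∧ t - s ∈ (god id continuous_id I).N {x} := by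
  obtain ⟨O, o1, o2, o3⟩ := eventually_nhds_iff.1 h
  exact ⟨pick (fun _ : Unit => O) fun _ => s, ⟨pick_gr _ fun _ => hs, pick_tr _ fun _ => o1⟩,
    N_anti_8 (singleton_subset_iff.2 o3) (pick_N (fun _ => o2) (fun _ _ => by rw [sub_self]; exact zero_mem _) ())⟩

theorem hy_tr {s : List X → I.A} (hs : s ∈ (trunc c I).gr k) :
    ∃ t : List X → I.A, t ∈ (trunc c I).gr (k - 1) ∧ t - hy x s ∈ (god id continuous_id I).N {x} := by
  refine cut_tr (hy_gr hs.1) ?_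
  have : ∀ n ∈ {n : ℕ | n < (k - c).toNat}, ∀ᶠ z in 𝓝 x,
      (c < k - 1 - n → Nul id I n z fun l => s (x :: z :: l)) ∧
      (c = k - 1 - n → Nul id I n z fun l => I.d (s (x :: z :: l))) := fun n _ => by
    refine Eventually.and ?_ ?_ <;> refine eventually_imp_distrib_left.2 fun h => ?_
    exacts [hs.2.1 (n + 1) (by push_cast; omega) x, hs.2.2 (n + 1) (by push_cast; omega) x]
  filter_upwards [(eventually_all_finite (finite_lt_nat _)).2 this] with z hz n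
  exact ⟨fun h => (hz n (by simp; omega)).1 h, fun h => (hz n (by simp; omega)).2 h⟩

theorem trunc_van_8 (hk : c < k) : (trunc c I).Van k {x} ∅ := fun (s : List X → I.A) hs => by
  obtain ⟨t, t1, t2⟩ := hy_tr (x := x) hs.1
  have h1 := (god_contr hs.1.1 hs.2.2).2
  have h2 : uL X (s [x]) ∈ (god id continuous_id I).N {x} :=
    (godU id continuous_id I).map_N_8 (k := k) (by simpa using (god_gr.1 hs.1.1).2 x [])
      (mem_N_pt.2 (hs.1.2.1 0 (by simpa) x)) (mapsTo_id _)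
  refine ⟨t, t1, N_empty_8 _, N_trans (I := god id continuous_id I) (t := gD I.d (hy x s)) ?_
    (N_dsub (hy_gr hs.1.1) t1.1 (N_symm t2))⟩
  have e : s - gD I.d (hy x s) = s - uL X (s [x]) - gD I.d (hy x s) + uL X (s [x]) := by abel
  exact e ▸ add_mem h1 h2

theorem uL_tr {a : I.A} (ha : a ∈ I.gr k) (hk : k ≤ c) (h : k = c → I.d a ∈ I.N {x}) :
    ∃ t : List X → I.A, t ∈ (trunc c I).gr k ∧ t - uL X a ∈ (god id continuous_id I).N {x} := by
  refine cut_tr ((godU id continuous_id I).gr ha) ?_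
  have : ∀ᶠ z in 𝓝 x, k = c → z ∉ I.supp (I.d a) := eventually_imp_distrib_left.2 fun h' =>
    (I.closed _).isOpen_compl.mem_nhds (mem_N_pt.1 (h h'))
  filter_upwards [this] with z hz n
  refine ⟨fun h => by omega, fun h => ?_⟩
  obtain rfl : n = 0 := by omega
  exact hz (by simpa using h.symm)

theorem trunc_sur (hk : k ≤ c) :
    Sur (trunc c I) (god id continuous_id I) LinearMap.id k {x} ∅ {x} ∅ := fun s hs => by
  obtain ⟨a, a1, a2⟩ := (godU_cart_8 id continuous_id I x k).1 s hs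
  obtain ⟨t, t1, t2⟩ := uL_tr a1.1 hk fun _ => a1.2.2
  have z := (godU id continuous_id I).map_zc_8 a1 (mapsTo_id _) (mapsTo_id _)
  exact ⟨t, ⟨t1, N_empty_8 _, N_of_sub (I := god id continuous_id I) (N_dsub t1.1 z.1 t2) z.2.2⟩,
    a2.congr (by
      have e : ∀ a b c : List X → I.A, a - b - (a - c) = -(b - c) := fun _ _ _ => by abel
      exact (e s t (uL X a)).symm ▸ neg_mem t2)⟩

theorem trunc_inj (hk : k ≤ c) :
    Inj (trunc c I) (god id continuous_id I) LinearMap.id k {x} ∅ {x} ∅ := by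
  rintro (s : List X → I.A) hs ⟨u : List X → I.A, u1, -, u2⟩
  obtain ⟨t, t1, t2⟩ := hy_tr (x := x) hs.1
  have h1 := (god_contr hs.1.1 hs.2.2).2
  have g : u [x] ∈ I.gr (k - 1) := by simpa using (god_gr.1 u1).2 x []
  obtain ⟨r, r1, r2⟩ := uL_tr (x := x) (c := c) g (by omega) (by omega)
  have h2 : s [x] - I.d (u [x]) ∈ I.N {x} := by
    have := god_val u2
    change s [x] - gD I.d u [x] ∈ _ at this
    rwa [gD_one u1] at this
  have h3 := (godU id continuous_id I).map_N_8 (D := {x})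
    (sub_mem (by simpa using (god_gr.1 hs.1.1).2 x []) (d_gr' g)) h2 (mapsTo_id _)
  have h4 := N_dsub r1.1 ((godU id continuous_id I).gr g) r2
  have h5 := N_dsub t1.1 (hy_gr hs.1.1) t2
  refine ⟨r + t, add_mem r1 t1, N_empty_8 _, ?_⟩
  have := sub_mem (sub_mem (add_mem h1 h3) h4) h5
  have e : s - gD I.d (r + t) = s - uL X (s [x]) - gD I.d (hy x s) + uL X (s [x] - I.d (u [x])) -
    (gD I.d r - gD I.d (uL X (u [x]))) - (gD I.d t - gD I.d (hy x s)) := by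
    rw [gD_uL, map_sub, map_add]; abel
  change s - gD I.d (r + t) ∈ (god id continuous_id I).N {x}
  exact e ▸ this
end

/-! ### Vietoris–Begle, slices, dimension -/

namespace PC
variable {I : PC X} {k : ℤ} {C C' : Set X} {s : I.A}

/-- stalks of a direct image along a closed map -/
theorem push_N_pt {p : X → Y} (hp : IsClosedMap p) {y : Y} :
    s ∈ (I.push p).N {y} ↔ s ∈ I.N (p ⁻¹' {y}) := by
  refine (mem_N_pt (I := I.push p)).trans ?_
  show y ∉ closure (p '' I.supp s) ↔ _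
  rw [(hp _ (I.closed s)).closure_eq]
  exact ⟨fun h => mem_N'.2 fun x hx hs => h ⟨x, hs, hx⟩, fun h ⟨x, hs, hx⟩ => mem_N'.1 h x hx hs⟩

theorem res_N {π : X → Y} (hc : IsClosedMap (fun x : C => π x)) {y : Y} :
    s ∈ ((I.comap (Subtype.val : C → X) continuous_subtype_val).push (fun x : C => π x)).N {y} ↔
      s ∈ I.N (C ∩ π ⁻¹' {y}) := by
  rw [← Subtype.image_preimage_coe]
  exact (push_N_pt (I := I.comap (Subtype.val : C → X) continuous_subtype_val) hc).trans comap_N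

theorem res_N_univ {π : X → Y} :
    s ∈ ((I.comap (Subtype.val : C → X) continuous_subtype_val).push (fun x : C => π x)).N univ ↔
      s ∈ I.N C := by
  have := (push_N (I := I.comap (Subtype.val : C → X) continuous_subtype_val) (s := s)
    (p := fun x : C => π x) isOpen_univ).trans comap_N
  rwa [preimage_univ, image_univ, Subtype.range_coe] at this

theorem van_of (h1 : C' ⊆ C) (hs : Sur I I LinearMap.id (k - 1) C ∅ C' ∅)
    (hi : Inj I I LinearMap.id k C ∅ C' ∅) : I.Van k C C' := fun s h => by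
  obtain ⟨t, t1, -, t2⟩ := hi s (h.mono subset_rfl (empty_subset _)) (Bd.of_N h.2.1)
  obtain ⟨u, u1, w, w1, -, w2⟩ := hs t ⟨t1, N_empty_8 _, by
    simpa using sub_mem h.2.1 (N_anti_8 h1 t2)⟩
  refine ⟨t - u - I.d w, sub_mem (sub_mem t1 u1.1) (d_gr' w1), w2, ?_⟩
  convert add_mem (add_mem t2 u1.2.2) (N_dd w1) using 1
  rw [map_sub, map_sub]; abel

theorem Van.sur (h : I.Van (k + 1) C C') : Sur I I LinearMap.id k C ∅ C' ∅ := fun s hs => by
  obtain ⟨t, t1, t2, t3⟩ := h (I.d s) ⟨I.d_gr hs.1, hs.2.2, N_dd hs.1⟩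
  rw [add_sub_cancel_right] at t1
  exact ⟨s - t, ⟨sub_mem hs.1 t1, N_empty_8 _, by simpa using t3⟩, Bd.of_N (by simpa using t2)⟩

theorem Van.inj (h : I.Van k C C') : Inj I I LinearMap.id k C ∅ C' ∅ := by
  rintro s hs ⟨t, t1, -, t2⟩
  exact ((h (s - I.d t) ⟨sub_mem hs.1 (d_gr' t1), t2, (hs.sub (Zc.d t1 (N_empty_8 _))).2.2⟩).mono
    subset_rfl (empty_subset _)).of_sub (Bd.d t1 (N_empty_8 _))

/-- VB: a pair with acyclic fibres over a map that is closed on both sets is acyclic -/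
theorem Fl.vb [PseudoMetrizableSpace X] (hI : I.Fl) (h1 : C' ⊆ C) {π : X → Y}
    (hπ : ContinuousOn π C) (hc : IsClosedMap fun x : C => π x) (hc' : IsClosedMap fun x : C' => π x)
    (h : ∀ y, ∀ j ≤ k, I.Van j (C ∩ π ⁻¹' {y}) (C' ∩ π ⁻¹' {y})) : I.Van k C C' := by
  let φ : Hom id ((I.comap (Subtype.val : C → X) continuous_subtype_val).push fun x : C => π x)
      ((I.comap (Subtype.val : C' → X) continuous_subtype_val).push fun x : C' => π x) :=
    ⟨LinearMap.id, fun h => h, fun _ => closure_mono (by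
      rintro _ ⟨x, hx, rfl⟩; exact ⟨⟨x, h1 x.2⟩, hx, rfl⟩),
      fun _ => (congrArg _ (sub_self _)).trans (PC.supp_zero _)⟩
  have := qis_le (k := k - 1) φ ((hI.comap .subtypeVal).push hπ.domRestrict)
    ((hI.comap .subtypeVal).push (hπ.mono h1).domRestrict) (empty_subset univ) isOpen_univ isOpen_empty
    fun y _ j hj => ⟨fun s hs => ?_, fun s hs ⟨t, t1, _, t2⟩ => ?_⟩
  · refine van_of h1 (fun s hs => ?_) fun s hs ⟨t, t1, _, t2⟩ => ?_
    · obtain ⟨u, u1, w, w1, -, w2⟩ := this.1 s ⟨hs.1, N_empty_8 _, res_N_univ.2 hs.2.2⟩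
      exact ⟨u, ⟨u1.1, N_empty_8 _, res_N_univ.1 u1.2.2⟩, w, w1, N_empty_8 _, res_N_univ.1 w2⟩
    · obtain ⟨w, w1, -, w2⟩ := (sub_add_cancel k 1 ▸ this.2 :) s
        ⟨hs.1, N_empty_8 _, res_N_univ.2 hs.2.2⟩ ⟨t, t1, N_empty_8 _, res_N_univ.2 t2⟩
      exact ⟨w, w1, N_empty_8 _, res_N_univ.1 w2⟩
  · obtain ⟨u, u1, w, w1, -, w2⟩ := (h y (j + 1) (by omega)).sur s
      ⟨hs.1, N_empty_8 _, (res_N hc').1 hs.2.2⟩
    exact ⟨u, ⟨u1.1, N_empty_8 _, (res_N hc).2 u1.2.2⟩, w, w1, N_empty_8 _, (res_N hc').2 w2⟩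
  · obtain ⟨w, w1, -, w2⟩ := (h y (j + 1) (by omega)).inj s
      ⟨hs.1, N_empty_8 _, (res_N hc).1 hs.2.2⟩ ⟨t, t1, N_empty_8 _, (res_N hc').1 t2⟩
    exact ⟨w, w1, N_empty_8 _, (res_N hc).2 w2⟩

theorem closedMap_of_compact [T2Space Y] (hC : IsCompact C) {π : X → Y} (hπ : ContinuousOn π C) :
    IsClosedMap fun x : C => π x :=
  have := isCompact_iff_compactSpace.1 hC
  hπ.domRestrict.isClosedMap

/-- VB for compact pairs -/
theorem Fl.vb_compact [PseudoMetrizableSpace X] [T2Space Y] (hI : I.Fl) (h1 : C' ⊆ C)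
    (hC : IsCompact C) (hC' : IsCompact C') {π : X → Y} (hπ : ContinuousOn π C)
    (h : ∀ y, ∀ j ≤ k, I.Van j (C ∩ π ⁻¹' {y}) (C' ∩ π ⁻¹' {y})) : I.Van k C C' :=
  hI.vb h1 hπ (closedMap_of_compact hC hπ) (closedMap_of_compact hC' (hπ.mono h1)) h

/-- vanishing near a fibre spreads to nearby fibres -/
theorem N_near [T2Space Y] (hC : IsCompact C) {π : X → Y} (hπ : ContinuousOn π C) {y : Y}
    (h : s ∈ I.N (C ∩ π ⁻¹' {y})) : ∃ O ∈ 𝓝 y, s ∈ I.N (C ∩ π ⁻¹' O) :=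
  ⟨(π '' (C ∩ I.supp s))ᶜ, ((hC.inter_right (I.closed s)).image_of_continuousOn
    (hπ.mono inter_subset_left)).isClosed.isOpen_compl.mem_nhds
      fun ⟨x, hx, e⟩ => mem_N'.1 h x ⟨hx.1, e⟩ hx.2,
    mem_N'.2 fun x hx hs => hx.2 ⟨x, ⟨hx.1, hs⟩, rfl⟩⟩

/-- SLICE -/
theorem Fl.slice [MetrizableSpace X] (hI : I.Fl) (h1 : C' ⊆ C) (hC : IsCompact C)
    (hC' : IsClosed C') {π : X → ℝ} (hπ : ContinuousOn π C) (hs : I.Zc k C C' s)
    (hb : ∀ t, I.Bd k (C ∩ π ⁻¹' {t}) (C' ∩ π ⁻¹' {t}) s)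
    (hz : ∀ t, Sur I I LinearMap.id (k - 1) (C ∩ π ⁻¹' Ici t) (C' ∩ π ⁻¹' Ici t)
      (C ∩ π ⁻¹' {t}) (C' ∩ π ⁻¹' {t})) : I.Bd k C C' s := by
  have cl : ∀ T : Set ℝ, IsClosed T → IsClosed (C ∩ π ⁻¹' T) := fun T hT =>
    hπ.preimage_isClosed_of_isClosed hC.isClosed hT
  have ex : ∀ T : Set ℝ, C ∩ π ⁻¹' T ∩ C' = C' ∩ π ⁻¹' T := fun T =>
    Set.ext fun x => ⟨fun h => ⟨h.2, h.1.2⟩, fun h => ⟨⟨h1 h.1, h.2⟩, h.1⟩⟩
  have loc : ∀ t, ∃ O ∈ 𝓝 t, I.Bd k (C ∩ π ⁻¹' O) C' s := fun t => by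
    obtain ⟨u, u1, u2, u3⟩ := (hI.gl_closed (cl _ isClosed_singleton) hC').bd hs.2.1 (ex _ ▸ hb t)
    obtain ⟨O, o1, o2⟩ := N_near hC hπ (N_anti_8 subset_union_left u3)
    exact ⟨O, o1, u, u1, u2, o2⟩
  have step : ∀ a b, a ≤ b → I.Bd k (C ∩ π ⁻¹' Iic a) C' s → I.Bd k (C ∩ π ⁻¹' Icc a b) C' s →
      I.Bd k (C ∩ π ⁻¹' Iic b) C' s := by
    rintro a b hab ⟨u, u1, u2, u3⟩ ⟨v, v1, v2, v3⟩
    obtain ⟨g, g1, g2⟩ := hz a (u - v) ⟨sub_mem u1 v1, N_anti_8 inter_subset_left (sub_mem u2 v2), by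
      rw [map_sub]
      exact N_trans (N_symm (N_anti_8 (inter_subset_inter_right _ fun x hx => le_of_eq hx) u3))
        (N_anti_8 (inter_subset_inter_right _ (preimage_mono (by simp [hab]))) v3)⟩
    obtain ⟨g', g3, g4⟩ := (hI.gl_closed (cl _ isClosed_Ici) hC').zc (ex _ ▸ g1)
    obtain ⟨w, w1, w2, w3⟩ := (hI.gl_closed (cl _ isClosed_singleton) hC').bd (k := k - 1)
      (sub_mem (sub_mem u2 v2) g3.2.1) (ex _ ▸ g2.congr (N_anti_8
        (inter_subset_inter_right _ (preimage_mono (t := Ici a) (by simp)))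
          (by simpa using neg_mem g4)))
    have q : v + g' + I.d w ∈ I.gr (k - 1) := add_mem (add_mem v1 g3.1) (d_gr' w1)
    have q' : v + g' + I.d w ∈ I.N C' := add_mem (add_mem v2 g3.2.1) (N_d w1 w2)
    obtain ⟨r, r1, r2, r3⟩ := hI.gl_closed ((cl _ (isClosed_Iic (a := a))).union hC')
      ((cl _ (isClosed_Icc (a := a) (b := b))).union hC') _ u _ u1 q
      (N_anti_8 (C := C ∩ π ⁻¹' {a} ∪ C') (by
        rintro x ⟨h | h, h' | h'⟩
        exacts [Or.inl ⟨h.1, le_antisymm h.2 h'.2.1⟩, Or.inr h', Or.inr h, Or.inr h]) (by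
        convert w3 using 1; abel))
    refine ⟨r, r1, N_of_sub (N_anti_8 subset_union_right r2) u2,
      N_anti_8 (C := C ∩ π ⁻¹' Iic a ∪ C ∩ π ⁻¹' Icc a b) (fun x hx => (le_total (π x) a).elim
        (fun h => Or.inl ⟨hx.1, h⟩) fun h => Or.inr ⟨hx.1, h, hx.2⟩) (N_union_8.2 ⟨N_trans u3
        (N_dsub u1 r1 (N_symm (N_anti_8 subset_union_left r2))), N_trans ?_
        (N_dsub q r1 (N_symm (N_anti_8 subset_union_left r3)))⟩)⟩
    convert sub_mem (sub_mem v3 (N_anti_8 (fun x hx => Or.inl ⟨hx.1, hx.2.1⟩) g3.2.2)) (N_dd w1)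
      using 1
    rw [map_add, map_add]; abel
  obtain ⟨m, hm⟩ := (hC.image_of_continuousOn hπ).bddBelow
  obtain ⟨M, hM⟩ := (hC.image_of_continuousOn hπ).bddAbove
  have all : ∀ b, I.Bd k (C ∩ π ⁻¹' Iic b) C' s := by
    by_contra hn
    push Not at hn
    let T := {b | ¬ I.Bd k (C ∩ π ⁻¹' Iic b) C' s}
    have low : ∀ b < m, b ∉ T := fun b hb hT => hT (Bd.of_N (mem_N'.2 fun x hx _ =>
      (hb.trans_le (hm ⟨x, hx.1, rfl⟩)).not_ge hx.2))
    have bd : BddBelow T := ⟨m, fun b hb => not_lt.1 fun h => low b h hb⟩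
    obtain ⟨O, o1, o2⟩ := loc (sInf T)
    obtain ⟨ε, e0, e1⟩ := Metric.nhds_basis_closedBall.mem_iff.1 o1
    obtain ⟨b, b1, b2⟩ := exists_lt_of_csInf_lt (show T.Nonempty from hn) (lt_add_of_pos_right _ e0)
    refine b1 ((step (sInf T - ε) (sInf T + ε) (by linarith) ?_ (o2.mono ?_ subset_rfl)).mono
      (inter_subset_inter_right _ (preimage_mono (Iic_subset_Iic.2 b2.le))) subset_rfl)
    · by_contra h; linarith [csInf_le bd (show sInf T - ε ∈ T from h)]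
    · rw [← Real.closedBall_eq_Icc]; exact inter_subset_inter_right _ (preimage_mono e1)
  exact (all M).mono (fun x hx => ⟨hx, hM ⟨x, hx, rfl⟩⟩) subset_rfl

/-- finite sets -/
theorem Fl.van_finite [MetrizableSpace X] (hI : I.Fl) (hC : C.Finite)
    (h : ∀ x ∈ C \ C', I.Van k {x} ∅) : I.Van k C (C ∩ C') := by
  induction C, hC using Finite.induction_on with
  | empty => simpa using van_self_8
  | @insert x C hx hC ih =>
    have g := hI.gl_closed (isClosed_singleton (x := x)) hC.isClosed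
    have ih := ih fun y hy => h y ⟨Or.inr hy.1, hy.2⟩
    by_cases hx' : x ∈ C'
    · have g' := hI.gl_closed hC.isClosed ((hC.insert x).inter_of_left C').isClosed
      have e1 : C ∪ insert x C ∩ C' = insert x C := by
        ext y; simp only [mem_union, mem_inter_iff, mem_insert_iff]; grind
      have e2 : C ∩ (insert x C ∩ C') = C ∩ C' := by
        ext y; simp only [mem_inter_iff, mem_insert_iff]; grind
      rw [← e2] at ih
      simpa only [e1] using g'.exc.2 ih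
    · have e : insert x C ∩ C' = C ∩ C' := by
        ext y; simp only [mem_inter_iff, mem_insert_iff]; grind
      rw [e]
      refine tri1_8 inter_subset_left (g.exc.2 ?_) ih (subset_insert _ _)
      rw [singleton_inter_eq_empty.2 hx]; exact h x ⟨Or.inl rfl, hx'⟩

theorem Fl.dim0 [MetrizableSpace X] (hI : I.Fl) {N : ℤ} (n : ℕ) : ∀ {C C' : Set X} {k : ℤ}
    (_ : C' ⊆ C) (_ : IsCompact C) (_ : IsClosed C') (π : X → Fin n → ℝ) (_ : ContinuousOn π C)
    (_ : ∀ y, (C ∩ π ⁻¹' {y}).Finite) (_ : ∀ x ∈ C \ C', ∀ j, N < j → I.Van j {x} ∅)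
    (_ : N + n < k), I.Van k C C' := by
  induction n with
  | zero =>
    intro C C' k h1 _ _ π _ hf h hk
    have : C.Finite := (hf default).subset fun x hx => ⟨hx, Subsingleton.elim _ _⟩
    simpa [inter_eq_right.2 h1] using hI.van_finite this fun x hx => h x hx k (by simpa using hk)
  | succ n ih =>
    intro C C' k h1 hC hC' π hπ hf h hk s hs
    have c0 : ContinuousOn (fun x => π x 0) C := (continuous_apply 0).comp_continuousOn hπ
    have v : ∀ t j, N + n < j →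
        I.Van j (C ∩ (fun x => π x 0) ⁻¹' {t}) (C' ∩ (fun x => π x 0) ⁻¹' {t}) := fun t j hj =>
      ih (inter_subset_inter_left _ h1)
        (hC.of_isClosed_subset (c0.preimage_isClosed_of_isClosed hC.isClosed isClosed_singleton)
          inter_subset_left)
        ((c0.mono h1).preimage_isClosed_of_isClosed hC' isClosed_singleton)
        (fun x => Fin.tail (π x))
        ((continuous_pi fun i => continuous_apply _).comp_continuousOn (hπ.mono inter_subset_left))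
        (fun y => (hf (Fin.cons t y)).subset fun x hx => ⟨hx.1.1, by
          rw [mem_preimage, mem_singleton_iff, ← Fin.cons_self_tail (π x), ← hx.2, ← hx.1.2]⟩)
        (fun x hx => h x ⟨hx.1.1, fun h' => hx.2 ⟨h', hx.1.2⟩⟩) hj
    push_cast at hk
    exact hI.slice h1 hC hC' c0 hs
      (fun t => v t k (by omega) s (hs.mono inter_subset_left inter_subset_left))
      fun t u hu => ⟨0, Zc.zero, by simpa using v t (k - 1) (by omega) u hu⟩

/-- DIM -/
theorem Fl.dim [MetrizableSpace X] (hI : I.Fl) {N n : ℤ} (hC : IsCompact C)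
    (hC' : IsClosed C') (hf : FTO (C \ C') n) (h : ∀ x ∈ C \ C', ∀ j, N < j → I.Van j {x} ∅)
    (hk : N + n < k) : I.Van k C C' := fun s hs => by
  rcases hf with hf | ⟨m, hm, π, hπ, hf⟩
  · exact Bd.of_N (N_anti_8 (sdiff_eq_empty.1 hf) hs.2.1)
  obtain ⟨f, f0, f1, -⟩ := exists_continuous_zero_one_of_isClosed hC' (I.closed s) hs.2.1.symm
  have c1 : IsClosed (C ∩ {x | 1 / 2 ≤ f x}) :=
    hC.isClosed.inter (isClosed_le continuous_const f.continuous)
  have c2 : IsClosed {x | f x ≤ 1 / 2} := isClosed_le f.continuous continuous_const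
  have sub : C ∩ {x | 1 / 2 ≤ f x} ⊆ C \ C' := fun x hx =>
    ⟨hx.1, fun h' => by have := hx.2; simp only [one_div, mem_ofPred_eq, f0 h', Pi.zero_apply, inv_nonpos] at this; linarith only [this]⟩
  have s2 : s ∈ I.N {x | f x ≤ 1 / 2} := mem_N'.2 fun x hx h' => by
    simp only [one_div, mem_ofPred_eq, f1 h', Pi.one_apply] at hx; linarith only [hx]
  refine ((hI.gl_closed c1 c2).bd s2 (hI.dim0 m inter_subset_left
    (hC.of_isClosed_subset c1 inter_subset_left) (c1.inter c2) π (hπ.mono sub)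
    (fun y => (hf y).subset (inter_subset_inter_left _ sub)) (fun x hx => h x (sub hx.1))
    (by omega) s ⟨hs.1, N_anti_8 inter_subset_right s2, N_anti_8 inter_subset_left hs.2.2⟩)).mono
    (fun x hx => (le_total (1 / 2) (f x)).imp (fun h => ⟨hx, h⟩) id) fun x hx => by simp only [one_div, mem_ofPred_eq, f0 hx, Pi.zero_apply, inv_nonneg, Nat.ofNat_nonneg]

end PC

end C73
end
end

section
open Set Filter Topology

noncomputable section
namespace C73
variable {X Y : Type} [TopologicalSpace X] [TopologicalSpace Y]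

/-- gluing linear maps on a distributive family of subspaces -/
theorem lin_glue {A E κ : Type} [AddCommGroup A] [Module ℚ A] [AddCommGroup E] [Module ℚ E]
    (G : κ → Submodule ℚ A) (φ : κ → A →ₗ[ℚ] E)
    (hd : ∀ (T : Finset κ) (j : κ), (⨆ i ∈ T, G i) ⊓ G j ≤ ⨆ i ∈ T, G i ⊓ G j)
    (hc : ∀ i j, ∀ s ∈ G i ⊓ G j, φ i s = φ j s) :
    ∃ ψ : A →ₗ[ℚ] E, ∀ i, ∀ s ∈ G i, ψ s = φ i s := by
  classical
  have key : ∀ (T : Finset κ) (s : κ → A), (∀ i ∈ T, s i ∈ G i) → ∑ i ∈ T, s i = 0 →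
      ∑ i ∈ T, φ i (s i) = 0 := by
    intro T
    induction T using Finset.induction_on with
    | empty => simp
    | insert j T hj ih =>
      intro s hs h0
      rw [Finset.sum_insert hj] at h0 ⊢
      have h1 : s j ∈ (⨆ i ∈ T, G i) ⊓ G j := ⟨by
        rw [eq_neg_of_add_eq_zero_left h0]
        exact neg_mem (Submodule.sum_mem_biSup fun i hi => hs i (Finset.mem_insert_of_mem hi)),
        hs j (Finset.mem_insert_self _ _)⟩
      obtain ⟨t, ht⟩ := (Submodule.mem_iSup_finset_iff_exists_sum _ _).1 (hd T j h1)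
      have := ih (fun i => s i + t i) (fun i hi => add_mem (hs i (Finset.mem_insert_of_mem hi))
        (t i).2.1) (by rw [Finset.sum_add_distrib, ht, add_comm, h0])
      rw [← this, ← ht, map_sum, ← Finset.sum_add_distrib]
      exact Finset.sum_congr rfl fun i _ => by rw [map_add, add_comm, hc i j _ (t i).2]
  let S : (Π₀ i, G i) →ₗ[ℚ] A := DFinsupp.lsum ℚ fun i => (G i).subtype
  let Φ : (Π₀ i, G i) →ₗ[ℚ] E := DFinsupp.lsum ℚ fun i => φ i ∘ₗ (G i).subtype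
  have hk : LinearMap.ker S ≤ LinearMap.ker Φ := fun f hf => by
    simp only [LinearMap.mem_ker, S, Φ, DFinsupp.lsum_apply_apply, DFinsupp.sumAddHom_apply,
      DFinsupp.sum] at hf ⊢
    exact key _ (fun i => f i) (fun i _ => (f i).2) hf
  obtain ⟨ψ, hψ⟩ := LinearMap.exists_extend
    (((LinearMap.ker S).liftQ Φ hk) ∘ₗ (S.quotKerEquivRange.symm : LinearMap.range S →ₗ[ℚ] _))
  refine ⟨ψ, fun i s hs => ?_⟩
  have := LinearMap.congr_fun hψ ⟨S (DFinsupp.single i ⟨s, hs⟩), _, rfl⟩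
  simp only [LinearMap.comp_apply, Submodule.subtype_apply, LinearEquiv.coe_coe,
    LinearMap.quotKerEquivRange_symm_apply_image, Submodule.mkQ_apply,
    Submodule.liftQ_apply] at this
  simpa [S, Φ] using this

/-- a linear map factors through `g` on `P` if it kills what `g` sends to `Q` -/
theorem lin_fac {A B E : Type} [AddCommGroup A] [Module ℚ A] [AddCommGroup B] [Module ℚ B]
    [AddCommGroup E] [Module ℚ E] (P : Submodule ℚ A) (Q : Submodule ℚ B) (g : A →ₗ[ℚ] B)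
    (φ : A →ₗ[ℚ] E) (h : ∀ s ∈ P, g s ∈ Q → φ s = 0) :
    ∃ ψ : B →ₗ[ℚ] E, (∀ u ∈ Q, ψ u = 0) ∧ ∀ s ∈ P, ψ (g s) = φ s := by
  let S : P →ₗ[ℚ] B ⧸ Q := Q.mkQ ∘ₗ g ∘ₗ P.subtype
  have hk : LinearMap.ker S ≤ LinearMap.ker (φ ∘ₗ P.subtype) := fun s hs =>
    h s s.2 ((Submodule.Quotient.mk_eq_zero Q).1 hs)
  obtain ⟨ψ, hψ⟩ := LinearMap.exists_extend
    (((LinearMap.ker S).liftQ _ hk) ∘ₗ (S.quotKerEquivRange.symm : LinearMap.range S →ₗ[ℚ] _))
  refine ⟨ψ ∘ₗ Q.mkQ, fun u hu => by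
    simp [(Submodule.Quotient.mk_eq_zero Q).2 hu], fun s hs => ?_⟩
  have := LinearMap.congr_fun hψ ⟨S ⟨s, hs⟩, _, rfl⟩
  simp only [LinearMap.comp_apply, Submodule.subtype_apply, LinearEquiv.coe_coe,
    LinearMap.quotKerEquivRange_symm_apply_image, Submodule.mkQ_apply,
    Submodule.liftQ_apply] at this
  simpa [S] using this

namespace PC

/-- compactly supported cochains, truncated in degree `m` -/
def GG (C : PC X) (m p : ℤ) (V : Set X) [T2Space X] : Submodule ℚ C.A where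
  carrier := {s | s ∈ C.gr p ∧ IsCompact (C.supp s) ∧ C.supp s ⊆ V ∧
    (m ≤ p → C.supp (C.d s) = ∅) ∧ (m < p → C.supp s = ∅)}
  zero_mem' := by simp only [mem_ofPred_eq, zero_mem, C.supp_zero, finite_empty, Finite.isCompact, empty_subset, map_zero, implies_true, and_self]
  add_mem' := fun {s t} hs ht => ⟨add_mem hs.1 ht.1,
    (hs.2.1.union ht.2.1).of_isClosed_subset (C.closed _) (C.supp_add _ _),
    (C.supp_add _ _).trans (union_subset hs.2.2.1 ht.2.2.1),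
    fun h => (map_add C.d s t).symm ▸ subset_eq_empty (C.supp_add _ _)
      (by rw [hs.2.2.2.1 h, ht.2.2.2.1 h, union_empty]),
    fun h => subset_eq_empty (C.supp_add _ _) (by rw [hs.2.2.2.2 h, ht.2.2.2.2 h, union_empty])⟩
  smul_mem' := fun c s hs => ⟨Submodule.smul_mem _ _ hs.1,
    hs.2.1.of_isClosed_subset (C.closed _) (C.supp_smul _ _), (C.supp_smul _ _).trans hs.2.2.1,
    fun h => subset_eq_empty (by rw [map_smul]; exact C.supp_smul _ _) (hs.2.2.2.1 h),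
    fun h => subset_eq_empty (C.supp_smul _ _) (hs.2.2.2.2 h)⟩

variable [T2Space X] {C : PC X} {m : ℤ}

theorem GG_mono {p : ℤ} {V W : Set X} (h : V ⊆ W) : C.GG m p V ≤ C.GG m p W :=
  fun _ hs => ⟨hs.1, hs.2.1, hs.2.2.1.trans h, hs.2.2.2⟩

theorem GG_d {p : ℤ} {V : Set X} {s : C.A} (hs : s ∈ C.GG m p V) : C.d s ∈ C.GG m (p + 1) V :=
  ⟨C.d_gr hs.1, hs.2.1.of_isClosed_subset (C.closed _) (C.supp_d hs.1),
    (C.supp_d hs.1).trans hs.2.2.1, fun _ => C.supp_dd hs.1, fun h => hs.2.2.2.1 (by omega)⟩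

theorem GG_inter {p : ℤ} {V W : Set X} : C.GG m p V ⊓ C.GG m p W ≤ C.GG m p (V ∩ W) :=
  fun _ hs => ⟨hs.1.1, hs.1.2.1, subset_inter hs.1.2.2.1 hs.2.2.2.1, hs.1.2.2.2⟩

theorem GG_null {p : ℤ} {s : C.A} (hs : s ∈ C.gr p) (h : C.supp s = ∅) : s ∈ C.GG m p ∅ :=
  ⟨hs, by simp [h], h.subset, fun _ => subset_eq_empty (C.supp_d hs) h, fun _ => h⟩

omit [T2Space X] in
/-- cutting off a section -/
theorem Fl.cut (hC : C.Fl) {p : ℤ} {s : C.A} (hs : s ∈ C.gr p) {W L : Set X} (hW : IsOpen W)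
    (hL : IsClosed L) (hWL : W ⊆ L) :
    ∃ t ∈ C.gr p, C.supp t ⊆ C.supp s ∩ L ∧ C.supp (s - t) ⊆ C.supp s \ W := by
  obtain ⟨t, ht, h1, h2⟩ := hC.glue2 hW ((C.closed s).inter hL).isOpen_compl hs (zero_mem _) (by
    rw [sub_zero]
    exact disjoint_left.2 fun x hx hx' => hx'.2 ⟨hx, hWL hx'.1⟩)
  rw [sub_zero] at h2
  have h3 : C.supp t ⊆ C.supp s ∩ L := disjoint_compl_right_iff_subset.1 h2
  refine ⟨t, ht, h3, fun x hx => ⟨?_, fun hxW => ?_⟩⟩
  · exact (C.supp_sub _ _ hx).elim id fun h => (h3 h).1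
  · exact disjoint_left.1 (neg_mem h1 : -(t - s) ∈ C.N W) (by rwa [neg_sub]) hxW

/-- `H_c^{m+1}` of open sets vanishes -/
def Top (C : PC X) (m : ℤ) : Prop :=
  ∀ V, IsOpen V → ∀ s, C.Zcc (m + 1) V s → C.Bdc (m + 1) V s

theorem GG_union [LocallyCompactSpace X] (hC : C.Fl) (hm : C.Top m) {p : ℤ} {V W : Set X}
    (hV : IsOpen V) (hW : IsOpen W) : C.GG m p (V ∪ W) ≤ C.GG m p V ⊔ C.GG m p W := by
  intro s hs
  rcases lt_or_ge m p with hp | hp
  · exact Submodule.mem_sup_left (GG_mono (empty_subset _) (GG_null hs.1 (hs.2.2.2.2 hp)))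
  obtain ⟨L, hL, h1, h2⟩ := exists_compact_between (hs.2.1.diff hW) hV
    (fun x hx => (hs.2.2.1 hx.1).resolve_right hx.2)
  obtain ⟨t, ht, h3, h4⟩ := hC.cut hs.1 isOpen_interior hL.isClosed interior_subset
  have c1 : IsCompact (C.supp t) :=
    hs.2.1.of_isClosed_subset (C.closed _) (h3.trans inter_subset_left)
  have c2 : IsCompact (C.supp (s - t)) :=
    hs.2.1.of_isClosed_subset (C.closed _) (h4.trans sdiff_subset)
  have s1 : C.supp t ⊆ V := h3.trans (inter_subset_right.trans h2)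
  have s2 : C.supp (s - t) ⊆ W := fun x hx => by_contra fun h => (h4 hx).2 (h1 ⟨(h4 hx).1, h⟩)
  rcases hp.lt_or_eq with hp | rfl
  · exact Submodule.mem_sup.2 ⟨t, ⟨ht, c1, s1, fun h => by omega, fun h => by omega⟩, s - t,
      ⟨sub_mem hs.1 ht, c2, s2, fun h => by omega, fun h => by omega⟩, by abel⟩
  have h0 := hs.2.2.2.1 le_rfl
  obtain ⟨u, hu, c3, s3, h5⟩ := hm _ (hV.inter hW) (C.d t) ⟨C.d_gr ht,
    c1.of_isClosed_subset (C.closed _) (C.supp_d ht),
    subset_inter ((C.supp_d ht).trans s1) (by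
      have e : C.d t = C.d s - C.d (s - t) := by simp
      rw [e]
      exact (C.supp_sub _ _).trans (by
        rw [h0, empty_union]; exact (C.supp_d (sub_mem hs.1 ht)).trans s2)), C.supp_dd ht⟩
  rw [add_sub_cancel_right] at hu
  refine Submodule.mem_sup.2 ⟨t - u, ⟨sub_mem ht hu,
    (c1.union c3).of_isClosed_subset (C.closed _) (C.supp_sub _ _),
    (C.supp_sub _ _).trans (union_subset s1 (s3.trans inter_subset_left)),
    fun _ => by rwa [map_sub], fun h => by omega⟩, s - t + u, ⟨add_mem (sub_mem hs.1 ht) hu,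
    (c2.union c3).of_isClosed_subset (C.closed _) (C.supp_add _ _),
    (C.supp_add _ _).trans (union_subset s2 (s3.trans inter_subset_right)),
    fun _ => ?_, fun h => by omega⟩, by abel⟩
  have e : C.d (s - t + u) = C.d s - (C.d t - C.d u) := by simp only [map_add, map_sub]; abel
  rw [e]
  exact subset_eq_empty (C.supp_sub _ _) (by rw [h0, h5, union_empty])

theorem GG_biUnion [LocallyCompactSpace X] (hC : C.Fl) (hm : C.Top m) {p : ℤ} {κ : Type}
    (U : κ → Set X) (hU : ∀ i, IsOpen (U i)) (T : Finset κ) :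
    C.GG m p (⋃ i ∈ T, U i) ≤ C.GG m p ∅ ⊔ ⨆ i ∈ T, C.GG m p (U i) := by
  classical
  induction T using Finset.induction_on with
  | empty => simp only [Finset.notMem_empty, iUnion_of_empty, iUnion_empty, not_false_eq_true, iSup_neg, iSup_bot, bot_le, sup_of_le_left, Std.le_refl]
  | insert j T hj ih =>
    rw [Finset.set_biUnion_insert, Finset.iSup_insert]
    refine (GG_union hC hm (hU j) (isOpen_biUnion fun i _ => hU i)).trans (sup_le ?_ (ih.trans ?_))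
    · exact le_sup_left.trans le_sup_right
    · exact sup_le_sup_left le_sup_right _

end PC

/-- the dual of the complex of compactly supported cochains -/
def dual [T2Space X] (C : PC X) (m : ℤ) (E : Type) [AddCommGroup E] [Module ℚ E] : PC X where
  A := ℤ → C.A →ₗ[ℚ] E
  gr k :=
    { carrier := {φ | (∀ j, j ≠ k → φ j = 0) ∧ ∀ s ∈ C.GG m (-k) ∅, φ k s = 0}
      zero_mem' := ⟨fun _ _ => rfl, fun _ _ => rfl⟩
      add_mem' := fun ha hb => ⟨fun j hj => by simp [ha.1 j hj, hb.1 j hj],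
        fun s hs => by simp [ha.2 s hs, hb.2 s hs]⟩
      smul_mem' := fun c a ha => ⟨fun j hj => by simp [ha.1 j hj], fun s hs => by simp only [Pi.smul_apply, LinearMap.smul_apply, ha.2 s hs, smul_zero]⟩ }
  d := LinearMap.pi fun k => LinearMap.lcomp ℚ E C.d ∘ₗ LinearMap.proj (k - 1)
  supp φ := {x | ¬ ∃ V ∈ 𝓝 x, ∀ k, ∀ s ∈ C.GG m (-k) V, φ k s = 0}
  d_gr {k φ} h := ⟨fun j hj => by
    show φ (j - 1) ∘ₗ C.d = 0
    rw [h.1 _ (by omega), LinearMap.zero_comp], fun s hs => by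
    show φ (k + 1 - 1) (C.d s) = 0
    rw [add_sub_cancel_right]
    exact h.2 _ (by simpa using PC.GG_d hs)⟩
  closed φ := isOpen_compl_iff.1 (isOpen_iff_mem_nhds.2 fun x hx => by
    obtain ⟨V, hV, h⟩ := not_not.1 hx
    exact (eventually_mem_nhds_iff.2 hV).mono fun y hy => not_not.2 ⟨V, hy, h⟩)
  supp_zero := eq_empty_of_forall_notMem fun x hx => hx ⟨univ, univ_mem, fun _ _ _ => rfl⟩
  supp_add s t x hx := by
    by_contra h
    simp only [mem_union, mem_ofPred_eq, not_or, not_not] at h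
    obtain ⟨⟨V, hV, h1⟩, W, hW, h2⟩ := h
    exact hx ⟨V ∩ W, inter_mem hV hW, fun k u hu => by
      simp [h1 k u (PC.GG_mono inter_subset_left hu), h2 k u (PC.GG_mono inter_subset_right hu)]⟩
  supp_smul c s x hx := fun ⟨V, hV, h⟩ => hx ⟨V, hV, fun k u hu => by simp only [Pi.smul_apply, LinearMap.smul_apply, h k u hu, smul_zero]⟩
  supp_d {k φ} _ x hx := fun ⟨V, hV, h⟩ => hx ⟨V, hV, fun j u hu =>
    h (j - 1) _ (by convert PC.GG_d hu using 2; ring)⟩
  supp_dd {k φ} h := eq_empty_of_forall_notMem fun x hx => hx ⟨univ, univ_mem, fun j u hu => by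
    show φ (j - 1 - 1) (C.d (C.d u)) = 0
    by_cases hj : j - 1 - 1 = k
    · rw [hj]
      exact h.2 _ (PC.GG_null (by convert C.d_gr (C.d_gr hu.1) using 2; omega) (C.supp_dd hu.1))
    · rw [h.1 _ hj]; rfl⟩
  bdd := ⟨-m, fun k hk φ h => eq_empty_of_forall_notMem fun x hx =>
    hx ⟨univ, univ_mem, fun j u hu => by
      by_cases hj : j = k
      · subst hj
        exact h.2 _ (PC.GG_null hu.1 (hu.2.2.2.2 (by omega)))
      · rw [h.1 _ hj]; rfl⟩⟩

section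
variable [T2Space X] [LocallyCompactSpace X] {C : PC X} {m : ℤ} {E : Type} [AddCommGroup E]
  [Module ℚ E]

omit [LocallyCompactSpace X] in
theorem dual_N_of {k : ℤ} {φ : (dual C m E).A} (hφ : φ ∈ (dual C m E).gr k) {U : Set X}
    (hU : IsOpen U) (h : ∀ s ∈ C.GG m (-k) U, φ k s = 0) : φ ∈ (dual C m E).N U :=
  disjoint_right.2 fun x hx hx' => hx' ⟨U, hU.mem_nhds hx, fun j s hs => by
    by_cases hj : j = k
    · subst hj; exact h s hs
    · rw [hφ.1 _ hj]; rfl⟩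

theorem dual_N (hC : C.Fl) (hm : C.Top m) {k : ℤ} {φ : (dual C m E).A}
    (hφ : φ ∈ (dual C m E).gr k) {U : Set X} (h : φ ∈ (dual C m E).N U) :
    ∀ s ∈ C.GG m (-k) U, φ k s = 0 := by
  intro s hs
  have h1 : ∀ x : C.supp s, ∃ V, IsOpen V ∧ x.1 ∈ V ∧ ∀ u ∈ C.GG m (-k) V, φ k u = 0 := fun x => by
    obtain ⟨V, hV, h'⟩ := not_not.1 (disjoint_right.1 h (hs.2.2.1 x.2))
    exact ⟨interior V, isOpen_interior, mem_interior_iff_mem_nhds.2 hV,
      fun u hu => h' k u (PC.GG_mono interior_subset hu)⟩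
  choose V hV hx h1 using h1
  obtain ⟨T, hT⟩ := hs.2.1.elim_finite_subcover V hV fun x h => mem_iUnion.2 ⟨⟨x, h⟩, hx _⟩
  have : C.GG m (-k) ∅ ⊔ ⨆ i ∈ T, C.GG m (-k) (V i) ≤ LinearMap.ker (φ k) :=
    sup_le hφ.2 (iSup₂_le fun i _ => h1 i)
  exact this (PC.GG_biUnion hC hm V hV T ⟨hs.1, hs.2.1, hT, hs.2.2.2⟩)

theorem dual_Fl (hC : C.Fl) (hm : C.Top m) : (dual C m E).Fl := by
  classical
  intro k κ U φ hU hφ hc
  let U' : Option κ → Set X := fun o => o.elim ∅ U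
  have hU' : ∀ o, IsOpen (U' o) := by rintro (_ | i); exacts [isOpen_empty, hU i]
  obtain ⟨ψ, hψ⟩ := lin_glue (fun o => C.GG m (-k) (U' o)) (fun o => o.elim 0 fun i => φ i k)
    (fun T j => by
      rcases T.eq_empty_or_nonempty with rfl | ⟨i0, hi0⟩
      · simp only [Finset.notMem_empty, not_false_eq_true, iSup_neg, iSup_bot, bot_le, inf_of_le_left, Std.le_refl]
      refine (inf_le_inf_right _ (iSup₂_le fun i hi => PC.GG_mono
        (subset_biUnion_of_mem (u := U') (s := (T : Set _)) hi))).trans (PC.GG_inter.trans ?_)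
      rw [iUnion₂_inter]
      refine (PC.GG_biUnion hC hm (fun i => U' i ∩ U' j) (fun i => (hU' i).inter (hU' j)) T).trans
        (sup_le (le_iSup₂_of_le i0 hi0 (le_inf (PC.GG_mono (empty_subset _))
          (PC.GG_mono (empty_subset _)))) (iSup₂_mono fun i _ =>
          le_inf (PC.GG_mono inter_subset_left) (PC.GG_mono inter_subset_right))))
    (by
      rintro (_ | i) (_ | j) s hs
      · rfl
      · exact ((hφ j).2 s hs.1).symm
      · exact (hφ i).2 s hs.2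
      · exact sub_eq_zero.1 (dual_N hC hm (sub_mem (hφ i) (hφ j)) (hc i j) s (PC.GG_inter hs)))
  have hg : (Pi.single k ψ : ℤ → C.A →ₗ[ℚ] E) ∈ (dual C m E).gr k :=
    ⟨fun j hj => Pi.single_eq_of_ne hj _, fun s hs => by
      rw [Pi.single_eq_same]; exact hψ none s hs⟩
  refine ⟨_, hg, fun i => dual_N_of (sub_mem hg (hφ i)) (hU i) fun s hs => ?_⟩
  show (Pi.single k ψ : ℤ → C.A →ₗ[ℚ] E) k s - φ i k s = 0
  rw [Pi.single_eq_same, hψ (some i) s hs]; exact sub_self _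

theorem dual_van (hC : C.Fl) (hm : C.Top m) {k : ℤ} {V V' : Set X} (hV : IsOpen V)
    (hV' : IsOpen V')
    (h : ∀ s ∈ C.GG m (-k) V, C.d s ∈ C.GG m (-k + 1) V' →
      ∃ t ∈ C.GG m (-k - 1) V, s - C.d t ∈ C.GG m (-k) V') :
    (dual C m E).Van k V V' := by
  classical
  intro φ hφ
  obtain ⟨ψ, h1, h2⟩ := lin_fac (C.GG m (-k) V) (C.GG m (-k + 1) V') C.d (φ k) fun s hs hd => by
    obtain ⟨t, ht, hst⟩ := h s hs hd
    have e1 := dual_N hC hm hφ.1 hφ.2.1 _ hst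
    have e2 : φ (k + 1 - 1) (C.d t) = 0 := dual_N hC hm ((dual C m E).d_gr hφ.1) hφ.2.2 t
      (by convert ht using 2; ring)
    rw [add_sub_cancel_right] at e2
    rwa [map_sub, e2, sub_zero] at e1
  have hg : (Pi.single (k - 1) ψ : ℤ → C.A →ₗ[ℚ] E) ∈ (dual C m E).gr (k - 1) :=
    ⟨fun j hj => Pi.single_eq_of_ne hj _, fun s hs => by
      rw [Pi.single_eq_same]
      exact h1 s (PC.GG_mono (empty_subset _) (by convert hs using 2; ring))⟩
  refine ⟨_, hg, dual_N_of hg hV' fun s hs => ?_, dual_N_of (k := k)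
    (sub_mem hφ.1 (by simpa using (dual C m E).d_gr hg)) hV fun s hs => ?_⟩
  · rw [Pi.single_eq_same]; exact h1 s (by convert hs using 2; ring)
  · show φ k s - (Pi.single (k - 1) ψ : ℤ → C.A →ₗ[ℚ] E) (k - 1) (C.d s) = 0
    rw [Pi.single_eq_same, h2 s hs, sub_self]

end

end C73
end
end

section
/-! The cube lemma and compactly supported cohomology of balls. -/

open Set Filter Topology Metric

noncomputable section
namespace C73
variable {X Y : Type} [TopologicalSpace X] [TopologicalSpace Y]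

namespace PC
variable {I : PC X} {k : ℤ} {C C' C'' D D' : Set X}

/-- `H^k(C, C')` is a line spanned by `z` -/
def LineAt (I : PC X) (k : ℤ) (C C' : Set X) (z : I.A) : Prop :=
  I.Zc k C C' z ∧ ¬ I.Bd k C C' z ∧ ∀ s, I.Zc k C C' s → ∃ c : ℚ, I.Bd k C C' (s - c • z)

/-- the cohomology of the pair is a line in degree `k` -/
def Sph (I : PC X) (k : ℤ) (C C' : Set X) : Prop :=
  (∃ z, I.LineAt k C C' z) ∧ ∀ j, j ≠ k → I.Van j C C'

theorem Sph.shift (h1 : C' ⊆ C) (h2 : C'' ⊆ C') (h0 : ∀ j, I.Van j C C'') (h : I.Sph k C' C'') :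
    I.Sph (k + 1) C C' := by
  obtain ⟨⟨z, z1, z2, z3⟩, hv⟩ := h
  refine ⟨⟨I.d z, ⟨I.d_gr z1.1, z1.2.2, N_dd z1.1⟩, fun ⟨t, t1, t2, t3⟩ => z2 ?_, fun s hs => ?_⟩,
    fun j hj => tri2_8 h2 (hv _ (by omega)) (h0 j) h1⟩
  · rw [add_sub_cancel_right] at t1
    have := h0 k (z - t) ⟨sub_mem z1.1 t1, sub_mem z1.2.1 (N_anti_8 h2 t2), by simpa only [map_sub] using t3⟩
    exact (this.mono h1 subset_rfl).of_sub (Bd.of_N t2)
  · obtain ⟨t, t1, t2, t3⟩ := h0 _ s (hs.mono subset_rfl h2)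
    rw [add_sub_cancel_right] at t1
    obtain ⟨c, u, u1, u2, u3⟩ := z3 t ⟨t1, t2, by simpa using sub_mem hs.2.1 (N_anti_8 h1 t3)⟩
    refine ⟨c, t - c • z - I.d u, by
      simpa using sub_mem (sub_mem t1 (Submodule.smul_mem _ c z1.1)) (d_gr' u1), u3, ?_⟩
    have := add_mem t3 (N_dd (C := C) u1)
    convert this using 1
    simp only [map_sub, map_smul]; abel

theorem Sph.of_bij (h1 : D ⊆ C) (h2 : D' ⊆ C') (hb : Bij I I LinearMap.id C C' D D')
    (h : I.Sph k D D') : I.Sph k C C' := by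
  obtain ⟨⟨z, z1, z2, z3⟩, hv⟩ := h
  obtain ⟨w, w1, w2⟩ := (hb k).1 z z1
  refine ⟨⟨w, w1, fun h => z2 (w2.of_sub (h.mono h1 h2)), fun s hs => ?_⟩,
    fun j hj s hs => (hb j).2 s hs (hv j hj s (hs.mono h1 h2))⟩
  obtain ⟨c, hc⟩ := z3 s (hs.mono h1 h2)
  refine ⟨c, (hb k).2 _ (hs.sub (w1.smul c)) ?_⟩
  have := hc.add (w2.smul c)
  simpa [smul_sub] using this

/-- compact pairs with acyclic fibres are acyclic -/
def VBH (I : PC X) : Prop :=
  ∀ C C' : Set X, IsCompact C → IsCompact C' → C' ⊆ C → ∀ π : X → X, Continuous π →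
    (∀ y k, I.Van k (C ∩ π ⁻¹' {y}) (C' ∩ π ⁻¹' {y})) → ∀ k, I.Van k C C'

end PC

section
variable {m : ℕ} {I : PC (Fin m → ℝ)} {n : ℤ} {s0 : I.A}

/-- the part of the boundary of a box in the directions `S` -/
def bdS (S : Finset (Fin m)) (a b : Fin m → ℝ) : Set (Fin m → ℝ) :=
  {x ∈ Icc a b | ∃ i ∈ S, x i = a i ∨ x i = b i}

theorem bdS_closed (S : Finset (Fin m)) (a b : Fin m → ℝ) : IsClosed (bdS S a b) := by
  have : bdS S a b = Icc a b ∩ ⋃ i ∈ S, ({x | x i = a i} ∪ {x | x i = b i}) := by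
    ext x; simp only [bdS, mem_Icc, mem_ofPred_eq, mem_inter_iff, mem_iUnion, mem_union, exists_prop]
  rw [this]
  exact isClosed_Icc.inter (isClosed_biUnion_finset fun i _ =>
    (isClosed_eq (continuous_apply i) continuous_const).union
      (isClosed_eq (continuous_apply i) continuous_const))

theorem cube_aux (hI : I.Fl) (hR : ∀ x, I.ResAt n s0 x) (hVB : I.VBH)
    (hS : ∀ x y k, I.Van k (segment ℝ x y) {x}) (S : Finset (Fin m)) :
    ∀ a b : Fin m → ℝ, (∀ i ∈ S, a i < b i) → (∀ i ∉ S, a i = b i) →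
      I.Sph (S.card - n) (Icc a b) (bdS S a b) := by
  classical
  induction S using Finset.induction_on with
  | empty =>
    intro a b _ h
    obtain rfl : a = b := funext fun i => h i (by simp)
    have : bdS ∅ a a = ∅ := by simp only [bdS, Icc_self, mem_singleton_iff, Finset.notMem_empty, or_self, false_and, exists_false, and_false, ofPred_false]
    rw [this, Icc_self]
    simpa using ⟨⟨s0, (hR a).1, (hR a).2.1, (hR a).2.2.1⟩, (hR a).2.2.2⟩
  | insert i S hi ih =>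
    intro a b h1 h2
    have hab : a i < b i := h1 i (Finset.mem_insert_self _ _)
    have hle : a ≤ b := fun j => by
      by_cases hj : j ∈ insert i S
      exacts [(h1 j hj).le, (h2 j hj).le]
    set a' := Function.update a i (b i) with ha'
    set L : Set (Fin m → ℝ) := {x ∈ Icc a b | x i = a i} ∪ bdS S a b with hL
    have hLc : IsClosed L :=
      (isClosed_Icc.inter (isClosed_eq (continuous_apply i) continuous_const)).union
        (bdS_closed _ _ _)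
    have hLs : L ⊆ Icc a b := union_subset (fun x hx => hx.1) fun x hx => hx.1
    have hT : ∀ x, x ∈ Icc a' b ↔ x ∈ Icc a b ∧ x i = b i := fun x => by
      simp only [mem_Icc, ha', update_le_iff]
      constructor
      · rintro ⟨⟨h3, h4⟩, h5⟩
        refine ⟨⟨fun j => ?_, h5⟩, le_antisymm (h5 i) h3⟩
        by_cases hj : j = i
        · subst hj; exact hab.le.trans h3
        · exact h4 j hj
      · rintro ⟨⟨h3, h4⟩, h5⟩
        exact ⟨⟨h5.ge, fun j _ => h3 j⟩, h4⟩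
    have e1 : bdS S a' b = Icc a' b ∩ L := by
      ext x
      simp only [bdS, hL, mem_inter_iff, mem_union, mem_ofPred_eq, hT]
      have : ∀ j ∈ S, a' j = a j := fun j hj =>
        Function.update_of_ne (by rintro rfl; exact hi hj) _ _
      constructor
      · rintro ⟨h3, j, hj, h4⟩
        exact ⟨h3, Or.inr ⟨h3.1, j, hj, this j hj ▸ h4⟩⟩
      · rintro ⟨h3, h4 | ⟨-, j, hj, h4⟩⟩
        · exact absurd (h4.2.symm.trans h3.2) hab.ne
        · exact ⟨h3, j, hj, (this j hj).symm ▸ h4⟩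
    have e2 : bdS (insert i S) a b = Icc a' b ∪ L := by
      ext x
      simp only [bdS, hL, mem_union, mem_ofPred_eq, hT, Finset.mem_insert, exists_eq_or_imp]
      rw [and_or_left, and_or_left, or_assoc]
      exact or_left_comm
    have ih' := ih a' b (fun j hj => by
      rw [ha', Function.update_of_ne (by rintro rfl; exact hi hj)]
      exact h1 j (Finset.mem_insert_of_mem hj)) (fun j hj => by
      by_cases hji : j = i
      · subst hji; simp [ha']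
      · rw [ha', Function.update_of_ne hji]; exact h2 j (by simp [hj, hji]))
    rw [e1] at ih'
    have h3 := PC.Sph.of_bij subset_union_left inter_subset_right
      (hI.gl_closed isClosed_Icc hLc).exc_bij ih'
    rw [← e2] at h3
    have h4 := PC.Sph.shift (C := Icc a b) (fun x hx => hx.1) (e2 ▸ subset_union_right) ?_ h3
    · rw [Finset.card_insert_of_notMem hi]
      convert h4 using 1; push_cast; ring
    refine hVB _ _ isCompact_Icc (isCompact_Icc.of_isClosed_subset hLc hLs) hLs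
      (fun x => Function.update x i (a i)) (by fun_prop) fun y k => ?_
    rcases (Icc a b ∩ (fun x => Function.update x i (a i)) ⁻¹' {y}).eq_empty_or_nonempty with
      h5 | ⟨x, hx, rfl⟩
    · rw [h5]; exact fun s _ => PC.Bd.of_N (PC.N_empty_8 s)
    have hfib : ∀ z : Fin m → ℝ, Function.update z i (a i) = Function.update x i (a i) ↔
        ∀ j, j ≠ i → z j = x j := fun z =>
      ⟨fun h j hj => by simpa [Function.update_of_ne hj] using congrFun h j, fun h => funext fun j => by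
        by_cases hj : j = i
        · subst hj; simp
        · simp [Function.update_of_ne hj, h j hj]⟩
    by_cases hb : x ∈ bdS S a b
    · have : L ∩ (fun z => Function.update z i (a i)) ⁻¹' {Function.update x i (a i)} =
          Icc a b ∩ (fun z => Function.update z i (a i)) ⁻¹' {Function.update x i (a i)} := by
        refine (inter_subset_inter_left _ hLs).antisymm fun z hz => ⟨Or.inr ⟨hz.1, ?_⟩, hz.2⟩
        obtain ⟨-, j, hj, h6⟩ := hb
        exact ⟨j, hj, by rwa [(hfib z).1 hz.2 j (by rintro rfl; exact hi hj)]⟩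
      rw [this]; exact PC.van_self_8
    · have e3 : L ∩ (fun z => Function.update z i (a i)) ⁻¹' {Function.update x i (a i)} =
          {Function.update x i (a i)} := by
        refine Subset.antisymm ?_ (singleton_subset_iff.2 ⟨Or.inl ⟨⟨?_, ?_⟩, by simp⟩, by simp⟩)
        · rintro z ⟨h6 | ⟨-, j, hj, h6⟩, h7⟩
          · exact (by rw [← h6.2, Function.update_eq_self] : z = Function.update z i (a i)).trans h7
          · exact absurd ⟨hx, j, hj, by
              rwa [← (hfib z).1 h7 j (by rintro rfl; exact hi hj)]⟩ hb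
        · exact le_update_iff.2 ⟨le_rfl, fun j _ => hx.1 j⟩
        · exact update_le_iff.2 ⟨hab.le, fun j _ => hx.2 j⟩
      have e4 : Icc a b ∩ (fun z => Function.update z i (a i)) ⁻¹' {Function.update x i (a i)} =
          segment ℝ (Function.update x i (a i)) (Function.update x i (b i)) := by
        rw [← Pi.image_update_segment, segment_eq_Icc hab.le]
        ext z
        constructor
        · rintro ⟨h6, h7⟩
          exact ⟨z i, ⟨h6.1 i, h6.2 i⟩, funext fun j => by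
            by_cases hj : j = i
            · subst hj; simp
            · simp [Function.update_of_ne hj, (hfib z).1 h7 j hj]⟩
        · rintro ⟨t, ht, rfl⟩
          exact ⟨⟨le_update_iff.2 ⟨ht.1, fun j _ => hx.1 j⟩,
            update_le_iff.2 ⟨ht.2, fun j _ => hx.2 j⟩⟩, by simp⟩
      rw [e3, e4]; exact hS _ _ k

theorem sph_ball (hI : I.Fl) (hR : ∀ x, I.ResAt n s0 x) (hVB : I.VBH)
    (hS : ∀ x y k, I.Van k (segment ℝ x y) {x}) (x : Fin m → ℝ) {r : ℝ} (hr : 0 < r) :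
    I.Sph (m - n) univ (ball x r)ᶜ := by
  have h := cube_aux hI hR hVB hS Finset.univ (fun i => x i - r) (fun i => x i + r)
    (fun i _ => by linarith) (by simp only [Finset.mem_univ, not_true_eq_false, IsEmpty.forall_iff, implies_true])
  have e1 : Icc (fun i => x i - r) (fun i => x i + r) = closedBall x r := by
    ext y; simp only [mem_Icc, Pi.le_def, tsub_le_iff_right, closedBall_pi _ hr.le, Real.closedBall_eq_Icc, pi_univ_Icc]
  have e2 : bdS Finset.univ (fun i => x i - r) (fun i => x i + r) =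
      closedBall x r ∩ (ball x r)ᶜ := by
    ext y
    simp only [bdS, e1, mem_ofPred_eq, mem_inter_iff, and_congr_right_iff, ball_pi _ hr,
      closedBall_pi _ hr.le, Real.closedBall_eq_Icc, Real.ball_eq_Ioo, mem_compl_iff, Set.mem_pi,
      mem_univ, forall_true_left, Finset.mem_univ, true_and, not_forall, mem_Icc, mem_Ioo]
    refine fun h => exists_congr fun i => ?_
    have := h i
    constructor
    · rintro (h' | h') ⟨h1, h2⟩ <;> linarith only [h', h1, h2]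
    · intro h'
      by_contra h''
      push Not at h''
      exact h' ⟨lt_of_le_of_ne this.1 (Ne.symm h''.1), lt_of_le_of_ne this.2 h''.2⟩
  rw [e1, e2, Finset.card_univ, Fintype.card_fin] at h
  have h3 := PC.Sph.of_bij subset_union_left inter_subset_right
    (hI.gl_closed isClosed_closedBall isOpen_ball.isClosed_compl).exc_bij h
  rwa [show closedBall x r ∪ (ball x r)ᶜ = univ from
    eq_univ_of_forall fun y => (em (y ∈ ball x r)).imp_left fun h => ball_subset_closedBall h] at h3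

theorem van_shell (hI : I.Fl) (hVB : I.VBH)
    (hS : ∀ x y k, I.Van k (segment ℝ x y) {x}) (x : Fin m → ℝ) {r R : ℝ} (hr : 0 < r)
    (hR : r ≤ R) (k : ℤ) : I.Van k (ball x r)ᶜ (ball x R)ᶜ := by
  have hc : IsClosed (closedBall x R ∩ (ball x r)ᶜ) :=
    isClosed_closedBall.inter isOpen_ball.isClosed_compl
  have hK : IsCompact (closedBall x R ∩ (ball x r)ᶜ) :=
    (isCompact_closedBall x R).inter_right isOpen_ball.isClosed_compl
  have e : (ball x r)ᶜ = closedBall x R ∩ (ball x r)ᶜ ∪ (ball x R)ᶜ := by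
    refine Subset.antisymm (fun y hy => ?_)
      (union_subset inter_subset_right (compl_subset_compl.2 (ball_subset_ball hR)))
    exact (em (y ∈ ball x R)).imp_left fun h => ⟨ball_subset_closedBall h, hy⟩
  rw [e, (hI.gl_closed hc isOpen_ball.isClosed_compl).exc]
  refine hVB _ _ hK (hK.inter_right isOpen_ball.isClosed_compl) inter_subset_left
    (fun y => (max ‖y - x‖ r)⁻¹ • (y - x)) (Continuous.smul (Continuous.inv₀ (by fun_prop)
      fun y => (hr.trans_le (le_max_right _ _)).ne') (by fun_prop)) (fun v k => ?_) k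
  rcases ((closedBall x R ∩ (ball x r)ᶜ) ∩
    (fun y => (max ‖y - x‖ r)⁻¹ • (y - x)) ⁻¹' {v}).eq_empty_or_nonempty with h5 | ⟨y, hy, hv⟩
  · rw [h5]; exact fun s _ => PC.Bd.of_N (PC.N_empty_8 s)
  have key : ∀ z, z ∈ (closedBall x R ∩ (ball x r)ᶜ) → (max ‖z - x‖ r)⁻¹ • (z - x) = v →
      ‖z - x‖ ∈ Icc r R ∧ z = x + ‖z - x‖ • v ∧ ‖v‖ = 1 := fun z hz h => by
    have h1 : r ≤ ‖z - x‖ := by simpa [dist_eq_norm] using hz.2
    have h2 : ‖z - x‖ ≠ 0 := (hr.trans_le h1).ne'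
    rw [max_eq_left h1] at h
    refine ⟨⟨h1, by simpa [dist_eq_norm] using hz.1⟩, by
      rw [← h, smul_smul, mul_inv_cancel₀ h2]; simp, by
      rw [← h, norm_smul, norm_inv, norm_norm, inv_mul_cancel₀ h2]⟩
  have hv1 := (key y hy hv).2.2
  have key2 : ∀ t ∈ Icc r R, x + t • v ∈ (closedBall x R ∩ (ball x r)ᶜ) ∩
      (fun y => (max ‖y - x‖ r)⁻¹ • (y - x)) ⁻¹' {v} := fun t ht => by
    have h0 : 0 < t := hr.trans_le ht.1
    have h1 : ‖t • v‖ = t := by rw [norm_smul, hv1, mul_one, Real.norm_of_nonneg h0.le]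
    refine ⟨⟨by simpa [dist_eq_norm, h1] using ht.2, by simpa [dist_eq_norm, h1] using ht.1⟩, ?_⟩
    simp only [mem_preimage, add_sub_cancel_left, h1, max_eq_left ht.1, smul_smul, inv_mul_cancel₀ h0.ne', one_smul, mem_singleton_iff]
  have e3 : (closedBall x R ∩ (ball x r)ᶜ ∩ (ball x R)ᶜ) ∩
      (fun y => (max ‖y - x‖ r)⁻¹ • (y - x)) ⁻¹' {v} = {x + R • v} := by
    refine Subset.antisymm (fun z hz => ?_) (singleton_subset_iff.2
      ⟨⟨(key2 R ⟨hR, le_rfl⟩).1, ?_⟩, (key2 R ⟨hR, le_rfl⟩).2⟩)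
    · obtain ⟨h1, h2, -⟩ := key z hz.1.1 hz.2
      have : R ≤ ‖z - x‖ := by simpa [dist_eq_norm] using hz.1.2
      rw [le_antisymm h1.2 this] at h2; exact h2
    · simp [dist_eq_norm, norm_smul, hv1, le_abs_self]
  have e4 : (closedBall x R ∩ (ball x r)ᶜ) ∩ (fun y => (max ‖y - x‖ r)⁻¹ • (y - x)) ⁻¹' {v} =
      segment ℝ (x + R • v) (x + r • v) := by
    have : segment ℝ (x + R • v) (x + r • v) = (fun t : ℝ => x + t • v) '' Icc r R := by
      rw [← segment_eq_Icc hR, segment_symm ℝ r R]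
      simpa only [AffineMap.lineMap_apply, vsub_eq_sub, add_sub_cancel_left, vadd_eq_add, add_comm] using
        (image_segment ℝ (AffineMap.lineMap x (x + v)) R r).symm
    rw [this]
    refine Subset.antisymm (fun z hz => ?_) (image_subset_iff.2 key2)
    obtain ⟨h1, h2, -⟩ := key z hz.1 hz.2
    exact ⟨_, h1, h2.symm⟩
  rw [e3, e4]; exact hS _ _ k

end

end C73
end
end

section
/-! Duality on `ℝ^m` and semi-purity. -/

open Set Filter Topology Metric

noncomputable section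
namespace C73
variable {X Y : Type} [TopologicalSpace X] [TopologicalSpace Y]

namespace PC
variable {I : PC X} {k : ℤ}

/-- vanishing above `N + e` on compact pairs of dimension `≤ e` -/
def DIMH (I : PC X) (N : ℤ) : Prop :=
  ∀ C C' : Set X, IsCompact C → IsCompact C' → C' ⊆ C → ∀ e, FTO C e → ∀ k, N + e < k →
    I.Van k C C'

theorem cpt_van [T2Space X] [LocallyCompactSpace X] (hI : I.Fl) {V Z : Set X} (hV : IsOpen V)
    (hZ : IsOpen (V \ Z)) (h : ∀ L L' : Set X, IsCompact L → IsCompact L' → L' ⊆ L → L ⊆ Z ∩ V →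
      I.Van k L L') {s : I.A} (hs : s ∈ I.gr k) (hc : IsCompact (I.supp s)) (hsV : I.supp s ⊆ V)
    (hd : I.d s ∈ I.N Z) :
    ∃ t ∈ I.gr (k - 1), IsCompact (I.supp t) ∧ I.supp t ⊆ V ∧ s - I.d t ∈ I.N Z := by
  obtain ⟨L, hL, h1, h2⟩ := exists_compact_between hc hV hsV
  have hL1 : IsCompact (L \ (V \ Z)) := hL.diff hZ
  have hsub : L \ (V \ Z) ⊆ Z ∩ V := fun x hx =>
    ⟨by_contra fun h => hx.2 ⟨h2 hx.1, h⟩, h2 hx.1⟩
  obtain ⟨t, t1, t2, t3⟩ := h _ _ hL1 (hL1.diff isOpen_interior) sdiff_subset hsub s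
    ⟨hs, mem_N'.2 fun x hx hx' => hx.2 (h1 hx'), N_anti_8 (hsub.trans inter_subset_left) hd⟩
  obtain ⟨u, u1, u2, u3⟩ := hI.cut t1 isOpen_interior hL.isClosed interior_subset
  refine ⟨u, u1, hL.of_isClosed_subset (I.closed _) (u2.trans inter_subset_right),
    u2.trans (inter_subset_right.trans h2), mem_N'.2 fun x hx => mem_N_pt.1 ?_⟩
  by_cases hx1 : x ∈ interior L
  · refine N_trans (N_anti_8 (singleton_subset_iff.2
      (show x ∈ L \ (V \ Z) from ⟨interior_subset hx1, fun h => h.2 hx⟩)) t3)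
      (N_dsub t1 u1 (mem_N_pt.2 fun h => (u3 h).2 hx1))
  · refine sub_mem (mem_N_pt.2 fun h => hx1 (h1 h)) (N_d u1 (mem_N_pt.2 fun h => ?_))
    exact mem_N'.1 t2 x ⟨⟨(u2 h).2, fun h => h.2 hx⟩, hx1⟩ (u2 h).1

end PC

theorem FTO.mono_8 {S S' : Set X} {e : ℤ} (h : FTO S e) (h' : S' ⊆ S) : FTO S' e := by
  rcases h with rfl | ⟨m, hm, π, h1, h2⟩
  · exact Or.inl (subset_eq_empty h' rfl)
  · exact Or.inr ⟨m, hm, π, h1.mono h', fun y => (h2 y).subset (inter_subset_inter_left _ h')⟩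

theorem fto_self {m : ℕ} (S : Set (Fin m → ℝ)) : FTO S m :=
  Or.inr ⟨m, le_rfl, id, continuousOn_id, fun y => (finite_singleton y).subset inter_subset_right⟩

section
variable {m : ℕ} {I : PC (Fin m → ℝ)} {n : ℤ} {s0 : I.A}

theorem top_of_dim (hI : I.Fl) (hD : I.DIMH (-n)) : I.Top (m - n) := by
  intro V hV s hs
  obtain ⟨t, t1, t2, t3, t4⟩ := PC.cpt_van hI hV (Z := univ) (by simp)
    (fun L L' h1 h2 h3 _ => hD L L' h1 h2 h3 m (fto_self _) (m - n + 1) (by omega)) hs.1 hs.2.1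
    hs.2.2.1 (PC.N_of_empty_8 hs.2.2.2)
  exact ⟨t, t1, t2, t3, disjoint_univ.1 t4⟩

theorem N_ball {x : Fin m → ℝ} {r : ℝ} {s : I.A} :
    s ∈ I.N (ball x r)ᶜ ↔ IsCompact (I.supp s) ∧ I.supp s ⊆ ball x r :=
  ⟨fun h => ⟨(isCompact_closedBall x r).of_isClosed_subset (I.closed _)
    ((disjoint_compl_right_iff_subset.1 h).trans ball_subset_closedBall),
    disjoint_compl_right_iff_subset.1 h⟩, fun h => disjoint_compl_right_iff_subset.2 h.2⟩

/-- the trace on compactly supported top cohomology of `ℝ^m` -/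
theorem exists_trace_8 (hB : ∀ (x : Fin m → ℝ) r, 0 < r → I.Sph (m - n) univ (ball x r)ᶜ)
    (hS : ∀ (x : Fin m → ℝ) r R, 0 < r → r ≤ R → ∀ k, I.Van k (ball x r)ᶜ (ball x R)ᶜ) :
    ∃ tr : I.A →ₗ[ℚ] ℚ, (∀ s ∈ I.gr (m - n), I.Bdc (m - n) univ s → tr s = 0) ∧
      ∀ (x : Fin m → ℝ) r, 0 < r → ∃ z, I.LineAt (m - n) univ (ball x r)ᶜ z ∧ tr z = 1 := by
  have hinj : ∀ (x : Fin m → ℝ) r, 0 < r → ∀ z, I.Zc (m - n) univ (ball x r)ᶜ z →
      I.Bdc (m - n) univ z → I.Bd (m - n) univ (ball x r)ᶜ z := by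
    rintro x r hr z hz ⟨t, t1, t2, -, t4⟩
    obtain ⟨R, hR, h1⟩ := t2.isBounded.subset_ball_lt r x
    obtain ⟨u, u1, u2, u3⟩ := hS x r R hr hR.le _ t ⟨t1, N_ball.2 ⟨t2, h1⟩, by
      simpa using sub_mem hz.2.1 (PC.N_of_empty_8 (C := (ball x r)ᶜ) t4)⟩
    refine ⟨t - I.d u, sub_mem t1 (PC.d_gr' u1), u3, ?_⟩
    rw [map_sub, ← sub_add]
    exact add_mem (PC.N_of_empty_8 t4) (PC.N_dd u1)
  have hbd : ∀ (x : Fin m → ℝ) r s, I.Bd (m - n) univ (ball x r)ᶜ s → I.Bdc (m - n) univ s :=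
    fun x r s ⟨t, t1, t2, t3⟩ => ⟨t, t1, (N_ball.1 t2).1, subset_univ _, disjoint_univ.1 t3⟩
  let Q : Submodule ℚ I.A := (I.GG (m - n) (m - n - 1) univ).map I.d ⊔ I.GG (m - n) (m - n) ∅
  have hQ : ∀ s ∈ I.gr (m - n), (s ∈ Q ↔ I.Bdc (m - n) univ s) := fun s hs => by
    constructor
    · intro h
      obtain ⟨_, ⟨t, ht, rfl⟩, u, hu, rfl⟩ := Submodule.mem_sup.1 h
      exact ⟨t, ht.1, ht.2.1, subset_univ _, by simpa using hu.2.2.1⟩
    · rintro ⟨t, t1, t2, t3, t4⟩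
      exact Submodule.mem_sup.2 ⟨_, ⟨t, ⟨t1, t2, t3, fun h => by omega, fun h => by omega⟩, rfl⟩,
        s - I.d t, PC.GG_null (sub_mem hs (PC.d_gr' t1)) t4, by abel⟩
  obtain ⟨⟨z, z1, z2, z3⟩, -⟩ := hB 0 1 one_pos
  obtain ⟨tr, h1, h2⟩ := lin_fac ⊤ Q (LinearMap.toSpanSingleton ℚ I.A z) LinearMap.id
    fun c _ hc => by_contra fun h0 => z2 (hinj _ _ one_pos z z1 ((hQ z z1.1).1 (by
      have := Q.smul_mem c⁻¹ hc
      rwa [LinearMap.toSpanSingleton_apply, smul_smul, inv_mul_cancel₀ (show c ≠ 0 from h0), one_smul] at this)))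
  have h3 : tr z = 1 := by simpa only [LinearMap.toSpanSingleton_apply, one_smul, LinearMap.id_coe, id_eq] using h2 1 trivial
  refine ⟨tr, fun s hs h => h1 s ((hQ s hs).2 h), fun x r hr => ?_⟩
  obtain ⟨⟨w, w1, w2, w3⟩, -⟩ := hB x r hr
  have h4 : tr w ≠ 0 := fun h0 => by
    obtain ⟨R, hR, h5⟩ := (N_ball.1 w1.2.1).1.isBounded.subset_ball_lt 1 0
    obtain ⟨t, t1, t2, t3⟩ := hS 0 1 R one_pos hR.le _ w ⟨w1.1, N_ball.2 ⟨(N_ball.1 w1.2.1).1, h5⟩,
      PC.N_anti_8 (subset_univ _) w1.2.2⟩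
    obtain ⟨c, hc⟩ := z3 (w - I.d t) ⟨sub_mem w1.1 (PC.d_gr' t1), t3, by
      rw [map_sub]; exact sub_mem w1.2.2 (PC.N_dd t1)⟩
    have q1 : w - I.d t - c • z ∈ Q := (hQ _ (sub_mem (sub_mem w1.1 (PC.d_gr' t1))
      (Submodule.smul_mem _ _ z1.1))).2 (hbd _ _ _ hc)
    have q2 : I.d t ∈ Q := (hQ _ (PC.d_gr' t1)).2 (hbd _ _ _ (PC.Bd.d t1 t2))
    have e := h1 _ q1
    rw [map_sub, map_sub, h0, h1 _ q2, map_smul, h3] at e
    obtain rfl : c = 0 := by simpa using e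
    exact w2 (hinj x r hr w w1 ((hQ w w1.1).1 (by simpa using add_mem q1 q2)))
  refine ⟨(tr w)⁻¹ • w, ⟨w1.smul _, fun h => w2 (by
    simpa only [smul_smul, mul_inv_cancel₀ h4, one_smul] using h.smul (tr w)), fun s hs => ?_⟩, by
    simp [inv_mul_cancel₀ h4]⟩
  obtain ⟨c, hc⟩ := w3 s hs
  exact ⟨c * tr w, by rwa [smul_smul, mul_assoc, mul_inv_cancel₀ h4, mul_one]⟩

variable (E : Type) [AddCommGroup E] [Module ℚ E]

theorem cst_supp {a : ℤ} (e : (cstPC X E a).A) {x : X} :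
    x ∈ (cstPC X E a).supp e ↔ e ≠ 0 := by
  classical
  show x ∈ (if (show E from e) = 0 then ∅ else univ : Set X) ↔ _
  split_ifs with h
  · exact iff_of_false (notMem_empty _) (not_not.2 h)
  · exact iff_of_true trivial h

theorem cst_gr {a k : ℤ} {e : (cstPC X E a).A} (h : e ∈ (cstPC X E a).gr k) :
    k = -a ∨ e = 0 := by
  classical
  by_cases hk : k = -a
  · exact Or.inl hk
  · right
    have : e ∈ (if k = -a then ⊤ else ⊥ : Submodule ℚ E) := h
    rwa [if_neg hk] at this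

theorem cst_gr_top {a : ℤ} (e : (cstPC X E a).A) : e ∈ (cstPC X E a).gr (-a) := by
  classical
  show e ∈ (if -a = -a then ⊤ else ⊥ : Submodule ℚ E)
  rw [if_pos rfl]; trivial

/-- the dual complex resolves the constant sheaf -/
theorem dual_res (hI : I.Fl) (hT : I.Top (m - n))
    (hB : ∀ (x : Fin m → ℝ) r, 0 < r → I.Sph (m - n) univ (ball x r)ᶜ)
    (hS : ∀ (x : Fin m → ℝ) r R, 0 < r → r ≤ R → ∀ k, I.Van k (ball x r)ᶜ (ball x R)ᶜ) :
    ∃ φ : Hom id (cstPC (Fin m → ℝ) E (m - n)) (dual I (m - n) E), φ.Cart := by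
  classical
  obtain ⟨tr, h1, h2⟩ := exists_trace_8 hB hS
  set M : ℤ := m - n with hM
  obtain ⟨f, f1, f2⟩ : ∃ f : (cstPC (Fin m → ℝ) E M).A →ₗ[ℚ] (dual I M E).A,
      (∀ (e : E) s, f e (-M) s = tr s • e) ∧ ∀ e j, j ≠ -M → f e j = 0 := by
    let f : E →ₗ[ℚ] (ℤ → I.A →ₗ[ℚ] E) := LinearMap.single ℚ (fun _ => I.A →ₗ[ℚ] E) (-M) ∘ₗ
      LinearMap.smulRightₗ tr
    have f1 : ∀ e s, f e (-M) s = tr s • e := fun e s => by simp [f]
    have f2 : ∀ e j, j ≠ -M → f e j = 0 := fun e j hj => by simp [f, Pi.single_eq_of_ne hj]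
    exact ⟨f, f1, f2⟩
  have f3 : ∀ e, f e ∈ (dual I M E).gr (-M) := fun e => ⟨f2 e, fun s hs => by
    rw [neg_neg] at hs
    rw [f1, h1 s hs.1 ⟨0, zero_mem _, by simp [I.supp_zero], subset_univ _, by
      simpa using hs.2.2.1⟩, zero_smul]⟩
  have f4 : ∀ e, (dual I M E).d (f e) ∈ (dual I M E).N univ := fun e =>
    dual_N_of ((dual I M E).d_gr (f3 e)) isOpen_univ fun s hs => by
      show f e (-M + 1 - 1) (I.d s) = 0
      have hs1 : s ∈ I.gr (M - 1) := by convert hs.1 using 2; ring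
      rw [add_sub_cancel_right, f1, h1 _ (PC.d_gr' hs1) ⟨s, hs1, hs.2.1, subset_univ _, by
        simp [I.supp_zero]⟩, zero_smul]
  have hg : ∀ {k e}, e ∈ (cstPC (Fin m → ℝ) E M).gr k → f e ∈ (dual I M E).gr k := by
    intro k e he
    rcases cst_gr E he with rfl | rfl
    · exact f3 e
    · rw [map_zero]; exact zero_mem _
  refine ⟨⟨f, hg, fun {k e} _ x hx => (cst_supp E e).2 ?_, fun {k e} _ => ?_⟩, fun x k => ?_⟩
  · rintro rfl
    rw [map_zero, PC.supp_zero] at hx; exact hx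
  · show (dual I M E).supp (f 0 - (dual I M E).d (f e)) = ∅
    rw [map_zero, zero_sub]
    exact disjoint_univ.1 (neg_mem (f4 e) : _ ∈ (dual I M E).N univ)
  have hball : ∀ φ : (dual I M E).A, φ ∈ (dual I M E).N {x} → ∃ r > 0,
      φ ∈ (dual I M E).N (ball x r) := fun φ hφ => by
    obtain ⟨r, hr, h⟩ := Metric.isOpen_iff.1 ((dual I M E).closed φ).isOpen_compl x
      (PC.mem_N_pt.1 hφ)
    exact ⟨r, hr, PC.mem_N'.2 h⟩
  refine ⟨fun φ hφ => ?_, fun e he hb => ?_⟩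
  · obtain ⟨r, hr, h⟩ := hball _ hφ.2.2
    have hx : {x} ⊆ ball x r := singleton_subset_iff.2 (mem_ball_self hr)
    by_cases hk : k = -M
    · subst hk
      obtain ⟨z, ⟨z1, -, z3⟩, z4⟩ := h2 x r hr
      refine ⟨φ (-M) z, ⟨cst_gr_top E _, PC.N_empty_8 _, zero_mem _⟩, PC.Bd.of_N (PC.N_anti_8 hx
        (dual_N_of (sub_mem hφ.1 (f3 _)) isOpen_ball fun s hs => ?_))⟩
      rw [neg_neg] at hs
      obtain ⟨c, t, t1, t2, t3⟩ := z3 s ⟨hs.1, N_ball.2 ⟨hs.2.1, hs.2.2.1⟩,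
        PC.N_of_empty_8 (hs.2.2.2.1 le_rfl)⟩
      have g1 : s - c • z ∈ I.gr M := sub_mem hs.1 (Submodule.smul_mem _ _ z1.1)
      have e1 := h1 _ g1 ⟨t, t1, (N_ball.1 t2).1, subset_univ _, disjoint_univ.1 t3⟩
      have e2 := hφ.1.2 (s - c • z - I.d t) (by
        rw [neg_neg]; exact PC.GG_null (sub_mem g1 (PC.d_gr' t1)) (disjoint_univ.1 t3))
      have e3 : φ (-M + 1 - 1) (I.d t) = 0 := dual_N hI hT ((dual I M E).d_gr hφ.1) h t
        ⟨by convert t1 using 2; ring, (N_ball.1 t2).1, (N_ball.1 t2).2, fun h => by omega,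
          fun h => by omega⟩
      rw [add_sub_cancel_right] at e3
      rw [map_sub, map_smul, z4, smul_eq_mul, mul_one, sub_eq_zero] at e1
      rw [map_sub, e3, sub_zero, map_sub, map_smul] at e2
      show φ (-M) s - f (φ (-M) z) (-M) s = 0
      rw [f1, e1, e2]
    · refine ⟨0, PC.Zc.zero, ?_⟩
      rw [map_zero, sub_zero]
      refine (dual_van hI hT isOpen_ball isOpen_empty (fun s hs hd => ?_) φ
        ⟨hφ.1, hφ.2.1, h⟩).mono hx subset_rfl
      rcases lt_or_gt_of_ne hk with hk' | hk'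
      · exact ⟨0, zero_mem _, by simpa only [map_zero, sub_zero] using PC.GG_null hs.1 (hs.2.2.2.2 (by omega))⟩
      obtain ⟨t, t1, t2, t3⟩ := (hB x r hr).2 (-k) (by omega) s ⟨hs.1, N_ball.2 ⟨hs.2.1, hs.2.2.1⟩,
        PC.N_of_empty_8 (subset_eq_empty hd.2.2.1 rfl)⟩
      exact ⟨t, ⟨t1, (N_ball.1 t2).1, (N_ball.1 t2).2, fun h => by omega, fun h => by omega⟩,
        PC.GG_null (sub_mem hs.1 (PC.d_gr' t1)) (disjoint_univ.1 t3)⟩
  · rcases cst_gr E he.1 with rfl | rfl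
    swap
    · exact PC.Bd.zero
    obtain ⟨ψ, p1, -, p3⟩ := hb
    obtain ⟨r, hr, h⟩ := hball _ p3
    obtain ⟨z, ⟨z1, -, -⟩, z4⟩ := h2 x r hr
    have e1 : f e (-M) z - ψ (-M - 1) (I.d z) = 0 :=
      dual_N hI hT (sub_mem (f3 e) (PC.d_gr' p1)) h z ⟨by simpa using z1.1, (N_ball.1 z1.2.1).1,
        (N_ball.1 z1.2.1).2, fun _ => disjoint_univ.1 z1.2.2, fun h => by omega⟩
    rw [p1.2 _ (PC.GG_null (by convert I.d_gr z1.1 using 2; ring) (disjoint_univ.1 z1.2.2)),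
      f1, z4, one_smul, sub_zero] at e1
    rw [e1]; exact PC.Bd.zero

theorem dual_sp (hI : I.Fl) (hT : I.Top (m - n)) (hD : I.DIMH (-n)) {V Z : Set (Fin m → ℝ)}
    (hV : IsOpen V) (hZ : IsOpen (V \ Z)) {e : ℤ} (he : FTO (Z ∩ V) e) {k : ℤ} (hk : k < n - e) :
    (dual I (m - n) E).Van k V (V \ Z) := by
  refine dual_van hI hT hV hZ fun s hs hd => ?_
  rcases lt_or_ge (m - n) (-k) with h0 | h0
  · exact ⟨0, zero_mem _, by
      simpa using PC.GG_mono (empty_subset _) (PC.GG_null hs.1 (hs.2.2.2.2 h0))⟩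
  obtain ⟨t, t1, t2, t3, t4⟩ := PC.cpt_van hI hV hZ
    (fun L L' h1 h2 h3 h4 => hD L L' h1 h2 h3 e (he.mono_8 h4) (-k) (by omega)) hs.1 hs.2.1 hs.2.2.1
    (PC.mem_N'.2 fun x hx hx' => (hd.2.2.1 hx').2 hx)
  have hsup : I.supp (s - I.d t) ⊆ I.supp s ∪ I.supp t :=
    (I.supp_sub _ _).trans (union_subset_union_right _ (I.supp_d t1))
  refine ⟨t, ⟨t1, t2, t3, fun h => by omega, fun h => by omega⟩, sub_mem hs.1 (PC.d_gr' t1),
    (hs.2.1.union t2).of_isClosed_subset (I.closed _) hsup,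
    fun x hx => ⟨union_subset hs.2.2.1 t3 (hsup hx), fun h => PC.mem_N'.1 t4 x h hx⟩,
    fun h => ?_, fun h => by omega⟩
  rw [map_sub]
  exact subset_eq_empty (I.supp_sub _ _) (by rw [hs.2.2.2.1 h, I.supp_dd t1, union_empty])

end

end C73
end
end

section
/-! Constancy along arcs, semi-purity. -/

open Set Filter Topology Metric TopologicalSpace

noncomputable section
namespace C73
variable {X Y : Type} [TopologicalSpace X] [TopologicalSpace Y]
open PC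

theorem Bd.near {I : PC X} {k : ℤ} {x : X} {s : I.A} (h : I.Bd k {x} ∅ s) :
    ∀ᶠ y in 𝓝 x, I.Bd k {y} ∅ s := by
  obtain ⟨t, t1, t2, t3⟩ := h
  exact Eventually.mono ((I.closed _).isOpen_compl.mem_nhds (mem_N_pt.1 t3)) fun y hy =>
    ⟨t, t1, t2, mem_N_pt.2 hy⟩

/-- CONST: a cartesian complex is constant along arcs in the fibres -/
theorem const_arc_8 [MetrizableSpace Y] {p : Y → X} {I : PC X} {J : PC Y} (hJ : J.Fl) (φ : Hom p I J)
    {C : Set Y} (hC : IsCompact C) (hc : IsPreconnected C) {π : Y → ℝ} (hπ : ContinuousOn π C)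
    (hi : InjOn π C) {x0 : X} (hp : ∀ y ∈ C, p y = x0) (h : ∀ y ∈ C, φ.CartAt y) {y : Y}
    (hy : y ∈ C) (k : ℤ) : J.Van k C {y} := by
  have sur : ∀ k, ∀ z ∈ C, ∀ s, J.Zc k {z} ∅ s →
      ∃ a, I.Zc k {x0} ∅ a ∧ J.Zc k C ∅ (φ.f a) ∧ J.Bd k {z} ∅ (s - φ.f a) := fun k z hz s hs => by
    obtain ⟨a, a1, a2⟩ := (h z hz k).1 s hs
    rw [hp z hz] at a1
    exact ⟨a, a1, φ.map_zc_8 a1 hp (mapsTo_empty _ _), a2⟩
  refine van_of (singleton_subset_iff.2 hy) (fun s hs => ?_) fun s hs hb => ?_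
  · obtain ⟨a, -, a2, a3⟩ := sur _ y hy s hs
    exact ⟨_, a2, a3⟩
  have key : ∀ z ∈ C, J.Bd k {z} ∅ s := fun z hz =>
    hc.induction₂' (fun a b => J.Bd k {a} ∅ s → J.Bd k {b} ∅ s) (fun x hx => by
      obtain ⟨a, a1, -, a3⟩ := sur k x hx s (hs.mono (singleton_subset_iff.2 hx) subset_rfl)
      have e : ∀ z ∈ C, J.Bd k {z} ∅ (φ.f a) ↔ I.Bd k {x0} ∅ a := fun z hz =>
        ⟨fun h' => hp z hz ▸ (h z hz k).2 a (by rwa [hp z hz]) h', fun h' =>
          φ.map_bd_8 a1.1 h' (fun _ h => by rw [h]; exact hp z hz) (mapsTo_empty _ _)⟩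
      have e' : ∀ z ∈ C, J.Bd k {z} ∅ (s - φ.f a) → (J.Bd k {z} ∅ s ↔ I.Bd k {x0} ∅ a) :=
        fun z hz h' => ⟨fun h'' => (e z hz).1 (by simpa using h''.sub h'),
          fun h'' => h'.of_sub ((e z hz).2 h'')⟩
      filter_upwards [mem_nhdsWithin_of_mem_nhds (Bd.near a3), self_mem_nhdsWithin] with z h1 h2
      rw [e' x hx a3, e' z h2 h1]
      exact ⟨id, id⟩) (fun _ _ _ _ _ _ a b => b ∘ a) hy hz hb
  have fib : ∀ t, C ∩ π ⁻¹' {t} = ∅ ∨ ∃ z ∈ C, C ∩ π ⁻¹' {t} = {z} := fun t =>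
    (C ∩ π ⁻¹' {t}).eq_empty_or_nonempty.imp_right fun ⟨z, hz⟩ => ⟨z, hz.1,
      eq_singleton_iff_unique_mem.2 ⟨hz, fun w hw => hi hw.1 hz.1 (hw.2.trans hz.2.symm)⟩⟩
  refine hJ.slice (empty_subset _) hC isClosed_empty hπ hs (fun t => ?_) fun t u hu => ?_
  · rw [empty_inter]
    rcases fib t with h' | ⟨z, hz, h'⟩ <;> rw [h']
    exacts [Bd.of_N (N_empty_8 _), key z hz]
  · rw [empty_inter] at hu ⊢
    rw [empty_inter]
    rcases fib t with h' | ⟨z, hz, h'⟩ <;> rw [h'] at hu ⊢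
    · exact ⟨0, Zc.zero, Bd.of_N (N_empty_8 _)⟩
    · obtain ⟨a, -, a2, a3⟩ := sur _ z hz u hu
      exact ⟨_, a2.mono inter_subset_left subset_rfl, a3⟩

theorem const_seg {F : Type} [NormedAddCommGroup F] [NormedSpace ℝ F] {p : F → X} {I : PC X}
    {J : PC F} (hJ : J.Fl) (φ : Hom p I J) (h : φ.Cart) {x0 : X} (hp : ∀ y, p y = x0) (x y : F)
    (k : ℤ) : J.Van k (segment ℝ x y) {x} := by
  refine const_arc_8 hJ φ (π := fun z => dist x z) (by
    rw [segment_eq_image_lineMap]; exact isCompact_Icc.image AffineMap.lineMap_continuous)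
    (convex_segment x y).isPreconnected (by fun_prop) ?_ (fun y _ => hp y) (fun y _ => h y)
    (left_mem_segment ℝ x y) k
  rw [segment_eq_image_lineMap]
  rintro _ ⟨s, hs, rfl⟩ _ ⟨t, ht, rfl⟩ h'
  simp only [dist_left_lineMap, Real.norm_of_nonneg hs.1, Real.norm_of_nonneg ht.1] at h'
  rcases mul_eq_mul_right_iff.1 h' with h' | h'
  · rw [h']
  · simp [dist_eq_zero.1 h']

theorem godMap_cartAt {p : Y → X} (hp : Continuous p) {I : PC X} {J : PC Y} (φ : Hom p I J) {y : Y}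
    (h : φ.CartAt y) : (godMap hp φ).CartAt y := fun k => by
  have e : ∀ a, (godMap hp φ).f ((godU id continuous_id I).f a) =
      (godU id continuous_id J).f (φ.f a) := fun a => funext fun l => by
    show φ.f (uL X a (l.map p)) = uL Y (φ.f a) l
    by_cases hl : l.length = 1 <;> simp only [uL_apply, List.length_map, hl, ↓ reduceIte, map_zero]
  have m : MapsTo p {y} {p y} := mapsTo_singleton.2 rfl
  refine ⟨fun s hs => ?_, fun s hs hb => ?_⟩
  · obtain ⟨b, b1, b2⟩ := (godU_cart_8 id continuous_id J y k).1 s hs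
    obtain ⟨a, a1, a2⟩ := (h k).1 b b1
    refine ⟨_, (godU id continuous_id I).map_zc_8 a1 (mapsTo_id _) (mapsTo_id _), ?_⟩
    have := (godU id continuous_id J).map_bd_8 (sub_mem b1.1 (φ.gr a1.1)) a2 (mapsTo_id _)
      (mapsTo_id _)
    rw [e]
    simpa using b2.add this
  · obtain ⟨a, a1, a2⟩ := (godU_cart_8 id continuous_id I (p y) k).1 s hs
    have g := (godU id continuous_id I).gr a1.1
    have h1 := (godMap hp φ).map_bd_8 (sub_mem hs.1 g) a2 m (mapsTo_empty _ _)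
    have h2 := (godU_cart_8 id continuous_id J y k).2 _ (φ.map_zc_8 a1 m (mapsTo_empty _ _))
      (by rw [← e]; simpa only [map_sub, sub_sub_cancel] using hb.sub h1)
    exact a2.of_sub ((godU id continuous_id I).map_bd_8 a1.1 ((h k).2 a a1 h2) (mapsTo_id _)
      (mapsTo_id _))

section
variable (E : Type) [AddCommGroup E] [Module ℚ E]

theorem cst_bd {a k : ℤ} {x : X} {e : (cstPC X E a).A} :
    (cstPC X E a).Bd k {x} ∅ e ↔ e = 0 :=
  ⟨fun ⟨_, _, _, h⟩ => by_contra fun h' => mem_N_pt.1 h ((cst_supp E _).2 (by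
    show e - 0 ≠ 0
    rwa [sub_zero])), fun h => h ▸ Bd.zero⟩

theorem cst_zc {a : ℤ} {C : Set X} (e : (cstPC X E a).A) : (cstPC X E a).Zc (-a) C ∅ e :=
  ⟨cst_gr_top E e, N_empty_8 _, zero_mem _⟩

theorem resC_van_8 {a k : ℤ} (hk : k ≠ -a) (x : X) : (resC X E a).Van k {x} ∅ := fun s hs => by
  obtain ⟨e, e1, e2⟩ := (godU_cart_8 id continuous_id (cstPC X E a) x k).1 s hs
  rwa [(cst_gr E e1.1).resolve_left hk, map_zero, sub_zero] at e2

theorem cstHom_cart_8 (p : Y → X) (a : ℤ) : (cstHom p E a).Cart := fun _ _ =>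
  ⟨fun s hs => ⟨s, ⟨hs.1, N_empty_8 _, zero_mem _⟩, Bd.of_N ((sub_self s).symm ▸ zero_mem _)⟩,
    fun _ _ h => (cst_bd E).2 ((cst_bd (X := Y) E).1 h)⟩

theorem resC_seg {F : Type} [NormedAddCommGroup F] [NormedSpace ℝ F] (a : ℤ) (x y : F) (k : ℤ) :
    (resC F E a).Van k (segment ℝ x y) {x} :=
  const_seg (fl_resC_8 E a) (resMap (p := fun _ => ()) continuous_const E a)
    (fun _ => godMap_cartAt _ _ (cstHom_cart_8 E _ a _)) (fun _ => rfl) x y k
end

theorem resC_resAt_8 (a : ℤ) (x : X) :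
    (resC X ℚ a).ResAt a ((godU id continuous_id (cstPC X ℚ a)).f (1 : ℚ)) x := by
  have h := godU_cart_8 id continuous_id (cstPC X ℚ a) x (-a)
  refine ⟨(godU id continuous_id _).map_zc_8 (cst_zc ℚ _) (mapsTo_id _) (mapsTo_id _),
    fun hb => one_ne_zero (α := ℚ) ((cst_bd ℚ).1 (h.2 _ (cst_zc ℚ _) hb)), fun s hs => ?_,
    fun k hk => resC_van_8 ℚ hk x⟩
  obtain ⟨c, -, hc⟩ := h.1 s hs
  have e : ∀ c : ℚ, uL X c = c • uL X (1 : ℚ) := fun c => by rw [← map_smul, smul_eq_mul, mul_one]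
  exact ⟨c, (congrArg (fun u : (resC X ℚ a).A => (resC X ℚ a).Bd (-a) {x} ∅ (s - u)) (e c)).mp hc⟩

theorem PC.Fl.vbh [MetrizableSpace X] {I : PC X} (hI : I.Fl) : I.VBH :=
  fun _ _ h1 h2 h3 _ hπ h _ => hI.vb_compact h3 h1 h2 hπ.continuousOn fun y j _ => h y j

theorem PC.Fl.dimh [MetrizableSpace X] {I : PC X} (hI : I.Fl) {N : ℤ}
    (h : ∀ x j, N < j → I.Van j {x} ∅) : I.DIMH N :=
  fun _ _ h1 h2 _ _ he _ hk => hI.dim h1 h2.isClosed (he.mono_8 sdiff_subset) (fun x _ => h x) hk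

theorem resC_dimh [MetrizableSpace X] (E : Type) [AddCommGroup E] [Module ℚ E] (a : ℤ) :
    (resC X E a).DIMH (-a) := (fl_resC_8 E a).dimh fun x _ hj => resC_van_8 E hj.ne' x

theorem resC_ball {m : ℕ} (a : ℤ) (x : Fin m → ℝ) (r : ℝ) (hr : 0 < r) :
    (resC (Fin m → ℝ) ℚ a).Sph (m - a) univ (ball x r)ᶜ :=
  sph_ball (fl_resC_8 ℚ a) (resC_resAt_8 a) (fl_resC_8 ℚ a).vbh (resC_seg ℚ a) x hr

theorem resC_shell {m : ℕ} (a : ℤ) (x : Fin m → ℝ) (r R : ℝ) (hr : 0 < r) (hR : r ≤ R) (k : ℤ) :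
    (resC (Fin m → ℝ) ℚ a).Van k (ball x r)ᶜ (ball x R)ᶜ :=
  van_shell (fl_resC_8 ℚ a) (fl_resC_8 ℚ a).vbh (resC_seg ℚ a) x hr hR k

/-- SP for a constant sheaf on `ℝ^m` -/
theorem sp_resC {m : ℕ} (E : Type) [AddCommGroup E] [Module ℚ E] (n : ℤ) {V Z : Set (Fin m → ℝ)}
    (hV : IsOpen V) (hZ : IsOpen (V \ Z)) {e : ℤ} (he : FTO (Z ∩ V) e) {k : ℤ}
    (hk : k < m - e - n) : (resC (Fin m → ℝ) E n).Van k V (V \ Z) := by
  obtain ⟨a, rfl⟩ : ∃ a, n = m - a := ⟨m - n, by ring⟩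
  have hT := top_of_dim (fl_resC_8 ℚ a) (resC_dimh (X := Fin m → ℝ) ℚ a)
  obtain ⟨φ, hφ⟩ := dual_res E (fl_resC_8 ℚ a) hT (resC_ball a) (resC_shell a)
  have hD := dual_Fl (E := E) (fl_resC_8 ℚ a) hT
  have h1 := dual_sp E (fl_resC_8 ℚ a) hT (resC_dimh ℚ a) hV hZ he (k := k) (by omega)
  have h2 := qis (godU id continuous_id _) hD (fl_god_8 _ _ _) sdiff_subset hV hZ
    (fun x _ => godU_cart_8 _ _ _ x) k
  have h3 := qis (godMap continuous_id φ) (fl_god_8 _ _ _) (fl_god_8 _ _ _) sdiff_subset hV hZ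
    (fun x _ => godMap_cartAt _ _ (hφ x)) k
  refine fun s hs => h3.2 s hs ?_
  obtain ⟨t, t1, t2⟩ := h2.1 _ ((godMap continuous_id φ).map_zc_8 hs (mapsTo_id _) (mapsTo_id _))
  exact t2.of_sub ((godU id continuous_id _).map_bd_8 t1.1 (h1 t t1) (mapsTo_id _) (mapsTo_id _))

end C73
end
end

section
/-! Semi-purity for constant complexes; finiteness of top compactly supported cohomology. -/

open Set Filter Topology Metric TopologicalSpace

noncomputable section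
namespace C73
variable {X Y : Type} [TopologicalSpace X] [TopologicalSpace Y]
open PC

/-- a linear family of global cocycles as a morphism from a constant presheaf -/
def cstTo {J : PC X} {E : Type} [AddCommGroup E] [Module ℚ E] {a : ℤ} (σ : E →ₗ[ℚ] J.A)
    (h : ∀ e, J.Zc (-a) univ ∅ (σ e)) {p : X → Y} : Hom p (cstPC Y E a) J where
  f := σ
  gr {k e} he := by
    rcases cst_gr E he with rfl | rfl
    · exact (h e).1
    · exact (map_zero σ).symm ▸ zero_mem _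
  supp {k e} _ x hx := (cst_supp E e).2 (by
    rintro rfl
    exact (J.supp_zero.subset ((congrArg J.supp (map_zero σ)).subset hx)))
  comm {k e} _ := by
    show J.supp (σ 0 - J.d (σ e)) = ∅
    rw [map_zero, zero_sub]
    exact disjoint_univ.1 (neg_mem (h e).2.2 : _ ∈ J.N univ)

theorem PC.ResAt.seg {F : Type} [NormedAddCommGroup F] [NormedSpace ℝ F] {I : PC F} (hI : I.Fl)
    {n : ℤ} {s0 : I.A} (hR : ∀ x, I.ResAt n s0 x) (x y : F) (k : ℤ) :
    I.Van k (segment ℝ x y) {x} := by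
  have h : ∀ c : ℚ, I.Zc (-n) univ ∅ (LinearMap.toSpanSingleton ℚ I.A s0 c) := fun c =>
    Zc.smul c ⟨(hR x).1.1, N_empty_8 _, mem_N'.2 fun z _ => mem_N_pt.1 (hR z).1.2.2⟩
  refine const_seg hI (cstTo (p := fun _ => ()) _ h) (fun z j => ⟨fun s hs => ?_, fun c hc hb => ?_⟩)
    (fun _ => rfl) x y k
  · by_cases hj : j = -n
    · subst hj
      obtain ⟨c, hc⟩ := (hR z).2.2.1 s hs
      exact ⟨c, cst_zc ℚ _, hc⟩
    · exact ⟨0, Zc.zero, by simpa using (hR z).2.2.2 j hj s hs⟩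
  · refine (cst_bd ℚ).2 ?_
    rcases cst_gr ℚ hc.1 with rfl | h0
    · by_contra h0
      have := Bd.smul (show ℚ from c)⁻¹ hb
      refine (hR z).2.1 ?_
      convert this using 1
      show s0 = (show ℚ from c)⁻¹ • (show ℚ from c) • s0
      rw [smul_smul, inv_mul_cancel₀ h0, one_smul]
    · exact h0

theorem loc_N_sub {J : PC X} {V W : Set X} (hW : W ⊆ V) {s : J.A} :
    s ∈ (J.loc V).N W ↔ s ∈ J.N W := by
  refine (mem_N' (I := J.loc V)).trans (Iff.trans (forall₂_congr fun x hx => ?_) mem_N'.symm)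
  constructor
  · exact fun h hs => h (subset_closure ⟨⟨x, hW hx⟩, hs, rfl⟩)
  · exact fun h hs => h (closure_minimal (by rintro _ ⟨y, hy, rfl⟩; exact hy) (J.closed s) hs)

theorem loc_zc {J : PC X} {V C C' : Set X} (h : C ⊆ V) (h' : C' ⊆ V) {k : ℤ}
    {s : J.A} : (J.loc V).Zc k C C' s ↔ J.Zc k C C' s :=
  and_congr Iff.rfl (and_congr (loc_N_sub h') (loc_N_sub h))

theorem loc_bd {J : PC X} {V C C' : Set X} (h : C ⊆ V) (h' : C' ⊆ V) {k : ℤ}
    {s : J.A} : (J.loc V).Bd k C C' s ↔ J.Bd k C C' s :=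
  exists_congr fun _ => and_congr Iff.rfl (and_congr (loc_N_sub h') (loc_N_sub h))

theorem loc_van {J : PC X} {V C C' : Set X} (h : C ⊆ V) (h' : C' ⊆ V) {k : ℤ} :
    (J.loc V).Van k C C' ↔ J.Van k C C' :=
  forall_congr' fun _ => imp_congr (loc_zc h h') (loc_bd h h')

section Cone
variable {I J : PC X} (φ : Hom id I J) {k : ℤ} {C C' : Set X}

theorem van_of_cone_8 (h1 : I.Van k C C') (h2 : φ.cone.Van k C C') : J.Van k C C' := fun s hs => by
  obtain ⟨a, a1, a2⟩ := cone_sur φ h2 s hs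
  exact a2.of_sub (φ.map_bd_8 a1.1 (h1 a a1) (mapsTo_id _) (mapsTo_id _))

/-- the inclusion of the target in the cone -/
def Hom.inr : Hom id J φ.cone where
  f := LinearMap.inr ℚ I.A J.A
  gr h := ⟨zero_mem _, h⟩
  supp _ := union_subset (I.supp_zero.subset.trans (empty_subset _)) subset_rfl
  comm {k s} _ := by
    show I.supp (0 - -I.d 0) ∪ J.supp (J.d s - (φ.f 0 + J.d s)) = ∅
    simp [PC.supp_zero]

theorem inr_sur (h : Inj I J φ.f (k + 1) C C' C C') : Sur J φ.cone φ.inr.f k C C' C C' := by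
  rintro ⟨a, b⟩ ⟨⟨h1, h1'⟩, h2, h3⟩
  have e1 : -I.d a ∈ I.N C := (cone_N.1 h3).1
  have e2 : φ.f a + J.d b ∈ J.N C := (cone_N.1 h3).2
  obtain ⟨a', a1, a2, a3⟩ := h a ⟨h1, (cone_N.1 h2).1, by simpa using e1⟩
    ⟨-b, by simpa using neg_mem h1', neg_mem (cone_N.1 h2).2, by simpa only [map_neg, sub_neg_eq_add] using e2⟩
  rw [add_sub_cancel_right] at a1
  refine ⟨b + φ.f a', ⟨add_mem h1' (φ.gr a1), add_mem (cone_N.1 h2).2
    (φ.map_N_8 a1 a2 (mapsTo_id _)), ?_⟩, (-a', 0), ⟨by simpa using neg_mem a1, zero_mem _⟩,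
    cone_N.2 ⟨neg_mem a2, zero_mem _⟩, cone_N.2 ⟨?_, ?_⟩⟩
  · have := sub_mem (sub_mem e2 (φ.map_N_8 (sub_mem h1 (I.d_gr a1)) a3 (mapsTo_id _)))
      (φ.comm_N (D := C) a1)
    convert this using 1
    simp only [map_add, map_sub]; abel
  · show a - 0 - -I.d (-a') ∈ I.N C
    simpa only [sub_zero, map_neg, neg_neg] using a3
  · show b - (b + φ.f a') - (φ.f (-a') + J.d 0) ∈ J.N C
    simp only [sub_add_cancel_left, map_neg, map_zero, add_zero, sub_self, zero_mem]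

theorem inr_inj (h : I.Van k C C') : Inj J φ.cone φ.inr.f k C C' C C' := by
  rintro s hs ⟨⟨a, b⟩, ⟨h1, h1'⟩, h2, h3⟩
  have e1 : 0 - -I.d a ∈ I.N C := (cone_N.1 h3).1
  have e2 : s - (φ.f a + J.d b) ∈ J.N C := (cone_N.1 h3).2
  rw [sub_add_cancel] at h1
  exact ((φ.map_bd_8 h1 (h a ⟨h1, (cone_N.1 h2).1, by simpa using e1⟩) (mapsTo_id _)
    (mapsTo_id _)).add (Bd.d h1' (cone_N.1 h2).2)).congr e2
end Cone

theorem Hom.cstOn {I J : PC X} (φ : Hom id I J) {k : ℤ} {V S : Set X} (h : I.CstOn k V S)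
    (hS : S ⊆ V) (h' : ∀ x ∈ S, Sur I J φ.f k {x} ∅ {x} ∅ ∧ Inj I J φ.f k {x} ∅ {x} ∅) :
    J.CstOn k V S := by
  obtain ⟨E, _, _, σ, h1, h2⟩ := h
  refine ⟨E, inferInstance, inferInstance, φ.f ∘ₗ σ, fun e => φ.map_zc_8 (h1 e) (mapsTo_id _)
    (mapsTo_id _), fun x hx => ⟨fun e he => (h2 x hx).1 e ((h' x hx).2 _
      ((h1 e).mono (singleton_subset_iff.2 (hS hx)) subset_rfl) he), fun s hs => ?_⟩⟩
  obtain ⟨a, a1, a2⟩ := (h' x hx).1 s hs
  obtain ⟨e, he⟩ := (h2 x hx).2 a a1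
  exact ⟨e, by simpa using a2.add (φ.map_bd_8 (sub_mem a1.1 (h1 e).1) he (mapsTo_id _) (mapsTo_id _))⟩

theorem cstOn_of_van {I : PC X} {k : ℤ} {V S : Set X} (h : ∀ x ∈ S, I.Van k {x} ∅) :
    I.CstOn k V S :=
  ⟨PUnit, inferInstance, inferInstance, 0, fun _ => Zc.zero, fun x hx =>
    ⟨fun _ _ => rfl, fun s hs => ⟨0, by simpa using h x hx s hs⟩⟩⟩

theorem van_cst0 {V V' : Set X} (hV : IsOpen V) (hV' : IsOpen V') (hVV : V' ⊆ V) {k b : ℤ}
    (H : ∀ (E : Type) [AddCommGroup E] [Module ℚ E] (n : ℤ), k < b - n → (resC X E n).Van k V V')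
    {c : ℤ} (hk : k < c + b) {J : PC X} (hJ : J.Fl) (h0 : ∀ x ∈ V, ∀ j < c, J.Van j {x} ∅)
    (h1 : ∀ j ≤ k, J.CstOn j univ V) : J.Van k V V' := by
  obtain ⟨N, hN⟩ : ∃ N : ℕ, k < c + N := ⟨(k - c + 1).toNat, by omega⟩
  induction N generalizing c J with
  | zero =>
    exact tri2_8 (empty_subset _) (hJ.acy hV' fun x hx j hj => h0 x (hVV hx) j (by omega))
      (hJ.acy hV fun x hx j hj => h0 x hx j (by omega)) hVV
  | succ N ih =>
    rcases lt_or_ge k c with hc | hc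
    · exact ih hk hJ h0 h1 (by omega)
    obtain ⟨c, rfl⟩ : ∃ a, c = -a := ⟨-c, by ring⟩
    obtain ⟨E, _, _, σ, s1, s2⟩ := h1 _ hc
    let G := godU id continuous_id J
    let φ := godMap continuous_id (cstTo (p := id) σ s1)
    have e : ∀ a, φ.f ((godU id continuous_id _).f a) = G.f (σ a) := fun a => funext fun l => by
      show σ (uL X a (l.map id)) = uL X (σ a) l
      by_cases hl : l.length = 1 <;> simp only [List.map_id_fun, id_eq, uL_apply, hl, ↓ reduceIte, map_zero]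
    have gc := godU_cart_8 id continuous_id J
    have hsur : ∀ x ∈ V, Sur _ _ φ.f (-c) {x} ∅ {x} ∅ := fun x hx' s hs => by
      obtain ⟨a, a1, a2⟩ := (gc x _).1 s hs
      obtain ⟨e', he⟩ := (s2 x hx').2 a a1
      refine ⟨_, (godU id continuous_id _).map_zc_8 (cst_zc E e') (mapsTo_id _) (mapsTo_id _), ?_⟩
      rw [e]
      simpa [G] using a2.add (G.map_bd_8 (sub_mem a1.1 (s1 e').1) he (mapsTo_id _) (mapsTo_id _))
    have hinj : ∀ x ∈ V, ∀ j, Inj _ _ φ.f j {x} ∅ {x} ∅ := fun x hx' j s hs hb => by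
      by_cases hj : j = -c
      swap
      · exact resC_van_8 E hj x s hs
      subst hj
      obtain ⟨a, a1, a2⟩ := (godU_cart_8 id continuous_id (cstPC X E c) x _).1 s hs
      have h3 := hb.sub (φ.map_bd_8 (sub_mem hs.1 ((godU id continuous_id _).gr a1.1)) a2
        (mapsTo_id _) (mapsTo_id _))
      rw [map_sub, sub_sub_cancel, e] at h3
      have h4 : a = 0 := (s2 x hx').1 a ((gc x _).2 _ ((s1 a).mono (subset_univ _) subset_rfl) h3)
      rwa [h4, map_zero, sub_zero] at a2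
    have hvan : ∀ x ∈ V, ∀ j < -c + 1, φ.cone.Van j {x} ∅ := fun x hx' j hj => by
      refine cone_van φ ?_ (hinj x hx' _)
      rcases (show j = -c ∨ j < -c by omega) with rfl | hj
      · exact hsur x hx'
      intro s hs
      obtain ⟨a, a1, a2⟩ := (gc x _).1 s hs
      exact ⟨0, Zc.zero, by simpa only [map_zero, sub_zero] using a2.of_sub (G.map_bd_8 a1.1 (h0 x hx' j hj a a1)
        (mapsTo_id _) (mapsTo_id _))⟩
    have h5 : φ.cone.Van k V V' := ih (c := -c + 1) (by omega)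
      (fl_cone_8 φ (fl_god_8 _ _ _) (fl_god_8 _ _ _)) hvan (fun j hj => by
        rcases lt_or_ge j (-c + 1) with hj' | hj'
        · exact cstOn_of_van fun x hx => hvan x hx j hj'
        exact φ.inr.cstOn (G.cstOn (h1 j hj) (subset_univ _) fun x _ => gc x j) (subset_univ _)
          fun x hx' => ⟨inr_sur φ (hinj x hx' _), inr_inj φ (resC_van_8 E (by omega) x)⟩)
      (by push_cast at hN; omega)
    have h6 := van_of_cone_8 φ (H E c (by omega)) h5
    exact fun s hs => (qis G hJ (fl_god_8 _ _ _) hVV hV hV' (fun x _ => gc x) k).2 s hs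
      (h6 _ (G.map_zc_8 hs (mapsTo_id _) (mapsTo_id _)))

/-- dévissage from constant sheaves to cohomologically constant complexes -/
theorem van_cst {V V' : Set X} (hV : IsOpen V) (hV' : IsOpen V') (hVV : V' ⊆ V) {k b : ℤ}
    (H : ∀ (E : Type) [AddCommGroup E] [Module ℚ E] (n : ℤ), k < b - n → (resC X E n).Van k V V')
    {c : ℤ} (hk : k < c + b) {J : PC X} (hJ : J.Fl) (h0 : ∀ x ∈ V, ∀ j < c, J.Van j {x} ∅)
    (h1 : ∀ j ≤ k, J.CstOn j V V) : J.Van k V V' := by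
  have hx : ∀ x ∈ V, {x} ⊆ V := fun x hx => singleton_subset_iff.2 hx
  refine (loc_van subset_rfl hVV).1 (van_cst0 hV hV' hVV H hk (hJ.loc hV)
    (fun x hx' j hj => (loc_van (hx x hx') (empty_subset _)).2 (h0 x hx' j hj)) fun j hj => ?_)
  obtain ⟨E, _, _, τ, t1, t2⟩ := h1 j hj
  exact ⟨E, inferInstance, inferInstance, τ, fun e => ⟨(t1 e).1, N_empty_8 _,
    (loc_N isOpen_univ).2 ((inter_univ V).symm ▸ (t1 e).2.2)⟩, fun x hx' =>
    ⟨fun e he => (t2 x hx').1 e ((loc_bd (hx x hx') (empty_subset _)).1 he), fun s hs =>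
      ((t2 x hx').2 s ((loc_zc (hx x hx') (empty_subset _)).1 hs)).imp fun e he =>
        (loc_bd (hx x hx') (empty_subset _)).2 he⟩⟩

/-- SP for cohomologically constant complexes on `ℝ^m` -/
theorem sp_cst {m : ℕ} {J : PC (Fin m → ℝ)} (hJ : J.Fl) {V Z : Set (Fin m → ℝ)} (hV : IsOpen V)
    (hZ : IsOpen (V \ Z)) {e : ℤ} (he : FTO (Z ∩ V) e) {c k : ℤ}
    (h0 : ∀ x ∈ V, ∀ j < c, J.Van j {x} ∅) (h1 : ∀ j ≤ k, J.CstOn j V V) (hk : k < c + m - e) :
    J.Van k V (V \ Z) :=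
  van_cst hV hZ sdiff_subset (b := m - e) (fun E _ _ n hn => sp_resC E n hV hZ he hn)
    (by omega) hJ h0 h1

theorem cstOn_of_cart {p : Y → X} {I : PC X} {J : PC Y} (φ : Hom p I J) {V : Set Y} {x0 : X}
    (hp : ∀ y ∈ V, p y = x0) (h : ∀ y ∈ V, φ.CartAt y) (k : ℤ) : J.CstOn k V V := by
  let Z : Submodule ℚ I.A :=
    ⟨⟨⟨{a | I.Zc k {x0} ∅ a}, Zc.add⟩, Zc.zero⟩, fun c _ h => h.smul c⟩
  let B : Submodule ℚ I.A :=
    ⟨⟨⟨{a | I.Bd k {x0} ∅ a}, Bd.add⟩, Bd.zero⟩, fun c _ h => h.smul c⟩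
  obtain ⟨E, hE⟩ := (B.comap Z.subtype).exists_isCompl
  refine ⟨E, inferInstance, inferInstance, φ.f ∘ₗ Z.subtype ∘ₗ E.subtype,
    fun e => φ.map_zc_8 e.1.2 hp (mapsTo_empty _ _), fun y hy => ⟨fun e he => ?_, fun s hs => ?_⟩⟩
  · have : I.Bd k {x0} ∅ e.1.1 := hp y hy ▸ (h y hy k).2 _ (by rw [hp y hy]; exact e.1.2) he
    exact Subtype.ext (Submodule.disjoint_def.1 hE.disjoint e.1 this e.2)
  · obtain ⟨a, a1, a2⟩ := (h y hy k).1 s hs
    rw [hp y hy] at a1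
    obtain ⟨b, hb, e, he, hbe⟩ := Submodule.mem_sup.1
      (hE.sup_eq_top ▸ Submodule.mem_top : (⟨a, a1⟩ : Z) ∈ B.comap Z.subtype ⊔ E)
    refine ⟨⟨e, he⟩, ?_⟩
    have := a2.add (φ.map_bd_8 b.2.1 hb (mapsTo_singleton.2 (hp y hy)) (mapsTo_empty _ _))
    convert this using 1
    have : a = b.1 + e.1 := (congrArg Subtype.val hbe).symm
    rw [this, map_add]
    show s - φ.f e.1 = _
    abel

end C73
end
end
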