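import Pool.Agent.MP_94fa45_ag.C73.SA

attribute [-instance] NonUnitalAlgSemiHomClass.toDistribMulActionSemiHomClass
  NonUnitalNonAssocSemiring.toAddCommMonoid AddGroupWithOne.toAddGroup Semiring.toAddCommMonoid
  Distrib.toAdd TotallySeparatedSpace.t2Space TopologicalSpace.DiscreteTopology.metrizableSpace
  MulSemiringActionSemiHomClass.toDistribMulActionSemiHomClass AddCommMonoidWithOne.toAddCommMonoid
  NonUnitalNonAssocSemiring.toMulZeroClass RKHS.instFunLike MulSemiringAction.toDistribMulAction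
  AddCommMonoidWithOne.toAddMonoidWithOne Algebra.toSMul Action.FintypeCat.instMulActionObjFiniteOf
  instSMulZeroClass MonoidWithZeroHomClass.toZeroHomClass Rat.instDistribSMul CommRing.toRing
  CentroidHomClass.toAddMonoidHomClass Valued.toUniformSpace
  LinearOrderedAddCommMonoidWithTop.toAddCommMonoid Field.toDivisionRing
  MulZeroOneClass.toMulZeroClass NormedRing.toRing CommSemiring.toSemiring
  NormedDivisionRing.toDivisionRing LinearOrderedAddCommGroupWithTop.toAddCommMonoid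
  Function.locallyCompactSpace AddCommGroupWithOne.toAddGroupWithOne
  Group.IsPerfect.subsingleton_of_isMulCommutative NonUnitalSubringClass.toNegMemClass
  LinearOrderedAddCommGroupWithTop.toSubNegMonoid SeminormedRing.toRing
  OmegaCompletePartialOrder.toPartialOrder BooleanRing.toRing IdemCommSemiring.toIdemSemiring
  ContinuousMonoidHom.instCoeOutOfMonoidHomClassOfContinuousMapClass
  ContinuousSemilinearMapClass.toSemilinearMapClass Action.instMulAction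
  HasDistribNeg.toInvolutiveNeg instCoeTCOfCoe PseudoMetricSpace.toPseudoEMetricSpace

/-! Support model: morphisms, equivalences, dimension, compact supports. -/

section
/-! E02: morphisms on pairs; the four lemmas of the long exact sequence of a triple
`H^{k-1}(C',C'') → H^k(C,C') → H^k(C,C'') → H^k(C',C'') → H^{k+1}(C,C')` (connecting map `s ↦ d s`), elementwise diagram chases. -/

open Set Filter Topology TopologicalSpace

noncomputable section
namespace C73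
open PC

variable {X Y : Type} [TopologicalSpace X] [TopologicalSpace Y]

variable {p : Y → X} {I : PC X} {J : PC Y} {C C' C'' : Set X} {D D' D'' : Set Y} {k : ℤ}
theorem Hom.map_N (φ : Hom p I J) {s : I.A} (hs : s ∈ I.gr k) (hD : MapsTo p D C) (h : s ∈ I.N C) :
    φ.f s ∈ J.N D := φ.map_N_8 hs h hD
theorem Hom.map_zc (φ : Hom p I J) {s : I.A} (hD : MapsTo p D C) (hD' : MapsTo p D' C')
    (h : I.Zc k C C' s) : J.Zc k D D' (φ.f s) := φ.map_zc_8 h hD hD'
theorem Hom.map_bd (φ : Hom p I J) {s : I.A} (hs : s ∈ I.gr k) (hD : MapsTo p D C)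
    (hD' : MapsTo p D' C') (h : I.Bd k C C' s) : J.Bd k D D' (φ.f s) := φ.map_bd_8 hs h hD hD'
section
variable (φ : Hom p I J) (h1 : C'' ⊆ C') (h2 : C' ⊆ C) (g1 : D'' ⊆ D') (g2 : D' ⊆ D)
  (hD : MapsTo p D C) (hD' : MapsTo p D' C') (hD'' : MapsTo p D'' C'')
include h1 h2 g1 g2 hD hD' hD''
theorem sur_rel : Sur I J φ.f (k - 1) C' C'' D' D'' → Sur I J φ.f k C C'' D D'' →
    Inj I J φ.f k C' C'' D' D'' → Sur I J φ.f k C C' D D' := fun a b c s hs => by
  obtain ⟨u, u1, t, t1, t2, t3⟩ := b s (hs.mono subset_rfl g1)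
  obtain ⟨w, w1, w2, w3⟩ := c u (u1.mono h2 subset_rfl) ⟨-t, neg_mem t1, neg_mem t2, by
    convert sub_mem hs.2.1 (N_anti_8 g2 t3) using 1; rw [map_neg]; abel⟩
  have z : I.Zc k C C' (u - I.d w) := ⟨sub_mem u1.1 (d_gr' w1), w3, (u1.sub (Zc.d w1 w2)).2.2⟩
  have e : s - φ.f (u - I.d w) - J.d (t + φ.f w) ∈ J.N D := by
    convert add_mem t3 (φ.comm_N (D := D) w1) using 1; simp only [map_add, map_sub]; abel
  obtain ⟨v, v1, r, r1, r2, r3⟩ := a (t + φ.f w) ⟨add_mem t1 (φ.gr w1),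
    add_mem t2 (φ.map_N w1 hD'' w2), by
      simpa using sub_mem (sub_mem hs.2.1 (φ.map_N z.1 hD' w3)) (N_anti_8 g2 e)⟩
  refine ⟨u - I.d w + I.d v, z.add ⟨d_gr' v1.1, v1.2.2, N_dd v1.1⟩, _,
    sub_mem (sub_mem (add_mem t1 (φ.gr w1)) (φ.gr v1.1)) (d_gr' r1), r3, ?_⟩
  convert add_mem (sub_mem e (φ.comm_N (D := D) v1.1)) (N_dd r1) using 1
  simp only [map_add, map_sub]; abel
theorem inj_rel : Sur I J φ.f (k - 1) C C'' D D'' → Inj I J φ.f (k - 1) C' C'' D' D'' →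
    Inj I J φ.f k C C'' D D'' → Inj I J φ.f k C C' D D' := fun a b c s hs ⟨r, r1, r2, r3⟩ => by
  obtain ⟨t, t1, t2, t3⟩ := c s (hs.mono subset_rfl h1) ⟨r, r1, N_anti_8 g1 r2, r3⟩
  obtain ⟨v, v1, q, q1, q2, q3⟩ := a (φ.f t - r)
    ⟨sub_mem (φ.gr t1) r1, sub_mem (φ.map_N t1 hD'' t2) (N_anti_8 g1 r2), by
      convert sub_mem (sub_mem r3 (φ.map_N (sub_mem hs.1 (d_gr' t1)) hD t3))
        (φ.comm_N (D := D) t1) using 1
      simp only [map_sub]; abel⟩
  obtain ⟨w, w1, w2, w3⟩ := b (t - v) ⟨sub_mem t1 v1.1, sub_mem t2 v1.2.1, by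
      simpa using sub_mem (sub_mem hs.2.1 (N_anti_8 h2 t3)) (N_anti_8 h2 v1.2.2)⟩
    ⟨q, q1, q2, by
      convert add_mem (N_anti_8 g2 q3) r2 using 1; simp only [map_sub]; abel⟩
  refine ⟨_, sub_mem (sub_mem t1 v1.1) (d_gr' w1), w3, ?_⟩
  convert add_mem (add_mem t3 v1.2.2) (N_dd w1) using 1
  simp only [map_sub]; abel
theorem sur_mid : Sur I J φ.f k C C' D D' → Sur I J φ.f k C' C'' D' D'' →
    Inj I J φ.f (k + 1) C C' D D' → Sur I J φ.f k C C'' D D'' := fun a b c s hs => by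
  obtain ⟨u, u1, t, t1, t2, t3⟩ := b s (hs.mono g2 subset_rfl)
  have g : s - φ.f u - J.d t ∈ J.gr k := sub_mem (sub_mem hs.1 (φ.gr u1.1)) (d_gr' t1)
  obtain ⟨w, w1, w2, w3⟩ := c (I.d u) ⟨I.d_gr u1.1, u1.2.2, N_dd u1.1⟩
    ⟨-(s - φ.f u - J.d t), by simpa using neg_mem g, neg_mem t3, by
      convert sub_mem (add_mem (φ.comm_N (D := D) u1.1) hs.2.2) (N_dd t1) using 1
      simp only [map_sub, map_neg]; abel⟩
  rw [add_sub_cancel_right] at w1
  have z : I.Zc k C C'' (u - w) :=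
    ⟨sub_mem u1.1 w1, sub_mem u1.2.1 (N_anti_8 h1 w2), by simpa only [map_sub] using w3⟩
  obtain ⟨v, v1, q, q1, q2, q3⟩ := a (s - φ.f u - J.d t + φ.f w)
    ⟨add_mem g (φ.gr w1), add_mem t3 (φ.map_N w1 hD' w2), by
      convert sub_mem (sub_mem hs.2.2 (φ.map_zc hD hD'' z).2.2) (N_dd t1) using 1
      simp only [map_sub, map_add]; abel⟩
  refine ⟨u - w + v, z.add (v1.mono subset_rfl h1), t + q, add_mem t1 q1,
    add_mem t2 (N_anti_8 g1 q2), ?_⟩
  convert q3 using 1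
  simp only [map_sub, map_add]; abel
theorem inj_mid : Sur I J φ.f (k - 1) C' C'' D' D'' → Inj I J φ.f k C C' D D' →
    Inj I J φ.f k C' C'' D' D'' → Inj I J φ.f k C C'' D D'' := fun a b c s hs ⟨r, r1, r2, r3⟩ => by
  obtain ⟨t, t1, t2, t3⟩ := c s (hs.mono h2 subset_rfl) ⟨r, r1, r2, N_anti_8 g2 r3⟩
  have z : I.Zc k C C' (s - I.d t) := ⟨sub_mem hs.1 (d_gr' t1), t3, (hs.sub (Zc.d t1 t2)).2.2⟩
  have e : φ.f (s - I.d t) - J.d (r - φ.f t) ∈ J.N D := by
    convert sub_mem r3 (φ.comm_N (D := D) t1) using 1; simp only [map_sub]; abel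
  obtain ⟨v, v1, q, q1, q2, q3⟩ := a (r - φ.f t) ⟨sub_mem r1 (φ.gr t1),
    sub_mem r2 (φ.map_N t1 hD'' t2), by
      simpa using sub_mem (φ.map_N z.1 hD' t3) (N_anti_8 g2 e)⟩
  have := b (s - I.d t - I.d v) (z.sub ⟨d_gr' v1.1, v1.2.2, N_dd v1.1⟩)
    ⟨_, sub_mem (sub_mem (sub_mem r1 (φ.gr t1)) (φ.gr v1.1)) (d_gr' q1), q3, by
      convert add_mem (sub_mem e (φ.comm_N (D := D) v1.1)) (N_dd q1) using 1
      simp only [map_sub]; abel⟩
  exact ((this.mono subset_rfl h1).of_sub (Bd.d v1.1 v1.2.1)).of_sub (Bd.d t1 t2)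
theorem sur_quo : Sur I J φ.f k C C'' D D'' → Sur I J φ.f (k + 1) C C' D D' →
    Inj I J φ.f (k + 1) C C'' D D'' → Sur I J φ.f k C' C'' D' D'' := fun a b c s hs => by
  obtain ⟨u, u1, t, t1, t2, t3⟩ := b (J.d s) ⟨J.d_gr hs.1, hs.2.2, N_dd hs.1⟩
  rw [add_sub_cancel_right] at t1
  obtain ⟨w, w1, w2, w3⟩ := c u (u1.mono subset_rfl h1) ⟨s - t, by simpa using sub_mem hs.1 t1,
    sub_mem hs.2.1 (N_anti_8 g1 t2), by
      convert neg_mem t3 using 1; simp only [map_sub]; abel⟩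
  rw [add_sub_cancel_right] at w1
  obtain ⟨v, v1, v2⟩ := a (s - t - φ.f w) ⟨sub_mem (sub_mem hs.1 t1) (φ.gr w1),
    sub_mem (sub_mem hs.2.1 (N_anti_8 g1 t2)) (φ.map_N w1 hD'' w2), by
      convert add_mem (add_mem t3 (φ.map_N (sub_mem u1.1 (I.d_gr w1)) hD w3))
        (φ.comm_N (D := D) w1) using 1
      simp only [map_sub]; abel⟩
  refine ⟨w + v, Zc.add ⟨w1, w2, by simpa using sub_mem u1.2.1 (N_anti_8 h2 w3)⟩
    (v1.mono h2 subset_rfl), ?_⟩
  convert (v2.mono g2 subset_rfl).add (Bd.of_N t2) using 1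
  simp only [map_add]; abel
theorem inj_quo : Sur I J φ.f k C C' D D' → Inj I J φ.f k C C'' D D'' →
    Inj I J φ.f (k + 1) C C' D D' → Inj I J φ.f k C' C'' D' D'' := fun a b c s hs ⟨r, r1, r2, r3⟩ => by
  have g : φ.f s - J.d r ∈ J.gr k := sub_mem (φ.gr hs.1) (d_gr' r1)
  obtain ⟨w, w1, w2, w3⟩ := c (I.d s) ⟨I.d_gr hs.1, hs.2.2, N_dd hs.1⟩
    ⟨φ.f s - J.d r, by simpa using g, r3, by
      convert add_mem (φ.comm_N (D := D) hs.1) (N_dd r1) using 1; simp only [map_sub]; abel⟩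
  rw [add_sub_cancel_right] at w1
  have z : I.Zc k C C'' (s - w) :=
    ⟨sub_mem hs.1 w1, sub_mem hs.2.1 (N_anti_8 h1 w2), by simpa only [map_sub] using w3⟩
  obtain ⟨v, v1, v2⟩ := a (φ.f s - J.d r - φ.f w) ⟨sub_mem g (φ.gr w1),
    sub_mem r3 (φ.map_N w1 hD' w2), by
      convert sub_mem (φ.map_zc hD hD'' z).2.2 (N_dd r1) using 1; simp only [map_sub]; abel⟩
  have := b (s - w - v) (z.sub (v1.mono subset_rfl h1)) (by
    convert (v2.mono subset_rfl g1).add (Bd.d r1 r2) using 1; simp only [map_sub]; abel)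
  exact ((this.mono h2 subset_rfl).of_sub (Bd.of_N v1.2.1)).of_sub (Bd.of_N w2)
theorem bij_rel : Bij I J φ.f C C'' D D'' → Bij I J φ.f C' C'' D' D'' → Bij I J φ.f C C' D D' := fun a b k =>
  ⟨sur_rel φ h1 h2 g1 g2 hD hD' hD'' (b _).1 (a _).1 (b _).2,
    inj_rel φ h1 h2 g1 g2 hD hD' hD'' (a _).1 (b _).2 (a _).2⟩
end

end C73
end
end

section
/-! E03: transfer of vanishing / finiteness, composition, restriction maps, cones. -/

open Set Filter Topology TopologicalSpace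

noncomputable section
namespace C73
open PC

variable {X Y : Type} [TopologicalSpace X] [TopologicalSpace Y]

variable {W : Type} [TopologicalSpace W] {p : Y → X} {q : W → Y} {I : PC X} {J : PC Y} {K : PC W}
  {C C' C'' : Set X} {D D' : Set Y} {B B' : Set W} {k : ℤ}
theorem Sur.van (φ : Hom p I J) (hD : MapsTo p D C) (hD' : MapsTo p D' C')
    (h : Sur I J φ.f k C C' D D') (hv : I.Van k C C') : J.Van k D D' := fun s hs =>
  let ⟨a, a1, a2⟩ := h s hs; a2.of_sub (φ.map_bd a1.1 hD hD' (hv a a1))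
theorem Inj.van (φ : Hom p I J) (hD : MapsTo p D C) (hD' : MapsTo p D' C')
    (h : Inj I J φ.f k C C' D D') (hv : J.Van k D D') : I.Van k C C' := fun s hs =>
  h s hs (hv _ (φ.map_zc hD hD' hs))
theorem sur_of_van {f : I.A →ₗ[ℚ] J.A} (hv : J.Van k D D') : Sur I J f k C C' D D' :=
  fun s hs => ⟨0, Zc.zero, by simpa using hv s hs⟩
theorem inj_of_van {f : I.A →ₗ[ℚ] J.A} (hv : I.Van k C C') : Inj I J f k C C' D D' :=
  fun s hs _ => hv s hs
theorem Sur.finD (φ : Hom p I J) (hD : MapsTo p D C) (hD' : MapsTo p D' C')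
    (h : Sur I J φ.f k C C' D D') (hv : I.FinD k C C') : J.FinD k D D' := by
  obtain ⟨n, z, z1, z2⟩ := hv
  refine ⟨n, fun j => φ.f (z j), fun j => φ.map_zc hD hD' (z1 j), fun s hs => ?_⟩
  obtain ⟨a, a1, a2⟩ := h s hs
  obtain ⟨c, hc⟩ := z2 a a1
  refine ⟨c, ?_⟩
  have := a2.add (φ.map_bd (a1.sub (Zc.sum _ fun j _ => (z1 j).smul (c j))).1 hD hD' hc)
  simpa only [map_sub, map_sum, map_smul, sub_add_sub_cancel] using this
/-- pass to the quotient modules `Zc / Bd` (submodules!); a subspace of a finite dimensional space is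
finite dimensional.  Only used: `f` maps `Zc` to `Zc`. -/
theorem Inj.finD {f : I.A →ₗ[ℚ] J.A} (hz : ∀ s, I.Zc k C C' s → J.Zc k D D' (f s))
    (h : Inj I J f k C C' D D') (hv : J.FinD k D D') : I.FinD k C C' := by
  obtain ⟨n, z, -, z2⟩ := hv
  let Z : Submodule ℚ I.A := ⟨⟨⟨{a | I.Zc k C C' a}, Zc.add⟩, Zc.zero⟩, fun c _ h => h.smul c⟩
  let B : Submodule ℚ J.A := ⟨⟨⟨{a | J.Bd k D D' a}, Bd.add⟩, Bd.zero⟩, fun c _ h => h.smul c⟩
  let g : Z →ₗ[ℚ] J.A ⧸ B := B.mkQ ∘ₗ f ∘ₗ Z.subtype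
  have hle : LinearMap.range g ≤ Submodule.span ℚ (range fun j => B.mkQ (z j)) := by
    rintro _ ⟨a, rfl⟩
    obtain ⟨c, hc⟩ := z2 _ (hz a a.2)
    refine (Submodule.mem_span_range_iff_exists_fun ℚ).2 ⟨c, Eq.symm ?_⟩
    simp only [← map_smul, ← map_sum]
    exact (Submodule.Quotient.eq B).2 hc
  have := FiniteDimensional.span_of_finite ℚ (finite_range fun j => B.mkQ (z j))
  have := Submodule.finiteDimensional_of_le hle
  obtain ⟨m, b, hb⟩ := Module.Finite.exists_fin (R := ℚ) (M := LinearMap.range g)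
  choose y hy using fun j => (b j).2
  refine ⟨m, fun j => y j, fun j => (y j).2, fun s hs => ?_⟩
  obtain ⟨c, hc⟩ := (Submodule.mem_span_range_iff_exists_fun ℚ).1
    (hb ▸ Submodule.mem_top : (⟨g ⟨s, hs⟩, _, rfl⟩ : LinearMap.range g) ∈ Submodule.span ℚ (range b))
  refine ⟨c, h _ (hs.sub (Zc.sum _ fun j _ => Zc.smul (c j) (y j).2)) ?_⟩
  have e : g ⟨s, hs⟩ = g (∑ j, c j • y j) := by
    simpa only [map_sum, map_smul, hy, AddSubmonoidClass.coe_finsetSum, SetLike.val_smul] using (congrArg Subtype.val hc).symm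
  show _ ∈ B
  simpa only [map_sub, map_sum, map_smul, LinearMap.coe_comp, Submodule.coe_subtype, Function.comp_apply] using (Submodule.Quotient.eq B).1 e
section
variable (φ : Hom p I J) (ψ : Hom q J K) (hD : MapsTo p D C) (hD' : MapsTo p D' C')
  (hB : MapsTo q B D) (hB' : MapsTo q B' D')
include hD hD' hB hB'
theorem Sur.comp : Sur I J φ.f k C C' D D' → Sur J K ψ.f k D D' B B' →
    Sur I K (ψ.comp φ).f k C C' B B' := fun a b s hs => by
  obtain ⟨u, u1, u2⟩ := b s hs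
  obtain ⟨v, v1, v2⟩ := a u u1
  exact ⟨v, v1, by simpa [Hom.comp] using u2.add (ψ.map_bd (sub_mem u1.1 (φ.gr v1.1)) hB hB' v2)⟩
theorem Inj.comp : Inj I J φ.f k C C' D D' → Inj J K ψ.f k D D' B B' →
    Inj I K (ψ.comp φ).f k C C' B B' := fun a b s hs h =>
  a s hs (b _ (φ.map_zc hD hD' hs) h)
theorem Sur.of_comp : Sur I K (ψ.comp φ).f k C C' B B' → Sur J K ψ.f k D D' B B' :=
  fun a s hs => let ⟨u, u1, u2⟩ := a s hs; ⟨_, φ.map_zc hD hD' u1, u2⟩
theorem Inj.of_comp : Inj I K (ψ.comp φ).f k C C' B B' → Inj I J φ.f k C C' D D' :=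
  fun a s hs h => a s hs (ψ.map_bd (φ.gr hs.1) hB hB' h)
theorem Sur.of_comp_inj : Sur I K (ψ.comp φ).f k C C' B B' → Inj J K ψ.f k D D' B B' →
    Sur I J φ.f k C C' D D' := fun a b s hs => by
  obtain ⟨u, u1, u2⟩ := a _ (ψ.map_zc hB hB' hs)
  exact ⟨u, u1, b _ (hs.sub (φ.map_zc hD hD' u1)) (by simpa [Hom.comp] using u2)⟩
theorem Inj.of_comp_sur : Inj I K (ψ.comp φ).f k C C' B B' → Sur I J φ.f k C C' D D' →
    Inj J K ψ.f k D D' B B' := fun a b s hs h => by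
  obtain ⟨u, u1, u2⟩ := b s hs
  refine u2.of_sub (φ.map_bd u1.1 hD hD' (a u u1 ?_))
  simpa [Hom.comp] using h.sub (ψ.map_bd (sub_mem hs.1 (φ.gr u1.1)) hB hB' u2)
end
theorem Hom.CartAt.comp {φ : Hom p I J} {ψ : Hom q J K} {w : W} (h : φ.CartAt (q w))
    (h' : ψ.CartAt w) : (ψ.comp φ).CartAt w := fun k =>
  ⟨Sur.comp φ ψ (mapsTo_singleton.2 rfl) (mapsTo_empty _ _) (mapsTo_singleton.2 rfl)
      (mapsTo_empty _ _) (h k).1 (h' k).1,
    Inj.comp φ ψ (mapsTo_singleton.2 rfl) (mapsTo_empty _ _) (mapsTo_singleton.2 rfl)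
      (mapsTo_empty _ _) (h k).2 (h' k).2⟩
/-- restriction `H(C, C'') → H(C', C'')` -/
theorem sur_res (h1 : C'' ⊆ C') (h2 : C' ⊆ C) (h : I.Van (k + 1) C C') :
    Sur I I LinearMap.id k C C'' C' C'' := fun s hs => by
  obtain ⟨t, t1, t2, t3⟩ := h (I.d s) ⟨I.d_gr hs.1, hs.2.2, N_dd hs.1⟩
  rw [add_sub_cancel_right] at t1
  exact ⟨s - t, ⟨sub_mem hs.1 t1, sub_mem hs.2.1 (N_anti_8 h1 t2), by simpa using t3⟩,
    Bd.of_N (by simpa using t2)⟩
theorem inj_res (h1 : C'' ⊆ C') (h2 : C' ⊆ C) (h : I.Van k C C') :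
    Inj I I LinearMap.id k C C'' C' C'' := by
  rintro s hs ⟨t, t1, t2, t3⟩
  exact ((h (s - I.d t) ⟨sub_mem hs.1 (d_gr' t1), t3, (hs.sub (Zc.d t1 t2)).2.2⟩).mono
    subset_rfl h1).of_sub (Bd.d t1 t2)
theorem van_of_res (h1 : C'' ⊆ C') (h2 : C' ⊆ C) (hs : Sur I I LinearMap.id (k - 1) C C'' C' C'')
    (hi : Inj I I LinearMap.id k C C'' C' C'') : I.Van k C C' := fun s h => by
  obtain ⟨t, t1, t0, t2⟩ := hi s (h.mono subset_rfl h1) (Bd.of_N h.2.1)
  obtain ⟨u, u1, w, w1, -, w2⟩ := hs t ⟨t1, t0, by simpa using sub_mem h.2.1 (N_anti_8 h2 t2)⟩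
  refine ⟨t - u - I.d w, sub_mem (sub_mem t1 u1.1) (d_gr' w1), w2, ?_⟩
  convert add_mem (add_mem t2 u1.2.2) (N_dd w1) using 1
  rw [map_sub, map_sub]; abel
/-- `H(C, C') → H(C, C'')` -/
theorem sur_rel' (h1 : C'' ⊆ C') (h2 : C' ⊆ C) (h : I.Van k C' C'') :
    Sur I I LinearMap.id k C C' C C'' := fun s hs => by
  obtain ⟨t, t1, t2, t3⟩ := h s (hs.mono h2 subset_rfl)
  exact ⟨s - I.d t, ⟨sub_mem hs.1 (d_gr' t1), t3, (hs.sub (Zc.d t1 t2)).2.2⟩, by
    simpa using Bd.d t1 t2⟩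
theorem inj_rel' (h1 : C'' ⊆ C') (h2 : C' ⊆ C) (h : I.Van (k - 1) C' C'') :
    Inj I I LinearMap.id k C C' C C'' := by
  rintro s hs ⟨t, t1, t2, t3 : s - I.d t ∈ _⟩
  obtain ⟨u, u1, u2, u3⟩ := h t ⟨t1, t2, by simpa using sub_mem hs.2.1 (N_anti_8 h2 t3)⟩
  refine ⟨t - I.d u, sub_mem t1 (d_gr' u1), u3, ?_⟩
  rw [map_sub, ← sub_add]; exact add_mem t3 (N_dd u1)
/-- cone cocycle `(s,t)`: `-d s ∈ N C`, `f s + d t ∈ N C`.  (⇐): `s = d u`, then `t + f u` is a cocycle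
`≡ f w + d t'`, take `(w - u, t')`. -/
theorem van_cone_iff {I J : PC X} (φ : Hom id I J) (h : C' ⊆ C) :
    φ.cone.Van k C C' ↔ Sur I J φ.f k C C' C C' ∧ Inj I J φ.f (k + 1) C C' C C' :=
  ⟨fun a => ⟨cone_sur φ a, cone_inj φ (by simpa using a)⟩, fun a => cone_van φ a.1 a.2⟩
/-- long exact sequence of the cone -/
theorem van_of_cone {I J : PC X} (φ : Hom id I J) (h : C' ⊆ C) (hI : I.Van (k + 1) C C')
    (hJ : J.Van k C C') : φ.cone.Van k C C' := cone_van φ (sur_of_van hJ) (inj_of_van hI)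
/-- a morphism `I → p_* J` as a morphism on `X` -/
def Hom.toPush (φ : Hom p I J) : Hom id I (J.push p) :=
  ⟨φ.f, φ.gr, fun {k s} h => closure_minimal (image_subset_iff.2 (φ.supp h)) (I.closed s),
    fun h => (congrArg (fun S => closure (p '' S)) (φ.comm h)).trans (by simp only [image_empty, isClosed_empty, IsClosed.closure_eq])⟩
/-- the same linear map between complexes with other degrees / supports -/
theorem ResAt.of_cart (φ : Hom p I J) {y : Y} (h : φ.CartAt y) {n : ℤ} {s0 : I.A}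
    (hs : I.ResAt n s0 (p y)) : J.ResAt n (φ.f s0) y := by
  have m : MapsTo p {y} {p y} := mapsTo_singleton.2 rfl
  refine ⟨φ.map_zc m (mapsTo_empty _ _) hs.1, fun hb => hs.2.1 ((h _).2 _ hs.1 hb), fun s z => ?_,
    fun k hk => Sur.van φ m (mapsTo_empty _ _) (h k).1 (hs.2.2.2 k hk)⟩
  obtain ⟨a, a1, a2⟩ := (h _).1 s z
  obtain ⟨c, hc⟩ := hs.2.2.1 a a1
  exact ⟨c, by simpa using a2.add (φ.map_bd (a1.sub (hs.1.smul c)).1 m (mapsTo_empty _ _) hc)⟩
theorem ResAt.of_cart' (φ : Hom p I J) {y : Y} (h : φ.CartAt y) {n : ℤ} {s0 : I.A}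
    (hz : I.Zc (-n) {p y} ∅ s0) (hs : J.ResAt n (φ.f s0) y) : I.ResAt n s0 (p y) := by
  have m : MapsTo p {y} {p y} := mapsTo_singleton.2 rfl
  refine ⟨hz, fun hb => hs.2.1 (φ.map_bd hz.1 m (mapsTo_empty _ _) hb), fun s z => ?_,
    fun k hk => Inj.van φ m (mapsTo_empty _ _) (h k).2 (hs.2.2.2 k hk)⟩
  obtain ⟨c, hc⟩ := hs.2.2.1 _ (φ.map_zc m (mapsTo_empty _ _) z)
  exact ⟨c, (h _).2 _ (z.sub (hz.smul c)) (by simpa using hc)⟩
theorem cst_resAt (n : ℤ) (x : X) : (cstPC X ℚ n).ResAt n (1 : ℚ) x :=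
  ⟨cst_zc ℚ _, fun h => one_ne_zero (α := ℚ) ((cst_bd ℚ).1 h), fun (s : ℚ) _ =>
    ⟨s, (cst_bd ℚ).2 (show s - s • (1 : ℚ) = 0 by simp)⟩,
    fun _ hk _ hs => (cst_bd ℚ).2 ((cst_gr ℚ hs.1).resolve_left hk)⟩
theorem cstHom_cart (p : Y → X) (E : Type) [AddCommGroup E] [Module ℚ E] (n : ℤ) :
    (cstHom p E n).Cart := cstHom_cart_8 E p n
/-- a linear family of global cocycles is a morphism from the constant presheaf -/
theorem exists_cstHom {E : Type} [AddCommGroup E] [Module ℚ E] (n : ℤ) (σ : E →ₗ[ℚ] I.A)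
    (h : ∀ e, I.Zc (-n) univ ∅ (σ e)) : ∃ φ : Hom id (cstPC X E n) I, φ.f = σ := ⟨cstTo σ h, rfl⟩
theorem cart_cst_iff {n : ℤ} (φ : Hom id (cstPC X ℚ n) I) (x : X) :
    φ.CartAt x ↔ I.ResAt n (φ.f (1 : ℚ)) x := by
  refine ⟨fun h => ResAt.of_cart φ h (cst_resAt n x), fun h k => ?_⟩
  have e : ∀ c : ℚ, φ.f c = c • φ.f (1 : ℚ) := fun c =>
    (congrArg φ.f (show c = c • (1 : ℚ) by simp)).trans (φ.f.map_smul c (1 : ℚ))
  by_cases hk : k = -n
  · subst hk
    refine ⟨fun s hs => ?_, fun (c : ℚ) _ hb => (cst_bd ℚ).2 (by_contra fun h0 => h.2.1 ?_)⟩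
    · obtain ⟨c, hc⟩ := h.2.2.1 s hs
      exact ⟨c, cst_zc ℚ _, by rwa [e]⟩
    · have := hb.smul c⁻¹
      rwa [e, smul_smul, inv_mul_cancel₀ h0, one_smul] at this
  · exact ⟨sur_of_van (h.2.2.2 k hk), inj_of_van ((cst_resAt n x).2.2.2 k hk)⟩

end C73
end
end

section
/-! E04: flasqueness of the constructions and excision. -/

open Set Filter Topology TopologicalSpace

noncomputable section
namespace C73
open PC

variable {X Y : Type} [TopologicalSpace X] [TopologicalSpace Y]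

variable {I : PC X} {k : ℤ}
/-- glue `0` on `U` and `s` on `V` (index type `Bool`) -/
theorem exc_open (hI : I.Fl) {U V : Set X} (hU : IsOpen U) (hV : IsOpen V) {s : I.A}
    (hs : s ∈ I.gr k) (h : s ∈ I.N (U ∩ V)) :
    ∃ a ∈ I.gr k, a ∈ I.N U ∧ s - a ∈ I.N V :=
  let ⟨r, a, b, c⟩ := (hI.gl_open hV hU).cut hs (inter_comm U V ▸ h); ⟨r, a, c, N_symm b⟩
theorem e04_gl [MetrizableSpace X] (hI : I.Fl) {C₁ C₂ : Set X} (h1 : closure C₁ ∩ C₂ ⊆ C₁)
    (h2 : closure C₂ ∩ C₁ ⊆ C₂) : I.Gl C₁ C₂ :=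
  hI.gl_rel (disjoint_left.2 fun _ a b => b.2 (h1 ⟨closure_mono sdiff_subset a, b.1⟩))
    (disjoint_left.2 fun _ a b => a.2 (h2 ⟨closure_mono sdiff_subset b, a.1⟩))
/-- `C₁ ∩ supp s` and `C₂ ∩ supp s` are separated sets of a completely normal space; take disjoint
open neighbourhoods `O₁, O₂` and apply `exc_open` to `(supp s)ᶜ ∪ O_i`. -/
theorem exc_closed [MetrizableSpace X] (hI : I.Fl) {C₁ C₂ : Set X} (h1 : closure C₁ ∩ C₂ ⊆ C₁)
    (h2 : closure C₂ ∩ C₁ ⊆ C₂) {s : I.A} (hs : s ∈ I.gr k) (h : s ∈ I.N (C₁ ∩ C₂)) :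
    ∃ a ∈ I.gr k, a ∈ I.N C₁ ∧ s - a ∈ I.N C₂ :=
  let ⟨r, a, b, c⟩ := (e04_gl hI h2 h1).cut hs (inter_comm C₁ C₂ ▸ h); ⟨r, a, c, N_symm b⟩
/-- the splitting property behind excision -/
def PC.Exc (I : PC X) (C₁ C₂ : Set X) : Prop :=
  ∀ k, ∀ s ∈ I.gr k, s ∈ I.N (C₁ ∩ C₂) → ∃ a ∈ I.gr k, a ∈ I.N C₁ ∧ s - a ∈ I.N C₂
theorem exc_of_open (hI : I.Fl) {U V : Set X} (hU : IsOpen U) (hV : IsOpen V) : I.Exc U V := fun _ _ => exc_open hI hU hV
theorem exc_of_closed [MetrizableSpace X] (hI : I.Fl) {C₁ C₂ : Set X} (h1 : closure C₁ ∩ C₂ ⊆ C₁)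
    (h2 : closure C₂ ∩ C₁ ⊆ C₂) : I.Exc C₁ C₂ := fun _ _ => exc_closed hI h1 h2
theorem exc_of_isClosed [MetrizableSpace X] (hI : I.Fl) {C₁ C₂ : Set X} (h1 : IsClosed C₁)
    (h2 : IsClosed C₂) : I.Exc C₁ C₂ :=
  exc_of_closed hI (h1.closure_eq.symm ▸ inter_subset_left) (h2.closure_eq.symm ▸ inter_subset_left)
theorem PC.Exc.gl {C₁ C₂ : Set X} (h : I.Exc C₁ C₂) : I.Gl C₁ C₂ := fun k s t hs ht h' => by
  obtain ⟨a, a1, a2, a3⟩ := h k _ (sub_mem hs ht) h'
  exact ⟨s - a, sub_mem hs a1, by simpa using neg_mem a2, by rwa [sub_right_comm]⟩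
theorem bij_exc {C₁ C₂ : Set X} (h : I.Exc C₁ C₂) :
    Bij I I LinearMap.id (C₁ ∪ C₂) C₂ C₁ (C₁ ∩ C₂) := h.gl.exc_bij
theorem van_exc {C₁ C₂ : Set X} (h : I.Exc C₁ C₂) :
    I.Van k (C₁ ∪ C₂) C₂ ↔ I.Van k C₁ (C₁ ∩ C₂) := h.gl.exc
/-- open excision in the usual form -/
theorem van_exc_open (hI : I.Fl) {O O' U : Set X} (hO' : IsOpen O') (hU : IsOpen U) (h1 : O' ⊆ O)
    (h2 : U ⊆ O) (h3 : O ⊆ O' ∪ U) : I.Van k O O' ↔ I.Van k U (U ∩ O') := by
  rw [← (hI.gl_open hU hO').exc, (union_subset h2 h1).antisymm (h3.trans (union_comm _ _).subset)]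
theorem fl_push (hI : I.Fl) {p : X → Y} (hp : Continuous p) : (I.push p).Fl := hI.push hp
/-- add the open set `Zᶜ` with section `0` (index `Option κ`) -/
theorem fl_on (hI : I.Fl) {Z : Set X} (hZ : IsClosed Z) : (I.on Z).Fl := hI.on hZ
theorem fl_comap_open (hI : I.Fl) {e : Y → X} (he : IsOpenEmbedding e) :
    (I.comap e he.continuous).Fl := hI.comap_open he
theorem fl_loc (hI : I.Fl) {U : Set X} (hU : IsOpen U) : (I.loc U).Fl := hI.loc hU
/-- use the opens `(Z \ U i)ᶜ` of `X` and `Zᶜ` -/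
theorem fl_shriek (hI : I.Fl) {Z : Set X} (hZ : IsClosed Z) :
    ((I.on Z).comap (Subtype.val : Z → X) continuous_subtype_val).Fl := fun k κ U s hU hs h => by
  have hc : ∀ i, IsOpen (Subtype.val '' (U i)ᶜ : Set X)ᶜ := fun i =>
    (hZ.isClosedMap_subtype_val _ (hU i).isClosed_compl).isOpen_compl
  obtain ⟨t, t1, t2⟩ := hI.on hZ k κ _ s hc hs fun i j => mem_N'.2 fun x hx hx' => by
    have hz : x ∈ Z := by_contra fun hz => mem_N'.1 (sub_mem (hs i).2 (hs j).2) x hz hx'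
    exact mem_N'.1 (h i j) ⟨x, hz⟩ ⟨by_contra fun h' => hx.1 ⟨_, h', rfl⟩,
      by_contra fun h' => hx.2 ⟨_, h', rfl⟩⟩ hx'
  exact ⟨t, t1, fun i => mem_N'.2 fun y hy => mem_N'.1 (t2 i) y fun ⟨z, hz, e⟩ =>
    hz (Subtype.ext e ▸ hy)⟩
theorem fl_pi {κ : Type} [Finite κ] {I : κ → PC X} (h : ∀ a, (I a).Fl) : (piPC I).Fl := fl_pi_8 h
theorem fl_cone {J : PC X} (φ : Hom id I J) (hI : I.Fl) (hJ : J.Fl) : φ.cone.Fl := fl_cone_8 φ hI hJ
/-- `t (z :: l) := s (i z) (z :: l)` for a chosen `i z` with `z ∈ U (i z)`, `0` otherwise -/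
theorem fl_god (p : Y → X) (hp : Continuous p) (I : PC X) : (god p hp I).Fl := fl_god_8 p hp I
theorem fl_trunc (c : ℤ) (I : PC X) : (trunc c I).Fl := fl_trunc_8 c I
theorem fl_resC (E : Type) [AddCommGroup E] [Module ℚ E] (n : ℤ) : (resC X E n).Fl := fl_resC_8 E n
theorem fl_mdel (dm : X → ℕ) (n t : ℕ) : (mdel dm n t).Fl := fl_mdel_8 dm n t

end C73
end
end

section
/-! E05: restriction of a flasque complex to an arbitrary subspace of a metrizable space is flasque.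
Plan: reduce to a subset `C` of a metric space. Given relatively open `O i ⊆ C`, `s i - s j ∈ N (O i ∩ O j)`; `O := ⋃ O i` is paracompact (metrizable subtype): locally finite refinement (`precise_refinement`) `O' i` and shrinking `O'' i` with relative closure in `O' i` (`exists_subset_iUnion_closure_subset`). `Ext P := {x | infDist x P < infDist x (O \ P)}` (treat `O \ P = ∅` separately, or use `infEDist`): open, `Ext P ∩ O = P`, `Ext P ∩ Ext P' ≠ ∅ → P ∩ P' ≠ ∅`. For `c ∈ O` pick `a c` with `c ∈ O'' (a c)`, a relatively open `P c ∋ c` inside `O'' (a c)` meeting only those `O'' a` whose closure contains `c` (finitely many), and an open `B c ∋ c` of `X` on which all these `s a` agree. Glue `s (a c)` on `Ext (P c) ∩ B c`. -/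

open Set Filter Topology TopologicalSpace

noncomputable section
namespace C73
open PC

variable {X Y : Type} [TopologicalSpace X] [TopologicalSpace Y]

theorem fl_comap [MetrizableSpace X] {I : PC X} (hI : I.Fl) {e : Y → X} (he : IsEmbedding e) :
    (I.comap e he.continuous).Fl := hI.comap he

end C73
end
end

section
/-! E06: stalkwise acyclic ⇒ acyclic; stalkwise quasi-isomorphisms. -/

open Set Filter Topology TopologicalSpace

noncomputable section
namespace C73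
open PC

variable {X Y : Type} [TopologicalSpace X] [TopologicalSpace Y]

variable {I J : PC X}
/-- induction on `k` from `van_bdd`, for all open `V ⊆ U` at once; Zorn on pairs `(V, t)` with
`s - d t ∈ N V`, ordered by `V ⊆ V'`, `t' - t ∈ N V` (chains glue by `Fl`); extension step: local
primitive `t'` on `W`, `t - t' = d u` on `V ∩ W`, glue `t` and `t' + d u`. -/
theorem acy_open (hI : I.Fl) {U : Set X} (hU : IsOpen U) (k1 : ℤ)
    (h : ∀ x ∈ U, ∀ k ≤ k1, I.Van k {x} ∅) : ∀ k ≤ k1, I.Van k U ∅ := fun _ hk =>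
  hI.acy hU fun x hx j hj => h x hx j (hj.trans hk)
/-- `acy_open` on the subspace `C` (`fl_comap`, `van_comap_iff`), then `tri2` -/
theorem acy_set [MetrizableSpace X] (hI : I.Fl) {C C' : Set X} (hC : C' ⊆ C) (k1 : ℤ)
    (h : ∀ x ∈ C, ∀ k ≤ k1, I.Van k {x} ∅) : ∀ k ≤ k1, I.Van k C C' := fun k hk =>
  tri2_8 (empty_subset _) (hI.acy' fun x hx j hj => h x (hC hx) j (by omega))
    (hI.acy' fun x hx j hj => h x hx j (hj.trans hk)) hC
/-- via the cone -/
theorem qis_open_le (φ : Hom id I J) (hI : I.Fl) (hJ : J.Fl) {U U' : Set X} (hU : IsOpen U)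
    (hU' : IsOpen U') (h' : U' ⊆ U) (k1 : ℤ)
    (h : ∀ x ∈ U, ∀ k ≤ k1, Sur I J φ.f k {x} ∅ {x} ∅ ∧ Inj I J φ.f (k + 1) {x} ∅ {x} ∅) :
    ∀ k ≤ k1, Sur I J φ.f k U U' U U' ∧ Inj I J φ.f (k + 1) U U' U U' := fun _ hk =>
  qis_le φ hI hJ h' hU hU' fun x hx j hj => h x hx j (hj.trans hk)
theorem qis_open (φ : Hom id I J) (hI : I.Fl) (hJ : J.Fl) {U U' : Set X} (hU : IsOpen U)
    (hU' : IsOpen U') (h' : U' ⊆ U) (h : ∀ x ∈ U, φ.CartAt x) : Bij I J φ.f U U' U U' := qis φ hI hJ h' hU hU' h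
theorem qis_set [MetrizableSpace X] (φ : Hom id I J) (hI : I.Fl) (hJ : J.Fl) {C C' : Set X}
    (h' : C' ⊆ C) (h : ∀ x ∈ C, φ.CartAt x) : Bij I J φ.f C C' C C' := qis' φ hI hJ h' h
/-- colimit argument: bijective on a neighbourhood basis ⇒ bijective on stalks -/
theorem cartAt_of_basis {p : Y → X} {J : PC Y} (φ : Hom p I J) (hp : Continuous p) (y : Y)
    (h : ∀ U ∈ 𝓝 (p y), ∀ V ∈ 𝓝 y, ∃ U' V', U' ∈ 𝓝 (p y) ∧ V' ∈ 𝓝 y ∧ U' ⊆ U ∧ V' ⊆ V ∧
      MapsTo p V' U' ∧ Bij I J φ.f U' ∅ V' ∅) : φ.CartAt y := fun k => by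
  refine ⟨fun s hs => ?_, fun s hs ⟨t, t1, _, t2⟩ => ?_⟩
  · obtain ⟨V, v1, v2, v3⟩ := hs.nhds
    obtain ⟨U', V', u1, u2, -, u4, -, u6⟩ := h univ univ_mem V (v1.mem_nhds (v2 rfl))
    obtain ⟨a, a1, a2⟩ := (u6 k).1 s (v3.mono u4 subset_rfl)
    exact ⟨a, a1.mono (singleton_subset_iff.2 (mem_of_mem_nhds u1)) subset_rfl,
      a2.mono (singleton_subset_iff.2 (mem_of_mem_nhds u2)) subset_rfl⟩
  · obtain ⟨U, v1, v2, v3⟩ := hs.nhds
    obtain ⟨V, w1, w2, w3⟩ := J.N_nhds t2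
    obtain ⟨U', V', u1, -, u3, u4, -, u6⟩ := h U (v1.mem_nhds (v2 rfl)) V (w1.mem_nhds (w2 rfl))
    exact ((u6 k).2 s (v3.mono u3 subset_rfl) ⟨t, t1, N_empty_8 _, N_anti_8 u4 w3⟩).mono
      (singleton_subset_iff.2 (mem_of_mem_nhds u1)) subset_rfl
theorem e06_on_pt (hI : I.Fl) {Z : Set X} (hZ : IsClosed Z) {x : X} {k : ℤ}
    (h : ∀ U ∈ 𝓝 x, ∃ U', IsOpen U' ∧ x ∈ U' ∧ U' ⊆ U ∧ I.Van k U' (U' \ Z)) :
    (I.on Z).Van k {x} ∅ := fun s hs => by
  obtain ⟨U, u1, u2, u3⟩ := hs.nhds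
  obtain ⟨U', a, b, c, d⟩ := h U (u1.mem_nhds (u2 rfl))
  exact ((hI.on_van hZ a).2 d s (u3.mono c subset_rfl)).mono (singleton_subset_iff.2 b) subset_rfl
/-- local vanishing of `H_Z`: `acy_open` for `I.on (V \ V')`-type supports. Let `Z := closure (V \ V')`
or rather work with `I.on V'ᶜ`. -/
theorem van_of_local (hI : I.Fl) {V V' : Set X} (hV : IsOpen V) (hV' : IsOpen V') (h' : V' ⊆ V)
    (k1 : ℤ) (h : ∀ x ∈ V \ V', ∀ U ∈ 𝓝 x, ∃ U', IsOpen U' ∧ x ∈ U' ∧ U' ⊆ U ∧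
      ∀ k ≤ k1, I.Van k U' (U' ∩ V')) : ∀ k ≤ k1, I.Van k V V' := fun k hk => by
  have := (hI.on hV'.isClosed_compl).acy (k := k) hV fun x hx j hj =>
    e06_on_pt hI hV'.isClosed_compl fun U hU => by
      by_cases hx' : x ∈ V'
      · exact ⟨interior U ∩ V', isOpen_interior.inter hV', ⟨mem_interior_iff_mem_nhds.2 hU, hx'⟩,
          inter_subset_left.trans interior_subset, I.van_self fun y hy => ⟨hy, not_not.2 hy.2⟩⟩
      · obtain ⟨U', a, b, c, d⟩ := h x ⟨hx, hx'⟩ U hU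
        exact ⟨U', a, b, c, by simpa using d j (hj.trans hk)⟩
  rw [hI.on_van hV'.isClosed_compl hV] at this
  rwa [sdiff_compl, inter_eq_right.2 h'] at this
/-- stalks of `I.on Z` -/
theorem van_on_pt (hI : I.Fl) {Z : Set X} (hZ : IsClosed Z) {x : X} {k : ℤ}
    (h : ∀ U ∈ 𝓝 x, ∃ U', IsOpen U' ∧ x ∈ U' ∧ U' ⊆ U ∧ I.Van k U' (U' \ Z)) :
    (I.on Z).Van k {x} ∅ := e06_on_pt hI hZ h
/-- relative acyclicity along a closed set: `s` vanishes on an open `W ⊇ V ∩ Z`; choose open `W'` with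
`V ∩ Z ⊆ W'`, `closure W' ∩ V ⊆ W`; `C₁ = V \ W'`, `C₂ = closure W' ∩ V`; `acy_set`, `van_exc`. -/
theorem van_rel_closed [MetrizableSpace X] (hI : I.Fl) {V Z : Set X} (hV : IsOpen V)
    (hZ : IsClosed Z) (h : ∀ x ∈ V \ Z, ∀ k, I.Van k {x} ∅) (k : ℤ) : I.Van k V (V ∩ Z) := fun s hs => by
  obtain ⟨A, B, a1, b1, a2, b2, hd⟩ := separatedNhds_iff_disjoint.2
    (completely_normal (s := V ∩ I.supp s) (t := V ∩ Z)
      (disjoint_left.2 fun x hx hx' => mem_N'.1 hs.2.1 x hx'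
        (closure_minimal inter_subset_right (I.closed s) hx))
      (disjoint_left.2 fun x hx hx' => mem_N'.1 hs.2.1 x
        ⟨hx.1, closure_minimal inter_subset_right hZ hx'⟩ hx.2))
  have g : I.Gl (V \ B) (V \ A) := e04_gl hI
    (fun x hx => ⟨hx.2.1, closure_minimal (fun y hy => hy.2) b1.isClosed_compl hx.1⟩)
    (fun x hx => ⟨hx.2.1, closure_minimal (fun y hy => hy.2) a1.isClosed_compl hx.1⟩)
  have e : V ⊆ V \ B ∪ V \ A := fun x hx =>
    (em (x ∈ B)).elim (fun h => Or.inr ⟨hx, disjoint_right.1 hd h⟩) fun h => Or.inl ⟨hx, h⟩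
  have := g.exc.2 (acy_set hI inter_subset_left k
    (fun x hx j _ => h x ⟨hx.1, fun hz => hx.2 (b2 ⟨hx.1, hz⟩)⟩ j) k le_rfl) s
    ⟨hs.1, mem_N'.2 fun x hx hx' => hx.2 (a2 ⟨hx.1, hx'⟩),
      N_anti_8 (union_subset sdiff_subset sdiff_subset) hs.2.2⟩
  exact this.mono e fun x hx => ⟨hx.1, disjoint_right.1 hd (b2 hx)⟩

end C73
end
end

section
/-! E07: stalks of `god` and `trunc`. Key identity (`god_cons`): with `h s := fun l => s (x :: l)`,
`h (gD d s) = s - gD d (h s)` on all lists (also `[]`). For `s` of degree `k` with `gD d s` null at `x`: `a := s [x]`, `t' := h s` with the value at `[]` replaced by `0` (and cut off to lists starting in a small neighbourhood `W` of `x`); then `s - gD d t' - uL a` is null at `x` and `d a` is null at `p x`. For homogeneous elements only finitely many `n` matter in `∀ n, Nul …` (`bdd`, `Nul.of_empty`), so `∀ n` and `∀ᶠ` commute. -/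

open Set Filter Topology TopologicalSpace

noncomputable section
namespace C73
open PC

variable {X Y : Type} [TopologicalSpace X] [TopologicalSpace Y]

theorem godU_cart (p : Y → X) (hp : Continuous p) (I : PC X) : (godU p hp I).Cart := godU_cart_8 p hp I
theorem e07_comm {p : Y → X} (hp : Continuous p) {I : PC X} {J : PC Y} (φ : Hom p I J) (a : I.A) :
    (godMap hp φ).f ((godU id continuous_id I).f a) = (godU id continuous_id J).f (φ.f a) :=
  funext fun l => by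
    show φ.f (uL X a (l.map p)) = uL Y (φ.f a) l
    by_cases hl : l.length = 1 <;> simp [uL_apply, hl]
/-- `godMap φ ∘ godU = godU ∘ φ` exactly; use `godU_cart` and E03 -/
theorem godMap_sur {p : Y → X} (hp : Continuous p) {I : PC X} {J : PC Y} (φ : Hom p I J) (k : ℤ)
    (y : Y) (h : Sur I J φ.f k {p y} ∅ {y} ∅) :
    Sur _ _ (godMap hp φ).f k {p y} ∅ {y} ∅ := fun s hs => by
  obtain ⟨b, b1, b2⟩ := (godU_cart id continuous_id J y k).1 s hs
  obtain ⟨a, a1, a2⟩ := h b b1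
  refine ⟨_, (godU id continuous_id I).map_zc (mapsTo_id _) (mapsTo_id _) a1, ?_⟩
  have := (godU id continuous_id J).map_bd (sub_mem b1.1 (φ.gr a1.1)) (mapsTo_id _)
    (mapsTo_id _) a2
  rw [e07_comm]
  simpa using b2.add this
theorem godMap_inj {p : Y → X} (hp : Continuous p) {I : PC X} {J : PC Y} (φ : Hom p I J) (k : ℤ)
    (y : Y) (h : Inj I J φ.f k {p y} ∅ {y} ∅) :
    Inj _ _ (godMap hp φ).f k {p y} ∅ {y} ∅ := fun s hs hb => by
  have m : MapsTo p {y} {p y} := mapsTo_singleton.2 rfl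
  obtain ⟨a, a1, a2⟩ := (godU_cart id continuous_id I (p y) k).1 s hs
  have g := (godU id continuous_id I).gr a1.1
  have h1 := (godMap hp φ).map_bd (sub_mem hs.1 g) m (mapsTo_empty _ _) a2
  have h2 := (godU_cart id continuous_id J y k).2 _ (φ.map_zc m (mapsTo_empty _ _) a1)
    (by rw [← e07_comm hp]; simpa using hb.sub h1)
  exact a2.of_sub ((godU id continuous_id I).map_bd a1.1 (mapsTo_id _) (mapsTo_id _) (h a a1 h2))
theorem resMap_cart {p : Y → X} (hp : Continuous p) (E : Type) [AddCommGroup E] [Module ℚ E]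
    (n : ℤ) : (resMap hp E n).Cart := fun y => godMap_cartAt hp _ (cstHom_cart p E n y)
theorem resMap_comp {W : Type} [TopologicalSpace W] {p : Y → X} (hp : Continuous p) {q : W → Y}
    (hq : Continuous q) (E : Type) [AddCommGroup E] [Module ℚ E] (n : ℤ) :
    ((resMap hq E n).comp (resMap hp E n)).f = (resMap (hp.comp hq) E n).f :=
  LinearMap.ext fun s => funext fun l => congrArg s (List.map_map (f := q) (g := p) (l := l))
theorem resMap_id (E : Type) [AddCommGroup E] [Module ℚ E] (n : ℤ) :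
    (resMap (continuous_id : Continuous (id : X → X)) E n).f = LinearMap.id :=
  LinearMap.ext fun s => funext fun l => congrArg s (List.map_id l)
theorem resC_resAt (n : ℤ) : ∃ s0, (resC X ℚ n).Zc (-n) univ ∅ s0 ∧
    ∀ x, (resC X ℚ n).ResAt n s0 x :=
  ⟨_, (godU id continuous_id _).map_zc (mapsTo_id _) (mapsTo_id _) (cst_zc ℚ _), resC_resAt_8 n⟩
theorem resC_van (E : Type) [AddCommGroup E] [Module ℚ E] (n : ℤ) (x : X) {k : ℤ} (hk : k ≠ -n) :
    (resC X E n).Van k {x} ∅ := resC_van_8 E hk x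
theorem e07_nul {I J : PC X} (e : I.A → J.A) (h : ∀ a, J.supp (e a) = I.supp a) {n : ℕ} {z : X}
    {s : List X → I.A} : Nul id J n z (fun l => e (s l)) ↔ Nul id I n z s := by
  induction n generalizing z s with
  | zero => simp [Nul, h]
  | succ n ih => exact eventually_congr (Eventually.of_forall fun _ => ih)
theorem e07_gr (E : Type) [AddCommGroup E] [Module ℚ E] (n k : ℤ) (s : List X → E) :
    s ∈ (resC X E n).gr k ↔ s ∈ (resC X E 0).gr (k + n) := by
  classical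
  refine god_gr.trans (Iff.trans (and_congr Iff.rfl (forall₂_congr fun z l => ?_))
    (god_gr (I := cstPC X E 0)).symm)
  show s (z :: l) ∈ (if k - l.length = -n then ⊤ else ⊥ : Submodule ℚ E) ↔
    s (z :: l) ∈ (if k + n - l.length = -0 then ⊤ else ⊥ : Submodule ℚ E)
  rw [if_congr (show k - l.length = -n ↔ k + n - l.length = -0 by omega) rfl rfl]
theorem e07_N (E : Type) [AddCommGroup E] [Module ℚ E] (n : ℤ) (C : Set X) (s : List X → E) :
    s ∈ (resC X E n).N C ↔ s ∈ (resC X E 0).N C :=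
  (mem_N' (I := resC X E n)).trans (Iff.trans (forall₂_congr fun _ _ =>
    god_supp.trans (Iff.trans (eventually_congr (Eventually.of_forall fun _ => forall_congr' fun _ =>
      e07_nul (I := cstPC X E 0) (J := cstPC X E n) id fun _ => rfl)) god_supp.symm))
    (mem_N' (I := resC X E 0)).symm)
/-- `resC X E n` is a shift of `resC X E 0` (same `A`, `d`, `supp`) -/
theorem resC_shift (E : Type) [AddCommGroup E] [Module ℚ E] (n k : ℤ) (C C' : Set X) :
    (resC X E n).Van k C C' ↔ (resC X E 0).Van (k + n) C C' :=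
  forall_congr' fun s => imp_congr
    (and_congr (e07_gr E n k s) (and_congr (e07_N E n _ _) (e07_N E n _ _)))
    (exists_congr fun t => and_congr ((e07_gr E n _ t).trans (by rw [sub_add_eq_add_sub]; rfl))
      (and_congr (e07_N E n _ _) (e07_N E n _ _)))
theorem trunc_van (c : ℤ) (I : PC X) (x : X) {k : ℤ} (hk : c < k) : (trunc c I).Van k {x} ∅ := trunc_van_8 hk
theorem truncι_sur (c : ℤ) (I : PC X) (x : X) {k : ℤ} (hk : k ≤ c) :
    Sur _ _ (truncι c I).f k {x} ∅ {x} ∅ := trunc_sur hk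
theorem truncι_inj (c : ℤ) (I : PC X) (x : X) (k : ℤ) :
    Inj _ _ (truncι c I).f k {x} ∅ {x} ∅ :=
  (le_or_gt k c).elim trunc_inj fun h => inj_of_van (trunc_van_8 h)
theorem truncι_cartAt (c : ℤ) (I : PC X) (x : X) (h : ∀ k, c < k → I.Van k {x} ∅) :
    (truncι c I).CartAt x := fun k => ⟨(le_or_gt k c).elim trunc_sur fun hk =>
    sur_of_van (Sur.van (godU id continuous_id I) (mapsTo_id _) (mapsTo_id _)
      (godU_cart id continuous_id I x k).1 (h k hk)), truncι_inj c I x k⟩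
theorem truncMap_cartAt {p : Y → X} (hp : Continuous p) (c : ℤ) {I : PC X} {J : PC Y}
    (φ : Hom p I J) (y : Y)
    (h : ∀ k ≤ c, Sur I J φ.f k {p y} ∅ {y} ∅ ∧ Inj I J φ.f k {p y} ∅ {y} ∅) :
    (truncMap hp c φ).CartAt y := fun k => by
  rcases le_or_gt k c with hk | hk
  swap
  · exact ⟨sur_of_van (trunc_van_8 hk), inj_of_van (trunc_van_8 hk)⟩
  have m : MapsTo p {y} {p y} := mapsTo_singleton.2 rfl
  exact ⟨Sur.of_comp_inj (truncMap hp c φ) (truncι c J) m (mapsTo_empty _ _) (mapsTo_id _)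
      (mapsTo_id _) (Sur.comp (truncι c I) (godMap hp φ) (mapsTo_id _) (mapsTo_id _) m
        (mapsTo_empty _ _) (trunc_sur hk) (godMap_sur hp φ k y (h k hk).1)) (trunc_inj hk),
    Inj.of_comp (truncMap hp c φ) (truncι c J) m (mapsTo_empty _ _) (mapsTo_id _)
      (mapsTo_id _) (Inj.comp (truncι c I) (godMap hp φ) (mapsTo_id _) (mapsTo_id _) m
        (mapsTo_empty _ _) (trunc_inj hk) (godMap_inj hp φ k y (h k hk).2))⟩

end C73
end
end

section
/-! E08: `Eqv` is a congruence; invariance of the predicates (induction on `Relation.EqvGen`). -/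

open Set Filter Topology TopologicalSpace

noncomputable section
namespace C73

variable {X Y : Type} [TopologicalSpace X] [TopologicalSpace Y]

variable {I J : PC X} {k : ℤ}
theorem Eqv.of_hom (φ : Hom id I J) (hI : I.Fl) (hJ : J.Fl) (h : φ.Cart) : Eqv I J :=
  Relation.EqvGen.rel _ _ ⟨hI, hJ, φ, h⟩
theorem Eqv.refl (I : PC X) : Eqv I I := Relation.EqvGen.refl _
theorem Eqv.symm (h : Eqv I J) : Eqv J I := Relation.EqvGen.symm _ _ h
theorem Eqv.trans {K : PC X} (h : Eqv I J) (h' : Eqv J K) : Eqv I K :=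
  Relation.EqvGen.trans _ _ _ h h'

theorem e08_map (F : PC X → PC Y)
    (hF : ∀ I J : PC X, I.Fl → J.Fl → ∀ φ : Hom id I J, φ.Cart → Eqv (F I) (F J)) (h : Eqv I J) :
    Eqv (F I) (F J) := by
  induction h with
  | rel I J h => obtain ⟨a, b, φ, c⟩ := h; exact hF I J a b φ c
  | refl I => exact Eqv.refl _
  | symm I J _ ih => exact ih.symm
  | trans I J K _ _ a b => exact a.trans b

theorem e08_iff (P : PC X → Prop)
    (hP : ∀ I J : PC X, I.Fl → J.Fl → ∀ φ : Hom id I J, φ.Cart → (P I ↔ P J)) (h : Eqv I J) :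
    P I ↔ P J := by
  induction h with
  | rel I J h => obtain ⟨a, b, φ, c⟩ := h; exact hP I J a b φ c
  | refl I => exact Iff.rfl
  | symm I J _ ih => exact ih.symm
  | trans I J K _ _ a b => exact a.trans b

theorem Eqv.fl (h : Eqv I J) : I.Fl ↔ J.Fl :=
  e08_iff PC.Fl (fun _ _ a b _ _ => iff_of_true a b) h

theorem e08_zc_pt {e : Y → X} {he : Continuous e} {y : Y} {s : I.A} :
    (I.comap e he).Zc k {y} ∅ s ↔ I.Zc k {e y} ∅ s := by
  rw [PC.zc_comap_iff, image_singleton, image_empty]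

theorem e08_bd_pt {e : Y → X} {he : Continuous e} {y : Y} {s : I.A} :
    (I.comap e he).Bd k {y} ∅ s ↔ I.Bd k {e y} ∅ s := by
  rw [PC.bd_comap_iff, image_singleton, image_empty]

/-- restriction of a morphism -/
def e08_comap (φ : Hom id I J) (e : Y → X) (he : Continuous e) :
    Hom id (I.comap e he) (J.comap e he) :=
  ⟨φ.f, φ.gr, fun h => preimage_mono (φ.supp h),
    fun h => (congrArg (fun S => e ⁻¹' S) (φ.comm h)).trans preimage_empty⟩

theorem e08_comap_cart (φ : Hom id I J) (e : Y → X) (he : Continuous e) {y : Y}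
    (h : φ.CartAt (e y)) : (e08_comap φ e he).CartAt y := fun k =>
  ⟨fun s' hs' => let ⟨s, a, b⟩ := (h k).1 s' ((e08_zc_pt (e := e)).1 hs')
      ⟨s, (e08_zc_pt (e := e)).2 a, (e08_bd_pt (e := e)).2 b⟩,
    fun s a b => (e08_bd_pt (e := e)).2
      ((h k).2 s ((e08_zc_pt (e := e)).1 a) ((e08_bd_pt (e := e)).1 b))⟩

theorem Eqv.comap_open (h : Eqv I J) {e : Y → X} (he : IsOpenEmbedding e) :
    Eqv (I.comap e he.continuous) (J.comap e he.continuous) :=
  e08_map (fun I => I.comap e he.continuous) (fun _ _ a b φ c =>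
    Eqv.of_hom (e08_comap φ e _) (fl_comap_open a he) (fl_comap_open b he)
      fun _ => e08_comap_cart φ e _ (c _)) h
theorem Eqv.comap [MetrizableSpace X] (h : Eqv I J) {e : Y → X} (he : IsEmbedding e) :
    Eqv (I.comap e he.continuous) (J.comap e he.continuous) :=
  e08_map (fun I => I.comap e he.continuous) (fun _ _ a b φ c =>
    Eqv.of_hom (e08_comap φ e _) (fl_comap a he) (fl_comap b he)
      fun _ => e08_comap_cart φ e _ (c _)) h

theorem e08_cart_open (φ : Hom id I J) (h : ∀ U, IsOpen U → Bij I J φ.f U ∅ U ∅) : φ.Cart :=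
  fun y => cartAt_of_basis φ continuous_id y fun U hU V hV => by
    obtain ⟨W, a, b, c⟩ := mem_nhds_iff.1 (inter_mem hU hV)
    exact ⟨W, W, b.mem_nhds c, b.mem_nhds c, a.trans inter_subset_left,
      a.trans inter_subset_right, mapsTo_id _, h W b⟩

theorem e08_zc_push {p : X → Y} {U : Set Y} (hU : IsOpen U) {s : I.A} :
    (I.push p).Zc k U ∅ s ↔ I.Zc k (p ⁻¹' U) ∅ s :=
  and_congr Iff.rfl (and_congr (iff_of_true (PC.N_empty _ _) (PC.N_empty _ _)) (PC.N_push_open hU))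

theorem e08_bd_push {p : X → Y} {U : Set Y} (hU : IsOpen U) {s : I.A} :
    (I.push p).Bd k U ∅ s ↔ I.Bd k (p ⁻¹' U) ∅ s :=
  exists_congr fun _ => and_congr Iff.rfl
    (and_congr (iff_of_true (PC.N_empty _ _) (PC.N_empty _ _)) (PC.N_push_open hU))

/-- direct image of a morphism -/
def e08_push (φ : Hom id I J) (p : X → Y) : Hom id (I.push p) (J.push p) :=
  ⟨φ.f, φ.gr, fun h => closure_mono (image_mono (φ.supp h)),
    fun h => (congrArg (fun S => closure (p '' S)) (φ.comm h)).trans (by simp only [image_empty, isClosed_empty, IsClosed.closure_eq])⟩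

theorem Eqv.push (h : Eqv I J) {p : X → Y} (hp : Continuous p) : Eqv (I.push p) (J.push p) :=
  e08_map (fun I => I.push p) (fun _ _ a b φ c =>
    Eqv.of_hom (e08_push φ p) (fl_push a hp) (fl_push b hp) (e08_cart_open _ fun _ hU k =>
      have h := qis_open φ a b (hU.preimage hp) isOpen_empty (empty_subset _) (fun x _ => c x) k
      ⟨fun s' hs' => let ⟨s, a, b⟩ := h.1 s' ((e08_zc_push hU).1 hs')
          ⟨s, (e08_zc_push hU).2 a, (e08_bd_push hU).2 b⟩,
        fun s a b => (e08_bd_push hU).2 (h.2 s ((e08_zc_push hU).1 a) ((e08_bd_push hU).1 b))⟩)) h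

/-- a morphism on sections with supports -/
def e08_on (φ : Hom id I J) (Z : Set X) : Hom id (I.on Z) (J.on Z) :=
  ⟨φ.f, fun h => ⟨φ.gr h.1, φ.map_N h.1 (mapsTo_id _) h.2⟩, fun h => φ.supp h.1,
    fun h => φ.comm h.1⟩

theorem Eqv.on (h : Eqv I J) {Z : Set X} (hZ : IsClosed Z) : Eqv (I.on Z) (J.on Z) :=
  e08_map (fun I => I.on Z) (fun I J a b φ c =>
    Eqv.of_hom (e08_on φ Z) (fl_on a hZ) (fl_on b hZ) (e08_cart_open _ fun U hU k => by
      have h := qis_open φ a b (hU.union hZ.isOpen_compl) (isOpen_empty.union hZ.isOpen_compl)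
        (union_subset_union_left _ (empty_subset _)) (fun x _ => c x) k
      refine ⟨fun s' hs' => ?_, fun s a b => ?_⟩
      · obtain ⟨s, a, b⟩ := h.1 s' (PC.zc_on_iff.1 hs')
        have a' : (I.on Z).Zc k U ∅ s := PC.zc_on_iff.2 a
        exact ⟨s, a', (PC.bd_on_iff (sub_mem hs'.1.2 ((e08_on φ Z).gr a'.1).2)).2 b⟩
      · exact (PC.bd_on_iff a.1.2).2 (h.2 s (PC.zc_on_iff.1 a)
          ((PC.bd_on_iff ((e08_on φ Z).gr a.1).2).1 b)))) h
theorem Eqv.loc (h : Eqv I J) {U : Set X} (hU : IsOpen U) : Eqv (I.loc U) (J.loc U) :=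
  (h.comap_open hU.isOpenEmbedding_subtypeVal).push continuous_subtype_val
theorem Eqv.trunc (h : Eqv I J) (c : ℤ) : Eqv (trunc c I) (trunc c J) :=
  e08_map (fun I => C73.trunc c I) (fun _ _ _ _ φ h =>
    Eqv.of_hom (truncMap continuous_id c φ) (fl_trunc _ _) (fl_trunc _ _)
      fun y => truncMap_cartAt continuous_id c φ y fun k _ => h y k) h

section
variable {κ : Type} [Finite κ] {I J : κ → PC X} {C C' : Set X}
theorem e08_N_pi {s : (piPC I).A} : s ∈ (piPC I).N C ↔ ∀ a, s a ∈ (I a).N C :=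
  disjoint_iUnion_left

theorem e08_zc_pi {s : (piPC I).A} : (piPC I).Zc k C C' s ↔ ∀ a, (I a).Zc k C C' (s a) :=
  ⟨fun h a => ⟨h.1 a trivial, e08_N_pi.1 h.2.1 a, e08_N_pi.1 h.2.2 a⟩, fun h =>
    ⟨fun a _ => (h a).1, e08_N_pi.2 fun a => (h a).2.1, e08_N_pi.2 fun a => (h a).2.2⟩⟩

theorem e08_bd_pi {s : (piPC I).A} : (piPC I).Bd k C C' s ↔ ∀ a, (I a).Bd k C C' (s a) :=
  ⟨fun ⟨t, t1, t2, t3⟩ a => ⟨t a, t1 a trivial, e08_N_pi.1 t2 a, e08_N_pi.1 t3 a⟩, fun h => by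
    choose t t1 t2 t3 using h
    exact ⟨t, fun a _ => t1 a, e08_N_pi.2 t2, e08_N_pi.2 t3⟩⟩

/-- direct sum of morphisms -/
def e08_pi (φ : ∀ a, Hom id (I a) (J a)) : Hom id (piPC I) (piPC J) where
  f := LinearMap.pi fun a => (φ a).f ∘ₗ LinearMap.proj a
  gr h a _ := (φ a).gr (h a trivial)
  supp h := iUnion_mono fun a => (φ a).supp (h a trivial)
  comm h := iUnion_eq_empty.2 fun a => (φ a).comm (h a trivial)

theorem e08_pi_cart (φ : ∀ a, Hom id (I a) (J a)) (h : ∀ a, (φ a).Cart) : (e08_pi φ).Cart :=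
  fun x k => ⟨fun s' hs' => by
      choose s a b using fun a => (h a x k).1 (s' a) (e08_zc_pi.1 hs' a)
      exact ⟨s, e08_zc_pi.2 a, e08_bd_pi.2 b⟩,
    fun s a b => e08_bd_pi.2 fun c => (h c x k).2 (s c) (e08_zc_pi.1 a c) (e08_bd_pi.1 b c)⟩
end

theorem e08_refl_cart (I : PC X) : (Hom.refl I).Cart := fun _ _ =>
  ⟨fun s hs => ⟨s, hs, PC.Bd.of_N (by show s - s ∈ _; rw [sub_self]; exact zero_mem _)⟩,
    fun _ _ h => h⟩

theorem e08_pi_upd {κ : Type} [Finite κ] [DecidableEq κ] {L : κ → PC X} (hL : ∀ a, (L a).Fl) (a : κ)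
    (h : Eqv I J) : Eqv (piPC (Function.update L a I)) (piPC (Function.update L a J)) := by
  refine e08_map (fun I => piPC (Function.update L a I)) (fun I J hI hJ φ c => ?_) h
  have hf : ∀ K : PC X, K.Fl → ∀ b, (Function.update L a K b).Fl := fun K hK b => by
    by_cases e : b = a
    · rw [e, Function.update_self]; exact hK
    · rw [Function.update_of_ne e]; exact hL b
  have : ∀ b, ∃ ψ : Hom id (Function.update L a I b) (Function.update L a J b), ψ.Cart :=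
    fun b => by
      by_cases e : b = a
      · rw [e, Function.update_self, Function.update_self]; exact ⟨φ, c⟩
      · rw [Function.update_of_ne e, Function.update_of_ne e]; exact ⟨_, e08_refl_cart _⟩
  choose ψ hψ using this
  exact Eqv.of_hom (e08_pi ψ) (fl_pi (hf I hI)) (fl_pi (hf J hJ)) (e08_pi_cart ψ hψ)

theorem Eqv.pi {κ : Type} [Finite κ] {I J : κ → PC X} (hI : ∀ a, (I a).Fl)
    (h : ∀ a, Eqv (I a) (J a)) : Eqv (piPC I) (piPC J) := by
  classical
  have key : ∀ S : Finset κ, Eqv (piPC I) (piPC (S.piecewise J I)) := fun S => by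
    induction S using Finset.induction_on with
    | empty => rw [Finset.piecewise_empty]; exact Eqv.refl _
    | insert a S ha ih =>
      have hL : ∀ b, (S.piecewise J I b).Fl := fun b => by
        by_cases e : b ∈ S
        · rw [Finset.piecewise_eq_of_mem _ _ _ e]; exact (h b).fl.1 (hI b)
        · rw [Finset.piecewise_eq_of_notMem _ _ _ e]; exact hI b
      have := e08_pi_upd hL a (h a)
      rw [← Finset.piecewise_eq_of_notMem S J I ha, Function.update_eq_self] at this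
      rw [Finset.piecewise_insert]
      exact ih.trans this
  have := Fintype.ofFinite κ
  have := key Finset.univ
  rwa [Finset.piecewise_univ] at this
/-- a morphism that is cartesian on `U` becomes cartesian everywhere after `loc U` -/
theorem eqv_loc_of_cartOn (φ : Hom id I J) (hI : I.Fl) (hJ : J.Fl) {U : Set X} (hU : IsOpen U)
    (h : ∀ x ∈ U, φ.CartAt x) : Eqv (I.loc U) (J.loc U) :=
  (Eqv.of_hom (e08_comap φ (Subtype.val : U → X) continuous_subtype_val)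
    (fl_comap_open hI hU.isOpenEmbedding_subtypeVal)
    (fl_comap_open hJ hU.isOpenEmbedding_subtypeVal)
    fun y => e08_comap_cart φ _ _ (h y y.2)).push continuous_subtype_val
theorem eqv_loc_univ (hI : I.Fl) : Eqv I (I.loc univ) := by
  have e : ∀ s : I.A, (I.loc univ).supp s = I.supp s := fun s => by
    rw [PC.supp_loc, inter_univ, (I.closed s).closure_eq]
  have n : ∀ {C : Set X} {s : I.A}, s ∈ (I.loc univ).N C ↔ s ∈ I.N C := fun {C s} => by
    show Disjoint ((I.loc univ).supp s) C ↔ Disjoint (I.supp s) C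
    rw [e]
  refine Eqv.of_hom ⟨LinearMap.id, fun h => h, fun {_ s} _ => (e s).subset, fun {_ s} _ =>
    (e _).trans ((congrArg I.supp (sub_self _)).trans I.supp_zero)⟩ hI (fl_loc hI isOpen_univ)
    fun x k => ⟨fun s hs => ⟨s, ⟨hs.1, n.1 hs.2.1, n.1 hs.2.2⟩, PC.Bd.of_N (n.2 ?_)⟩,
      fun s _ ⟨t, t1, t2, t3⟩ => ⟨t, t1, n.1 t2, n.1 t3⟩⟩
  exact (congrArg (· ∈ I.N {x}) (sub_self (show I.A from s))).mpr (zero_mem _)
theorem eqv_god (hI : I.Fl) : Eqv I (god id continuous_id I) :=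
  Eqv.of_hom (godU id continuous_id I) hI (fl_god _ _ _) (godU_cart _ _ _)

theorem e08_van (φ : Hom id I J) {C C' : Set X} (h : Bij I J φ.f C C' C C') :
    I.Van k C C' ↔ J.Van k C C' :=
  ⟨Sur.van φ (mapsTo_id _) (mapsTo_id _) (h k).1, Inj.van φ (mapsTo_id _) (mapsTo_id _) (h k).2⟩

theorem Eqv.van_open (h : Eqv I J) {U U' : Set X} (hU : IsOpen U) (hU' : IsOpen U') (h' : U' ⊆ U) :
    I.Van k U U' ↔ J.Van k U U' :=
  e08_iff (fun I => I.Van k U U')
    (fun _ _ a b φ c => e08_van φ (qis_open φ a b hU hU' h' fun x _ => c x)) h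
theorem Eqv.van_pt (h : Eqv I J) (x : X) : I.Van k {x} ∅ ↔ J.Van k {x} ∅ :=
  e08_iff (fun I => I.Van k {x} ∅) (fun _ _ _ _ φ c => e08_van φ (c x)) h
theorem Eqv.van [MetrizableSpace X] (h : Eqv I J) {C C' : Set X} (h' : C' ⊆ C) :
    I.Van k C C' ↔ J.Van k C C' :=
  e08_iff (fun I => I.Van k C C')
    (fun _ _ a b φ c => e08_van φ (qis_set φ a b h' fun x _ => c x)) h
theorem Eqv.finD_pt (h : Eqv I J) (x : X) : I.FinD k {x} ∅ ↔ J.FinD k {x} ∅ :=
  e08_iff (fun I => I.FinD k {x} ∅) (fun _ _ _ _ φ c =>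
    ⟨Sur.finD φ (mapsTo_id _) (mapsTo_id _) (c x k).1,
      Inj.finD (fun _ => φ.map_zc (mapsTo_id _) (mapsTo_id _)) (c x k).2⟩) h

theorem e08_resAt_congr {n : ℤ} {s0 s1 : I.A} {x : X} (h : I.ResAt n s0 x)
    (hz : I.Zc (-n) {x} ∅ s1) (hb : I.Bd (-n) {x} ∅ (s0 - s1)) : I.ResAt n s1 x := by
  refine ⟨hz, fun h1 => h.2.1 (by simpa using hb.add h1), fun s hs => ?_, h.2.2.2⟩
  obtain ⟨c, hc⟩ := h.2.2.1 s hs
  refine ⟨c, ?_⟩
  have := hc.add (hb.smul c)
  rwa [smul_sub, sub_add_sub_cancel] at this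

theorem Eqv.res (h : Eqv I J) {U : Set X} (hU : IsOpen U) {n : ℤ} :
    (∃ s0, I.Zc (-n) U ∅ s0 ∧ ∀ x ∈ U, I.ResAt n s0 x) →
      ∃ s0, J.Zc (-n) U ∅ s0 ∧ ∀ x ∈ U, J.ResAt n s0 x := by
  refine (e08_iff (fun I => ∃ s0, I.Zc (-n) U ∅ s0 ∧ ∀ x ∈ U, I.ResAt n s0 x)
    (fun I J a b φ c => ⟨fun ⟨s0, h1, h2⟩ => ⟨φ.f s0, φ.map_zc (mapsTo_id _) (mapsTo_id _) h1,
      fun x hx => ResAt.of_cart φ (c x) (h2 x hx)⟩, fun ⟨s0, h1, h2⟩ => ?_⟩) h).1
  obtain ⟨s, z, hb⟩ :=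
    (qis_open φ a b hU isOpen_empty (empty_subset _) (fun x _ => c x) (-n)).1 s0 h1
  refine ⟨s, z, fun x hx => ?_⟩
  have z' : I.Zc (-n) {x} ∅ s := z.mono (singleton_subset_iff.2 hx) subset_rfl
  exact ResAt.of_cart' φ (c x) z' (e08_resAt_congr (h2 x hx)
    (φ.map_zc (mapsTo_id _) (mapsTo_id _) z') (hb.mono (singleton_subset_iff.2 hx) subset_rfl))

theorem e08_zc_of_res {n : ℤ} {s0 : I.A} {U : Set X} (hU : U.Nonempty)
    (h : ∀ x ∈ U, I.ResAt n s0 x) : I.Zc (-n) U ∅ s0 :=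
  ⟨(h _ hU.some_mem).1.1, I.N_empty _, I.N_iff_forall.2 fun x hx => (h x hx).1.2.2⟩

theorem Eqv.ax (h : Eqv I J) {dm : X → ℕ} {n : ℕ} (hl : Lsc dm n) (hI : Ax I dm n) : Ax J dm n := by
  refine ⟨h.fl.1 hI.fl, ?_, fun x hx k hk => (h.van_pt x).1 (hI.sup x hx k hk),
    fun d hd V hV hd' k hk => (h.van_open hV (hV.inter (hl.1 (d + 1))) (sep_subset _ _)).1
      (hI.cos d hd V hV hd' k hk)⟩
  rcases eq_empty_or_nonempty {x | n ≤ dm x} with e | e
  · exact ⟨0, fun x hx => absurd (show x ∈ {x | n ≤ dm x} from hx.ge) (e ▸ notMem_empty x)⟩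
  · obtain ⟨s0, hs⟩ := hI.top
    have hs' : ∀ x ∈ {x | n ≤ dm x}, I.ResAt n s0 x := fun x hx => hs x ((hl.2 x).antisymm hx)
    obtain ⟨s1, -, h1⟩ := h.res (hl.1 n) ⟨s0, e08_zc_of_res e hs', hs'⟩
    exact ⟨s1, fun x hx => h1 x hx.ge⟩
/-- backwards along a morphism: lift a basis of `E` with `Sur` on `(V, ∅)` -/
theorem Eqv.cstOn (h : Eqv I J) {V S : Set X} (hV : IsOpen V) (hS : S ⊆ V) :
    I.CstOn k V S → J.CstOn k V S := by
  refine (e08_iff (fun I => I.CstOn k V S) (fun I J a b φ c =>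
    ⟨fun ⟨E, _, _, σ, h1, h2⟩ => ?_, fun ⟨E, _, _, σ, h1, h2⟩ => ?_⟩) h).1
  · refine ⟨E, _, _, φ.f ∘ₗ σ, fun e => φ.map_zc (mapsTo_id _) (mapsTo_id _) (h1 e),
      fun x hx => ⟨fun e he => (h2 x hx).1 e ((c x k).2 _
        ((h1 e).mono (singleton_subset_iff.2 (hS hx)) subset_rfl) he), fun s' hs' => ?_⟩⟩
    obtain ⟨s, z, hb⟩ := (c x k).1 s' hs'
    obtain ⟨e, he⟩ := (h2 x hx).2 s z
    have := hb.add (φ.map_bd (sub_mem z.1 (h1 e).1) (mapsTo_id _) (mapsTo_id _) he)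
    rw [map_sub, sub_add_sub_cancel] at this
    exact ⟨e, this⟩
  · let B := Module.Basis.ofVectorSpace ℚ E
    choose s z hb using fun i =>
      (qis_open φ a b hV isOpen_empty (empty_subset _) (fun x _ => c x) k).1 (σ (B i)) (h1 _)
    let τ : E →ₗ[ℚ] I.A := B.constr ℚ s
    have key : ∀ e, I.Zc k V ∅ (τ e) ∧ J.Bd k V ∅ (σ e - φ.f (τ e)) := fun e => by
      refine Submodule.span_induction (p := fun e _ => I.Zc k V ∅ (τ e) ∧
        J.Bd k V ∅ (σ e - φ.f (τ e))) ?_ ?_ ?_ ?_ (B.mem_span e)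
      · rintro _ ⟨i, rfl⟩
        have : τ (B i) = s i := B.constr_basis ℚ s i
        rw [this]; exact ⟨z i, hb i⟩
      · simp only [map_zero, sub_zero]
        exact ⟨PC.Zc.zero, PC.Bd.of_N (zero_mem _)⟩
      · intro x y _ _ hx hy
        simp only [map_add]
        rw [add_sub_add_comm]
        exact ⟨hx.1.add hy.1, hx.2.add hy.2⟩
      · intro r x _ hx
        simp only [map_smul]
        rw [← smul_sub]
        exact ⟨hx.1.smul r, hx.2.smul r⟩
    refine ⟨E, _, _, τ, fun e => (key e).1, fun x hx => ⟨fun e he => (h2 x hx).1 e ?_,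
      fun t ht => ?_⟩⟩
    · have := ((key e).2.mono (singleton_subset_iff.2 (hS hx)) subset_rfl).add
        (φ.map_bd (key e).1.1 (mapsTo_id _) (mapsTo_id _) he)
      rwa [sub_add_cancel] at this
    · obtain ⟨e, he⟩ := (h2 x hx).2 _ (φ.map_zc (mapsTo_id _) (mapsTo_id _) ht)
      refine ⟨e, (c x k).2 _
        (ht.sub ((key e).1.mono (singleton_subset_iff.2 (hS hx)) subset_rfl)) ?_⟩
      have := he.add ((key e).2.mono (singleton_subset_iff.2 (hS hx)) subset_rfl)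
      rwa [sub_add_sub_cancel, ← map_sub] at this
/-- two flasque complexes that are `ℚ[n]` everywhere are equivalent to `resC` -/
theorem eqv_resC (hI : I.Fl) {n : ℤ} {s0 : I.A} (h : ∀ x, I.ResAt n s0 x) :
    Eqv I (resC X ℚ n) := by
  rcases isEmpty_or_nonempty X with e | e
  · exact Eqv.of_hom ⟨0, fun _ => zero_mem _, fun _ x => e.elim x, fun _ => eq_empty_of_isEmpty _⟩
      hI (fl_resC _ _) fun x => e.elim x
  · have z : I.Zc (-n) univ ∅ s0 := e08_zc_of_res univ_nonempty fun x _ => h x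
    obtain ⟨φ, hφ⟩ := exists_cstHom n (LinearMap.toSpanSingleton ℚ I.A s0) fun e => z.smul e
    have c : φ.Cart := fun x => (cart_cst_iff φ x).2 (by
      rw [hφ]
      exact (congrArg (fun s => I.ResAt n s x) (one_smul ℚ s0)).mpr (h x))
    exact (eqv_god hI).trans (Eqv.of_hom (godMap continuous_id φ) (fl_god _ _ _) (fl_god _ _ _)
      fun y k => ⟨godMap_sur _ φ k y (c y k).1, godMap_inj _ φ k y (c y k).2⟩).symm
/-- restriction of `resC` to a subspace -/
theorem eqv_resC_comap [MetrizableSpace X] {e : Y → X} (he : IsEmbedding e) (E : Type)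
    [AddCommGroup E] [Module ℚ E] (n : ℤ) :
    Eqv ((resC X E n).comap e he.continuous) (resC Y E n) :=
  have c := resMap_cart he.continuous E n
  Eqv.of_hom ⟨(resMap he.continuous E n).f, (resMap he.continuous E n).gr,
    (resMap he.continuous E n).supp, (resMap he.continuous E n).comm⟩
    (fl_comap (fl_resC E n) he) (fl_resC E n) fun y k =>
      ⟨fun s' hs' => let ⟨s, a, b⟩ := (c y k).1 s' hs'; ⟨s, e08_zc_pt.2 a, b⟩,
        fun s a b => e08_bd_pt.2 ((c y k).2 s (e08_zc_pt.1 a) b)⟩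
theorem resC_van_emb [MetrizableSpace X] {e : Y → X} (he : IsEmbedding e) (E : Type)
    [AddCommGroup E] [Module ℚ E] (n : ℤ) {B B' : Set Y} (h : B' ⊆ B) :
    (resC Y E n).Van k B B' ↔ (resC X E n).Van k (e '' B) (e '' B') :=
  have := he.metrizableSpace
  ((eqv_resC_comap he E n).van h).symm.trans PC.van_comap_iff

end C73
end
end

section
/-! E09: transport lemmas used in the final assembly (identity morphisms with equal supports). -/

open Set Filter Topology TopologicalSpace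

noncomputable section
namespace C73

variable {X Y : Type} [TopologicalSpace X] [TopologicalSpace Y]

theorem e09_eqv {I J : PC X} (e : I.A ≃ₗ[ℚ] J.A) (hg : ∀ k s, e s ∈ J.gr k ↔ s ∈ I.gr k)
    (hs : ∀ s, J.supp (e s) = I.supp s) (hd : ∀ s, e (I.d s) = J.d (e s)) (hI : I.Fl)
    (hJ : J.Fl) : Eqv I J := by
  have hN : ∀ C s, e s ∈ J.N C ↔ s ∈ I.N C := fun C s => by rw [PC.mem_N, PC.mem_N, hs]
  have hZ : ∀ k C C' s, J.Zc k C C' (e s) ↔ I.Zc k C C' s := fun k C C' s => by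
    unfold PC.Zc; rw [hg, hN, ← hd, hN]
  refine Eqv.of_hom ⟨e.toLinearMap, fun h => (hg _ _).2 h, fun _ => (hs _).subset,
    fun {k s} _ => ?_⟩ hI hJ fun y k => ⟨fun s' h => ?_, fun s _ h => ?_⟩
  · show J.supp (e (I.d s) - J.d (e s)) = ∅
    rw [hd, sub_self, J.supp_zero]
  · obtain ⟨s, rfl⟩ := e.surjective s'
    refine ⟨s, (hZ _ _ _ _).1 h, PC.Bd.of_N ?_⟩
    show e s - e s ∈ _
    rw [sub_self]; exact zero_mem _
  · obtain ⟨t', h1, h2, h3⟩ := h
    obtain ⟨t, rfl⟩ := e.surjective t'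
    refine ⟨t, (hg _ _).1 h1, (hN _ _).1 h2, (hN _ _).1 ?_⟩
    rw [map_sub, hd]; exact h3

theorem eqv_push_push {W : Type} [TopologicalSpace W] {I : PC X} (hI : I.Fl) {p : X → Y}
    {q : Y → W} (hp : Continuous p) (hq : Continuous q) :
    Eqv ((I.push p).push q) (I.push (q ∘ p)) := by
  refine e09_eqv (LinearEquiv.refl ℚ I.A) (fun _ _ => Iff.rfl) (fun s => ?_) (fun _ => rfl)
    (fl_push (fl_push hI hp) hq) (fl_push hI (hq.comp hp))
  show closure ((q ∘ p) '' I.supp s) = closure (q '' closure (p '' I.supp s))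
  rw [closure_image_closure hq, image_comp]
theorem eqv_push_pi {κ : Type} [Finite κ] {I : κ → PC X} (hI : ∀ a, (I a).Fl) {p : X → Y}
    (hp : Continuous p) : Eqv ((piPC I).push p) (piPC fun a => (I a).push p) := by
  refine e09_eqv (LinearEquiv.refl ℚ (∀ a, (I a).A)) (fun _ _ => Iff.rfl) (fun s => ?_)
    (fun _ => rfl) (fl_push (fl_pi hI) hp) (fl_pi fun a => fl_push (hI a) hp)
  show ⋃ a, closure (p '' (I a).supp (s a)) = closure (p '' ⋃ a, (I a).supp (s a))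
  rw [image_iUnion, closure_iUnion_of_finite]
theorem link_homeo [MetrizableSpace Y] (Ψ : X ≃ₜ Y) {st : Y → ℕ} (h : Link st) :
    Link (st ∘ Ψ) := by
  intro z d hd V hV hdV k hk
  let e : {y | (st ∘ Ψ) y ≤ (st ∘ Ψ) z} ≃ₜ {y | st y ≤ st (Ψ z)} := Ψ.subtype fun _ => Iff.rfl
  have h1 := h (Ψ z) d hd (e '' V) (e.isOpenMap _ hV) (by
    rintro _ ⟨y, hy, rfl⟩; exact hdV y hy) k hk
  refine (resC_van_emb e.isEmbedding ℚ _ (sep_subset _ _)).2 ?_
  have h3 : e '' {y ∈ V | d < (st ∘ Ψ) y} = {y ∈ e '' V | d < st y} := by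
    ext y
    constructor
    · rintro ⟨x, hx, rfl⟩; exact ⟨⟨x, hx.1, rfl⟩, hx.2⟩
    · rintro ⟨⟨x, hx, rfl⟩, h2⟩; exact ⟨x, ⟨hx, h2⟩, rfl⟩
  rw [h3]; exact h1
theorem FTO.mono {S S' : Set X} {m n : ℤ} (h : FTO S m) (hS : S' ⊆ S) (hm : m ≤ n) : FTO S' n := by
  rcases h with rfl | ⟨r, hr, π, hc, hf⟩
  · exact Or.inl (subset_empty_iff.1 hS)
  · exact Or.inr ⟨r, hr.trans hm, π, hc.mono hS, fun y =>
      (hf y).subset (inter_subset_inter_left _ hS)⟩
theorem e09_fib {S : Set X} {S' : Set Y} {m : ℤ} (h : FTO S' m) (g : X → Y)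
    (hg : ContinuousOn g S) (hi : ∀ y, (S ∩ g ⁻¹' {y}).Finite) (hm : MapsTo g S S') : FTO S m := by
  rcases h with rfl | ⟨r, hr, π, hc, hf⟩
  · exact Or.inl (eq_empty_of_forall_notMem fun x hx => hm hx)
  · refine Or.inr ⟨r, hr, π ∘ g, hc.comp hg hm, fun y =>
      ((hf y).biUnion fun y' _ => hi y').subset fun x hx => ?_⟩
    exact mem_biUnion (x := g x) ⟨hm hx.1, hx.2⟩ ⟨hx.1, rfl⟩
/-- transport along a continuous injective map -/
theorem FTO.of_injOn {S : Set X} {S' : Set Y} {m : ℤ} (h : FTO S' m) (g : X → Y)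
    (hg : ContinuousOn g S) (hi : InjOn g S) (hm : MapsTo g S S') : FTO S m :=
  e09_fib h g hg (fun _ => Set.Subsingleton.finite fun _ ha _ hb =>
    hi ha.1 hb.1 (ha.2.trans hb.2.symm)) hm
theorem FTO.of_finite_fib {S : Set X} {S' : Set Y} {m : ℤ} (h : FTO S' m) (g : X → Y)
    (hg : ContinuousOn g S) (hi : ∀ y, (S ∩ g ⁻¹' {y}).Finite) (hm : MapsTo g S S') : FTO S m :=
  e09_fib h g hg hi hm
theorem FTO.prod {S : Set X} {S' : Set Y} {m n : ℤ} (h : FTO S m) (h' : FTO S' n) :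
    FTO (S ×ˢ S') (m + n) := by
  rcases h with rfl | ⟨r, hr, π, hc, hf⟩
  · exact Or.inl empty_prod
  rcases h' with rfl | ⟨r', hr', π', hc', hf'⟩
  · exact Or.inl prod_empty
  refine Or.inr ⟨r + r', by push_cast; omega, fun z => Fin.append (π z.1) (π' z.2),
    continuousOn_pi.2 fun i => ?_, fun y => ((hf fun i => y (Fin.castAdd _ i)).prod
      (hf' fun i => y (Fin.natAdd _ i))).subset fun z hz => ?_⟩
  · induction i using Fin.addCases with
    | left i =>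
      simp only [Fin.append_left]
      exact (continuousOn_pi.1 hc i).comp continuousOn_fst fun _ hz => hz.1
    | right i =>
      simp only [Fin.append_right]
      exact (continuousOn_pi.1 hc' i).comp continuousOn_snd fun _ hz => hz.2
  · have e : Fin.append (π z.1) (π' z.2) = y := hz.2
    subst e
    exact ⟨⟨hz.1.1, funext fun i => (Fin.append_left _ _ i).symm⟩,
      hz.1.2, funext fun i => (Fin.append_right _ _ i).symm⟩
theorem fto_univ_pi (m : ℕ) : FTO (univ : Set (Fin m → ℝ)) m :=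
  Or.inr ⟨m, le_rfl, id, continuousOn_id, fun y => (finite_singleton y).subset inter_subset_right⟩
theorem Cov.of_homeo {S : Set X} {S' : Set Y} {m : ℕ} (h : Cov S' m) (g : S ≃ₜ S') : Cov S m :=
  let ⟨W, t, n, ι, π, h1, h2, h3⟩ := h
  ⟨W, t, n, ι ∘ g, π, h1.comp g.isClosedEmbedding, h2, h3⟩
theorem nice_of_closedEmb [Nice X] {e : Y → X} (he : IsClosedEmbedding e) : Nice Y :=
  haveI := he.isEmbedding.t2Space
  haveI := he.locallyCompactSpace
  haveI := he.isEmbedding.secondCountableTopology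
  {}
theorem nice_of_openEmb [Nice X] {e : Y → X} (he : IsOpenEmbedding e) : Nice Y :=
  haveI := he.isEmbedding.t2Space
  haveI := he.locallyCompactSpace
  haveI := he.isEmbedding.secondCountableTopology
  {}
theorem nice_of_locClosed [Nice X] {S : Set X} (h : IsLocallyClosed S) : Nice S :=
  haveI := h.locallyCompactSpace
  {}
instance nice_prod [Nice X] [Nice Y] : Nice (X × Y) := {}
instance nice_piR (m : ℕ) : Nice (Fin m → ℝ) := {}
instance nice_piC (m : ℕ) : Nice (Fin m → ℂ) := {}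
theorem locProj_fst (m : ℕ) : LocProj (Prod.fst : X × (Fin m → ℝ) → X) :=
  ⟨continuous_fst, fun y => ⟨m, univ, Prod.map Subtype.val id, isOpen_univ,
    isOpen_univ.isOpenEmbedding_subtypeVal.prodMap .id, ⟨(⟨y.1, trivial⟩, y.2), rfl⟩,
    fun _ _ => rfl⟩⟩
theorem LocProj.isOpenMap {p : Y → X} (h : LocProj p) : IsOpenMap p := by
  intro W hW
  rw [isOpen_iff_forall_mem_open]
  rintro _ ⟨y, hy, rfl⟩
  obtain ⟨m, U, e, hU, he, ⟨⟨u, t⟩, rfl⟩, hp⟩ := h.2 y
  refine ⟨Subtype.val '' (Prod.fst '' (e ⁻¹' W)), ?_, hU.isOpenMap_subtype_val _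
    (isOpenMap_fst _ (hW.preimage he.continuous)), u, ⟨(u, t), hy, rfl⟩, (hp u t).symm⟩
  rintro _ ⟨_, ⟨⟨u', t'⟩, h', rfl⟩, rfl⟩
  exact ⟨_, h', hp u' t'⟩
theorem LocProj.restrict {p : Y → X} (h : LocProj p) (T : Set X) :
    LocProj (T.restrictPreimage p) := by
  refine ⟨h.1.restrictPreimage, fun y => ?_⟩
  obtain ⟨m, U, e, hU, he, hy, hp⟩ := h.2 y.1
  let j : (Subtype.val ⁻¹' U : Set T) → U := fun u => ⟨u.1.1, u.2⟩
  have hj : IsEmbedding j :=
    (IsEmbedding.subtypeVal.of_comp_iff).1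
      (show IsEmbedding fun u : (Subtype.val ⁻¹' U : Set T) => u.1.1 from
        IsEmbedding.subtypeVal.comp IsEmbedding.subtypeVal)
  let e' : (Subtype.val ⁻¹' U : Set T) × (Fin m → ℝ) → p ⁻¹' T := fun z =>
    ⟨e (j z.1, z.2), show p _ ∈ T by rw [hp]; exact z.1.1.2⟩
  have hr : range e' = Subtype.val ⁻¹' range e := by
    ext y'
    constructor
    · rintro ⟨z, rfl⟩; exact ⟨_, rfl⟩
    · rintro ⟨⟨u, t⟩, hu⟩
      have : u.1 ∈ T := by rw [← hp u t, hu]; exact y'.2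
      exact ⟨(⟨⟨u.1, this⟩, u.2⟩, t), Subtype.ext hu⟩
  refine ⟨m, Subtype.val ⁻¹' U, e', hU.preimage continuous_subtype_val,
    ⟨(IsEmbedding.subtypeVal.of_comp_iff).1 (he.isEmbedding.comp (hj.prodMap .id)), ?_⟩, ?_,
    fun u t => Subtype.ext (hp _ _)⟩
  · rw [hr]; exact he.isOpen_range.preimage continuous_subtype_val
  · rw [hr]; exact hy
theorem LocProj.comp_open {W : Type} [TopologicalSpace W] {p : Y → X} (h : LocProj p) {e : W → Y}
    (he : IsOpenEmbedding e) : LocProj (p ∘ e) := by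
  refine ⟨h.1.comp he.continuous, fun w => ?_⟩
  obtain ⟨m, U, f, hU, hf, ⟨⟨u, t⟩, hw⟩, hp⟩ := h.2 (e w)
  obtain ⟨U0, B, hU0, hB, hu, ht, hs⟩ := isOpen_prod_iff.1
    (he.isOpen_range.preimage hf.continuous) u t ⟨w, hw.symm⟩
  obtain ⟨r, hr, hb⟩ := Metric.isOpen_iff.1 hB t ht
  let g := OpenPartialHomeomorph.univBall (E := Fin m → ℝ) t r
  have hg : IsOpenEmbedding g := g.isOpenEmbedding (OpenPartialHomeomorph.univBall_source _ _)
  have hgB : ∀ s, g s ∈ B := fun s => hb (by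
    rw [← OpenPartialHomeomorph.univBall_target (E := Fin m → ℝ) t hr]
    exact g.map_source (by simp [g]))
  have h1 : IsOpen (Subtype.val '' U0 : Set X) := hU.isOpenMap_subtype_val _ hU0
  have h2 : (Subtype.val '' U0 : Set X) ⊆ U := Subtype.coe_image_subset _ _
  have hj : IsOpenEmbedding (inclusion h2) :=
    IsOpenEmbedding.inclusion h2 (h1.preimage continuous_subtype_val)
  have h3 : ∀ z, (f ∘ Prod.map (inclusion h2) g) z ∈ range e := fun z => hs
    (show Prod.map (inclusion h2) g z ∈ _ from ⟨by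
      obtain ⟨a, ha, e⟩ := z.1.2
      rwa [show (Prod.map (inclusion h2) g z).1 = a from Subtype.ext e.symm], hgB _⟩)
  choose e' he' using h3
  refine ⟨m, _, e', h1, he.of_comp e' ((funext he' : e ∘ e' = _) ▸ hf.comp (hj.prodMap hg)),
    ⟨(⟨u.1, u, hu, rfl⟩, 0), he.injective ?_⟩, fun a s => ?_⟩
  · rw [he', ← hw]
    show f (u, g 0) = _
    rw [OpenPartialHomeomorph.univBall_apply_zero]
  · show p (e _) = _
    rw [he']; exact hp _ _

end C73
end
end

section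
/-! E10: Mayer–Vietoris for closed pairs, continuity, SLICE. -/

open Set Filter Topology TopologicalSpace

noncomputable section
namespace C73
open PC

variable {X Y : Type} [TopologicalSpace X] [TopologicalSpace Y]

variable [MetrizableSpace X] {I : PC X} {k : ℤ}
/-- `t₁ - t₂` is a cocycle on `(C₁ ∩ C₂, C' ∩ C₁ ∩ C₂)`; write it as `z + d w`, move `w` into
`N (C' ∩ C₂)` by `exc_closed`, replace `t₂` by `t₂ + z + d w`, then split `t₁ - t₂' = a + b`. -/
theorem mv_bd (hI : I.Fl) {C₁ C₂ C' : Set X} (h1 : IsClosed C₁) (h2 : IsClosed C₂)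
    (h' : IsClosed C') {s : I.A} (hs : s ∈ I.gr k) (b1 : I.Bd k C₁ (C' ∩ C₁) s)
    (b2 : I.Bd k C₂ (C' ∩ C₂) s)
    (hsur : Sur I I LinearMap.id (k - 1) C₂ (C' ∩ C₂) (C₁ ∩ C₂) (C' ∩ (C₁ ∩ C₂))) :
    I.Bd k (C₁ ∪ C₂) (C' ∩ (C₁ ∪ C₂)) s := by
  obtain ⟨t1, a1, a2, a3⟩ := b1
  obtain ⟨t2, c1, c2, c3⟩ := b2
  obtain ⟨z, z1, w, w1, w2, w3⟩ := hsur (t1 - t2) ⟨sub_mem a1 c1,
    sub_mem (N_anti_8 (inter_subset_inter_right _ inter_subset_left) a2)
      (N_anti_8 (inter_subset_inter_right _ inter_subset_right) c2), by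
    simpa using sub_mem (N_anti_8 inter_subset_right c3) (N_anti_8 inter_subset_left a3)⟩
  obtain ⟨v, v1, v2, v3⟩ := (hI.gl_closed (h1.inter h2) (h'.inter h2)).cut w1
    (N_anti_8 (fun x hx => mem_inter hx.2.1 hx.1) w2)
  have g : t2 + z + I.d v ∈ I.gr (k - 1) := add_mem (add_mem c1 z1.1) (d_gr' v1)
  obtain ⟨r, r1, r2, r3⟩ := hI.gl_closed h1 h2 _ t1 _ a1 g (by
    convert sub_mem w3 (N_dsub v1 w1 v2) using 1
    simp only [LinearMap.id_apply]; abel)
  refine ⟨r, r1, ?_, N_union_8.2 ⟨N_trans a3 (N_dsub a1 r1 (N_symm r2)),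
    N_trans ?_ (N_dsub g r1 (N_symm r3))⟩⟩
  · rw [inter_union_distrib_left]
    exact N_union_8.2 ⟨N_of_sub (N_anti_8 inter_subset_right r2) a2,
      N_of_sub (N_anti_8 inter_subset_right r3) (add_mem (add_mem c2 z1.2.1) (N_d v1 v3))⟩
  · convert sub_mem (sub_mem c3 z1.2.2) (N_dd v1) using 1
    simp only [map_add]; abel
/-- continuity: `supp t ∩ C'` and `supp (s - d t) ∩ C` are compact and miss the fibre -/
theorem bd_cont [T2Space Y] {C C' : Set X} (hC : IsCompact C) (h' : IsClosed C') {π : X → Y}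
    (hπ : ContinuousOn π C) {y : Y} {s : I.A}
    (h : I.Bd k (C ∩ π ⁻¹' {y}) (C' ∩ (C ∩ π ⁻¹' {y})) s) :
    ∃ U ∈ 𝓝 y, I.Bd k (C ∩ π ⁻¹' U) (C' ∩ (C ∩ π ⁻¹' U)) s := by
  obtain ⟨t, t1, t2, t3⟩ := h
  obtain ⟨O, o1, o2⟩ := N_near hC hπ t3
  obtain ⟨O', o3, o4⟩ := N_near (hC.inter_left h') (hπ.mono inter_subset_right)
    ((inter_assoc C' C _).symm ▸ t2)
  exact ⟨O ∩ O', inter_mem o1 o3, t, t1, N_anti_8
    (fun x hx => mem_inter (mem_inter hx.1 hx.2.1) hx.2.2.2) o4,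
    N_anti_8 (fun x hx => mem_inter hx.1 hx.2.1) o2⟩
/-- real induction on `u` for `C ∩ {π ≤ u}` (or Lebesgue number + finite induction with `mv_bd`) -/
theorem slice (hI : I.Fl) {C C' : Set X} (hC : IsCompact C) (h' : IsClosed C') {π : X → ℝ}
    (hπ : ContinuousOn π C) {s : I.A} (hs : s ∈ I.gr k)
    (hb : ∀ u, I.Bd k (C ∩ π ⁻¹' {u}) (C' ∩ (C ∩ π ⁻¹' {u})) s)
    (hsur : ∀ u, Sur I I LinearMap.id (k - 1) C (C' ∩ C) (C ∩ π ⁻¹' {u}) (C' ∩ (C ∩ π ⁻¹' {u}))) :
    I.Bd k C (C' ∩ C) s := by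
  have hz : I.Zc k C (C' ∩ C) s := ⟨hs, mem_N'.2 fun x hx => ?_, mem_N'.2 fun x hx => ?_⟩
  · refine hI.slice inter_subset_right hC (h'.inter hC.isClosed) hπ hz
      (fun t => (inter_assoc C' C _).symm ▸ hb t) fun t u hu => ?_
    rw [inter_assoc] at hu
    obtain ⟨a, a1, a2⟩ := hsur t u hu
    exact ⟨a, a1.mono inter_subset_left inter_subset_left, (inter_assoc C' C (π ⁻¹' {t})).symm ▸ a2⟩
  · obtain ⟨t, t1, t2, t3⟩ := hb (π x)
    exact mem_N'.1 (N_of_sub (N_anti_8 inter_subset_right t3) (N_d t1 t2)) x ⟨hx.1, hx.2, rfl⟩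
  · obtain ⟨t, t1, -, t3⟩ := hb (π x)
    exact mem_N'.1 (N_of_sub (N_dsub hs (d_gr' t1) t3) (N_dd t1)) x ⟨hx, rfl⟩

end C73
end
end

section
/-! E11: DIM and Vietoris–Begle. -/

open Set Filter Topology TopologicalSpace

noncomputable section
namespace C73
open PC

variable {X Y : Type} [TopologicalSpace X] [TopologicalSpace Y]

variable [MetrizableSpace X] {I : PC X}
/-- induction on `n` with `slice` for the last coordinate, for all compact `C` at once -/
theorem dim_fib (hI : I.Fl) (n : ℕ) {C C' : Set X} (hC : IsCompact C) (h' : IsClosed C')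
    {π : X → Fin n → ℝ} (hπ : ContinuousOn π C) (N : ℤ)
    (h : ∀ y, ∀ k, N < k → I.Van k (C ∩ π ⁻¹' {y}) (C' ∩ (C ∩ π ⁻¹' {y}))) :
    ∀ k, N + n < k → I.Van k C (C' ∩ C) := by
  induction n generalizing C with
  | zero =>
    intro k hk
    have e : C ∩ π ⁻¹' {default} = C := inter_eq_left.2 fun x _ => Subsingleton.elim _ _
    exact e ▸ h default k (by simpa using hk)
  | succ n ih =>
    intro k hk s hs
    have c0 : ContinuousOn (fun x => π x 0) C := (continuous_apply 0).comp_continuousOn hπ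
    have v : ∀ t j, N + n < j → I.Van j (C ∩ (fun x => π x 0) ⁻¹' {t})
        (C' ∩ (C ∩ (fun x => π x 0) ⁻¹' {t})) := fun t =>
      ih (π := fun x => Fin.tail (π x))
        (hC.of_isClosed_subset (c0.preimage_isClosed_of_isClosed hC.isClosed isClosed_singleton)
          inter_subset_left)
        ((continuous_pi fun i => continuous_apply _).comp_continuousOn (hπ.mono inter_subset_left))
        fun y j hj => by
          have e : C ∩ (fun x => π x 0) ⁻¹' {t} ∩ (fun x => Fin.tail (π x)) ⁻¹' {y} =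
              C ∩ π ⁻¹' {Fin.cons t y} := by
            ext x
            simp only [mem_inter_iff, mem_preimage, mem_singleton_iff, and_assoc]
            refine and_congr_right fun _ => ⟨fun ⟨a, b⟩ => ?_, fun a => by simp [a]⟩
            rw [← a, ← b, Fin.cons_self_tail]
          rw [e]; exact h _ j hj
    push_cast at hk
    exact slice hI hC h' c0 hs.1 (fun t => v t k (by omega) s
      (hs.mono inter_subset_left (inter_subset_inter_right _ inter_subset_left)))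
      fun t => sur_of_van (v t _ (by omega))
/-- finitely many points outside `C'` -/
theorem van_finite (hI : I.Fl) {C C' : Set X} (hC : IsClosed C) (h' : IsClosed C')
    (hf : (C \ C').Finite) {k : ℤ} (h : ∀ x ∈ C \ C', I.Van k {x} ∅) : I.Van k C (C' ∩ C) := by
  have := (hI.gl_closed hf.isClosed (h'.inter hC)).exc.2
    (hI.van_finite (C' := C' ∩ C) hf fun x hx => h x hx.1)
  rwa [inter_comm C' C, sdiff_union_inter, inter_comm] at this
theorem dim_van (hI : I.Fl) {C C' : Set X} (hC : IsCompact C) (h' : IsClosed C') {n N : ℤ}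
    (hF : FTO C n) (h : ∀ x ∈ C \ C', ∀ k, N < k → I.Van k {x} ∅) :
    ∀ k, N + n < k → I.Van k C (C' ∩ C) := fun _ hk =>
  hI.dim hC (h'.inter hC.isClosed) (hF.mono_8 sdiff_subset)
    (fun x hx => h x ⟨hx.1, fun a => hx.2 ⟨a, hx.1⟩⟩) hk
/-- only `C \ C'` needs a finite-to-one map, and only locally: a cocycle vanishes near `C'`; cover
the rest by finitely many compact pieces `K_j ⊆ C \ C'` and use `tri1`, `van_exc` along
`C'' ⊆ C'' ∪ K₁ ⊆ C'' ∪ K₁ ∪ K₂ …` (`C''` a closed neighbourhood of `C' ∩ C` in `C`). -/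
theorem dim_van_loc (hI : I.Fl) {C C' : Set X} (hC : IsCompact C) (h' : IsClosed C') {n N : ℤ}
    (hF : ∀ x ∈ C \ C', ∃ U ∈ 𝓝 x, FTO (U ∩ (C \ C')) n)
    (h : ∀ x ∈ C \ C', ∀ k, N < k → I.Van k {x} ∅) :
    ∀ k, N + n < k → I.Van k C (C' ∩ C) := fun k hk s hs => by
  obtain ⟨f, f0, f1, -⟩ := exists_continuous_zero_one_of_isClosed (h'.inter hC.isClosed)
    (I.closed s) hs.2.1.symm
  have c1 : IsClosed (C ∩ {x | 1 / 2 ≤ f x}) :=
    hC.isClosed.inter (isClosed_le continuous_const f.continuous)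
  have c2 : IsClosed {x | f x ≤ 1 / 2} := isClosed_le f.continuous continuous_const
  have c3 := hC.of_isClosed_subset c1 inter_subset_left
  have sub : C ∩ {x | 1 / 2 ≤ f x} ⊆ C \ C' := fun x hx =>
    ⟨hx.1, fun h' => by have := hx.2; simp only [one_div, mem_ofPred_eq, f0 ⟨h', hx.1⟩, Pi.zero_apply, inv_nonpos] at this; linarith⟩
  have s2 : s ∈ I.N {x | f x ≤ 1 / 2} := mem_N'.2 fun x hx h' => by
    simp only [one_div, mem_ofPred_eq, f1 h', Pi.one_apply] at hx; linarith only [hx]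
  obtain ⟨L, -, l2, l3⟩ := c3.induction_on (p := fun S => ∃ L, IsCompact L ∧ S ⊆ L ∧
      ∀ K B, IsCompact K → IsClosed B → K ⊆ L → I.Van k K (K ∩ B))
    ⟨∅, isCompact_empty, subset_rfl, fun K B _ _ h => I.van_self (h.trans (empty_subset _))⟩
    (fun _ _ h ⟨L, a, b, c⟩ => ⟨L, a, h.trans b, c⟩)
    (fun _ _ ⟨L, a, b, c⟩ ⟨L', a', b', c'⟩ => ⟨L ∪ L', a.union a', union_subset_union b b',
      fun K B hK hB hL => by
        have k1 := hK.inter_right a.isClosed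
        have k2 := hK.inter_right a'.isClosed
        have q1 := (hI.gl_closed k1.isClosed (hK.isClosed.inter hB)).exc.2
          (c _ _ k1 (hK.isClosed.inter hB) inter_subset_right)
        have q2 := (hI.gl_closed k2.isClosed (k1.isClosed.union (hK.isClosed.inter hB))).exc.2
          (c' _ _ k2 (k1.isClosed.union (hK.isClosed.inter hB)) inter_subset_right)
        have e : K ∩ L' ∪ (K ∩ L ∪ K ∩ B) = K := Subset.antisymm
          (union_subset inter_subset_left (union_subset inter_subset_left inter_subset_left))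
          fun x hx => (hL hx).elim (fun h => Or.inr (Or.inl ⟨hx, h⟩)) fun h => Or.inl ⟨hx, h⟩
        rw [e] at q2
        exact tri1_8 subset_union_right q2 q1 (union_subset inter_subset_left inter_subset_left)⟩)
    fun x hx => by
      obtain ⟨U, u1, u2⟩ := hF x (sub hx)
      obtain ⟨W, w1, w2, w3⟩ := exists_mem_nhds_isClosed_subset u1
      refine ⟨_, inter_mem_nhdsWithin _ w1, _, c3.inter_right w2, subset_rfl, fun K B hK hB hL =>
        hI.dim hK (hK.isClosed.inter hB) (u2.mono_8 fun y hy => ⟨w3 (hL hy.1).2, sub (hL hy.1).1⟩)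
          (fun y hy => h y (sub (hL hy.1).1)) hk⟩
  exact ((hI.gl_closed c1 c2).bd s2 (l3 _ _ c3 c2 l2 s
    ⟨hs.1, N_anti_8 inter_subset_right s2, N_anti_8 inter_subset_left hs.2.2⟩)).mono
    (fun x hx => (le_total (1 / 2) (f x)).imp (fun h => ⟨hx, h⟩) id) fun x hx => by simp only [one_div, mem_ofPred_eq, f0 hx, Pi.zero_apply, inv_nonneg, Nat.ofNat_nonneg]
/-- induction on `k` (from `van_bdd`) for all compact subsets `C ∩ π ⁻¹' B`, `B` closed: `bd_cont`,
finite closed cover of `π '' C`, `mv_bd` with `sur_of_van` -/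
theorem vb (hI : I.Fl) [T2Space Y] {C C' : Set X} (hC : IsCompact C) (h' : IsClosed C')
    {π : X → Y} (hπ : ContinuousOn π C)
    (h : ∀ y k, I.Van k (C ∩ π ⁻¹' {y}) (C' ∩ (C ∩ π ⁻¹' {y}))) (k : ℤ) :
    I.Van k C (C' ∩ C) :=
  hI.vb_compact inter_subset_right hC (hC.inter_left h') hπ fun y j _ =>
    (inter_assoc C' C _).symm ▸ h y j

end C73
end
end

section
/-! E12: constancy along arcs, towers. -/

open Set Filter Topology TopologicalSpace

noncomputable section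
namespace C73
open PC

variable {X Y : Type} [TopologicalSpace X] [TopologicalSpace Y]

variable [MetrizableSpace Y] {p : Y → X} {I : PC X} {J : PC Y}
section
omit [MetrizableSpace Y]
variable {e : Y → X} {he : Continuous e} {k : ℤ} {y : Y} {s : I.A}
theorem comap_zc_pt : (I.comap e he).Zc k {y} ∅ s ↔ I.Zc k {e y} ∅ s :=
  comap_zc.trans (by rw [image_singleton, image_empty])
theorem comap_bd_pt : (I.comap e he).Bd k {y} ∅ s ↔ I.Bd k {e y} ∅ s :=
  comap_bd.trans (by rw [image_singleton, image_empty])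
theorem comap_van_pt : (I.comap e he).Van k {y} ∅ ↔ I.Van k {e y} ∅ :=
  comap_van.trans (by rw [image_singleton, image_empty])
theorem comap_resAt {n : ℤ} : (I.comap e he).ResAt n s y ↔ I.ResAt n s (e y) :=
  and_congr comap_zc_pt (and_congr comap_bd_pt.not (and_congr
    (forall_congr' fun _ => imp_congr comap_zc_pt (exists_congr fun _ => comap_bd_pt))
    (forall₂_congr fun _ _ => comap_van_pt)))
end
omit [MetrizableSpace Y] in
theorem e12_cart {n : ℤ} (φ : Hom p (cstPC X ℚ n) J) {y : Y} (h : J.ResAt n (φ.f (1 : ℚ)) y) :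
    φ.CartAt y := fun k => by
  have e : ∀ c : ℚ, φ.f c = c • φ.f (1 : ℚ) := fun c =>
    (congrArg φ.f (show c = c • (1 : ℚ) by simp)).trans (φ.f.map_smul c (1 : ℚ))
  by_cases hk : k = -n
  · subst hk
    refine ⟨fun s hs => ?_, fun (c : ℚ) _ hb => (cst_bd ℚ).2 (by_contra fun h0 => h.2.1 ?_)⟩
    · obtain ⟨c, hc⟩ := h.2.2.1 s hs
      exact ⟨c, cst_zc ℚ _, by rwa [e]⟩
    · have := hb.smul c⁻¹
      rwa [e, smul_smul, inv_mul_cancel₀ h0, one_smul] at this
  · exact ⟨sur_of_van (h.2.2.2 k hk), inj_of_van ((cst_resAt n _).2.2.2 k hk)⟩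
theorem e12_emb {γ : ℝ → Y} {a b : ℝ} (hγ : ContinuousOn γ (Icc a b)) (hi : InjOn γ (Icc a b)) :
    IsEmbedding fun u : Icc a b => γ u :=
  (hγ.domRestrict.isClosedEmbedding hi.injective).isEmbedding
theorem e12_arc (hJ : J.Fl) {γ : ℝ → Y} {a b t : ℝ} (ht : t ∈ Icc a b)
    (hγ : ContinuousOn γ (Icc a b)) (hi : InjOn γ (Icc a b)) {x : X}
    (φ : Hom (fun _ => x) I (J.comap _ (e12_emb hγ hi).continuous)) (hc : φ.Cart) (k : ℤ) :
    J.Van k (γ '' Icc a b) {γ t} := by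
  have := isPreconnected_iff_preconnectedSpace.1 (isPreconnected_Icc (a := a) (b := b))
  have := comap_van.1 (const_arc_8 (hJ.comap (e12_emb hγ hi)) φ isCompact_univ isPreconnected_univ
    continuous_subtype_val.continuousOn Subtype.val_injective.injOn (fun _ _ => rfl)
    (fun y _ => hc y) (mem_univ ⟨t, ht⟩) k)
  rwa [image_singleton, image_univ, ← image_eq_range] at this
theorem e12_van_arc (φ : Hom p I J) (hJ : J.Fl) {γ : ℝ → Y} {a b t : ℝ} (ht : t ∈ Icc a b)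
    (hγ : ContinuousOn γ (Icc a b)) (hi : InjOn γ (Icc a b)) {x : X}
    (hp : ∀ u ∈ Icc a b, p (γ u) = x) (hc : ∀ u ∈ Icc a b, φ.CartAt (γ u)) (k : ℤ) :
    J.Van k (γ '' Icc a b) {γ t} :=
  e12_arc hJ ht hγ hi (I := I) (x := x) ⟨φ.f, φ.gr, fun h u hu => hp u u.2 ▸ φ.supp h hu,
    fun h => (congrArg (preimage _) (φ.comm h)).trans preimage_empty⟩ (fun u j => by
      have := hc u u.2 j
      rw [hp u u.2] at this
      have c := (e12_emb hγ hi).continuous
      exact ⟨fun s hs => (this.1 s ((comap_zc_pt (he := c)).1 hs)).imp fun _ h =>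
        ⟨h.1, (comap_bd_pt (he := c)).2 h.2⟩,
        fun s hs hb => this.2 s hs ((comap_bd_pt (he := c)).1 hb)⟩) k
/-- CONST: first `Sur φ` from `({x}, ∅)` to `(γ '' Icc a b, ∅)` (the class `v_u` at `γ u` is locally
constant in `u`, then `slice` with `π` = inverse of `γ`), `Inj` is clear; conclude with E03. Note
`φ.f s` is a cocycle along the whole arc because `p` maps the arc to `x`. -/
theorem const_arc (φ : Hom p I J) (hJ : J.Fl) {γ : ℝ → Y} {a b : ℝ} (hab : a ≤ b)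
    (hγ : ContinuousOn γ (Icc a b)) (hi : InjOn γ (Icc a b)) {x : X}
    (hp : ∀ u ∈ Icc a b, p (γ u) = x) (hc : ∀ u ∈ Icc a b, φ.CartAt (γ u)) :
    Bij I J φ.f {x} ∅ (γ '' Icc a b) ∅ := fun k => by
  have ha : a ∈ Icc a b := ⟨le_rfl, hab⟩
  have m : MapsTo p (γ '' Icc a b) {x} := forall_mem_image.2 hp
  have m' : MapsTo id {γ a} (γ '' Icc a b) := mapsTo_singleton.2 ⟨a, ha, rfl⟩
  have h := hc a ha k
  rw [hp a ha] at h
  exact ⟨Sur.of_comp_inj φ (Hom.refl J) m (mapsTo_empty _ _) m' (mapsTo_empty _ _) h.1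
    (inj_res (empty_subset _) m' (e12_van_arc φ hJ ha hγ hi hp hc k)),
    Inj.of_comp φ (Hom.refl J) m (mapsTo_empty _ _) m' (mapsTo_empty _ _) h.2⟩
theorem van_arc (φ : Hom p I J) (hJ : J.Fl) {γ : ℝ → Y} {a b t : ℝ} (ht : t ∈ Icc a b)
    (hγ : ContinuousOn γ (Icc a b)) (hi : InjOn γ (Icc a b)) {x : X}
    (hp : ∀ u ∈ Icc a b, p (γ u) = x) (hc : ∀ u ∈ Icc a b, φ.CartAt (γ u)) (k : ℤ) :
    J.Van k (γ '' Icc a b) {γ t} := e12_van_arc φ hJ ht hγ hi hp hc k
/-- arcs on which `J` is `ℚ[n]`: apply `van_arc` to `J.comap` on the arc (subtype) and the morphism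
from `cstPC` given by `s0` -/
theorem van_arc_res (hJ : J.Fl) {γ : ℝ → Y} {a b t : ℝ} (ht : t ∈ Icc a b)
    (hγ : ContinuousOn γ (Icc a b)) (hi : InjOn γ (Icc a b)) {n : ℤ} {s0 : J.A}
    (h : ∀ u ∈ Icc a b, J.ResAt n s0 (γ u)) (k : ℤ) : J.Van k (γ '' Icc a b) {γ t} := by
  have h' : ∀ u, (J.comap _ (e12_emb hγ hi).continuous).ResAt n s0 u := fun u =>
    comap_resAt.2 (h u u.2)
  refine e12_arc hJ ht hγ hi (x := ()) (cstTo (J := J.comap _ (e12_emb hγ hi).continuous)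
    (LinearMap.toSpanSingleton ℚ J.A s0) fun c => Zc.smul c ⟨(h t ht).1.1, N_empty_8 _,
      mem_N'.2 fun u _ => mem_N_pt.1 (h' u).1.2.2⟩) (fun u => e12_cart _ ?_) k
  exact (congrArg (fun z => PC.ResAt _ n z u) (one_smul ℚ s0)).mpr (h' u)
theorem lcf_of_cart (φ : Hom p I J) (hJ : J.Fl) (ρ : Flow ℝ Y) {W : Set Y}
    (hinv : ∀ t, ∀ y ∈ W, ρ t y ∈ W) (h : Y → ℝ) (hρ : ∀ t, ∀ y ∈ W, h (ρ t y) = h y + t)
    (hp : ∀ t, ∀ y ∈ W, p (ρ t y) = p y) (hc : ∀ y ∈ W, φ.CartAt y) : J.LCf ρ W := fun x hx a b t ht k =>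
  van_arc φ hJ (γ := fun s => ρ s x) ht (ρ.continuous continuous_id continuous_const).continuousOn
    (fun u _ v _ e => by
      have := congrArg h e
      rwa [hρ u x hx, hρ v x hx, add_left_cancel_iff] at this)
    (fun u _ => hp u x hx) (fun u _ => hc _ (hinv u x hx)) k
/-- build `t n ∈ N S` with `s - d (t n) ∈ N (A n)` and `t (n+1) - t n ∈ N (A n)` (use `exc_closed` for
`A n` and `S`), glue over the interiors -/
theorem tower (hJ : J.Fl) {O S : Set Y} (hO : IsOpen O) (hS : S ⊆ O) (hSc : closure S ∩ O ⊆ S)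
    (A : ℕ → Set Y) (hA : ∀ n, IsCompact (A n)) (hm : Monotone A) (hAO : ∀ n, A n ⊆ O)
    (hcov : O ⊆ ⋃ n, interior (A n)) (h : ∀ n k, J.Van k (A n) (S ∩ A n)) (k : ℤ) :
    J.Van k O S := fun s hs => by
  have g : ∀ n, J.Gl (A n) S := fun n => e04_gl hJ
    ((hA n).isClosed.closure_eq.symm ▸ inter_subset_left) fun x hx => hSc ⟨hx.1, hAO n hx.2⟩
  have b : ∀ n j u, J.Zc j (A n) S u → ∃ t ∈ J.gr (j - 1), t ∈ J.N S ∧ u - J.d t ∈ J.N (A n) :=
    fun n j u hu => ((g n).bd hu.2.1 (inter_comm S (A n) ▸ h n j u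
      (hu.mono subset_rfl inter_subset_left))).mono subset_union_left subset_rfl
  let P : ℕ → J.A → Prop := fun n t => t ∈ J.gr (k - 1) ∧ t ∈ J.N S ∧ s - J.d t ∈ J.N (A n)
  have step : ∀ n t, P n t → ∃ t', P (n + 1) t' ∧ t' - t ∈ J.N (A n) := fun n t ht => by
    obtain ⟨r, r1, r2, r3⟩ := b (n + 1) k s (hs.mono (hAO _) subset_rfl)
    obtain ⟨u, u1, u2, u3⟩ := b n _ (r - t) ⟨sub_mem r1 ht.1, sub_mem r2 ht.2.1, by
      simpa using sub_mem ht.2.2 (N_anti_8 (hm n.le_succ) r3)⟩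
    refine ⟨r - J.d u, ⟨sub_mem r1 (d_gr' u1), sub_mem r2 (N_d u1 u2), ?_⟩, by rwa [sub_right_comm]⟩
    rw [map_sub, ← sub_add]; exact add_mem r3 (N_dd u1)
  choose! F hF using step
  obtain ⟨t0, h0⟩ := b 0 k s (hs.mono (hAO _) subset_rfl)
  let T : ℕ → J.A := fun n => Nat.rec t0 F n
  have hT : ∀ n, P n (T n) := fun n => Nat.rec h0 (fun n ih => (hF n _ ih).1) n
  have hd : ∀ i j, i ≤ j → T j - T i ∈ J.N (A i) := fun i j hij => by
    induction j, hij using Nat.le_induction with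
    | base => simp
    | succ j hj ih => exact N_trans (N_anti_8 (hm hj) (hF j _ (hT j)).2) ih
  obtain ⟨t, t1, t2⟩ := hJ (k - 1) ℕ (fun n => interior (A n)) T (fun _ => isOpen_interior)
    (fun n => (hT n).1) fun i j => (le_total i j).elim
      (fun h => N_symm (N_anti_8 (inter_subset_left.trans interior_subset) (hd i j h)))
      fun h => N_anti_8 (inter_subset_right.trans interior_subset) (hd j i h)
  refine ⟨t, t1, J.N_iff_forall.2 fun x hx => ?_, J.N_iff_forall.2 fun x hx => ?_⟩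
  · obtain ⟨n, hn⟩ := mem_iUnion.1 (hcov (hS hx))
    exact N_of_sub (N_anti_8 (singleton_subset_iff.2 hn) (t2 n))
      (N_anti_8 (singleton_subset_iff.2 hx) (hT n).2.1)
  · obtain ⟨n, hn⟩ := mem_iUnion.1 (hcov hx)
    exact N_anti_8 (singleton_subset_iff.2 hn) (N_trans (N_anti_8 interior_subset (hT n).2.2)
      (N_dsub (hT n).1 t1 (N_symm (t2 n))))

end C73
end
end

section
/-! E17: cohomology of a cube relative to its boundary; invariance of dimension. (sup norm: `closedBall 0 1 = [-1,1]^m`.) -/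

open Set Filter Topology TopologicalSpace

noncomputable section
namespace C73
open PC

variable {X Y : Type} [TopologicalSpace X] [TopologicalSpace Y]

/-- the cube `[-1,1]^m` and its boundary -/
def cube (m : ℕ) : Set (Fin m → ℝ) := Metric.closedBall 0 1
def bdry (m : ℕ) : Set (Fin m → ℝ) := Metric.sphere 0 1

variable [MetrizableSpace X] {I : PC X}
/-- `H^k(C, C')` is one dimensional -/
def PC.One (I : PC X) (k : ℤ) (C C' : Set X) : Prop :=
  ∃ z, I.Zc k C C' z ∧ ¬ I.Bd k C C' z ∧ ∀ s, I.Zc k C C' s → ∃ c : ℚ, I.Bd k C C' (s - c • z)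
omit [MetrizableSpace X] in
theorem PC.Sph.fwd {p : Y → X} {J : PC Y} (φ : Hom p I J) {C C' : Set X} {D D' : Set Y} {k : ℤ}
    (h1 : MapsTo p D C) (h2 : MapsTo p D' C') (hb : Bij I J φ.f C C' D D') (h : I.Sph k C C') :
    J.Sph k D D' := by
  obtain ⟨⟨z, z1, z2, z3⟩, hv⟩ := h
  refine ⟨⟨_, φ.map_zc h1 h2 z1, fun h => z2 ((hb k).2 z z1 h), fun s hs => ?_⟩,
    fun j hj => Sur.van φ h1 h2 (hb j).1 (hv j hj)⟩
  obtain ⟨a, a1, a2⟩ := (hb k).1 s hs
  obtain ⟨c, hc⟩ := z3 a a1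
  exact ⟨c, by simpa using a2.add (φ.map_bd (a1.sub (z1.smul c)).1 h1 h2 hc)⟩
omit [MetrizableSpace X] in
theorem PC.Sph.bwd {p : Y → X} {J : PC Y} (φ : Hom p I J) {C C' : Set X} {D D' : Set Y} {k : ℤ}
    (h1 : MapsTo p D C) (h2 : MapsTo p D' C') (hb : Bij I J φ.f C C' D D') (h : J.Sph k D D') :
    I.Sph k C C' := by
  obtain ⟨⟨z, z1, z2, z3⟩, hv⟩ := h
  obtain ⟨w, w1, w2⟩ := (hb k).1 z z1
  refine ⟨⟨w, w1, fun h => z2 (w2.of_sub (φ.map_bd w1.1 h1 h2 h)), fun s hs => ?_⟩,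
    fun j hj => Inj.van φ h1 h2 (hb j).2 (hv j hj)⟩
  obtain ⟨c, hc⟩ := z3 _ (φ.map_zc h1 h2 hs)
  exact ⟨c, (hb k).2 _ (hs.sub (w1.smul c)) (by simpa [smul_sub] using hc.add (w2.smul c))⟩
theorem e17_tr (hI : I.Fl) (m : ℕ) {γ : (Fin m → ℝ) → X} (hγ : ContinuousOn γ (cube m))
    (hi : InjOn γ (cube m)) {n : ℤ} {s0 : I.A} (h : ∀ t ∈ cube m, I.ResAt n s0 (γ t)) :
    ∃ (p : (Fin m → ℝ) → X) (J : PC (Fin m → ℝ)) (φ : Hom p I J), J.Fl ∧
      (∀ t, J.ResAt n (φ.f s0) t) ∧ (∀ B ⊆ cube m, MapsTo p B (γ '' B)) ∧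
      ∀ B B', B' ⊆ B → B ⊆ cube m → Bij I J φ.f (γ '' B) (γ '' B') B B' := by
  let r : (Fin m → ℝ) → Fin m → ℝ := fun t => (max ‖t‖ 1)⁻¹ • t
  have h0 : ∀ t : Fin m → ℝ, 0 < max ‖t‖ 1 := fun t => one_pos.trans_le (le_max_right _ _)
  have r1 : Continuous r := (Continuous.inv₀ (by fun_prop) fun t => (h0 t).ne').smul continuous_id
  have r2 : ∀ t, r t ∈ cube m := fun t => mem_closedBall_zero_iff.2 (by
    rw [norm_smul, norm_inv, Real.norm_of_nonneg (h0 t).le, inv_mul_le_iff₀ (h0 t), mul_one]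
    exact le_max_left _ _)
  have r3 : ∀ t ∈ cube m, r t = t := fun t ht => by
    simp only [r, max_eq_right (mem_closedBall_zero_iff.1 ht), inv_one, one_smul]
  have hp : Continuous (γ ∘ r) := hγ.comp_continuous r1 r2
  have hc := godU_cart _ hp I
  have : CompactSpace (cube m) :=
    isCompact_iff_compactSpace.1 (isCompact_closedBall (0 : Fin m → ℝ) 1)
  have he : IsEmbedding fun u : cube m => γ u :=
    (hγ.domRestrict.isClosedEmbedding hi.injective).isEmbedding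
  have e : ∀ u : cube m, (γ ∘ r) u = γ u := fun u => congrArg γ (r3 u u.2)
  refine ⟨_, _, godU _ hp I, fl_god _ _ _, fun t => ResAt.of_cart _ (hc t) (h _ (r2 t)),
    fun B hB t ht => ⟨t, ht, (e ⟨t, hB ht⟩).symm⟩, fun B B' h1 h2 k => ?_⟩
  let ψ : Hom id (I.comap _ he.continuous) ((god _ hp I).comap (Subtype.val : cube m → _)
      continuous_subtype_val) :=
    ⟨(godU _ hp I).f, (godU _ hp I).gr, fun h u hu => by
      have := (godU _ hp I).supp h hu
      rwa [mem_preimage, e] at this,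
      fun h => (congrArg (preimage _) ((godU _ hp I).comm h)).trans preimage_empty⟩
  have q := qis_set ψ (hI.comap he) ((fl_god _ hp I).comap IsEmbedding.subtypeVal)
    (preimage_mono (f := Subtype.val) h1) (fun u _ j => by
      have := hc u j
      rw [e] at this
      exact ⟨fun s hs => (this.1 s (comap_zc_pt.1 hs)).imp fun _ h =>
        ⟨(comap_zc_pt (he := he.continuous)).2 h.1, comap_bd_pt.2 h.2⟩,
        fun s hs hb => (comap_bd_pt (he := he.continuous)).2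
          (this.2 s ((comap_zc_pt (he := he.continuous)).1 hs) (comap_bd_pt.1 hb))⟩) k
  have e1 : ∀ B ⊆ cube m, Subtype.val '' (Subtype.val ⁻¹' B : Set (cube m)) = B := fun B hB =>
    image_preimage_eq_of_subset (by rwa [Subtype.range_coe])
  have e2 : ∀ B ⊆ cube m, (fun u : cube m => γ u) '' (Subtype.val ⁻¹' B) = γ '' B := fun B hB => by
    rw [← image_image γ, e1 B hB]
  have : Sur I _ (godU _ hp I).f k _ _ _ _ ∧ Inj I _ (godU _ hp I).f k _ _ _ _ :=
    ⟨fun s hs => (q.1 s (comap_zc.2 hs)).imp fun _ h => ⟨comap_zc.1 h.1, comap_bd.1 h.2⟩,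
      fun s hs hb => comap_bd.1 (q.2 s (comap_zc.2 hs) (comap_bd.2 hb))⟩
  rwa [e2 B h2, e2 B' (h1.trans h2), e1 B h2, e1 B' (h1.trans h2)] at this
theorem e17_bdry (m : ℕ) : bdry m = cube m ∩ (Metric.ball 0 1)ᶜ :=
  Metric.closedBall_sdiff_ball.symm
/-- induction on `m`. `P = P' × [-1,1]` (`Fin.cons`/`Fin.snoc`), `A := ∂P' × [-1,1] ∪ P' × {-1}`:
`Van (P, A)` in all degrees by `vb` (fibres: arc rel end point or arc rel arc, `van_arc_res`); so
`d : H^{k-1}(∂P, A) ≅ H^k(P, ∂P)`, and `(∂P, A)` excises to the top face rel its boundary. -/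
theorem cube_coh (hI : I.Fl) (m : ℕ) {γ : (Fin m → ℝ) → X} (hγ : ContinuousOn γ (cube m))
    (hi : InjOn γ (cube m)) {n : ℤ} {s0 : I.A} (h : ∀ t ∈ cube m, I.ResAt n s0 (γ t)) :
    I.One (m - n) (γ '' cube m) (γ '' bdry m) ∧
      ∀ k, k ≠ m - n → I.Van k (γ '' cube m) (γ '' bdry m) := by
  obtain ⟨p, J, φ, hJ, hR, hm, hb⟩ := e17_tr hI m hγ hi h
  have h1 := sph_ball hJ hR hJ.vbh (ResAt.seg hJ hR) 0 one_pos
  have e : (univ : Set (Fin m → ℝ)) = cube m ∪ (Metric.ball 0 1)ᶜ := (eq_univ_of_forall fun y =>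
    (em (y ∈ Metric.ball 0 1)).imp_left fun h => Metric.ball_subset_closedBall h).symm
  rw [e] at h1
  have h2 := h1.fwd (Hom.refl J) (fun _ h => Or.inl h) (fun _ h => h.2)
    (hJ.gl_closed Metric.isClosed_closedBall Metric.isOpen_ball.isClosed_compl).exc_bij
  have hs : bdry m ⊆ cube m := Metric.sphere_subset_closedBall
  exact PC.Sph.bwd φ (hm _ subset_rfl) (hm _ hs) (hb _ _ hs subset_rfl) (e17_bdry m ▸ h2)
/-- radial `vb`: `t ↦ ‖t‖⁻¹ • t` -/
theorem collar_van (hI : I.Fl) (m : ℕ) {γ : (Fin m → ℝ) → X} (hγ : ContinuousOn γ (cube m))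
    (hi : InjOn γ (cube m)) {n : ℤ} {s0 : I.A} (h : ∀ t ∈ cube m, I.ResAt n s0 (γ t)) {r : ℝ}
    (hr : 0 < r) (hr1 : r ≤ 1) (k : ℤ) :
    I.Van k (γ '' (cube m \ Metric.ball 0 r)) (γ '' bdry m) := by
  obtain ⟨p, J, φ, hJ, hR, hm, hb⟩ := e17_tr hI m hγ hi h
  have h1 := van_shell hJ hJ.vbh (ResAt.seg hJ hR) 0 hr hr1 k
  have e : (Metric.ball (0 : Fin m → ℝ) r)ᶜ = cube m \ Metric.ball 0 r ∪ (Metric.ball 0 1)ᶜ :=
    Subset.antisymm (fun y hy => (em (y ∈ Metric.ball 0 1)).imp_left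
      fun h => ⟨Metric.ball_subset_closedBall h, hy⟩)
      (union_subset (fun _ h => h.2) (compl_subset_compl.2 (Metric.ball_subset_ball hr1)))
  have e' : (cube m \ Metric.ball 0 r) ∩ (Metric.ball 0 1)ᶜ = bdry m := by
    rw [e17_bdry]
    exact Subset.antisymm (fun y hy => ⟨hy.1.1, hy.2⟩)
      fun y hy => ⟨⟨hy.1, fun h => hy.2 (Metric.ball_subset_ball hr1 h)⟩, hy.2⟩
  rw [e, (hJ.gl_closed (IsClosed.sdiff (s := cube m) Metric.isClosed_closedBall Metric.isOpen_ball)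
    Metric.isOpen_ball.isClosed_compl).exc, e'] at h1
  exact Inj.van φ (hm _ sdiff_subset) (hm _ Metric.sphere_subset_closedBall)
    (hb _ _ (e' ▸ inter_subset_left) sdiff_subset k).2 h1
/-- `cube_coh` and `dim_van` for `resC X ℚ 0` -/
theorem cube_le_of_fto (m : ℕ) {γ : (Fin m → ℝ) → X} (hγ : ContinuousOn γ (cube m))
    (hi : InjOn γ (cube m)) {e : ℤ} (h : FTO (γ '' cube m) e) : (m : ℤ) ≤ e := by
  by_contra hlt
  obtain ⟨z, z1, z2, -⟩ := (cube_coh (fl_resC ℚ 0) m hγ hi fun t _ => resC_resAt_8 0 (γ t)).1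
  have hs : bdry m ⊆ cube m := Metric.sphere_subset_closedBall
  exact z2 ((fl_resC ℚ 0).dim (N := 0) ((isCompact_closedBall 0 1).image_of_continuousOn hγ)
    ((isCompact_sphere 0 1).image_of_continuousOn (hγ.mono hs)).isClosed (h.mono_8 sdiff_subset)
    (fun x _ j hj => resC_van ℚ 0 x (by omega)) (by omega) z z1)
theorem e17_le {a b : ℕ} {γ₁ : (Fin a → ℝ) → X} {γ₂ : (Fin b → ℝ) → X} (h1 : IsEmbedding γ₁)
    (h2 : IsEmbedding γ₂) {S : Set X} (s1 : range γ₁ ⊆ S) (n2 : range γ₂ ∈ 𝓝[S] (γ₁ 0)) :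
    a ≤ b := by
  have : γ₁ ⁻¹' range γ₂ ∈ 𝓝 0 := tendsto_nhdsWithin_iff.2
    ⟨h1.continuous.continuousAt, Eventually.of_forall fun t => s1 ⟨t, rfl⟩⟩ n2
  obtain ⟨δ, hδ, h3⟩ := Metric.nhds_basis_closedBall.mem_iff.1 this
  have h4 : (fun t => γ₁ (δ • t)) '' cube a ⊆ range γ₂ := forall_mem_image.2 fun t ht =>
    h3 (mem_closedBall_zero_iff.2 (by
      rw [norm_smul, Real.norm_of_nonneg hδ.le]
      exact mul_le_of_le_one_right hδ.le (mem_closedBall_zero_iff.1 ht)))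
  exact_mod_cast cube_le_of_fto a (γ := fun t => γ₁ (δ • t))
    (h1.continuous.comp (continuous_const_smul δ)).continuousOn
    (h1.injective.comp (smul_right_injective _ hδ.ne')).injOn (e := b)
    ((fto_self univ).of_injOn (Function.invFun γ₂) (h2.isInducing.continuousOn_iff.2
      (continuousOn_id.congr fun x hx => Function.invFun_eq (h4 hx)))
      (fun x hx y hy e => by rw [← Function.invFun_eq (h4 hx), e, Function.invFun_eq (h4 hy)])
      (mapsTo_univ _ _))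
theorem inv_dim {a b : ℕ} {γ₁ : (Fin a → ℝ) → X} {γ₂ : (Fin b → ℝ) → X} (h1 : IsEmbedding γ₁)
    (h2 : IsEmbedding γ₂) (h0 : γ₁ 0 = γ₂ 0) {S : Set X} (s1 : range γ₁ ⊆ S) (s2 : range γ₂ ⊆ S)
    (n1 : range γ₁ ∈ 𝓝[S] (γ₁ 0)) (n2 : range γ₂ ∈ 𝓝[S] (γ₁ 0)) : a = b :=
  (e17_le h1 h2 s1 n2).antisymm (e17_le h2 h1 s2 (h0 ▸ n1))

end C73
end
end

section
/-! E18: compact supports: basic lemmas. -/

open Set Filter Topology TopologicalSpace

noncomputable section
namespace C73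

variable {X Y : Type} [TopologicalSpace X] [TopologicalSpace Y]

section e18aux
variable {I J : PC X} {k : ℤ} {V V' : Set X} {s t : I.A}

theorem e18_cut (hI : I.Fl) (hs : s ∈ I.gr k) {W L : Set X} (hW : IsOpen W) (hL : IsClosed L)
    (hWL : W ⊆ L) : ∃ t ∈ I.gr k, I.supp t ⊆ I.supp s ∩ L ∧ I.supp (s - t) ⊆ I.supp s \ W := by
  obtain ⟨t, ht, h1, h2⟩ := exc_open hI ((I.closed s).inter hL).isOpen_compl hW hs
    (disjoint_left.2 fun x hx hx' => hx'.1 ⟨hx, hWL hx'.2⟩)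
  have h3 : I.supp t ⊆ I.supp s ∩ L := disjoint_compl_right_iff_subset.1 h1
  exact ⟨t, ht, h3, fun x hx => ⟨(I.supp_sub _ _ hx).elim id fun h => (h3 h).1,
    disjoint_left.1 h2 hx⟩⟩

theorem e18_empty_add (hs : I.supp s = ∅) (ht : I.supp t = ∅) : I.supp (s + t) = ∅ :=
  subset_eq_empty (I.supp_add _ _) (by rw [hs, ht, union_empty])
theorem e18_empty_sub (hs : I.supp s = ∅) (ht : I.supp t = ∅) : I.supp (s - t) = ∅ :=
  subset_eq_empty (I.supp_sub _ _) (by rw [hs, ht, union_empty])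
theorem e18_zcc_mono (hs : I.Zcc k V s) (h : V ⊆ V') : I.Zcc k V' s :=
  ⟨hs.1, hs.2.1, hs.2.2.1.trans h, hs.2.2.2⟩
theorem e18_bdc_mono (hs : I.Bdc k V s) (h : V ⊆ V') : I.Bdc k V' s :=
  let ⟨t, a, b, c, d⟩ := hs; ⟨t, a, b, c.trans h, d⟩
theorem e18_zcc_zero : I.Zcc k V 0 :=
  ⟨zero_mem _, by simp [I.supp_zero], by simp [I.supp_zero], by simp [I.supp_zero]⟩
theorem e18_zcc_add (hs : I.Zcc k V s) (ht : I.Zcc k V t) : I.Zcc k V (s + t) :=
  ⟨add_mem hs.1 ht.1, (hs.2.1.union ht.2.1).of_isClosed_subset (I.closed _) (I.supp_add _ _),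
    (I.supp_add _ _).trans (union_subset hs.2.2.1 ht.2.2.1), by
      rw [map_add]; exact e18_empty_add hs.2.2.2 ht.2.2.2⟩
theorem e18_zcc_smul (c : ℚ) (hs : I.Zcc k V s) : I.Zcc k V (c • s) :=
  ⟨Submodule.smul_mem _ c hs.1, hs.2.1.of_isClosed_subset (I.closed _) (I.supp_smul _ _),
    (I.supp_smul _ _).trans hs.2.2.1, by
      rw [map_smul]; exact subset_eq_empty (I.supp_smul _ _) hs.2.2.2⟩
theorem e18_zcc_sub (hs : I.Zcc k V s) (ht : I.Zcc k V t) : I.Zcc k V (s - t) := by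
  rw [sub_eq_add_neg, ← neg_one_smul ℚ t]; exact e18_zcc_add hs (e18_zcc_smul _ ht)
theorem e18_zcc_sum {κ : Type} (S : Finset κ) {z : κ → I.A} (h : ∀ a ∈ S, I.Zcc k V (z a)) :
    I.Zcc k V (∑ a ∈ S, z a) :=
  Finset.sum_induction z _ (fun _ _ => e18_zcc_add) e18_zcc_zero h
theorem e18_bdc_zero : I.Bdc k V 0 :=
  ⟨0, zero_mem _, by simp [I.supp_zero], by simp [I.supp_zero], by simp [I.supp_zero]⟩
theorem e18_bdc_add (hs : I.Bdc k V s) (ht : I.Bdc k V t) : I.Bdc k V (s + t) := by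
  obtain ⟨a, a1, a2, a3, a4⟩ := hs
  obtain ⟨b, b1, b2, b3, b4⟩ := ht
  refine ⟨a + b, add_mem a1 b1, (a2.union b2).of_isClosed_subset (I.closed _) (I.supp_add _ _),
    (I.supp_add _ _).trans (union_subset a3 b3), ?_⟩
  rw [map_add, add_sub_add_comm]; exact e18_empty_add a4 b4
theorem e18_bdc_smul (c : ℚ) (hs : I.Bdc k V s) : I.Bdc k V (c • s) := by
  obtain ⟨a, a1, a2, a3, a4⟩ := hs
  refine ⟨c • a, Submodule.smul_mem _ c a1, a2.of_isClosed_subset (I.closed _) (I.supp_smul _ _),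
    (I.supp_smul _ _).trans a3, ?_⟩
  rw [map_smul, ← smul_sub]; exact subset_eq_empty (I.supp_smul _ _) a4
theorem e18_bdc_sum {κ : Type} (S : Finset κ) {z : κ → I.A} (h : ∀ a ∈ S, I.Bdc k V (z a)) :
    I.Bdc k V (∑ a ∈ S, z a) :=
  Finset.sum_induction z _ (fun _ _ => e18_bdc_add) e18_bdc_zero h
theorem e18_map_zcc (φ : Hom id I J) (hs : I.Zcc k V s) : J.Zcc k V (φ.f s) :=
  ⟨φ.gr hs.1, hs.2.1.of_isClosed_subset (J.closed _) (φ.supp hs.1), (φ.supp hs.1).trans hs.2.2.1,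
    by simpa using e18_empty_sub (φ.supp_empty (I.d_gr hs.1) hs.2.2.2) (φ.comm hs.1)⟩
theorem e18_map_bdc (φ : Hom id I J) (h : s ∈ I.gr k) (hs : I.Bdc k V s) : J.Bdc k V (φ.f s) := by
  obtain ⟨a, a1, a2, a3, a4⟩ := hs
  refine ⟨φ.f a, φ.gr a1, a2.of_isClosed_subset (J.closed _) (φ.supp a1), (φ.supp a1).trans a3, ?_⟩
  have h1 : I.d a ∈ I.gr k := by simpa using I.d_gr a1
  simpa using e18_empty_add (φ.supp_empty (sub_mem h h1) a4) (φ.comm a1)
end e18aux

variable [Nice X] {I : PC X} {k : ℤ}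
/-- glue `t` on `O` with `0` on `(supp t ∩ P)ᶜ` -/
theorem cut (hI : I.Fl) {P O : Set X} (hP : IsCompact P) (hO : IsOpen O) (hOP : O ⊆ P) {t : I.A}
    (ht : t ∈ I.gr k) (h : t ∈ I.N (P \ O)) :
    ∃ t' ∈ I.gr k, IsCompact (I.supp t') ∧ I.supp t' ⊆ O ∧ t - t' ∈ I.N O := by
  obtain ⟨t', h1, h2, h3⟩ := e18_cut hI ht hO hP.isClosed hOP
  refine ⟨t', h1, hP.of_isClosed_subset (I.closed _) (h2.trans inter_subset_right), fun x hx => ?_,
    disjoint_left.2 fun x hx => (h3 hx).2⟩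
  by_contra hxO
  exact disjoint_left.1 h (h2 hx).1 ⟨(h2 hx).2, hxO⟩

theorem e18_split (hI : I.Fl) {U W : Set X} (hU : IsOpen U) (hW : IsOpen W) {s : I.A}
    (hs : s ∈ I.gr k) (hc : IsCompact (I.supp s)) (h : I.supp s ⊆ U ∪ W) :
    ∃ t ∈ I.gr k, I.supp t ⊆ U ∩ I.supp s ∧ I.supp (s - t) ⊆ W ∩ I.supp s := by
  obtain ⟨L, hL, h1, h2⟩ := exists_compact_between (hc.diff hW) hU
    fun x hx => (h hx.1).resolve_right hx.2
  obtain ⟨t, ht, h3, h4⟩ := e18_cut hI hs isOpen_interior hL.isClosed interior_subset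
  refine ⟨t, ht, fun x hx => ⟨h2 (h3 hx).2, (h3 hx).1⟩, fun x hx => ⟨?_, (h4 hx).1⟩⟩
  by_contra hxW
  exact (h4 hx).2 (h1 ⟨(h4 hx).1, hxW⟩)

/-- partition of a compactly supported element (induction on a finite subcover, `exc_open`) -/
theorem partition (hI : I.Fl) {κ : Type} (U : κ → Set X) (hU : ∀ i, IsOpen (U i)) {s : I.A}
    (hs : s ∈ I.gr k) (hc : IsCompact (I.supp s)) (h : I.supp s ⊆ ⋃ i, U i) :
    ∃ (S : Finset κ) (u : κ → I.A), (∀ i, u i ∈ I.gr k ∧ IsCompact (I.supp (u i)) ∧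
      I.supp (u i) ⊆ U i ∩ I.supp s) ∧ I.supp (s - ∑ i ∈ S, u i) = ∅ := by
  classical
  obtain ⟨S, hS⟩ := hc.elim_finite_subcover U hU h
  refine ⟨S, ?_⟩
  clear h
  induction S using Finset.induction_on generalizing s with
  | empty => exact ⟨0, fun i => by simp [I.supp_zero], by simpa only [Pi.zero_apply, Finset.sum_const_zero, sub_zero, Finset.notMem_empty, iUnion_of_empty, iUnion_empty, subset_empty_iff] using hS⟩
  | insert j S hj ih =>
    rw [Finset.set_biUnion_insert] at hS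
    obtain ⟨t, ht, h1, h2⟩ := e18_split hI (hU j) (isOpen_biUnion fun i _ => hU i) hs hc hS
    obtain ⟨u, hu, hu'⟩ := ih (sub_mem hs ht)
      (hc.of_isClosed_subset (I.closed _) (h2.trans inter_subset_right)) (h2.trans inter_subset_left)
    refine ⟨Function.update u j t, fun i => ?_, ?_⟩
    · rcases eq_or_ne i j with rfl | hi
      · rw [Function.update_self]
        exact ⟨ht, hc.of_isClosed_subset (I.closed _) (h1.trans inter_subset_right), h1⟩
      · rw [Function.update_of_ne hi]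
        exact ⟨(hu i).1, (hu i).2.1, (hu i).2.2.trans
          (inter_subset_inter_right _ (h2.trans inter_subset_right))⟩
    · rwa [Finset.sum_insert hj, Function.update_self, Finset.sum_update_of_notMem hj, ← sub_sub]
theorem bdc_of_bd (hI : I.Fl) {P O : Set X} (hP : IsCompact P) (hO : IsOpen O) (hOP : O ⊆ P)
    {s : I.A} (hs : I.Zcc k O s) (h : I.Bd k P (P \ O) s) : I.Bdc k O s := by
  obtain ⟨t, ht, h1, h2⟩ := h
  obtain ⟨t', ht', h3, h4, h5⟩ := cut hI hP hO hOP ht h1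
  refine ⟨t', ht', h3, h4, ?_⟩
  have h6 := add_mem (I.N_anti hOP h2) (I.d_N (sub_mem ht ht') h5)
  rw [map_sub, sub_add_sub_cancel] at h6
  exact Disjoint.eq_bot_of_le h6 ((I.supp_sub _ _).trans
    (union_subset hs.2.2.1 ((I.supp_d ht').trans h4)))
theorem zcc_of_zc (hI : I.Fl) {P O : Set X} (hP : IsCompact P) (hO : IsOpen O) (hOP : O ⊆ P)
    {s : I.A} (hs : I.Zc k P (P \ O) s) : ∃ s', I.Zcc k O s' ∧ s - s' ∈ I.N P := by
  obtain ⟨s', h1, h2, h3, h4⟩ := cut hI hP hO hOP hs.1 hs.2.1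
  have h6 := sub_mem (I.N_anti hOP hs.2.2) (I.d_N (sub_mem hs.1 h1) h4)
  rw [map_sub, sub_sub_cancel] at h6
  refine ⟨s', ⟨h1, h2, h3, Disjoint.eq_bot_of_le h6 ((I.supp_d h1).trans h3)⟩, ?_⟩
  rw [← union_sdiff_cancel hOP]
  exact I.N_union.2 ⟨h4, sub_mem hs.2.1 (disjoint_left.2 fun x hx hx' => hx'.2 (h3 hx))⟩
/-- top degree vanishing (`dim_van_loc` on a compact neighbourhood `P ⊆ V` of the support) -/
theorem vanc_top (hI : I.Fl) {V : Set X} (hV : IsOpen V) {n N : ℤ}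
    (hF : ∀ x ∈ V, ∃ U ∈ 𝓝 x, FTO U n) (h : ∀ x ∈ V, ∀ k, N < k → I.Van k {x} ∅) (hk : N + n < k)
    {s : I.A} (hs : I.Zcc k V s) : I.Bdc k V s := by
  obtain ⟨P, hP, h1, h2⟩ := exists_compact_between hs.2.1 hV hs.2.2.1
  have h3 := dim_van_loc hI hP (isOpen_interior (s := P)).isClosed_compl (n := n) (N := N)
    (fun x hx => let ⟨U, hU, hU'⟩ := hF x (h2 hx.1); ⟨U, hU, hU'.mono inter_subset_left le_rfl⟩)
    (fun x hx => h x (h2 hx.1)) k hk s
    ⟨hs.1, disjoint_left.2 fun x hx hx' => hx'.1 (h1 hx), I.N_of_empty hs.2.2.2 _⟩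
  rw [inter_comm] at h3
  exact e18_bdc_mono (bdc_of_bd hI hP isOpen_interior interior_subset
    ⟨hs.1, hs.2.1, h1, hs.2.2.2⟩ h3) (interior_subset.trans h2)
/-- cosheaf property in a degree `k` with `H_c^{k+1} = 0` on all opens: induction on the finite
cover; `s = u₁ + u₂`, `d u₁ = - d u₂ = d t` on the intersection -/
theorem partition_zcc (hI : I.Fl) {κ : Type} (U : κ → Set X) (hU : ∀ i, IsOpen (U i))
    (hv : ∀ V, IsOpen V → ∀ s, I.Zcc (k + 1) V s → I.Bdc (k + 1) V s) {s : I.A}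
    (hs : I.Zcc k (⋃ i, U i) s) :
    ∃ (S : Finset κ) (u : κ → I.A), (∀ i, I.Zcc k (U i) (u i)) ∧
      I.supp (s - ∑ i ∈ S, u i) = ∅ := by
  classical
  obtain ⟨S, hS⟩ := hs.2.1.elim_finite_subcover U hU hs.2.2.1
  refine ⟨S, ?_⟩
  replace hs : I.Zcc k (⋃ i ∈ S, U i) s := ⟨hs.1, hs.2.1, hS, hs.2.2.2⟩
  clear hS
  induction S using Finset.induction_on generalizing s with
  | empty => exact ⟨0, fun i => e18_zcc_zero, by simpa only [Pi.zero_apply, Finset.sum_const_zero, sub_zero, Finset.notMem_empty, iUnion_of_empty, iUnion_empty, subset_empty_iff] using hs.2.2.1⟩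
  | insert j S hj ih =>
    rw [Finset.set_biUnion_insert] at hs
    have hW : IsOpen (⋃ i ∈ S, U i) := isOpen_biUnion fun i _ => hU i
    obtain ⟨t, ht, h1, h2⟩ := e18_split hI (hU j) hW hs.1 hs.2.1 hs.2.2.1
    have c1 := hs.2.1.of_isClosed_subset (I.closed _) (h1.trans inter_subset_right)
    have c2 := hs.2.1.of_isClosed_subset (I.closed _) (h2.trans inter_subset_right)
    obtain ⟨w, hw, w1, w2, w3⟩ := hv _ ((hU j).inter hW) (I.d t) ⟨I.d_gr ht,
      c1.of_isClosed_subset (I.closed _) (I.supp_d ht),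
      subset_inter ((I.supp_d ht).trans (h1.trans inter_subset_left)) (by
        rw [show I.d t = I.d s - I.d (s - t) by rw [map_sub, sub_sub_cancel]]
        refine (I.supp_sub _ _).trans ?_
        rw [hs.2.2.2, empty_union]
        exact (I.supp_d (sub_mem hs.1 ht)).trans (h2.trans inter_subset_left)), I.supp_dd ht⟩
    rw [add_sub_cancel_right] at hw
    have z1 : I.Zcc k (U j) (t - w) := ⟨sub_mem ht hw,
      (c1.union w1).of_isClosed_subset (I.closed _) (I.supp_sub _ _), (I.supp_sub _ _).trans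
        (union_subset (h1.trans inter_subset_left) (w2.trans inter_subset_left)), by
        rwa [map_sub]⟩
    have e : s - (t - w) = s - t + w := by abel
    obtain ⟨u, hu, hu'⟩ := ih (s := s - (t - w)) ⟨sub_mem hs.1 z1.1,
      (hs.2.1.union z1.2.1).of_isClosed_subset (I.closed _) (I.supp_sub _ _), by
        rw [e]
        exact (I.supp_add _ _).trans
          (union_subset (h2.trans inter_subset_left) (w2.trans inter_subset_right)), by
        rw [map_sub]; exact e18_empty_sub hs.2.2.2 z1.2.2.2⟩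
    refine ⟨Function.update u j (t - w), fun i => ?_, ?_⟩
    · rcases eq_or_ne i j with rfl | hi
      · rwa [Function.update_self]
      · rw [Function.update_of_ne hi]; exact hu i
    · rwa [Finset.sum_insert hj, Function.update_self, Finset.sum_update_of_notMem hj, ← sub_sub]

theorem e18_surc {J : PC X} (φ : Hom id I J) (hI : I.Fl) (hJ : J.Fl) (hφ : φ.Cart) {s' : J.A}
    (hs : J.Zcc k univ s') : ∃ s, I.Zcc k univ s ∧ J.Bdc k univ (s' - φ.f s) := by
  obtain ⟨P, hP, h1⟩ := exists_compact_superset hs.2.1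
  obtain ⟨s0, h2, h3⟩ := (qis_set φ hI hJ (C := P) (C' := P \ interior P) sdiff_subset
    (fun x _ => hφ x) k).1 s'
    ⟨hs.1, disjoint_left.2 fun x hx hx' => hx'.2 (h1 hx), J.N_of_empty hs.2.2.2 _⟩
  obtain ⟨s, h4, h5⟩ := zcc_of_zc hI hP isOpen_interior interior_subset h2
  refine ⟨s, e18_zcc_mono h4 (subset_univ _), e18_bdc_mono (bdc_of_bd hJ hP isOpen_interior
    interior_subset (e18_zcc_sub ⟨hs.1, hs.2.1, h1, hs.2.2.2⟩ (e18_map_zcc φ h4)) ?_)
    (subset_univ _)⟩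
  have := h3.add (PC.Bd.of_N (φ.map_N (sub_mem h2.1 h4.1) (mapsTo_id P) h5))
  rwa [map_sub, sub_add_sub_cancel] at this

theorem e18_injc {J : PC X} (φ : Hom id I J) (hI : I.Fl) (hJ : J.Fl) (hφ : φ.Cart) {s : I.A}
    (hs : I.Zcc k univ s) (h : J.Bdc k univ (φ.f s)) : I.Bdc k univ s := by
  obtain ⟨t, t1, t2, -, t4⟩ := h
  obtain ⟨P, hP, h1⟩ := exists_compact_superset (hs.2.1.union t2)
  refine e18_bdc_mono (bdc_of_bd hI hP isOpen_interior interior_subset
    ⟨hs.1, hs.2.1, subset_union_left.trans h1, hs.2.2.2⟩ ?_) (subset_univ _)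
  exact (qis_set φ hI hJ (C := P) (C' := P \ interior P) sdiff_subset (fun x _ => hφ x) k).2 s
    ⟨hs.1, disjoint_left.2 fun x hx hx' => hx'.2 (h1 (Or.inl hx)), I.N_of_empty hs.2.2.2 _⟩
    ⟨t, t1, disjoint_left.2 fun x hx hx' => hx'.2 (h1 (Or.inr hx)), J.N_of_empty t4 _⟩

/-- a cartesian morphism is bijective on compactly supported cohomology -/
theorem Eqv.finC {J : PC X} (h : Eqv I J) : I.FinC k ↔ J.FinC k := by
  induction h with
  | refl => rfl
  | symm _ _ _ ih => exact ih.symm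
  | trans _ _ _ _ _ ih ih' => exact ih.trans ih'
  | rel I J h =>
    obtain ⟨hI, hJ, φ, hφ⟩ := h
    constructor
    · rintro ⟨n, z, hz, h⟩
      refine ⟨n, fun j => φ.f (z j), fun j => e18_map_zcc φ (hz j), fun s' hs' => ?_⟩
      obtain ⟨s, hs, h1⟩ := e18_surc φ hI hJ hφ hs'
      obtain ⟨c, hc⟩ := h s hs
      have := e18_bdc_add h1 (e18_map_bdc φ
        (e18_zcc_sub hs (e18_zcc_sum _ fun j _ => e18_zcc_smul (c j) (hz j))).1 hc)
      exact ⟨c, by simpa only [map_sub, map_sum, map_smul, sub_add_sub_cancel] using this⟩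
    · rintro ⟨n, z', hz', h⟩
      choose z hz h1 using fun j => e18_surc φ hI hJ hφ (hz' j)
      refine ⟨n, z, hz, fun s hs => ?_⟩
      obtain ⟨c, hc⟩ := h _ (e18_map_zcc φ hs)
      refine ⟨c, e18_injc φ hI hJ hφ
        (e18_zcc_sub hs (e18_zcc_sum _ fun j _ => e18_zcc_smul (c j) (hz j))) ?_⟩
      have := e18_bdc_add hc (e18_bdc_sum Finset.univ fun j _ => e18_bdc_smul (c j) (h1 j))
      simpa only [map_sub, map_sum, map_smul, smul_sub, Finset.sum_sub_distrib, sub_add_sub_cancel] using this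

end C73
end
end

section
/-! Finiteness of top compactly supported cohomology. -/

open Set Filter Topology Metric TopologicalSpace

noncomputable section
namespace C73
variable {X Y : Type} [TopologicalSpace X] [TopologicalSpace Y]
open PC

/-- coboundaries with compact support -/
def PC.QQ [T2Space X] (I : PC X) (M : ℤ) : Submodule ℚ I.A :=
  (I.GG M (M - 1) univ).map I.d ⊔ I.GG M M ∅

theorem PC.mem_QQ [T2Space X] {I : PC X} {M : ℤ} {s : I.A} (hs : s ∈ I.gr M) :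
    s ∈ I.QQ M ↔ I.Bdc M univ s := by
  constructor
  · intro h
    obtain ⟨_, ⟨t, ht, rfl⟩, u, hu, rfl⟩ := Submodule.mem_sup.1 h
    exact ⟨t, ht.1, ht.2.1, subset_univ _, by simpa using hu.2.2.1⟩
  · rintro ⟨t, t1, t2, t3, t4⟩
    exact Submodule.mem_sup.2 ⟨_, ⟨t, ⟨t1, t2, t3, fun h => by omega, fun h => by omega⟩, rfl⟩,
      s - I.d t, PC.GG_null (sub_mem hs (PC.d_gr' t1)) t4, by abel⟩

theorem comap_cut [T2Space X] {I : PC X} (hI : I.Fl) {ε : Y → X} (he : IsOpenEmbedding ε) {k : ℤ}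
    {s : I.A} (hs : s ∈ I.gr k) (hc : IsCompact (ε ⁻¹' I.supp s)) :
    ∃ t ∈ I.gr k, IsCompact (I.supp t) ∧ I.supp t ⊆ ε '' (ε ⁻¹' I.supp s) ∧
      t - s ∈ I.N (range ε) := by
  have hK := hc.image he.continuous
  obtain ⟨t, t1, t2, t3⟩ := hI.glue2 he.isOpen_range hK.isClosed.isOpen_compl hs (zero_mem _) (by
    rw [sub_zero]
    refine mem_N'.2 ?_
    rintro _ ⟨⟨y, rfl⟩, h⟩ h'
    exact h ⟨y, h', rfl⟩)
  rw [sub_zero] at t3
  have := disjoint_compl_right_iff_subset.1 t3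
  exact ⟨t, t1, hK.of_isClosed_subset (I.closed _) this, this, t2⟩

theorem exists_chart {m : ℕ} {π : X → Fin m → ℝ} (hπ : IsLocalHomeomorph π) (w : X) :
    ∃ ε : (Fin m → ℝ) → X, IsOpenEmbedding ε ∧ w ∈ range ε := by
  obtain ⟨f, hw, rfl⟩ := hπ w
  obtain ⟨r, hr, h⟩ := Metric.isOpen_iff.1 f.open_target _ (f.map_source hw)
  let g := (OpenPartialHomeomorph.univBall (E := Fin m → ℝ) (f w) r).trans f.symm
  have hs : g.source = univ := by
    refine eq_univ_of_forall fun x => ⟨by simp, h ?_⟩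
    rw [← OpenPartialHomeomorph.univBall_target (E := Fin m → ℝ) _ hr]
    exact OpenPartialHomeomorph.map_source _ (by simp)
  exact ⟨g, g.isOpenEmbedding hs, 0, by simp [g, f.left_inv hw]⟩

theorem fto_cpt {m : ℕ} {π : X → Fin m → ℝ} (hπ : IsLocalHomeomorph π) {L : Set X}
    (hL : IsCompact L) : FTO L m :=
  Or.inr ⟨m, le_rfl, π, hπ.continuous.continuousOn, fun y =>
    (hL.inter_right (isClosed_singleton.preimage hπ.continuous)).finite
      (hπ.isLocalHomeomorphOn.isDiscrete_of_image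
        ((subsingleton_singleton (a := y)).anti (image_subset_iff.2 inter_subset_right)).isDiscrete)⟩

theorem top_of_loc [Nice X] {m : ℕ} {π : X → Fin m → ℝ} (hπ : IsLocalHomeomorph π) {I : PC X}
    (hI : I.Fl) {n : ℤ} (hD : I.DIMH (-n)) : I.Top (m - n) := by
  intro V hV s hs
  obtain ⟨t, t1, t2, t3, t4⟩ := PC.cpt_van hI hV (Z := univ) (by simp only [sdiff_univ, isOpen_empty])
    (fun L L' h1 h2 h3 _ => hD L L' h1 h2 h3 m (fto_cpt hπ h1) (m - n + 1) (by omega)) hs.1 hs.2.1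
    hs.2.2.1 (PC.N_of_empty_8 hs.2.2.2)
  exact ⟨t, t1, t2, t3, disjoint_univ.1 t4⟩

theorem gen_chart [T2Space X] {m : ℕ} {I : PC X} (hI : I.Fl) {n : ℤ} {s0 : I.A}
    (hR : ∀ x, I.ResAt n s0 x) {ε : (Fin m → ℝ) → X} (he : IsOpenEmbedding ε) :
    ∃ z ∈ I.GG (m - n) (m - n) univ,
      I.GG (m - n) (m - n) (range ε) ≤ (ℚ ∙ z) ⊔ I.QQ (m - n) ∧
      ∀ w ∈ range ε, ∀ U ∈ 𝓝 w, z ∈ I.GG (m - n) (m - n) U ⊔ I.QQ (m - n) := by
  set J := I.comap ε he.continuous
  have hJ : J.Fl := hI.comap_open he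
  have hRJ : ∀ x, J.ResAt n s0 x := fun x => comap_resAt.2 (hR (ε x))
  obtain ⟨tr, h1, h2⟩ := exists_trace_8
    (fun x r hr => sph_ball hJ hRJ hJ.vbh (ResAt.seg hJ hRJ) x hr)
    (fun x r R hr hR => van_shell hJ hJ.vbh (ResAt.seg hJ hRJ) x hr hR)
  set M : ℤ := m - n
  have hc : ∀ {s : I.A}, s ∈ I.GG M M (range ε) → IsCompact (ε ⁻¹' I.supp s) := fun hs =>
    he.isInducing.isCompact_preimage' hs.2.1 hs.2.2.1
  have key : ∀ s ∈ I.GG M M (range ε), tr s = 0 → s ∈ I.QQ M := fun s hs h0 => by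
    obtain ⟨R, hR, h3⟩ := (hc hs).isBounded.subset_ball_lt 0 0
    obtain ⟨z, ⟨z1, -, z3⟩, z4⟩ := h2 0 R hR
    obtain ⟨c, t, t1, t2, t3⟩ := z3 s ⟨hs.1, N_ball.2 ⟨hc hs, h3⟩,
      N_of_empty_8 (I := J) (by show ε ⁻¹' I.supp (I.d s) = ∅; rw [hs.2.2.2.1 le_rfl]; rfl)⟩
    have e := h1 _ (sub_mem hs.1 (Submodule.smul_mem _ c z1.1))
      ⟨t, t1, (N_ball.1 t2).1, subset_univ _, disjoint_univ.1 t3⟩
    rw [map_sub, map_smul, z4] at e
    obtain rfl : c = 0 := by simpa [show tr s = 0 from h0] using e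
    obtain ⟨u, u1, u2, u3, u4⟩ := comap_cut hI he t1 (N_ball.1 t2).1
    refine (mem_QQ hs.1).2 ⟨u, u1, u2, subset_univ _, eq_empty_of_forall_notMem fun x hx => ?_⟩
    have t4 : s - I.d t ∈ I.N (range ε) := by
      have := comap_N.1 t3
      rwa [zero_smul, sub_zero, image_univ] at this
    refine mem_N'.1 (N_trans t4 (N_dsub t1 u1 (N_symm u4))) x ?_ hx
    exact union_subset hs.2.2.1 ((I.supp_d u1).trans (u3.trans (image_subset_range _ _)))
      (I.supp_sub _ _ hx)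
  have gen : ∀ x r, 0 < r → ∃ z ∈ I.GG M M (ε '' ball x r), tr z = 1 := fun x r hr => by
    obtain ⟨z, ⟨z1, -, -⟩, z4⟩ := h2 x r hr
    obtain ⟨u, u1, u2, u3, u4⟩ := comap_cut hI he z1.1 (N_ball.1 z1.2.1).1
    have u5 : I.supp u ⊆ range ε := u3.trans (image_subset_range _ _)
    refine ⟨u, ⟨u1, u2, u3.trans (image_mono (N_ball.1 z1.2.1).2), fun _ =>
      eq_empty_of_forall_notMem fun y hy => ?_, fun h => by omega⟩, ?_⟩
    · exact mem_N'.1 (N_of_sub (N_dsub u1 z1.1 u4) (image_univ (f := ε) ▸ comap_N.1 z1.2.2)) y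
        (u5 (I.supp_d u1 hy)) hy
    · have := h1 _ (sub_mem u1 z1.1) ⟨0, zero_mem _, by simp [PC.supp_zero], subset_univ _,
        disjoint_univ.1 (comap_N.2 (by erw [map_zero, sub_zero, image_univ]; exact u4))⟩
      erw [map_sub, z4, sub_eq_zero] at this
      exact this
  obtain ⟨z, z1, z2⟩ := gen 0 1 one_pos
  have z3 := GG_mono (image_subset_range _ _) z1
  refine ⟨z, GG_mono (subset_univ _) z1, fun s hs => Submodule.mem_sup.2 ⟨tr s • z,
    Submodule.smul_mem _ _ (Submodule.mem_span_singleton_self z), s - tr s • z,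
    key _ (sub_mem hs (Submodule.smul_mem _ _ z3)) (by
      erw [map_sub, map_smul, z2]; simp), by abel⟩, ?_⟩
  rintro _ ⟨x, rfl⟩ U hU
  obtain ⟨r, hr, h3⟩ := Metric.mem_nhds_iff.1 (he.continuous.continuousAt hU)
  obtain ⟨u, u1, u2⟩ := gen x r hr
  exact Submodule.mem_sup.2 ⟨u, GG_mono (image_subset_iff.2 h3) u1, z - u,
    key _ (sub_mem z3 (GG_mono (image_subset_range _ _) u1)) (by
      erw [map_sub, z2, u2, sub_self]), by abel⟩

theorem finc_manifold [Nice X] [Finite (ConnectedComponents X)] {m : ℕ} {π : X → Fin m → ℝ}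
    (hπ : IsLocalHomeomorph π) {I : PC X} (hI : I.Fl) {n : ℤ} {s0 : I.A}
    (hR : ∀ x, I.ResAt n s0 x) : I.FinC (m - n) := by
  classical
  have hT := top_of_loc hπ hI (hI.dimh fun x j hj => (hR x).2.2.2 j hj.ne')
  set M : ℤ := m - n
  choose ε he hw using exists_chart hπ
  choose z z1 z2 z3 using fun w => gen_chart hI hR (he w)
  let L : X → Submodule ℚ I.A := fun w => ⨅ U ∈ 𝓝 w, I.GG M M U ⊔ I.QQ M
  have hL : ∀ w, ∀ w' ∈ range (ε w), L w' = (ℚ ∙ z w) ⊔ I.QQ M := fun w w' h =>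
    le_antisymm ((iInf₂_le _ ((he w).isOpen_range.mem_nhds h)).trans (sup_le (z2 w) le_sup_right))
      (le_iInf₂ fun U hU => sup_le ((Submodule.span_singleton_le_iff_mem _ _).2 (z3 w w' h U hU))
        le_sup_right)
  have hlc : IsLocallyConstant L := (IsLocallyConstant.iff_exists_open L).2 fun w =>
    ⟨_, (he w).isOpen_range, hw w, fun w' h => (hL w w' h).trans (hL w w (hw w)).symm⟩
  obtain ⟨N, ⟨f⟩⟩ := Finite.exists_equiv_fin (ConnectedComponents X)
  choose r hr using ConnectedComponents.surjective_coe (α := X)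
  let y : Fin N → I.A := fun j => z (r (f.symm j))
  have hy : ∀ w, I.GG M M (range (ε w)) ≤ Submodule.span ℚ (range y) ⊔ I.QQ M := fun w => by
    refine (z2 w).trans ?_
    rw [← hL w w (hw w), hlc.apply_eq_of_isPreconnected isPreconnected_connectedComponent
      mem_connectedComponent (ConnectedComponents.coe_eq_coe'.1 (hr w)), hL _ _ (hw _)]
    exact sup_le_sup_right (Submodule.span_mono (singleton_subset_iff.2
      (show _ ∈ range y from ⟨f w, by simp [y]⟩))) _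
  refine ⟨N, y, fun j => ⟨(z1 _).1, (z1 _).2.1, subset_univ _, (z1 _).2.2.2.1 le_rfl⟩,
    fun s hs => ?_⟩
  obtain ⟨T, hT'⟩ := hs.2.1.elim_finite_subcover _ (fun w => (he w).isOpen_range)
    fun w _ => mem_iUnion.2 ⟨w, hw w⟩
  have h1 : s ∈ Submodule.span ℚ (range y) ⊔ I.QQ M :=
    (sup_le (le_sup_right.trans le_sup_right) (iSup₂_le fun w _ => hy w) :
      _ ≤ Submodule.span ℚ (range y) ⊔ I.QQ M)
      (GG_biUnion hI hT _ (fun w => (he w).isOpen_range) T
        ⟨hs.1, hs.2.1, hT', fun _ => hs.2.2.2, fun h => by omega⟩)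
  obtain ⟨a, ha, b, hb, rfl⟩ := Submodule.mem_sup.1 h1
  obtain ⟨c, rfl⟩ := (Submodule.mem_span_range_iff_exists_fun ℚ).1 ha
  refine ⟨c, (mem_QQ (sub_mem hs.1 (Submodule.sum_mem _ fun j _ =>
    Submodule.smul_mem _ _ (z1 _).1))).1 (by simpa only [y, add_sub_cancel_left] using hb)⟩

end C73
end
end

section
/-! E22: FIN. -/

open Set Filter Topology TopologicalSpace

noncomputable section
namespace C73
open PC

variable {X Y : Type} [TopologicalSpace X] [TopologicalSpace Y]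

/-- cover by the images of boxes under inverse charts `e : ℝ^m → X` (compose a local inverse of `π`
with a homeomorphism `ℝ^m ≃ box`); `partition_zcc`; call two such boxes equivalent if their generators
are proportional modulo `Bdc univ`; overlapping boxes are equivalent (`subbox_sur`), so the set of
points whose boxes are equivalent to a given one is clopen; one generator per component. -/
theorem finC_manifold [Nice X] {m : ℕ} {π : X → Fin m → ℝ} (hπ : IsLocalHomeomorph π)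
    [Finite (ConnectedComponents X)] (n : ℤ) : (resC X ℚ n).FinC (m - n) :=
  finc_manifold hπ (fl_resC ℚ n) (resC_resAt_8 n)
/-- a compactly supported cocycle `s` of the restriction to the closed set lifts to `s'` with compact
support in `X`; `d s'` vanishes near the closed set, so is a compactly supported cocycle of the open
complement, a coboundary by `vanc_top` -/
theorem finC_closed [Nice X] {I : PC X} (hI : I.Fl) {ι : Y → X} (hι : IsClosedEmbedding ι) {k : ℤ}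
    (hv : ∀ V, IsOpen V → ∀ s, I.Zcc (k + 1) V s → I.Bdc (k + 1) V s) (h : I.FinC k) :
    (I.comap ι hι.continuous).FinC k := by
  obtain ⟨n, z, z1, z2⟩ := h
  have hN : ∀ {s : I.A}, s ∈ I.N (range ι) → ι ⁻¹' I.supp s = ∅ := fun h =>
    eq_empty_of_forall_notMem fun y => mem_N'.1 h _ ⟨y, rfl⟩
  refine ⟨n, z, fun j => ⟨(z1 j).1, hι.isCompact_preimage (z1 j).2.1, subset_univ _,
    hN (N_of_empty_8 (z1 j).2.2.2)⟩, fun (s : I.A) hs => ?_⟩
  obtain ⟨L, l1, l2, -⟩ := exists_compact_between (hs.2.1.image hι.continuous) isOpen_univ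
    (subset_univ _)
  obtain ⟨r, r1, r2, r3⟩ := hI.cut hs.1 isOpen_interior l1.isClosed interior_subset
  have c1 := l1.of_isClosed_subset (I.closed r) (r2.trans inter_subset_right)
  have e1 : s - r ∈ I.N (range ι) :=
    mem_N'.2 (forall_mem_range.2 fun y hy => (r3 hy).2 (l2 ⟨y, (r3 hy).1, rfl⟩))
  have e2 : I.d s ∈ I.N (range ι) :=
    mem_N'.2 (forall_mem_range.2 fun y hy => (hs.2.2.2.subset hy : y ∈ (∅ : Set Y)))
  obtain ⟨t, t1, t2, t3, t4⟩ := hv _ hι.isClosed_range.isOpen_compl (I.d r)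
    ⟨I.d_gr r1, c1.of_isClosed_subset (I.closed _) (I.supp_d r1),
      Disjoint.subset_compl_right (N_of_sub (N_dsub r1 hs.1 (N_symm e1)) e2), I.supp_dd r1⟩
  rw [add_sub_cancel_right] at t1
  obtain ⟨c, u, u1, u2, -, u4⟩ := z2 (r - t) ⟨sub_mem r1 t1,
    (c1.union t2).of_isClosed_subset (I.closed _) (I.supp_sub _ _), subset_univ _, by
      rwa [map_sub]⟩
  refine ⟨c, u, u1, hι.isCompact_preimage u2, subset_univ _, hN ?_⟩
  have := add_mem (add_mem e1 (subset_compl_iff_disjoint_right.1 t3 : t ∈ I.N _))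
    (N_of_empty_8 (C := range ι) u4)
  show s - ∑ j, c j • z j - I.d u ∈ _
  convert this using 1; abel
theorem finC_cov [MetrizableSpace X] {I : PC X} (hI : I.Fl) {W : Set X} {m : ℕ} (hW : Cov W m)
    {n : ℤ} {s0 : I.A} (h : ∀ x ∈ W, I.ResAt n s0 x) :
    (I.comap (Subtype.val : W → X) continuous_subtype_val).FinC (m - n) := by
  obtain ⟨W', _, _, ι, π, hι, hπ, _⟩ := hW
  have := nice_of_closedEmb hι
  have h1 := finC_closed (fl_resC ℚ n) hι (top_of_loc hπ (fl_resC ℚ n) (resC_dimh ℚ n))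
    (finC_manifold hπ n)
  exact (eqv_resC (hI.comap IsEmbedding.subtypeVal) (s0 := s0)
    fun x => comap_resAt.2 (h x x.2)).finC.2 ((eqv_resC_comap hι.isEmbedding ℚ n).finC.1 h1)

end C73
end
end
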