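import Pool.Agent.MP_94fa45_ag.C73.SB

attribute [-instance] TopologicalSpace.DiscreteTopology.metrizableSpace
  NonUnitalNormedRing.toNormedAddCommGroup TotallySeparatedSpace.t2Space instCoeOutOfCoeFun
  AddGroupWithOne.toAddGroup AddQuantale.instAddLeftMono NonUnitalNonAssocSemiring.toAddCommMonoid
  Semiring.toAddCommMonoid AddMonoidWithOne.toAddMonoid TotallyDisconnectedSpace.t1Space
  instCoeTCOfCoe Valued.toUniformSpace TestFunctionClass.toDFunLike instCoeHTCTOfCoeTailOfCoeHTC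
  ContDiffMapSupportedInClass.toDFunLike CStarAlgebra.instOrderClosedTopology
  NonUnitalAlgSemiHomClass.toDistribMulActionSemiHomClass CompactSpace.sigmaCompact
  IsometryClass.instCoeOutIsometryEquiv HomeomorphClass.instCoeOutHomeomorph
  instUCompactlyGeneratedSpaceOfDiscreteTopology MulSemiringAction.toDistribMulAction
  AddQuantale.instAddRightMono
  ContinuousAddMonoidHom.instCoeOutOfAddMonoidHomClassOfContinuousMapClass
  NonUnitalNonAssocSemiring.toMulZeroClass NumberField.to_charZero instCoeTCOfCoe_1 Algebra.toSMul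
  Rat.instDistribSMul instCoeTOfCoeDep CommSemiring.toSemiring NonUnitalRing.toNonUnitalNonAssocRing
  continuousSub_of_discreteTopology IdemSemiring.toCanonicallyOrderedAdd SetLike.instCoeSortType
  Topology.IsScott.instClosedIicTopologyOfUnivSet Group.IsPerfect.subsingleton_of_isMulCommutative
  Quantale.instMulRightMono SeparableWeaklyLocallyCompactAddGroup.sigmaCompactSpace instCoeTC
  DivisionSemiring.toSemiring AddSemigroup.toAdd ValuedRing.separated NormedRing.toMetricSpace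
  AddCommMonoidWithOne.toAddCommMonoid

/-! Support model: flows, Deligne complex, semi-purity, hyperbolic restriction. -/

section
/-! E13: REL. `pr x := ρ (-h x) x`. Step 1 (section): if `O ⊆ W` is open with convex fibres and `Σ := {x ∈ O | h x = t0}` meets every orbit that meets `O`, then `Van O Σ`: compact exhaustion `K n` of `O` (σ-compact), `A n := {ρ (τ * (t0 - h x)) x | x ∈ K n, τ ∈ [0,1]}`, `vb` for `pr` (fibres of `A n` are orbit segments containing their point of `Σ`; a compact order connected set of times is an `Icc`), `tower`. Step 2: near each orbit there is a saturated open set `W'` (preimage under `pr` of an open set) and `t0` with `{h = t0} ∩ W' ⊆ O'`; `tri2` gives `Van (O ∩ W'') (O' ∩ W'')` for saturated open `W'' ⊆ W'`. Step 3: `acy_open` for `(((I.loc O).on O'ᶜ).comap val_W).push pr`. -/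

open Set Filter Topology TopologicalSpace

noncomputable section
namespace C73

variable {X Y : Type} [TopologicalSpace X] [TopologicalSpace Y]

variable [Nice X] {I : PC X}

omit [Nice X] in
theorem e13_pt {J : PC Y} {y : Y} {k : ℤ}
    (h : ∀ U, IsOpen U → y ∈ U → ∃ U', y ∈ U' ∧ U' ⊆ U ∧ J.Van k U' ∅) : J.Van k {y} ∅ := by
  intro s hs
  obtain ⟨U, hU, hyU, hz⟩ := hs.nhds
  obtain ⟨U', hy, hU', hv⟩ := h U hU (hyU rfl)
  exact (hv s (hz.mono hU' subset_rfl)).mono (singleton_subset_iff.2 hy) subset_rfl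

omit [Nice X] in
/-- local to global over the target of a map -/
theorem e13_glob (hI : I.Fl) {O O' : Set X} (hO : IsOpen O) (hO' : IsOpen O') (h1 : O' ⊆ O)
    {π : X → Y} (hπ : ContinuousOn π O)
    (h : ∀ x ∈ O, ∀ V, IsOpen V → π x ∈ V → ∃ V', IsOpen V' ∧ π x ∈ V' ∧ V' ⊆ V ∧
      ∀ k, I.Van k (O ∩ π ⁻¹' V') (O ∩ π ⁻¹' V' ∩ O')) (k : ℤ) : I.Van k O O' := by
  let q : O → π '' O := fun x => ⟨π x, mem_image_of_mem π x.2⟩
  have hq : Continuous q := hπ.domRestrict.subtype_mk _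
  have key : ∀ V, IsOpen V → ∀ k, (((I.on O'ᶜ).comap (Subtype.val : O → X)
      continuous_subtype_val).push q).Van k (Subtype.val ⁻¹' V) ∅ ↔
        I.Van k (O ∩ π ⁻¹' V) (O ∩ π ⁻¹' V ∩ O') := fun V hV k => by
    have e : Subtype.val '' (q ⁻¹' (Subtype.val ⁻¹' V)) = O ∩ π ⁻¹' V := by
      ext x
      exact ⟨fun ⟨z, hz, e⟩ => e ▸ ⟨z.2, hz⟩, fun hx => ⟨⟨x, hx.1⟩, hx.2, rfl⟩⟩
    rw [PC.van_push_open (hV.preimage continuous_subtype_val) isOpen_empty, PC.van_comap_iff,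
      PC.van_on_iff, e, preimage_empty, image_empty, empty_union, compl_compl]
    exact van_exc (exc_of_open hI (hπ.isOpen_inter_preimage hO hV) hO')
  have := acy_open (fl_push (fl_comap_open (fl_on hI hO'.isClosed_compl)
    hO.isOpenEmbedding_subtypeVal) hq) isOpen_univ k (fun y _ j _ => e13_pt fun U hU hy => ?_) k le_rfl
  · have h2 := (key univ isOpen_univ k).1 this
    rwa [preimage_univ, inter_univ, inter_eq_right.2 h1] at h2
  · obtain ⟨V, hV, rfl⟩ := isOpen_induced_iff.1 hU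
    obtain ⟨_, x, hx, rfl⟩ := y
    obtain ⟨V', hV', hx', hs, hv⟩ := h x hx V hV hy
    exact ⟨Subtype.val ⁻¹' V', hx', preimage_mono hs, (key V' hV' j).2 (hv j)⟩

theorem rel_sec (hI : I.Fl) (ρ : Flow ℝ X) {W : Set X} (hinv : ∀ t, ∀ x ∈ W, ρ t x ∈ W)
    (h : X → ℝ) (hh : ContinuousOn h W) (hρ : ∀ t, ∀ x ∈ W, h (ρ t x) = h x + t) (hLC : I.LCf ρ W)
    {O : Set X} (hO : IsOpen O) (hOW : O ⊆ W) (hc : ∀ x ∈ W, OrdConnected {t | ρ t x ∈ O}) (t0 : ℝ)
    (hs : ∀ x ∈ O, ρ (t0 - h x) x ∈ O) (k : ℤ) : I.Van k O {x ∈ O | h x = t0} := by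
  have := hO.locallyCompactSpace
  let K := CompactExhaustion.choice O
  let F : ℝ × X → X := fun p => ρ (p.1 * (t0 - h p.2)) p.2
  let A : ℕ → Set X := fun n => F '' (Icc 0 1 ×ˢ (Subtype.val '' K n))
  have hKO : ∀ n, Subtype.val '' K n ⊆ O := fun n => Subtype.coe_image_subset _ _
  have hA : ∀ n, IsCompact (A n) := fun n => by
    refine (isCompact_Icc.prod ((K.isCompact n).image continuous_subtype_val)).image_of_continuousOn ?_
    refine ρ.cont'.comp_continuousOn (ContinuousOn.prodMk (continuousOn_fst.mul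
      (continuousOn_const.sub (hh.comp continuousOn_snd fun p hp => hOW (hKO n hp.2)))) continuousOn_snd)
  have hAO : ∀ n, A n ⊆ O := by
    rintro n _ ⟨⟨τ, x⟩, ⟨hτ, hx⟩, rfl⟩
    have hx' := hKO n hx
    refine (hc x (hOW hx')).uIcc_subset (x := 0) (y := t0 - h x) (by simpa using hx') (hs x hx') ?_
    rcases le_total 0 (t0 - h x) with h0 | h0
    · exact mem_uIcc_of_le (mul_nonneg hτ.1 h0) (by nlinarith only [hτ.2, h0])
    · exact mem_uIcc_of_ge (by nlinarith only [hτ.2, h0]) (mul_nonpos_of_nonneg_of_nonpos hτ.1 h0)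
  have hstar : ∀ n, ∀ x ∈ A n, ∀ τ ∈ Icc (0 : ℝ) 1, ρ (τ * (t0 - h x)) x ∈ A n := by
    rintro n _ ⟨⟨σ, z⟩, ⟨hσ, hz⟩, rfl⟩ τ hτ
    refine ⟨(σ + τ * (1 - σ), z), ⟨⟨?_, ?_⟩, hz⟩, ?_⟩
    · nlinarith [hσ.1, hσ.2, hτ.1]
    · nlinarith [hσ.1, hσ.2, hτ.2]
    · simp only [F]
      rw [hρ _ z (hOW (hKO n hz)), ← ρ.map_add]
      congr 1; ring
  refine tower hI hO (sep_subset _ _) ?_ A hA
    (fun m n hmn => image_mono (prod_mono_right (image_mono (K.subset hmn)))) hAO ?_ ?_ k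
  · rintro x ⟨hx, hxO⟩
    refine ⟨hxO, ?_⟩
    have := ((hh x (hOW hxO)).mono ((sep_subset _ _).trans hOW)).mem_closure hx
      (t := {t0}) fun z hz => hz.2
    rwa [closure_singleton] at this
  · intro x hx
    obtain ⟨n, hn⟩ := K.exists_mem ⟨x, hx⟩
    have hKA : Subtype.val '' K (n + 1) ⊆ A (n + 1) :=
      fun z hz => ⟨(0, z), ⟨⟨le_rfl, zero_le_one⟩, hz⟩, by simp [F]⟩
    refine mem_iUnion.2 ⟨n + 1, interior_mono hKA ?_⟩
    exact hO.isOpenMap_subtype_val.image_interior_subset _ ⟨_, K.subset_interior_succ n hn, rfl⟩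
  · intro n k
    have hAW : A n ⊆ W := (hAO n).trans hOW
    have hcl : IsClosed (A n ∩ h ⁻¹' {t0}) :=
      (hh.mono hAW).preimage_isClosed_of_isClosed (hA n).isClosed isClosed_singleton
    have hπ : ContinuousOn (fun x => ρ (t0 - h x) x) (A n) := ρ.cont'.comp_continuousOn
      ((continuousOn_const.sub (hh.mono hAW)).prodMk continuousOn_id)
    have := vb hI (hA n) hcl hπ (fun y k => ?_) k
    · convert this using 1
      ext x
      exact ⟨fun hx => ⟨⟨hx.2, hx.1.2⟩, hx.2⟩, fun hx => ⟨⟨hAO n hx.2, hx.1.2⟩, hx.2⟩⟩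
    rcases (A n ∩ (fun x => ρ (t0 - h x) x) ⁻¹' {y}).eq_empty_or_nonempty with he | ⟨x0, hx0, rfl⟩
    · rw [he]; exact I.van_self (empty_subset _)
    set y := ρ (t0 - h x0) x0 with hy
    have hyA : y ∈ A n := by simpa using hstar n x0 hx0 1 ⟨zero_le_one, le_rfl⟩
    have hyW := hAW hyA
    have hy0 : h y = t0 := by rw [hy, hρ _ _ (hAW hx0)]; ring
    have hback : ∀ s, ρ (t0 - h (ρ s y)) (ρ s y) = y := fun s => by
      rw [hρ _ _ hyW, hy0, ← ρ.map_add]; simp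
    have hfw : ∀ x ∈ A n, ρ (t0 - h x) x = y → ρ (h x - t0) y = x := fun x _ e => by
      rw [← e, ← ρ.map_add]; simp
    have hT : {s | ρ s y ∈ A n} = (fun x => h x - t0) '' (A n ∩ (fun x => ρ (t0 - h x) x) ⁻¹' {y}) := by
      ext s
      refine ⟨fun hs => ⟨ρ s y, ⟨hs, hback s⟩, ?_⟩, ?_⟩
      · simp only [hρ _ _ hyW, hy0]; ring
      · rintro ⟨x, hx, rfl⟩
        show ρ (h x - t0) y ∈ A n
        rw [hfw x hx.1 hx.2]; exact hx.1
    have hTc : IsCompact {s | ρ s y ∈ A n} := by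
      rw [hT]
      refine ((hA n).of_isClosed_subset (hπ.preimage_isClosed_of_isClosed (hA n).isClosed
        isClosed_singleton) inter_subset_left).image_of_continuousOn ?_
      exact (hh.mono (inter_subset_left.trans hAW)).sub continuousOn_const
    have h0 : (0 : ℝ) ∈ {s | ρ s y ∈ A n} := by simpa using hyA
    have hsc : ∀ s ∈ {s | ρ s y ∈ A n}, ∀ u ∈ uIcc 0 s, u ∈ {s | ρ s y ∈ A n} := by
      intro s hs u hu
      rw [← segment_eq_uIcc, segment_eq_image] at hu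
      obtain ⟨θ, hθ, rfl⟩ := hu
      have := hstar n _ hs (1 - θ) ⟨by linarith only [hθ.2], by linarith [hθ.1]⟩
      rw [hρ _ _ hyW, hy0, ← ρ.map_add] at this
      rwa [show (1 - θ) * (t0 - (t0 + s)) + s = (1 - θ) • (0 : ℝ) + θ • s by
        simp only [smul_eq_mul]; ring] at this
    have hTo : OrdConnected {s | ρ s y ∈ A n} := ⟨fun a ha b hb u hu => by
      rcases le_total 0 u with h0 | h0
      · exact hsc b hb u (mem_uIcc_of_le h0 hu.2)
      · exact hsc a ha u (mem_uIcc_of_ge hu.1 h0)⟩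
    have hI' := eq_Icc_of_connected_compact ⟨⟨0, h0⟩, hTo.isPreconnected⟩ hTc
    have := hLC y hyW _ _ 0 (hI' ▸ h0) k
    rw [← hI'] at this
    convert this using 1
    · ext x
      refine ⟨fun hx => ⟨h x - t0, ?_, hfw x hx.1 hx.2⟩, ?_⟩
      · show ρ (h x - t0) y ∈ A n
        rw [hfw x hx.1 hx.2]; exact hx.1
      · rintro ⟨s, hs, rfl⟩
        exact ⟨hs, hback s⟩
    · ext x
      rw [ρ.map_zero_apply]
      refine ⟨fun hx => ?_, ?_⟩
      · have := hfw x hx.2.1 hx.2.2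
        rw [show h x = t0 from hx.1.2, sub_self, ρ.map_zero_apply] at this
        exact this.symm
      · rintro rfl
        exact ⟨⟨hyA, hy0⟩, hyA, by simpa using hback 0⟩
theorem rel (hI : I.Fl) (ρ : Flow ℝ X) {W : Set X} (hW : IsOpen W) (hinv : ∀ t, ∀ x ∈ W, ρ t x ∈ W)
    (h : X → ℝ) (hh : ContinuousOn h W) (hρ : ∀ t, ∀ x ∈ W, h (ρ t x) = h x + t) (hLC : I.LCf ρ W)
    {O O' : Set X} (hO : IsOpen O) (hO' : IsOpen O') (h1 : O' ⊆ O) (hOW : O ⊆ W)
    (hc : ∀ x ∈ W, OrdConnected {t | ρ t x ∈ O}) (hc' : ∀ x ∈ W, OrdConnected {t | ρ t x ∈ O'})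
    (hne : ∀ x ∈ O, ∃ t, ρ t x ∈ O') (k : ℤ) : I.Van k O O' := by
  have hπ : ContinuousOn (fun x => ρ (-h x) x) O := ρ.cont'.comp_continuousOn
    ((hh.mono hOW).neg.prodMk continuousOn_id)
  have hpr : ∀ t, ∀ x ∈ W, ρ (-h (ρ t x)) (ρ t x) = ρ (-h x) x := fun t x hx => by
    rw [hρ t x hx, ← ρ.map_add]; congr 1; ring
  refine e13_glob hI hO hO' h1 hπ (fun x hx V hV hxV => ?_) k
  obtain ⟨t, ht⟩ := hne x hx
  have hsh : ∀ z, ρ (h x + t) (ρ (-h z) z) = ρ (h x + t - h z) z := fun z => by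
    rw [← ρ.map_add, sub_eq_add_neg]
  refine ⟨V ∩ ρ (h x + t) ⁻¹' O', hV.inter (hO'.preimage (ρ.continuous continuous_const continuous_id)),
    ⟨hxV, by rw [mem_preimage, hsh, add_sub_cancel_left]; exact ht⟩, inter_subset_left, fun j => ?_⟩
  set V' := V ∩ ρ (h x + t) ⁻¹' O' with hV'
  have hV'o : IsOpen V' := hV.inter (hO'.preimage (ρ.continuous continuous_const continuous_id))
  have sec : ∀ P, IsOpen P → O' ⊆ P → P ⊆ O → (∀ x ∈ W, OrdConnected {t | ρ t x ∈ P}) → ∀ j,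
      I.Van j (P ∩ (fun x => ρ (-h x) x) ⁻¹' V')
        {z ∈ O' ∩ (fun x => ρ (-h x) x) ⁻¹' V' | h z = h x + t} := fun P hP h2 h3 h4 j => by
    have := rel_sec hI ρ hinv h hh hρ hLC ((hπ.mono h3).isOpen_inter_preimage hP hV'o)
      (inter_subset_left.trans (h3.trans hOW)) (fun z hz => ⟨fun a ha b hb u hu =>
        ⟨(h4 z hz).out ha.1 hb.1 hu, by
          have := ha.2
          rw [mem_preimage, hpr _ z hz] at this ⊢
          exact this⟩⟩) (h x + t) (fun z hz => ⟨h2 (hsh z ▸ hz.2.2), by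
        rw [mem_preimage, hpr _ z (hOW (h3 hz.1))]; exact hz.2⟩) j
    convert this using 1
    ext z
    refine ⟨fun hz => ⟨⟨h2 hz.1.1, hz.1.2⟩, hz.2⟩, fun hz => ⟨⟨?_, hz.1.2⟩, hz.2⟩⟩
    have : ρ (h x + t) (ρ (-h z) z) ∈ O' := hz.1.2.2
    rwa [hsh, hz.2, sub_self, ρ.map_zero_apply] at this
  rw [inter_right_comm, inter_eq_right.2 h1]
  exact PC.tri2 (sep_subset _ _) (inter_subset_inter_left _ h1) (sec O hO h1 subset_rfl hc j)
    (sec O' hO' subset_rfl h1 hc' (j - 1))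
/-- `rel` for `(O, O')` and `(O \ Z, O' \ Z)`, then `tri2` and excision -/
theorem rel_on (hI : I.Fl) (ρ : Flow ℝ X) {W : Set X} (hW : IsOpen W)
    (hinv : ∀ t, ∀ x ∈ W, ρ t x ∈ W) (h : X → ℝ) (hh : ContinuousOn h W)
    (hρ : ∀ t, ∀ x ∈ W, h (ρ t x) = h x + t) (hLC : I.LCf ρ W) {Z : Set X} (hZ : IsClosed Z)
    (hZρ : ∀ t, ∀ x ∈ W, ρ t x ∈ Z ↔ x ∈ Z)
    {O O' : Set X} (hO : IsOpen O) (hO' : IsOpen O') (h1 : O' ⊆ O) (hOW : O ⊆ W)
    (hc : ∀ x ∈ W, OrdConnected {t | ρ t x ∈ O}) (hc' : ∀ x ∈ W, OrdConnected {t | ρ t x ∈ O'})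
    (hne : ∀ x ∈ O, ∃ t, ρ t x ∈ O') (k : ℤ) : (I.on Z).Van k O O' := by
  rw [PC.van_on_iff, van_exc_open hI (hO'.union hZ.isOpen_compl) hO (union_subset_union_left _ h1)
    subset_union_left (union_subset subset_union_right (subset_union_right.trans subset_union_left))]
  refine rel hI ρ hW hinv h hh hρ hLC hO (hO.inter (hO'.union hZ.isOpen_compl)) inter_subset_left hOW
    hc (fun x hx => ⟨fun a ha b hb u hu => ⟨(hc x hx).out ha.1 hb.1 hu, ?_⟩⟩)
    (fun x hx => (hne x hx).imp fun t ht => ⟨h1 ht, Or.inl ht⟩) k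
  by_cases hxZ : x ∈ Z
  · exact Or.inl ((hc' x hx).out (ha.2.resolve_right fun e => e ((hZρ a x hx).2 hxZ))
      (hb.2.resolve_right fun e => e ((hZρ b x hx).2 hxZ)) hu)
  · exact Or.inr fun e => hxZ ((hZρ u x hx).1 e)

end C73
end
end

section
/-! E15: Deligne conditions for the model, locality, uniqueness. `V t := interior {n ≤ dm + t} = {n ≤ dm + t}`. -/

open Set Filter Topology TopologicalSpace

noncomputable section
namespace C73

variable {X Y : Type} [TopologicalSpace X] [TopologicalSpace Y]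

section
variable {I J : PC X} {U C C' : Set X} {k : ℤ} {s : I.A}

theorem e15_N (h : C ⊆ U) : s ∈ (I.loc U).N C ↔ s ∈ I.N C := by
  refine (iff_of_eq (congrArg (Disjoint · C) (PC.supp_loc s))).trans ?_
  exact ⟨fun a => disjoint_left.2 fun x b c => disjoint_left.1 a (subset_closure ⟨b, h c⟩) c,
    Disjoint.mono_left (closure_minimal inter_subset_left (I.closed s))⟩

theorem e15_zc (h : C ⊆ U) (h' : C' ⊆ U) : (I.loc U).Zc k C C' s ↔ I.Zc k C C' s :=
  and_congr Iff.rfl (and_congr (e15_N h') (e15_N h))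

theorem e15_bd (h : C ⊆ U) (h' : C' ⊆ U) : (I.loc U).Bd k C C' s ↔ I.Bd k C C' s :=
  exists_congr fun _ => and_congr Iff.rfl (and_congr (e15_N h') (e15_N h))

theorem e15_van (h : C ⊆ U) (h' : C' ⊆ U) : (I.loc U).Van k C C' ↔ I.Van k C C' :=
  forall_congr' fun _ => imp_congr (e15_zc h h') (e15_bd h h')

theorem e15_res {x : X} (h : x ∈ U) : (I.loc U).ResAt k s x ↔ I.ResAt k s x :=
  have a := singleton_subset_iff.2 h
  have b := empty_subset U
  and_congr (e15_zc a b) (and_congr (not_congr (e15_bd a b)) (and_congr (forall_congr' fun _ =>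
    imp_congr (e15_zc a b) (exists_congr fun _ => e15_bd a b))
    (forall_congr' fun _ => imp_congr_right fun _ => e15_van a b)))

/-- the unit `I → j_* j^* I` -/
def toLoc (I : PC X) (U : Set X) : Hom id I (I.loc U) :=
  ⟨LinearMap.id, fun h => h, fun {_ s} _ => (PC.supp_loc s).subset.trans
    (closure_minimal inter_subset_left (I.closed s)), fun {_ s} _ =>
      (congrArg (I.loc U).supp (sub_self (I.d s))).trans (I.loc U).supp_zero⟩

theorem toLoc_cartAt {x : X} (h : x ∈ U) : (toLoc I U).CartAt x := fun _ =>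
  have a := singleton_subset_iff.2 h
  have b := empty_subset U
  ⟨fun s hs => ⟨s, (e15_zc a b).1 hs, PC.Bd.of_N ((sub_self s).symm ▸ zero_mem _)⟩,
    fun _ _ hs => (e15_bd a b).1 hs⟩

theorem eqv_loc_loc (hI : I.Fl) (hU : IsOpen U) {W : Set X} (hW : IsOpen W) (h : W ⊆ U) :
    Eqv (I.loc W) ((I.loc U).loc W) :=
  eqv_loc_of_cartOn (toLoc I U) hI (fl_loc hI hU) hW fun _ hx => toLoc_cartAt (h hx)

theorem eqv_loc_trunc (hI : I.Fl) (hU : IsOpen U) {c : ℤ}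
    (h : ∀ x ∈ U, ∀ k, c < k → I.Van k {x} ∅) : Eqv (I.loc U) ((trunc c I).loc U) :=
  ((eqv_god hI).loc hU).trans (eqv_loc_of_cartOn (truncι c I) (fl_trunc _ _) (fl_god _ _ _) hU
    fun x hx => truncι_cartAt c I x (h x hx)).symm

theorem toLoc_sur {x : X} {V : Set X} (hV : IsOpen V) (hx : x ∈ V)
    (h : ∀ W, IsOpen W → W ⊆ V → I.Van (k + 1) W (W ∩ U)) :
    Sur I (I.loc U) (toLoc I U).f k {x} ∅ {x} ∅ := fun s' hs => by
  obtain ⟨W, a, b, c⟩ := hs.nhds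
  have hx' : {x} ⊆ W ∩ V := subset_inter b (singleton_subset_iff.2 hx)
  obtain ⟨s, h1, t, h2, h3, h4⟩ := sur_res (empty_subset _) inter_subset_left
    (h _ (a.inter hV) inter_subset_right) s' ⟨c.1, I.N_empty _, (PC.N_loc_open (a.inter hV)).1
      ((I.loc U).N_anti inter_subset_left c.2.2)⟩
  exact ⟨s, h1.mono hx' subset_rfl, t, h2, (I.loc U).N_empty _,
    (I.loc U).N_anti hx' ((PC.N_loc_open (a.inter hV)).2 h4)⟩

theorem toLoc_inj {x : X} {V : Set X} (hV : IsOpen V) (hx : x ∈ V)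
    (h : ∀ W, IsOpen W → W ⊆ V → I.Van k W (W ∩ U)) :
    Inj I (I.loc U) (toLoc I U).f k {x} ∅ {x} ∅ := fun s hs hb => by
  obtain ⟨W, a, b, c⟩ := hs.nhds
  obtain ⟨W', a', b', t, h1, -, h2⟩ := hb.nhds
  have o := (a.inter a').inter hV
  exact (inj_res (empty_subset _) inter_subset_left (h _ o inter_subset_right) s
    (c.mono (fun _ h => h.1.1) subset_rfl) ⟨t, h1, I.N_empty _, (PC.N_loc_open o).1
      ((I.loc U).N_anti (fun _ h => h.1.2) h2)⟩).mono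
    (subset_inter (subset_inter b b') (singleton_subset_iff.2 hx)) subset_rfl

theorem trunc_loc_van (hI : I.Fl) (hU : IsOpen U) {V : Set X} (hV : IsOpen V) {c : ℤ}
    (hk : k ≤ c + 1) : (trunc c (I.loc U)).Van k V (V ∩ U) := by
  have h := (qis_open_le (truncι c (I.loc U)) (fl_trunc _ _) (fl_god _ _ _) hV (hV.inter hU)
    inter_subset_left c (fun x _ k hk => ⟨truncι_sur _ _ x hk, truncι_inj _ _ x _⟩) (k - 1)
    (by omega)).2
  rw [sub_add_cancel] at h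
  refine h.van _ (mapsTo_id _) (mapsTo_id _) (((eqv_god (fl_loc hI hU)).van_open hV (hV.inter hU)
    inter_subset_left).1 fun s hs => PC.Bd.of_N ?_)
  exact (PC.N_loc_open hV).2 ((e15_N inter_subset_right).1 hs.2.1)
end

variable {dm : X → ℕ} {n : ℕ}

theorem Lsc.open (hl : Lsc dm n) (t : ℕ) : IsOpen {x | n ≤ dm x + t} := by
  convert hl.1 (n - t) using 3; omega

theorem Lsc.open_lt (hl : Lsc dm n) {V : Set X} (hV : IsOpen V) (d : ℕ) :
    IsOpen {x ∈ V | d < dm x} := hV.inter (hl.1 (d + 1))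

theorem mdel_succ (hl : Lsc dm n) (t : ℕ) :
    mdel dm n (t + 1) = trunc ((t : ℤ) - n) ((mdel dm n t).loc {x | n ≤ dm x + t}) := by
  rw [mdel, (hl.open t).interior_eq]

/-- the conditions on the strata of codimension at most `t` -/
def AxT (I : PC X) (dm : X → ℕ) (n t : ℕ) : Prop :=
  (∃ s0, ∀ x, dm x = n → I.ResAt n s0 x) ∧
    (∀ x, n ≤ dm x + t → dm x < n → ∀ k, -(dm x : ℤ) ≤ k → I.Van k {x} ∅) ∧
    ∀ d < n, n ≤ d + t → ∀ V, IsOpen V → (∀ x ∈ V, d ≤ dm x) → ∀ k ≤ -(d : ℤ),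
      I.Van k V {x ∈ V | d < dm x}

theorem e15_top {I : PC X} (h : ∃ s0, ∀ x, dm x = n → I.ResAt n s0 x) :
    ∃ s0, I.Zc (-n) {x | dm x = n} ∅ s0 ∧ ∀ x, dm x = n → I.ResAt n s0 x := by
  obtain ⟨s0, h⟩ := h
  by_cases e : ∃ x, dm x = n
  · exact ⟨s0, ⟨(h _ e.choose_spec).1.1, I.N_empty _,
      I.N_iff_forall.2 fun x hx => (h x hx).1.2.2⟩, h⟩
  · exact ⟨0, PC.Zc.zero, fun x hx => (e ⟨x, hx⟩).elim⟩

theorem Lsc.top (hl : Lsc dm n) : {x | n ≤ dm x + 0} = {x | dm x = n} :=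
  Set.ext fun x => ⟨fun h => le_antisymm (hl.2 x) h, fun h => h.ge⟩

theorem AxT.of_eqv (hl : Lsc dm n) {t : ℕ} {I J : PC X}
    (e : Eqv (I.loc {x | n ≤ dm x + t}) (J.loc {x | n ≤ dm x + t})) (h : AxT I dm n t) :
    AxT J dm n t := by
  have a : {x | dm x = n} ⊆ {x | n ≤ dm x + t} := fun x (hx : dm x = n) => by simp [hx]
  refine ⟨?_, fun x hx h1 k hk => ?_, fun d hd h1 V hV h2 k hk => ?_⟩
  · obtain ⟨s0, h1, h2⟩ := e15_top h.1
    obtain ⟨s1, -, h3⟩ := e.res (hl.top ▸ hl.open 0 : IsOpen {x | dm x = n})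
      ⟨s0, (e15_zc a (empty_subset _)).2 h1, fun x hx => (e15_res (a hx)).2 (h2 x hx)⟩
    exact ⟨s1, fun x hx => (e15_res (a hx)).1 (h3 x hx)⟩
  · have b : {x} ⊆ {x | n ≤ dm x + t} := singleton_subset_iff.2 hx
    exact (e15_van b (empty_subset _)).1 ((e.van_pt x).1
      ((e15_van b (empty_subset _)).2 (h.2.1 x hx h1 k hk)))
  · have b : V ⊆ {x | n ≤ dm x + t} := fun x hx => h1.trans (Nat.add_le_add_right (h2 x hx) t)
    have c := (sep_subset V fun x => d < dm x).trans b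
    exact (e15_van b c).1 ((e.van_open hV (hl.open_lt hV d) (sep_subset _ _)).1
      ((e15_van b c).2 (h.2.2 d hd h1 V hV h2 k hk)))

theorem AxT.van (hl : Lsc dm n) {t : ℕ} {I : PC X} (h : AxT I dm n t) {x : X}
    (hx : n ≤ dm x + t) {k : ℤ} (h1 : -(n : ℤ) < k) (h2 : (t : ℤ) - n ≤ k) : I.Van k {x} ∅ := by
  rcases (hl.2 x).eq_or_lt with e | e
  · exact (h.1.choose_spec x e).2.2.2 k h1.ne'
  · exact h.2.1 x hx e k (by omega)

theorem axT_mdel (hl : Lsc dm n) : ∀ t, AxT (mdel dm n t) dm n t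
  | 0 => ⟨let ⟨s, _, h⟩ := resC_resAt (X := X) n; ⟨s, fun x _ => h x⟩,
      fun _ a b => absurd a (by omega), fun _ a b => absurd a (by omega)⟩
  | t + 1 => by
    have h := axT_mdel hl t
    have o := hl.open t
    have f := fl_mdel dm n t
    rw [mdel_succ hl]
    have h' := h.of_eqv hl ((eqv_loc_loc f o o subset_rfl).trans (eqv_loc_trunc (fl_loc f o) o
      (c := (t : ℤ) - n) fun x hx k hk => (e15_van (singleton_subset_iff.2 hx)
        (empty_subset _)).2 (h.van hl hx (by omega) hk.le)))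
    refine ⟨h'.1, fun x hx h1 k hk => ?_, fun d hd h1 V hV h2 k hk => ?_⟩
    · by_cases e : n ≤ dm x + t
      exacts [h'.2.1 x e h1 k hk, trunc_van _ _ _ (by omega)]
    · by_cases e : n ≤ d + t
      · exact h'.2.2 d hd e V hV h2 k hk
      · have : {x ∈ V | d < dm x} = V ∩ {x | n ≤ dm x + t} := Set.ext fun x =>
          and_congr_right fun _ => by simp only [mem_ofPred_eq]; omega
        rw [this]
        exact trunc_loc_van f o hV (by omega)

/-- induction on `t`: on `V t` the complex `mdel t` satisfies the conditions (top: with a cocycle on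
`V 0`; sup, cos for strata in `V t`). Step: `L := (mdel t).loc (V t)` has `Van U (U ∩ V t)` for all
open `U`; `trunc c L → god L ← L ← mdel t`, `c = t - n`; the cone of `truncι` has zero stalks in
degrees `≤ c`, so (`qis_open_le`) `Inj` holds in degrees `≤ c + 1` on open pairs; on `V t` all arrows
are cartesian. -/
theorem ax_mdel (hl : Lsc dm n) : Ax (mdel dm n n) dm n :=
  have h := axT_mdel hl n
  ⟨fl_mdel _ _ _, h.1, fun x => h.2.1 x (by omega), fun d hd => h.2.2 d hd (by omega)⟩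
theorem ax_comap {I : PC X} (hI : Ax I dm n) {e : Y → X} (he : IsOpenEmbedding e) :
    Ax (I.comap e he.continuous) (dm ∘ e) n := by
  have v : ∀ {k y}, (I.comap e he.continuous).Van k {y} ∅ ↔ I.Van k {e y} ∅ := by
    intro k y; rw [PC.van_comap_iff, image_singleton, image_empty]
  have z : ∀ {k y s}, (I.comap e he.continuous).Zc k {y} ∅ s ↔ I.Zc k {e y} ∅ s := by
    intro k y s; rw [PC.zc_comap_iff, image_singleton, image_empty]
  have b : ∀ {k y s}, (I.comap e he.continuous).Bd k {y} ∅ s ↔ I.Bd k {e y} ∅ s := by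
    intro k y s; rw [PC.bd_comap_iff, image_singleton, image_empty]
  obtain ⟨s0, h0⟩ := hI.top
  refine ⟨fl_comap_open hI.fl he, ⟨s0, fun y hy => ?_⟩, fun y hy k hk => v.2 (hI.sup _ hy k hk),
    fun d hd V hV h k hk => ?_⟩
  · obtain ⟨h1, h2, h3, h4⟩ := h0 (e y) hy
    exact ⟨z.2 h1, fun h => h2 (b.1 h), fun s hs => (h3 s (z.1 hs)).imp fun _ => b.2,
      fun k hk => v.2 (h4 k hk)⟩
  · have := hI.cos d hd (e '' V) (he.isOpenMap V hV) (forall_mem_image.2 h) k hk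
    rw [PC.van_comap_iff]
    convert this using 1
    ext x
    exact ⟨fun ⟨y, a, c⟩ => ⟨⟨y, a.1, c⟩, c ▸ a.2⟩,
      fun ⟨⟨y, a, c⟩, c'⟩ => ⟨y, ⟨a, by subst c; exact c'⟩, c⟩⟩
theorem Lsc.comp (hl : Lsc dm n) {e : Y → X} (he : Continuous e) : Lsc (dm ∘ e) n :=
  ⟨fun d => (hl.1 d).preimage he, fun y => hl.2 (e y)⟩

theorem uniq_aux (hl : Lsc dm n) {I : PC X} (hI : Ax I dm n) :
    ∀ t, Eqv (I.loc {x | n ≤ dm x + t}) ((mdel dm n t).loc {x | n ≤ dm x + t})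
  | 0 => by
    have o := hl.open 0
    obtain ⟨s0, h1, h2⟩ := e15_top hI.top
    rw [hl.top] at o ⊢
    obtain ⟨φ, hφ⟩ := exists_cstHom (I := I.loc {x | dm x = n}) n
      (LinearMap.toSpanSingleton ℚ I.A s0) fun c => PC.Zc.smul c ⟨h1.1, PC.N_empty _ _,
        (PC.N_loc_open isOpen_univ).2 (I.N_anti inter_subset_right h1.2.2)⟩
    have c : ∀ x, dm x = n → φ.CartAt x := fun x hx => (cart_cst_iff φ x).2 (by
      rw [hφ]; exact (e15_res (U := {x | dm x = n}) hx).2 ((one_smul ℚ s0).symm ▸ h2 x hx :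
        I.ResAt n ((1 : ℚ) • s0) x))
    exact (eqv_loc_loc hI.fl o o subset_rfl).trans (((eqv_god (fl_loc hI.fl o)).loc o).trans
      (eqv_loc_of_cartOn (godMap continuous_id φ) (fl_god _ _ _) (fl_god _ _ _) o fun x hx k =>
        ⟨godMap_sur _ φ k x (c x hx k).1, godMap_inj _ φ k x (c x hx k).2⟩).symm)
  | t + 1 => by
    have o := hl.open (t + 1)
    have a : AxT I dm n (t + 1) := ⟨hI.top, fun x _ => hI.sup x, fun d hd _ => hI.cos d hd⟩
    rw [mdel_succ hl]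
    refine ((eqv_loc_trunc hI.fl o (c := (t : ℤ) - n) fun x hx k hk =>
      a.van hl hx (by omega) (by omega)).trans (eqv_loc_of_cartOn (truncMap continuous_id _
        (toLoc I {x | n ≤ dm x + t})) (fl_trunc _ _) (fl_trunc _ _) o fun x hx =>
      truncMap_cartAt _ _ _ x fun k hk => ?_)).trans (((uniq_aux hl hI t).trunc _).loc o)
    by_cases e : n ≤ dm x + t
    · exact toLoc_cartAt (U := {x | n ≤ dm x + t}) e k
    have hx' : n ≤ dm x + (t + 1) := hx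
    have v : ∀ k ≤ (t : ℤ) - n + 1, ∀ W, IsOpen W → W ⊆ {x | n ≤ dm x + (t + 1)} →
        I.Van k W (W ∩ {x | n ≤ dm x + t}) := fun k hk W hW h => by
      convert hI.cos (dm x) (by omega) W hW (fun y hy => by
        have : n ≤ dm y + (t + 1) := h hy
        omega) k (by omega) using 1
      exact Set.ext fun y => and_congr_right fun _ => by simp only [mem_ofPred_eq]; omega
    exact ⟨toLoc_sur o hx (v _ (by omega)), toLoc_inj o hx (v _ (by omega))⟩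

/-- claim `t ≤ n`: `Eqv (I.loc (V t)) ((mdel t).loc (V t))`. Base: `s0` gives a morphism
`cstPC → I.loc (V 0)` cartesian on `V 0`. Step: on `V (t+1)` the arrows
`I → god I ← trunc c I → trunc c (I.loc (V t))` are cartesian (`sup`, `cos`);
`eqv_loc_of_cartOn`, `Eqv.trunc`, `Eqv.loc`. -/
theorem uniq (hl : Lsc dm n) {I : PC X} (hI : Ax I dm n) : Eqv I (mdel dm n n) := by
  have h := uniq_aux hl hI n
  rw [show {x | n ≤ dm x + n} = univ from eq_univ_of_forall fun x => Nat.le_add_left _ _] at h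
  exact (eqv_loc_univ hI.fl).trans (h.trans (eqv_loc_univ (fl_mdel _ _ _)).symm)

end C73
end
end

section
/-! E14: PROD and stability of cartesian morphisms. -/

open Set Filter Topology TopologicalSpace

noncomputable section
namespace C73

variable {X Y : Type} [TopologicalSpace X] [TopologicalSpace Y]

theorem bij_comap {X' Y' : Type} [TopologicalSpace X'] [TopologicalSpace Y'] {I : PC X} {J : PC Y}
    {f : I.A →ₗ[ℚ] J.A} {a : X' → X} {ha : Continuous a} {b : Y' → Y} {hb : Continuous b}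
    {C C' : Set X'} {D D' : Set Y'} : Bij (I.comap a ha) (J.comap b hb) f C C' D D' ↔
      Bij I J f (a '' C) (a '' C') (b '' D) (b '' D') :=
  forall_congr' fun _ => and_congr (forall_congr' fun _ => imp_congr PC.zc_comap_iff
    (exists_congr fun _ => and_congr PC.zc_comap_iff PC.bd_comap_iff))
    (forall_congr' fun _ => imp_congr PC.zc_comap_iff (imp_congr PC.bd_comap_iff PC.bd_comap_iff))

theorem bij_of_N {I : PC X} {J : PC Y}
    {f : I.A →ₗ[ℚ] J.A} {U : Set X} {V : Set Y} {C : Set X} {D : Set Y} (hC : IsOpen C)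
    (hD : IsOpen D) (h : Bij I J f (C ∩ U) ∅ (D ∩ V) ∅) : Bij (I.loc U) (J.loc V) f C ∅ D ∅ :=
  fun k => ⟨fun s' hs =>
    let ⟨s, a, t, b, _, c⟩ := (h k).1 s' ⟨hs.1, J.N_empty _, (PC.N_loc_open hD).1 hs.2.2⟩
    ⟨s, ⟨a.1, PC.N_empty _ _, (PC.N_loc_open hC).2 a.2.2⟩, t, b, PC.N_empty _ _,
      (PC.N_loc_open hD).2 c⟩, fun s hs ⟨t, b, _, c⟩ =>
    let ⟨u, d, _, e⟩ := (h k).2 s ⟨hs.1, I.N_empty _, (PC.N_loc_open hC).1 hs.2.2⟩
      ⟨t, b, J.N_empty _, (PC.N_loc_open hD).1 c⟩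
    ⟨u, d, PC.N_empty _ _, (PC.N_loc_open hC).2 e⟩⟩

/-- translation in the coordinate `j` -/
def trFlow (X : Type) [TopologicalSpace X] {m : ℕ} (j : Fin m) : Flow ℝ (X × (Fin m → ℝ)) where
  toFun t x := (x.1, x.2 + t • Pi.single j 1)
  cont' := by fun_prop
  map_add' a b x := by simp [add_smul, add_comm, add_left_comm]
  map_zero' x := by simp

theorem trFlow_oc {m : ℕ} (j : Fin m) (U : Set X) {B : Fin m → Set ℝ} (hc : ∀ j, OrdConnected (B j))
    (x : X × (Fin m → ℝ)) : OrdConnected {t | trFlow X j t x ∈ U ×ˢ pi univ B} :=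
  have h : ∀ {a b : ℝ}, a ≤ b → ∀ i, (trFlow X j a x).2 i ≤ (trFlow X j b x).2 i := fun h i => by
    by_cases e : i = j <;> simp [trFlow, e, h]
  ⟨fun _ ha _ hb _ ht => ⟨ha.1, fun i _ => (hc i).out (ha.2 i trivial) (hb.2 i trivial)
    ⟨h ht.1 i, h ht.2 i⟩⟩⟩

theorem e14_box {m : ℕ} {x : X} {b : Fin m → ℝ} {O : Set (X × (Fin m → ℝ))} (hO : O ∈ 𝓝 (x, b))
    {B : Fin m → Set ℝ} (hB : ∀ j, IsOpen (B j)) (hc : ∀ j, OrdConnected (B j))
    (hb : ∀ j, b j ∈ B j) : ∃ (T : Set X) (B' : Fin m → Set ℝ), IsOpen T ∧ x ∈ T ∧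
      (∀ j, IsOpen (B' j)) ∧ (∀ j, OrdConnected (B' j)) ∧ (∀ j, b j ∈ B' j) ∧ (∀ j, B' j ⊆ B j) ∧
      T ×ˢ pi univ B' ⊆ O := by
  obtain ⟨T, hT, S, hS, h⟩ := mem_nhds_prod_iff.1 hO
  obtain ⟨ε, hε, h'⟩ := Metric.mem_nhds_iff.1 hS
  refine ⟨interior T, fun j => Metric.ball (b j) ε ∩ B j, isOpen_interior,
    mem_interior_iff_mem_nhds.2 hT, fun j => Metric.isOpen_ball.inter (hB j), fun j =>
    (Real.ball_eq_Ioo _ _ ▸ ordConnected_Ioo).inter (hc j), fun j =>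
    ⟨Metric.mem_ball_self hε, hb j⟩, fun j => inter_subset_right, fun z hz =>
    h ⟨interior_subset hz.1, h' ?_⟩⟩
  rw [ball_pi _ hε]; exact fun j _ => (hz.2 j trivial).1

theorem cart_comap {p : Y → X} {I : PC X} {J : PC Y}
    {X' Y' : Type} [TopologicalSpace X'] [TopologicalSpace Y'] (φ : Hom p I J)
    (hφ : φ.Cart) {a : X' → X} (ha : Continuous a) {b : Y' → Y} (hb : Continuous b) {q : Y' → X'}
    (hq : ∀ y, a (q y) = p (b y)) :
    ∃ ψ : Hom q (I.comap a ha) (J.comap b hb), ψ.f = φ.f ∧ ψ.Cart :=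
  ⟨⟨φ.f, φ.gr, fun h y hy => (show a (q y) ∈ I.supp _ from (hq y).symm ▸ φ.supp h hy),
    fun h => (congrArg (b ⁻¹' ·) (φ.comm h)).trans preimage_empty⟩, rfl, fun y => bij_comap.2 (by
      simp only [image_singleton, image_empty, hq]; exact hφ (b y))⟩

variable [Nice X] [Nice Y]
/-- shrink one coordinate at a time: `rel` for the translation flow in coordinate `j` -/
theorem van_box {m : ℕ} {I : PC X} {J : PC (X × (Fin m → ℝ))} (φ : Hom Prod.fst I J) (hJ : J.Fl)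
    (hφ : φ.Cart) {U : Set X} (hU : IsOpen U) {B B' : Fin m → Set ℝ} (hB : ∀ j, IsOpen (B j))
    (hB' : ∀ j, IsOpen (B' j)) (hc : ∀ j, OrdConnected (B j)) (hc' : ∀ j, OrdConnected (B' j))
    (hne : ∀ j, (B' j).Nonempty) (hs : ∀ j, B' j ⊆ B j) (k : ℤ) :
    J.Van k (U ×ˢ pi univ B) (U ×ˢ pi univ B') := by
  have P : ∀ {Q : Set ℝ → Prop}, (∀ j, Q (B j)) → (∀ j, Q (B' j)) → ∀ (S : Finset (Fin m)) j,
      Q (S.piecewise B' B j) := fun h h' S j => by
    rw [Finset.piecewise]; split_ifs; exacts [h' j, h j]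
  have o := fun S => hU.prod (isOpen_set_pi finite_univ fun j _ => P hB hB' S j)
  have M : ∀ (S : Finset (Fin m)) j, B' j ⊆ S.piecewise B' B j ∧ S.piecewise B' B j ⊆ B j :=
    fun S j => by rw [Finset.piecewise]; split_ifs; exacts [⟨subset_rfl, hs j⟩, ⟨hs j, subset_rfl⟩]
  suffices ∀ S : Finset (Fin m), J.Van k (U ×ˢ pi univ B) (U ×ˢ pi univ (S.piecewise B' B)) by
    simpa using this Finset.univ
  intro S
  induction S using Finset.induction_on with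
  | empty => simpa using J.van_self subset_rfl
  | insert j S hj ih =>
    have h1 : U ×ˢ pi univ ((insert j S).piecewise B' B) ⊆ U ×ˢ pi univ (S.piecewise B' B) :=
      prod_mono_right (pi_mono fun i _ => by
        rw [Finset.piecewise_insert]
        by_cases e : i = j
        · subst e; rw [Function.update_self]; exact (M S i).1
        · rw [Function.update_of_ne e])
    have hh : ∀ t, ∀ x ∈ (univ : Set (X × (Fin m → ℝ))), (trFlow X j t x).2 j = x.2 j + t :=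
      fun t x _ => by simp [trFlow]
    refine PC.tri1 h1 (prod_mono_right (pi_mono fun i _ => (M S i).2)) ih (rel hJ (trFlow X j)
      isOpen_univ (fun _ _ _ => trivial) (fun x => x.2 j) (by fun_prop) hh (lcf_of_cart φ hJ _
      (fun _ _ _ => trivial) (fun x => x.2 j) hh (fun _ _ _ => rfl) fun y _ => hφ y) (o _) (o _) h1
      (subset_univ _) (fun x _ => trFlow_oc j U (P hc hc' _) x)
      (fun x _ => trFlow_oc j U (P hc hc' _) x) (fun x hx => ?_) k)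
    obtain ⟨b, hb⟩ := hne j
    refine ⟨b - x.2 j, hx.1, fun i _ => ?_⟩
    rw [Finset.piecewise_insert]
    by_cases e : i = j
    · subst e; simpa [trFlow] using hb
    · simpa [trFlow, e] using hx.2 i trivial

/-- `qis_open` for `I → (J.comap val_{univ × B}).push fst`, whose stalks are computed by `van_box` -/
theorem prod_bij {m : ℕ} {I : PC X} {J : PC (X × (Fin m → ℝ))} (φ : Hom Prod.fst I J) (hI : I.Fl)
    (hJ : J.Fl) (hφ : φ.Cart) {U U' : Set X} (hU : IsOpen U) (hU' : IsOpen U') (h' : U' ⊆ U)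
    {B : Fin m → Set ℝ} (hB : ∀ j, IsOpen (B j)) (hc : ∀ j, OrdConnected (B j))
    (hne : ∀ j, (B j).Nonempty) : Bij I J φ.f U U' (U ×ˢ pi univ B) (U' ×ˢ pi univ B) := by
  have o : IsOpen ((univ : Set X) ×ˢ pi univ B) :=
    isOpen_univ.prod (isOpen_set_pi finite_univ fun j _ => hB j)
  let K := (J.loc (univ ×ˢ pi univ B)).push Prod.fst
  have hN : ∀ {T}, IsOpen T → ∀ {s : J.A}, s ∈ K.N T ↔ s ∈ J.N (T ×ˢ pi univ B) := fun {T} hT s =>
    (PC.N_push_open hT).trans ((PC.N_loc_open (hT.preimage continuous_fst)).trans (by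
      rw [show Prod.fst ⁻¹' T ∩ univ ×ˢ pi univ B = T ×ˢ pi univ B from by ext; simp only [mem_inter_iff, mem_preimage, mem_prod, mem_univ, Set.mem_pi, forall_const, true_and]]))
  have hZ : ∀ {T T' k}, IsOpen T → IsOpen T' → ∀ {s : J.A}, K.Zc k T T' s ↔
      J.Zc k (T ×ˢ pi univ B) (T' ×ˢ pi univ B) s := fun a b _ =>
    and_congr Iff.rfl (and_congr (hN b) (hN a))
  have hD : ∀ {T T' k}, IsOpen T → IsOpen T' → ∀ {s : J.A}, K.Bd k T T' s ↔
      J.Bd k (T ×ˢ pi univ B) (T' ×ˢ pi univ B) s := fun a b _ =>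
    exists_congr fun _ => and_congr Iff.rfl (and_congr (hN b) (hN a))
  choose b hb using hne
  have h := qis_open ((toLoc J _).comp φ).toPush hI (fl_push (fl_loc hJ o) continuous_fst) hU hU'
    h' fun x _ k => ⟨fun s' hs => ?_, fun s hs h => ?_⟩
  · exact fun k => ⟨fun s' hs => let ⟨s, a, c⟩ := (h k).1 s' ((hZ hU hU').2 hs)
      ⟨s, a, (hD hU hU').1 c⟩, fun s hs c => (h k).2 s hs ((hD hU hU').2 c)⟩
  · obtain ⟨T, t1, t2, t3⟩ := hs.nhds
    have t4 := (hZ t1 isOpen_empty).1 t3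
    obtain ⟨s, a, c⟩ := (hφ (x, b) k).1 s' (t4.mono (singleton_subset_iff.2
      ⟨t2 rfl, fun j _ => hb j⟩) (empty_subset _))
    obtain ⟨T1, u1, u2, u3⟩ := a.nhds
    obtain ⟨O, o1, o2, o3⟩ := c.nhds
    obtain ⟨T2, B', v1, v2, v3, v4, v5, v6, v7⟩ := e14_box (o1.mem_nhds (o2 rfl)) hB hc hb
    have w := (t1.inter u1).inter v1
    refine ⟨s, a, PC.Bd.mono ((hD w isOpen_empty).2 ?_) (singleton_subset_iff.2
      ⟨⟨t2 rfl, u2 rfl⟩, v2⟩) subset_rfl⟩
    rw [empty_prod]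
    exact inj_res (empty_subset _) (prod_mono_right (pi_mono fun j _ => v6 j))
      (van_box φ hJ hφ w hB v3 hc v4 (fun j => ⟨_, v5 j⟩) v6 k) _
      ((t4.mono (prod_mono_left fun _ h => h.1.1) (empty_subset _)).sub
        (φ.map_zc (fun _ h => h.1.1.2) (mapsTo_empty _ _) u3))
      (o3.mono ((prod_mono_left inter_subset_right).trans v7) subset_rfl)
  · obtain ⟨T, t1, t2, t3⟩ := h.nhds
    exact (hφ (x, b) k).2 s hs (((hD t1 isOpen_empty).1 t3).mono (singleton_subset_iff.2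
      ⟨t2 rfl, fun j _ => hb j⟩) (empty_subset _))

variable {p : Y → X} {I : PC X} {J : PC Y}
/-- small product neighbourhoods: pull `prod_bij` back along the chart of `LocProj` (comap along open
embeddings) -/
theorem locProj_basis (hp : LocProj p) (φ : Hom p I J) (hI : I.Fl) (hJ : J.Fl) (hφ : φ.Cart) (y : Y)
    {V : Set Y} (hV : V ∈ 𝓝 y) {U : Set X} (hU : U ∈ 𝓝 (p y)) :
    ∃ U' V', IsOpen U' ∧ IsOpen V' ∧ y ∈ V' ∧ U' ⊆ U ∧ V' ⊆ V ∧ MapsTo p V' U' ∧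
      ∀ T T', IsOpen T → IsOpen T' → T' ⊆ T → T ⊆ U' →
        Bij I J φ.f T T' (V' ∩ p ⁻¹' T) (V' ∩ p ⁻¹' T') := by
  obtain ⟨m, U0, e, h0, he, ⟨⟨u, b⟩, rfl⟩, hpe⟩ := hp.2 y
  have hv := h0.isOpenEmbedding_subtypeVal
  have := nice_of_openEmb hv
  obtain ⟨ψ, hψ, hψ'⟩ := cart_comap φ hφ hv.continuous he.continuous (q := Prod.fst)
    fun z => (hpe z.1 z.2).symm
  rw [hpe] at hU
  obtain ⟨T0, B, v1, v2, v3, v4, v5, -, v7⟩ := e14_box (inter_mem (he.continuous.continuousAt hV)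
    ((hv.continuous.comp continuous_fst).continuousAt (x := (u, b)) hU))
    (B := fun _ => univ) (fun _ => isOpen_univ) (fun _ => ordConnected_univ) fun _ => trivial
  refine ⟨Subtype.val '' T0, e '' T0 ×ˢ pi univ B, hv.isOpenMap _ v1, he.isOpenMap _ (v1.prod
    (isOpen_set_pi finite_univ fun j _ => v3 j)), ⟨_, ⟨v2, fun j _ => v5 j⟩, rfl⟩,
    forall_mem_image.2 fun z hz => (v7 (show (z, b) ∈ _ from ⟨hz, fun j _ => v5 j⟩)).2,
    forall_mem_image.2 fun z hz => (v7 hz).1,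
    forall_mem_image.2 fun z hz => ⟨z.1, hz.1, (hpe z.1 z.2).symm⟩, fun T T' a a' c c' => ?_⟩
  have h := prod_bij ψ (fl_comap_open hI hv) (fl_comap_open hJ he) hψ' (a.preimage hv.continuous)
    (a'.preimage hv.continuous) (preimage_mono c) v3 v4 fun j => ⟨_, v5 j⟩
  have e1 : ∀ S ⊆ Subtype.val '' T0, (Subtype.val : U0 → X) '' (Subtype.val ⁻¹' S) = S :=
    fun S hS => image_preimage_eq_of_subset (hS.trans (image_subset_range _ _))
  have e2 : ∀ S ⊆ Subtype.val '' T0, e '' (Subtype.val ⁻¹' S) ×ˢ pi univ B =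
      e '' T0 ×ˢ pi univ B ∩ p ⁻¹' S := fun S hS => by
    rw [← image_inter_preimage]
    congr 1
    ext ⟨z, t⟩
    simp only [mem_prod, mem_preimage, mem_inter_iff, hpe]
    exact ⟨fun h => ⟨⟨(hv.injective.mem_set_image).1 (hS h.1), h.2⟩, h.1⟩, fun h => ⟨h.2, h.1.2⟩⟩
  rw [hψ, bij_comap, e1 _ c', e1 _ (c.trans c'), e2 _ c', e2 _ (c.trans c')] at h
  exact h

theorem cart_on (hp : LocProj p) (φ : Hom p I J) (hI : I.Fl) (hJ : J.Fl) (hφ : φ.Cart) {Z : Set X}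
    (hZ : IsClosed Z) : ∃ ψ : Hom p (I.on Z) (J.on (p ⁻¹' Z)), ψ.f = φ.f ∧ ψ.Cart := by
  have m0 : MapsTo p (p ⁻¹' Z)ᶜ Zᶜ := fun _ h => h
  refine ⟨⟨φ.f, fun h => ⟨φ.gr h.1, φ.map_N h.1 m0 h.2⟩, fun h => φ.supp h.1, fun h => φ.comm h.1⟩,
    rfl, fun y => cartAt_of_basis _ hp.1 y fun U hU V hV => ?_⟩
  obtain ⟨U', V', a, b, c, d, e, f, g⟩ := locProj_basis hp φ hI hJ hφ y hV hU
  refine ⟨U', V', a.mem_nhds (f c), b.mem_nhds c, d, e, f, fun k => ?_⟩
  have h1 := g U' (U' ∩ Zᶜ) a (a.inter hZ.isOpen_compl) inter_subset_left subset_rfl k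
  rw [preimage_inter, ← inter_assoc, inter_eq_left.2 f.subset_preimage] at h1
  have h2 := bij_exc (exc_of_open hI a hZ.isOpen_compl) k
  have h3 := bij_exc (exc_of_open hJ b (hZ.preimage hp.1).isOpen_compl) k
  have m1 : MapsTo id U' (U' ∪ Zᶜ) := fun _ => Or.inl
  have m2 : MapsTo id (U' ∩ Zᶜ) Zᶜ := fun _ h => h.2
  have m3 : MapsTo p (V' ∩ (p ⁻¹' Z)ᶜ) (U' ∩ Zᶜ) := fun _ h => ⟨f h.1, h.2⟩
  have m4 : MapsTo p (V' ∪ (p ⁻¹' Z)ᶜ) (U' ∪ Zᶜ) := f.union_union m0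
  have m5 : MapsTo id V' (V' ∪ (p ⁻¹' Z)ᶜ) := fun _ => Or.inl
  have m6 : MapsTo id (V' ∩ (p ⁻¹' Z)ᶜ) (p ⁻¹' Z)ᶜ := fun _ h => h.2
  have S := Sur.of_comp_inj φ (Hom.refl J) m4 m0 m5 m6
    (Sur.comp (Hom.refl I) φ m1 m2 f m3 h2.1 h1.1) h3.2
  have N := Inj.of_comp φ (Hom.refl J) m4 m0 m5 m6 (Inj.comp (Hom.refl I) φ m1 m2 f m3 h2.2 h1.2)
  refine ⟨fun s' hs => ?_, fun s hs hb => ?_⟩
  · obtain ⟨s, s1, s2⟩ := S s' (by simpa using PC.zc_on_iff.1 hs)
    exact ⟨s, PC.zc_on_iff.2 (by simpa using s1), (PC.bd_on_iff (sub_mem hs.1.2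
      (φ.map_N s1.1 m0 s1.2.1))).2 (by simpa using s2)⟩
  · exact (PC.bd_on_iff hs.1.2).2 (by
      simpa using N s (by simpa using PC.zc_on_iff.1 hs)
        (by simpa using (PC.bd_on_iff (φ.map_N hs.1.1 m0 hs.1.2)).1 hb))

theorem cart_loc (hp : LocProj p) (φ : Hom p I J) (hI : I.Fl) (hJ : J.Fl) (hφ : φ.Cart) {U : Set X}
    (hU : IsOpen U) : ∃ ψ : Hom p (I.loc U) (J.loc (p ⁻¹' U)), ψ.f = φ.f ∧ ψ.Cart := by
  refine ⟨⟨φ.f, φ.gr, fun {_ s} h => (PC.supp_loc _).subset.trans (closure_minimal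
    (fun y hy => (PC.supp_loc (I := I) (U := U) s).superset (subset_closure ⟨φ.supp h hy.1, hy.2⟩))
    (((I.loc U).closed s).preimage hp.1)), fun h => (toLoc J _).supp_empty
      (sub_mem (φ.gr (I.d_gr h)) (J.d_gr (φ.gr h))) (φ.comm h)⟩,
    rfl, fun y => cartAt_of_basis _ hp.1 y fun U1 hU1 V hV => ?_⟩
  obtain ⟨U', V', a, b, c, d, e, f, g⟩ := locProj_basis hp φ hI hJ hφ y hV hU1
  have h1 := g (U' ∩ U) ∅ (a.inter hU) isOpen_empty (empty_subset _) inter_subset_left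
  rw [preimage_inter, ← inter_assoc, inter_eq_left.2 f.subset_preimage, preimage_empty,
    inter_empty] at h1
  exact ⟨U', V', a.mem_nhds (f c), b.mem_nhds c, d, e, f, bij_of_N a b h1⟩

end C73
end
end

section
/-! E16: GC (global constancy of the Deligne complex along a local projection). -/

open Set Filter Topology TopologicalSpace

noncomputable section
namespace C73

variable {X Y : Type} [TopologicalSpace X] [TopologicalSpace Y]

variable [Nice X] [Nice Y]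
/-- induction on `t`: `resMap`, `cart_loc`, `truncMap_cartAt`; `p ⁻¹' interior = interior` by `Lsc` -/
theorem gc_mdel {p : Y → X} (hp : LocProj p) {dm : X → ℕ} {n : ℕ} (hl : Lsc dm n) (t : ℕ) :
    ∃ φ : Hom p (mdel dm n t) (mdel (dm ∘ p) n t), φ.Cart := by
  induction t with
  | zero => exact ⟨resMap hp.1 ℚ n, resMap_cart hp.1 ℚ n⟩
  | succ t ih =>
    obtain ⟨φ, hφ⟩ := ih
    obtain ⟨ψ, -, hψ⟩ := cart_loc hp φ (fl_mdel _ _ _) (fl_mdel _ _ _) hφ (hl.open t)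
    rw [mdel_succ hl, mdel_succ (hl.comp hp.1)]
    exact ⟨truncMap hp.1 _ ψ, fun y => truncMap_cartAt hp.1 _ ψ y fun k _ => hψ y k⟩

/-- `dmX x := sSup {dm y | p y = x}` is `Lsc` because `p` is open -/
theorem gc {p : Y → X} (hp : LocProj p) {dm : Y → ℕ} {n : ℕ} (hl : Lsc dm n)
    (hd : ∀ a b, p a = p b → dm a = dm b) {I : PC Y} (hI : Ax I dm n) :
    ∃ (I0 : PC X) (J : PC Y) (φ : Hom p I0 J), I0.Fl ∧ J.Fl ∧ φ.Cart ∧ Eqv I J := by
  have e : ∀ y, Function.extend p dm 0 (p y) = dm y :=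
    Function.FactorsThrough.extend_apply (fun a b => hd a b) 0
  have e0 : ∀ x, x ∉ range p → Function.extend p dm 0 x = 0 := fun x hx =>
    Function.extend_apply' _ _ _ hx
  have hl' : Lsc (Function.extend p dm 0) n := ⟨fun d => ?_, fun x => ?_⟩
  · obtain ⟨φ, hφ⟩ := gc_mdel hp hl' n
    refine ⟨_, _, φ, fl_mdel _ _ _, fl_mdel _ _ _, hφ, ?_⟩
    rw [show Function.extend p dm 0 ∘ p = dm from funext e]
    exact uniq hl hI
  · rcases d with _ | d
    · simp only [zero_le, ofPred_true, isOpen_univ]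
    convert hp.isOpenMap _ (hl.1 (d + 1))
    ext x
    refine ⟨fun h => ?_, fun ⟨y, a, b⟩ => b ▸ (e y).symm.subst (motive := (d + 1 ≤ ·)) a⟩
    by_cases hx : x ∈ range p
    · obtain ⟨y, rfl⟩ := hx
      exact ⟨y, (e y).subst (motive := (d + 1 ≤ ·)) h, rfl⟩
    · exact absurd ((e0 x hx).subst (motive := (d + 1 ≤ ·)) h) (by simp)
  · by_cases hx : x ∈ range p
    · obtain ⟨y, rfl⟩ := hx
      exact (e y).trans_le (hl.2 y)
    · exact (e0 x hx).trans_le n.zero_le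

/-- `W ≃ₜ {x ∈ W | h x = 0} × ℝ`; `gc` on the subtype `W` for `pr x = ρ (-h x) x`, `lcf_of_cart` (or
`van_arc`), `Eqv.van`, `van_comap_iff` -/
theorem lcf_of_ax {dm : X → ℕ} {n : ℕ} (hl : Lsc dm n) {I : PC X} (hI : Ax I dm n) (ρ : Flow ℝ X)
    {W : Set X} (hW : IsOpen W) (hinv : ∀ t, ∀ x ∈ W, ρ t x ∈ W) (h : X → ℝ) (hh : ContinuousOn h W)
    (hρ : ∀ t, ∀ x ∈ W, h (ρ t x) = h x + t) (hd : ∀ t, ∀ x ∈ W, dm (ρ t x) = dm x) :
    I.LCf ρ W := by
  have hv := hW.isOpenEmbedding_subtypeVal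
  have := nice_of_openEmb hv
  have hc : Continuous fun w : W => h w := continuousOn_iff_continuous_domRestrict.1 hh
  have := nice_of_closedEmb (isClosed_eq hc continuous_const : IsClosed {w : W | h w = 0}
    ).isClosedEmbedding_subtypeVal
  let pr : W → {w : W | h w = 0} := fun w => ⟨⟨ρ (-h w) w, hinv _ _ w.2⟩, by
    simp [hρ _ _ w.2]⟩
  have hpr : Continuous pr :=
    ((ρ.continuous hc.neg continuous_subtype_val).subtype_mk _).subtype_mk _
  have hpρ : ∀ t (w : W), pr ⟨ρ t w, hinv _ _ w.2⟩ = pr w := fun t w => by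
    simp [pr, hρ _ _ w.2, ← ρ.map_add]
  have hp0 : ∀ u : {w : W | h w = 0}, pr u = u := fun u => by
    have : h u = 0 := u.2
    ext; simp [pr, this]
  let e : ↥(univ : Set {w : W | h w = 0}) × (Fin 1 → ℝ) ≃ₜ W :=
    { toFun := fun z => ⟨ρ (z.2 0) z.1.1.1, hinv _ _ z.1.1.1.2⟩
      invFun := fun w => (⟨pr w, trivial⟩, fun _ => h w)
      left_inv := fun z => Prod.ext (Subtype.ext ((hpρ _ _).trans (hp0 _))) (funext fun i => by
        have : h z.1.1.1 = 0 := z.1.1.2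
        simp only [Fin.isValue, mem_ofPred_eq, hρ _ _ z.1.1.1.2, this, zero_add, Subsingleton.elim i 0])
      right_inv := fun w => by ext; simp [pr, ← ρ.map_add]
      continuous_toFun := (ρ.continuous (by fun_prop) (by fun_prop)).subtype_mk _
      continuous_invFun := (hpr.subtype_mk _).prodMk (continuous_pi fun _ => hc) }
  obtain ⟨I0, J, φ, -, hJ, hφ, hE⟩ := gc (p := pr) ⟨hpr, fun y => ⟨1, univ, e, isOpen_univ,
    e.isOpenEmbedding, e.surjective y, fun u t => (hpρ _ _).trans (hp0 _)⟩⟩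
    (hl.comp hv.continuous) (fun a b hab => (hd _ _ a.2).symm.trans
      ((congrArg (fun u => dm u.1.1) hab).trans (hd _ _ b.2))) (ax_comap hI hv)
  intro x hx a b t ht k
  let γ : ℝ → W := fun s => ⟨ρ s x, hinv _ _ hx⟩
  have h1 := van_arc φ hJ (γ := γ) ht ((ρ.continuous continuous_id continuous_const).subtype_mk _
    ).continuousOn (fun s _ s' _ hs => by
      simpa [γ, hρ _ _ hx] using congrArg (fun w : W => h w) hs)
    (fun u _ => hpρ u ⟨x, hx⟩) (fun u _ => hφ _) k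
  have h2 := PC.van_comap_iff.1 ((hE.van (singleton_subset_iff.2 (mem_image_of_mem γ ht))).2 h1)
  rwa [image_image, image_singleton] at h2

end C73
end
end

section
/-! E21: semi-purity. -/

open Set Filter Topology TopologicalSpace

noncomputable section
namespace C73
open PC

variable {X Y : Type} [TopologicalSpace X] [TopologicalSpace Y]

/-- `resC → god D ← D` -/
theorem sp_res (m : ℕ) (E : Type) [AddCommGroup E] [Module ℚ E] (n : ℤ) {V Z : Set (Fin m → ℝ)}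
    {e : ℤ} (hV : IsOpen V) (hZ : IsOpen (V \ Z)) (hF : FTO (Z ∩ V) e) :
    ∀ k < -n + m - e, (resC (Fin m → ℝ) E n).Van k V (V \ Z) :=
  fun _ hk => sp_resC E n hV hZ hF (by omega)
/-- induction on `k - k0` for all `L, k0`: if `k < k0` use `acy_set`. Otherwise `E := H^{k0}(L, univ)`
(quotient module), a linear section gives `σ : cstPC E (-k0) → L`, `ψ := godMap σ : resC → god L`;
`ψ.cone` is again constant (`van_of_cone`, `prod_bij`/`van_box` for `resC`) with zero stalks below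
`k0 + 1`; `van_cone_iff`, `sp_res`. -/
theorem sp_const (m : ℕ) {L : PC (Fin m → ℝ)} (hL : L.Fl) (hc : ∀ x k, L.Van k univ {x}) (k0 : ℤ)
    (h0 : ∀ x, ∀ k < k0, L.Van k {x} ∅) {V Z : Set (Fin m → ℝ)} {e : ℤ} (hV : IsOpen V)
    (hZ : IsOpen (V \ Z)) (hF : FTO (Z ∩ V) e) : ∀ k < k0 + m - e, L.Van k V (V \ Z) := fun k hk => by
  let φ : Hom (fun _ => ()) (L.push fun _ => ()) L :=
    ⟨LinearMap.id, fun h => h, fun _ x hx => subset_closure ⟨x, hx, rfl⟩,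
      fun _ => (congrArg L.supp (sub_self _)).trans L.supp_zero⟩
  have e : (fun _ : Fin m → ℝ => ()) ⁻¹' {()} = univ := eq_univ_of_forall fun _ => rfl
  have z : ∀ j s, (L.push fun _ => ()).Zc j {()} ∅ s ↔ L.Zc j univ ∅ s := fun j s =>
    (push_zc (isOpen_discrete _) isOpen_empty).trans (by rw [e, preimage_empty])
  have b : ∀ j s, (L.push fun _ => ()).Bd j {()} ∅ s ↔ L.Bd j univ ∅ s := fun j s =>
    (push_bd (isOpen_discrete _) isOpen_empty).trans (by rw [e, preimage_empty])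
  exact sp_cst hL hV hZ hF (fun x _ => h0 x) (fun j _ => cstOn_of_cart φ (fun _ _ => rfl)
    (fun y _ j => ⟨fun s hs => ((hc y _).sur s hs).imp fun a h => ⟨(z j a).2 h.1, h.2⟩,
      fun s hs hb => (b j s).2 ((hc y j).inj s ((z j s).1 hs) hb)⟩) j) hk
/-- `L := (J.on ({n0} ×ˢ univ)).comap (fun t => (n0, t))`, `cart_on`, `van_box` -/
theorem sp [Nice X] (m : ℕ) {I : PC X} {J : PC (X × (Fin m → ℝ))} (φ : Hom Prod.fst I J)
    (hI : I.Fl) (hJ : J.Fl) (hφ : φ.Cart) (n0 : X) (k0 : ℤ)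
    (hv : ∀ V, IsOpen V → ∀ k < k0, J.Van k V (V \ {n0} ×ˢ univ))
    {V Z : Set (X × (Fin m → ℝ))} {e : ℤ} (hV : IsOpen V) (hZ : IsOpen (V \ Z))
    (hZ0 : Z ⊆ {n0} ×ˢ univ) (hF : FTO (Z ∩ V) e) : ∀ k < k0 + m - e, J.Van k V (V \ Z) := fun k hk => by
  have e0 : (Prod.fst ⁻¹' {n0} : Set (X × (Fin m → ℝ))) = {n0} ×ˢ univ := by ext; simp
  have hc : IsClosed ({n0} ×ˢ univ : Set (X × (Fin m → ℝ))) := isClosed_singleton.prod isClosed_univ
  obtain ⟨ψ, -, hψ⟩ := cart_on (locProj_fst m) φ hI hJ hφ (isClosed_singleton (x := n0))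
  have hι : IsEmbedding (Prod.mk n0 : (Fin m → ℝ) → X × (Fin m → ℝ)) := isEmbedding_prodMkRight n0
  obtain ⟨χ, -, hχ⟩ := cart_comap ψ hψ (a := id) continuous_id hι.continuous (q := fun _ => n0)
    fun _ => rfl
  have h1 := comap_van.1 (sp_cst ((hJ.on (e0 ▸ hc)).comap hι) (hV.preimage hι.continuous)
    (Z := Prod.mk n0 ⁻¹' Z) (hZ.preimage hι.continuous)
    (hF.of_injOn _ hι.continuous.continuousOn hι.injective.injOn fun _ h => h) (c := k0)
    (fun x _ j hj => comap_van_pt.2 (van_on_pt hJ (e0 ▸ hc) fun U hU =>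
      ⟨interior U, isOpen_interior, mem_interior_iff_mem_nhds.2 hU, interior_subset,
        e0 ▸ hv _ isOpen_interior j hj⟩))
    (fun j _ => cstOn_of_cart χ (fun _ _ => rfl) (fun y _ => hχ y) j) hk)
  have e1 : ∀ T : Set (X × (Fin m → ℝ)), Prod.mk n0 '' (Prod.mk n0 ⁻¹' T) ∪ (Prod.fst ⁻¹' {n0})ᶜ =
      T ∪ (Prod.fst ⁻¹' {n0})ᶜ := fun T => by
    ext ⟨a, b⟩
    by_cases h : a = n0 <;> simp [h]
  rw [van_on_iff, ← preimage_sdiff, e1, e1, e0, van_exc_open hJ (hZ.union hc.isOpen_compl) hV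
    (union_subset_union_left _ sdiff_subset) subset_union_left
    (union_subset subset_union_right (subset_union_right.trans subset_union_left))] at h1
  rwa [show V ∩ (V \ Z ∪ ({n0} ×ˢ univ)ᶜ) = V \ Z from Subset.antisymm
    (fun x hx => hx.2.elim id fun h => ⟨hx.1, fun h' => h (hZ0 h')⟩)
    fun x hx => ⟨hx.1, Or.inl hx⟩] at h1
/-- manifolds: local (`van_of_local`), `resC_van_emb`, `sp_res` -/
theorem sp_manifold [Nice X] (m : ℕ) {V Z : Set X} (hV : IsOpen V) (hZ : IsOpen (V \ Z))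
    (hM : ∀ x ∈ Z ∩ V, ∃ e : (Fin m → ℝ) → X, IsOpenEmbedding e ∧ x ∈ range e) {e : ℤ}
    (hF : ∀ x ∈ Z ∩ V, ∃ U ∈ 𝓝 x, FTO (U ∩ Z) e) :
    ∀ k < m - e, (resC X ℚ 0).Van k V (V \ Z) := fun k hk => by
  refine van_of_local (fl_resC ℚ 0) hV hZ sdiff_subset (m - e - 1) (fun x hx U hU => ?_) k (by omega)
  have hx' : x ∈ Z ∩ V := ⟨by_contra fun h => hx.2 ⟨hx.1, h⟩, hx.1⟩
  obtain ⟨ε, he, t, rfl⟩ := hM x hx'
  obtain ⟨U0, u1, u2⟩ := hF _ hx'
  have hW : IsOpen (ε ⁻¹' interior (U ∩ U0 ∩ V)) := isOpen_interior.preimage he.continuous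
  have e1 : ε ⁻¹' interior (U ∩ U0 ∩ V) \ ε ⁻¹' Z = ε ⁻¹' (interior (U ∩ U0 ∩ V) ∩ (V \ Z)) :=
    Subset.antisymm (fun y hy => ⟨hy.1, (interior_subset hy.1).2, hy.2⟩) fun y hy => ⟨hy.1, hy.2.2⟩
  refine ⟨_, he.isOpenMap _ hW, ⟨t, mem_interior_iff_mem_nhds.2
    (inter_mem (inter_mem hU u1) (hV.mem_nhds hx.1)), rfl⟩,
    image_subset_iff.2 fun y hy => (interior_subset hy).1.1, fun j hj => ?_⟩
  have := (resC_van_emb he.isEmbedding ℚ 0 sdiff_subset).1 (sp_resC ℚ 0 hW (Z := ε ⁻¹' Z)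
    (e1 ▸ (isOpen_interior.inter hZ).preimage he.continuous)
    (u2.of_injOn ε he.continuous.continuousOn he.injective.injOn
      fun y hy => ⟨(interior_subset hy.2).1.2, hy.1⟩) (k := j) (by omega))
  rwa [e1, preimage_inter, image_inter_preimage] at this

end C73
end
end

section
/-! E23: hyperbolic flows: neighbourhoods, contraction lemma, Braden's comparison of stalks. -/

open Set Filter Topology TopologicalSpace

noncomputable section
namespace C73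

variable {X V F : Type} [TopologicalSpace X] [Nice X] [TopologicalSpace V] [Nice V]
  [TopologicalSpace F] [Nice F]

/-- the fibre of the other attracting set through `x` -/
def Hyp.Yx (H : Hyp X V) (x : X) : Set X := {y | H.rm y = 0 ∧ H.v y = H.v x}
/-- compactness (`proper` with a compact neighbourhood of `v x`) -/
theorem Hyp.nhds (H : Hyp X V) (x : X) (a : ℝ) {O : Set X} (hO : IsOpen O)
    (h : H.Yx x ∩ {y | H.rp y ≤ a} ⊆ O) :
    ∃ U b, IsOpen U ∧ H.v x ∈ U ∧ 0 < b ∧ {y | H.rp y ≤ a ∧ H.rm y < b ∧ H.v y ∈ U} ⊆ O := by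
  obtain ⟨K, hK, hxK⟩ := exists_compact_mem_nhds (H.v x)
  have hQ : IsCompact ({y | H.rp y ≤ max a 1 ∧ H.rm y ≤ max a 1 ∧ H.v y ∈ K} ∩
      ({y | H.rp y ≤ a} ∩ Oᶜ)) :=
    (H.proper _ K hK).inter_right ((isClosed_le H.rp_cont continuous_const).inter hO.isClosed_compl)
  have hc := (hQ.image (H.rm_cont.prodMk H.v_cont)).isClosed.isOpen_compl.mem_nhds
    (x := ((0 : ℝ), H.v x)) (by
      rintro ⟨y, ⟨-, h1, h2⟩, h3⟩
      exact h2 (h ⟨⟨congrArg Prod.fst h3, congrArg Prod.snd h3⟩, h1⟩))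
  obtain ⟨A, hA, B, hB, hAB⟩ := mem_nhds_prod_iff.1 hc
  obtain ⟨b, hb, hbA⟩ := Metric.mem_nhds_iff.1 hA
  obtain ⟨U, hU, hUo, hxU⟩ := mem_nhds_iff.1 (inter_mem hB hxK)
  refine ⟨U, min b 1, hUo, hxU, lt_min hb one_pos, fun y ⟨h1, h2, h3⟩ => ?_⟩
  by_contra hy
  refine hAB (a := (H.rm y, H.v y)) ⟨hbA ?_, (hU h3).1⟩ ⟨y, ⟨⟨h1.trans (le_max_left _ _),
    (h2.le.trans (min_le_right _ _)).trans (le_max_right _ _), (hU h3).2⟩, h1, hy⟩, rfl⟩
  rw [mem_ball_zero_iff, Real.norm_eq_abs, abs_of_nonneg (H.rm_nonneg y)]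
  exact h2.trans_le (min_le_left _ _)
theorem Hyp.compact_Yx (H : Hyp X V) (x : X) (a : ℝ) : IsCompact (H.Yx x ∩ {y | H.rp y ≤ a}) :=
  (H.proper (max a 0) {H.v x} isCompact_singleton).of_isClosed_subset
    (((isClosed_eq H.rm_cont continuous_const).inter (isClosed_eq H.v_cont continuous_const)).inter
      (isClosed_le H.rp_cont continuous_const))
    fun _ ⟨⟨h1, h2⟩, h3⟩ => ⟨le_trans h3 (le_max_left _ _), h1.le.trans (le_max_right _ _), h2⟩

section e23aux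
omit [Nice X] [Nice V]

theorem Hyp.e23_Wp (H : Hyp X V) : IsOpen {x | 0 < H.rp x} := isOpen_lt continuous_const H.rp_cont
theorem Hyp.e23_Wm (H : Hyp X V) : IsOpen {x | 0 < H.rm x} := isOpen_lt continuous_const H.rm_cont
theorem Hyp.e23_invp (H : Hyp X V) (t : ℝ) (x : X) (hx : x ∈ {x | 0 < H.rp x}) :
    H.ρ t x ∈ {x | 0 < H.rp x} := by
  show 0 < H.rp (H.ρ t x)
  rw [H.rp_ρ]; exact mul_pos (Real.exp_pos _) hx
theorem Hyp.e23_invm (H : Hyp X V) (t : ℝ) (x : X) (hx : x ∈ {x | 0 < H.rm x}) :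
    H.ρ t x ∈ {x | 0 < H.rm x} := by
  show 0 < H.rm (H.ρ t x)
  rw [H.rm_ρ]; exact mul_pos (Real.exp_pos _) hx
theorem Hyp.e23_contp (H : Hyp X V) :
    ContinuousOn (fun x => Real.log (H.rp x)) {x | 0 < H.rp x} :=
  H.rp_cont.continuousOn.log fun _ hx => ne_of_gt hx
theorem Hyp.e23_contm (H : Hyp X V) :
    ContinuousOn (fun x => -Real.log (H.rm x)) {x | 0 < H.rm x} :=
  (H.rm_cont.continuousOn.log fun _ hx => ne_of_gt hx).neg
theorem Hyp.e23_logp (H : Hyp X V) (t : ℝ) (x : X) (hx : x ∈ {x | 0 < H.rp x}) :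
    Real.log (H.rp (H.ρ t x)) = Real.log (H.rp x) + t := by
  rw [H.rp_ρ, Real.log_mul (Real.exp_pos _).ne' (ne_of_gt hx), Real.log_exp, add_comm]
theorem Hyp.e23_logm (H : Hyp X V) (t : ℝ) (x : X) (hx : x ∈ {x | 0 < H.rm x}) :
    -Real.log (H.rm (H.ρ t x)) = -Real.log (H.rm x) + t := by
  rw [H.rm_ρ, Real.log_mul (Real.exp_pos _).ne' (ne_of_gt hx), Real.log_exp]; ring

theorem Hyp.e23_up_m (H : Hyp X V) {b s t : ℝ} {x : X} (hst : s ≤ t) (h : H.rm (H.ρ s x) < b) :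
    H.rm (H.ρ t x) < b := by
  rw [H.rm_ρ] at h ⊢
  exact lt_of_le_of_lt (mul_le_mul_of_nonneg_right (Real.exp_le_exp.2 (neg_le_neg hst))
    (H.rm_nonneg x)) h
theorem Hyp.e23_up_p (H : Hyp X V) {a s t : ℝ} {x : X} (hst : s ≤ t) (h : a < H.rp (H.ρ s x)) :
    a < H.rp (H.ρ t x) := by
  rw [H.rp_ρ] at h ⊢
  exact lt_of_lt_of_le h (mul_le_mul_of_nonneg_right (Real.exp_le_exp.2 hst) (H.rp_nonneg x))
theorem Hyp.e23_ev_m (H : Hyp X V) {b : ℝ} (hb : 0 < b) (x : X) :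
    ∀ᶠ t in atTop, H.rm (H.ρ t x) < b := by
  have : Tendsto (fun t => Real.exp (-t) * H.rm x) atTop (𝓝 (0 * H.rm x)) :=
    Real.tendsto_exp_neg_atTop_nhds_zero.mul_const _
  rw [zero_mul] at this
  simpa only [H.rm_ρ] using this.eventually (gt_mem_nhds hb)
theorem Hyp.e23_ev_p (H : Hyp X V) (a : ℝ) {x : X} (hx : 0 < H.rp x) :
    ∀ᶠ t in atTop, a < H.rp (H.ρ t x) := by
  simpa only [H.rp_ρ] using
    (Real.tendsto_exp_atTop.atTop_mul_const hx).eventually (eventually_gt_atTop a)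

theorem e23_ord {S : Set ℝ} (h : ∀ s t, s ≤ t → s ∈ S → t ∈ S) : OrdConnected S :=
  ⟨fun s hs _ _ t ht => h s t ht.1 hs⟩
end e23aux

theorem Hyp.lcf_p (H : Hyp X V) {dm : X → ℕ} {n : ℕ} (hl : Lsc dm n)
    (hρ : ∀ t x, dm (H.ρ t x) = dm x) {I : PC X} (hI : Ax I dm n) :
    I.LCf H.ρ {x | 0 < H.rp x} ∧ I.LCf H.ρ {x | 0 < H.rm x} :=
  ⟨lcf_of_ax hl hI H.ρ H.e23_Wp H.e23_invp _ H.e23_contp H.e23_logp fun t x _ => hρ t x,
    lcf_of_ax hl hI H.ρ H.e23_Wm H.e23_invm _ H.e23_contm H.e23_logm fun t x _ => hρ t x⟩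

omit [Nice V] in
theorem e23_van_m (H : Hyp X V) {I : PC X} (hI : I.Fl) (hLC : I.LCf H.ρ {x | 0 < H.rm x})
    {Z : Set X} (hZ : ∀ x, x ∈ Z ↔ H.rp x = 0) {U : Set V} (hU : IsOpen U) {b : ℝ} (hb : 0 < b)
    (k : ℤ) : (I.on Z).Van k (H.v ⁻¹' U) (H.v ⁻¹' U ∩ {y | H.rm y < b}) := by
  have hZc : IsClosed Z := by
    rw [show Z = {x | H.rp x = 0} from Set.ext hZ]; exact isClosed_eq H.rp_cont continuous_const
  have hO : IsOpen (H.v ⁻¹' U) := hU.preimage H.v_cont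
  have hOb : IsOpen (H.v ⁻¹' U ∩ {y | H.rm y < b}) :=
    hO.inter (isOpen_lt H.rm_cont continuous_const)
  have hOW := hO.inter H.e23_Wm
  refine (van_exc_open (fl_on hI hZc) hOb hOW inter_subset_left inter_subset_left
    fun y hy => ?_).2 ?_
  · rcases (H.rm_nonneg y).eq_or_lt with h | h
    · exact Or.inl ⟨hy, show H.rm y < b from h ▸ hb⟩
    · exact Or.inr ⟨hy, h⟩
  refine rel_on hI H.ρ H.e23_Wm H.e23_invm _ H.e23_contm H.e23_logm hLC hZc (fun t x _ => ?_) hOW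
    (hOW.inter hOb) inter_subset_left inter_subset_right (fun x hx => e23_ord fun s t _ hs => ?_)
    (fun x hx => e23_ord fun s t hst hs => ?_) (fun x hx => ?_) k
  · rw [hZ, hZ, H.rp_ρ, mul_eq_zero, or_iff_right (Real.exp_pos _).ne']
  · exact ⟨show H.v _ ∈ U by rw [H.v_ρ, ← H.v_ρ s]; exact hs.1, H.e23_invm t x hx⟩
  · have hv : H.ρ t x ∈ H.v ⁻¹' U := show H.v _ ∈ U by rw [H.v_ρ, ← H.v_ρ s]; exact hs.1.1
    exact ⟨⟨hv, H.e23_invm t x hx⟩, hv, H.e23_up_m hst hs.2.2⟩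
  · obtain ⟨t, ht⟩ := (H.e23_ev_m hb x).exists
    have hv : H.ρ t x ∈ H.v ⁻¹' U := show H.v _ ∈ U by rw [H.v_ρ]; exact hx.1
    exact ⟨t, ⟨hv, H.e23_invm t x hx.2⟩, hv, ht⟩

omit [Nice X] in
theorem e23_N_on {I : PC X} {Z C C' : Set X} {s : I.A} (hs : s ∈ I.N Zᶜ) (h : s ∈ I.N C)
    (hC : C' ∩ Z ⊆ C) : s ∈ I.N C' := by
  refine I.N_anti (fun y hy => ?_) (I.N_union.2 ⟨hs, h⟩)
  by_cases hz : y ∈ Z
  · exact Or.inr (hC ⟨hy, hz⟩)
  · exact Or.inl hz

/-- identity morphism; at `x`: `O := {v ∈ U}`, `O_b := O ∩ {rm < b}`; `Van (I.on Z) O O_b` by open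
excision to `W = {0 < rm}` and `rel_on` with `h = - log rm`. Open sets `j ⁻¹' (v ⁻¹' U)` form a basis
at `x` (`Hyp.nhds` with `a = 0`), and their preimage under `q` is `Z ∩ O`. -/
theorem contraction (H : Hyp X V) {I : PC X} (hI : I.Fl) (hLC : I.LCf H.ρ {x | 0 < H.rm x})
    {j : F → X} (hj : IsEmbedding j) (hjr : ∀ x, x ∈ range j ↔ H.rp x = 0 ∧ H.rm x = 0)
    {Z : Set X} (hZ : ∀ x, x ∈ Z ↔ H.rp x = 0) {q : Z → F} (hq : Continuous q)
    (hqv : ∀ z, H.v (j (q z)) = H.v z) :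
    Eqv (((I.on Z).comap (Subtype.val : Z → X) continuous_subtype_val).push q)
      ((I.on Z).comap j hj.continuous) := by
  have hZc : IsClosed Z := by
    rw [show Z = {x | H.rp x = 0} from Set.ext hZ]; exact isClosed_eq H.rp_cont continuous_const
  have hj0 : ∀ x, H.rp (j x) = 0 ∧ H.rm (j x) = 0 := fun x => (hjr _).1 ⟨x, rfl⟩
  have hqj : ∀ x, q ⟨j x, (hZ _).2 (hj0 x).1⟩ = x := fun x =>
    hj.injective (H.inj _ _ (hj0 _).1 (hj0 _).2 (hj0 _).1 (hj0 _).2 (hqv _))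
  let φ : Hom id (((I.on Z).comap (Subtype.val : Z → X) continuous_subtype_val).push q)
      ((I.on Z).comap j hj.continuous) :=
    ⟨LinearMap.id, fun h => h, fun {k s} _ x hx =>
      subset_closure ⟨⟨j x, (hZ _).2 (hj0 x).1⟩, hx, hqj x⟩,
      fun {k s} _ => by
        show j ⁻¹' I.supp (I.d s - I.d s) = ∅
        rw [sub_self, I.supp_zero, preimage_empty]⟩
  refine Relation.EqvGen.rel _ _ ⟨fl_push (fl_shriek hI hZc) hq, fl_comap (fl_on hI hZc) hj, φ,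
    fun x k => ?_⟩
  have hY : ∀ {O : Set X}, j x ∈ O → H.Yx (j x) ∩ {y | H.rp y ≤ 0} ⊆ O := fun {O} hO y hy => by
    rw [H.inj y (j x) (le_antisymm hy.2 (H.rp_nonneg y)) hy.1.1 (hj0 x).1 (hj0 x).2 hy.1.2]
    exact hO
  have hA : ∀ {U : Set V}, IsOpen U → H.v (j x) ∈ U → ∀ s ∈ I.N (H.v ⁻¹' U),
      s ∈ (((I.on Z).comap (Subtype.val : Z → X) continuous_subtype_val).push q).N {x} :=
    fun {U} hU hx s hs => by
      refine PC.N_anti _ (C := j ⁻¹' (H.v ⁻¹' U)) (singleton_subset_iff.2 hx) ?_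
      refine (PC.N_push_open ((hU.preimage H.v_cont).preimage hj.continuous)).2 ?_
      refine PC.N_comap.2 (I.N_anti ?_ hs)
      rintro _ ⟨z, hz, rfl⟩
      show H.v z ∈ U
      rw [← hqv]; exact hz
  have hB : ∀ s : I.A, s ∈ ((I.on Z).comap j hj.continuous).N {x} ↔ s ∈ I.N {j x} := fun s =>
    (PC.N_comap (I := I.on Z)).trans (by rw [image_singleton]; rfl)
  constructor
  · intro s' hs'
    obtain ⟨O, hO, hxO, hsO⟩ := I.N_nhds ((hB _).1 hs'.2.2)
    obtain ⟨U, b, hU, hxU, hb, hsub⟩ := H.nhds (j x) 0 hO (hY (hxO rfl))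
    have h1 : (I.on Z).Zc k (H.v ⁻¹' U ∩ {y | H.rm y < b}) ∅ s' :=
      ⟨hs'.1, PC.N_empty _ _, e23_N_on (I.d_N hs'.1.1 hs'.1.2) hsO fun y hy =>
        hsub ⟨((hZ y).1 hy.2).le, hy.1.2, hy.1.1⟩⟩
    obtain ⟨s, hs, t, ht, -, hst⟩ := sur_res (empty_subset _) inter_subset_left
      (e23_van_m H hI hLC hZ hU hb (k + 1)) s' h1
    refine ⟨s, ⟨hs.1, PC.N_empty _ _, hA hU hxU _ hs.2.2⟩, t, ht, PC.N_empty _ _, (hB _).2 ?_⟩
    exact I.N_anti (C := H.v ⁻¹' U ∩ {y | H.rm y < b})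
      (fun y hy => by rw [hy]; exact ⟨hxU, show H.rm (j x) < b from (hj0 x).2 ▸ hb⟩) hst
  · rintro s hs ⟨t, ht, -, hst⟩
    obtain ⟨T, hT, hxT, hsT⟩ := PC.N_nhds _ hs.2.2
    obtain ⟨T', hT', rfl⟩ := hj.isInducing.isOpen_iff.1 hT
    obtain ⟨O, hO, hxO, hsO⟩ := I.N_nhds ((hB _).1 hst)
    obtain ⟨U, b, hU, hxU, hb, hsub⟩ := H.nhds (j x) 0 (hO.inter hT') (hY ⟨hxO rfl, hxT rfl⟩)
    have h0 := PC.N_comap.1 ((PC.N_push_open hT).1 hsT)
    have h1 : (I.on Z).Zc k (H.v ⁻¹' U) ∅ s :=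
      ⟨hs.1, PC.N_empty _ _, e23_N_on (I.d_N hs.1.1 hs.1.2) h0 fun y hy =>
        ⟨⟨y, hy.2⟩, (hsub ⟨(hj0 _).1.le, show H.rm (j _) < b from (hj0 _).2 ▸ hb,
          show H.v (j _) ∈ U by rw [hqv]; exact hy.1⟩).2, rfl⟩⟩
    have h2 : (I.on Z).Bd k (H.v ⁻¹' U ∩ {y | H.rm y < b}) ∅ s :=
      ⟨t, ht, PC.N_empty _ _, e23_N_on (sub_mem hs.1.2 (I.d_N ht.1 ht.2)) hsO fun y hy =>
        (hsub ⟨((hZ y).1 hy.2).le, hy.1.2, hy.1.1⟩).1⟩
    obtain ⟨t', ht', -, hst'⟩ := inj_res (empty_subset _) inter_subset_left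
      (e23_van_m H hI hLC hZ hU hb k) s h1 h2
    exact ⟨t', ht', PC.N_empty _ _, hA hU hxU _ hst'⟩

omit [Nice V] in
theorem e23_van_p (H : Hyp X V) {I : PC X} (hI : I.Fl) (hLC : I.LCf H.ρ {x | 0 < H.rp x})
    {U : Set V} (hU : IsOpen U) {a b : ℝ} (ha : 0 ≤ a) (hb : 0 < b) (k : ℤ) :
    I.Van k ({y | 0 < H.rp y} ∩ ({y | H.rm y < b} ∩ H.v ⁻¹' U))
      ({y | a < H.rp y} ∩ ({y | H.rm y < b} ∩ H.v ⁻¹' U)) := by
  have hO : IsOpen ({y | H.rm y < b} ∩ H.v ⁻¹' U) :=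
    (isOpen_lt H.rm_cont continuous_const).inter (hU.preimage H.v_cont)
  refine rel hI H.ρ H.e23_Wp H.e23_invp _ H.e23_contp H.e23_logp hLC (H.e23_Wp.inter hO)
    ((isOpen_lt continuous_const H.rp_cont).inter hO)
    (inter_subset_inter_left _ fun y hy => lt_of_le_of_lt ha hy) inter_subset_left
    (fun x hx => e23_ord fun s t hst hs => ?_) (fun x hx => e23_ord fun s t hst hs => ?_)
    (fun x hx => ?_) k
  · exact ⟨H.e23_invp t x hx, H.e23_up_m hst hs.2.1,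
      show H.v _ ∈ U by rw [H.v_ρ, ← H.v_ρ s]; exact hs.2.2⟩
  · exact ⟨H.e23_up_p hst hs.1, H.e23_up_m hst hs.2.1,
      show H.v _ ∈ U by rw [H.v_ρ, ← H.v_ρ s]; exact hs.2.2⟩
  · obtain ⟨t, ht1, ht2⟩ := ((H.e23_ev_p a hx.1).and (H.e23_ev_m hb x)).exists
    exact ⟨t, ht1, ht2, show H.v _ ∈ U by rw [H.v_ρ]; exact hx.2.2⟩

/-- on `O' = {rm < b, v ∈ U}`: `Van (O' ∩ {0 < rp}) (O' ∩ {a < rp})` by `rel` with `h = log rp` -/
theorem braden (H : Hyp X V) {I : PC X} (hI : I.Fl) (hLC : I.LCf H.ρ {x | 0 < H.rp x}) {x : X}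
    (hx : H.rp x = 0 ∧ H.rm x = 0) {a : ℝ} (ha : 0 ≤ a) :
    Bij (I.on {y | H.rp y = 0}) (I.on {y | H.rp y ≤ a}) LinearMap.id {x} ∅ (H.Yx x) ∅ := by
  have e0 : {y | H.rp y = 0}ᶜ = {y | 0 < H.rp y} := by
    ext y; exact ⟨fun h => lt_of_le_of_ne (H.rp_nonneg y) (Ne.symm h), fun h => ne_of_gt h⟩
  have ea : {y | H.rp y ≤ a}ᶜ = {y | a < H.rp y} := by ext y; simp
  have hWa : IsOpen {y | a < H.rp y} := isOpen_lt continuous_const H.rp_cont
  have key : ∀ u ∈ I.N {y | H.rp y ≤ a}ᶜ, u ∈ I.N (H.Yx x) → ∃ U b, IsOpen U ∧ H.v x ∈ U ∧ 0 < b ∧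
      u ∈ I.N ({y | H.rm y < b} ∩ H.v ⁻¹' U) := fun u hu hu' => by
    obtain ⟨O, hO, hxO, hsO⟩ := I.N_nhds hu'
    obtain ⟨U, b, hU, hxU, hb, hsub⟩ := H.nhds x a hO (inter_subset_left.trans hxO)
    exact ⟨U, b, hU, hxU, hb, e23_N_on hu hsO fun y hy => hsub ⟨hy.2, hy.1.1, hy.1.2⟩⟩
  intro k
  constructor
  · intro (s' : I.A) hs'
    obtain ⟨U, b, hU, hxU, hb, hd⟩ := key _ (I.d_N hs'.1.1 hs'.1.2) hs'.2.2
    have hO : IsOpen ({y | H.rm y < b} ∩ H.v ⁻¹' U) :=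
      (isOpen_lt H.rm_cont continuous_const).inter (hU.preimage H.v_cont)
    obtain ⟨t, ht, ht1, ht2⟩ := e23_van_p H hI hLC hU ha hb k s'
      ⟨hs'.1.1, I.N_anti inter_subset_left (ea ▸ hs'.1.2), I.N_anti inter_subset_right hd⟩
    obtain ⟨t', ht', ht3, ht4⟩ := exc_open hI hWa hO ht ht1
    have hdt : I.d t' ∈ I.gr k := by simpa using I.d_gr ht'
    have h5 : s' - I.d t' ∈ I.N ({y | 0 < H.rp y} ∩ ({y | H.rm y < b} ∩ H.v ⁻¹' U)) := by
      have := add_mem ht2 (I.N_anti inter_subset_right (I.d_N (sub_mem ht ht') ht4))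
      rwa [map_sub, sub_add_sub_cancel] at this
    obtain ⟨s, hs, hs1, hs2⟩ := exc_open hI H.e23_Wp hO (sub_mem hs'.1.1 hdt) h5
    have h6 : I.d s ∈ I.N ({y | H.rm y < b} ∩ H.v ⁻¹' U) := by
      have := sub_mem (sub_mem hd (I.dd_N ht' _))
        (I.d_N (sub_mem (sub_mem hs'.1.1 hdt) hs) hs2)
      rwa [map_sub, map_sub, sub_sub_cancel] at this
    refine ⟨s, ⟨⟨hs, e0 ▸ hs1⟩, PC.N_empty _ _,
      I.N_anti (C := {y | H.rm y < b} ∩ H.v ⁻¹' U)
        (fun y hy => by rw [hy]; exact ⟨show H.rm x < b from hx.2 ▸ hb, hxU⟩) h6⟩,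
      t', ⟨ht', ea ▸ ht3⟩, PC.N_empty _ _, ?_⟩
    refine I.N_anti (C := {y | H.rm y < b} ∩ H.v ⁻¹' U) (C' := H.Yx x) (fun y hy =>
      ⟨show H.rm y < b from hy.1 ▸ hb, show H.v y ∈ U from hy.2 ▸ hxU⟩) ?_
    rw [sub_right_comm] at hs2
    exact hs2
  · rintro (s : I.A) hs ⟨t : I.A, ht, -, hst⟩
    have hs0 : s ∈ I.N {y | 0 < H.rp y} := e0 ▸ hs.1.2
    obtain ⟨U, b, hU, hxU, hb, hd⟩ := key (s - I.d t) (sub_mem
      (I.N_anti (fun y hy => lt_of_le_of_lt ha (not_le.1 hy)) hs0) (I.d_N ht.1 ht.2)) hst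
    have hO : IsOpen ({y | H.rm y < b} ∩ H.v ⁻¹' U) :=
      (isOpen_lt H.rm_cont continuous_const).inter (hU.preimage H.v_cont)
    obtain ⟨w, hw, -, hw2⟩ := e23_van_p H hI hLC hU ha hb (k - 1) t
      ⟨ht.1, I.N_anti inter_subset_left (ea ▸ ht.2), by
        have := sub_mem (I.N_anti inter_subset_left hs0) (I.N_anti inter_subset_right hd)
        rwa [sub_sub_cancel] at this⟩
    have hdw : I.d w ∈ I.gr (k - 1) := by simpa using I.d_gr hw
    obtain ⟨t', ht', ht1, ht2⟩ := exc_open hI H.e23_Wp hO (sub_mem ht.1 hdw) hw2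
    refine ⟨t', ⟨ht', e0 ▸ ht1⟩, PC.N_empty _ _,
      I.N_anti (C := {y | H.rm y < b} ∩ H.v ⁻¹' U)
        (fun y hy => by rw [hy]; exact ⟨show H.rm x < b from hx.2 ▸ hb, hxU⟩) ?_⟩
    have := add_mem (add_mem hd (I.d_N (sub_mem (sub_mem ht.1 hdw) ht') ht2)) (I.dd_N hw _)
    rw [map_sub, map_sub, show s - I.d t + (I.d t - I.d (I.d w) - I.d t') + I.d (I.d w) =
      s - I.d t' by abel] at this
    exact this
/-- flow boxes `{z | ρ (h y - h z) z ∈ U, |h z - h y| < ε}`, `rel`, `van_on_pt` -/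
theorem van_bdry (H : Hyp X V) {I : PC X} (hI : I.Fl) (hLC : I.LCf H.ρ {x | 0 < H.rp x}) {a : ℝ}
    (ha : 0 < a) {y : X} (hy : H.rp y = a) (k : ℤ) : (I.on {y | H.rp y ≤ a}).Van k {y} ∅ := by
  have hZ : IsClosed {y | H.rp y ≤ a} := isClosed_le H.rp_cont continuous_const
  refine van_on_pt hI hZ fun U hU => ?_
  have hc : (fun p : ℝ × X => H.ρ p.1 p.2) ⁻¹' U ∈ 𝓝 ((0 : ℝ), y) :=
    (H.ρ.continuous continuous_fst continuous_snd).continuousAt.preimage_mem_nhds (by simpa only [Flow.map_zero, id_eq] using hU)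
  obtain ⟨A, hA, B, hB, hAB⟩ := mem_nhds_prod_iff.1 hc
  obtain ⟨ε, hε, hεA⟩ := Metric.mem_nhds_iff.1 hA
  obtain ⟨B', hB', hBo, hyB⟩ := mem_nhds_iff.1 hB
  set h : X → ℝ := fun x => Real.log (H.rp x) with hh
  let g : X → ℝ × X := fun z => (h z, H.ρ (h y - h z) z)
  have hg : ContinuousOn g {x | 0 < H.rp x} :=
    H.e23_contp.prodMk ((H.ρ.continuous continuous_fst continuous_snd).comp_continuousOn
      ((continuousOn_const.sub H.e23_contp).prodMk continuousOn_id))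
  have hU' : IsOpen ({x | 0 < H.rp x} ∩ g ⁻¹' (Ioo (h y - ε) (h y + ε) ×ˢ B')) :=
    hg.isOpen_inter_preimage H.e23_Wp (isOpen_Ioo.prod hBo)
  have hgρ : ∀ t, ∀ x ∈ {x | 0 < H.rp x}, g (H.ρ t x) = (h x + t, H.ρ (h y - h x) x) :=
    fun t x hx => by
      have e : h (H.ρ t x) = h x + t := H.e23_logp t x hx
      show (h (H.ρ t x), H.ρ (h y - h (H.ρ t x)) (H.ρ t x)) = _
      rw [e, ← H.ρ.map_add, show h y - (h x + t) + t = h y - h x by ring]
  have hord : ∀ x ∈ {x | 0 < H.rp x}, OrdConnected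
      {t | H.ρ t x ∈ {x | 0 < H.rp x} ∩ g ⁻¹' (Ioo (h y - ε) (h y + ε) ×ˢ B')} := fun x hx =>
    ⟨fun s hs t ht u hu => ⟨H.e23_invp u x hx, by
      have h1 := hs.2
      have h2 := ht.2
      rw [mem_preimage, hgρ _ x hx] at h1 h2 ⊢
      exact ⟨⟨by linarith only [h1.1.1, hu.1], by linarith only [h2.1.2, hu.2]⟩, h1.2⟩⟩⟩
  refine ⟨_, hU', ⟨show 0 < H.rp y from hy ▸ ha, ⟨by simpa [g] using hε, by simpa [g] using hε⟩,
    by simpa [g] using hyB⟩, fun z hz => ?_, ?_⟩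
  · have := hAB (a := (h z - h y, H.ρ (h y - h z) z)) ⟨hεA (by
      rw [mem_ball_zero_iff, Real.norm_eq_abs, abs_lt]
      exact ⟨by linarith only [hz.2.1.1], by linarith [hz.2.1.2]⟩), hB' hz.2.2⟩
    rwa [mem_preimage, ← H.ρ.map_add, sub_add_sub_cancel, sub_self, H.ρ.map_zero_apply] at this
  refine rel hI H.ρ H.e23_Wp H.e23_invp h H.e23_contp H.e23_logp hLC hU'
    (hU'.sdiff hZ) sdiff_subset inter_subset_left hord (fun x hx => ?_) (fun x hx => ?_) k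
  · exact (hord x hx).inter (e23_ord fun s t hst hs => not_le.2 (H.e23_up_p hst (not_le.1 hs)))
  · refine ⟨h y - h x + ε / 2, ⟨H.e23_invp _ x hx.1, ?_⟩, fun hle => ?_⟩
    · rw [mem_preimage, hgρ _ x hx.1]
      exact ⟨⟨by show h y - ε < h x + _; linarith, by show h x + _ < h y + ε; linarith⟩, hx.2.2⟩
    · have h1 : h (H.ρ (h y - h x + ε / 2) x) ≤ h y := by
        show Real.log _ ≤ Real.log (H.rp y)
        rw [hy]; exact Real.log_le_log (H.e23_invp _ x hx.1) hle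
      have h2 : h (H.ρ (h y - h x + ε / 2) x) = h x + _ := H.e23_logp _ x hx.1
      linarith

end C73
end
end

section
/-! E24: support condition and finiteness at good points. -/

open Set Filter Topology TopologicalSpace

noncomputable section
namespace C73

variable {X V F : Type} [TopologicalSpace X] [Nice X] [TopologicalSpace V] [Nice V]
  [TopologicalSpace F] [Nice F]

/-- dimension data at a generic fixed point with stratum dimension `d` -/
def Good (H : Hyp X V) (dm : X → ℕ) (n : ℕ) (x : X) (d : ℕ) : Prop :=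
  (∀ r : ℕ, FTO (H.Yx x ∩ {y | dm y ≤ r}) ((r : ℤ) - d)) ∧
    ∃ D, IsClosed D ∧ H.Yx x ∩ {y | dm y < n} ⊆ D ∧ FTO (D ∩ H.Yx x) ((n : ℤ) - d - 2) ∧
      Cov (H.Yx x \ D) (n - d)
theorem e24_on_pt {I : PC X} (hI : I.Fl) {Z : Set X} {y : X} (hy : y ∈ interior Z) {k : ℤ}
    (h : I.Van k {y} ∅) : (I.on Z).Van k {y} ∅ := by
  have hy' : y ∉ Zᶜ := fun h => h (interior_subset hy)
  rw [PC.van_on_iff, empty_union, van_exc (exc_of_closed hI (by simp only [finite_singleton, Finite.isClosed, IsClosed.closure_eq, subset_singleton_iff, mem_inter_iff, mem_singleton_iff, mem_compl_iff, and_imp, forall_eq, implies_true]) ?_)]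
  · rwa [singleton_inter_eq_empty.2 hy']
  · rintro z ⟨hz, rfl⟩
    rw [closure_compl] at hz
    exact absurd hy hz

omit [Nice X] [Nice V] in
theorem e24_closed (H : Hyp X V) (a : ℝ) : IsClosed {y | H.rp y ≤ a} :=
  isClosed_le H.rp_cont continuous_const

theorem e24_stalk (H : Hyp X V) {I : PC X} (hI : I.Fl) (hLC : I.LCf H.ρ {x | 0 < H.rp x}) {y : X}
    (hy : H.rp y ≤ 1) {k : ℤ} (h : I.Van k {y} ∅) : (I.on {y | H.rp y ≤ 1}).Van k {y} ∅ := by
  rcases hy.eq_or_lt with e | e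
  · exact van_bdry H hI hLC one_pos e k
  · exact e24_on_pt hI (interior_maximal (fun z (hz : H.rp z < 1) => hz.le)
      (isOpen_lt H.rp_cont continuous_const) e) h

/-- filtration of a compact set by the strata -/
theorem e24_filt {J : PC X} (hJ : J.Fl) {dm : X → ℕ} {n : ℕ} (hl : Lsc dm n) {C : Set X}
    (hC : IsCompact C) {k : ℤ} (h : ∀ r ≤ n, ∃ e N : ℤ, FTO (C ∩ {y | dm y ≤ r}) e ∧ N + e < k ∧
      ∀ y ∈ C, dm y = r → ∀ i, N < i → J.Van i {y} ∅) : J.Van k C ∅ := by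
  have hc : ∀ r, IsClosed {y | dm y < r} := fun r => by
    simpa only [compl_ofPred, not_le] using (hl.1 r).isClosed_compl
  have key : ∀ r ≤ n + 1, J.Van k (C ∩ {y | dm y < r}) ∅ := by
    intro r
    induction r with
    | zero => exact fun _ => PC.van_self J (by simp)
    | succ r ih =>
      intro hr
      obtain ⟨e, N, hF, hk, hv⟩ := h r (by omega)
      have h1 := dim_van hJ (hC.inter_right (hc (r + 1))) (hc r) (N := N)
        (hF.mono (inter_subset_inter_right _ fun y (hy : dm y < r + 1) => Nat.lt_succ_iff.1 hy)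
          le_rfl) (fun y hy => hv y hy.1.1 (by
            have h2 : dm y < r + 1 := hy.1.2
            have h3 : ¬ dm y < r := hy.2
            omega)) k hk
      refine PC.tri1 (empty_subset _) inter_subset_right h1 ?_
      convert ih (by omega) using 1
      ext y
      exact ⟨fun h => ⟨h.2.1, h.1⟩, fun h => ⟨h.2, h.1, Nat.lt_succ_of_lt h.2⟩⟩
  convert key (n + 1) le_rfl using 1
  exact (inter_eq_left.2 fun y _ => Nat.lt_succ_of_le (hl.2 y)).symm

omit [Nice X] in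
theorem e24_ax {dm : X → ℕ} {n : ℕ} (hl : Lsc dm n) {I : PC X} (hI : Ax I dm n) (y : X) {i : ℤ}
    (hi : -(dm y : ℤ) < i) : I.Van i {y} ∅ := by
  rcases (hl.2 y).eq_or_lt with e | e
  · obtain ⟨s0, h⟩ := hI.top
    exact (h y e).2.2.2 i (by omega)
  · exact hI.sup y e i hi.le

omit [Nice X] [Nice V] in
theorem e24_N (H : Hyp X V) {I : PC X} {a : ℝ} {S : Set X} {s : I.A}
    (hs : s ∈ I.N {y | H.rp y ≤ a}ᶜ) (h : s ∈ I.N (S ∩ {y | H.rp y ≤ a})) : s ∈ I.N S :=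
  disjoint_left.2 fun y hy hS => disjoint_left.1 hs hy fun ha => disjoint_left.1 h hy ⟨hS, ha⟩

omit [Nice X] [Nice V] in
theorem e24_zc (H : Hyp X V) {I : PC X} {x : X} (hx : H.rp x = 0 ∧ H.rm x = 0) {a : ℝ}
    (ha : 0 ≤ a) {k : ℤ} {s : I.A} (hs : (I.on {y | H.rp y = 0}).Zc k {x} ∅ s) :
    (I.on {y | H.rp y ≤ a}).Zc k (H.Yx x) ∅ s := by
  have h0 : ∀ y ∈ I.supp s, H.rp y = 0 := fun y hy => by
    by_contra h
    exact disjoint_left.1 hs.1.2 hy h
  refine ⟨⟨hs.1.1, disjoint_left.2 fun y hy h => h ((h0 y hy).le.trans ha)⟩, hs.2.1,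
    disjoint_left.2 fun y hy h => disjoint_left.1 hs.2.2 hy ?_⟩
  exact H.inj y x (h0 y (I.supp_d hs.1.1 hy)) h.1 hx.1 hx.2 h.2

omit [Nice X] [Nice V] in
theorem e24_bd (H : Hyp X V) {I : PC X} {a b : ℝ} (hab : a ≤ b) {k : ℤ} {S : Set X} {s : I.A}
    (hs : (I.on {y | H.rp y ≤ a}).Bd k S ∅ s) : (I.on {y | H.rp y ≤ b}).Bd k S ∅ s :=
  let ⟨t, h1, h2, h3⟩ := hs
  ⟨t, ⟨h1.1, I.N_anti (compl_subset_compl.2 fun _ (h : _ ≤ a) => h.trans hab) h1.2⟩, h2, h3⟩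

omit [Nice X] in
theorem e24_closed_Yx (H : Hyp X V) (x : X) : IsClosed (H.Yx x) :=
  (isClosed_eq H.rm_cont continuous_const).inter (isClosed_eq H.v_cont continuous_const)

/-- extension by zero of an element with compact support on `S \\ D` -/
theorem e24_ext (H : Hyp X V) {I : PC X} (hI : I.Fl) {S D : Set X} (hS : IsClosed S)
    (hD : IsClosed D) {k : ℤ} {t : I.A} (ht : t ∈ I.gr k)
    (hc : IsCompact ((Subtype.val : ↥(S \ D) → X) ⁻¹' I.supp t)) :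
    ∃ a : ℝ, ∃ t' ∈ I.gr k, t' ∈ I.N {y | H.rp y ≤ a}ᶜ ∧ t - t' ∈ I.N (S \ D) ∧
      t' ∈ I.N (S ∩ D) := by
  have hP := hc.image continuous_subtype_val
  rw [Subtype.image_preimage_coe] at hP
  obtain ⟨K, hK, h1, h2⟩ := exists_compact_between hP hD.isOpen_compl fun y hy => hy.1.2
  obtain ⟨a, ha⟩ := hK.bddAbove_image H.rp_cont.continuousOn
  have ha' : ∀ y ∈ K, ¬ a + 1 ≤ H.rp y := fun y hy h => by linarith [ha ⟨y, hy, rfl⟩]
  obtain ⟨t', g1, g2, g3⟩ := exc_of_isClosed hI (C₁ := S \ interior K ∪ {y | a + 1 ≤ H.rp y})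
    (C₂ := S ∩ K) ((hS.sdiff isOpen_interior).union (isClosed_le continuous_const H.rp_cont))
    (hS.inter hK.isClosed) k t ht (disjoint_left.2 fun y hy h => h.1.elim
      (fun g => g.2 (h1 ⟨⟨g.1, h2 h.2.2⟩, hy⟩)) (ha' y h.2.2))
  refine ⟨a + 1, t', g1, I.N_anti (by exact fun y hy => Or.inr (le_of_not_ge (b := a + 1) hy)) g2,
    disjoint_left.2 fun y hy h => ?_, I.N_anti (fun y hy => Or.inl
      ⟨hy.1, fun h => h2 (interior_subset h) hy.2⟩) g2⟩
  by_cases hy' : y ∈ K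
  · exact disjoint_left.1 g3 hy ⟨h.1, hy'⟩
  · exact (I.supp_sub _ _ hy).elim (fun g => hy' (interior_subset (h1 ⟨h, g⟩)))
      fun g => disjoint_left.1 g2 g (Or.inl ⟨h.1, fun h => hy' (interior_subset h)⟩)

omit [Nice X] in
theorem e24_join {I : PC X} {S D : Set X} {s : I.A} (h1 : s ∈ I.N (S \ D))
    (h2 : s ∈ I.N (S ∩ D)) : s ∈ I.N S := by
  rw [← sdiff_union_inter S D]
  exact I.N_union.2 ⟨h1, h2⟩

omit [Nice X] in
theorem e24_sub {I : PC X} {W : Set X} {s : I.A} :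
    (Subtype.val : W → X) ⁻¹' I.supp s = ∅ ↔ s ∈ I.N W := by
  rw [Subtype.preimage_coe_eq_empty, inter_comm, ← disjoint_iff_inter_eq_empty]
  rfl

/-- `braden` with `a = 1`; `C := Yx ∩ {rp ≤ 1}`; induction on `r` for `Van (C ∩ {dm < r}) ∅` with
`tri1` and `dim_van` (stalks of `I.on {rp ≤ 1}`: those of `I` for `rp < 1`, zero for `rp = 1`) -/
theorem good_sup (H : Hyp X V) {dm : X → ℕ} {n : ℕ} (hl : Lsc dm n)
    (hρ : ∀ t x, dm (H.ρ t x) = dm x) {I : PC X} (hI : Ax I dm n) {x : X}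
    (hx : H.rp x = 0 ∧ H.rm x = 0) {d : ℕ} (hg : Good H dm n x d) {k : ℤ} (hk : -(d : ℤ) < k) :
    (I.on {y | H.rp y = 0}).Van k {x} ∅ := by
  have hLC := (H.lcf_p hl hρ hI).1
  have h1 := e24_filt (fl_on hI.fl (e24_closed H 1)) hl (H.compact_Yx x 1) (k := k) fun r _ =>
    ⟨r - d, -r, (hg.1 r).mono (fun y hy => ⟨hy.1.1, hy.2⟩) le_rfl, by omega, fun y hy e i hi =>
      e24_stalk H hI.fl hLC hy.2 (e24_ax hl hI y (by omega))⟩
  intro s hs
  refine (braden H hI.fl hLC hx zero_le_one k).2 s hs ?_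
  obtain ⟨t, g1, g2, g3⟩ := h1 s ((e24_zc H hx zero_le_one hs).mono inter_subset_left subset_rfl)
  exact ⟨t, g1, g2, e24_N H (sub_mem (e24_zc H hx zero_le_one hs).1.2 (I.d_N g1.1 g1.2)) g3⟩
/-- degree `-d`. `C' := C ∩ (D ∪ {rp = 1})` has `Van (-d) C' ∅` for `I.on {rp ≤ 1}` (filter by `dm`),
so classes are represented by cocycles vanishing near `C'`, i.e. compactly supported cocycles of
`I.comap` on `W := Yx \ D`; `finC_cov`. A compactly supported element `z` on `W` is replaced by `z'`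
(`exc_closed` for a compact neighbourhood `K₁` of the support in `Yx` inside `W`, and
`(Yx \ int K₁) ∪ {a' ≤ rp}`) supported in `{rp ≤ a'}` and equal to `z` along `W`, `0` along the rest
of `Yx`. Use `braden` for `a = 1`, the `a₀` of the finite family and the `a'` of the primitive. -/
theorem good_fin (H : Hyp X V) {dm : X → ℕ} {n : ℕ} (hl : Lsc dm n)
    (hρ : ∀ t x, dm (H.ρ t x) = dm x) {I : PC X} (hI : Ax I dm n) {x : X}
    (hx : H.rp x = 0 ∧ H.rm x = 0) {d : ℕ} (hg : Good H dm n x d) :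
    (I.on {y | H.rp y = 0}).FinD (-(d : ℤ)) {x} ∅ := by
  have hLC := (H.lcf_p hl hρ hI).1
  obtain ⟨hF, D, hD, hYD, hFD, hW⟩ := hg
  have hdn : d ≤ n := by
    rcases hF n with h | ⟨m, hm, -⟩
    · exact absurd (show x ∈ H.Yx x ∩ {y | dm y ≤ n} from ⟨⟨hx.2, rfl⟩, hl.2 x⟩) (by simp [h])
    · omega
  obtain ⟨s0, h0⟩ := hI.top
  have hfin := finC_cov hI.fl hW (n := n) (s0 := s0) fun y hy => h0 y
    ((hl.2 y).eq_or_lt.resolve_right fun h => hy.2 (hYD ⟨hy.1, h⟩))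
  rw [show ((n - d : ℕ) : ℤ) - n = -d by omega] at hfin
  obtain ⟨m, z, hz, hfin⟩ := hfin
  change Fin m → I.A at z
  have hY := e24_closed_Yx H x
  choose a z' z1 z2 z3 z4 using fun j => e24_ext H hI.fl hY hD (hz j).1 (hz j).2.1
  obtain ⟨a0, ha0⟩ := (finite_range a).bddAbove
  have hzc : ∀ j, (I.on {y | H.rp y ≤ max a0 1}).Zc (-d) (H.Yx x) ∅ (z' j) := fun j =>
    ⟨⟨z1 j, I.N_anti (compl_subset_compl.2 fun _ (h : _ ≤ a j) =>
      h.trans ((ha0 ⟨j, rfl⟩).trans (le_max_left _ _))) (z2 j)⟩, I.N_empty _, e24_join (D := D) (by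
        have := sub_mem (e24_sub.1 (hz j).2.2.2) (I.d_N (sub_mem (hz j).1 (z1 j)) (z3 j))
        rwa [show (I.comap _ continuous_subtype_val).d (z j) = I.d (z j) from rfl, ← map_sub,
          sub_sub_cancel] at this) (I.d_N (z1 j) (z4 j))⟩
  choose w w1 w2 using fun j =>
    (braden H hI.fl hLC hx (zero_le_one.trans (le_max_right a0 1)) (-d)).1 _ (hzc j)
  change Fin m → I.A at w
  have hv := e24_filt (fl_on hI.fl (e24_closed H 1)) hl ((H.compact_Yx x 1).inter_right hD)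
    (k := -d) fun r hr => by
      rcases hr.eq_or_lt with rfl | e
      · exact ⟨_, -r, hFD.mono (fun y hy => ⟨hy.1.2, hy.1.1.1⟩) le_rfl, by omega,
          fun y hy e i hi => e24_stalk H hI.fl hLC hy.1.2 (e24_ax hl hI y (by omega))⟩
      · exact ⟨r - d, -r - 1, (hF r).mono (fun y hy => ⟨hy.1.1.1, hy.2⟩) le_rfl, by omega,
          fun y hy e i hi => e24_stalk H hI.fl hLC hy.1.2 (hI.sup y (by omega) i (by omega))⟩
  refine ⟨m, w, w1, fun s hs => ?_⟩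
  change I.A at s
  have hs1 := e24_zc H hx zero_le_one hs
  obtain ⟨s', s1, t0, g1, g2, g3⟩ := sur_rel' (empty_subset _) inter_subset_left hv s
    (hs1.mono inter_subset_left subset_rfl)
  change I.A at s' t0
  have s2 : (I.on {y | H.rp y ≤ 1}).Bd (-d) (H.Yx x) ∅ (s - s') :=
    ⟨t0, g1, g2, e24_N H (sub_mem (sub_mem hs1.1.2 s1.1.2) (I.d_N g1.1 g1.2)) g3⟩
  have s3 : s' ∈ I.N (H.Yx x ∩ D) :=
    e24_N H s1.1.2 (I.N_anti (by exact fun y hy => ⟨⟨hy.1.1, hy.2⟩, hy.1.2⟩) s1.2.1)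
  obtain ⟨c, t, t1, t2, -, t3⟩ := hfin s' ⟨s1.1.1, by
    have : IsCompact (H.Yx x ∩ {y | H.rp y ≤ 1} ∩ I.supp s') :=
      (H.compact_Yx x 1).inter_right (I.closed _)
    rw [Subtype.isCompact_iff]
    convert this using 1
    show Subtype.val '' (Subtype.val ⁻¹' I.supp s') = _
    rw [Subtype.image_preimage_coe]
    ext y
    exact ⟨fun h => ⟨⟨h.1.1, by_contra fun g => disjoint_left.1 s1.1.2 h.2 g⟩, h.2⟩,
      fun h => ⟨⟨h.1.1, fun g => disjoint_left.1 s3 h.2 ⟨h.1.1, g⟩⟩, h.2⟩⟩, subset_univ _,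
    e24_sub.2 (I.N_anti sdiff_subset (e24_N H (I.d_N s1.1.1 s1.1.2) s1.2.2))⟩
  change I.A at t
  obtain ⟨b, t', u1, u2, u3, u4⟩ := e24_ext H hI.fl hY hD t1 t2
  have u5 : (I.on {y | H.rp y ≤ b}).Bd (-d) (H.Yx x) ∅ (s' - ∑ j, c j • z' j) := by
    refine ⟨t', ⟨u1, u2⟩, I.N_empty _, e24_join (D := D) ?_ (sub_mem (sub_mem s3
      (sum_mem fun j _ => Submodule.smul_mem _ _ (z4 j))) (I.d_N u1 u4))⟩
    have := add_mem (add_mem (e24_sub.1 t3) (sum_mem (t := Finset.univ) fun j _ =>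
      Submodule.smul_mem _ (c j) (z3 j))) (I.d_N (sub_mem t1 u1) u3)
    have e : s' - ∑ j, c j • z j - I.d t + ∑ j, c j • (z j - z' j) + I.d (t - t') =
        s' - ∑ j, c j • z' j - I.d t' := by
      simp only [smul_sub, Finset.sum_sub_distrib, map_sub]
      abel
    exact e ▸ this
  refine ⟨c, (braden H hI.fl hLC hx (a := max b (max a0 1)) (by positivity) (-d)).2 _
    (hs.sub (PC.Zc.sum _ fun j _ => (w1 j).smul (c j))) ?_⟩
  have := ((e24_bd H ((le_max_right a0 1).trans (le_max_right b _)) s2).add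
    (e24_bd H (le_max_left b (max a0 1)) u5)).add
    (PC.Bd.sum Finset.univ fun j _ => (e24_bd H (le_max_right b _) (w2 j)).smul (c j))
  have e : s - s' + (s' - ∑ j, c j • z' j) + ∑ j, c j • (z' j - w j) = s - ∑ j, c j • w j := by
    simp only [smul_sub, Finset.sum_sub_distrib]
    abel
  exact e ▸ this

end C73
end
end

section
/-! E25: cosupport. -/

open Set Filter Topology TopologicalSpace

noncomputable section
namespace C73

variable {X V F : Type} [TopologicalSpace X] [Nice X] [TopologicalSpace V] [Nice V]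
  [TopologicalSpace F] [Nice F]

/-- one stratum: chart at `y`, `gc` for `Prod.fst`, `sp` with `k0 = -r` (from `Ax.cos` if `r < n`,
from `Ax.top` and `acy_set` if `r = n`), `van_of_local` -/
theorem cos_stratum {dm : X → ℕ} {n : ℕ} (hl : Lsc dm n) (hch : ∀ x, Chart dm x) {I : PC X}
    (hI : Ax I dm n) {O Z : Set X} (hO : IsOpen O) (hZ : IsOpen (O \ Z)) {r : ℕ}
    (hr : ∀ y ∈ Z ∩ O, dm y = r) {e : ℤ} (hF : FTO (Z ∩ O) e) :
    ∀ k < (r : ℤ) - e, I.Van k O (O \ Z) := by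
  intro k hk
  refine van_of_local hI.fl hO hZ sdiff_subset ((r : ℤ) - e - 1) (fun x hx U hU => ?_) k (by omega)
  have hxr : dm x = r := hr x ⟨by_contra fun h => hx.2 ⟨hx.1, h⟩, hx.1⟩
  obtain ⟨N, _, _, n0, c, hc, hx0, h1, h2⟩ := hch x
  have hl' := hl.comp hc.continuous
  obtain ⟨I0, J, φ, f0, fJ, hφ, hE⟩ := gc (locProj_fst (2 * dm x)) hl' (fun a b hab => by
    obtain ⟨a, s⟩ := a
    obtain ⟨b, t⟩ := b
    obtain rfl : a = b := hab
    exact (h1 a s).trans (h1 a t).symm) (ax_comap hI hc)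
  have hJ := hE.ax hl' (ax_comap hI hc)
  have g1 : ∀ y, dm (c y) ≤ dm x → y.1 = n0 := fun y hy => h2 _ ((h1 y.1 y.2).symm.le.trans hy)
  have g2 : ∀ y, y.1 = n0 → dm (c y) = dm x := fun y hy => by
    rw [show y = (n0, y.2) from Prod.ext hy rfl, h1, hx0]
  have hv : ∀ W, IsOpen W → ∀ k < -(r : ℤ), J.Van k W (W \ {n0} ×ˢ univ) := fun W hW k hk => by
    rcases (hl.2 x).lt_or_eq with h | h
    · have := hJ.cos _ h W hW (fun y _ => by
        by_contra h3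
        exact h3 (g2 y (g1 y (not_le.1 h3).le)).ge) k (by omega)
      convert this using 1
      ext y
      exact and_congr_right fun _ => ⟨fun h3 => not_le.1 fun h4 => h3 ⟨g1 y h4, trivial⟩,
        fun h3 h4 => h3.ne' (g2 y h4.1)⟩
    · obtain ⟨s0, hs⟩ := hJ.top
      have g3 : ∀ y : N × (Fin (2 * dm x) → ℝ), y.1 = n0 := fun y => g1 y (h ▸ hl.2 _)
      rw [(sdiff_eq_empty (t := {n0} ×ˢ univ)).2 fun y _ => ⟨g3 y, trivial⟩]
      exact acy_open fJ hW (-(r : ℤ) - 1)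
        (fun y _ k hk => (hs y ((g2 y (g3 y)).trans h)).2.2.2 k (by omega)) k (by omega)
  have hW : IsOpen (c ⁻¹' (interior U ∩ O)) := (isOpen_interior.inter hO).preimage hc.continuous
  have hW' : IsOpen (c ⁻¹' (interior U ∩ O) \ c ⁻¹' (Z ∩ O)) := by
    convert (isOpen_interior.inter hZ (s := interior U)).preimage hc.continuous using 1
    ext y
    simp only [Set.mem_sdiff, mem_preimage, mem_inter_iff]
    tauto
  refine ⟨c '' (c ⁻¹' (interior U ∩ O)), hc.isOpenMap _ hW,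
    ⟨(n0, 0), by rw [mem_preimage, hx0]; exact ⟨mem_interior_iff_mem_nhds.2 hU, hx.1⟩, hx0⟩,
    (image_preimage_subset _ _).trans (inter_subset_left.trans interior_subset), fun k hk => ?_⟩
  have := PC.van_comap_iff.1 ((hE.van_open hW hW' sdiff_subset).2
    (sp _ φ f0 fJ hφ n0 _ hv hW hW' (fun y hy => ⟨g1 y ((hr _ hy).trans hxr.symm).le, trivial⟩)
      (hF.of_injOn c hc.continuous.continuousOn hc.injective.injOn fun y hy => hy.1) k
      (by push_cast; omega)))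
  convert this using 1
  ext y
  exact ⟨fun ⟨⟨w, h3, h4⟩, h5⟩ => ⟨w, ⟨h3, fun h6 => h5.2 (h4 ▸ h6.1)⟩, h4⟩,
    fun ⟨w, h3, h4⟩ => ⟨⟨w, h3.1, h4⟩, h4 ▸ ⟨h3.1.2, fun h6 => h3.2 ⟨h6, h3.1.2⟩⟩⟩⟩
/-- filter by `O_r := O \ (Z ∩ {dm < r})`, `tri1` -/
theorem cos_gen {dm : X → ℕ} {n : ℕ} (hl : Lsc dm n) (hch : ∀ x, Chart dm x) {I : PC X}
    (hI : Ax I dm n) {O Z : Set X} (hO : IsOpen O) (hZ : IsOpen (O \ Z)) {d : ℤ}
    (hF : ∀ r : ℕ, FTO (Z ∩ O ∩ {y | dm y ≤ r}) (r + d)) : ∀ k < -d, I.Van k O (O \ Z) := by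
  intro k hk
  have ho : ∀ r, IsOpen (O \ (Z ∩ {y | dm y < r})) := fun r => by
    convert hZ.union (hO.inter (hl.1 r)) using 1
    ext y
    simp only [Set.mem_sdiff, mem_inter_iff, mem_union, mem_ofPred_eq, ← not_lt]
    tauto
  have key : ∀ r, I.Van k O (O \ (Z ∩ {y | dm y < r})) := fun r => by
    induction r with
    | zero => exact I.van_self fun y hy => ⟨hy, fun h => Nat.not_lt_zero _ h.2⟩
    | succ r ih =>
      have hs : Z ∩ {y | dm y < r} ⊆ Z ∩ {y | dm y < r + 1} := fun y hy =>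
        ⟨hy.1, Nat.lt_succ_of_lt hy.2⟩
      have e1 : (O \ (Z ∩ {y | dm y < r})) \ (Z ∩ {y | dm y < r + 1}) =
          O \ (Z ∩ {y | dm y < r + 1}) := by rw [Set.sdiff_sdiff, union_eq_right.2 hs]
      refine PC.tri1 (sdiff_subset_sdiff_right hs) sdiff_subset ih ?_
      rw [← e1]
      refine cos_stratum hl hch hI (ho r) (e1 ▸ ho (r + 1)) (r := r) (fun y hy => ?_)
        ((hF r).mono (fun y hy => ⟨⟨hy.1.1, hy.2.1⟩, Nat.lt_succ_iff.1 hy.1.2⟩) le_rfl) k (by omega)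
      exact le_antisymm (Nat.lt_succ_iff.1 hy.1.2) (not_lt.1 fun h => hy.2.2 ⟨hy.1.1, h⟩)
  have := key (n + 1)
  rwa [(inter_eq_left (t := {y | dm y < n + 1})).2 fun y _ => Nat.lt_succ_of_le (hl.2 y)] at this
/-- the limit map exists: `q z` is the unique fixed point with the same `v` (limit of `ρ t z`,
`t → ∞`, by compactness); continuity since `v ∘ j` is a closed embedding -/
theorem Hyp.exists_q (H : Hyp X V) {j : F → X} (hj : IsEmbedding j)
    (hjr : ∀ x, x ∈ range j ↔ H.rp x = 0 ∧ H.rm x = 0) :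
    ∃ q : {x | H.rp x = 0} → F, Continuous q ∧ ∀ z, H.v (j (q z)) = H.v z := by
  have ex : ∀ z : {x | H.rp x = 0}, ∃ x, H.v (j x) = H.v z := fun z => by
    have hK := (H.proper (H.rm z) {H.v z} isCompact_singleton).inter_right
      (isClosed_eq H.rp_cont continuous_const : IsClosed {x | H.rp x = 0})
    obtain ⟨y, hy, hm⟩ := hK.exists_isMinOn
      ⟨z, ⟨z.2.le.trans (H.rm_nonneg _), le_rfl, rfl⟩, z.2⟩ H.rm_cont.continuousOn
    have h0 : H.rp (H.ρ 1 y) = 0 := by rw [H.rp_ρ, show H.rp y = 0 from hy.2, mul_zero]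
    have h1 : Real.exp (-1) < 1 := Real.exp_lt_one_iff.2 (by norm_num)
    have h2 := H.rm_nonneg y
    have h3 : H.rm y ≤ H.rm (H.ρ 1 y) := hm ⟨⟨h0.le.trans (H.rm_nonneg _),
      le_trans (by rw [H.rm_ρ]; nlinarith only [h1, h2]) hy.1.2.1, by rw [H.v_ρ]; exact hy.1.2.2⟩, h0⟩
    rw [H.rm_ρ] at h3
    obtain ⟨x, rfl⟩ := (hjr y).2 ⟨hy.2, by nlinarith only [h1, h2, h3]⟩
    exact ⟨x, hy.1.2.2⟩
  choose q hq using ex
  have hf : ∀ x, H.rp (j x) = 0 ∧ H.rm (j x) = 0 := fun x => (hjr _).1 ⟨x, rfl⟩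
  have hc := H.v_cont.comp hj.continuous
  have hp : IsProperMap (H.v ∘ j) := isProperMap_iff_isCompact_preimage.2 ⟨hc, fun K hK => by
    rw [hj.isCompact_iff]
    convert H.proper 0 K hK using 1
    ext y
    refine ⟨?_, fun h => ?_⟩
    · rintro ⟨x, hx, rfl⟩
      exact ⟨(hf x).1.le, (hf x).2.le, hx⟩
    · obtain ⟨x, rfl⟩ := (hjr y).2 ⟨h.1.antisymm (H.rp_nonneg _), h.2.1.antisymm (H.rm_nonneg _)⟩
      exact ⟨x, h.2.2, rfl⟩⟩
  have he := IsClosedEmbedding.of_continuous_injective_isClosedMap hc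
    (fun x y h => hj.injective (H.inj _ _ (hf x).1 (hf x).2 (hf y).1 (hf y).2 h)) hp.isClosedMap
  refine ⟨q, he.isInducing.continuous_iff.2 ?_, hq⟩
  rw [show (H.v ∘ j) ∘ q = H.v ∘ Subtype.val from funext hq]
  exact H.v_cont.comp continuous_subtype_val
/-- `contraction`, `van_push_open`, `van_comap_iff`, `van_on_iff`, `cos_gen` -/
theorem phi_cos (H : Hyp X V) {dm : X → ℕ} {n : ℕ} (hl : Lsc dm n)
    (hρ : ∀ t x, dm (H.ρ t x) = dm x) (hch : ∀ x, Chart dm x) {I : PC X} (hI : Ax I dm n)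
    {j : F → X} (hj : IsEmbedding j) (hjr : ∀ x, x ∈ range j ↔ H.rp x = 0 ∧ H.rm x = 0)
    {U U' : Set F} (hU : IsOpen U) (hU' : IsOpen U') (h' : U' ⊆ U) {d : ℤ}
    (hF : ∀ r : ℕ, FTO {z | H.rp z = 0 ∧ dm z ≤ r ∧ ∃ x ∈ U \ U', H.v z = H.v (j x)} (r + d)) :
    ∀ k < -d, ((I.on {y | H.rp y = 0}).comap j hj.continuous).Van k U U' := by
  intro k hk
  obtain ⟨q, hq, hqv⟩ := H.exists_q hj hjr
  have hZ : IsClosed {x | H.rp x = 0} := isClosed_eq H.rp_cont continuous_const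
  have ho : ∀ W : Set {x | H.rp x = 0}, IsOpen W →
      IsOpen (Subtype.val '' W ∪ {x | H.rp x = 0}ᶜ) := fun W hW => by
    convert (hZ.isClosedMap_subtype_val _ hW.isClosed_compl).isOpen_compl using 1
    ext y
    refine ⟨?_, fun h => or_iff_not_imp_right.2 fun h1 => ?_⟩
    · rintro (⟨w, h1, rfl⟩ | h1) ⟨w', h2, h3⟩
      exacts [h2 (Subtype.ext h3 ▸ h1), h1 (h3 ▸ w'.2)]
    · exact ⟨⟨y, not_not.1 h1⟩, by_contra fun h2 => h ⟨_, h2, rfl⟩, rfl⟩
  have e1 : (Subtype.val '' (q ⁻¹' U) ∪ {x | H.rp x = 0}ᶜ) \ Subtype.val '' (q ⁻¹' (U \ U')) =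
      Subtype.val '' (q ⁻¹' U') ∪ {x | H.rp x = 0}ᶜ := by
    ext y
    constructor
    · rintro ⟨⟨w, h1, rfl⟩ | h1, h2⟩
      exacts [.inl ⟨w, by_contra fun h3 => h2 ⟨w, ⟨h1, h3⟩, rfl⟩, rfl⟩, .inr h1]
    · rintro (⟨w, h1, rfl⟩ | h1)
      · exact ⟨.inl ⟨w, h' h1, rfl⟩, fun ⟨w', h2, h3⟩ => h2.2 (Subtype.ext h3 ▸ h1)⟩
      · exact ⟨.inr h1, fun ⟨w', _, h3⟩ => h1 (h3 ▸ w'.2)⟩
  rw [← (contraction H hI.fl (H.lcf_p hl hρ hI).2 hj hjr (Z := {x | H.rp x = 0})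
    (fun _ => Iff.rfl) hq hqv).van_open
    hU hU' h', PC.van_push_open hU hU', PC.van_comap_iff, PC.van_on_iff, ← e1]
  refine cos_gen hl hch hI (ho _ (hU.preimage hq)) (e1 ▸ ho _ (hU'.preimage hq))
    (fun r => (hF r).mono ?_ le_rfl) k hk
  rintro _ ⟨⟨⟨w, h1, rfl⟩, -⟩, h2⟩
  exact ⟨w.2, h2, q w, h1, (hqv w).symm⟩

end C73
end
end
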