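import Pool.Agent.MP_94fa45_ag.C73.SC
import Pool.Agent.MP_94fa45_ag.C73.SB

attribute [-instance] NonUnitalNonAssocSemiring.toAddCommMonoid
  TopologicalSpace.DiscreteTopology.metrizableSpace AddMonoidWithOne.toAddMonoid
  AddGroupWithOne.toAddGroup NonUnitalAlgSemiHomClass.toDistribMulActionSemiHomClass
  CommSemiring.toSemiring Semifield.toDivisionSemiring TotallySeparatedSpace.t2Space Ring.toSemiring
  Algebra.toSMul instSMulZeroClass NonUnitalNonAssocRing.toNonUnitalNonAssocSemiring RKHS.instFunLike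
  Rat.instDistribSMul Module.FaithfullyFlat.toFlat TotallyDisconnectedSpace.t1Space
  AddCommMonoidWithOne.toAddCommMonoid IdemSemiring.toSemiring T5Space.toT1Space
  MulSemiringAction.toDistribMulAction Distrib.toAdd
  MulSemiringActionSemiHomClass.toDistribMulActionSemiHomClass
  LinearOrderedAddCommMonoidWithTop.toAddCommMonoid MonoidWithZeroHomClass.toZeroHomClass
  IdemSemiring.toSemilatticeSup ContinuousMonoidHom.instCoeOutOfMonoidHomClassOfContinuousMapClass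
  Valued.toUniformSpace NonUnitalNonAssocSemiring.toMulZeroClass MulZeroOneClass.toMulZeroClass
  LinearOrderedAddCommGroupWithTop.toAddCommMonoid instCoeTOfCoeDep
  CentroidHomClass.toAddMonoidHomClass instCoeTCOfCoe

/-! Support model: constancy, splitting, the abstract theorem. -/

section
/-! E26: the restriction functor is cartesian over projections that preserve the data. -/

open Set Filter Topology TopologicalSpace

noncomputable section
namespace C73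

variable {X V F : Type} [TopologicalSpace X] [Nice X] [TopologicalSpace V] [Nice V]
  [TopologicalSpace F] [Nice F]

/-- `K` restricted along `i` is cartesian over `q` -/
def Over {W Y : Type} [TopologicalSpace W] [TopologicalSpace Y] (K : PC F) (i : W → F)
    (hi : Continuous i) (q : W → Y) : Prop :=
  ∃ (I0 : PC Y) (J : PC W) (φ : Hom q I0 J), I0.Fl ∧ J.Fl ∧ φ.Cart ∧ Eqv (K.comap i hi) J
/-- near `x`, `K` is cartesian over a slice transversal to `T` -/
def Slice (K : PC F) (T : Set F) (m : ℕ) (x : F) : Prop :=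
  ∃ (N : Type) (_ : TopologicalSpace N) (_ : Nice N) (n0 : N) (e : N × (Fin m → ℝ) → F)
    (he : IsOpenEmbedding e), e (n0, 0) = x ∧ (∀ ν t, e (ν, t) ∈ T ↔ ν = n0) ∧
    Over K e he.continuous Prod.fst
/-- on `U`, `K` is cartesian over a local projection with fibre `T ∩ U` -/
def Glob (K : PC F) (T U : Set F) : Prop :=
  ∃ (Y : Type) (_ : TopologicalSpace Y) (_ : Nice Y) (q : U → Y) (z : Y), LocProj q ∧
    (∀ u : U, u.1 ∈ T ↔ q u = z) ∧ Over K (Subtype.val : U → F) continuous_subtype_val q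
/-- `e : O → X` open, `p : O → Y` a local projection preserving the data, `T ∩ U = p ⁻¹ z` -/
def Proj (H : Hyp X V) (dm : X → ℕ) (j : F → X) (T U : Set F) : Prop :=
  ∃ (O Y : Type) (_ : TopologicalSpace O) (_ : TopologicalSpace Y) (_ : Nice Y) (e : O → X)
    (p : O → Y) (z : Y), IsOpenEmbedding e ∧ LocProj p ∧
    (∀ a b, p a = p b → dm (e a) = dm (e b) ∧ (H.rp (e a) = 0 ↔ H.rp (e b) = 0) ∧
      (H.rm (e a) = 0 ↔ H.rm (e b) = 0)) ∧
    j '' U ⊆ range e ∧ ∀ a, ∀ x ∈ U, e a = j x → (x ∈ T ↔ p a = z)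
/-- product chart at `j x` preserving the data, with plaque `T` -/
def WChart (H : Hyp X V) (dm : X → ℕ) (j : F → X) (T : Set F) (m : ℕ) (x : F) : Prop :=
  ∃ (N : Type) (_ : TopologicalSpace N) (_ : Nice N) (n0 : N) (e : N × (Fin m → ℝ) → X),
    IsOpenEmbedding e ∧ e (n0, 0) = j x ∧
    (∀ ν t, dm (e (ν, t)) = dm (e (ν, 0)) ∧ (H.rp (e (ν, t)) = 0 ↔ H.rp (e (ν, 0)) = 0) ∧
      (H.rm (e (ν, t)) = 0 ↔ H.rm (e (ν, 0)) = 0)) ∧
    ∀ ν t y, e (ν, t) = j y → (y ∈ T ↔ ν = n0)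
omit [Nice X] in
theorem e26_on_comap {I : PC X} (hI : I.Fl) {Z : Set X} (hZ : IsClosed Z) {O : Type}
    [TopologicalSpace O] {e : O → X} (he : IsOpenEmbedding e) :
    Eqv ((I.on Z).comap e he.continuous) ((I.comap e he.continuous).on (e ⁻¹' Z)) := by
  have key : ∀ k (s : I.A), s ∈ I.gr k → Disjoint (e ⁻¹' I.supp s) (e ⁻¹' Z)ᶜ →
      ∃ a ∈ I.gr k, a ∈ I.N Zᶜ ∧ s - a ∈ I.N (range e) := fun k s hs h =>
    exc_open hI hZ.isOpen_compl he.isOpen_range hs (Set.disjoint_left.2 (by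
      rintro _ h1 ⟨h2, y, rfl⟩
      exact Set.disjoint_left.1 h h1 h2))
  have p1 : ∀ y (s : I.A), s ∈ I.N (range e) → s ∈ I.N (e '' {y}) := fun y s h =>
    I.N_anti (image_subset_range _ _) h
  have p2 : ∀ {y} {s : I.A}, s ∈ (I.comap e he.continuous).N {y} ↔ s ∈ I.N (e '' {y}) :=
    PC.N_comap
  refine Eqv.of_hom ⟨LinearMap.id, fun h => ⟨h.1, Disjoint.preimage e h.2⟩, fun _ => subset_rfl,
    fun {_ s} _ => (congrArg (fun t => e ⁻¹' I.supp t) (sub_self (I.d s))).trans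
      (by rw [I.supp_zero, preimage_empty])⟩ (fl_comap_open (fl_on hI hZ) he)
    (fl_on (fl_comap_open hI he) (hZ.preimage he.continuous)) fun y k =>
      ⟨fun (s : I.A) hs => ?_, fun (s : I.A) _ h => ?_⟩
  · obtain ⟨a, h1, h2, h3⟩ := key k s hs.1.1 hs.1.2
    have h4 := sub_mem (p2.1 hs.2.2) (p1 y _ (I.d_N (sub_mem hs.1.1 h1) h3))
    refine ⟨a, ⟨⟨h1, h2⟩, PC.N_empty _ _, p2.2 ?_⟩, PC.Bd.of_N (p2.2 (p1 y _ h3))⟩
    exact ((congrArg (I.d s - ·) (map_sub I.d s a)).trans (sub_sub_cancel _ _) ▸ h4 :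
      I.d a ∈ I.N (e '' {y}))
  · obtain ⟨t, h1, -, h2⟩ := h
    obtain ⟨a, h3, h4, h5⟩ := key _ t h1.1 h1.2
    have h6 := add_mem (p2.1 h2) (p1 y _ (I.d_N (sub_mem h1.1 h3) h5))
    refine ⟨a, ⟨h3, h4⟩, PC.N_empty _ _, p2.2 ?_⟩
    exact ((congrArg (s - I.d t + ·) (map_sub I.d t a)).trans (sub_add_sub_cancel _ _ _) ▸ h6 :
      s - I.d a ∈ I.N (e '' {y}))

theorem e26_sat {O Y : Type} [TopologicalSpace O] [TopologicalSpace Y] {p : O → Y} (hp : LocProj p)
    {S : Set O} (hS : IsClosed S) (h : ∀ a b, p a = p b → a ∈ S → b ∈ S) :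
    ∃ S', IsClosed S' ∧ p ⁻¹' S' = S :=
  ⟨(p '' Sᶜ)ᶜ, (hp.isOpenMap _ hS.isOpen_compl).isClosed_compl, Set.ext fun a =>
    ⟨fun ha => by_contra fun h' => ha ⟨a, h', rfl⟩, fun ha ⟨b, hb, h'⟩ => hb (h a b h'.symm ha)⟩⟩

omit [Nice X] [Nice F] in
theorem e26_lift {O W : Type} [TopologicalSpace O] [TopologicalSpace W] {j : F → X}
    (hj : IsEmbedding j) {e : O → X} (he : IsOpenEmbedding e) {g : W → O} (hg : IsEmbedding g)
    (hr : ∀ a, a ∈ range g ↔ e a ∈ range j) :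
    ∃ i : W → F, IsOpenEmbedding i ∧ ∀ w, j (i w) = e (g w) := by
  choose i hi using fun w => (hr (g w)).1 ⟨w, rfl⟩
  refine ⟨i, ⟨hj.of_comp_iff.1 ?_, ?_⟩, hi⟩
  · rw [show j ∘ i = e ∘ g from funext hi]; exact he.isEmbedding.comp hg
  · convert he.isOpen_range.preimage hj.continuous
    ext x
    refine ⟨fun ⟨w, h⟩ => ⟨g w, h ▸ (hi w).symm⟩, fun ⟨a, h⟩ => ?_⟩
    obtain ⟨w, rfl⟩ := (hr a).2 ⟨x, h.symm⟩
    exact ⟨w, hj.injective ((hi w).trans h)⟩

omit [Nice F] in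
/-- `O` is `Nice` (`nice_of_openEmb`); `ax_comap`, `gc`, `Eqv.on` and `cart_on` for
`Z_Y := (p '' (e ⁻¹' Z)ᶜ)ᶜ` (closed as `p` is open, `p ⁻¹' Z_Y = e ⁻¹' Z`); the identity
`(I.on Z).comap e → (I.comap e).on (e ⁻¹' Z)` is cartesian; `Eqv.comap`, `cart_comap`, `Fl.comap` -/
theorem phi_over {dm : X → ℕ} {n : ℕ} (hl : Lsc dm n) {I : PC X} (hI : Ax I dm n) {Z : Set X}
    (hZ : IsClosed Z) {O Y W Y' : Type} [TopologicalSpace O] [TopologicalSpace Y] [Nice Y]
    [TopologicalSpace W] [TopologicalSpace Y'] {e : O → X} (he : IsOpenEmbedding e) {p : O → Y}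
    (hp : LocProj p) (hinv : ∀ a b, p a = p b → dm (e a) = dm (e b) ∧ (e a ∈ Z ↔ e b ∈ Z))
    {g : W → O} (hg : IsEmbedding g) {b : Y' → Y} (hb : IsEmbedding b) {q : W → Y'}
    (hq : ∀ w, b (q w) = p (g w)) {j : F → X} (hj : Continuous j) {i : W → F} (hi : Continuous i)
    (hij : ∀ w, j (i w) = e (g w)) : Over ((I.on Z).comap j hj) i hi q := by
  have := nice_of_openEmb he
  obtain ⟨I0, J, φ, h0, hJ, hφ, hE⟩ := gc hp (hl.comp he.continuous)
    (fun a b h => (hinv a b h).1) (ax_comap hI he)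
  obtain ⟨S, hS, h1⟩ := e26_sat hp (hZ.preimage he.continuous) fun a b h => (hinv a b h).2.1
  obtain ⟨ψ, -, hψ⟩ := cart_on hp φ h0 hJ hφ hS
  obtain ⟨χ, -, hχ⟩ := cart_comap ψ hψ hb.continuous hg.continuous hq
  refine ⟨_, _, χ, fl_comap (fl_on h0 hS) hb, fl_comap (fl_on hJ (hS.preimage hp.1)) hg, hχ, ?_⟩
  have h2 := ((e26_on_comap hI.fl hZ he).trans (hE.on (hZ.preimage he.continuous))).comap hg
  have h3 : ∀ (f f' : W → X) (h : f = f') hf hf', (I.on Z).comap f hf = (I.on Z).comap f' hf' := by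
    rintro f _ rfl _ _; rfl
  rw [h1]
  exact (h3 (j ∘ i) (e ∘ g) (funext hij) (hj.comp hi) (he.continuous.comp hg.continuous)) ▸ h2
/-- `N_F := {ν | e (ν, 0) ∈ range j}` (closed in `N`), `e_F := j⁻¹ ∘ e` -/
theorem slice_of_wchart (H : Hyp X V) {dm : X → ℕ} {n : ℕ} (hl : Lsc dm n) {I : PC X}
    (hI : Ax I dm n) {j : F → X} (hj : IsEmbedding j)
    (hjr : ∀ x, x ∈ range j ↔ H.rp x = 0 ∧ H.rm x = 0) {T : Set F} {m : ℕ} {x : F}
    (h : WChart H dm j T m x) : Slice ((I.on {y | H.rp y = 0}).comap j hj.continuous) T m x := by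
  obtain ⟨N, _, _, n0, e, he, h0, h1, h2⟩ := h
  have hc : IsClosed {ν : N | H.rp (e (ν, 0)) = 0 ∧ H.rm (e (ν, 0)) = 0} :=
    have := he.continuous.comp (Continuous.prodMk_left (X := N) (0 : Fin m → ℝ))
    (isClosed_eq (H.rp_cont.comp this) continuous_const).inter
      (isClosed_eq (H.rm_cont.comp this) continuous_const)
  have hg := hc.isClosedEmbedding_subtypeVal.isEmbedding.prodMap (IsEmbedding.id (X := Fin m → ℝ))
  obtain ⟨i, hi, hij⟩ := e26_lift hj he hg fun a => by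
    rw [hjr, (h1 a.1 a.2).2.1, (h1 a.1 a.2).2.2]
    exact ⟨fun ⟨w, h⟩ => h ▸ w.1.2, fun h => ⟨(⟨a.1, h⟩, a.2), rfl⟩⟩
  refine ⟨_, inferInstance, nice_of_closedEmb hc.isClosedEmbedding_subtypeVal,
    ⟨n0, (hjr _).1 ⟨x, h0.symm⟩⟩, i, hi, hj.injective ((hij _).trans h0), fun ν t =>
      (h2 ν.1 t _ (hij (ν, t)).symm).trans ⟨fun h => Subtype.ext h, fun h => h ▸ rfl⟩, ?_⟩
  refine phi_over hl hI (isClosed_eq H.rp_cont continuous_const) he (locProj_fst m) ?_ hg
    hc.isClosedEmbedding_subtypeVal.isEmbedding (fun _ => rfl) _ _ hij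
  rintro ⟨ν, t⟩ ⟨_, t'⟩ rfl
  exact ⟨(h1 ν t).1.trans (h1 ν t').1.symm, (h1 ν t).2.1.trans (h1 ν t').2.1.symm⟩
/-- `Y' := (p '' (e ⁻¹' range j)ᶜ)ᶜ` is closed in `Y` with preimage `e ⁻¹' range j`;
`LocProj.restrict`, `LocProj.comp_open`. If `z ∉ Y'` then `T ∩ U = ∅`: add the point `z` to `Y'`
(the union is still closed; or use `Y' ⊕ Unit`). -/
theorem glob_of_proj (H : Hyp X V) {dm : X → ℕ} {n : ℕ} (hl : Lsc dm n) {I : PC X}
    (hI : Ax I dm n) {j : F → X} (hj : IsEmbedding j)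
    (hjr : ∀ x, x ∈ range j ↔ H.rp x = 0 ∧ H.rm x = 0) {T U : Set F} (hU : IsOpen U)
    (hne : (T ∩ U).Nonempty) (h : Proj H dm j T U) :
    Glob ((I.on {y | H.rp y = 0}).comap j hj.continuous) T U := by
  obtain ⟨O, Y, _, _, _, e, p, z, he, hp, h1, h2, h3⟩ := h
  obtain ⟨S, hS, h4⟩ := e26_sat hp (S := {a | H.rp (e a) = 0 ∧ H.rm (e a) = 0})
    ((isClosed_eq (H.rp_cont.comp he.continuous) continuous_const).inter
      (isClosed_eq (H.rm_cont.comp he.continuous) continuous_const))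
    fun a b h ha => ⟨(h1 a b h).2.1.1 ha.1, (h1 a b h).2.2.1 ha.2⟩
  have h5 : ∀ a, a ∈ range (Subtype.val : p ⁻¹' S → O) ↔ e a ∈ range j := fun a => by
    rw [hjr, Subtype.range_coe, h4]; rfl
  obtain ⟨i, hi, hij⟩ := e26_lift hj he IsEmbedding.subtypeVal h5
  obtain ⟨g, hg, hig⟩ := e26_lift hi.isEmbedding hU.isOpenEmbedding_subtypeVal IsEmbedding.id
    fun u => iff_of_true ⟨u, rfl⟩ (by
      obtain ⟨a, ha⟩ := h2 ⟨u, u.2, rfl⟩
      obtain ⟨w, rfl⟩ := (h5 a).2 ⟨u, ha.symm⟩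
      exact ⟨w, hj.injective ((hij w).trans ha)⟩)
  have h6 : ∀ u : U, j u = e (g u) := fun u => (congrArg j (hig u)).symm.trans (hij _)
  obtain ⟨x, hxT, hxU⟩ := hne
  refine ⟨S, inferInstance, nice_of_closedEmb hS.isClosedEmbedding_subtypeVal, _,
    ⟨z, (h3 _ x hxU (h6 ⟨x, hxU⟩).symm).1 hxT ▸ (g ⟨x, hxU⟩).2⟩, (hp.restrict S).comp_open hg,
    fun u => (h3 _ u u.2 (h6 u).symm).trans
      ⟨fun h => Subtype.ext h, fun h => congrArg Subtype.val h⟩, ?_⟩
  exact phi_over hl hI (isClosed_eq H.rp_cont continuous_const) he hp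
    (fun a b h => ⟨(h1 a b h).1, (h1 a b h).2.1⟩) (IsEmbedding.subtypeVal.comp hg.isEmbedding)
    IsEmbedding.subtypeVal (fun _ => rfl) _ _ h6

end C73
end
end

section
/-! E27: constancy along a stratum. -/

open Set Filter Topology TopologicalSpace

noncomputable section
namespace C73

variable {F : Type} [TopologicalSpace F] [Nice F]

variable {K : PC F}

theorem e27_lift {E A : Type} [AddCommGroup E] [Module ℚ E] [AddCommGroup A] [Module ℚ A]
    (R : E → A → Prop) (h0 : R 0 0) (ha : ∀ e a e' a', R e a → R e' a' → R (e + e') (a + a'))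
    (hs : ∀ (c : ℚ) e a, R e a → R (c • e) (c • a)) (hex : ∀ e, ∃ a, R e a) :
    ∃ σ : E →ₗ[ℚ] A, ∀ e, R e (σ e) := by
  choose a haR using hex
  let b := Module.Basis.ofVectorSpace ℚ E
  refine ⟨b.constr ℚ fun i => a (b i), fun e => ?_⟩
  have he : e ∈ Submodule.span ℚ (range b) := by rw [b.span_eq]; trivial
  induction he using Submodule.span_induction with
  | mem x hx => obtain ⟨i, rfl⟩ := hx; rw [b.constr_basis]; exact haR _
  | zero => rw [map_zero]; exact h0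
  | add x y _ _ hx hy => rw [map_add]; exact ha _ _ _ _ hx hy
  | smul c x _ hx => rw [map_smul]; exact hs _ _ _ hx

theorem e27_pt {X Y : Type} (p : Y → X) (y : Y) : MapsTo p {y} {p y} := mapsTo_singleton.2 rfl

/-- a linear section of the cohomology -/
theorem e27_sec {Y : Type} [TopologicalSpace Y] (L : PC Y) (k : ℤ) (C : Set Y) :
    ∃ (E : Type) (_ : AddCommGroup E) (_ : Module ℚ E) (σ : E →ₗ[ℚ] L.A),
      (∀ e, L.Zc k C ∅ (σ e)) ∧ (∀ e, L.Bd k C ∅ (σ e) → e = 0) ∧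
        ∀ s, L.Zc k C ∅ s → ∃ e, L.Bd k C ∅ (s - σ e) := by
  let Z : Submodule ℚ L.A :=
    ⟨⟨⟨{s | L.Zc k C ∅ s}, fun h h' => PC.Zc.add h h'⟩, PC.Zc.zero⟩, fun c _ h => PC.Zc.smul c h⟩
  let B : Submodule ℚ Z :=
    ⟨⟨⟨{s | L.Bd k C ∅ s.1}, fun h h' => PC.Bd.add h h'⟩, PC.Bd.of_N (zero_mem _)⟩,
      fun c _ h => PC.Bd.smul c h⟩
  obtain ⟨Q, hQ⟩ := B.exists_isCompl
  refine ⟨Q, inferInstance, inferInstance, Z.subtype ∘ₗ Q.subtype, fun e => e.1.2,
    fun e he => Subtype.ext (Submodule.disjoint_def.1 hQ.disjoint _ he e.2), fun s hs => ?_⟩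
  have : (⟨s, hs⟩ : Z) ∈ B ⊔ Q := by rw [hQ.sup_eq_top]; trivial
  obtain ⟨b, hb, q, hq, h⟩ := Submodule.mem_sup.1 this
  refine ⟨⟨q, hq⟩, ?_⟩
  have e : s - (Z.subtype ∘ₗ Q.subtype) ⟨q, hq⟩ = b.1 :=
    sub_eq_of_eq_add (congrArg Subtype.val h).symm
  rw [e]; exact hb

omit [Nice F] in
/-- sections with supports commute with open restriction -/
theorem e27_eqv_on (hK : K.Fl) {T : Set F} (hT : IsClosed T) {W : Type} [TopologicalSpace W]
    {e : W → F} (he : IsOpenEmbedding e) :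
    Eqv ((K.on T).comap e he.continuous) ((K.comap e he.continuous).on (e ⁻¹' T)) := by
  have key : ∀ {k : ℤ} {s : K.A}, s ∈ ((K.comap e he.continuous).on (e ⁻¹' T)).gr k →
      ∃ a : K.A, a ∈ (K.on T).gr k ∧ ∀ w, s - a ∈ K.N {e w} := fun {k s} hs => by
    have h2 : s ∈ K.N (Tᶜ ∩ range e) :=
      disjoint_left.2 fun x hx ⟨hxT, w, hw⟩ => by
        subst hw; exact disjoint_left.1 hs.2 hx hxT
    obtain ⟨a, ha, h3, h4⟩ := exc_open hK hT.isOpen_compl he.isOpen_range hs.1 h2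
    exact ⟨a, ⟨ha, h3⟩, fun w => K.N_anti (singleton_subset_iff.2 (mem_range_self w)) h4⟩
  have cv : ∀ {w : W} {s : K.A}, s ∈ (K.comap e he.continuous).N {w} ↔ s ∈ K.N {e w} :=
    fun {w s} => by rw [PC.N_comap, image_singleton]
  refine Eqv.of_hom ⟨LinearMap.id, fun h => ⟨h.1, Disjoint.preimage e h.2⟩, fun _ => subset_rfl,
    fun {k s} _ => ?_⟩ (fl_comap_open (fl_on hK hT) he)
    (fl_on (fl_comap_open hK he) (hT.preimage he.continuous)) fun w k => ⟨fun s hs => ?_, ?_⟩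
  · show e ⁻¹' K.supp (K.d s - K.d s) = ∅
    rw [sub_self, K.supp_zero, preimage_empty]
  · obtain ⟨a, ha, h⟩ := key hs.1
    refine ⟨a, ⟨ha, PC.N_empty _ _, cv.2 ?_⟩, PC.Bd.of_N (cv.2 (h w))⟩
    have e1 : ∀ s : K.A, K.d a = K.d s - K.d (s - a) := fun s => by simp
    show K.d a ∈ _
    rw [e1 s]
    exact sub_mem (cv.1 hs.2.2) (K.d_N (sub_mem hs.1.1 ha.1) (h w))
  · rintro s - ⟨t, ht, -, h1⟩
    obtain ⟨a, ha, h⟩ := key ht
    refine ⟨a, ha, PC.N_empty _ _, cv.2 ?_⟩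
    have e1 : ∀ s t : K.A, s - K.d t ∈ K.N {e w} → K.d (t - a) ∈ K.N {e w} →
        s - K.d a ∈ K.N {e w} := fun s t g g' => by simpa only [map_sub, sub_add_sub_cancel] using add_mem g g'
    exact e1 s t (cv.1 h1) (K.d_N (sub_mem ht.1 ha.1) (h w))

omit [Nice F] in
/-- the complex with supports in the plaque is cartesian over a complex supported at `n0` -/
theorem e27_slice (hK : K.Fl) {T : Set F} (hT : IsClosed T) {m : ℕ} {N : Type}
    [TopologicalSpace N] [Nice N] {n0 : N} {e : N × (Fin m → ℝ) → F} (he : IsOpenEmbedding e)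
    (hp : ∀ ν t, e (ν, t) ∈ T ↔ ν = n0) {I0 : PC N} {J : PC (N × (Fin m → ℝ))}
    (φ : Hom Prod.fst I0 J) (h0 : I0.Fl) (hJ : J.Fl) (hφ : φ.Cart)
    (hE : Eqv (K.comap e he.continuous) J) :
    Eqv ((K.on T).comap e he.continuous) (J.on (Prod.fst ⁻¹' {n0})) ∧
      ∃ ψ : Hom Prod.fst (I0.on {n0}) (J.on (Prod.fst ⁻¹' {n0})), ψ.Cart := by
  have hP : e ⁻¹' T = Prod.fst ⁻¹' {n0} := Set.ext fun y => hp y.1 y.2
  obtain ⟨ψ, -, hψ⟩ := cart_on (locProj_fst m) φ h0 hJ hφ (isClosed_singleton (x := n0))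
  exact ⟨(e27_eqv_on hK hT he).trans (hP ▸ hE.on (hT.preimage he.continuous)), ψ, hψ⟩

theorem e27_move {X Y : Type} [TopologicalSpace X] [TopologicalSpace Y] {p : Y → X} {I : PC X}
    {J : PC Y} (φ : Hom p I J) (hφ : φ.Cart) {a b : Y} (hab : p a = p b) {k : ℤ}
    (h : J.Van k {a} ∅) : J.Van k {b} ∅ :=
  Sur.van φ (e27_pt _ _) (mapsTo_empty _ _) (hφ b k).1
    (hab ▸ Inj.van φ (e27_pt _ _) (mapsTo_empty _ _) (hφ a k).2 h)

/-- all stalks along the plaque are the stalk of `I0` at `n0` -/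
theorem slice_van (hK : K.Fl) {T : Set F} {m : ℕ} {x : F} (h : Slice K T m x) {S : Set F}
    (hS : S ⊆ T) (hx : x ∈ closure S) {k : ℤ} (hv : ∀ y ∈ S, K.Van k {y} ∅) : K.Van k {x} ∅ := by
  obtain ⟨N, _, _, n0, e, he, hx0, hp, I0, J, φ, -, -, hφ, hE⟩ := h
  obtain ⟨_, ⟨y, rfl⟩, hy⟩ := mem_closure_iff.1 hx _ he.isOpen_range ⟨_, hx0⟩
  have cv : ∀ w, J.Van k {w} ∅ ↔ K.Van k {e w} ∅ := fun w => by
    rw [← hE.van_pt, PC.van_comap_iff, image_singleton, image_empty]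
  exact hx0 ▸ (cv _).1 (e27_move φ hφ ((hp y.1 y.2).1 (hS hy)) ((cv y).2 (hv _ hy)))
/-- `cart_on` for `{z}`; `E := H^k` of `I0.on {z}` at `z` (cocycles at `z` are global cocycles), a
linear section, `Eqv.on`, `Eqv.cstOn`; come back from the open subtype `U` (lift `σ` linearly:
elements of `(K.comap val).on _` agree on `U` with elements of `K.on T`) -/
theorem cst_of_glob (hK : K.Fl) {T U : Set F} (hT : IsClosed T) (hU : IsOpen U) (h : Glob K T U)
    (k : ℤ) : (K.on T).CstOn k U (T ∩ U) := by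
  obtain ⟨Y, _, _, q, z, hq, hz, I0, J, φ, h0, hJ, hφ, hE⟩ := h
  have he := hU.isOpenEmbedding_subtypeVal
  have : Nice U := nice_of_openEmb he
  have hP : Subtype.val ⁻¹' T = q ⁻¹' {z} := Set.ext hz
  obtain ⟨ψ, -, hψ⟩ := cart_on hq φ h0 hJ hφ (isClosed_singleton (x := z))
  obtain ⟨E, _, _, σ, h1, h2, h3⟩ := e27_sec (I0.on {z}) k {z}
  have hc : (J.on (q ⁻¹' {z})).CstOn k univ (q ⁻¹' {z}) := by
    refine ⟨E, inferInstance, inferInstance, ψ.f ∘ₗ σ, fun e => ψ.map_zc (mapsTo_univ _ _)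
      (mapsTo_empty _ _) ⟨(h1 e).1, (h1 e).2.1, ?_⟩, fun u hu => ?_⟩
    · rw [← union_compl_self {z}]
      exact (PC.N_union _).2 ⟨(h1 e).2.2, PC.d_N _ (h1 e).1 (h1 e).1.2⟩
    · obtain rfl : q u = z := hu
      refine ⟨fun e hb => h2 e ((hψ u k).2 _ (h1 e) hb), fun s hs => ?_⟩
      obtain ⟨s0, hs0, hb⟩ := (hψ u k).1 s hs
      obtain ⟨e, hb'⟩ := h3 s0 hs0
      refine ⟨e, ?_⟩
      have := hb.add (ψ.map_bd (sub_mem hs0.1 (h1 e).1) (e27_pt _ _)
        (mapsTo_empty _ _) hb')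
      rwa [map_sub, sub_add_sub_cancel] at this
  obtain ⟨E', _, _, τ, g1, g2⟩ := ((e27_eqv_on hK hT he).trans
    (hE.on (hT.preimage he.continuous))).symm.cstOn isOpen_univ (subset_univ _) (hP ▸ hc)
  refine ⟨E', inferInstance, inferInstance, τ, fun e => ?_, fun x hx => ?_⟩
  · exact (PC.zc_comap_iff.1 (g1 e)).mono (by simp) (empty_subset _)
  · obtain ⟨g3, g4⟩ := g2 ⟨x, hx.2⟩ hx.1
    refine ⟨fun e hb => g3 e (PC.bd_comap_iff.2 (hb.mono (by simp) (by simp))), fun s hs => ?_⟩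
    obtain ⟨e, hb⟩ := g4 s (PC.zc_comap_iff.2 (hs.mono (by simp) (by simp)))
    exact ⟨e, (PC.bd_comap_iff.1 hb).mono (by simp) (empty_subset _)⟩
/-- `sp` in a slice (its hypothesis `hv` holds because the stalks of `J.on plaque` are all the stalk
of `I0.on {n0}`, which is the stalk of `K.on T` at `x`), `van_of_local` -/
theorem slice_sp (hK : K.Fl) {T U D : Set F} (hT : IsClosed T) (hU : IsOpen U) (hD : IsClosed D)
    (hDT : D ⊆ T) {m : ℕ} {k e : ℤ} (hs : ∀ x ∈ T ∩ U, Slice K T m x)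
    (hcos : ∀ W, IsOpen W → W ⊆ U → ∀ k' < k, K.Van k' W (W \ T))
    (hF : ∀ x ∈ D ∩ U, ∃ W ∈ 𝓝 x, FTO (W ∩ D) e) : ∀ k' < k + m - e, K.Van k' U (U \ D) := by
  intro k' hk'
  refine van_of_local hK hU (hU.sdiff hD) sdiff_subset k' (fun x hx O hO => ?_) k' le_rfl
  have hxD : x ∈ D := by_contra fun h => hx.2 ⟨hx.1, h⟩
  obtain ⟨N, _, _, n0, c, he, hx0, hp, I0, J, φ, h0, hJ, hφ, hE⟩ := hs x ⟨hDT hxD, hx.1⟩
  obtain ⟨W, hW, hFW⟩ := hF x ⟨hxD, hx.1⟩
  obtain ⟨hE', ψ, hψ⟩ := e27_slice hK hT he hp φ h0 hJ hφ hE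
  have hPc : IsClosed (Prod.fst ⁻¹' {n0} : Set (N × (Fin m → ℝ))) :=
    isClosed_singleton.preimage continuous_fst
  have hv : ∀ V, IsOpen V → ∀ j < k, J.Van j V (V \ {n0} ×ˢ univ) := fun V hV j hj => by
    have h1 := acy_open (fl_on hJ hPc) hV j (fun y _ i hi => ?_) j le_rfl
    · rw [PC.van_on_iff, empty_union, van_exc_open hJ hPc.isOpen_compl hV subset_union_right
        subset_union_left (union_comm _ _).subset] at h1
      rwa [prod_univ]
    · by_cases hy : y.1 = n0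
      · refine e27_move ψ hψ (a := (n0, 0)) hy.symm ((hE'.van_pt _).1 ?_)
        rw [PC.van_comap_iff, image_singleton, image_empty, hx0]
        exact van_on_pt hK hT fun O' hO' => ⟨interior O' ∩ U, isOpen_interior.inter hU,
          ⟨mem_interior_iff_mem_nhds.2 hO', hx.1⟩, inter_subset_left.trans interior_subset,
          hcos _ (isOpen_interior.inter hU) inter_subset_right _ (by omega)⟩
      · exact fun s hs => PC.Bd.of_N (PC.N_anti _ (singleton_subset_iff.2 hy) hs.1.2)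
  have hV : IsOpen (c ⁻¹' interior (O ∩ W ∩ U)) := isOpen_interior.preimage he.continuous
  have hZ := hV.sdiff (hD.preimage he.continuous)
  refine ⟨c '' (c ⁻¹' interior (O ∩ W ∩ U)), he.isOpenMap _ hV, ⟨(n0, 0), ?_, hx0⟩,
    fun y ⟨_, h, hy⟩ => hy ▸ (interior_subset h).1.1, fun j hj => ?_⟩
  · rw [mem_preimage, hx0, mem_interior_iff_mem_nhds]
    exact inter_mem (inter_mem hO hW) (hU.mem_nhds hx.1)
  · have h1 := sp m φ h0 hJ hφ n0 k hv hV hZ (fun y hy => ⟨(hp y.1 y.2).1 (hDT hy), trivial⟩)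
      (hFW.of_injOn c he.continuous.continuousOn he.injective.injOn
        fun y hy => ⟨(interior_subset hy.2).1.2, hy.1⟩) j (by omega)
    rw [← hE.van_open hV hZ sdiff_subset, PC.van_comap_iff] at h1
    convert h1 using 1
    ext y
    constructor
    · rintro ⟨⟨w, hw, rfl⟩, h2⟩
      exact ⟨w, ⟨hw, h2.2⟩, rfl⟩
    · rintro ⟨w, hw, rfl⟩
      exact ⟨⟨w, hw.1, rfl⟩, (interior_subset hw.1).2, hw.2⟩
/-- along the plaque of a slice `K.on T` is cohomologically constant (`cart_on`, `prod_bij` or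
`van_box`): a family of cocycles near the plaque that is a basis at one point `y` close to `x` is a
basis at `x` -/
theorem slice_cst (hK : K.Fl) {T U : Set F} (hT : IsClosed T) (hU : IsOpen U) {m : ℕ} {x : F}
    (hx : x ∈ T ∩ U) (h : Slice K T m x) : ∃ W ∈ 𝓝 x, ∃ B, IsOpen B ∧ W ⊆ B ∧ B ⊆ U ∧
      ∀ y ∈ T ∩ W, ∀ k, (K.on T).Van k B {y} := by
  obtain ⟨N, _, _, n0, c, he, hx0, hp, I0, J, φ, h0, hJ, hφ, hE⟩ := h
  obtain ⟨hE', ψ, hψ⟩ := e27_slice hK hT he hp φ h0 hJ hφ hE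
  obtain ⟨U0, B0, hU0, hB0, hn, h00, hsub⟩ :=
    isOpen_prod_iff.1 (hU.preimage he.continuous) n0 0 (by rw [mem_preimage, hx0]; exact hx.2)
  obtain ⟨ε, hε, hb⟩ := Metric.isOpen_iff.1 hB0 0 h00
  rw [ball_pi _ hε] at hb
  have hO : IsOpen (U0 ×ˢ pi univ fun j : Fin m => Metric.ball ((0 : Fin m → ℝ) j) ε) :=
    hU0.prod (isOpen_set_pi finite_univ fun _ _ => Metric.isOpen_ball)
  have hB := he.isOpenMap _ hO
  refine ⟨_, hB.mem_nhds ⟨(n0, 0), ⟨hn, fun j _ => Metric.mem_ball_self hε⟩, hx0⟩, _, hB,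
    subset_rfl, image_subset_iff.2 ((prod_mono subset_rfl hb).trans hsub), ?_⟩
  rintro _ ⟨hy, ⟨ν, t⟩, hw, rfl⟩ k
  obtain rfl := (hp ν t).1 hy
  rw [← image_singleton, ← PC.van_comap_iff (he := he.continuous),
    hE'.van (singleton_subset_iff.2 hw)]
  have b1 := prod_bij ψ (fl_on h0 isClosed_singleton)
    (fl_on hJ (isClosed_singleton.preimage continuous_fst)) hψ hU0 isOpen_empty (empty_subset _)
    (B := fun j : Fin m => Metric.ball ((0 : Fin m → ℝ) j) ε) (fun _ => Metric.isOpen_ball)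
    (fun _ => (convex_ball _ _).ordConnected) fun _ => ⟨_, Metric.mem_ball_self hε⟩
  rw [empty_prod] at b1
  refine Sur.van ψ (fun _ h => h.1) (e27_pt _ _) (bij_rel ψ (empty_subset _)
    (singleton_subset_iff.2 hn) (empty_subset _) (singleton_subset_iff.2 hw) (fun _ h => h.1)
    (e27_pt _ _) (mapsTo_empty _ _) b1 (hψ (ν, t)) k).1 fun s hs => PC.Bd.of_N ?_
  exact PC.N_anti _ ((subset_univ _).trans (union_compl_self {ν}).symm.subset)
    ((PC.N_union _).2 ⟨hs.2.1, hs.1.2⟩)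
/-- `D := T \ U0`; the cocycles `σ e` are cocycles on `U \ D`; `slice_sp` in degrees `k, k + 1`
extends them (linearly) to `U`; `slice_cst` and density -/
theorem cst_ext (hK : K.Fl) {T U U0 : Set F} (hT : IsClosed T) (hU : IsOpen U) (hU0 : IsOpen U0)
    {m : ℕ} {k : ℤ} (hs : ∀ x ∈ T ∩ U, Slice K T m x)
    (hcos : ∀ W, IsOpen W → W ⊆ U → ∀ k' < k, K.Van k' W (W \ T))
    (hF : ∀ x ∈ T ∩ U, ∃ W ∈ 𝓝 x, FTO (W ∩ (T \ U0)) ((m : ℤ) - 2))
    (hd : T ∩ U ⊆ closure (T ∩ U0)) (h : (K.on T).CstOn k U0 (T ∩ U0)) :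
    (K.on T).CstOn k U (T ∩ U) := by
  obtain ⟨E, _, _, σ, h1, h2⟩ := h
  have hD : IsClosed (T \ U0) := hT.sdiff hU0
  have hv : (K.on T).Van (k + 1) U (U \ (T \ U0)) := by
    rw [PC.van_on_iff, van_exc_open hK ((hU.sdiff hD).union hT.isOpen_compl) hU
      (union_subset_union_left _ sdiff_subset) subset_union_left fun y hy => by
        rcases hy with hy | hy
        exacts [Or.inr hy, Or.inl (Or.inr hy)]]
    convert slice_sp hK hT hU hD sdiff_subset hs hcos (fun x hx => hF x ⟨hx.1.1, hx.2⟩) (k + 1)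
      (by omega) using 1
    ext y
    exact ⟨fun h => ⟨h.1, fun h' => h.2.elim (fun h => h.2 h') fun h => h h'.1⟩,
      fun h => ⟨h.1, Or.inl h⟩⟩
  obtain ⟨τ, hτ⟩ := e27_lift (fun e s => (K.on T).Zc k U ∅ s ∧
      (K.on T).Bd k (U \ (T \ U0)) ∅ (σ e - s))
    ⟨PC.Zc.zero, PC.Bd.of_N (by rw [map_zero, sub_zero]; exact zero_mem _)⟩
    (fun e a e' a' g g' => ⟨g.1.add g'.1, by
      rw [map_add, add_sub_add_comm]; exact g.2.add g'.2⟩)
    (fun c e a g => ⟨g.1.smul c, by rw [map_smul, ← smul_sub]; exact g.2.smul c⟩)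
    fun e => sur_res (empty_subset _) sdiff_subset hv _ ⟨(h1 e).1, (h1 e).2.1,
      PC.N_anti _ (fun y hy => by
        by_contra h; exact hy.2 ⟨by_contra fun h' => h (Or.inr h'), fun h' => h (Or.inl h')⟩)
        ((PC.N_union _).2 ⟨(h1 e).2.2, PC.d_N _ (h1 e).1 (h1 e).1.2⟩)⟩
  refine ⟨E, inferInstance, inferInstance, τ, fun e => (hτ e).1, fun x hx => ?_⟩
  obtain ⟨W, hW, B, -, hWB, hBU, hB⟩ := slice_cst hK hT hU hx (hs x hx)
  obtain ⟨y, hyW, hy⟩ := mem_closure_iff_nhds.1 (hd hx) W hW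
  have hxW := mem_of_mem_nhds hW
  have hxB := singleton_subset_iff.2 (hWB hxW)
  have hyB := singleton_subset_iff.2 (hWB hyW)
  have hyb : ∀ e, (K.on T).Bd k {y} ∅ (σ e - τ e) := fun e => (hτ e).2.mono
    (singleton_subset_iff.2 ⟨hBU (hWB hyW), fun h => h.2 hy.2⟩) subset_rfl
  have hτB : ∀ e, (K.on T).Zc k B ∅ (τ e) := fun e => (hτ e).1.mono hBU subset_rfl
  refine ⟨fun e hb => (h2 y hy).1 e ?_, fun s hs => ?_⟩
  · have := (hyb e).add ((inj_res (empty_subset _) hxB (hB x ⟨hx.1, hxW⟩ k) _ (hτB e) hb).mono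
      hyB subset_rfl)
    rwa [sub_add_cancel] at this
  · obtain ⟨s1, g1, g2⟩ := sur_res (empty_subset _) hxB (hB x ⟨hx.1, hxW⟩ (k + 1)) s hs
    obtain ⟨e, g3⟩ := (h2 y hy).2 s1 (g1.mono hyB subset_rfl)
    have g4 := g3.add (hyb e)
    rw [sub_add_sub_cancel] at g4
    have := g2.add ((inj_res (empty_subset _) hyB (hB y ⟨hy.1, hyW⟩ k) _ (g1.sub (hτB e)) g4).mono
      hxB subset_rfl)
    exact ⟨e, by rwa [LinearMap.id_apply, sub_add_sub_cancel] at this⟩

end C73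
end
end

section
/-! SPLIT: auxiliary lemmas (helper80). -/

open Set Filter Topology TopologicalSpace

noncomputable section
namespace C73

variable {F : Type} [TopologicalSpace F]

theorem h80_closed {st : F → ℕ} {n : ℕ} (hl : Lsc st n) (d : ℕ) : IsClosed {y | st y ≤ d} := by
  have := (hl.1 (d + 1)).isClosed_compl
  convert this using 1
  ext y; simp only [mem_ofPred_eq, Order.add_one_le_iff, mem_compl_iff, not_lt]

/-- acyclicity from support / cosupport vanishing, by descending induction on the strata -/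
theorem h80_acy {C : PC F} (hC : C.Fl) {st : F → ℕ} {n : ℕ} (hl : Lsc st n) {d0 : ℕ}
    (h : ∀ x, d0 ≤ st x → ∀ k, C.Van k {x} ∅ ∨ (C.on {y | st y ≤ st x}).Van k {x} ∅) (x : F)
    (hx0 : d0 ≤ st x) (k : ℤ) : C.Van k {x} ∅ := by
  have : ∀ m x, d0 ≤ st x → n < st x + m → ∀ k, C.Van k {x} ∅ := fun m => by
    induction m with
    | zero => exact fun x _ hx => absurd (hl.2 x) (by omega)
    | succ m ih =>
      intro x h0 hx k
      refine (h x h0 k).elim id fun h' s hs => ?_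
      obtain ⟨U, u1, u2, u3⟩ := hs.nhds
      have o := (h80_closed hl (st x)).isOpen_compl
      obtain ⟨t, t1, -, t2⟩ := acy_open hC (u1.inter o) k (fun y hy j _ => ih y (by
        have : ¬ st y ≤ st x := hy.2
        omega) (by
        have : ¬ st y ≤ st x := hy.2
        omega) j) k le_rfl s (u3.mono inter_subset_left subset_rfl)
      have g := (PC.Zc.d (C := {x}) t1 (C.N_empty t))
      obtain ⟨a, a1, a2, a3⟩ := exc_open hC u1 o (sub_mem hs.1 g.1) t2
      have a4 : a ∈ C.N {x} := C.N_anti u2 a2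
      obtain ⟨u, v1, -, v2⟩ := h' (s - C.d t - a) ⟨⟨sub_mem (sub_mem hs.1 g.1) a1, a3⟩,
        PC.N_empty _ _, by
          show C.d (s - C.d t - a) ∈ C.N {x}
          rw [map_sub]; exact sub_mem (hs.sub g).2.2 (C.d_N a1 a4)⟩
      refine ⟨t + (show C.A from u), add_mem t1 v1.1, C.N_empty _, ?_⟩
      have v3 : s - C.d t - a - C.d u ∈ C.N {x} := v2
      convert add_mem v3 a4 using 1
      rw [map_add]; abel
  exact this (n + 1) x hx0 (by omega) k

theorem h80_pi_N {κ : Type} [Finite κ] {I : κ → PC F} {C : Set F} {s : (piPC I).A} :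
    s ∈ (piPC I).N C ↔ ∀ a, s a ∈ (I a).N C := disjoint_iUnion_left

theorem h80_pi_zc {κ : Type} [Finite κ] {I : κ → PC F} {C C' : Set F} {k : ℤ} {s : (piPC I).A} :
    (piPC I).Zc k C C' s ↔ ∀ a, (I a).Zc k C C' (s a) :=
  ⟨fun h a => ⟨h.1 a trivial, h80_pi_N.1 h.2.1 a, h80_pi_N.1 h.2.2 a⟩, fun h =>
    ⟨fun a _ => (h a).1, h80_pi_N.2 fun a => (h a).2.1, h80_pi_N.2 fun a => (h a).2.2⟩⟩

theorem h80_pi_bd {κ : Type} [Finite κ] {I : κ → PC F} {C C' : Set F} {k : ℤ} {s : (piPC I).A} :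
    (piPC I).Bd k C C' s ↔ ∀ a, (I a).Bd k C C' (s a) := by
  refine ⟨fun ⟨t, a1, a2, a3⟩ a => ⟨t a, a1 a trivial, h80_pi_N.1 a2 a, h80_pi_N.1 a3 a⟩,
    fun h => ?_⟩
  choose t t1 t2 t3 using h
  exact ⟨t, fun a _ => t1 a, h80_pi_N.2 t2, h80_pi_N.2 t3⟩

theorem h80_pi_van {κ : Type} [Finite κ] {I : κ → PC F} {C C' : Set F} {k : ℤ}
    (h : ∀ a, (I a).Van k C C') : (piPC I).Van k C C' := fun _ hs =>
  h80_pi_bd.2 fun a => h a _ (h80_pi_zc.1 hs a)

/-- componentwise morphism -/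
def h80_piHom {κ : Type} [Finite κ] {I J : κ → PC F} (φ : ∀ a, Hom id (I a) (J a)) :
    Hom id (piPC I) (piPC J) where
  f := LinearMap.pi fun a => (φ a).f ∘ₗ LinearMap.proj a
  gr h a _ := (φ a).gr (h a trivial)
  supp h := iUnion_mono fun a => (φ a).supp (h a trivial)
  comm h := iUnion_eq_empty.2 fun a => (φ a).comm (h a trivial)

theorem h80_pi_sur {κ : Type} [Finite κ] {I J : κ → PC F} (φ : ∀ a, Hom id (I a) (J a)) {k : ℤ}
    {C C' : Set F} (h : ∀ a, Sur (I a) (J a) (φ a).f k C C' C C') :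
    Sur _ _ (h80_piHom φ).f k C C' C C' := fun s hs => by
  choose t t1 t2 using fun a => h a _ (h80_pi_zc.1 hs a)
  exact ⟨t, h80_pi_zc.2 t1, h80_pi_bd.2 t2⟩

theorem h80_pi_inj {κ : Type} [Finite κ] {I J : κ → PC F} (φ : ∀ a, Hom id (I a) (J a)) {k : ℤ}
    {C C' : Set F} (h : ∀ a, Inj (I a) (J a) (φ a).f k C C' C C') :
    Inj _ _ (h80_piHom φ).f k C C' C C' := fun _ hs hb =>
  h80_pi_bd.2 fun a => h a _ (h80_pi_zc.1 hs a) (h80_pi_bd.1 hb a)

section
variable {T : Type} [TopologicalSpace T] {i : T → F}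

/-- direct image of a morphism -/
def h80_pushHom {I J : PC T} (φ : Hom id I J) (i : T → F) : Hom id (I.push i) (J.push i) :=
  ⟨φ.f, φ.gr, fun h => closure_mono (image_mono (φ.supp h)),
    fun h => (congrArg (fun S => closure (i '' S)) (φ.comm h)).trans (by simp only [image_empty, isClosed_empty, IsClosed.closure_eq])⟩

theorem h80_push_zc (hi : IsClosedMap i) {I : PC T} {C C' : Set F} {k : ℤ} {s : I.A} :
    (I.push i).Zc k C C' s ↔ I.Zc k (i ⁻¹' C) (i ⁻¹' C') s :=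
  and_congr Iff.rfl (and_congr (PC.N_push_closed hi) (PC.N_push_closed hi))

theorem h80_push_bd (hi : IsClosedMap i) {I : PC T} {C C' : Set F} {k : ℤ} {s : I.A} :
    (I.push i).Bd k C C' s ↔ I.Bd k (i ⁻¹' C) (i ⁻¹' C') s :=
  exists_congr fun _ => and_congr Iff.rfl (and_congr (PC.N_push_closed hi) (PC.N_push_closed hi))

theorem h80_push_sur (hi : IsClosedMap i) {I J : PC T} (φ : Hom id I J) {C C' : Set F} {k : ℤ}
    (h : Sur I J φ.f k (i ⁻¹' C) (i ⁻¹' C') (i ⁻¹' C) (i ⁻¹' C')) :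
    Sur _ _ (h80_pushHom φ i).f k C C' C C' := fun s hs =>
  let ⟨t, t1, t2⟩ := h s ((h80_push_zc hi).1 hs); ⟨t, (h80_push_zc hi).2 t1, (h80_push_bd hi).2 t2⟩

theorem h80_push_inj (hi : IsClosedMap i) {I J : PC T} (φ : Hom id I J) {C C' : Set F} {k : ℤ}
    (h : Inj I J φ.f k (i ⁻¹' C) (i ⁻¹' C') (i ⁻¹' C) (i ⁻¹' C')) :
    Inj _ _ (h80_pushHom φ i).f k C C' C C' := fun s hs hb =>
  (h80_push_bd hi).2 (h s ((h80_push_zc hi).1 hs) ((h80_push_bd hi).1 hb))

theorem h80_push_cart (hi : IsClosedEmbedding i) {I J : PC T} (φ : Hom id I J) (h : φ.Cart) :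
    (h80_pushHom φ i).Cart := fun x k => by
  by_cases hx : x ∈ range i
  · obtain ⟨y, rfl⟩ := hx
    have e : i ⁻¹' {i y} = {y} := by ext; simp [hi.injective.eq_iff]
    exact ⟨h80_push_sur hi.isClosedMap φ (by rw [id, e]; exact (h y k).1),
      h80_push_inj hi.isClosedMap φ (by rw [id, e]; exact (h y k).2)⟩
  · have e : i ⁻¹' {x} = ∅ := eq_empty_of_forall_notMem fun y hy => hx ⟨y, hy⟩
    exact ⟨h80_push_sur hi.isClosedMap φ (by
        rw [id, e]; exact sur_of_van (PC.van_self _ (empty_subset _))),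
      h80_push_inj hi.isClosedMap φ (by
        rw [id, e]; exact inj_of_van (PC.van_self _ (empty_subset _)))⟩
end

theorem h80_god_sq {I J : PC F} (φ : Hom id I J) :
    ((godMap continuous_id φ).comp (godU id continuous_id I)).f =
      ((godU id continuous_id J).comp φ).f := by
  refine LinearMap.ext fun a => funext fun l => ?_
  show φ.f (uL F a (l.map id)) = uL F (φ.f a) l
  by_cases h : l.length = 1 <;> simp [uL_apply, h]

theorem h80_cst_supp {T : Type} [TopologicalSpace T] {n : ℤ} {c : ℚ} (h : c ≠ 0) :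
    (cstPC T ℚ n).supp c = univ := if_neg h

open Classical in
/-- the morphism given by cocycles supported on closed subspaces -/
def h80_cocHom {κ : Type} [Fintype κ] {K : PC F} {T : κ → Type} [∀ j, TopologicalSpace (T j)]
    (i : ∀ j, T j → F) (d : κ → ℤ) (z : κ → K.A)
    (hz : ∀ j, K.Zc (-d j) univ (range (i j))ᶜ (z j)) :
    Hom id (piPC fun j => (cstPC (T j) ℚ (d j)).push (i j)) K where
  f := ∑ j, (LinearMap.toSpanSingleton ℚ K.A (z j)) ∘ₗ LinearMap.proj j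
  gr {k s} h := by
    rw [LinearMap.sum_apply]
    refine sum_mem fun j _ => ?_
    have h1 : (show ℚ from s j) ∈ (if k = -d j then ⊤ else ⊥ : Submodule ℚ ℚ) := h j trivial
    show (show ℚ from s j) • z j ∈ _
    split_ifs at h1 with h2
    · exact h2 ▸ Submodule.smul_mem _ _ (hz j).1
    · rw [(Submodule.mem_bot ℚ).1 h1, zero_smul]; exact zero_mem _
  supp {k s} _ x hx := by
    by_contra h
    refine K.N_singleton.1 ?_ hx
    rw [LinearMap.sum_apply]
    refine sum_mem fun j _ => ?_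
    show (show ℚ from s j) • z j ∈ _
    by_cases h0 : (show ℚ from s j) = 0
    · rw [h0, zero_smul]; exact zero_mem _
    · refine Submodule.smul_mem _ _ (K.N_anti (singleton_subset_iff.2 ?_) (hz j).2.1)
      rintro ⟨y, rfl⟩
      refine h (mem_iUnion.2 ⟨j, subset_closure ⟨y, ?_, rfl⟩⟩)
      exact (h80_cst_supp h0).ge (mem_univ y)
  comm {k s} _ := by
    refine K.N_univ.1 (sub_mem ?_ ?_)
    · rw [show (piPC fun j => (cstPC (T j) ℚ (d j)).push (i j)).d s = 0 from rfl, map_zero]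
      exact zero_mem _
    · rw [LinearMap.sum_apply, map_sum]
      refine sum_mem fun j _ => ?_
      show K.d ((show ℚ from s j) • z j) ∈ _
      rw [map_smul]; exact Submodule.smul_mem _ _ (hz j).2.2

theorem h80_cocHom_f {κ : Type} [Fintype κ] {K : PC F} {T : κ → Type} [∀ j, TopologicalSpace (T j)]
    (i : ∀ j, T j → F) (d : κ → ℤ) (z : κ → K.A)
    (hz : ∀ j, K.Zc (-d j) univ (range (i j))ᶜ (z j)) (c : κ → ℚ) :
    (h80_cocHom i d z hz).f c = ∑ j, c j • z j := by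
  classical
  exact LinearMap.sum_apply _ _ _

theorem h80_cst_zc {T : Type} [TopologicalSpace T] {n k : ℤ} {D D' : Set T} {c : ℚ} :
    (cstPC T ℚ n).Zc k D D' c ↔ c = 0 ∨ (k = -n ∧ D' = ∅) := by
  by_cases h : c = 0
  · exact iff_of_true (h ▸ PC.Zc.zero) (Or.inl h)
  refine ⟨fun hz => Or.inr ⟨by_contra fun hk => h ?_, ?_⟩, fun h' => ?_⟩
  · have : c ∈ (if k = -n then ⊤ else ⊥ : Submodule ℚ ℚ) := hz.1
    rwa [if_neg hk] at this
  · have : Disjoint ((cstPC T ℚ n).supp c) D' := hz.2.1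
    rwa [h80_cst_supp h, univ_disjoint] at this
  · obtain ⟨rfl, rfl⟩ := h'.resolve_left h
    refine ⟨?_, PC.N_empty _ _, zero_mem ((cstPC T ℚ n).N D)⟩
    show c ∈ (if -n = -n then ⊤ else ⊥ : Submodule ℚ ℚ)
    rw [if_pos rfl]; trivial

theorem h80_split0 [MetrizableSpace F] {K : PC F} (hK : K.Fl) {st : F → ℕ} {n : ℕ} (hl : Lsc st n)
    {κ : Type} [Fintype κ] {T : κ → Type} [∀ j, TopologicalSpace (T j)] {i : ∀ j, T j → F}
    (hi : ∀ j, IsClosedEmbedding (i j)) {d : κ → ℕ} (hr : ∀ j, range (i j) = {y | st y ≤ d j})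
    (hlink : ∀ j y, st (i j y) < d j → ∀ k ≤ -(st (i j y) : ℤ) + 1,
      ((resC (T j) ℚ (d j)).on (i j ⁻¹' {x | st x ≤ st (i j y)})).Van k {y} ∅)
    (hsup : ∀ x k, -(st x : ℤ) < k → K.Van k {x} ∅)
    (hcos : ∀ x, ∀ k < -(st x : ℤ), (K.on {y | st y ≤ st x}).Van k {x} ∅) {z : κ → K.A}
    (hz : ∀ j, K.Zc (-(d j : ℤ)) univ (range (i j))ᶜ (z j))
    {d0 : ℕ} (hsur : ∀ x, d0 ≤ st x → ∀ s, (K.on {y | st y ≤ st x}).Zc (-(st x : ℤ)) {x} ∅ s →
      ∃ c : κ → ℚ,
      (∀ j, d j ≠ st x → c j = 0) ∧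
        (K.on {y | st y ≤ st x}).Bd (-(st x : ℤ)) {x} ∅ ((show K.A from s) - ∑ j, c j • z j))
    (hinj : ∀ x, d0 ≤ st x → ∀ c : κ → ℚ, (∀ j, d j ≠ st x → c j = 0) →
      (K.on {y | st y ≤ st x}).Bd (-(st x : ℤ)) {x} ∅ (∑ j, c j • z j : K.A) → c = 0) :
    Eqv (K.loc {y | d0 ≤ st y})
      ((piPC fun j => (resC (T j) ℚ (d j)).push (i j)).loc {y | d0 ≤ st y}) := by
  let P0 := piPC fun j => (cstPC (T j) ℚ (d j)).push (i j)
  let P := piPC fun j => (resC (T j) ℚ (d j)).push (i j)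
  have hP : P.Fl := fl_pi fun j => fl_push (fl_resC _ _) (hi j).continuous
  let β : Hom id P0 P := h80_piHom fun j => h80_pushHom (godU id continuous_id _) (i j)
  let ψ : Hom id P0 K := h80_cocHom i (fun j => (d j : ℤ)) z hz
  have hβ : (godMap continuous_id β).Cart := fun x k =>
    ⟨godMap_sur _ β k x (h80_pi_sur _ fun j => (h80_push_cart (hi j) _ (godU_cart _ _ _) x k).1),
      godMap_inj _ β k x (h80_pi_inj _ fun j => (h80_push_cart (hi j) _ (godU_cart _ _ _) x k).2)⟩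
  have eP : Eqv (god id continuous_id P0) P :=
    (Eqv.of_hom _ (fl_god _ _ _) (fl_god _ _ _) hβ).trans (eqv_god hP).symm
  have pre : ∀ j y, i j ⁻¹' {i j y} = {y} := fun j y => by ext; simp [(hi j).injective.eq_iff]
  have pre0 : ∀ j x, x ∉ range (i j) → i j ⁻¹' {x} = ∅ := fun j x hx =>
    eq_empty_of_forall_notMem fun y hy => hx ⟨y, hy⟩
  have le : ∀ j y, st (i j y) ≤ d j := fun j y => by
    have : i j y ∈ range (i j) := ⟨y, rfl⟩
    rwa [hr] at this
  refine ((eqv_god hK).loc (hl.1 d0)).trans ((eqv_loc_of_cartOn (godMap continuous_id ψ)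
    (fl_god _ _ _) (fl_god _ _ _) (hl.1 d0) ?_).symm.trans (eP.loc (hl.1 d0)))
  suffices h : ∀ x, d0 ≤ st x → ∀ k, (godMap continuous_id ψ).cone.Van k {x} ∅ from fun x hx k =>
    ⟨((van_cone_iff _ (empty_subset _)).1 (h x hx k)).1, by
      simpa using ((van_cone_iff _ (empty_subset _)).1 (h x hx (k - 1))).2⟩
  refine h80_acy (fl_cone _ (fl_god _ _ _) (fl_god _ _ _)) hl fun x hx0 k => ?_
  rcases lt_or_ge (-(st x : ℤ)) k with hk | hk
  · refine Or.inl (van_of_cone _ (empty_subset _) ((eP.van_pt x).2 (h80_pi_van fun j => ?_))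
      (((eqv_god hK).van_pt x).1 (hsup x k hk)))
    rw [PC.van_push_closed (hi j).isClosedMap, preimage_empty]
    by_cases hx : x ∈ range (i j)
    · obtain ⟨y, rfl⟩ := hx
      rw [pre]; exact resC_van _ _ _ (by have := le j y; omega)
    · rw [pre0 j x hx]; exact PC.van_self _ subset_rfl
  right
  rw [PC.van_on_iff]
  set C := {x} ∪ {y | st y ≤ st x}ᶜ with hC
  set C' := ∅ ∪ {y | st y ≤ st x}ᶜ with hC'
  have hs : C' ⊆ C := union_subset_union_left _ (empty_subset _)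
  have m := mapsTo_id C
  have m' := mapsTo_id C'
  have bK := qis_set (godU id continuous_id K) hK (fl_god _ _ _) hs fun y _ => godU_cart _ _ _ y
  have bP := qis_set (godU id continuous_id P) hP (fl_god _ _ _) hs fun y _ => godU_cart _ _ _ y
  have bβ := qis_set _ (fl_god _ _ _) (fl_god _ _ _) hs fun y _ => hβ y
  have c1 : ∀ j, d j ≤ st x → i j ⁻¹' C' = ∅ ∧ i j ⁻¹' C = i j ⁻¹' {x} := fun j hj => by
    have : i j ⁻¹' {y | st y ≤ st x}ᶜ = ∅ :=
      eq_empty_of_forall_notMem fun y hy => hy ((le j y).trans hj)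
    rw [hC, hC', preimage_union, preimage_union, this]; simp
  have vP : ∀ j k, k ≤ -(st x : ℤ) + 1 → (k ≠ -(st x : ℤ) ∨ d j ≠ st x) →
      (resC (T j) ℚ (d j)).Van k (i j ⁻¹' C) (i j ⁻¹' C') := fun j k hk hk' => by
    rcases lt_trichotomy (d j) (st x) with h | h | h
    · rw [(c1 j h.le).2, pre0 j x (by rw [hr]; simpa using h)]
      exact PC.van_self _ (empty_subset _)
    · obtain ⟨y, rfl⟩ : x ∈ range (i j) := by rw [hr]; exact h.ge
      rw [(c1 j h.le).1, (c1 j h.le).2, pre]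
      exact resC_van _ _ _ (by omega)
    · obtain ⟨y, rfl⟩ : x ∈ range (i j) := by rw [hr]; exact h.le
      have := PC.van_on_iff.1 (hlink j y h k hk)
      rwa [hC, hC', preimage_union, preimage_union, pre, preimage_empty, preimage_compl]
  have zc0 : ∀ c : κ → ℚ, P0.Zc (-(st x : ℤ)) C C' c ↔ ∀ j, d j ≠ st x → c j = 0 := fun c => by
    rw [h80_pi_zc]
    refine forall_congr' fun j => ?_
    rw [h80_push_zc (hi j).isClosedMap, h80_cst_zc]
    refine ⟨fun h hj => h.elim id fun h => absurd h.1 (by omega), fun h => ?_⟩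
    by_cases hj : d j = st x
    exacts [Or.inr ⟨by rw [hj], (c1 j hj.le).1⟩, Or.inl (h hj)]
  have nψ : ∀ c : κ → ℚ, (∀ j, d j ≠ st x → c j = 0) → ∑ j, c j • z j ∈ K.N {y | st y ≤ st x}ᶜ :=
    fun c hc => by
      have := (ψ.map_zc m m' ((zc0 c).2 hc)).2.1
      rwa [h80_cocHom_f, hC', empty_union] at this
  refine (van_cone_iff _ hs).2 ⟨?_, ?_⟩
  · rcases hk.eq_or_lt with rfl | hk
    · refine Sur.of_comp (godU id continuous_id P0) _ m m' m m' ?_
      rw [h80_god_sq]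
      refine Sur.comp ψ _ m m' m m' (fun s hs => ?_) (bK _).1
      obtain ⟨c, c1, c2⟩ := hsur x hx0 s (PC.zc_on_iff.2 hs)
      refine ⟨c, (zc0 c).2 c1, ?_⟩
      rw [h80_cocHom_f]
      exact (PC.bd_on_iff (sub_mem (K.N_anti subset_union_right hs.2.1) (nψ c c1))).1 c2
    · exact sur_of_van (((eqv_god hK).van hs).1 (PC.van_on_iff.1 (hcos x k hk)))
  · by_cases hk' : k + 1 = -(st x : ℤ)
    · rw [hk']
      refine Inj.of_comp_sur (godU id continuous_id P0) _ m m' m m' ?_ ?_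
      · rw [h80_god_sq]
        refine Inj.comp ψ _ m m' m m' (fun c hc hb => ?_) (bK _).2
        rw [h80_cocHom_f] at hb
        have c1 := (zc0 c).1 hc
        rw [hinj x hx0 c c1 ((PC.bd_on_iff (nψ c c1)).2 hb)]
        exact PC.Bd.of_N (zero_mem _)
      · refine Sur.of_comp_inj _ (godMap continuous_id β) m m' m m' ?_ (bβ _).2
        rw [h80_god_sq]
        refine Sur.comp β _ m m' m m' (h80_pi_sur _ fun j => h80_push_sur (hi j).isClosedMap _ ?_)
          (bP _).1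
        by_cases hj : d j = st x
        · obtain ⟨y, rfl⟩ : x ∈ range (i j) := by rw [hr]; exact hj.ge
          rw [(c1 j hj.le).1, (c1 j hj.le).2, pre]
          exact (godU_cart _ _ _ y _).1
        · exact sur_of_van (vP j _ (by omega) (Or.inr hj))
    · refine inj_of_van ((eP.van hs).2 (h80_pi_van fun j => ?_))
      rw [PC.van_push_closed (hi j).isClosedMap]
      exact vP j _ (by omega) (Or.inl hk')

/-- extension over the lower strata -/
theorem h80_van_low {K : PC F} {st : F → ℕ} {n : ℕ} (hl : Lsc st n) (hev : ∀ x, Even (st x))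
    (hcos : ∀ (d : ℕ) V, IsOpen V → (∀ x ∈ V, d ≤ st x) → ∀ k < -(d : ℤ),
      K.Van k V {x ∈ V | d < st x}) {d : ℕ} (hd : Even d) {k : ℤ} (hk : k ≤ -(d : ℤ) + 1) :
    K.Van k univ {x | d ≤ st x} := by
  have : ∀ m ≤ d, K.Van k {x | d - m ≤ st x} {x | d ≤ st x} := fun m => by
    induction m with
    | zero => exact fun _ => PC.van_self _ subset_rfl
    | succ m ih =>
      intro hm
      refine PC.tri1 (C' := {x | d - m ≤ st x}) (fun x (hx : d ≤ st x) => show d - m ≤ st x by omega)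
        (fun x (hx : d - m ≤ st x) => show d - (m + 1) ≤ st x by omega) ?_ (ih (by omega))
      rcases Nat.eq_zero_or_pos m with rfl | h0
      · refine PC.van_self _ fun x (hx : d - (0 + 1) ≤ st x) => show d - 0 ≤ st x from ?_
        obtain ⟨a, ha⟩ := hev x
        obtain ⟨b, hb⟩ := hd
        omega
      · rw [show {x | d - m ≤ st x} = {x ∈ {x | d - (m + 1) ≤ st x} | d - (m + 1) < st x} from
          Set.ext fun x => show d - m ≤ st x ↔ d - (m + 1) ≤ st x ∧ d - (m + 1) < st x by omega]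
        exact hcos (d - (m + 1)) _ (hl.1 _) (fun _ h => h) k (by omega)
  simpa using this d le_rfl

/-- a basis of cocycles supported on one closed stratum -/
theorem h80_basis {K : PC F} {T V S : Set F} {k : ℤ} (hSV : S ⊆ V) (hV : Tᶜ ⊆ V)
    (hc : (K.on T).CstOn k V S) (hf : ∃ x ∈ S, (K.on T).FinD k {x} ∅)
    (hv : K.Van (k + 1) univ V) :
    ∃ (m : ℕ) (z : Fin m → K.A), (∀ j, K.Zc k univ Tᶜ (z j)) ∧ ∀ x ∈ S,
      (∀ s, (K.on T).Zc k {x} ∅ s → ∃ c : Fin m → ℚ,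
        (K.on T).Bd k {x} ∅ ((show K.A from s) - ∑ j, c j • z j)) ∧
      ∀ c : Fin m → ℚ, (K.on T).Bd k {x} ∅ (∑ j, c j • z j : K.A) → c = 0 := by
  obtain ⟨E, _, _, σ, h1, h2⟩ := hc
  obtain ⟨x0, hx0, m0, w, w1, w2⟩ := hf
  have : Module.Finite ℚ E := by
    choose e he using fun j => (h2 x0 hx0).2 (w j) (w1 j)
    refine Module.Finite.of_surjective (Fintype.linearCombination ℚ e) fun a => ?_
    obtain ⟨c, hc⟩ := w2 _ ((h1 a).mono (singleton_subset_iff.2 (hSV hx0)) subset_rfl)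
    refine ⟨c, (sub_eq_zero.1 ((h2 x0 hx0).1 _ ?_)).symm⟩
    convert hc.add (PC.Bd.sum Finset.univ fun j _ => (he j).smul (c j)) using 1
    simp only [Fintype.linearCombination_apply, map_sub, map_sum, map_smul, smul_sub, Finset.sum_sub_distrib, sub_add_sub_cancel]
  let b := Module.finBasis ℚ E
  have hv' : (K.on T).Van (k + 1) univ V := by
    rw [PC.van_on_iff, univ_union, union_eq_left.2 hV]; exact hv
  choose z z1 z2 using fun j => sur_res (empty_subset _) (subset_univ V) hv' (σ (b j)) (h1 _)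
  have key : ∀ c : Fin (Module.finrank ℚ E) → ℚ, ∀ x ∈ S,
      (K.on T).Bd k {x} ∅ (σ (b.equivFun.symm c) - ∑ j, c j • z j) := fun c x hx => by
    rw [Module.Basis.equivFun_symm_apply, map_sum, ← Finset.sum_sub_distrib]
    refine PC.Bd.sum _ fun j _ => ?_
    rw [map_smul, ← smul_sub]
    exact ((z2 j).mono (singleton_subset_iff.2 (hSV hx)) subset_rfl).smul _
  refine ⟨_, z, fun j => ⟨(z1 j).1.1, (z1 j).1.2, (z1 j).2.2⟩, fun x hx => ⟨fun s hs => ?_,
    fun c hc => ?_⟩⟩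
  · obtain ⟨e, he⟩ := (h2 x hx).2 s hs
    refine ⟨b.equivFun e, ?_⟩
    have := he.add (key (b.equivFun e) x hx)
    rwa [LinearEquiv.symm_apply_apply, sub_add_sub_cancel] at this
  · have := (key c x hx).add (show (K.on T).Bd k {x} ∅ (∑ j, c j • z j) from hc)
    rw [sub_add_cancel] at this
    exact b.equivFun.symm.map_eq_zero_iff.1 ((h2 x hx).1 _ this)

theorem h80_ax_resC {st : F → ℕ} {n : ℕ} (hl : Lsc st n) (hk : Link st) (z : F) :
    Eqv (resC {y | st y ≤ st z} ℚ (st z)) (mIC fun y : {y | st y ≤ st z} => st y) := by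
  have e : sSup (range fun y : {y | st y ≤ st z} => st y) = st z :=
    IsGreatest.csSup_eq ⟨⟨⟨z, le_rfl (a := st z)⟩, rfl⟩, by rintro _ ⟨y, rfl⟩; exact y.2⟩
  rw [mIC, e]
  refine uniq ⟨fun d => (hl.1 d).preimage continuous_subtype_val, fun y => y.2⟩ ⟨fl_resC _ _, ?_,
    fun x hx k hk => resC_van _ _ _ (by omega), fun d hd V hV h k hk' =>
      hk z d hd V hV h k (by omega)⟩
  obtain ⟨s0, -, h⟩ := resC_resAt (X := {y | st y ≤ st z}) (st z)
  exact ⟨s0, fun x _ => h x⟩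

/-- stalks of `Γ_T` from the cosupport condition on open sets -/
theorem h80_on_pt {K : PC F} (hK : K.Fl) {st : F → ℕ} {n : ℕ} (hl : Lsc st n) {x : F} {k : ℤ}
    (h : ∀ V, IsOpen V → (∀ y ∈ V, st x ≤ st y) → K.Van k V {y ∈ V | st x < st y}) :
    (K.on {y | st y ≤ st x}).Van k {x} ∅ :=
  van_on_pt hK (h80_closed hl _) fun U hU => ⟨interior U ∩ {y | st x ≤ st y},
    isOpen_interior.inter (hl.1 _), ⟨mem_interior_iff_mem_nhds.2 hU, le_rfl (a := st x)⟩,
    inter_subset_left.trans interior_subset, by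
      rw [show (interior U ∩ {y | st x ≤ st y}) \ {y | st y ≤ st x} =
        {y ∈ interior U ∩ {y | st x ≤ st y} | st x < st y} from
          Set.ext fun y => and_congr Iff.rfl (show ¬ st y ≤ st x ↔ _ from not_le)]
      exact h _ (isOpen_interior.inter (hl.1 _)) fun y hy => hy.2⟩

/-- SPLIT over the open set `d0 ≤ st` -/
theorem h80_split [MetrizableSpace F] {K : PC F} (hK : K.Fl) {st : F → ℕ} {n : ℕ} (hl : Lsc st n)
    (hev : ∀ x, Even (st x)) (hlink : Link st)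
    (hsup : ∀ x k, -(st x : ℤ) < k → K.Van k {x} ∅)
    (hcos : ∀ (d : ℕ) V, IsOpen V → (∀ x ∈ V, d ≤ st x) → ∀ k < -(d : ℤ),
      K.Van k V {x ∈ V | d < st x})
    (hc : ∀ x, (K.on {y | st y ≤ st x}).CstOn (-(st x : ℤ)) {y | st x ≤ st y} {y | st y = st x})
    (d0 : ℕ) (hf : ∀ x, d0 ≤ st x →
      ∃ x', st x' = st x ∧ (K.on {y | st y ≤ st x}).FinD (-(st x : ℤ)) {x'} ∅) :
    ∃ (m : ℕ) (z : Fin m → F), (∀ j, d0 ≤ st (z j)) ∧ Eqv (K.loc {y | d0 ≤ st y}) ((piPC fun j =>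
      (resC {y | st y ≤ st (z j)} ℚ (st (z j))).push Subtype.val).loc {y | d0 ≤ st y}) := by
  classical
  let R : Set ℕ := {d | d0 ≤ d ∧ ∃ x, st x = d}
  have fin : R.Finite := (finite_le_nat n).subset (by rintro _ ⟨-, x, rfl⟩; exact hl.2 x)
  have := fin.fintype
  let pt : R → F := fun d => d.2.2.choose
  have hpt : ∀ d, st (pt d) = d := fun d => d.2.2.choose_spec
  choose m z z1 z2 using fun d : R => h80_basis (K := K) (S := {y | st y = st (pt d)})
    (fun y hy => hy.ge) (fun y (hy : ¬ st y ≤ _) => (not_le.1 hy).le) (hc (pt d))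
    (hf (pt d) ((hpt d).symm ▸ d.2.1)) (h80_van_low hl hev hcos (hev _) le_rfl)
  let κ := Σ d : R, Fin (m d)
  have sum : ∀ (c : κ → ℚ) (d : R), (∀ j : κ, j.1 ≠ d → c j = 0) →
      ∑ j, c j • z j.1 j.2 = ∑ a, c ⟨d, a⟩ • z d a := fun c d h => by
    rw [Fintype.sum_sigma, Finset.sum_eq_single d (fun d' _ hd' => Finset.sum_eq_zero fun a _ => by
      rw [h _ hd', zero_smul]) (by simp only [Finset.mem_univ, not_true_eq_false, IsEmpty.forall_iff])]
  have ne : ∀ (j : κ) x (hx : d0 ≤ st x), st (pt j.1) ≠ st x ↔ j.1 ≠ ⟨st x, hx, x, rfl⟩ :=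
    fun j x hx => by
      rw [hpt]
      exact ⟨fun h h' => h (congrArg Subtype.val h'), fun h h' => h (Subtype.ext h')⟩
  let e := (Fintype.equivFin κ).symm
  refine ⟨_, fun j => pt (e j).1, fun j => (hpt _).symm ▸ (e j).1.2.1,
    h80_split0 hK hl (T := fun j => {y | st y ≤ st (pt (e j).1)})
    (d := fun j => st (pt (e j).1)) (z := fun j => z (e j).1 (e j).2)
    (fun j => (h80_closed hl _).isClosedEmbedding_subtypeVal) (fun j => Subtype.range_coe)
    (fun j y hy k hk => ?_) hsup (fun x k hk => h80_on_pt hK hl fun V hV h => hcos _ V hV h k hk)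
    (fun j => by rw [Subtype.range_coe]; exact z1 _ _) (fun x hx s hs => ?_)
    fun x hx c hc hb => ?_⟩
  · exact h80_on_pt (st := fun y : {y | st y ≤ st (pt (e j).1)} => st y) (fl_resC _ _)
      (hl.comp continuous_subtype_val) fun V hV h => hlink _ _ hy V hV h k hk
  · have := (z2 ⟨st x, hx, x, rfl⟩ x
      (show st x = st (pt _) from (hpt ⟨st x, hx, x, rfl⟩).symm)).1
    rw [hpt] at this
    obtain ⟨c, hc⟩ := this s hs
    let c' : κ → ℚ := fun j => if h : j.1 = ⟨st x, hx, x, rfl⟩ then c (h ▸ j.2) else 0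
    refine ⟨c' ∘ e, fun j hj => dif_neg ((ne _ x hx).1 hj), ?_⟩
    rw [show ∑ j, (c' ∘ e) j • z (e j).1 (e j).2 = ∑ j, c' j • z j.1 j.2 from
      e.sum_comp fun j => c' j • z j.1 j.2, sum c' ⟨st x, hx, x, rfl⟩ fun j hj => dif_neg hj]
    simp only [c', dif_pos]
    exact hc
  · have := (z2 ⟨st x, hx, x, rfl⟩ x
      (show st x = st (pt _) from (hpt ⟨st x, hx, x, rfl⟩).symm)).2
    rw [hpt] at this
    have h0 : ∀ j : κ, j.1 ≠ ⟨st x, hx, x, rfl⟩ → c (e.symm j) = 0 := fun j hj =>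
      hc _ (by rw [e.apply_symm_apply]; exact (ne j x hx).2 hj)
    rw [show ∑ j, c j • z (e j).1 (e j).2 = ∑ j, c (e.symm j) • z j.1 j.2 from by
      rw [← e.sum_comp]; simp only [Equiv.symm_apply_apply], sum _ _ h0] at hb
    funext j
    obtain ⟨⟨d, a⟩, rfl⟩ := e.symm.surjective j
    by_cases hd : d = ⟨st x, hx, x, rfl⟩
    · subst hd; exact congrFun (this _ hb) a
    · exact h0 _ hd

theorem h80_loc_N {I : PC F} {U : Set F} {y : F} {s : I.A} (h : s ∈ I.N {y}) :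
    s ∈ (I.loc U).N {y} :=
  let ⟨_, w1, w2, w3⟩ := PC.N_nhds _ h
  PC.N_anti _ w2 ((PC.N_loc_open w1).2 (I.N_anti inter_subset_left w3))

theorem h80_loc_N' {I : PC F} {U : Set F} {y : F} {s : I.A} (h : s ∈ I.N U) :
    s ∈ (I.loc U).N {y} :=
  PC.N_anti _ (subset_univ _) ((PC.N_loc_open isOpen_univ).2 (I.N_anti inter_subset_right h))

theorem h80_loc_exc {I : PC F} (hI : I.Fl) {U : Set F} (hU : IsOpen U) {y : F} {s : I.A} {k : ℤ}
    (hs : s ∈ I.gr k) (h : s ∈ (I.loc U).N {y}) : ∃ a ∈ I.gr k, a ∈ I.N {y} ∧ s - a ∈ I.N U :=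
  let ⟨_, w1, w2, w3⟩ := PC.N_nhds _ h
  let ⟨a, a1, a2, a3⟩ := exc_open hI w1 hU hs ((PC.N_loc_open w1).1 w3)
  ⟨a, a1, I.N_anti w2 a2, a3⟩

/-- punctured cohomology from the stalk and the local cohomology -/
theorem h80_loc_van {I : PC F} (hI : I.Fl) {T : Set F} (hT : IsClosed T) {y : F} {k : ℤ}
    (h1 : I.Van (k - 1) {y} ∅) (h2 : (I.on T).Van k {y} ∅) : (I.loc Tᶜ).Van (k - 1) {y} ∅ :=
  fun (t : I.A) ht => by
    have t1 : t ∈ I.gr (k - 1) := ht.1
    have g := PC.Zc.d (C := {y}) t1 (I.N_empty t)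
    obtain ⟨a, a1, a2, a3⟩ := h80_loc_exc hI hT.isOpen_compl g.1 ht.2.2
    obtain ⟨(u : I.A), u1, -, u2⟩ := h2 (I.d t - a) ⟨⟨sub_mem g.1 a1, a3⟩, PC.N_empty _ _, by
      show I.d (I.d t - a) ∈ I.N {y}
      rw [map_sub]; exact sub_mem g.2.2 (I.d_N a1 a2)⟩
    obtain ⟨r, r1, -, r2⟩ := h1 (t - u) ⟨sub_mem t1 u1.1, I.N_empty _, by
      have u3 : I.d t - a - I.d u ∈ I.N {y} := u2
      convert add_mem u3 a2 using 1
      rw [map_sub]; abel⟩
    refine ⟨r, r1, PC.N_empty _ _, ?_⟩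
    have e : t - I.d r = t - u - I.d r + u := by abel
    show (t - I.d r : I.A) ∈ (I.loc Tᶜ).N {y}
    rw [e]
    exact add_mem (h80_loc_N (U := Tᶜ) r2) (h80_loc_N' (y := y) u1.2)

theorem h80_loc_inj {I : PC F} (hI : I.Fl) {T : Set F} (hT : IsClosed T) {y : F} {k : ℤ}
    (h : (I.loc Tᶜ).Van (k - 1) {y} ∅) : Inj (I.on T) I LinearMap.id k {y} ∅ {y} ∅ :=
  fun (s : I.A) hs ⟨t, t1, _, t2⟩ => by
    have t3 : s - I.d t ∈ I.N {y} := t2
    obtain ⟨(r : I.A), r1, -, r2⟩ := h t ⟨t1, PC.N_empty _ _, by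
      have := sub_mem (h80_loc_N' (y := y) hs.1.2) (h80_loc_N (U := Tᶜ) t3)
      rwa [show s - (s - I.d t) = I.d t from sub_sub_cancel s (I.d t)] at this⟩
    have g := PC.Zc.d (C := {y}) (show r ∈ I.gr (k - 1 - 1) from r1) (I.N_empty r)
    obtain ⟨a, a1, a2, a3⟩ := h80_loc_exc hI hT.isOpen_compl (sub_mem t1 g.1) r2
    refine ⟨t - I.d r - a, ⟨sub_mem (sub_mem t1 g.1) a1, a3⟩, PC.N_empty _ _, ?_⟩
    show s - I.d (t - I.d r - a) ∈ I.N {y}
    convert add_mem (add_mem t3 g.2.2) (I.d_N a1 a2) using 1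
    rw [map_sub, map_sub]; abel

/-- finiteness of the local cohomology from finiteness of the stalk -/
theorem h80_fin [MetrizableSpace F] {K : PC F} (hK : K.Fl) {st : F → ℕ} {n : ℕ} (hl : Lsc st n)
    (hev : ∀ x, Even (st x)) (hlink : Link st)
    (hsup : ∀ x k, -(st x : ℤ) < k → K.Van k {x} ∅)
    (hcos : ∀ (d : ℕ) V, IsOpen V → (∀ x ∈ V, d ≤ st x) → ∀ k < -(d : ℤ),
      K.Van k V {x ∈ V | d < st x})
    (hc : ∀ x, (K.on {y | st y ≤ st x}).CstOn (-(st x : ℤ)) {y | st x ≤ st y} {y | st y = st x})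
    (hf : ∀ x, ∃ y, st y = st x ∧ K.FinD (-(st x : ℤ)) {y} ∅) (x : F) :
    ∃ y, st y = st x ∧ (K.on {y | st y ≤ st x}).FinD (-(st x : ℤ)) {y} ∅ := by
  have : ∀ m x, n < st x + m →
      ∃ y, st y = st x ∧ (K.on {y | st y ≤ st x}).FinD (-(st x : ℤ)) {y} ∅ := fun m => by
    induction m with
    | zero => exact fun x hx => absurd (hl.2 x) (by omega)
    | succ m ih =>
      intro x hx
      obtain ⟨y, hy, hy'⟩ := hf x
      obtain ⟨m', z, z1, z2⟩ := h80_split hK hl hev hlink hsup hcos hc (st x + 1)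
        fun x' h => ih x' (by omega)
      have e : {y | st x + 1 ≤ st y} = {y | st y ≤ st x}ᶜ :=
        Set.ext fun y => (show ¬ st y ≤ st x ↔ _ from not_le).symm
      rw [e] at z2
      have z3 : ∀ j, st x + 2 ≤ st (z j) := fun j => by
        obtain ⟨a, ha⟩ := hev x
        obtain ⟨b, hb⟩ := hev (z j)
        have := z1 j
        omega
      have cl := fun j => (h80_closed hl (st (z j))).isClosedEmbedding_subtypeVal.isClosedMap
      have ym : ∀ j, y ∈ {y | st y ≤ st (z j)} := fun j => by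
        have := z3 j
        show st y ≤ _
        omega
      have pre : ∀ j, (Subtype.val : {y | st y ≤ st (z j)} → F) ⁻¹' {y} = {⟨y, ym j⟩} :=
        fun j => by ext; simp [Subtype.ext_iff]
      refine ⟨y, hy, Inj.finD (J := K) (f := LinearMap.id) (fun s hs => ⟨hs.1.1, hs.2⟩)
        (h80_loc_inj hK (h80_closed hl _) ((z2.van_pt y).2 (h80_loc_van
          (fl_pi fun j => fl_push (fl_resC _ _) continuous_subtype_val) (h80_closed hl _)
          (h80_pi_van fun j => ?_) (PC.van_on_iff.2 (h80_pi_van fun j => ?_))))) hy'⟩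
      · rw [PC.van_push_closed (cl j), pre, preimage_empty]
        exact resC_van _ _ _ (by have := z3 j; omega)
      · rw [PC.van_push_closed (cl j), preimage_union, preimage_union, pre, preimage_empty,
          preimage_compl, ← hy]
        exact PC.van_on_iff.1 (h80_on_pt (st := fun y : {y | st y ≤ st (z j)} => st y)
          (x := ⟨y, ym j⟩) (fl_resC _ _) (hl.comp continuous_subtype_val) fun V hV h =>
            hlink _ _ (by have := z3 j; show st y < _; omega) V hV h _ (by show _ ≤ -(st y : ℤ) + 1; omega))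
  exact this (n + 1) x (by omega)

end C73
end
end

section
/-! E28: SPLIT. -/

open Set Filter Topology TopologicalSpace

noncomputable section
namespace C73

variable {F : Type} [TopologicalSpace F] [Nice F]

variable {K : PC F} {st : F → ℕ} {n : ℕ}
omit [Nice F] in
/-- go down one stratum at a time; odd strata are empty -/
theorem ext_glob (hK : K.Fl) (hs : Lsc st n) (hev : ∀ x, Even (st x))
    (hcos : ∀ (d : ℕ) W, IsOpen W → (∀ x ∈ W, d ≤ st x) → ∀ k < -(d : ℤ),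
      K.Van k W {x ∈ W | d < st x}) {d : ℕ} (hd : Even d) {s : (K.on {x | st x ≤ d}).A}
    (h : (K.on {x | st x ≤ d}).Zc (-(d : ℤ)) {x | d ≤ st x} ∅ s) :
    ∃ z, (K.on {x | st x ≤ d}).Zc (-(d : ℤ)) univ ∅ z ∧
      (K.on {x | st x ≤ d}).Bd (-(d : ℤ)) {x | d ≤ st x} ∅ (s - z) := by
  have _ := hK
  refine sur_res (empty_subset _) (subset_univ _) ?_ s h
  rw [PC.van_on_iff, univ_union, union_eq_left.2 (show {x | st x ≤ d}ᶜ ⊆ {x | d ≤ st x} from
    fun y (hy : ¬ st y ≤ d) => (not_le.1 hy).le)]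
  exact h80_van_low hs hev hcos hd le_rfl
omit [Nice F] in
theorem ax_resC (hlink : Link st) (z : F) :
    Ax (resC {y | st y ≤ st z} ℚ (st z)) (fun y => st y) (st z) := by
  refine ⟨fl_resC _ _, ?_, fun x hx k hk => resC_van _ _ _ (by omega), fun d hd V hV h k hk' =>
      hlink z d hd V hV h k (by omega)⟩
  obtain ⟨s0, -, h⟩ := resC_resAt (X := {y | st y ≤ st z}) (st z)
  exact ⟨s0, fun x _ => h x⟩
omit [Nice F] in
/-- `uniq`; `sSup (range _) = st z` -/
theorem eqv_resC_mIC (hs : Lsc st n) (hlink : Link st) (z : F) :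
    Eqv (resC {y | st y ≤ st z} ℚ (st z)) (mIC fun y : {y | st y ≤ st z} => st y) :=
  h80_ax_resC hs hlink z
/-- SPLIT -/
theorem split (hK : K.Fl) (hs : Lsc st n) (hev : ∀ x, Even (st x)) (hlink : Link st)
    (hsup : ∀ x, ∀ k, -(st x : ℤ) < k → K.Van k {x} ∅)
    (hcos : ∀ (d : ℕ) W, IsOpen W → (∀ x ∈ W, d ≤ st x) → ∀ k < -(d : ℤ),
      K.Van k W {x ∈ W | d < st x})
    (hcst : ∀ d : ℕ, (K.on {x | st x ≤ d}).CstOn (-(d : ℤ)) {x | d ≤ st x} {x | st x = d})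
    (hfin : ∀ x, ∃ y, st y = st x ∧ K.FinD (-(st x : ℤ)) {y} ∅) :
    ∃ (m : ℕ) (z : Fin m → F), Eqv K (piPC fun a =>
      (resC {y | st y ≤ st (z a)} ℚ (st (z a))).push (Subtype.val : {y | st y ≤ st (z a)} → F)) := by
  obtain ⟨m, z, -, h⟩ := h80_split hK hs hev hlink hsup hcos (fun x => hcst _) 0 fun x _ =>
    h80_fin hK hs hev hlink hsup hcos (fun x => hcst _) hfin x
  rw [show {y | 0 ≤ st y} = univ from eq_univ_of_forall fun y => Nat.zero_le _] at h
  exact ⟨m, z, (eqv_loc_univ hK).trans (h.trans (eqv_loc_univ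
    (fl_pi fun j => fl_push (fl_resC _ _) continuous_subtype_val)).symm)⟩

end C73
end
end

section
/-! E29: the abstract theorem. -/

open Set Filter Topology TopologicalSpace

noncomputable section
namespace C73

variable {X V F : Type} [TopologicalSpace X] [Nice X] [TopologicalSpace V] [Nice V]
  [TopologicalSpace F] [Nice F]

/-- `K := (I.on {rp = 0}).comap j`. support: `good_sup` on `S0`, `slice_van`; cosupport: `phi_cos`;
constancy: `cst_of_glob`, `cst_ext` (empty strata: `cstOn_of_van`); finiteness: `good_fin`; `split`,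
`eqv_resC_mIC`, `Eqv.push`, `Eqv.pi`. -/
theorem core (H : Hyp X V) {dm : X → ℕ} {n : ℕ} (hl : Lsc dm n) (hρ : ∀ t x, dm (H.ρ t x) = dm x)
    (hch : ∀ x, Chart dm x) {I : PC X} (hI : Ax I dm n) {j : F → X} (hj : IsEmbedding j)
    (hjr : ∀ x, x ∈ range j ↔ H.rp x = 0 ∧ H.rm x = 0) {st : F → ℕ} {n' : ℕ} (hs : Lsc st n')
    (hev : ∀ x, Even (st x)) (hlink : Link st) (S0 : Set F)
    (hden : ∀ x, x ∈ closure {y ∈ S0 | st y = st x})
    (hgood : ∀ x ∈ S0, Good H dm n (j x) (st x))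
    (hcos : ∀ d r : ℕ, FTO {z | H.rp z = 0 ∧ dm z ≤ r ∧ ∃ x, st x ≤ d ∧ H.v z = H.v (j x)} (r + d))
    (hloc : ∀ x, WChart H dm j {y | st y ≤ st x} (2 * st x) x ∧
      ∃ W ∈ 𝓝 x, FTO (W ∩ ({y | st y ≤ st x} \ S0)) (2 * (st x : ℤ) - 2))
    (hglob : ∀ x, ∃ U, IsOpen U ∧ Proj H dm j {y | st y ≤ st x} U ∧
      {y | st y ≤ st x} ∩ U = {y ∈ S0 | st y = st x}) :
    ∃ (m : ℕ) (z : Fin m → F), Eqv ((I.on {y | H.rp y = 0}).comap j hj.continuous)
      (piPC fun a => (mIC fun y : {y | st y ≤ st (z a)} => st y).push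
        (Subtype.val : {y | st y ≤ st (z a)} → F)) := by
  have hZ : IsClosed {y | H.rp y = 0} := isClosed_eq H.rp_cont continuous_const
  have hK : ((I.on {y | H.rp y = 0}).comap j hj.continuous).Fl := fl_comap (fl_on hI.fl hZ) hj
  have hfix : ∀ x, H.rp (j x) = 0 ∧ H.rm (j x) = 0 := fun x => (hjr _).1 ⟨x, rfl⟩
  have hsl := fun x => slice_of_wchart H hl hI hj hjr (hloc x).1
  have hcos' : ∀ (d : ℕ) W, IsOpen W → (∀ x ∈ W, d ≤ st x) → ∀ k < -(d : ℤ),
      ((I.on {y | H.rp y = 0}).comap j hj.continuous).Van k W {x ∈ W | d < st x} :=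
    fun d W hW _ => phi_cos H hl hρ hch hI hj hjr hW (hW.inter (hs.1 (d + 1))) (fun _ h => h.1)
      fun r => (hcos d r).mono (fun _ ⟨h1, h2, x, hx, h3⟩ =>
        ⟨h1, h2, x, not_lt.1 fun h => hx.2 ⟨hx.1, h⟩, h3⟩) le_rfl
  refine (split hK hs hev hlink (fun x k hk => ?_) hcos' (fun d => ?_) (fun x => ?_)).imp
    fun m h => h.imp fun z h => h.trans
      (Eqv.pi (fun a => fl_push (fl_resC _ _) continuous_subtype_val)
        fun a => (eqv_resC_mIC hs hlink (z a)).push continuous_subtype_val)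
  · refine slice_van hK (hsl x) (fun y hy => hy.2.le) (hden x) fun y hy => ?_
    rw [PC.van_comap_iff, image_singleton, image_empty]
    exact good_sup H hl hρ hI (hfix y) (hgood y hy.1) (hy.2 ▸ hk)
  · by_cases hd : ∃ x0, st x0 = d
    · obtain ⟨x0, rfl⟩ := hd
      obtain ⟨U0, hU0, hp, he⟩ := hglob x0
      have hT : IsClosed {y | st y ≤ st x0} := by
        rw [← isOpen_compl_iff]
        convert hs.1 (st x0 + 1) using 1
        ext y
        simp only [mem_compl_iff, mem_setOf_eq, not_le, Nat.succ_le_iff]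
      have hTU : {y | st y ≤ st x0} ∩ {y | st x0 ≤ st y} = {y | st y = st x0} :=
        Set.ext fun y => (le_antisymm_iff (a := st y) (b := st x0)).symm
      have hne : ({y | st y ≤ st x0} ∩ U0).Nonempty := he ▸ closure_nonempty_iff.1 ⟨x0, hden x0⟩
      have hx0 : ∀ x ∈ {y | st y ≤ st x0} ∩ {y | st x0 ≤ st y}, st x = st x0 := fun x hx => hTU.le hx
      rw [← hTU]
      refine cst_ext hK hT (hs.1 (st x0)) hU0 (m := 2 * st x0) (k := -(st x0 : ℤ))
        (fun x hx => ?_) (fun W hW hWU k hk => ?_) (fun x hx => ?_) (fun x hx => ?_)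
        (cst_of_glob hK hT hU0 (glob_of_proj H hl hI hj hjr hU0 hne hp) _)
      · rw [← hx0 x hx]
        exact hsl x
      · convert hcos' _ W hW hWU k hk using 1
        ext y
        simp only [mem_diff, mem_setOf_eq, not_le]
      · obtain ⟨W, hW, hF⟩ := (hloc x).2
        rw [hx0 x hx] at hF
        refine ⟨_, inter_mem hW ((hs.1 (st x0)).mem_nhds hx.2), hF.mono (fun y hy =>
          ⟨hy.1.1, hy.2.1, fun h0 => hy.2.2 ?_⟩) (by push_cast; exact le_rfl)⟩
        exact (he.ge ⟨h0, hx0 y ⟨hy.2.1, hy.1.2⟩⟩).2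
      · rw [he, ← hx0 x hx]
        exact hden x
    · exact ⟨PUnit, inferInstance, inferInstance, 0, fun _ => PC.Zc.zero,
        fun x hx => absurd ⟨x, hx⟩ hd⟩
  · obtain ⟨y, hy⟩ := closure_nonempty_iff.1 ⟨x, hden x⟩
    obtain ⟨k, w, h1, h2⟩ := good_fin H hl hρ hI (hfix y) (hgood y hy.1)
    rw [hy.2] at h1 h2
    refine ⟨y, hy.2, k, w, fun a => PC.zc_comap_iff.2 ?_, fun s hs => ?_⟩
    · rw [image_singleton, image_empty]
      exact h1 a
    · have hs' := PC.zc_comap_iff.1 hs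
      rw [image_singleton, image_empty] at hs'
      refine (h2 s hs').imp fun c hc => PC.bd_comap_iff.2 ?_
      rw [image_singleton, image_empty]
      exact hc

end C73
end
end
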