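import Pool.Agent.MP_94fa45_ag.C73.Adj

/-! Definitions used in the statement for MP_94fa45_ag: derived categories of sheaves, the IC
complex of Deligne, symplectic leaves, Coulomb branches. -/

open CategoryTheory Limits TopologicalSpace Filter Topology

noncomputable section
namespace CB

/-! ### Sheaves of `ℚ`-vector spaces, `D⁺`, `Rf_*`, `j^*`, `j^!`, the IC complex -/

/-- sheaves of `ℚ`-vector spaces -/
abbrev Sh (X : TopCat.{0}) := TopCat.Sheaf (ModuleCat.{0} ℚ) X

instance hasD (X : TopCat.{0}) : HasDerivedCategory.{1} (Sh X) := HasDerivedCategory.standard _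

/-- the bounded below derived category -/
def DP (X : TopCat.{0}) := DerivedCategory.Plus (Sh X)

instance catD (X : TopCat.{0}) : Category.{1} (DP X) := ObjectProperty.FullSubcategory.category _

instance sumD (X : TopCat.{0}) : HasFiniteCoproducts (DP X) :=
  inferInstanceAs (HasFiniteCoproducts (DerivedCategory.Plus (Sh X)))

/-- additive functors -/
def IsAdd {X Y : TopCat.{0}} (F : Sh X ⥤ Sh Y) : Prop := F.Additive

/-- right derived functor -/
def RD {X Y : TopCat.{0}} (F : Sh X ⥤ Sh Y) (h : IsAdd F) : DP X ⥤ DP Y :=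
  haveI : F.Additive := h
  F.rightDerivedFunctorPlus

/-- direct image of sheaves -/
def push {X Y : TopCat.{0}} (f : C(X, Y)) : Sh X ⥤ Sh Y :=
  TopCat.Sheaf.pushforward (ModuleCat.{0} ℚ) (TopCat.ofHom f)

theorem pushAdd {X Y : TopCat.{0}} (f : C(X, Y)) : IsAdd (push f) := C73.pushAdd _

/-- `Rf_*` -/
def Rpush {X Y : TopCat.{0}} (f : C(X, Y)) : DP X ⥤ DP Y := RD (push f) (pushAdd f)

/-- a subset as a space -/
def sub {X : TopCat.{0}} (S : Set X) : TopCat.{0} := TopCat.of S

/-- inclusion of a subset -/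
def inc {X : TopCat.{0}} (S : Set X) : C(sub S, X) := ⟨Subtype.val, continuous_subtype_val⟩

/-- restriction of sheaves to an open subset -/
def res {X : TopCat.{0}} (U : Opens X) : Sh X ⥤ Sh (sub (U : Set X)) :=
  U.isOpenEmbedding.sheafPullback (ModuleCat.{0} ℚ)

theorem resAdd {X : TopCat.{0}} (U : Opens X) : IsAdd (res U) := C73.resAdd U

instance incLeft {X : TopCat.{0}} (Z : Closeds X) : (push (inc (Z : Set X))).IsLeftAdjoint :=
  C73.inc_left Z

theorem shAdd {X : TopCat.{0}} (Z : Closeds X) : IsAdd (push (inc (Z : Set X))).rightAdjoint :=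
  @C73.right_add _ _ _ _ _ _ _ (pushAdd _) _

/-- `j^!` for a closed embedding `j`: the derived functor of the right adjoint of `j_*` -/
def Rshriek {X : TopCat.{0}} (Z : Closeds X) : DP X ⥤ DP (sub (Z : Set X)) :=
  RD (push (inc (Z : Set X))).rightAdjoint (shAdd Z)

/-- the shifted constant sheaf `ℚ_X[n]` -/
def cst (X : TopCat.{0}) (n : ℕ) : DP X :=
  (DerivedCategory.Plus.singleFunctor (Sh X) (-(n : ℤ))).obj
    ((constantSheaf (Opens.grothendieckTopology X) (ModuleCat.{0} ℚ)).obj (ModuleCat.of ℚ ℚ))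

/-- the truncation functor `τ_{≤ c}` -/
def trunc (C : Type 1) [Category.{0} C] [Abelian C] [HasDerivedCategory.{1} C] (c : ℤ) :
    DerivedCategory.Plus C ⥤ DerivedCategory.Plus C := DerivedCategory.Plus.TStructure.t.truncLE c

/-- `τ_{≤ c} Rj_* j^*` for the open embedding `j : U → X` -/
def step {X : TopCat.{0}} (U : Opens X) (c : ℤ) : DP X ⥤ DP X :=
  RD (res U) (resAdd U) ⋙ Rpush (inc (U : Set X)) ⋙ trunc (Sh X) c

/-- the intersection complex (middle perversity, construction of Deligne) of a space whose stratum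
through `x` has complex dimension `dm x`: `P₀ = ℚ[n]`, `P_{t+1} = τ_{≤ t-n} Rj_* j^* P_t` with `j` the
inclusion of the strata of codimension `≤ t`, and `IC = P_n` -/
def IC (X : TopCat.{0}) (dm : X → ℕ) : DP X :=
  let n := sSup (Set.range dm)
  Nat.rec (cst X n)
    (fun t P => (step ⟨interior {x | n ≤ dm x + t}, isOpen_interior⟩ ((t : ℤ) - n)).obj P) n

/-! ### Complex points, rank of a bracket, symplectic leaves, fixed points and limits -/

section
variable (A : Type) [CommRing A] [Algebra ℂ A]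

/-- complex points of `Spec A` with the classical topology (pointwise convergence) -/
def Pt : TopCat.{0} :=
  @TopCat.of (A →ₐ[ℂ] ℂ) (TopologicalSpace.induced (fun x a => x a : _ → A → ℂ) inferInstance)

variable {A}

/-- value of a function at a point -/
def ev (x : Pt A) (a : A) : ℂ := (show A →ₐ[ℂ] ℂ from x) a

/-- rank of the bracket `b` at `x` (dimension of the symplectic leaf through `x`) -/
def rk (b : A → A → A) (x : Pt A) : ℕ :=
  sSup {r | ∃ f g : Fin r → A, (Matrix.of fun i j => ev x (b (f i) (g j))).det ≠ 0}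

/-- `γ` is a trajectory of the Hamiltonian vector field of `f` on `[0,1]` -/
def Traj (b : A → A → A) (f : A) (γ : ℝ → Pt A) : Prop :=
  ∀ g, ∀ t ∈ Set.Icc (0 : ℝ) 1,
    HasDerivWithinAt (fun s => ev (γ s) g) (ev (γ t) (b f g)) (Set.Icc 0 1) t

/-- lying on the same symplectic leaf -/
def Leaf (b : A → A → A) : Pt A → Pt A → Prop :=
  Relation.EqvGen fun x y => ∃ f γ, Traj b f γ ∧ γ 0 = x ∧ γ 1 = y

/-- fixed points of an action `sc` of `ℂˣ` on functions -/
def Fix (sc : ℂˣ → A → A) : Set (Pt A) := {x | ∀ s a, ev x (sc s a) = ev x a}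

/-- `lim_{s → 0} s · x = y` -/
def Lim (sc : ℂˣ → A → A) (x y : Pt A) : Prop :=
  ∀ a, Tendsto (fun s : ℂˣ => ev x (sc s a)) (comap Units.val (𝓝 0)) (𝓝 (ev y a))

open Classical in
/-- an element of `A` viewed in the subalgebra `B` (only used for elements of `B`) -/
def toSub (B : Subalgebra ℂ A) (x : A) : B := if h : x ∈ B then ⟨x, h⟩ else 0
end

/-! ### The Coulomb branch -/

/-- rational functions in the variables `w_a` -/
def KK (I : Type) : Type := FractionRing (MvPolynomial I ℂ)

instance fieldK (I : Type) : Field (KK I) := FractionRing.field _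

instance algP (I : Type) : Algebra (MvPolynomial I ℂ) (KK I) := OreLocalization.instAlgebra

instance algK (I : Type) : Algebra ℂ (KK I) := OreLocalization.instAlgebra

instance fracK (I : Type) : IsFractionRing (MvPolynomial I ℂ) (KK I) := Localization.isLocalization

/-- Laurent polynomials in the `u_a` over `KK I` -/
def LL (I : Type) : Type := AddMonoidAlgebra (KK I) (I → ℤ)

instance ringL (I : Type) : CommRing (LL I) := AddMonoidAlgebra.commRing

instance algL (I : Type) : Algebra ℂ (LL I) := AddMonoidAlgebra.algebra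

section
variable {I ι : Type} [Fintype I] [DecidableEq I]

/-- a polynomial as a rational function -/
def pol (p : MvPolynomial I ℂ) : KK I := algebraMap _ _ p

/-- the monomial `c u^l` -/
def mon (l : I → ℤ) (c : KK I) : LL I := AddMonoidAlgebra.single l c

/-- `∑ F l c` over the monomials `c u^l` of `x` -/
def sumL (x : LL I) (F : (I → ℤ) → KK I → LL I) : LL I := (AddMonoidAlgebra.coeff x).sum F

open Classical MvPolynomial in
/-- Euler factor of the coweight `l` -/
def EE (nd : I → ι) (ar : ι → ι → ℕ) (fr : ι → ℕ) (l : I → ℤ) : KK I :=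
  (∏ a, ∏ b, (pol (X b) - pol (X a)) ^ (ar (nd a) (nd b) * (l a - l b).toNat)) *
    (∏ a, pol (X a) ^ (fr (nd a) * (-l a).toNat)) /
    ∏ a, ∏ b with nd a = nd b, (pol (X a) - pol (X b)) ^ (l a - l b).toNat

open Classical in
/-- dressed monopole operator: sum over the Weyl group of `f · E_l · u^l` -/
def mono (nd : I → ι) (ar : ι → ι → ℕ) (fr : ι → ℕ) (l : I → ℤ) (f : MvPolynomial I ℂ) : LL I :=
  ∑ σ : Equiv.Perm I with ∀ a, nd (σ a) = nd a,
    mon (l ∘ σ.symm) (pol (MvPolynomial.rename σ f) * EE nd ar fr (l ∘ σ.symm))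

/-- the algebra generated by the dressed minuscule monopole operators -/
def Cou (nd : I → ι) (ar : ι → ι → ℕ) (fr : ι → ℕ) : Subalgebra ℂ (LL I) :=
  Algebra.adjoin ℂ {x | ∃ l f, ((∀ a, l a = 0 ∨ l a = 1) ∨ (∀ a, l a = 0 ∨ l a = -1)) ∧
    x = mono nd ar fr l f}

/-- `∂/∂w_a` on rational functions (quotient rule) -/
def pd (a : I) (x : KK I) : KK I :=
  let s := IsLocalization.sec (nonZeroDivisors (MvPolynomial I ℂ)) x
  pol (MvPolynomial.pderiv a s.1 * s.2.1 - s.1 * MvPolynomial.pderiv a s.2.1) / pol (s.2.1 ^ 2)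

/-- the Poisson bracket with `{u_a, w_b} = δ_{ab} u_a` -/
def br (x y : LL I) : LL I :=
  sumL x fun l c => sumL y fun l' c' =>
    mon (l + l') (∑ a, ((l a : KK I) * c * pd a c' - (l' a : KK I) * pd a c * c'))

/-- the action of `s ∈ ℂˣ` through the cocharacter with exponents `m` -/
def scale (m : I → ℤ) (s : ℂˣ) (x : LL I) : LL I :=
  sumL x fun l c => mon l (((s ^ (∑ a, m a * l a) : ℂˣ) : ℂ) • c)

/-- coordinate ring of the Coulomb branch -/
def Cb (nd : I → ι) (ar : ι → ι → ℕ) (fr : ι → ℕ) : Type := Cou nd ar fr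

variable {nd : I → ι} {ar : ι → ι → ℕ} {fr : ι → ℕ}

instance ringC : CommRing (Cb nd ar fr) := Subalgebra.toCommRing _

instance algC : Algebra ℂ (Cb nd ar fr) := Subalgebra.algebra _

/-- the bracket on the coordinate ring -/
def brC (f g : Cb nd ar fr) : Cb nd ar fr := toSub (Cou nd ar fr) (br f.1 g.1)

/-- the action on the coordinate ring -/
def act (m : I → ℤ) (s : ℂˣ) (f : Cb nd ar fr) : Cb nd ar fr := toSub (Cou nd ar fr) (scale m s f.1)
end

/-- coordinate ring of the Coulomb branch of type `A₁` with `dim W = N`, `dim V = k` -/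
abbrev A1 (N k : ℕ) : Type := Cb (fun _ : Fin k => ()) (fun _ _ => 0) (fun _ => N)

end CB
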