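import Mathlib

attribute [-instance]
  CategoryTheory.preservesColimitOfShape_of_createsColimitsOfShape_and_hasColimitsOfShape
  AddMonoidAlgebra.distribMulAction NonUnitalNonAssocSemiring.toAddCommMonoid
  Algebra.Generators.instRing CategoryTheory.Limits.PreservesFiniteColimits.preservesFiniteColimits
  Semiring.toAddCommMonoid ContinuousMonoidHom.instCoeOutOfMonoidHomClassOfContinuousMapClass
  CategoryTheory.Functor.instPreservesColimitsOfShapeOfIsLeftAdjoint
  MonoidWithZeroHomClass.toZeroHomClass instCoeTCOfCoe NonUnitalNonAssocSemiring.toMulZeroClass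
  NonUnitalAlgSemiHomClass.toDistribMulActionSemiHomClass AddGroupConeClass.toAddSubmonoidClass
  ProperSMul.toContinuousSMul CategoryTheory.StrictBicategory.category
  NonUnitalNormedRing.toNormedAddCommGroup AddCommMonoidWithOne.toAddCommMonoid
  CategoryTheory.Groupoid.toCategory

/-! Statement-side definitions for MP_94fa45_ag (Coulomb branches, symplectic leaves, Deligne's IC,
hyperbolic restriction `p_* j^!`). -/

open CategoryTheory Limits TopologicalSpace Opposite Filter Topology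

noncomputable section
namespace C73

/-! ### Sheaves of `ℚ`-vector spaces, `D⁺`, `Rf_*`, `j^*`, `j^!`, Deligne's IC complex -/

abbrev Sh (X : TopCat.{0}) := TopCat.Sheaf (ModuleCat.{0} ℚ) X

instance hasD (X : TopCat.{0}) : HasDerivedCategory.{1} (Sh X) := HasDerivedCategory.standard _

/-- the bounded below derived category of sheaves of `ℚ`-vector spaces -/
abbrev DP (X : TopCat.{0}) := DerivedCategory.Plus (Sh X)

instance pushAdd {X Y : TopCat.{0}} (f : X ⟶ Y) :
    (TopCat.Sheaf.pushforward (ModuleCat.{0} ℚ) f).Additive where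
  map_add := rfl

instance resAdd {X : TopCat.{0}} (U : Opens X) :
    (U.isOpenEmbedding.sheafPullback (ModuleCat.{0} ℚ)).Additive where
  map_add := rfl

/-- `Rf_*` -/
def Rpush {X Y : TopCat.{0}} (f : X ⟶ Y) : DP X ⥤ DP Y :=
  (TopCat.Sheaf.pushforward (ModuleCat.{0} ℚ) f).rightDerivedFunctorPlus

/-- restriction `j^*` to an open subset -/
def Rres {X : TopCat.{0}} (U : Opens X) : DP X ⥤ DP ((Opens.toTopCat X).obj U) :=
  (U.isOpenEmbedding.sheafPullback (ModuleCat.{0} ℚ)).rightDerivedFunctorPlus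

/-- the open set `X ∖ (Z ∖ W)` for `W` open in the closed set `Z` -/
def hat {X : TopCat.{0}} (Z : Closeds X) (W : Opens (TopCat.of Z)) : Opens X :=
  ⟨(Subtype.val '' (W : Set Z)ᶜ)ᶜ,
    (Z.isClosed.isClosedMap_subtype_val _ W.isOpen.isClosed_compl).isOpen_compl⟩

theorem hat_mono {X : TopCat.{0}} (Z : Closeds X) {W W' : Opens (TopCat.of Z)} (h : W ≤ W') :
    hat Z W ≤ hat Z W' :=
  Set.compl_subset_compl.2 (Set.image_mono (Set.compl_subset_compl.2 h))

/-- sections of `F` over `X ∖ (Z ∖ W)` that vanish on `X ∖ Z` -/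
def secOn {X : TopCat.{0}} (Z : Closeds X) (F : Sh X) (W : Opens (TopCat.of Z)) :
    Submodule ℚ (F.obj.obj (op (hat Z W))) :=
  LinearMap.ker (F.obj.map (homOfLE (hat_mono Z (bot_le : ⊥ ≤ W))).op).hom

/-- the presheaf `W ↦ secOn Z F W` on `Z` -/
def shPre {X : TopCat.{0}} (Z : Closeds X) (F : Sh X) :
    TopCat.Presheaf (ModuleCat.{0} ℚ) (TopCat.of Z) where
  obj W := ModuleCat.of ℚ (secOn Z F W.unop)
  map {W W'} h := ModuleCat.ofHom
    (((F.obj.map (homOfLE (hat_mono Z h.unop.le)).op).hom).restrict (p := secOn Z F W.unop)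
      (q := secOn Z F W'.unop) (fun s hs => by
        simp only [secOn, LinearMap.mem_ker] at hs ⊢
        rw [← LinearMap.comp_apply, ← ModuleCat.hom_comp, ← Functor.map_comp]
        exact hs))
  map_id W := by
    ext s
    exact congrArg (fun g => (ModuleCat.Hom.hom g) s.1) (F.obj.map_id (op (hat Z W.unop)))
  map_comp {W W' W''} h h' := by
    ext s
    exact congrArg (fun g => (ModuleCat.Hom.hom g) s.1)
      (F.obj.map_comp (homOfLE (hat_mono Z h.unop.le)).op (homOfLE (hat_mono Z h'.unop.le)).op)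

theorem res_res {X : TopCat.{0}} (F : Sh X) {U V W : Opens X} (h : U ≤ V) (h' : V ≤ W)
    (s : F.obj.obj (op W)) :
    F.obj.map (homOfLE h).op (F.obj.map (homOfLE h').op s) = F.obj.map (homOfLE (h.trans h')).op s := by
  rw [← ConcreteCategory.comp_apply, ← F.obj.map_comp]; rfl

theorem shPre_isSheaf {X : TopCat.{0}} (Z : Closeds X) (F : Sh X) : (shPre Z F).IsSheaf := by
  rw [TopCat.Presheaf.isSheaf_iff_isSheafUniqueGluing]
  intro κ W sf hc
  let W' : Option κ → Opens (TopCat.of Z) := fun o => o.elim ⊥ W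
  have hW' : ∀ o, W' o ≤ iSup W := by
    rintro (_ | i)
    exacts [bot_le, le_iSup W i]
  let sf' : ∀ o, F.obj.obj (op (hat Z (W' o))) := fun o =>
    match o with
    | none => 0
    | some i => (sf i).1
  have hinf : ∀ A B : Opens (TopCat.of Z), hat Z A ⊓ hat Z B ≤ hat Z (A ⊓ B) := by
    rintro A B x ⟨hA, hB⟩ ⟨y, hy, rfl⟩
    exact hy ⟨by_contra fun h => hA ⟨y, h, rfl⟩, by_contra fun h => hB ⟨y, h, rfl⟩⟩
  have hz : ∀ (i : κ) (V : Opens X) (h : V ≤ hat Z (W i)) (_ : V ≤ hat Z ⊥),
      F.obj.map (homOfLE h).op (sf i).1 = 0 := fun i V h h0 => by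
    have h1 : F.obj.map (homOfLE (hat_mono Z (bot_le : ⊥ ≤ W i))).op (sf i).1 = 0 := (sf i).2
    rw [← res_res F h0 (hat_mono Z bot_le), h1, map_zero]
  have hcov : hat Z (iSup W) ≤ iSup fun o => hat Z (W' o) := by
    intro x hx
    by_cases hxZ : x ∈ Z
    · have : (⟨x, hxZ⟩ : Z) ∈ iSup W := by_contra fun h => hx ⟨_, h, rfl⟩
      obtain ⟨i, hi⟩ := Opens.mem_iSup.1 this
      refine Opens.mem_iSup.2 ⟨some i, ?_⟩
      rintro ⟨y, hy, rfl⟩
      exact hy hi
    · refine Opens.mem_iSup.2 ⟨none, ?_⟩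
      rintro ⟨y, -, rfl⟩
      exact hxZ y.2
  have hc' : TopCat.Presheaf.IsCompatible F.obj (fun o => hat Z (W' o)) sf' := by
    rintro (_ | i) (_ | j)
    · exact (map_zero _).trans (map_zero _).symm
    · exact (map_zero _).trans (hz j _ inf_le_right inf_le_left).symm
    · exact (hz i _ inf_le_left inf_le_right).trans (map_zero _).symm
    · have h1 : F.obj.map (homOfLE (hat_mono Z (inf_le_left : W i ⊓ W j ≤ W i))).op (sf i).1 =
          F.obj.map (homOfLE (hat_mono Z (inf_le_right : W i ⊓ W j ≤ W j))).op (sf j).1 :=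
        congrArg Subtype.val (hc i j)
      have h2 := congrArg (F.obj.map (homOfLE (hinf (W i) (W j))).op) h1
      rw [res_res, res_res] at h2
      exact h2
  obtain ⟨s, hs, hu⟩ := F.existsUnique_gluing' _ (hat Z (iSup W))
    (fun o => homOfLE (hat_mono Z (hW' o))) hcov sf' hc'
  refine ⟨⟨s, hs none⟩, fun i => Subtype.ext (hs (some i)), fun t ht => Subtype.ext (hu _ ?_)⟩
  rintro (_ | i)
  · exact t.2
  · exact congrArg Subtype.val (ht i)

/-- the left exact functor `j^!` (sections supported on the closed set `Z`, as a sheaf on `Z`) -/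
def shriek0 {X : TopCat.{0}} (Z : Closeds X) : Sh X ⥤ Sh (TopCat.of Z) where
  obj F := ⟨shPre Z F, shPre_isSheaf Z F⟩
  map {F G} φ := ⟨{
    app := fun W => ModuleCat.ofHom ((φ.hom.app (op (hat Z W.unop))).hom.restrict
      (p := secOn Z F W.unop) (q := secOn Z G W.unop) (fun s hs => by
        simp only [secOn, LinearMap.mem_ker] at hs ⊢
        rw [← LinearMap.comp_apply, ← ModuleCat.hom_comp, ← φ.hom.naturality,
          ModuleCat.hom_comp, LinearMap.comp_apply, hs, map_zero]))
    naturality := fun W W' h => by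
      ext s
      exact Subtype.ext <| congrArg (fun g => (ModuleCat.Hom.hom g) s.1)
        (φ.hom.naturality (homOfLE (hat_mono Z h.unop.le)).op) }⟩
  map_id F := rfl
  map_comp φ ψ := rfl

instance shriekAdd {X : TopCat.{0}} (Z : Closeds X) : (shriek0 Z).Additive where
  map_add := rfl

/-- `j^!` for the closed embedding `j : Z → X` -/
def Rshriek {X : TopCat.{0}} (Z : Closeds X) : DP X ⥤ DP (TopCat.of Z) :=
  (shriek0 Z).rightDerivedFunctorPlus

/-- the shifted constant sheaf `ℚ_X[n]` -/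
def cst (X : TopCat.{0}) (n : ℕ) : DP X :=
  (DerivedCategory.Plus.singleFunctor (Sh X) (-(n : ℤ))).obj
    ((constantSheaf (Opens.grothendieckTopology X) (ModuleCat.{0} ℚ)).obj (ModuleCat.of ℚ ℚ))

/-- union of the strata of codimension `≤ t`; `dm x` is the dimension of the stratum of `x` -/
def opn {X : TopCat.{0}} (dm : X → ℕ) (n t : ℕ) : Opens X :=
  ⟨interior {x | n ≤ dm x + t}, isOpen_interior⟩

/-- Deligne's recursion `P₀ = ℚ[n]`, `P_{t+1} = τ_{≤ t-n} Rj_* j^* P_t` -/
def del {X : TopCat.{0}} (dm : X → ℕ) (n : ℕ) : ℕ → DP X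
  | 0 => cst X n
  | t + 1 => (DerivedCategory.Plus.TStructure.t.truncLE ((t : ℤ) - n)).obj
      ((Rpush (opn dm n t).inclusion').obj ((Rres (opn dm n t)).obj (del dm n t)))

/-- the intersection complex (middle perversity) of a space stratified by `dm` -/
def IC (X : TopCat.{0}) (dm : X → ℕ) : DP X :=
  del dm (sSup (Set.range dm)) (sSup (Set.range dm))

/-! ### Complex points, rank of a bracket, symplectic leaves -/

/-- complex points of `Spec A` -/
def Pt (A : Type) [CommRing A] [Algebra ℂ A] := A →ₐ[ℂ] ℂ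

instance (A : Type) [CommRing A] [Algebra ℂ A] : FunLike (Pt A) A ℂ :=
  inferInstanceAs (FunLike (A →ₐ[ℂ] ℂ) A ℂ)

instance (A : Type) [CommRing A] [Algebra ℂ A] : AlgHomClass (Pt A) ℂ A ℂ :=
  inferInstanceAs (AlgHomClass (A →ₐ[ℂ] ℂ) ℂ A ℂ)

/-- the classical topology (pointwise convergence) -/
instance (A : Type) [CommRing A] [Algebra ℂ A] : TopologicalSpace (Pt A) :=
  TopologicalSpace.induced (fun x a => x a : Pt A → A → ℂ) inferInstance

section
variable {A : Type} [CommRing A] [Algebra ℂ A]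

/-- rank of the bracket `b` at `x` (dimension of the symplectic leaf through `x`) -/
def rk (b : A → A → A) (x : Pt A) : ℕ :=
  sSup {r | ∃ f g : Fin r → A, (Matrix.of fun i j => x (b (f i) (g j))).det ≠ 0}

/-- `γ` is a trajectory of the Hamiltonian vector field of `f` on `[0,1]` -/
def Traj (b : A → A → A) (f : A) (γ : ℝ → Pt A) : Prop :=
  ∀ g, ∀ t ∈ Set.Icc (0 : ℝ) 1,
    HasDerivWithinAt (fun s => γ s g) (γ t (b f g)) (Set.Icc 0 1) t

/-- lying on the same symplectic leaf -/
def Leaf (b : A → A → A) : Pt A → Pt A → Prop :=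
  Relation.EqvGen fun x y => ∃ f γ, Traj b f γ ∧ γ 0 = x ∧ γ 1 = y
end

/-! ### The Coulomb branch -/

abbrev PP (I : Type) := MvPolynomial I ℂ
abbrev KK (I : Type) := FractionRing (PP I)
abbrev LL (I : Type) := AddMonoidAlgebra (KK I) (I → ℤ)

section
variable {I ι : Type} [Fintype I] [DecidableEq I]

def ww (a : I) : KK I := algebraMap (PP I) (KK I) (MvPolynomial.X a)

open Classical in
/-- Euler factor of the coweight `l` -/
def EE (nd : I → ι) (ar : ι → ι → ℕ) (fr : ι → ℕ) (l : I → ℤ) : KK I :=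
  (∏ a, ∏ b, (ww b - ww a) ^ (ar (nd a) (nd b) * (l a - l b).toNat)) *
    (∏ a, ww a ^ (fr (nd a) * (-l a).toNat)) /
    ∏ a, ∏ b with nd a = nd b, (ww a - ww b) ^ (l a - l b).toNat

open Classical in
/-- dressed monopole operator: sum over the Weyl group of `f · E_l · u^l` -/
def mono (nd : I → ι) (ar : ι → ι → ℕ) (fr : ι → ℕ) (l : I → ℤ) (f : PP I) : LL I :=
  ∑ σ : Equiv.Perm I with ∀ a, nd (σ a) = nd a,
    AddMonoidAlgebra.single (l ∘ σ.symm)
      (algebraMap (PP I) (KK I) (MvPolynomial.rename σ f) * EE nd ar fr (l ∘ σ.symm))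

/-- coordinate ring of the Coulomb branch: generated by the dressed minuscule monopole operators -/
def Cou (nd : I → ι) (ar : ι → ι → ℕ) (fr : ι → ℕ) : Subalgebra ℂ (LL I) :=
  Algebra.adjoin ℂ {x | ∃ l f, ((∀ a, l a = 0 ∨ l a = 1) ∨ (∀ a, l a = 0 ∨ l a = -1)) ∧
    x = mono nd ar fr l f}

/-- `∂/∂w_a` on rational functions (quotient rule) -/
def pd (a : I) (x : KK I) : KK I :=
  let s := IsLocalization.sec (nonZeroDivisors (PP I)) x
  algebraMap (PP I) (KK I) (MvPolynomial.pderiv a s.1 * s.2.1 - s.1 * MvPolynomial.pderiv a s.2.1) /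
    algebraMap (PP I) (KK I) (s.2.1 ^ 2)

/-- the Poisson bracket with `{u_a, w_b} = δ_{ab} u_a` -/
def br (x y : LL I) : LL I :=
  x.coeff.sum fun l c => y.coeff.sum fun l' c' =>
    AddMonoidAlgebra.single (l + l') (∑ a, ((l a : KK I) * c * pd a c' - (l' a : KK I) * pd a c * c'))

/-- the action of `s ∈ ℂˣ` through the cocharacter with exponents `m` -/
def scale (m : I → ℤ) (s : ℂˣ) (x : LL I) : LL I :=
  x.coeff.sum fun l c => AddMonoidAlgebra.single l (((s ^ (∑ a, m a * l a) : ℂˣ) : ℂ) • c)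

open Classical in
/-- an element of `LL I` viewed in the subalgebra `A` (only used for elements of `A`) -/
def toSub (A : Subalgebra ℂ (LL I)) (x : LL I) : A := if h : x ∈ A then ⟨x, h⟩ else 0

/-- the bracket on `A` -/
def brA (A : Subalgebra ℂ (LL I)) (f g : A) : A := toSub A (br f g)

/-- fixed points of the cocharacter -/
def Fix (A : Subalgebra ℂ (LL I)) (m : I → ℤ) : Set (Pt A) :=
  {x | ∀ (s : ℂˣ) (a : A), x (toSub A (scale m s a)) = x a}

/-- `lim_{s → 0} s · x = y` -/
def Lim (A : Subalgebra ℂ (LL I)) (m : I → ℤ) (x y : Pt A) : Prop :=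
  ∀ a : A, Tendsto (fun s : ℂˣ => x (toSub A (scale m s a))) (comap Units.val (𝓝 0)) (𝓝 (y a))
end

/-- Coulomb branch of the `A₁` theory with `dim V = m`, `dim W = N` -/
abbrev CouA1 (N m : ℕ) : Subalgebra ℂ (LL (Fin m)) :=
  Cou (fun _ => ()) (fun _ _ => 0) (fun _ => N)

end C73
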